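import Pool.Agent.Helper930.HS.TeB

set_option autoImplicit false

open MeasureTheory Metric Set Filter Topology
open scoped ENNReal NNReal ContDiff

namespace H930.HS.XAdW

open H930.BL



theorem adw_qs {m : ℕ} (c y : E m) :
    HasFDerivAt (qs c) (∑ a, (2 * (y a - c a)) • (ContinuousLinearMap.proj a : E m →L[ℝ] ℝ)) y := by
  have h : HasFDerivAt (fun y : E m => ∑ a, (y a - c a) ^ 2)
      (∑ a, (2 * (y a - c a)) • (ContinuousLinearMap.proj a : E m →L[ℝ] ℝ)) y := by
    refine HasFDerivAt.fun_sum (fun a _ => ?_)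
    have h1 : HasFDerivAt (fun y : E m => y a - c a)
        (ContinuousLinearMap.proj a : E m →L[ℝ] ℝ) y := (hasFDerivAt_apply a y).sub_const (c a)
    have h2 := h1.pow 2
    simpa using h2
  exact h

theorem adw_sum_single {m : ℕ} (v : E m) (b : Fin m) :
    (∑ a, v a • (ContinuousLinearMap.proj a : E m →L[ℝ] ℝ)) (Pi.single b 1) = v b := by
  simp [Pi.single_apply]

theorem adw_kf_diff (q : ℝ) : HasDerivAt kf (deriv kf q) q := by
  have h : Differentiable ℝ kf := by
    unfold kf
    have h1 : Differentiable ℝ Real.smoothTransition :=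
      (Real.smoothTransition.contDiff (n := 1)).differentiable (by simp)
    exact h1.comp (by fun_prop)
  exact (h q).hasDerivAt

theorem adw_kfqs {m : ℕ} (c y : E m) :
    HasFDerivAt (fun y => kf (qs c y))
      (deriv kf (qs c y) • ∑ a, (2 * (y a - c a)) • (ContinuousLinearMap.proj a : E m →L[ℝ] ℝ)) y :=
  (adw_kf_diff (qs c y)).comp_hasFDerivAt y (adw_qs c y)

theorem adw_pd_kfqs {m : ℕ} (c y : E m) (b : Fin m) : pd (fun y => kf (qs c y)) b y = kb c y b := by
  unfold pd
  rw [(adw_kfqs c y).fderiv, ContinuousLinearMap.smul_apply,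
    adw_sum_single (fun a => 2 * (y a - c a)) b]
  rfl

theorem adw_Pe {m : ℕ} (c e y : E m) (a : Fin m) :
    HasFDerivAt (fun y : E m => Pe e (fun b => y b - c b) a)
      ((ContinuousLinearMap.proj a : E m →L[ℝ] ℝ) -
        e a • ∑ b, e b • (ContinuousLinearMap.proj b : E m →L[ℝ] ℝ)) y := by
  unfold Pe
  have h1 : ∀ a, HasFDerivAt (fun y : E m => y a - c a)
        (ContinuousLinearMap.proj a : E m →L[ℝ] ℝ) y :=
    fun a => (hasFDerivAt_apply a y).sub_const (c a)
  have h2 : HasFDerivAt (fun y : E m => ∑ b, e b * (y b - c b))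
      (∑ b, e b • (ContinuousLinearMap.proj b : E m →L[ℝ] ℝ)) y :=
    HasFDerivAt.fun_sum (fun b _ => (h1 b).const_mul (e b))
  exact (h1 a).sub (h2.const_mul (e a))

theorem adw_pd_Pe {m : ℕ} (c e y : E m) (a b : Fin m) :
    pd (fun y : E m => Pe e (fun b => y b - c b) a) b y =
      (if a = b then 1 else 0) - e a * e b := by
  unfold pd
  rw [(adw_Pe c e y a).fderiv, ContinuousLinearMap.sub_apply, ContinuousLinearMap.smul_apply,
    adw_sum_single e b]
  simp [Pi.single_apply]

theorem adw_congr {m : ℕ} {f g : E m → ℝ} {y : E m} (h : f =ᶠ[𝓝 y] g) (b : Fin m) :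
    pd f b y = pd g b y := by
  unfold pd
  rw [h.fderiv_eq]

theorem adw_qs_cont {m : ℕ} (c : E m) : Continuous (qs c) := by
  unfold qs
  fun_prop

theorem adw_Tf {q : ℝ} (h : q < 144) : Tf q = 1 := by
  unfold Tf
  rw [Real.smoothTransition.zero_of_nonpos (by linarith)]
  ring

theorem adw_kf {q : ℝ} (h : 1 ≤ q) : kf q = 1 := by
  unfold kf
  rw [Real.smoothTransition.one_of_one_le (by linarith)]

theorem adw_te {n : ℕ} (u : E n → E (n + 1)) (e : E (n + 1)) (x : E n) :
    te u e x = fn (Dm u x) ^ (n - 2) *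
      ∑ a, ∑ b, ((if a = b then 1 else 0) - e a * e b) * ∑ j, Dm u x a j * Dm u x b j := by
  unfold te
  congr 1
  have h1 : ∑ a, ∑ b, ((if a = b then (1 : ℝ) else 0) - e a * e b) * ∑ j, Dm u x a j * Dm u x b j =
      (∑ a, ∑ j, Dm u x a j ^ 2) - ∑ j, (∑ a, e a * Dm u x a j) ^ 2 := by
    simp only [sub_mul, Finset.sum_sub_distrib]
    congr 1
    · refine Finset.sum_congr rfl (fun a _ => ?_)
      simp only [ite_mul, one_mul, zero_mul, Finset.sum_ite_eq, Finset.mem_univ, if_true]
      exact Finset.sum_congr rfl (fun j _ => (sq _).symm)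
    · have h2 : ∀ j, (∑ a, e a * Dm u x a j) ^ 2 =
          ∑ a, ∑ b, (e a * Dm u x a j) * (e b * Dm u x b j) := by
        intro j
        rw [sq, Finset.sum_mul_sum]
      simp only [h2, Finset.mul_sum]
      rw [Finset.sum_comm' (s := Finset.univ) (t := fun _ => Finset.univ) (t' := Finset.univ)
        (s' := fun _ => Finset.univ) (by simp)]
      rw [Finset.sum_comm]
      have h3 : ∀ f : Fin (n + 1) → Fin (n + 1) → Fin n → ℝ,
          ∑ b, ∑ a, ∑ j, f a b j = ∑ j, ∑ a, ∑ b, f a b j := by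
        intro f
        rw [Finset.sum_comm]
        calc ∑ a, ∑ b, ∑ j, f a b j = ∑ a, ∑ j, ∑ b, f a b j :=
              Finset.sum_congr rfl (fun a _ => Finset.sum_comm)
          _ = ∑ j, ∑ a, ∑ b, f a b j := Finset.sum_comm
      rw [Finset.sum_comm, h3 (fun a b j => e a * e b * (Dm u x a j * Dm u x b j))]
      refine Finset.sum_congr rfl (fun j _ => Finset.sum_congr rfl (fun a _ =>
        Finset.sum_congr rfl (fun b _ => ?_)))
      ring
  rw [h1]
  congr 1
  unfold fn
  rw [Real.sq_sqrt (Finset.sum_nonneg fun a _ => Finset.sum_nonneg fun b _ => sq_nonneg _)]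

/-- the general computation -/
theorem adw_gen {n : ℕ} (u : E n → E (n + 1)) (c e : E (n + 1)) (x : E n)
    (f : E (n + 1) → ℝ) (hf : DifferentiableAt ℝ f (u x)) (W : E (n + 1) → E (n + 1))
    (hW : ∀ a, (fun y => W y a) =ᶠ[𝓝 (u x)] fun y => f y * Pe e (fun b => y b - c b) a) :
    ad u W x = f (u x) * te u e x + fn (Dm u x) ^ (n - 2) *
      ∑ a, Pe e (fun b => u x b - c b) a * ∑ b, pd f b (u x) * ∑ j, Dm u x a j * Dm u x b j := by
  have h1 : ∀ a b, pd (fun y => W y a) b (u x) =
      f (u x) * ((if a = b then 1 else 0) - e a * e b) +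
        Pe e (fun b => u x b - c b) a * pd f b (u x) := by
    intro a b
    rw [adw_congr (hW a) b, pd_mul hf (adw_Pe c e (u x) a).differentiableAt, adw_pd_Pe]
  rw [adw_te]
  unfold ad
  simp only [h1]
  rw [← mul_assoc, mul_comm (f (u x)), mul_assoc, ← mul_add]
  congr 1
  rw [Finset.mul_sum, ← Finset.sum_add_distrib]
  refine Finset.sum_congr rfl (fun a _ => ?_)
  rw [Finset.mul_sum, Finset.mul_sum, ← Finset.sum_add_distrib]
  refine Finset.sum_congr rfl (fun b _ => ?_)
  ring

theorem ad_Wt {n : ℕ} (hn : 2 ≤ n) (u : E n → E (n + 1)) (c e : E (n + 1)) (he : Ue e) (x : E n)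
    (hx : qs c (u x) < 144) :
    ad u (Wt c e) x = kf (qs c (u x)) * te u e x + fn (Dm u x) ^ (n - 2) *
      ∑ a, Pe e (fun b => u x b - c b) a * ∑ b, kb c (u x) b * ∑ j, Dm u x a j * Dm u x b j := by
  have h := adw_gen u c e x (fun y => kf (qs c y)) (adw_kfqs c (u x)).differentiableAt (Wt c e)
    (fun a => by
      have ho : IsOpen {y : E (n + 1) | qs c y < 144} :=
        isOpen_lt (adw_qs_cont c) continuous_const
      filter_upwards [ho.mem_nhds hx] with y hy
      show kf (qs c y) * Tf (qs c y) * Pe e (fun b => y b - c b) a = _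
      rw [adw_Tf hy, mul_one])
  simp only [adw_pd_kfqs] at h
  exact h

theorem ad_Wk {n : ℕ} (hn : 2 ≤ n) (u : E n → E (n + 1)) (c c' e : E (n + 1)) (he : Ue e)
    (hc : qs c c' ≤ 104) (x : E n) :
    ad u (Wk c c' e) x = (1 - kf (qs c' (u x))) * te u e x - fn (Dm u x) ^ (n - 2) *
      ∑ a, Pe e (fun b => u x b - c b) a * ∑ b, kb c' (u x) b * ∑ j, Dm u x a j * Dm u x b j := by
  by_cases hx : qs c (u x) < 144
  · have h := adw_gen u c e x (fun y => 1 - kf (qs c' y))
      ((adw_kfqs c' (u x)).differentiableAt.const_sub 1) (Wk c c' e)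
      (fun a => by
        have ho : IsOpen {y : E (n + 1) | qs c y < 144} :=
          isOpen_lt (adw_qs_cont c) continuous_const
        filter_upwards [ho.mem_nhds hx] with y hy
        show (1 - kf (qs c' y)) * Tf (qs c y) * Pe e (fun b => y b - c b) a = _
        rw [adw_Tf hy, mul_one])
    simp only [pd_one_sub, adw_pd_kfqs] at h
    have h5 : ∑ a, Pe e (fun b => u x b - c b) a * ∑ b, -kb c' (u x) b *
        ∑ j, Dm u x a j * Dm u x b j = -∑ a, Pe e (fun b => u x b - c b) a *
          ∑ b, kb c' (u x) b * ∑ j, Dm u x a j * Dm u x b j := by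
      rw [← Finset.sum_neg_distrib]
      refine Finset.sum_congr rfl (fun a _ => ?_)
      rw [← mul_neg, ← Finset.sum_neg_distrib]
      congr 1
      refine Finset.sum_congr rfl (fun b _ => ?_)
      ring
    rw [h, h5]
    ring
  · have hx1 : 1 < qs c' (u x) := by
      by_contra hcon
      push Not at hcon
      apply hx
      have h1 : qs c (u x) ≤ 11 * qs c' (u x) + 11 / 10 * qs c c' := by
        unfold qs
        rw [Finset.mul_sum, Finset.mul_sum, ← Finset.sum_add_distrib]
        refine Finset.sum_le_sum (fun a _ => ?_)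
        nlinarith [sq_nonneg (10 * (u x a - c' a) - (c' a - c a))]
      linarith
    have ho : {y : E (n + 1) | 1 < qs c' y} ∈ 𝓝 (u x) :=
      (isOpen_lt continuous_const (adw_qs_cont c')).mem_nhds hx1
    have h1 : ∀ a b, pd (fun y => Wk c c' e y a) b (u x) = 0 := by
      intro a b
      have h2 : (fun y => Wk c c' e y a) =ᶠ[𝓝 (u x)] fun _ => (0 : ℝ) := by
        filter_upwards [ho] with y hy
        have hy' : 1 < qs c' y := hy
        show (1 - kf (qs c' y)) * Tf (qs c y) * Pe e (fun b => y b - c b) a = 0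
        rw [adw_kf hy'.le]
        ring
      rw [adw_congr h2 b]
      unfold pd
      simp
    have h3 : ∀ b, kb c' (u x) b = 0 := by
      intro b
      rw [← adw_pd_kfqs]
      have h2 : (fun y => kf (qs c' y)) =ᶠ[𝓝 (u x)] fun _ => (1 : ℝ) := by
        filter_upwards [ho] with y hy
        have hy' : 1 < qs c' y := hy
        exact adw_kf hy'.le
      rw [adw_congr h2 b]
      unfold pd
      simp
    unfold ad
    simp only [h1, h3]
    rw [adw_kf hx1.le]
    simp

theorem ad_flux {n : ℕ} (hn : 2 ≤ n) (u : E n → E (n + 1)) (c : E (n + 1)) (a0 : Fin (n + 1))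
    (x : E n) :
    ad u (fun y a => if a = a0 then kf (qs c y) else 0) x =
      fn (Dm u x) ^ (n - 2) * ∑ b, kb c (u x) b * ∑ j, Dm u x a0 j * Dm u x b j ∧
    ad u (fun y a => if a = a0 then 1 - kf (qs c y) else 0) x =
      -(fn (Dm u x) ^ (n - 2) * ∑ b, kb c (u x) b * ∑ j, Dm u x a0 j * Dm u x b j) := by
  have key : ∀ f : E (n + 1) → ℝ, ad u (fun y a => if a = a0 then f y else 0) x =
      fn (Dm u x) ^ (n - 2) * ∑ b, pd f b (u x) * ∑ j, Dm u x a0 j * Dm u x b j := by
    intro f
    unfold ad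
    congr 1
    rw [Finset.sum_eq_single a0]
    · refine Finset.sum_congr rfl (fun b _ => ?_)
      simp
    · intro a _ ha
      refine Finset.sum_eq_zero (fun b _ => ?_)
      have : pd (fun _ : E (n + 1) => (0 : ℝ)) b (u x) = 0 := by
        unfold pd
        simp
      simp only [ha, if_false]
      rw [this, zero_mul]
    · intro h
      exact absurd (Finset.mem_univ a0) h
  constructor
  · rw [key]
    simp only [adw_pd_kfqs]
  · rw [key]
    simp only [pd_one_sub, adw_pd_kfqs]
    rw [← mul_neg, ← Finset.sum_neg_distrib]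
    congr 1
    refine Finset.sum_congr rfl (fun b _ => ?_)
    ring

end H930.HS.XAdW

namespace H930.HS

export XAdW (ad_Wt ad_Wk ad_flux)

end H930.HS
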