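import Pool.Agent.Helper930.HS.MollS

set_option autoImplicit false

open MeasureTheory Metric Set Filter Topology
open scoped ENNReal NNReal ContDiff

namespace H930.HS.XApxE

open H930.BL



lemma dct_aux988 {X : Type*} [MeasurableSpace X] {μ : Measure X} {F d : ℕ → X → ℝ} {G : X → ℝ}
    (hF0 : ∀ k x, 0 ≤ F k x) (hFm : ∀ k, AEStronglyMeasurable (F k) μ)
    (hd0 : ∀ k x, 0 ≤ d k x) (hd : ∀ k, Integrable (d k) μ)
    (hdt : Tendsto (fun k => ∫ x, d k x ∂μ) atTop (𝓝 0))
    (hG : Integrable G μ) (hFG : ∀ k x, F k x ≤ d k x + G x)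
    (hae : ∀ᵐ x ∂μ, Tendsto (fun k => F k x) atTop (𝓝 0)) :
    Tendsto (fun k => ∫ x, F k x ∂μ) atTop (𝓝 0) := by
  have hFi : ∀ k, Integrable (F k) μ := fun k => by
    refine Integrable.mono' ((hd k).add hG) (hFm k) (ae_of_all _ fun x => ?_)
    rw [Real.norm_eq_abs, abs_of_nonneg (hF0 k x)]
    exact hFG k x
  have hR : Tendsto (fun k => ∫ x, max (F k x - d k x) 0 ∂μ) atTop (𝓝 (∫ _x, (0 : ℝ) ∂μ)) := by
    refine tendsto_integral_of_dominated_convergence (fun x => |G x|) (fun k => ?_) hG.abs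
      (fun k => ae_of_all _ fun x => ?_) ?_
    · exact ((hFi k).sub (hd k)).pos_part.aestronglyMeasurable
    · rw [Real.norm_eq_abs, abs_of_nonneg (le_max_right _ _)]
      refine max_le ?_ (abs_nonneg _)
      have := hFG k x
      linarith [le_abs_self (G x)]
    · filter_upwards [hae] with x hx
      refine squeeze_zero (fun k => le_max_right _ _) (fun k => ?_) hx
      refine max_le ?_ (hF0 k x)
      linarith [hd0 k x]
  rw [integral_zero] at hR
  have h2 := hR.add hdt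
  rw [add_zero] at h2
  refine squeeze_zero (fun k => integral_nonneg (hF0 k)) (fun k => ?_) h2
  have hRi : Integrable (fun x => max (F k x - d k x) 0) μ := ((hFi k).sub (hd k)).pos_part
  rw [← integral_add hRi (hd k)]
  refine integral_mono (hFi k) (hRi.add (hd k)) fun x => ?_
  show F k x ≤ max (F k x - d k x) 0 + d k x
  linarith [le_max_left (F k x - d k x) 0]

lemma sub_aux988 {X : Type*} [MeasurableSpace X] {μ : Measure X} {T : ℕ → X → ℝ}
    (hT0 : ∀ k x, 0 ≤ T k x) (hTi : ∀ k, Integrable (T k) μ)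
    (hT : Tendsto (fun k => ∫ x, T k x ∂μ) atTop (𝓝 0)) :
    ∃ ns : ℕ → ℕ, StrictMono ns ∧ ∀ᵐ x ∂μ, Tendsto (fun k => T (ns k) x) atTop (𝓝 0) := by
  have h1 : TendstoInMeasure μ T atTop (fun _ => (0 : ℝ)) := by
    refine tendstoInMeasure_of_tendsto_eLpNorm (p := 1) one_ne_zero
      (fun k => (hTi k).aestronglyMeasurable) aestronglyMeasurable_const ?_
    have h2 : ∀ k, eLpNorm (T k - fun _ => (0 : ℝ)) 1 μ = ENNReal.ofReal (∫ x, T k x ∂μ) := by
      intro k
      rw [eLpNorm_one_eq_lintegral_enorm, ofReal_integral_eq_lintegral_ofReal (hTi k)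
        (ae_of_all _ (hT0 k))]
      refine lintegral_congr fun x => ?_
      rw [Pi.sub_apply, sub_zero, Real.enorm_eq_ofReal (hT0 k x)]
    simp_rw [h2]
    have := ENNReal.tendsto_ofReal hT
    rwa [ENNReal.ofReal_zero] at this
  exact h1.exists_seq_tendsto_ae

lemma abs_le_fn988 {m n : ℕ} (P : Matrix (Fin m) (Fin n) ℝ) (i : Fin m) (j : Fin n) :
    |P i j| ≤ fn P := by
  unfold fn
  apply Real.abs_le_sqrt
  calc P i j ^ 2 ≤ ∑ b, P i b ^ 2 :=
        Finset.single_le_sum (f := fun b => P i b ^ 2) (fun _ _ => sq_nonneg _) (Finset.mem_univ j)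
    _ ≤ _ := Finset.single_le_sum (f := fun a => ∑ b, P a b ^ 2)
        (fun _ _ => Finset.sum_nonneg fun _ _ => sq_nonneg _) (Finset.mem_univ i)

lemma fn_nonneg988 {m n : ℕ} (P : Matrix (Fin m) (Fin n) ℝ) : 0 ≤ fn P := Real.sqrt_nonneg _

lemma fn_le_sum988 {m n : ℕ} (P : Matrix (Fin m) (Fin n) ℝ) : fn P ≤ ∑ i, ∑ j, |P i j| := by
  unfold fn
  have h0 : 0 ≤ ∑ i, ∑ j, |P i j| :=
    Finset.sum_nonneg fun _ _ => Finset.sum_nonneg fun _ _ => abs_nonneg _
  rw [Real.sqrt_le_left h0]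
  calc ∑ a, ∑ b, P a b ^ 2 ≤ ∑ a, (∑ b, |P a b|) ^ 2 := by
        refine Finset.sum_le_sum fun a _ => ?_
        have := Finset.sum_sq_le_sq_sum_of_nonneg (s := Finset.univ) (f := fun b => |P a b|)
          (fun _ _ => abs_nonneg _)
        simpa [sq_abs] using this
    _ ≤ _ := Finset.sum_sq_le_sq_sum_of_nonneg (s := Finset.univ) (f := fun a => ∑ b, |P a b|)
        (fun _ _ => Finset.sum_nonneg fun _ _ => abs_nonneg _)

lemma pow_sum988 {ι : Type*} [Fintype ι] (f : ι → ℝ) (hf : ∀ i, 0 ≤ f i) {n : ℕ} (hn : 1 ≤ n) :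
    (∑ i, f i) ^ n ≤ (Fintype.card ι : ℝ) ^ n * ∑ i, f i ^ n := by
  have h1 : ∀ i, f i ≤ ∑ j, f j := fun i =>
    Finset.single_le_sum (f := f) (fun j _ => hf j) (Finset.mem_univ i)
  rcases isEmpty_or_nonempty ι with h | h
  · simp [Finset.univ_eq_empty]
    rw [zero_pow (by omega)]
  · obtain ⟨i, hi⟩ := Finite.exists_max f
    have h2 : ∑ j, f j ≤ (Fintype.card ι : ℝ) * f i := by
      calc ∑ j, f j ≤ ∑ _j : ι, f i := Finset.sum_le_sum fun j _ => hi j
        _ = _ := by simp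
    calc (∑ j, f j) ^ n ≤ ((Fintype.card ι : ℝ) * f i) ^ n :=
          pow_le_pow_left₀ (Finset.sum_nonneg fun j _ => hf j) h2 n
      _ = (Fintype.card ι : ℝ) ^ n * f i ^ n := mul_pow _ _ _
      _ ≤ _ := by
          refine mul_le_mul_of_nonneg_left ?_ (by positivity)
          exact Finset.single_le_sum (f := fun i => f i ^ n) (fun j _ => pow_nonneg (hf j) n)
            (Finset.mem_univ i)

lemma fn_pow988 {m n : ℕ} (P : Matrix (Fin m) (Fin n) ℝ) {q : ℕ} (hq : 1 ≤ q) :
    fn P ^ q ≤ ((m * n : ℕ) : ℝ) ^ q * ∑ i, ∑ j, |P i j| ^ q := by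
  have h1 : ∑ i, ∑ j, |P i j| = ∑ p : Fin m × Fin n, |P p.1 p.2| := by
    rw [Fintype.sum_prod_type]
  have h2 : ∑ i, ∑ j, |P i j| ^ q = ∑ p : Fin m × Fin n, |P p.1 p.2| ^ q := by
    rw [Fintype.sum_prod_type]
  have h3 := pow_sum988 (fun p : Fin m × Fin n => |P p.1 p.2|) (fun _ => abs_nonneg _) hq
  rw [Fintype.card_prod, Fintype.card_fin, Fintype.card_fin, ← h1, ← h2] at h3
  exact (pow_le_pow_left₀ (fn_nonneg988 P) (fn_le_sum988 P) q).trans h3

lemma fn_pow_sub988 {m n : ℕ} (P P' : Matrix (Fin m) (Fin n) ℝ) {q : ℕ} (hq : 1 ≤ q) :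
    fn P ^ q ≤ ((m * n : ℕ) : ℝ) ^ q * 2 ^ q *
      ((∑ i, ∑ j, |P i j - P' i j| ^ q) + ∑ i, ∑ j, |P' i j| ^ q) := by
  refine (fn_pow988 P hq).trans ?_
  rw [mul_assoc]
  refine mul_le_mul_of_nonneg_left ?_ (by positivity)
  rw [← Finset.sum_add_distrib, Finset.mul_sum]
  refine Finset.sum_le_sum fun i _ => ?_
  rw [← Finset.sum_add_distrib, Finset.mul_sum]
  refine Finset.sum_le_sum fun j _ => ?_
  have h1 : |P i j| ≤ |P i j - P' i j| + |P' i j| := by
    have := abs_add_le (P i j - P' i j) (P' i j)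
    simpa using this
  refine (pow_le_pow_left₀ (abs_nonneg _) h1 q).trans ?_
  rcases le_total |P i j - P' i j| |P' i j| with h | h
  · calc (|P i j - P' i j| + |P' i j|) ^ q ≤ (2 * |P' i j|) ^ q :=
          pow_le_pow_left₀ (by positivity) (by linarith) q
      _ = 2 ^ q * |P' i j| ^ q := mul_pow _ _ _
      _ ≤ _ := by
          refine mul_le_mul_of_nonneg_left ?_ (by positivity)
          have : 0 ≤ |P i j - P' i j| ^ q := by positivity
          linarith
  · calc (|P i j - P' i j| + |P' i j|) ^ q ≤ (2 * |P i j - P' i j|) ^ q :=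
          pow_le_pow_left₀ (by positivity) (by linarith) q
      _ = 2 ^ q * |P i j - P' i j| ^ q := mul_pow _ _ _
      _ ≤ _ := by
          refine mul_le_mul_of_nonneg_left ?_ (by positivity)
          have : 0 ≤ |P' i j| ^ q := by positivity
          linarith

lemma Jc_le988 {n : ℕ} (P : Matrix (Fin (n + 1)) (Fin n) ℝ) (i : Fin (n + 1)) :
    |Jc P i| ≤ (n.factorial : ℝ) * fn P ^ n := by
  unfold Jc
  rw [abs_mul, abs_pow, abs_neg, abs_one, one_pow, one_mul]
  have h := Matrix.det_le (A := P.submatrix i.succAbove id) (abv := AbsoluteValue.abs) (x := fn P)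
    (fun a b => abs_le_fn988 P _ _)
  simpa [Fintype.card_fin, nsmul_eq_mul] using h

lemma A_le988 {n : ℕ} (hn : 2 ≤ n) (P : Matrix (Fin (n + 1)) (Fin n) ℝ) (i : Fin (n + 1))
    (j : Fin n) : |fn P ^ (n - 2) * P i j| ≤ fn P ^ (n - 1) := by
  rw [abs_mul, abs_of_nonneg (pow_nonneg (fn_nonneg988 P) _)]
  have h1 : n - 1 = (n - 2) + 1 := by omega
  rw [h1, pow_succ]
  exact mul_le_mul_of_nonneg_left (abs_le_fn988 P i j) (pow_nonneg (fn_nonneg988 P) _)

lemma continuous_fn988 {m n : ℕ} : Continuous (fun P : Matrix (Fin m) (Fin n) ℝ => fn P) := by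
  unfold fn
  refine Real.continuous_sqrt.comp ?_
  exact continuous_finsetSum _ fun i _ => continuous_finsetSum _ fun j _ =>
    ((continuous_apply_apply i j)).pow 2

lemma continuous_Jc988 {n : ℕ} (i : Fin (n + 1)) :
    Continuous (fun P : Matrix (Fin (n + 1)) (Fin n) ℝ => Jc P i) := by
  unfold Jc
  exact continuous_const.mul (continuous_id.matrix_submatrix _ _).matrix_det

lemma continuous_Dm988 {n m : ℕ} {v : E n → E m} (hv : ContDiff ℝ ∞ v) : Continuous (Dm v) := by
  refine continuous_matrix fun i j => ?_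
  exact continuous_pd ((contDiff_pi.1 (hv.of_le (by exact_mod_cast le_top))) i) j

/-- the error density -/
noncomputable def nu988 {n : ℕ} (H : E (n + 1) → ℝ) (v u : E n → E (n + 1))
    (Du : E n → Matrix (Fin (n + 1)) (Fin n) ℝ) (x : E n) : ℝ :=
  (∑ i, ∑ j, |fn (Dm v x) ^ (n - 2) * Dm v x i j - fn (Du x) ^ (n - 2) * Du x i j|) *
      fn (Dm v x) +
    ∑ i, |H (v x) * Jc (Dm v x) i - H (u x) * Jc (Du x) i|

lemma nu_nonneg988 {n : ℕ} (H : E (n + 1) → ℝ) (v u : E n → E (n + 1))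
    (Du : E n → Matrix (Fin (n + 1)) (Fin n) ℝ) (x : E n) : 0 ≤ nu988 H v u Du x := by
  unfold nu988
  refine add_nonneg (mul_nonneg ?_ (fn_nonneg988 _)) (Finset.sum_nonneg fun _ _ => abs_nonneg _)
  exact Finset.sum_nonneg fun _ _ => Finset.sum_nonneg fun _ _ => abs_nonneg _

lemma nu_le988 {n : ℕ} (hn : 2 ≤ n) {M : ℝ} {H : E (n + 1) → ℝ} (hb : ∀ y, |H y| ≤ M)
    (v u : E n → E (n + 1)) (Du : E n → Matrix (Fin (n + 1)) (Fin n) ℝ) (x : E n) :
    nu988 H v u Du x ≤ (2 * (((n + 1) * n : ℕ) : ℝ) + ((n + 1 : ℕ) : ℝ) * (M * (n.factorial : ℝ))) *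
      (fn (Dm v x) ^ n + fn (Du x) ^ n) := by
  have hM : 0 ≤ M := (abs_nonneg _).trans (hb 0)
  have ha := fn_nonneg988 (Dm v x)
  have hb' := fn_nonneg988 (Du x)
  obtain ⟨a, hadef⟩ : ∃ a, a = fn (Dm v x) := ⟨_, rfl⟩
  obtain ⟨b, hbdef⟩ : ∃ b, b = fn (Du x) := ⟨_, rfl⟩
  have han : (a : ℝ) ^ (n - 1) * a = a ^ n := by
    rw [← pow_succ]; congr 1; omega
  have h1 : ∀ i j, |fn (Dm v x) ^ (n - 2) * Dm v x i j - fn (Du x) ^ (n - 2) * Du x i j| ≤
      a ^ (n - 1) + b ^ (n - 1) := fun i j => by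
    refine (abs_sub _ _).trans ?_
    rw [hadef, hbdef]
    exact add_le_add (A_le988 hn _ i j) (A_le988 hn _ i j)
  have h2 : ∑ i : Fin (n + 1), ∑ j : Fin n,
      |fn (Dm v x) ^ (n - 2) * Dm v x i j - fn (Du x) ^ (n - 2) * Du x i j| ≤
      (((n + 1) * n : ℕ) : ℝ) * (a ^ (n - 1) + b ^ (n - 1)) := by
    calc _ ≤ ∑ _i : Fin (n + 1), ∑ _j : Fin n, (a ^ (n - 1) + b ^ (n - 1)) :=
          Finset.sum_le_sum fun i _ => Finset.sum_le_sum fun j _ => h1 i j
      _ = _ := by
          simp only [Finset.sum_const, Finset.card_univ, Fintype.card_fin, nsmul_eq_mul]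
          push_cast; ring
  have ha' : 0 ≤ a := hadef ▸ ha
  have hb'' : 0 ≤ b := hbdef ▸ hb'
  have h3 : b ^ (n - 1) * a ≤ a ^ n + b ^ n := by
    rcases le_total a b with h | h
    · calc b ^ (n - 1) * a ≤ b ^ (n - 1) * b := mul_le_mul_of_nonneg_left h (by positivity)
        _ = b ^ n := by rw [← pow_succ]; congr 1; omega
        _ ≤ _ := by have : 0 ≤ a ^ n := by positivity
                    linarith
    · calc b ^ (n - 1) * a ≤ a ^ (n - 1) * a :=
            mul_le_mul_of_nonneg_right (pow_le_pow_left₀ hb'' h _) ha'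
        _ = a ^ n := han
        _ ≤ _ := by have : 0 ≤ b ^ n := by positivity
                    linarith
  have h4 : (∑ i : Fin (n + 1), ∑ j : Fin n,
      |fn (Dm v x) ^ (n - 2) * Dm v x i j - fn (Du x) ^ (n - 2) * Du x i j|) * fn (Dm v x) ≤
      (2 * (((n + 1) * n : ℕ) : ℝ)) * (a ^ n + b ^ n) := by
    rw [← hadef]
    calc _ ≤ ((((n + 1) * n : ℕ) : ℝ) * (a ^ (n - 1) + b ^ (n - 1))) * a :=
          mul_le_mul_of_nonneg_right (by rw [hadef]; rw [hadef] at h2; exact h2) ha'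
      _ = (((n + 1) * n : ℕ) : ℝ) * (a ^ (n - 1) * a + b ^ (n - 1) * a) := by ring
      _ ≤ (((n + 1) * n : ℕ) : ℝ) * (2 * (a ^ n + b ^ n)) := by
          refine mul_le_mul_of_nonneg_left ?_ (by positivity)
          rw [han]
          have : 0 ≤ b ^ n := by positivity
          linarith
      _ = _ := by ring
  have h5 : ∀ i, |H (v x) * Jc (Dm v x) i - H (u x) * Jc (Du x) i| ≤
      M * (n.factorial : ℝ) * (a ^ n + b ^ n) := fun i => by
    refine (abs_sub _ _).trans ?_
    rw [abs_mul, abs_mul]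
    have e1 : |H (v x)| * |Jc (Dm v x) i| ≤ M * ((n.factorial : ℝ) * a ^ n) := by
      rw [hadef]
      exact mul_le_mul (hb _) (Jc_le988 _ i) (abs_nonneg _) hM
    have e2 : |H (u x)| * |Jc (Du x) i| ≤ M * ((n.factorial : ℝ) * b ^ n) := by
      rw [hbdef]
      exact mul_le_mul (hb _) (Jc_le988 _ i) (abs_nonneg _) hM
    linarith
  have h6 : ∑ i : Fin (n + 1), |H (v x) * Jc (Dm v x) i - H (u x) * Jc (Du x) i| ≤
      ((n + 1 : ℕ) : ℝ) * (M * (n.factorial : ℝ)) * (a ^ n + b ^ n) := by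
    calc _ ≤ ∑ _i : Fin (n + 1), M * (n.factorial : ℝ) * (a ^ n + b ^ n) :=
          Finset.sum_le_sum fun i _ => h5 i
      _ = _ := by
          simp only [Finset.sum_const, Finset.card_univ, Fintype.card_fin, nsmul_eq_mul]
          push_cast; ring
  unfold nu988
  subst hadef hbdef
  linarith

lemma apx_aux988 {n : ℕ} (hn : 2 ≤ n) {Ω : Set (E n)} (hΩ : IsOpen Ω)
    {H : E (n + 1) → ℝ} (hHc : Continuous H)
    {u : E n → E (n + 1)} {Du : E n → Matrix (Fin (n + 1)) (Fin n) ℝ} (hs : WSol Ω H u Du)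
    {K B : Set (E n)} (hK : IsCompact K) (hKΩ : K ⊆ Ω) (hBK : B ⊆ K)
    (hA : ∀ i j, IntegrableOn (fun x => fn (Du x) ^ (n - 2) * Du x i j) K)
    (hJ : ∀ i, IntegrableOn (fun x => H (u x) * Jc (Du x) i) K)
    (v : E n → E (n + 1)) (hv : ContDiff ℝ ∞ v) (hν : IntegrableOn (nu988 H v u Du) K) :
    Apx H v (nu988 H v u Du) B := by
  intro φ hφ hφc hφs S hSm hSB hS a ha h1 h2
  have hSK : S ⊆ K := hSB.trans hBK
  have hDv : Continuous (Dm v) := continuous_Dm988 hv
  have hDφ : Continuous (Dm φ) := continuous_Dm988 hφ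
  have hDvij : ∀ i j, Continuous fun x => Dm v x i j := fun i j =>
    (continuous_apply_apply i j).comp hDv
  have hDφij : ∀ i j, Continuous fun x => Dm φ x i j := fun i j =>
    (continuous_apply_apply i j).comp hDφ
  have hφi : ∀ i, Continuous fun x => φ x i := fun i => (continuous_apply i).comp hφ.continuous
  have hfnv : Continuous fun x => fn (Dm v x) := continuous_fn988.comp hDv
  -- the four integrands
  have hf1c : Continuous fun x => fn (Dm v x) ^ (n - 2) * ∑ i, ∑ j, Dm v x i j * Dm φ x i j :=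
    (hfnv.pow _).mul (continuous_finsetSum _ fun i _ => continuous_finsetSum _ fun j _ =>
      (hDvij i j).mul (hDφij i j))
  have hf2c : Continuous fun x => H (v x) * ∑ i, Jc (Dm v x) i * φ x i :=
    (hHc.comp hv.continuous).mul (continuous_finsetSum _ fun i _ =>
      ((continuous_Jc988 i).comp hDv).mul (hφi i))
  have hf1i : IntegrableOn (fun x => fn (Dm v x) ^ (n - 2) * ∑ i, ∑ j, Dm v x i j * Dm φ x i j) S :=
    (hf1c.continuousOn.integrableOn_compact hK).mono_set hSK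
  have hf2i : IntegrableOn (fun x => H (v x) * ∑ i, Jc (Dm v x) i * φ x i) S :=
    (hf2c.continuousOn.integrableOn_compact hK).mono_set hSK
  have hg1i : ∀ i, IntegrableOn (fun x => ∑ j, fn (Du x) ^ (n - 2) * Du x i j * Dm φ x i j) S :=
    fun i => integrable_finsetSum _ fun j _ =>
      ((hA i j).mul_continuousOn (hDφij i j).continuousOn hK).mono_set hSK
  have hg2i : ∀ i, IntegrableOn (fun x => H (u x) * Jc (Du x) i * φ x i) S := fun i =>
    ((hJ i).mul_continuousOn (hφi i).continuousOn hK).mono_set hSK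
  -- restrict to S
  have e1 : ∫ x, fn (Dm v x) ^ (n - 2) * ∑ i, ∑ j, Dm v x i j * Dm φ x i j =
      ∫ x in S, fn (Dm v x) ^ (n - 2) * ∑ i, ∑ j, Dm v x i j * Dm φ x i j := by
    refine (setIntegral_eq_integral_of_forall_compl_eq_zero fun x hx => ?_).symm
    have := (hS x hx).2
    simp [this]
  have e2 : ∫ x, H (v x) * ∑ i, Jc (Dm v x) i * φ x i =
      ∫ x in S, H (v x) * ∑ i, Jc (Dm v x) i * φ x i := by
    refine (setIntegral_eq_integral_of_forall_compl_eq_zero fun x hx => ?_).symm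
    have := (hS x hx).1
    simp [this]
  -- the weak equation
  have e3 : ∀ i, ∫ x in S, ∑ j, fn (Du x) ^ (n - 2) * Du x i j * Dm φ x i j =
      ∫ x in S, H (u x) * Jc (Du x) i * φ x i := by
    intro i
    have hφi' : ContDiff ℝ (⊤ : ℕ∞) (fun x => φ x i) := (contDiff_pi.1 hφ) i
    have hci : HasCompactSupport (fun x => φ x i) :=
      hφc.comp_left (g := fun y : E (n + 1) => y i) rfl
    have hsi : tsupport (fun x => φ x i) ⊆ Ω := by
      refine Subset.trans ?_ (hφs.trans (hBK.trans hKΩ))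
      refine closure_mono fun x hx hx0 => hx ?_
      show φ x i = 0
      rw [hx0]; rfl
    have h3 := (hs.2.2 (fun x => φ x i) hφi' hci hsi).2 i
    have e4 : ∫ x in Ω, Real.sqrt (∑ a, ∑ b, Du x a b ^ 2) ^ (n - 2)
            * ∑ j, Du x i j * fderiv ℝ (fun x => φ x i) x (Pi.single j 1) =
        ∫ x in S, ∑ j, fn (Du x) ^ (n - 2) * Du x i j * Dm φ x i j := by
      rw [setIntegral_eq_of_subset_of_forall_sdiff_eq_zero hΩ.measurableSet
        (hSK.trans hKΩ)]
      · refine integral_congr_ae (ae_of_all _ fun x => ?_)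
        show Real.sqrt (∑ a, ∑ b, Du x a b ^ 2) ^ (n - 2)
            * ∑ j, Du x i j * fderiv ℝ (fun x => φ x i) x (Pi.single j 1) =
          ∑ j, fn (Du x) ^ (n - 2) * Du x i j * Dm φ x i j
        rw [Finset.mul_sum]
        refine Finset.sum_congr rfl fun j _ => ?_
        rw [mul_assoc]; rfl
      · intro x hx
        have h4 := (hS x hx.2).2 i
        have h5 : ∀ j, fderiv ℝ (fun x => φ x i) x (Pi.single j 1) = 0 := fun j => h4 j
        simp [h5]
    have e5 : ∫ x in Ω, H (u x) * ((-1 : ℝ) ^ (i : ℕ) * ((Du x).submatrix i.succAbove id).det) *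
          φ x i = ∫ x in S, H (u x) * Jc (Du x) i * φ x i := by
      rw [setIntegral_eq_of_subset_of_forall_sdiff_eq_zero hΩ.measurableSet
        (hSK.trans hKΩ)]
      · rfl
      · intro x hx
        have h4 := (hS x hx.2).1
        simp [h4]
    rw [← e4, ← e5]
    exact h3
  have e6 : ∫ x in S, ∑ i, ∑ j, fn (Du x) ^ (n - 2) * Du x i j * Dm φ x i j =
      ∫ x in S, ∑ i, H (u x) * Jc (Du x) i * φ x i := by
    rw [integral_finsetSum _ fun i _ => hg1i i, integral_finsetSum _ fun i _ => hg2i i]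
    exact Finset.sum_congr rfl fun i _ => e3 i
  have hG1 : IntegrableOn (fun x => ∑ i, ∑ j, fn (Du x) ^ (n - 2) * Du x i j * Dm φ x i j) S :=
    integrable_finsetSum _ fun i _ => hg1i i
  have hG2 : IntegrableOn (fun x => ∑ i, H (u x) * Jc (Du x) i * φ x i) S :=
    integrable_finsetSum _ fun i _ => hg2i i
  rw [e1, e2]
  have hD1 : IntegrableOn (fun x => (fn (Dm v x) ^ (n - 2) * ∑ i, ∑ j, Dm v x i j * Dm φ x i j) -
        ∑ i, ∑ j, fn (Du x) ^ (n - 2) * Du x i j * Dm φ x i j) S := hf1i.sub hG1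
  have hD2 : IntegrableOn (fun x => (H (v x) * ∑ i, Jc (Dm v x) i * φ x i) -
      ∑ i, H (u x) * Jc (Du x) i * φ x i) S := hf2i.sub hG2
  have e7 : (∫ x in S, fn (Dm v x) ^ (n - 2) * ∑ i, ∑ j, Dm v x i j * Dm φ x i j) -
      (∫ x in S, H (v x) * ∑ i, Jc (Dm v x) i * φ x i) =
      ∫ x in S, (((fn (Dm v x) ^ (n - 2) * ∑ i, ∑ j, Dm v x i j * Dm φ x i j) -
        ∑ i, ∑ j, fn (Du x) ^ (n - 2) * Du x i j * Dm φ x i j) -
        ((H (v x) * ∑ i, Jc (Dm v x) i * φ x i) - ∑ i, H (u x) * Jc (Du x) i * φ x i)) := by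
    rw [integral_sub hD1 hD2, integral_sub hf1i hG1, integral_sub hf2i hG2, e6]
    ring
  rw [e7, ← integral_const_mul]
  refine (abs_integral_le_integral_abs).trans ?_
  refine integral_mono (hD1.sub hD2).abs
    ((hν.mono_set hSK).const_mul a) fun x => ?_
  show |((fn (Dm v x) ^ (n - 2) * ∑ i, ∑ j, Dm v x i j * Dm φ x i j) -
        ∑ i, ∑ j, fn (Du x) ^ (n - 2) * Du x i j * Dm φ x i j) -
        ((H (v x) * ∑ i, Jc (Dm v x) i * φ x i) - ∑ i, H (u x) * Jc (Du x) i * φ x i)| ≤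
      a * nu988 H v u Du x
  have e8 : (fn (Dm v x) ^ (n - 2) * ∑ i, ∑ j, Dm v x i j * Dm φ x i j) -
        ∑ i, ∑ j, fn (Du x) ^ (n - 2) * Du x i j * Dm φ x i j =
      ∑ i, ∑ j, (fn (Dm v x) ^ (n - 2) * Dm v x i j - fn (Du x) ^ (n - 2) * Du x i j) *
        Dm φ x i j := by
    rw [Finset.mul_sum, ← Finset.sum_sub_distrib]
    refine Finset.sum_congr rfl fun i _ => ?_
    rw [Finset.mul_sum, ← Finset.sum_sub_distrib]
    refine Finset.sum_congr rfl fun j _ => ?_
    ring
  have e9 : (H (v x) * ∑ i, Jc (Dm v x) i * φ x i) - ∑ i, H (u x) * Jc (Du x) i * φ x i =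
      ∑ i, (H (v x) * Jc (Dm v x) i - H (u x) * Jc (Du x) i) * φ x i := by
    rw [Finset.mul_sum, ← Finset.sum_sub_distrib]
    refine Finset.sum_congr rfl fun i _ => ?_
    ring
  rw [e8, e9]
  refine (abs_sub _ _).trans ?_
  unfold nu988
  rw [mul_add]
  refine add_le_add ?_ ?_
  · calc _ ≤ ∑ i, ∑ j, |fn (Dm v x) ^ (n - 2) * Dm v x i j - fn (Du x) ^ (n - 2) * Du x i j| *
          (a * fn (Dm v x)) := by
          refine (Finset.abs_sum_le_sum_abs _ _).trans (Finset.sum_le_sum fun i _ => ?_)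
          refine (Finset.abs_sum_le_sum_abs _ _).trans (Finset.sum_le_sum fun j _ => ?_)
          rw [abs_mul]
          exact mul_le_mul_of_nonneg_left (h2 x i j) (abs_nonneg _)
      _ = _ := by
          simp only [← Finset.sum_mul]
          ring
  · calc _ ≤ ∑ i, |H (v x) * Jc (Dm v x) i - H (u x) * Jc (Du x) i| * a := by
          refine (Finset.abs_sum_le_sum_abs _ _).trans (Finset.sum_le_sum fun i _ => ?_)
          rw [abs_mul]
          exact mul_le_mul_of_nonneg_left (h1 x i) (abs_nonneg _)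
      _ = _ := by
          rw [← Finset.sum_mul]
          ring

lemma tendsto_of_pow988 {a : ℕ → ℝ} (ha : ∀ k, 0 ≤ a k) {n : ℕ} (hn : n ≠ 0)
    (h : Tendsto (fun k => a k ^ n) atTop (𝓝 0)) : Tendsto a atTop (𝓝 0) := by
  rw [Metric.tendsto_atTop] at h ⊢
  intro ε hε
  obtain ⟨N, hN⟩ := h (ε ^ n) (by positivity)
  refine ⟨N, fun k hk => ?_⟩
  have h1 := hN k hk
  rw [Real.dist_eq, sub_zero, abs_of_nonneg (pow_nonneg (ha k) n)] at h1
  rw [Real.dist_eq, sub_zero, abs_of_nonneg (ha k)]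
  exact lt_of_pow_lt_pow_left₀ n hε.le h1

lemma nu_tendsto988 {n : ℕ} {H : E (n + 1) → ℝ} (hHc : Continuous H)
    (V : ℕ → E n → E (n + 1)) (u : E n → E (n + 1))
    (Du : E n → Matrix (Fin (n + 1)) (Fin n) ℝ) (x : E n)
    (h1 : Tendsto (fun k => V k x) atTop (𝓝 (u x)))
    (h2 : Tendsto (fun k => Dm (V k) x) atTop (𝓝 (Du x))) :
    Tendsto (fun k => nu988 H (V k) u Du x) atTop (𝓝 0) := by
  unfold nu988
  have hf : Tendsto (fun k => fn (Dm (V k) x)) atTop (𝓝 (fn (Du x))) :=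
    (continuous_fn988.tendsto _).comp h2
  have hij : ∀ i j, Tendsto (fun k => Dm (V k) x i j) atTop (𝓝 (Du x i j)) := fun i j =>
    ((continuous_apply_apply i j).tendsto (Du x)).comp h2
  have hJ : ∀ i, Tendsto (fun k => Jc (Dm (V k) x) i) atTop (𝓝 (Jc (Du x) i)) := fun i =>
    ((continuous_Jc988 i).tendsto _).comp h2
  have hH : Tendsto (fun k => H (V k x)) atTop (𝓝 (H (u x))) := (hHc.tendsto _).comp h1
  have e1 : ∀ i j, Tendsto (fun k => |fn (Dm (V k) x) ^ (n - 2) * Dm (V k) x i j -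
      fn (Du x) ^ (n - 2) * Du x i j|) atTop (𝓝 0) := fun i j => by
    have := (((hf.pow (n - 2)).mul (hij i j)).sub_const (fn (Du x) ^ (n - 2) * Du x i j)).abs
    rwa [sub_self, abs_zero] at this
  have e2 : ∀ i, Tendsto (fun k => |H (V k x) * Jc (Dm (V k) x) i - H (u x) * Jc (Du x) i|)
      atTop (𝓝 0) := fun i => by
    have := ((hH.mul (hJ i)).sub_const (H (u x) * Jc (Du x) i)).abs
    rwa [sub_self, abs_zero] at this
  have e3 : Tendsto (fun k => ∑ i : Fin (n + 1), ∑ j : Fin n,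
      |fn (Dm (V k) x) ^ (n - 2) * Dm (V k) x i j -
        fn (Du x) ^ (n - 2) * Du x i j|) atTop (𝓝 0) := by
    have := tendsto_finsetSum (Finset.univ : Finset (Fin (n + 1))) fun i _ =>
      tendsto_finsetSum (Finset.univ : Finset (Fin n)) fun j _ => e1 i j
    simpa using this
  have e4 : Tendsto (fun k => ∑ i : Fin (n + 1),
      |H (V k x) * Jc (Dm (V k) x) i - H (u x) * Jc (Du x) i|) atTop (𝓝 0) := by
    have := tendsto_finsetSum (Finset.univ : Finset (Fin (n + 1))) fun i _ => e2 i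
    simpa using this
  have := (e3.mul hf).add e4
  rwa [zero_mul, zero_add] at this


theorem apx_exists {n : ℕ} (hn : 2 ≤ n) {M : ℝ} {Ω : Set (E n)} (hΩ : IsOpen Ω)
    {H : E (n + 1) → ℝ} (hb : ∀ y, |H y| ≤ M) (hL : ∀ y z, |H y - H z| ≤ M * ‖y - z‖)
    {u : E n → E (n + 1)} {Du : E n → Matrix (Fin (n + 1)) (Fin n) ℝ} (hs : WSol Ω H u Du)
    (x0 : E n) (h : ℝ) (hh : 0 < h) (hB : closedBall x0 (3 * h) ⊆ Ω) :
    ∀ η : ℝ, 0 < η → ∃ (v : E n → E (n + 1)) (ν : E n → ℝ), ContDiff ℝ ∞ v ∧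
      Apx H v ν (ball x0 (3 * h)) ∧ IntegrableOn ν (ball x0 (3 * h)) ∧ (∀ x, 0 ≤ ν x) ∧
      ∫ x in ball x0 (3 * h), ν x ≤ η ∧
      EN v (closedBall x0 (2 * h)) ≤ (∫ x in closedBall x0 (2 * h), fn (Du x) ^ n) + η ∧
      ∫ x in closedBall x0 (2 * h), ∑ a, |v x a - u x a| ^ n ≤ η := by
  intro η hη
  have hn0 : n ≠ 0 := by omega
  have hM : 0 ≤ M := (abs_nonneg _).trans (hb 0)
  obtain ⟨K, hKdef⟩ : ∃ K, K = closedBall x0 (3 * h) := ⟨_, rfl⟩
  have hK : IsCompact K := hKdef ▸ isCompact_closedBall _ _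
  have hKΩ : K ⊆ Ω := hKdef ▸ hB
  have hBK : ball x0 (3 * h) ⊆ K := hKdef ▸ ball_subset_closedBall
  have h2K : closedBall x0 (2 * h) ⊆ K := hKdef ▸ closedBall_subset_closedBall (by linarith)
  have hHc : Continuous H := by
    have : LipschitzWith (Real.toNNReal M) H := LipschitzWith.of_dist_le_mul fun y z => by
      rw [Real.coe_toNNReal _ hM, Real.dist_eq, dist_eq_norm]; exact hL y z
    exact this.continuous
  have hui : ∀ i, MemLp (fun x => u x i) (n : ENNReal) (volume.restrict Ω) := fun i =>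
    (memLp_pi_iff.1 hs.1) i
  have hDu := hs.2.1
  have hms : ∀ i, ∃ v : ℕ → E n → ℝ, (∀ k, ContDiff ℝ ∞ (v k)) ∧
      Tendsto (fun k => ∫ x in K, |v k x - u x i| ^ n) atTop (𝓝 0) ∧
      ∀ j, Tendsto (fun k => ∫ x in K, |pd (v k) j x - Du x i j| ^ n) atTop (𝓝 0) := fun i =>
    moll_seq hn hΩ (fun x => u x i) (fun j x => Du x i j) (hui i) (fun j => hDu i j)
      (fun φ h1 h2 h3 j => (hs.2.2 φ h1 h2 h3).1 i j) K hK hKΩ
  choose w hw1 hw2 hw3 using hms
  obtain ⟨V, hVdef⟩ : ∃ V : ℕ → E n → E (n + 1), V = fun k x i => w i k x := ⟨_, rfl⟩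
  have hV : ∀ k, ContDiff ℝ ∞ (V k) := fun k => by
    rw [hVdef]; exact contDiff_pi.2 fun i => hw1 i k
  have hVi : ∀ k x i, V k x i = w i k x := fun k x i => by rw [hVdef]
  have hDVi : ∀ k x i j, Dm (V k) x i j = pd (w i k) j x := fun k x i j => by rw [hVdef]; rfl
  obtain ⟨μ, hμ⟩ : ∃ μ : Measure (E n), μ = volume.restrict K := ⟨_, rfl⟩
  haveI : IsFiniteMeasure μ := ⟨by rw [hμ, Measure.restrict_apply_univ]; exact hK.measure_lt_top⟩
  have hcont : ∀ f : E n → ℝ, Continuous f → Integrable f μ := fun f hf => by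
    rw [hμ]; exact hf.continuousOn.integrableOn_compact hK
  have hcontLp : ∀ f : E n → ℝ, Continuous f → MemLp f (n : ENNReal) μ := fun f hf => by
    obtain ⟨C, hC⟩ := hK.exists_bound_of_continuousOn hf.continuousOn
    refine MemLp.of_bound (hcont f hf).aestronglyMeasurable C ?_
    rw [hμ]
    exact ae_restrict_of_forall_mem hK.measurableSet hC
  have hDuK : ∀ i j, MemLp (fun x => Du x i j) (n : ENNReal) μ := fun i j => by
    rw [hμ]; exact (hDu i j).mono_measure (Measure.restrict_mono hKΩ le_rfl)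
  have huK : ∀ i, MemLp (fun x => u x i) (n : ENNReal) μ := fun i => by
    rw [hμ]; exact (hui i).mono_measure (Measure.restrict_mono hKΩ le_rfl)
  have hDVc : ∀ k, Continuous (Dm (V k)) := fun k => continuous_Dm988 (hV k)
  have hDVij : ∀ k i j, Continuous fun x => Dm (V k) x i j := fun k i j =>
    (continuous_apply_apply i j).comp (hDVc k)
  have hVc : ∀ k i, Continuous fun x => V k x i := fun k i =>
    (continuous_apply i).comp (hV k).continuous
  -- the error sequences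
  obtain ⟨d, hd⟩ : ∃ d : ℕ → E n → ℝ, d = fun k x => ∑ i, ∑ j, |Dm (V k) x i j - Du x i j| ^ n :=
    ⟨_, rfl⟩
  obtain ⟨dd, hdd⟩ : ∃ dd : ℕ → E n → ℝ, dd = fun k x => ∑ i, |V k x i - u x i| ^ n := ⟨_, rfl⟩
  obtain ⟨G, hG⟩ : ∃ G : E n → ℝ, G = fun x => ∑ i, ∑ j, |Du x i j| ^ n := ⟨_, rfl⟩
  have hdij : ∀ k i j, Integrable (fun x => |Dm (V k) x i j - Du x i j| ^ n) μ := fun k i j =>
    ((hcontLp _ (hDVij k i j)).sub (hDuK i j)).integrable_norm_pow hn0
  have hddi : ∀ k i, Integrable (fun x => |V k x i - u x i| ^ n) μ := fun k i =>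
    ((hcontLp _ (hVc k i)).sub (huK i)).integrable_norm_pow hn0
  have hdI : ∀ k, Integrable (d k) μ := fun k => by
    rw [hd]; exact integrable_finsetSum _ fun i _ => integrable_finsetSum _ fun j _ => hdij k i j
  have hddI : ∀ k, Integrable (dd k) μ := fun k => by
    rw [hdd]; exact integrable_finsetSum _ fun i _ => hddi k i
  have hGI : Integrable G μ := by
    rw [hG]
    exact integrable_finsetSum _ fun i _ => integrable_finsetSum _ fun j _ =>
      (hDuK i j).integrable_norm_pow hn0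
  have hd0 : ∀ k x, 0 ≤ d k x := fun k x => by
    rw [hd]
    exact Finset.sum_nonneg fun _ _ => Finset.sum_nonneg fun _ _ => by positivity
  have hdd0 : ∀ k x, 0 ≤ dd k x := fun k x => by
    rw [hdd]
    exact Finset.sum_nonneg fun _ _ => by positivity
  have hG0 : ∀ x, 0 ≤ G x := fun x => by
    rw [hG]
    exact Finset.sum_nonneg fun _ _ => Finset.sum_nonneg fun _ _ => by positivity
  have hdt : Tendsto (fun k => ∫ x, d k x ∂μ) atTop (𝓝 0) := by
    have e1 : ∀ k, ∫ x, d k x ∂μ = ∑ i, ∑ j, ∫ x, |Dm (V k) x i j - Du x i j| ^ n ∂μ := by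
      intro k
      rw [hd]
      show ∫ x, ∑ i, ∑ j, |Dm (V k) x i j - Du x i j| ^ n ∂μ = _
      rw [integral_finsetSum _ fun i _ => integrable_finsetSum _ fun j _ => hdij k i j]
      exact Finset.sum_congr rfl fun i _ => integral_finsetSum _ fun j _ => hdij k i j
    simp_rw [e1]
    have := tendsto_finsetSum (Finset.univ : Finset (Fin (n + 1))) fun i _ =>
      tendsto_finsetSum (Finset.univ : Finset (Fin n)) fun j _ => hw3 i j
    simp only [Finset.sum_const_zero] at this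
    rw [hμ, hVdef]
    exact this
  have hddt : Tendsto (fun k => ∫ x, dd k x ∂μ) atTop (𝓝 0) := by
    have e1 : ∀ k, ∫ x, dd k x ∂μ = ∑ i, ∫ x, |V k x i - u x i| ^ n ∂μ := by
      intro k
      rw [hdd]
      show ∫ x, ∑ i, |V k x i - u x i| ^ n ∂μ = _
      exact integral_finsetSum _ fun i _ => hddi k i
    simp_rw [e1]
    have := tendsto_finsetSum (Finset.univ : Finset (Fin (n + 1))) fun i _ => hw2 i
    simp only [Finset.sum_const_zero] at this
    rw [hμ, hVdef]
    exact this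
  -- subsequence
  obtain ⟨ns, hns, hae⟩ := sub_aux988 (μ := μ) (T := fun k x => d k x + dd k x)
    (fun k x => add_nonneg (hd0 k x) (hdd0 k x)) (fun k => (hdI k).add (hddI k)) (by
      have : ∀ k, ∫ x, (d k x + dd k x) ∂μ = (∫ x, d k x ∂μ) + ∫ x, dd k x ∂μ := fun k =>
        integral_add (hdI k) (hddI k)
      simp_rw [this]
      simpa using hdt.add hddt)
  have hconv : ∀ᵐ x ∂μ, Tendsto (fun k => V (ns k) x) atTop (𝓝 (u x)) ∧
      Tendsto (fun k => Dm (V (ns k)) x) atTop (𝓝 (Du x)) := by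
    filter_upwards [hae] with x hx
    constructor
    · refine tendsto_pi_nhds.2 fun i => ?_
      have h1 : Tendsto (fun k => |V (ns k) x i - u x i| ^ n) atTop (𝓝 0) := by
        refine squeeze_zero (fun k => by positivity) (fun k => ?_) hx
        have h3 : |V (ns k) x i - u x i| ^ n ≤ dd (ns k) x := by
          rw [hdd]
          exact Finset.single_le_sum (f := fun i => |V (ns k) x i - u x i| ^ n)
            (fun _ _ => by positivity) (Finset.mem_univ i)
        linarith [hd0 (ns k) x]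
      have h2 := tendsto_of_pow988 (fun k => abs_nonneg _) hn0 h1
      exact tendsto_iff_norm_sub_tendsto_zero.2 h2
    · refine tendsto_pi_nhds.2 fun i => tendsto_pi_nhds.2 fun j => ?_
      have h1 : Tendsto (fun k => |Dm (V (ns k)) x i j - Du x i j| ^ n) atTop (𝓝 0) := by
        refine squeeze_zero (fun k => by positivity) (fun k => ?_) hx
        have h3 : |Dm (V (ns k)) x i j - Du x i j| ^ n ≤ d (ns k) x := by
          rw [hd]
          refine le_trans ?_ (Finset.single_le_sum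
            (f := fun i => ∑ j, |Dm (V (ns k)) x i j - Du x i j| ^ n)
            (fun _ _ => Finset.sum_nonneg fun _ _ => by positivity) (Finset.mem_univ i))
          exact Finset.single_le_sum (f := fun j => |Dm (V (ns k)) x i j - Du x i j| ^ n)
            (fun _ _ => by positivity) (Finset.mem_univ j)
        linarith [hdd0 (ns k) x]
      have h2 := tendsto_of_pow988 (fun k => abs_nonneg _) hn0 h1
      exact tendsto_iff_norm_sub_tendsto_zero.2 h2
  -- measurability
  have hDum : AEStronglyMeasurable Du μ := by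
    have : AEMeasurable (fun x => (fun i j => Du x i j : Fin (n + 1) → Fin n → ℝ)) μ :=
      aemeasurable_pi_lambda _ fun i => aemeasurable_pi_lambda _ fun j =>
        (hDuK i j).aestronglyMeasurable.aemeasurable
    exact this.aestronglyMeasurable
  have hum : AEStronglyMeasurable u μ := by
    rw [hμ]
    exact (hs.1.mono_measure (Measure.restrict_mono hKΩ le_rfl)).aestronglyMeasurable
  have hfnm : AEStronglyMeasurable (fun x => fn (Du x)) μ :=
    continuous_fn988.comp_aestronglyMeasurable hDum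
  have hAm : ∀ i j, AEStronglyMeasurable (fun x => fn (Du x) ^ (n - 2) * Du x i j) μ :=
    fun i j => (hfnm.pow _).mul (hDuK i j).aestronglyMeasurable
  have hJm : ∀ i, AEStronglyMeasurable (fun x => H (u x) * Jc (Du x) i) μ := fun i =>
    (hHc.comp_aestronglyMeasurable hum).mul ((continuous_Jc988 i).comp_aestronglyMeasurable hDum)
  -- integrability
  obtain ⟨c, hc⟩ : ∃ c : ℝ, c = (((n + 1) * n : ℕ) : ℝ) ^ n := ⟨_, rfl⟩
  have hc0 : 0 ≤ c := by rw [hc]; positivity
  have hfG : ∀ x, fn (Du x) ^ n ≤ c * G x := fun x => by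
    rw [hc, hG]; exact fn_pow988 (Du x) (by omega)
  have hfnI : Integrable (fun x => fn (Du x) ^ n) μ := by
    refine Integrable.mono' (hGI.const_mul c) (hfnm.pow n) (ae_of_all _ fun x => ?_)
    rw [Real.norm_eq_abs, abs_of_nonneg (pow_nonneg (fn_nonneg988 _) _)]
    exact hfG x
  have hAI : ∀ i j, Integrable (fun x => fn (Du x) ^ (n - 2) * Du x i j) μ := fun i j => by
    refine Integrable.mono' ((integrable_const (1 : ℝ)).add hfnI) (hAm i j)
      (ae_of_all _ fun x => ?_)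
    rw [Real.norm_eq_abs]
    refine (A_le988 hn _ i j).trans ?_
    show fn (Du x) ^ (n - 1) ≤ 1 + fn (Du x) ^ n
    rcases le_total (fn (Du x)) 1 with h1 | h1
    · have e1 := pow_le_one₀ (n := n - 1) (fn_nonneg988 (Du x)) h1
      have e2 := pow_nonneg (fn_nonneg988 (Du x)) n
      linarith
    · have e1 := pow_le_pow_right₀ h1 (Nat.sub_le n 1)
      linarith
  have hJI : ∀ i, Integrable (fun x => H (u x) * Jc (Du x) i) μ := fun i => by
    refine Integrable.mono' (hfnI.const_mul (M * (n.factorial : ℝ))) (hJm i)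
      (ae_of_all _ fun x => ?_)
    rw [Real.norm_eq_abs, abs_mul]
    calc |H (u x)| * |Jc (Du x) i| ≤ M * ((n.factorial : ℝ) * fn (Du x) ^ n) :=
          mul_le_mul (hb _) (Jc_le988 _ i) (abs_nonneg _) hM
      _ = _ := by ring
  have hfVc : ∀ k, Continuous fun x => fn (Dm (V k) x) := fun k =>
    continuous_fn988.comp (hDVc k)
  have hνm : ∀ k, AEStronglyMeasurable (nu988 H (V k) u Du) μ := fun k => by
    unfold nu988
    refine AEStronglyMeasurable.add (AEStronglyMeasurable.mul ?_ (hcont _ (hfVc k)).1) ?_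
    · refine Finset.aestronglyMeasurable_fun_sum _ fun i _ =>
        Finset.aestronglyMeasurable_fun_sum _ fun j _ => ?_
      refine (AEStronglyMeasurable.sub ?_ (hAm i j)).norm
      exact (hcont _ (((hfVc k).pow _).mul (hDVij k i j))).1
    · refine Finset.aestronglyMeasurable_fun_sum _ fun i _ => ?_
      refine (AEStronglyMeasurable.sub ?_ (hJm i)).norm
      exact (hcont _ ((hHc.comp (hV k).continuous).mul ((continuous_Jc988 i).comp (hDVc k)))).1
  obtain ⟨C0, hC0⟩ : ∃ C0 : ℝ, C0 = 2 * (((n + 1) * n : ℕ) : ℝ) +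
      ((n + 1 : ℕ) : ℝ) * (M * (n.factorial : ℝ)) := ⟨_, rfl⟩
  have hC00 : 0 ≤ C0 := by rw [hC0]; positivity
  have hνle : ∀ k x, nu988 H (V k) u Du x ≤ C0 * (fn (Dm (V k) x) ^ n + fn (Du x) ^ n) :=
    fun k x => by rw [hC0]; exact nu_le988 hn hb (V k) u Du x
  have hνI : ∀ k, Integrable (nu988 H (V k) u Du) μ := fun k => by
    refine Integrable.mono' (((hcont _ ((hfVc k).pow n)).add hfnI).const_mul C0) (hνm k)
      (ae_of_all _ fun x => ?_)
    rw [Real.norm_eq_abs, abs_of_nonneg (nu_nonneg988 _ _ _ _ _)]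
    exact hνle k x
  have hVle : ∀ k x, fn (Dm (V k) x) ^ n ≤ c * 2 ^ n * (d k x + G x) := fun k x => by
    rw [hc, hd, hG]; exact fn_pow_sub988 _ _ (by omega)
  -- limits
  have hlim1 : Tendsto (fun k => ∫ x, nu988 H (V (ns k)) u Du x ∂μ) atTop (𝓝 0) := by
    refine dct_aux988 (d := fun k x => C0 * (c * 2 ^ n) * d (ns k) x)
      (G := fun x => C0 * (c * 2 ^ n + c) * G x) (fun k x => nu_nonneg988 _ _ _ _ _)
      (fun k => hνm (ns k)) (fun k x => mul_nonneg (by positivity) (hd0 _ _))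
      (fun k => (hdI _).const_mul _) ?_ (hGI.const_mul _) (fun k x => ?_) ?_
    · have := (hdt.comp hns.tendsto_atTop).const_mul (C0 * (c * 2 ^ n))
      rw [mul_zero] at this
      refine this.congr fun k => ?_
      exact (integral_const_mul _ _).symm
    · refine (hνle (ns k) x).trans ?_
      have e1 := hVle (ns k) x
      have e2 := hfG x
      calc C0 * (fn (Dm (V (ns k)) x) ^ n + fn (Du x) ^ n) ≤
            C0 * (c * 2 ^ n * (d (ns k) x + G x) + c * G x) :=
            mul_le_mul_of_nonneg_left (add_le_add e1 e2) hC00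
        _ = _ := by ring
    · filter_upwards [hconv] with x hx
      exact nu_tendsto988 hHc (fun k => V (ns k)) u Du x hx.1 hx.2
  have hlim2 : Tendsto (fun k => ∫ x, |fn (Dm (V (ns k)) x) ^ n - fn (Du x) ^ n| ∂μ) atTop
      (𝓝 0) := by
    refine dct_aux988 (d := fun k x => (c * 2 ^ n) * d (ns k) x)
      (G := fun x => (c * 2 ^ n + c) * G x) (fun k x => abs_nonneg _)
      (fun k => ((hcont _ ((hfVc (ns k)).pow n)).1.sub hfnI.1).norm)
      (fun k x => mul_nonneg (by positivity) (hd0 _ _))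
      (fun k => (hdI _).const_mul _) ?_ (hGI.const_mul _) (fun k x => ?_) ?_
    · have := (hdt.comp hns.tendsto_atTop).const_mul (c * 2 ^ n)
      rw [mul_zero] at this
      refine this.congr fun k => ?_
      exact (integral_const_mul _ _).symm
    · have e1 := hVle (ns k) x
      have e2 := hfG x
      have e3 := pow_nonneg (fn_nonneg988 (Dm (V (ns k)) x)) n
      have e4 := pow_nonneg (fn_nonneg988 (Du x)) n
      rw [abs_le]
      constructor
      · nlinarith
      · nlinarith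
    · filter_upwards [hconv] with x hx
      have e1 : Tendsto (fun k => fn (Dm (V (ns k)) x)) atTop (𝓝 (fn (Du x))) :=
        (continuous_fn988.tendsto _).comp hx.2
      have := ((e1.pow n).sub_const (fn (Du x) ^ n)).abs
      rwa [sub_self, abs_zero] at this
  have hlim3 : Tendsto (fun k => ∫ x, dd (ns k) x ∂μ) atTop (𝓝 0) :=
    hddt.comp hns.tendsto_atTop
  obtain ⟨k, hk1, hk2, hk3⟩ := (((hlim1.eventually (gt_mem_nhds hη)).and
    ((hlim2.eventually (gt_mem_nhds hη)).and (hlim3.eventually (gt_mem_nhds hη))))).exists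
  have hdiffI : Integrable (fun x => |fn (Dm (V (ns k)) x) ^ n - fn (Du x) ^ n|) μ :=
    ((hcont _ ((hfVc (ns k)).pow n)).sub hfnI).norm
  have hνI' := hνI (ns k)
  have hddI' := hddI (ns k)
  rw [hμ] at hk1 hk2 hk3 hdiffI hνI' hddI' hAI hJI hfnI
  refine ⟨V (ns k), nu988 H (V (ns k)) u Du, hV _, ?_,
    IntegrableOn.mono_set hνI' hBK,
    fun x => nu_nonneg988 _ _ _ _ _, ?_, ?_, ?_⟩
  · exact apx_aux988 hn hΩ hHc hs hK hKΩ hBK hAI hJI _ (hV _) hνI'
  · refine le_trans ?_ hk1.le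
    exact setIntegral_mono_set hνI' (ae_of_all _ fun x => nu_nonneg988 _ _ _ _ _)
      hBK.eventuallyLE
  · have e1 : ∫ x in closedBall x0 (2 * h), |fn (Dm (V (ns k)) x) ^ n - fn (Du x) ^ n| ≤ η := by
      refine le_trans ?_ hk2.le
      exact setIntegral_mono_set hdiffI (ae_of_all _ fun x => abs_nonneg _) h2K.eventuallyLE
    have e2 : EN (V (ns k)) (closedBall x0 (2 * h)) ≤
        (∫ x in closedBall x0 (2 * h), fn (Du x) ^ n) +
          ∫ x in closedBall x0 (2 * h), |fn (Dm (V (ns k)) x) ^ n - fn (Du x) ^ n| := by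
      have i1 : IntegrableOn (fun x => fn (Du x) ^ n) (closedBall x0 (2 * h)) :=
        IntegrableOn.mono_set hfnI h2K
      have i2 : IntegrableOn (fun x => |fn (Dm (V (ns k)) x) ^ n - fn (Du x) ^ n|)
        (closedBall x0 (2 * h)) := IntegrableOn.mono_set hdiffI h2K
      rw [← integral_add i1 i2]
      unfold EN
      refine integral_mono ((((hfVc (ns k)).pow n).continuousOn.integrableOn_compact hK).mono_set
        h2K) (i1.add i2) fun x => ?_
      show fn (Dm (V (ns k)) x) ^ n ≤ fn (Du x) ^ n + |fn (Dm (V (ns k)) x) ^ n - fn (Du x) ^ n|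
      linarith [le_abs_self (fn (Dm (V (ns k)) x) ^ n - fn (Du x) ^ n)]
    linarith
  · refine le_trans ?_ hk3.le
    rw [hdd] at hddI' ⊢
    exact setIntegral_mono_set hddI' (ae_of_all _ fun x =>
      Finset.sum_nonneg fun _ _ => by positivity) h2K.eventuallyLE

end H930.HS.XApxE

namespace H930.HS

export XApxE (apx_exists)

end H930.HS
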