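import Pool.Agent.Helper930.HS.MorBox

set_option autoImplicit false

open MeasureTheory Metric Set Filter Topology
open scoped ENNReal NNReal ContDiff

namespace H930.HS.XBdOsc

open H930.BL



/-- linear part of the insertion of a coordinate -/
noncomputable def bJ {m : ℕ} (i : Fin (m + 1)) : E m →L[ℝ] E (m + 1) :=
  ContinuousLinearMap.pi (fun k => i.insertNth (α := fun _ => E m →L[ℝ] ℝ) 0
    (fun j => ContinuousLinearMap.proj j) k)

theorem bJ_same {m : ℕ} (i : Fin (m + 1)) (v : E m) : bJ i v i = 0 := by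
  show (i.insertNth (α := fun _ => E m →L[ℝ] ℝ) 0 (fun j => ContinuousLinearMap.proj j) i :
    E m →L[ℝ] ℝ) v = 0
  rw [Fin.insertNth_apply_same]
  rfl

theorem bJ_succ {m : ℕ} (i : Fin (m + 1)) (j : Fin m) (v : E m) :
    bJ i v (i.succAbove j) = v j := by
  show (i.insertNth (α := fun _ => E m →L[ℝ] ℝ) 0 (fun j => ContinuousLinearMap.proj j)
    (i.succAbove j) : E m →L[ℝ] ℝ) v = v j
  rw [Fin.insertNth_apply_succAbove]
  rfl

theorem bJ_single {m : ℕ} (i : Fin (m + 1)) (j : Fin m) :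
    bJ i (Pi.single j (1 : ℝ)) = Pi.single (i.succAbove j) 1 := by
  funext k
  rcases Fin.eq_self_or_eq_succAbove i k with h | ⟨j', h⟩
  · rw [h, bJ_same, Pi.single_eq_of_ne (Fin.succAbove_ne i j).symm]
  · rw [h, bJ_succ]
    by_cases hj : j' = j
    · subst hj; rw [Pi.single_eq_same, Pi.single_eq_same]
    · rw [Pi.single_eq_of_ne hj, Pi.single_eq_of_ne (fun h2 => hj (Fin.succAbove_right_injective h2))]

theorem bJ_ins {m : ℕ} (i : Fin (m + 1)) (t : ℝ) (z : E m) :
    (i.insertNth (α := fun _ => ℝ) t z : E (m + 1)) =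
      (i.insertNth (α := fun _ => ℝ) t (0 : E m) : E (m + 1)) + bJ i z := by
  funext k
  rcases Fin.eq_self_or_eq_succAbove i k with h | ⟨j', h⟩
  · rw [h, Pi.add_apply, bJ_same, Fin.insertNth_apply_same, Fin.insertNth_apply_same, add_zero]
  · rw [h, Pi.add_apply, bJ_succ, Fin.insertNth_apply_succAbove, Fin.insertNth_apply_succAbove]
    simp

theorem pd_ins {m : ℕ} (f : E (m + 1) → ℝ) (hf : Differentiable ℝ f) (i : Fin (m + 1)) (t : ℝ)
    (j : Fin m) (z : E m) : pd (fun z : E m => f (i.insertNth (α := fun _ => ℝ) t z)) j z =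
      pd f (i.succAbove j) (i.insertNth (α := fun _ => ℝ) t z) := by
  have hι : HasFDerivAt (fun z : E m => (i.insertNth (α := fun _ => ℝ) t z : E (m + 1)))
      (bJ i) z := by
    have h1 : (fun z : E m => (i.insertNth (α := fun _ => ℝ) t z : E (m + 1))) =
        fun z => (i.insertNth (α := fun _ => ℝ) t (0 : E m) : E (m + 1)) + bJ i z := by
      funext z; exact bJ_ins i t z
    rw [h1]
    exact (bJ i).hasFDerivAt.const_add _
  have h2 := (hf (i.insertNth (α := fun _ => ℝ) t z)).hasFDerivAt.comp z hι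
  unfold pd
  have h3 : fderiv ℝ (fun z : E m => f (i.insertNth (α := fun _ => ℝ) t z)) z =
      (fderiv ℝ f (i.insertNth (α := fun _ => ℝ) t z)).comp (bJ i) := h2.fderiv
  rw [h3, ContinuousLinearMap.comp_apply, bJ_single]

theorem abs_le_fn {m n : ℕ} (M : Matrix (Fin m) (Fin n) ℝ) (a : Fin m) (b : Fin n) :
    |M a b| ≤ fn M := by
  unfold fn
  apply Real.abs_le_sqrt
  calc M a b ^ 2 ≤ ∑ b, M a b ^ 2 :=
        Finset.single_le_sum (f := fun b => M a b ^ 2) (fun _ _ => sq_nonneg _) (Finset.mem_univ b)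
    _ ≤ _ := Finset.single_le_sum (f := fun a => ∑ b, M a b ^ 2)
        (fun _ _ => Finset.sum_nonneg fun _ _ => sq_nonneg _) (Finset.mem_univ a)

theorem fn_nn {m n : ℕ} (M : Matrix (Fin m) (Fin n) ℝ) : 0 ≤ fn M := Real.sqrt_nonneg _

theorem bd_osc_face {m : ℕ} (hm : 1 ≤ m) (C : ℝ) (hC : 0 < C)
    (hmor : ∀ (w : E m → ℝ), ContDiff ℝ 1 w →
      ∀ (a b : E m) (L : ℝ), (∀ i, 0 < b i - a i ∧ b i - a i ≤ L ∧ L ≤ 3 * (b i - a i)) →
      ∀ x ∈ Icc a b, ∀ y ∈ Icc a b,
        |w x - w y| ^ (m + 1) ≤ C * L * ∫ z in Icc a b, gr w z ^ (m + 1))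
    (ε δ : ℝ) (hδ : 0 < δ) (hε : C * ((m : ℝ) ^ (m + 1) * ε) ≤ δ ^ (m + 1))
    (u : E (m + 1) → E (m + 1 + 1))
    (hu : ContDiff ℝ ∞ u) (Q0 Q : Bx (m + 1)) (hQ : Gb (fun x => fn (Dm u x) ^ (m + 1)) ε Q0 Q)
    (i : Fin (m + 1)) (t : ℝ) (ht : t = Q.a i ∨ t = Q.b i) (x y : E (m + 1)) (hx : x ∈ Q.cl)
    (hy : y ∈ Q.cl) (hxt : x i = t) (hyt : y i = t) (a : Fin (m + 1 + 1)) :
    |u x a - u y a| ≤ δ := by
  obtain ⟨-, hasp, hface⟩ := hQ
  set L := dist Q.a Q.b with hL
  have hLle : ∀ j, Q.b j - Q.a j ≤ L := by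
    intro j
    have h1 := dist_le_pi_dist Q.a Q.b j
    rw [Real.dist_eq, abs_sub_comm] at h1
    exact (le_abs_self _).trans h1
  have hL3 : ∀ j, L ≤ 3 * (Q.b j - Q.a j) := by
    intro j
    have h0 : 0 ≤ 3 * (Q.b j - Q.a j) := by
      have := Q.lt j
      linarith
    rw [hL, dist_pi_le_iff h0]
    intro k
    rw [Real.dist_eq, abs_sub_comm, abs_of_pos (by have := Q.lt k; linarith)]
    exact hasp k j
  have hL0 : 0 ≤ L := dist_nonneg
  have hfc : L * fc (fun x => fn (Dm u x) ^ (m + 1)) Q i t ≤ ε := by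
    rcases ht with h | h
    · rw [h]; exact (hface i).1
    · rw [h]; exact (hface i).2
  have hua : ContDiff ℝ ∞ (fun y => u y a) := (contDiff_pi.1 hu) a
  have hdiff : Differentiable ℝ (fun y => u y a) := hua.differentiable (by simp)
  have hι : ContDiff ℝ 1 (fun z : E m => (i.insertNth (α := fun _ => ℝ) t z : E (m + 1))) := by
    have h1 : (fun z : E m => (i.insertNth (α := fun _ => ℝ) t z : E (m + 1))) =
        fun z => (i.insertNth (α := fun _ => ℝ) t (0 : E m) : E (m + 1)) + bJ i z := by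
      funext z; exact bJ_ins i t z
    rw [h1]
    exact contDiff_const.add (bJ i).contDiff
  let w : E m → ℝ := fun z => u (i.insertNth (α := fun _ => ℝ) t z) a
  have hw : ContDiff ℝ 1 w := (hua.of_le (by exact_mod_cast le_top)).comp hι
  have hgr : ∀ z, gr w z ≤ m * fn (Dm u (i.insertNth (α := fun _ => ℝ) t z)) := by
    intro z
    unfold gr
    have h1 : ∀ j ∈ (Finset.univ : Finset (Fin m)), |pd w j z| ≤
        fn (Dm u (i.insertNth (α := fun _ => ℝ) t z)) := by
      intro j _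
      have h2 : pd w j z = Dm u (i.insertNth (α := fun _ => ℝ) t z) a (i.succAbove j) :=
        pd_ins (fun y => u y a) hdiff i t j z
      rw [h2]
      exact abs_le_fn _ _ _
    refine (Finset.sum_le_sum h1).trans ?_
    rw [Finset.sum_const, Finset.card_univ, Fintype.card_fin, nsmul_eq_mul]
  have hfncont : Continuous (fun z : E m => fn (Dm u (i.insertNth (α := fun _ => ℝ) t z))) := by
    have h1 : Continuous (fun x : E (m + 1) => fn (Dm u x)) := by
      unfold fn
      refine Real.continuous_sqrt.comp ?_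
      refine continuous_finsetSum _ fun a _ => continuous_finsetSum _ fun b _ => ?_
      refine Continuous.pow ?_ 2
      have h2 : ContDiff ℝ 1 (fun y => u y a) :=
        ((contDiff_pi.1 hu) a).of_le (by exact_mod_cast le_top)
      exact continuous_pd h2 b
    exact h1.comp hι.continuous
  have hint : ∫ z in Icc (fun j => Q.a (i.succAbove j)) (fun j => Q.b (i.succAbove j)),
      gr w z ^ (m + 1) ≤ (m : ℝ) ^ (m + 1) * fc (fun x => fn (Dm u x) ^ (m + 1)) Q i t := by
    unfold fc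
    rw [← integral_const_mul]
    refine setIntegral_mono ?_ ?_ ?_
    · exact ((continuous_gr hw).pow (m + 1)).integrableOn_Icc
    · exact (continuous_const.mul (hfncont.pow (m + 1))).integrableOn_Icc
    · intro z
      show gr w z ^ (m + 1) ≤ (m : ℝ) ^ (m + 1) *
        fn (Dm u (i.insertNth (α := fun _ => ℝ) t z)) ^ (m + 1)
      rw [← mul_pow]
      exact pow_le_pow_left₀ (gr_nonneg w z) (hgr z) _
  have hmem : ∀ v ∈ Q.cl, (fun j => v (i.succAbove j)) ∈
      Icc (fun j => Q.a (i.succAbove j)) (fun j => Q.b (i.succAbove j)) := by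
    intro v hv
    exact ⟨fun j => (hv (i.succAbove j)).1, fun j => (hv (i.succAbove j)).2⟩
  have hval : ∀ v : E (m + 1), v i = t → w (fun j => v (i.succAbove j)) = u v a := by
    intro v hv
    show u (i.insertNth (α := fun _ => ℝ) t (fun j => v (i.succAbove j))) a = u v a
    have h1 : (i.insertNth (α := fun _ => ℝ) t (fun j => v (i.succAbove j)) : E (m + 1)) = v := by
      funext k
      rcases Fin.eq_self_or_eq_succAbove i k with h | ⟨j', h⟩
      · rw [h, Fin.insertNth_apply_same, hv]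
      · rw [h, Fin.insertNth_apply_succAbove]
    rw [h1]
  have hM := hmor w hw (fun j => Q.a (i.succAbove j)) (fun j => Q.b (i.succAbove j)) L
    (fun j => ⟨by have := Q.lt (i.succAbove j); linarith, hLle _, hL3 _⟩)
    _ (hmem x hx) _ (hmem y hy)
  rw [hval x hxt, hval y hyt] at hM
  have h5 : |u x a - u y a| ^ (m + 1) ≤ δ ^ (m + 1) := by
    refine hM.trans ?_
    calc C * L * ∫ z in Icc (fun j => Q.a (i.succAbove j)) (fun j => Q.b (i.succAbove j)),
          gr w z ^ (m + 1)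
        ≤ C * L * ((m : ℝ) ^ (m + 1) * fc (fun x => fn (Dm u x) ^ (m + 1)) Q i t) :=
          mul_le_mul_of_nonneg_left hint (mul_nonneg hC.le hL0)
      _ = C * ((m : ℝ) ^ (m + 1) * (L * fc (fun x => fn (Dm u x) ^ (m + 1)) Q i t)) := by ring
      _ ≤ C * ((m : ℝ) ^ (m + 1) * ε) := by
          refine mul_le_mul_of_nonneg_left ?_ hC.le
          exact mul_le_mul_of_nonneg_left hfc (by positivity)
      _ ≤ δ ^ (m + 1) := hε
  exact le_of_pow_le_pow_left₀ (Nat.succ_ne_zero m) hδ.le h5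

theorem bd_osc {m : ℕ} (hm : 1 ≤ m) : ∃ ε : ℝ, 0 < ε ∧ ∀ (u : E (m + 1) → E (m + 1 + 1)),
    ContDiff ℝ ∞ u → ∀ Q0 Q : Bx (m + 1), Gb (fun x => fn (Dm u x) ^ (m + 1)) ε Q0 Q →
    ∀ x ∈ Q.bd, qs (u Q.a) (u x) ≤ 1 / 1024 := by
  obtain ⟨C, hC, hmor⟩ := morrey_box hm
  have hm0 : (0 : ℝ) < m := by exact_mod_cast hm
  set δ : ℝ := 1 / (96 * ((m : ℝ) + 2)) with hδdef
  have hδ : 0 < δ := by positivity
  refine ⟨δ ^ (m + 1) / (C * (m : ℝ) ^ (m + 1)), by positivity, ?_⟩
  intro u hu Q0 Q hQ x hx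
  have hε : C * ((m : ℝ) ^ (m + 1) * (δ ^ (m + 1) / (C * (m : ℝ) ^ (m + 1)))) ≤ δ ^ (m + 1) := by
    have h1 : C * ((m : ℝ) ^ (m + 1)) ≠ 0 := by positivity
    rw [← mul_assoc, mul_div_cancel₀ _ h1]
  have hface := fun i t ht x y hx hy hxt hyt a =>
    bd_osc_face hm C hC hmor _ δ hδ hε u hu Q0 Q hQ i t ht x y hx hy hxt hyt a
  have haQ : Q.a ∈ Q.cl := fun i => ⟨le_rfl, (Q.lt i).le⟩
  have hmain : ∀ a, |u x a - u Q.a a| ≤ 2 * δ := by
    intro a
    obtain ⟨hxcl, i, hi⟩ := hx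
    rcases hi with hi | hi
    · have h1 := hface i (Q.a i) (Or.inl rfl) x Q.a hxcl haQ hi rfl a
      linarith
    · obtain ⟨j, hj⟩ : ∃ j : Fin (m + 1), j ≠ i := by
        have : Nontrivial (Fin (m + 1)) := Fin.nontrivial_iff_two_le.2 (by omega)
        exact exists_ne i
      set y : E (m + 1) := Function.update x j (Q.a j) with hy
      have hycl : y ∈ Q.cl := by
        intro k
        by_cases hk : k = j
        · subst hk
          rw [hy, Function.update_self]
          exact haQ k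
        · rw [hy, Function.update_of_ne hk]
          exact hxcl k
      have hyi : y i = Q.b i := by
        rw [hy, Function.update_of_ne hj.symm]; exact hi
      have hyj : y j = Q.a j := by
        rw [hy, Function.update_self]
      have h1 := hface i (Q.b i) (Or.inr rfl) x y hxcl hycl hi hyi a
      have h2 := hface j (Q.a j) (Or.inl rfl) y Q.a hycl haQ hyj rfl a
      have h3 : u x a - u Q.a a = (u x a - u y a) + (u y a - u Q.a a) := by ring
      rw [h3]
      exact (abs_add_le _ _).trans (by linarith)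
  unfold qs
  have h4 : ∀ a ∈ (Finset.univ : Finset (Fin (m + 1 + 1))),
      (u x a - u Q.a a) ^ 2 ≤ (2 * δ) ^ 2 := by
    intro a _
    rw [← sq_abs (u x a - u Q.a a)]
    exact pow_le_pow_left₀ (abs_nonneg _) (hmain a) 2
  refine (Finset.sum_le_sum h4).trans ?_
  rw [Finset.sum_const, Finset.card_univ, Fintype.card_fin, nsmul_eq_mul]
  push_cast
  have h5 : (0 : ℝ) < (m : ℝ) + 2 := by linarith
  have h6 : ((m : ℝ) + 1 + 1) * (2 * δ) ^ 2 = 1 / (2304 * ((m : ℝ) + 2)) := by
    rw [hδdef]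
    field_simp
    ring
  rw [h6]
  apply one_div_le_one_div_of_le (by norm_num)
  linarith


end H930.HS.XBdOsc

namespace H930.HS

export XBdOsc (bd_osc)

end H930.HS
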