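import Pool.Agent.Helper930.HS.IsoBv

set_option autoImplicit false

open MeasureTheory Metric Set Filter Topology
open scoped ENNReal NNReal ContDiff

namespace H930.HS.XIsoInt

open H930.BL



lemma contDiff_qs' {m : ℕ} (c : E m) : ContDiff ℝ ∞ (qs c) := by
  unfold qs
  fun_prop

lemma hasFDerivAt_qs' {m : ℕ} (c y : E m) :
    HasFDerivAt (qs c) (∑ b, (2 * (y b - c b)) • (ContinuousLinearMap.proj b : E m →L[ℝ] ℝ)) y := by
  unfold qs
  refine HasFDerivAt.fun_sum fun b _ => ?_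
  have h2 := (((ContinuousLinearMap.proj b : E m →L[ℝ] ℝ).hasFDerivAt (x := y)).sub_const (c b)).pow 2
  simpa using h2

lemma pd_qs' {m : ℕ} (c y : E m) (a : Fin m) : pd (qs c) a y = 2 * (y a - c a) := by
  unfold pd
  rw [(hasFDerivAt_qs' c y).fderiv]
  simp [Pi.single_apply]

lemma deriv_st_left {x : ℝ} (hx : x ≤ 0) : deriv Real.smoothTransition x = 0 := by
  apply IsLocalMin.deriv_eq_zero
  refine Filter.Eventually.of_forall fun y => ?_
  rw [Real.smoothTransition.zero_of_nonpos hx]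
  exact Real.smoothTransition.nonneg y

lemma deriv_st_right {x : ℝ} (hx : 1 ≤ x) : deriv Real.smoothTransition x = 0 := by
  apply IsLocalMax.deriv_eq_zero
  refine Filter.Eventually.of_forall fun y => ?_
  rw [Real.smoothTransition.one_of_one_le hx]
  exact Real.smoothTransition.le_one y

lemma exists_st_bound : ∃ C0 : ℝ, 0 ≤ C0 ∧ ∀ x, |deriv Real.smoothTransition x| ≤ C0 := by
  have hc : Continuous (deriv Real.smoothTransition) :=
    (Real.smoothTransition.contDiff (n := 1)).continuous_deriv (by norm_num)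
  obtain ⟨C, hC⟩ := (isCompact_Icc : IsCompact (Icc (0:ℝ) 1)).exists_bound_of_continuousOn
    hc.continuousOn
  have hC0 : 0 ≤ C := (norm_nonneg _).trans (hC 0 ⟨le_rfl, zero_le_one⟩)
  refine ⟨C, hC0, fun x => ?_⟩
  rcases le_total x 0 with hx | hx
  · rw [deriv_st_left hx, abs_zero]; exact hC0
  · rcases le_total 1 x with hx1 | hx1
    · rw [deriv_st_right hx1, abs_zero]; exact hC0
    · exact hC x ⟨hx, hx1⟩

lemma pd_chi' {m : ℕ} (c y : E m) (s D : ℝ) (a : Fin m) :
    pd (fun y => Real.smoothTransition ((qs c y - s) / D)) a y =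
      deriv Real.smoothTransition ((qs c y - s) / D) * (2 * (y a - c a) / D) := by
  have h1 : HasFDerivAt (fun y => (qs c y - s) / D)
      (D⁻¹ • (∑ b, (2 * (y b - c b)) • (ContinuousLinearMap.proj b : E m →L[ℝ] ℝ))) y := by
    have := ((hasFDerivAt_qs' c y).sub_const s).mul_const D⁻¹
    simpa only [div_eq_mul_inv] using this
  have h2 : DifferentiableAt ℝ Real.smoothTransition ((qs c y - s) / D) :=
    (Real.smoothTransition.contDiff (n := 1)).differentiable (by norm_num) _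
  have h3 := h2.hasDerivAt.comp_hasFDerivAt y h1
  have h4 : (fun y => Real.smoothTransition ((qs c y - s) / D)) =
      Real.smoothTransition ∘ (fun y => (qs c y - s) / D) := rfl
  unfold pd
  rw [h4, h3.fderiv]
  simp [Pi.single_apply]
  ring_nf
  simp

lemma abs_le_rpow_of_int {t p : ℝ} (hp : 1 ≤ p) (ht : ∃ k : ℤ, t = k) : |t| ≤ |t| ^ p := by
  obtain ⟨k, rfl⟩ := ht
  by_cases hk : k = 0
  · subst hk
    rw [Int.cast_zero, abs_zero]
    exact Real.rpow_nonneg le_rfl p
  · apply Real.self_le_rpow_of_one_le _ hp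
    have : (1 : ℤ) ≤ |k| := Int.one_le_abs hk
    exact_mod_cast this

lemma int_abs_le {N : ℕ} {S : Set (E N)} (hS : MeasurableSet S) {f g : E N → ℝ} {p K : ℝ}
    (hK : 0 ≤ K) (hf : Integrable f) (h : ∀ y ∈ S, |f y| ≤ |g y| ^ p)
    (hg : ∫⁻ y, ENNReal.ofReal (|g y| ^ p) ≤ ENNReal.ofReal K) : ∫ y in S, |f y| ≤ K := by
  rw [integral_eq_lintegral_of_nonneg_ae (Filter.Eventually.of_forall fun _ => abs_nonneg _)
    hf.abs.integrableOn.aestronglyMeasurable]
  apply ENNReal.toReal_le_of_le_ofReal hK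
  refine le_trans ?_ hg
  refine le_trans ?_ (setLIntegral_le_lintegral S _)
  exact setLIntegral_mono' hS fun y hy => ENNReal.ofReal_le_ofReal (h y hy)

lemma p_ge_one {N : ℕ} (hN : 2 ≤ N) : 1 ≤ (N : ℝ) / ((N : ℝ) - 1) := by
  have h : (2 : ℝ) ≤ N := by exact_mod_cast hN
  rw [le_div_iff₀ (by linarith)]
  linarith


theorem iso_int {N : ℕ} (hN : 2 ≤ N) : ∃ C : ℝ, 0 < C ∧ ∀ f : E N → ℝ, Integrable f →
    (∃ R : ℝ, ∀ y, R < ‖y‖ → f y = 0) → (∀ y, ∃ k : ℤ, f y = k) → ∀ m : ℝ, 0 ≤ m →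
    (∀ ζ : E N → ℝ, ContDiff ℝ ∞ ζ → ∀ A : ℝ, (∀ y, |ζ y| ≤ A) →
      ∀ a, |∫ y, f y * pd ζ a y| ≤ m * A) →
    ∫ y, |f y| ≤ C * m ^ ((N : ℝ) / ((N : ℝ) - 1)) := by
  obtain ⟨C, hC, hb⟩ := iso_bv hN
  refine ⟨C, hC, fun f hf hR hint m hm hyp => ?_⟩
  have h1 := hb f hf hR m hm (fun ζ hζ _ A hA a => hyp ζ hζ A hA a)
  have h2 := int_abs_le (S := univ) MeasurableSet.univ (f := f) (g := f)
    (p := (N : ℝ) / ((N : ℝ) - 1)) (K := C * m ^ ((N : ℝ) / ((N : ℝ) - 1)))
    (mul_nonneg hC.le (Real.rpow_nonneg hm _)) hf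
    (fun y _ => abs_le_rpow_of_int (p_ge_one hN) (hint y)) h1
  rwa [setIntegral_univ] at h2

theorem iso_loc {N : ℕ} (hN : 2 ≤ N) : ∃ C : ℝ, 0 < C ∧ ∀ f : E N → ℝ, Integrable f →
    (∃ R : ℝ, ∀ y, R < ‖y‖ → f y = 0) → (∀ y, ∃ k : ℤ, f y = k) →
    ∀ (c : E N) (s h m : ℝ), 1 / 8 ≤ s → s ≤ 1 → 0 < h → h ≤ 1 → 0 ≤ m →
    (∀ ζ : E N → ℝ, ContDiff ℝ ∞ ζ → ∀ A : ℝ, (∀ y, |ζ y| ≤ A) →
      (∀ y, qs c y ≤ s ^ 2 → ζ y = 0) → ∀ a, |∫ y, f y * pd ζ a y| ≤ m * A) →
    ∫ y in {y | (s + h) ^ 2 < qs c y}, |f y| ≤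
      C * (m + h⁻¹ * ∫ y in {y | s ^ 2 < qs c y}, |f y|) ^ ((N : ℝ) / ((N : ℝ) - 1)) := by
  obtain ⟨C, hC, hb⟩ := iso_bv hN
  obtain ⟨C0, hC0, hst⟩ := exists_st_bound
  set p : ℝ := (N : ℝ) / ((N : ℝ) - 1) with hp
  have hp1 : 1 ≤ p := p_ge_one hN
  set C1 : ℝ := 16 * C0 + 1 with hC1
  have hC1pos : 1 ≤ C1 := by rw [hC1]; linarith
  refine ⟨C * C1 ^ p, mul_pos hC (Real.rpow_pos_of_pos (by linarith) _), ?_⟩
  intro f hf hR hint c s h m hs8 hs1 hh hh1 hm hyp
  set D : ℝ := (s + h) ^ 2 - s ^ 2 with hD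
  have hDpos : 0 < D := by rw [hD]; nlinarith
  have hDh : h / 4 ≤ D := by rw [hD]; nlinarith
  set χ : E N → ℝ := fun y => Real.smoothTransition ((qs c y - s ^ 2) / D) with hχ
  have hχs : ContDiff ℝ ∞ χ :=
    (Real.smoothTransition.contDiff (n := ⊤)).comp (((contDiff_qs' c).sub contDiff_const).div_const D)
  have hχ0 : ∀ y, qs c y ≤ s ^ 2 → χ y = 0 := fun y hy =>
    Real.smoothTransition.zero_of_nonpos (div_nonpos_of_nonpos_of_nonneg (by linarith) hDpos.le)
  have hχ1 : ∀ y, (s + h) ^ 2 ≤ qs c y → χ y = 1 := fun y hy =>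
    Real.smoothTransition.one_of_one_le (by rw [le_div_iff₀ hDpos, hD]; linarith)
  have hχn : ∀ y, 0 ≤ χ y := fun y => Real.smoothTransition.nonneg _
  have hχl : ∀ y, χ y ≤ 1 := fun y => Real.smoothTransition.le_one _
  have hχa : ∀ y, |χ y| ≤ 1 := fun y => by rw [abs_of_nonneg (hχn y)]; exact hχl y
  -- derivative of the cut-off
  have hpd0 : ∀ a y, qs c y ≤ s ^ 2 → pd χ a y = 0 := by
    intro a y hy
    rw [hχ, pd_chi', deriv_st_left (div_nonpos_of_nonpos_of_nonneg (by linarith) hDpos.le), zero_mul]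
  have hpdb : ∀ a y, |pd χ a y| ≤ C1 / h := by
    intro a y
    have hC1h : 0 ≤ C1 / h := by positivity
    rcases le_total (qs c y) ((s + h) ^ 2) with hy | hy
    · have h1 : |y a - c a| ≤ s + h := by
        apply abs_le_of_sq_le_sq _ (by linarith)
        refine le_trans ?_ hy
        exact Finset.single_le_sum (f := fun a => (y a - c a) ^ 2) (fun _ _ => sq_nonneg _)
          (Finset.mem_univ a)
      rw [hχ, pd_chi', abs_mul, abs_div, abs_mul, abs_of_pos hDpos, abs_of_pos (by norm_num : (0:ℝ) < 2)]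
      have h2 : 2 * |y a - c a| / D ≤ 16 / h := by
        rw [div_le_div_iff₀ hDpos hh]
        have h3 : |y a - c a| ≤ 2 := by linarith
        nlinarith [abs_nonneg (y a - c a)]
      calc |deriv Real.smoothTransition ((qs c y - s ^ 2) / D)| * (2 * |y a - c a| / D)
          ≤ C0 * (16 / h) := mul_le_mul (hst _) h2 (by positivity) hC0
        _ ≤ C1 / h := by
            rw [hC1, mul_div_assoc', div_le_div_iff_of_pos_right hh]
            linarith
    · rw [hχ, pd_chi', deriv_st_right (by rw [le_div_iff₀ hDpos, hD]; linarith), zero_mul, abs_zero]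
      exact hC1h
  set I : ℝ := ∫ y in {y | s ^ 2 < qs c y}, |f y| with hI
  have hI0 : 0 ≤ I := integral_nonneg fun _ => abs_nonneg _
  have hms : MeasurableSet {y | s ^ 2 < qs c y} :=
    (isOpen_lt continuous_const (contDiff_qs' c).continuous).measurableSet
  have hms' : MeasurableSet {y | (s + h) ^ 2 < qs c y} :=
    (isOpen_lt continuous_const (contDiff_qs' c).continuous).measurableSet
  have hχf : Integrable (fun y => χ y * f y) :=
    hf.bdd_mul (c := 1) hχs.continuous.aestronglyMeasurable (Filter.Eventually.of_forall hχa)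
  have hmain := hb (fun y => χ y * f y) hχf (by
      obtain ⟨R, hR⟩ := hR
      exact ⟨R, fun y hy => by rw [hR y hy, mul_zero]⟩) (C1 * (m + h⁻¹ * I))
      (by positivity) (by
    intro ζ hζ hζc A hA a
    have hA0 : 0 ≤ A := (abs_nonneg _).trans (hA 0)
    have hd1 : Differentiable ℝ χ := hχs.differentiable (by simp)
    have hd2 : Differentiable ℝ ζ := hζ.differentiable (by simp)
    have hprod : ∀ y, pd (fun y => χ y * ζ y) a y = χ y * pd ζ a y + ζ y * pd χ a y := fun y =>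
      pd_mul (hd1 y) (hd2 y) a
    have hcζ : Continuous (pd ζ a) := continuous_pd (hζ.of_le (by simp)) a
    have hcχ : Continuous (pd χ a) := continuous_pd (hχs.of_le (by simp)) a
    have hpζ : ∃ B, ∀ y, ‖pd ζ a y‖ ≤ B := by
      apply HasCompactSupport.exists_bound_of_continuous _ hcζ
      refine HasCompactSupport.intro hζc fun y hy => ?_
      exact pd_eq_zero_of_notMem hy a
    obtain ⟨B, hB⟩ := hpζ
    have hi1 : Integrable (fun y => f y * (χ y * pd ζ a y)) := by
      refine hf.mul_bdd (c := B) (hχs.continuous.mul hcζ).aestronglyMeasurable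
        (Filter.Eventually.of_forall fun y => ?_)
      rw [norm_mul, Real.norm_eq_abs]
      calc |χ y| * ‖pd ζ a y‖ ≤ 1 * B := mul_le_mul (hχa y) (hB y) (norm_nonneg _) zero_le_one
        _ = B := one_mul B
    have hi2 : Integrable (fun y => f y * (ζ y * pd χ a y)) := by
      refine hf.mul_bdd (c := A * (C1 / h)) (hζ.continuous.mul hcχ).aestronglyMeasurable
        (Filter.Eventually.of_forall fun y => ?_)
      rw [norm_mul, Real.norm_eq_abs, Real.norm_eq_abs]
      exact mul_le_mul (hA y) (hpdb a y) (abs_nonneg _) hA0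
    have hsplit : ∫ y, χ y * f y * pd ζ a y =
        (∫ y, f y * pd (fun y => χ y * ζ y) a y) - ∫ y, f y * (ζ y * pd χ a y) := by
      have h1 : ∫ y, f y * pd (fun y => χ y * ζ y) a y =
          (∫ y, f y * (χ y * pd ζ a y)) + ∫ y, f y * (ζ y * pd χ a y) := by
        rw [← integral_add hi1 hi2]
        refine integral_congr_ae (Filter.Eventually.of_forall fun y => ?_)
        simp only [hprod]
        ring
      rw [h1, add_sub_cancel_right]
      refine integral_congr_ae (Filter.Eventually.of_forall fun y => ?_)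
      simp only
      ring
    have hb1 : |∫ y, f y * pd (fun y => χ y * ζ y) a y| ≤ m * A := by
      refine hyp (fun y => χ y * ζ y) (hχs.mul hζ) A (fun y => ?_) (fun y hy => ?_) a
      · rw [abs_mul]
        calc |χ y| * |ζ y| ≤ 1 * A := mul_le_mul (hχa y) (hA y) (abs_nonneg _) zero_le_one
          _ = A := one_mul A
      · simp only [hχ0 y hy, zero_mul]
    have hb2 : |∫ y, f y * (ζ y * pd χ a y)| ≤ A * (C1 / h) * I := by
      have h1 : ∫ y, f y * (ζ y * pd χ a y) =
          ∫ y in {y | s ^ 2 < qs c y}, f y * (ζ y * pd χ a y) := by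
        symm
        apply setIntegral_eq_integral_of_forall_compl_eq_zero
        intro y hy
        have hy' : qs c y ≤ s ^ 2 := not_lt.mp hy
        rw [hpd0 a y hy', mul_zero, mul_zero]
      rw [h1, hI, ← integral_const_mul]
      refine le_trans (abs_integral_le_integral_abs) ?_
      refine integral_mono hi2.abs.integrableOn (hf.abs.integrableOn.const_mul _) fun y => ?_
      simp only
      rw [abs_mul, abs_mul, mul_comm]
      exact mul_le_mul_of_nonneg_right (mul_le_mul (hA y) (hpdb a y) (abs_nonneg _) hA0)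
        (abs_nonneg _)
    show |∫ y, χ y * f y * pd ζ a y| ≤ _
    rw [hsplit]
    refine (abs_sub _ _).trans ((add_le_add hb1 hb2).trans ?_)
    have h2 : m * A ≤ C1 * m * A := by
      apply mul_le_mul_of_nonneg_right _ hA0
      nlinarith
    calc m * A + A * (C1 / h) * I ≤ C1 * m * A + A * (C1 / h) * I := by linarith
      _ = C1 * (m + h⁻¹ * I) * A := by rw [div_eq_mul_inv]; ring)
  have hfin := int_abs_le hms' (f := f) (g := fun y => χ y * f y) (p := p)
    (K := C * (C1 * (m + h⁻¹ * I)) ^ p) (by positivity) hf (fun y hy => by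
      have hy' : (s + h) ^ 2 < qs c y := hy
      simp only [hχ1 y hy'.le, one_mul]
      exact abs_le_rpow_of_int hp1 (hint y)) hmain
  refine hfin.trans (le_of_eq ?_)
  rw [Real.mul_rpow (by linarith) (by positivity)]
  ring

end H930.HS.XIsoInt

namespace H930.HS

export XIsoInt (iso_int iso_loc)

end H930.HS
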