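import Pool.Agent.Helper930.HS.Exp
import Pool.Agent.Helper930.BL.J02
import Pool.Agent.Helper930.BL.J08

set_option autoImplicit false

open MeasureTheory Metric Set Filter Topology
open scoped ENNReal NNReal ContDiff

namespace H930.HS.XPcDer

open H930.BL



theorem aux_st_deriv_zero {s : ℝ} (h : s < 0 ∨ 1 < s) : deriv Real.smoothTransition s = 0 := by
  rcases h with h | h
  · have h1 : Real.smoothTransition =ᶠ[𝓝 s] fun _ => (0 : ℝ) := by
      filter_upwards [Iio_mem_nhds h] with t ht
      exact Real.smoothTransition.zero_of_nonpos (le_of_lt ht)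
    rw [h1.deriv_eq]
    simp
  · have h1 : Real.smoothTransition =ᶠ[𝓝 s] fun _ => (1 : ℝ) := by
      filter_upwards [Ioi_mem_nhds h] with t ht
      exact Real.smoothTransition.one_of_one_le (le_of_lt ht)
    rw [h1.deriv_eq]
    simp

theorem aux_qs_hasFDeriv {m : ℕ} (c y : E m) :
    HasFDerivAt (fun y : E m => qs c y)
      (∑ a, (2 * (y a - c a)) • (ContinuousLinearMap.proj (R := ℝ) (φ := fun _ : Fin m => ℝ) a)) y := by
  unfold qs
  apply HasFDerivAt.fun_sum
  intro a _
  have h1 : HasFDerivAt (fun y : E m => y a - c a)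
      (ContinuousLinearMap.proj (R := ℝ) (φ := fun _ : Fin m => ℝ) a) y :=
    (hasFDerivAt_apply a y).sub_const (c a)
  have h2 := h1.pow 2
  simpa using h2

theorem aux_Pc_hasFDeriv {m : ℕ} (c y : E m) (a : Fin m) :
    HasFDerivAt (fun y : E m => Pc c y a)
      (Real.smoothTransition ((256 * qs c y - 1) / 3) •
        (ContinuousLinearMap.proj (R := ℝ) (φ := fun _ : Fin m => ℝ) a) +
      (y a - c a) • (deriv Real.smoothTransition ((256 * qs c y - 1) / 3) •
        ((256 / 3 : ℝ) • ∑ a, (2 * (y a - c a)) •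
          (ContinuousLinearMap.proj (R := ℝ) (φ := fun _ : Fin m => ℝ) a)))) y := by
  have h0 : HasFDerivAt (fun y : E m => (256 * qs c y - 1) / 3)
      ((256 / 3 : ℝ) • ∑ a, (2 * (y a - c a)) •
        (ContinuousLinearMap.proj (R := ℝ) (φ := fun _ : Fin m => ℝ) a)) y := by
    have h1 := (aux_qs_hasFDeriv c y).const_mul (256 / 3)
    have h2 := h1.sub_const (1 / 3)
    have h3 : (fun y : E m => (256 * qs c y - 1) / 3) = fun y => 256 / 3 * qs c y - 1 / 3 := by
      funext y
      ring
    rw [h3]
    exact h2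
  have h1 : HasDerivAt Real.smoothTransition
      (deriv Real.smoothTransition ((256 * qs c y - 1) / 3)) ((256 * qs c y - 1) / 3) :=
    ((Real.smoothTransition.contDiff (n := 1)).differentiable one_ne_zero _).hasDerivAt
  have h2 := h1.comp_hasFDerivAt y h0
  have h3 : HasFDerivAt (fun y : E m => y a - c a)
      (ContinuousLinearMap.proj (R := ℝ) (φ := fun _ : Fin m => ℝ) a) y :=
    (hasFDerivAt_apply a y).sub_const (c a)
  exact (h2.mul h3).const_add (c a)

theorem aux_Pc_pd {m : ℕ} (c y : E m) (a b : Fin m) :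
    pd (fun y : E m => Pc c y a) b y =
      Real.smoothTransition ((256 * qs c y - 1) / 3) * (if a = b then 1 else 0) +
      (y a - c a) * (deriv Real.smoothTransition ((256 * qs c y - 1) / 3) *
        (256 / 3 * (2 * (y b - c b)))) := by
  unfold pd
  rw [(aux_Pc_hasFDeriv c y a).fderiv]
  simp only [add_apply, smul_apply,
    sum_apply, ContinuousLinearMap.proj_apply, smul_eq_mul, Pi.single_apply,
    mul_ite, mul_one, mul_zero, Finset.sum_ite_eq', Finset.mem_univ, if_true]

theorem aux_qs_coord {m : ℕ} (c y : E m) (a : Fin m) : (y a - c a) ^ 2 ≤ qs c y :=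
  Finset.single_le_sum (f := fun a => (y a - c a) ^ 2) (fun _ _ => sq_nonneg _) (Finset.mem_univ a)

theorem aux_Pc_smooth {m : ℕ} (c : E m) : ContDiff ℝ ∞ (fun y : E m => Pc c y) := by
  rw [contDiff_pi]
  intro a
  unfold Pc qs
  apply ContDiff.add contDiff_const
  apply ContDiff.mul
  · apply Real.smoothTransition.contDiff.comp
    fun_prop
  · fun_prop

theorem Pc_der {n : ℕ} : ∃ C : ℝ, 0 < C ∧ ∀ (u : E n → E (n + 1)), ContDiff ℝ ∞ u →
    ∀ (c : E (n + 1)), ContDiff ℝ ∞ (fun z => Pc c (u z)) ∧ ∀ x,
    ∃ A : Matrix (Fin (n + 1)) (Fin (n + 1)) ℝ, (∀ i j, |A i j| ≤ C) ∧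
      Dm (fun z => Pc c (u z)) x = A * Dm u x := by
  obtain ⟨C0, hC0, hst⟩ := exists_C0
  refine ⟨1 + 3 * C0, by positivity, ?_⟩
  intro u hu c
  refine ⟨(aux_Pc_smooth c).comp hu, ?_⟩
  intro x
  refine ⟨Matrix.of fun a b => pd (fun y => Pc c y a) b (u x), ?_, ?_⟩
  · intro a b
    rw [Matrix.of_apply, aux_Pc_pd]
    set y := u x with hy
    set s : ℝ := (256 * qs c y - 1) / 3 with hs
    have h1 : |Real.smoothTransition s * (if a = b then 1 else 0)| ≤ 1 := by
      rw [abs_mul, abs_of_nonneg (Real.smoothTransition.nonneg s)]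
      have h2 : |(if a = b then (1 : ℝ) else 0)| ≤ 1 := by split_ifs <;> simp
      calc Real.smoothTransition s * |(if a = b then (1 : ℝ) else 0)| ≤ 1 * 1 := by
            gcongr
            exact Real.smoothTransition.le_one s
        _ = 1 := one_mul 1
    have h2 : |(y a - c a) * (deriv Real.smoothTransition s * (256 / 3 * (2 * (y b - c b))))|
        ≤ 3 * C0 := by
      by_cases hcase : s < 0 ∨ 1 < s
      · rw [aux_st_deriv_zero hcase]
        simp
        positivity
      · push Not at hcase
        have hq : qs c y ≤ 1 / 64 := by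
          have := hcase.2
          rw [hs] at this
          linarith
        have hco : ∀ a, |y a - c a| ≤ 1 / 8 := by
          intro a
          have h3 := (aux_qs_coord c y a).trans hq
          apply abs_le_of_sq_le_sq _ (by norm_num)
          rw [show ((1 : ℝ) / 8) ^ 2 = 1 / 64 by norm_num]
          exact h3
        rw [abs_mul, abs_mul, abs_mul, abs_mul]
        have e1 : |(256 / 3 : ℝ)| = 256 / 3 := abs_of_pos (by norm_num)
        have e2 : |(2 : ℝ)| = 2 := abs_of_pos (by norm_num)
        rw [e1, e2]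
        calc |y a - c a| * (|deriv Real.smoothTransition s| * (256 / 3 * (2 * |y b - c b|)))
            ≤ 1 / 8 * (C0 * (256 / 3 * (2 * (1 / 8)))) := by
              gcongr
              · exact hco a
              · exact hst s
              · exact hco b
          _ ≤ 3 * C0 := by linarith
    exact (abs_add_le _ _).trans (add_le_add h1 h2)
  · ext i j
    rw [Matrix.mul_apply]
    simp only [Dm, Matrix.of_apply]
    have hud : DifferentiableAt ℝ u x := hu.differentiable (by simp) x
    have hP : DifferentiableAt ℝ (fun y : E (n + 1) => Pc c y i) (u x) :=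
      (aux_Pc_hasFDeriv c (u x) i).differentiableAt
    have h1 : pd (fun z => Pc c (u z) i) j x =
        fderiv ℝ (fun y : E (n + 1) => Pc c y i) (u x) (fderiv ℝ u x (Pi.single j 1)) := by
      unfold pd
      have h2 := fderiv_comp x hP hud
      change fderiv ℝ ((fun y : E (n + 1) => Pc c y i) ∘ u) x (Pi.single j 1) = _
      rw [h2]
      rfl
    rw [h1, aux_lin]
    apply Finset.sum_congr rfl
    intro l _
    have h3 : (fderiv ℝ u x (Pi.single j 1)) l = pd (fun y => u y l) j x := by
      unfold pd
      have h4 := fderiv_pi (𝕜 := ℝ) (φ := fun (i : Fin (n + 1)) (y : E n) => u y i) (x := x)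
        (fun i => (differentiableAt_pi.1 hud) i)
      have h5 : (fun y : E n => fun i => u y i) = u := rfl
      rw [← h5, h4]
      rfl
    rw [h3, mul_comm]

end H930.HS.XPcDer

namespace H930.HS

export XPcDer (Pc_der)

end H930.HS
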