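import Pool.Agent.Helper930.HS.DlF
import Pool.Agent.Helper930.HS.IsoInt
import Pool.Agent.Helper930.HS.PcDer

set_option autoImplicit false

open MeasureTheory Metric Set Filter Topology
open scoped ENNReal NNReal ContDiff

namespace H930.HS.XIsoQ

open H930.BL



theorem isoQ_sum_int {m : ℕ} {ι : Type*} (s : Finset ι) (f : ι → E m → ℝ)
    (h : ∀ κ ∈ s, ∀ y, ∃ k : ℤ, f κ y = k) : ∀ y, ∃ k : ℤ, ∑ κ ∈ s, f κ y = k := by
  classical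
  induction s using Finset.induction_on with
  | empty => intro y; exact ⟨0, by simp⟩
  | insert a s ha ih =>
    intro y
    obtain ⟨k1, h1⟩ := h a (Finset.mem_insert_self _ _) y
    obtain ⟨k2, h2⟩ := ih (fun κ hκ => h κ (Finset.mem_insert_of_mem hκ)) y
    exact ⟨k1 + k2, by rw [Finset.sum_insert ha, h1, h2]; push_cast; ring⟩

theorem isoQ_sum_bdd {m : ℕ} {ι : Type*} (s : Finset ι) (f : ι → E m → ℝ)
    (h : ∀ κ ∈ s, ∃ R : ℝ, ∀ y, R < ‖y‖ → f κ y = 0) :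
    ∃ R : ℝ, ∀ y, R < ‖y‖ → ∑ κ ∈ s, f κ y = 0 := by
  classical
  induction s using Finset.induction_on with
  | empty => exact ⟨0, by simp⟩
  | insert a s ha ih =>
    obtain ⟨R1, h1⟩ := h a (Finset.mem_insert_self _ _)
    obtain ⟨R2, h2⟩ := ih (fun κ hκ => h κ (Finset.mem_insert_of_mem hκ))
    refine ⟨max R1 R2, fun y hy => ?_⟩
    rw [Finset.sum_insert ha, h1 y (lt_of_le_of_lt (le_max_left _ _) hy),
      h2 y (lt_of_le_of_lt (le_max_right _ _) hy), add_zero]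

theorem isoQ_dl {n : ℕ} {u : E n → E (n + 1)} {P : Bx n → Prop}
    {ch : Bx n → Finset (Bx n)} {rk : Bx n → ℕ} {d : Bx n → E (n + 1) → ℝ} (h : Cells u P ch rk)
    (hd : ∀ Q, P Q → DegF u ch Q (d Q)) {Q : Bx n} (hQ : P Q) :
    Integrable (dl ch d Q) ∧ (∃ R : ℝ, ∀ y, R < ‖y‖ → dl ch d Q y = 0) ∧
      (∀ y, ∃ k : ℤ, dl ch d Q y = k) := by
  refine ⟨?_, ?_, ?_⟩
  · unfold dl
    exact (hd Q hQ).int.sub (integrable_finsetSum _ fun κ hκ => (hd κ (h.chP Q hQ κ hκ)).int)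
  · obtain ⟨R1, h1⟩ := (hd Q hQ).bdd
    obtain ⟨R2, h2⟩ := isoQ_sum_bdd (ch Q) d (fun κ hκ => (hd κ (h.chP Q hQ κ hκ)).bdd)
    refine ⟨max R1 R2, fun y hy => ?_⟩
    unfold dl
    rw [h1 y (lt_of_le_of_lt (le_max_left _ _) hy), h2 y (lt_of_le_of_lt (le_max_right _ _) hy),
      sub_zero]
  · intro y
    obtain ⟨k1, h1⟩ := (hd Q hQ).isint y
    obtain ⟨k2, h2⟩ := isoQ_sum_int (ch Q) d (fun κ hκ => (hd κ (h.chP Q hQ κ hκ)).isint) y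
    exact ⟨k1 - k2, by unfold dl; rw [h1, h2]; push_cast; ring⟩

theorem isoQ_mono {n : ℕ} {A B : Set (E n)} (hAB : A ⊆ B) {t : E n → ℝ} (ht : IntegrableOn t B)
    {g : E n → ℝ} (hg : ∀ x, 0 ≤ g x) {c : ℝ} (hgt : ∀ x, g x ≤ c * t x) :
    ∫ x in A, g x ≤ c * ∫ x in A, t x := by
  rw [← integral_const_mul]
  exact integral_mono_of_nonneg (Eventually.of_forall hg)
    ((ht.mono_set hAB).const_mul c) (Eventually.of_forall hgt)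

theorem isoQ_Nr {n : ℕ} {u : E n → E (n + 1)} {P : Bx n → Prop}
    {ch : Bx n → Finset (Bx n)} {rk : Bx n → ℕ} (h : Cells u P ch rk)
    {Q : Bx n} (hQ : P Q) (t : E n → ℝ) (ht : IntegrableOn t Q.s)
    (h1 : ∀ x a, |Jc (Dm u x) a| ≤ t x)
    (h2 : ∀ c x a, |Jc (Dm (fun z => Pc c (u z)) x) a| ≤ t x) (a : Fin (n + 1)) :
    ∑ κ ∈ ch Q, ∫ x in Nr u ch κ (1 / 64),
          (|Jc (Dm u x) a| + |Jc (Dm (fun z => Pc (u κ.a) (u z)) x) a|) ≤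
      2 * ∑ κ ∈ ch Q, ∫ x in Nr u ch κ (1 / 64), t x := by
  rw [Finset.mul_sum]
  refine Finset.sum_le_sum fun κ hκ => ?_
  refine isoQ_mono (B := Q.s) ?_ ht (fun x => by positivity) (fun x => ?_)
  · intro x hx
    exact h.chs Q hQ κ hκ hx.1.1
  · have := h1 x a
    have := h2 (u κ.a) x a
    linarith

theorem isoQ_exp (n : ℕ) : (((n + 1 : ℕ) : ℝ) / (((n + 1 : ℕ) : ℝ) - 1)) = ((n : ℝ) + 1) / n := by
  push_cast
  rw [add_sub_cancel_right]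

theorem isoQ {n : ℕ} (hn : 2 ≤ n) : ∃ C : ℝ, 0 < C ∧ ∀ {u : E n → E (n + 1)} {P : Bx n → Prop}
    {ch : Bx n → Finset (Bx n)} {rk : Bx n → ℕ} {d : Bx n → E (n + 1) → ℝ}, Cells u P ch rk →
    (∀ Q, P Q → DegF u ch Q (d Q)) → ∀ Q, P Q → ∀ (t : E n → ℝ), (∀ x, 0 ≤ t x) →
    IntegrableOn t Q.s → (∀ x a, |Jc (Dm u x) a| ≤ t x) →
    (∀ c x a, |Jc (Dm (fun z => Pc c (u z)) x) a| ≤ t x) →
    Dq ch d Q ≤ C * ((∫ x in Rg ch Q, t x) + ∑ κ ∈ ch Q, ∫ x in Nr u ch κ (1 / 64), t x) ^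
      (((n : ℝ) + 1) / n) := by
  obtain ⟨C0, hC0, hiso⟩ := iso_int (N := n + 1) (by omega)
  rw [isoQ_exp] at hiso
  have h2p : (0 : ℝ) < 2 ^ (((n : ℝ) + 1) / n) := Real.rpow_pos_of_pos (by norm_num) _
  refine ⟨C0 * 2 ^ (((n : ℝ) + 1) / n), mul_pos hC0 h2p, ?_⟩
  intro u P ch rk d h hd Q hQ t ht0 ht h1 h2
  obtain ⟨hdi, hdb, hdz⟩ := isoQ_dl h hd hQ
  have hA0 : 0 ≤ ∫ x in Rg ch Q, t x := integral_nonneg ht0
  have hB0 : 0 ≤ ∑ κ ∈ ch Q, ∫ x in Nr u ch κ (1 / 64), t x :=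
    Finset.sum_nonneg fun κ _ => integral_nonneg ht0
  set m' : ℝ := (∫ x in Rg ch Q, t x) + ∑ κ ∈ ch Q, ∫ x in Nr u ch κ (1 / 64), t x with hm'
  have hm0 : 0 ≤ m' := add_nonneg hA0 hB0
  have key := hiso (dl ch d Q) hdi hdb hdz (2 * m') (by positivity) ?_
  · rw [Real.mul_rpow (by norm_num) hm0] at key
    unfold Dq
    linarith
  · intro ζ hζ A hA a
    have hAn : 0 ≤ A := (abs_nonneg _).trans (hA 0)
    refine (dl_form hn h hd hQ ζ hζ A hA a).trans ?_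
    rw [mul_comm (2 * m') A]
    refine mul_le_mul_of_nonneg_left ?_ hAn
    have e1 : ∫ x in Rg ch Q, |Jc (Dm (fun z => Pc (u Q.a) (u z)) x) a| ≤
        2 * ∫ x in Rg ch Q, t x :=
      isoQ_mono (B := Q.s) (fun x hx => hx.1) ht (fun x => abs_nonneg _)
        (fun x => by have := h2 (u Q.a) x a; have := ht0 x; linarith)
    have e2 := isoQ_Nr h hQ t ht h1 h2 a
    rw [hm']
    linarith

theorem isoQs {n : ℕ} (hn : 2 ≤ n) : ∃ C : ℝ, 0 < C ∧ ∀ {u : E n → E (n + 1)} {P : Bx n → Prop}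
    {ch : Bx n → Finset (Bx n)} {rk : Bx n → ℕ} {d : Bx n → E (n + 1) → ℝ}, Cells u P ch rk →
    (∀ Q, P Q → DegF u ch Q (d Q)) → ∀ Q, P Q → ∀ (t : E n → ℝ), (∀ x, 0 ≤ t x) →
    IntegrableOn t Q.s → (∀ x a, |Jc (Dm u x) a| ≤ t x) →
    (∀ c x a, |Jc (Dm (fun z => Pc c (u z)) x) a| ≤ t x) →
    ∀ s h : ℝ, 1 / 8 ≤ s → s ≤ 1 → 0 < h → h ≤ 1 →
    Ds u ch d Q (s + h) ≤ C * ((∫ x in {x | x ∈ Rg ch Q ∧ s ^ 2 ≤ qs (u Q.a) (u x)}, t x) +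
      (∑ κ ∈ ch Q, ∫ x in Nr u ch κ (1 / 64), t x) + h⁻¹ * Ds u ch d Q s) ^
      (((n : ℝ) + 1) / n) := by
  obtain ⟨C0, hC0, hiso⟩ := iso_loc (N := n + 1) (by omega)
  rw [isoQ_exp] at hiso
  have h2p : (0 : ℝ) < 2 ^ (((n : ℝ) + 1) / n) := Real.rpow_pos_of_pos (by norm_num) _
  refine ⟨C0 * 2 ^ (((n : ℝ) + 1) / n), mul_pos hC0 h2p, ?_⟩
  intro u P ch rk d h hd Q hQ t ht0 ht h1 h2 s l hs hs1 hl hl1
  obtain ⟨hdi, hdb, hdz⟩ := isoQ_dl h hd hQ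
  have hA0 : 0 ≤ ∫ x in {x | x ∈ Rg ch Q ∧ s ^ 2 ≤ qs (u Q.a) (u x)}, t x := integral_nonneg ht0
  have hB0 : 0 ≤ ∑ κ ∈ ch Q, ∫ x in Nr u ch κ (1 / 64), t x :=
    Finset.sum_nonneg fun κ _ => integral_nonneg ht0
  set m' : ℝ := (∫ x in {x | x ∈ Rg ch Q ∧ s ^ 2 ≤ qs (u Q.a) (u x)}, t x) +
    ∑ κ ∈ ch Q, ∫ x in Nr u ch κ (1 / 64), t x with hm'
  have hm0 : 0 ≤ m' := add_nonneg hA0 hB0
  have hD0 : 0 ≤ Ds u ch d Q s := by
    unfold Ds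
    exact integral_nonneg fun y => abs_nonneg _
  have hD1 : 0 ≤ l⁻¹ * Ds u ch d Q s := mul_nonneg (inv_nonneg.2 hl.le) hD0
  have key := hiso (dl ch d Q) hdi hdb hdz (u Q.a) s l (2 * m') hs hs1 hl hl1 (by positivity) ?_
  · change Ds u ch d Q (s + l) ≤ C0 * (2 * m' + l⁻¹ * Ds u ch d Q s) ^ (((n : ℝ) + 1) / n) at key
    have hmono : (2 * m' + l⁻¹ * Ds u ch d Q s) ^ (((n : ℝ) + 1) / n) ≤
        (2 * (m' + l⁻¹ * Ds u ch d Q s)) ^ (((n : ℝ) + 1) / n) :=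
      Real.rpow_le_rpow (by positivity) (by linarith) (by positivity)
    rw [Real.mul_rpow (by norm_num) (by positivity)] at hmono
    have := mul_le_mul_of_nonneg_left hmono hC0.le
    linarith
  · intro ζ hζ A hA h0 a
    have hAn : 0 ≤ A := (abs_nonneg _).trans (hA 0)
    refine (dl_form_s hn h hd hQ ζ hζ A hA s hs h0 a).trans ?_
    rw [mul_comm (2 * m') A]
    refine mul_le_mul_of_nonneg_left ?_ hAn
    have e1 : ∫ x in {x | x ∈ Rg ch Q ∧ s ^ 2 ≤ qs (u Q.a) (u x)}, |Jc (Dm u x) a| ≤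
        2 * ∫ x in {x | x ∈ Rg ch Q ∧ s ^ 2 ≤ qs (u Q.a) (u x)}, t x :=
      isoQ_mono (B := Q.s) (fun x hx => hx.1.1) ht (fun x => abs_nonneg _)
        (fun x => by have := h1 x a; have := ht0 x; linarith)
    have e2 := isoQ_Nr h hQ t ht h1 h2 a
    rw [hm']
    linarith

end H930.HS.XIsoQ

namespace H930.HS

export XIsoQ (isoQ isoQs)

end H930.HS
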