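import Pool.Agent.Helper930.HS.Exp

set_option autoImplicit false

open MeasureTheory Metric Set Filter Topology
open scoped ENNReal NNReal ContDiff

namespace H930.HS.XJcAlg

open H930.BL



theorem det_bd {n : ℕ} (M : Matrix (Fin n) (Fin n) ℝ) (r : Fin n → ℝ)
    (h : ∀ i j, |M i j| ≤ r i) : |M.det| ≤ (n.factorial : ℝ) * ∏ i, r i := by
  rw [Matrix.det_apply]
  refine (Finset.abs_sum_le_sum_abs _ _).trans ?_
  have h1 : ∀ σ ∈ (Finset.univ : Finset (Equiv.Perm (Fin n))),
      |Equiv.Perm.sign σ • ∏ i, M (σ i) i| ≤ ∏ i, r i := by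
    intro σ _
    have h2 : |Equiv.Perm.sign σ • ∏ i, M (σ i) i| = |∏ i, M (σ i) i| := by
      rcases Int.units_eq_one_or (Equiv.Perm.sign σ) with h | h
      · rw [h]; simp
      · rw [h]; simp
    rw [h2, Finset.abs_prod]
    calc ∏ i, |M (σ i) i| ≤ ∏ i, r (σ i) :=
          Finset.prod_le_prod (fun _ _ => abs_nonneg _) fun i _ => h _ _
      _ = ∏ i, r i := Equiv.prod_comp σ r
  refine (Finset.sum_le_sum h1).trans ?_
  rw [Finset.sum_const, Finset.card_univ, Fintype.card_perm, Fintype.card_fin, nsmul_eq_mul]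

theorem det_rank1 {n : ℕ} (X : Matrix (Fin n) (Fin n) ℝ) (v w : Fin n → ℝ) :
    (Matrix.of fun i j => X i j + v i * w j).det =
      X.det + ∑ i, v i * (X.updateRow i w).det := by
  classical
  have key : ∀ s : Finset (Fin n),
      (Matrix.of fun i j => if i ∈ s then X i j + v i * w j else X i j).det =
        X.det + ∑ i ∈ s, v i * (X.updateRow i w).det := by
    intro s
    induction s using Finset.induction_on with
    | empty => simp; rfl
    | insert a s ha ih =>
      rw [Finset.sum_insert ha]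
      have h1 : (Matrix.of fun i j => if i ∈ insert a s then X i j + v i * w j else X i j) =
          (Matrix.of fun i j => if i ∈ s then X i j + v i * w j else X i j).updateRow a
            (X a + v a • w) := by
        ext i j
        by_cases hi : i = a
        · subst hi
          simp [Matrix.updateRow_self]
        · rw [Matrix.updateRow_ne hi]
          simp [Finset.mem_insert, hi]
      have h2 : (Matrix.of fun i j => if i ∈ s then X i j + v i * w j else X i j).updateRow a (X a)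
          = (Matrix.of fun i j => if i ∈ s then X i j + v i * w j else X i j) := by
        ext i j
        by_cases hi : i = a
        · subst hi
          simp [Matrix.updateRow_self, ha]
        · rw [Matrix.updateRow_ne hi]
      have h3 : ((Matrix.of fun i j => if i ∈ s then X i j + v i * w j else X i j).updateRow a w).det
          = (X.updateRow a w).det := by
        refine Matrix.det_eq_of_forall_row_eq_smul_add_const (fun i => if i ∈ s then v i else 0) a
          (by simp [ha]) ?_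
        intro i j
        by_cases hi : i = a
        · subst hi
          simp [Matrix.updateRow_self, ha]
        · rw [Matrix.updateRow_ne hi, Matrix.updateRow_ne hi, Matrix.updateRow_self]
          by_cases his : i ∈ s
          · simp [his]
          · simp [his]
      rw [h1, Matrix.det_updateRow_add, Matrix.det_updateRow_smul, h2, h3, ih]
      ring
  have := key Finset.univ
  simpa using this

theorem det_rank1_bd {n : ℕ} (X : Matrix (Fin n) (Fin n) ℝ) (v w : Fin n → ℝ) {x p q : ℝ}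
    (hx : ∀ i j, |X i j| ≤ x) (hv : ∀ i, |v i| ≤ p) (hw : ∀ j, |w j| ≤ q) :
    |(Matrix.of fun i j => X i j + v i * w j).det| ≤
      (n.factorial : ℝ) * x ^ n + n * (p * ((n.factorial : ℝ) * (q * x ^ (n - 1)))) := by
  classical
  rw [det_rank1]
  refine (abs_add_le _ _).trans (add_le_add ?_ ?_)
  · have := det_bd X (fun _ => x) hx
    simpa using this
  · refine (Finset.abs_sum_le_sum_abs _ _).trans ?_
    have h1 : ∀ i ∈ (Finset.univ : Finset (Fin n)), |v i * (X.updateRow i w).det| ≤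
        p * ((n.factorial : ℝ) * (q * x ^ (n - 1))) := by
      intro i _
      rw [abs_mul]
      have h2 := det_bd (X.updateRow i w) (Function.update (fun _ => x) i q) (by
        intro a b
        by_cases ha : a = i
        · subst ha
          rw [Matrix.updateRow_self, Function.update_self]
          exact hw b
        · rw [Matrix.updateRow_ne ha, Function.update_of_ne ha]
          exact hx a b)
      rw [Finset.prod_update_of_mem (Finset.mem_univ i)] at h2
      have h3 : ∏ _x ∈ (Finset.univ : Finset (Fin n)) \ {i}, x = x ^ (n - 1) := by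
        rw [Finset.prod_const, ← Finset.erase_eq, Finset.card_erase_of_mem (Finset.mem_univ i),
          Finset.card_univ, Fintype.card_fin]
      rw [h3] at h2
      exact mul_le_mul (hv i) h2 (abs_nonneg _) ((abs_nonneg _).trans (hv i))
    refine (Finset.sum_le_sum h1).trans ?_
    rw [Finset.sum_const, Finset.card_univ, Fintype.card_fin, nsmul_eq_mul]

theorem fn_nonneg' {m n : ℕ} (M : Matrix (Fin m) (Fin n) ℝ) : 0 ≤ fn M := Real.sqrt_nonneg _

theorem fn_sq' {m n : ℕ} (M : Matrix (Fin m) (Fin n) ℝ) : fn M ^ 2 = ∑ a, ∑ b, M a b ^ 2 :=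
  Real.sq_sqrt (Finset.sum_nonneg fun _ _ => Finset.sum_nonneg fun _ _ => sq_nonneg _)

theorem entry_le_fn' {m n : ℕ} (M : Matrix (Fin m) (Fin n) ℝ) (i j) : |M i j| ≤ fn M := by
  refine abs_le_of_sq_le_sq ?_ (fn_nonneg' M)
  rw [fn_sq']
  calc M i j ^ 2 ≤ ∑ b, M i b ^ 2 :=
        Finset.single_le_sum (f := fun b => M i b ^ 2) (fun _ _ => sq_nonneg _) (Finset.mem_univ j)
    _ ≤ _ := Finset.single_le_sum (f := fun a => ∑ b, M a b ^ 2)
        (fun _ _ => Finset.sum_nonneg fun _ _ => sq_nonneg _) (Finset.mem_univ i)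

theorem Jc_abs {n : ℕ} (M : Matrix (Fin (n + 1)) (Fin n) ℝ) (a) :
    |Jc M a| = |(M.submatrix a.succAbove id).det| := by
  unfold Jc
  rw [abs_mul, abs_pow, abs_neg, abs_one, one_pow, one_mul]

theorem Jc_le {n : ℕ} (hn : 2 ≤ n) : ∃ C : ℝ, 0 < C ∧ ∀ (M : Matrix (Fin (n + 1)) (Fin n) ℝ) (a),
    |Jc M a| ≤ C * fn M ^ n := by
  refine ⟨n.factorial, by positivity, fun M a => ?_⟩
  rw [Jc_abs]
  have := det_bd (M.submatrix a.succAbove id) (fun _ => fn M) (fun i j => entry_le_fn' M _ _)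
  simpa using this

theorem tilt_id {n : ℕ} (M : Matrix (Fin (n + 1)) (Fin n) ℝ) (e : E (n + 1)) (he : Ue e) :
    fn (Matrix.of fun b j => M b j - e b * ∑ c, e c * M c j) ^ 2 =
      fn M ^ 2 - ∑ j, (∑ b, e b * M b j) ^ 2 := by
  rw [fn_sq', fn_sq']
  rcases he with he | he
  · subst he
    simp
  · rw [Finset.sum_comm, Finset.sum_comm (f := fun a b => M a b ^ 2), ← Finset.sum_sub_distrib]
    refine Finset.sum_congr rfl fun j _ => ?_
    simp only [Matrix.of_apply]
    set w := ∑ c, e c * M c j with hw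
    have h1 : ∀ b, (M b j - e b * w) ^ 2 = M b j ^ 2 - 2 * w * (e b * M b j) + w ^ 2 * e b ^ 2 := by
      intro b; ring
    simp only [h1]
    rw [Finset.sum_add_distrib, Finset.sum_sub_distrib, ← Finset.mul_sum, ← Finset.mul_sum, ← hw, he]
    ring

theorem Ue_abs {m : ℕ} (e : E m) (he : Ue e) (b : Fin m) : |e b| ≤ 1 := by
  rcases he with he | he
  · subst he
    simp
  · refine abs_le_of_sq_le_sq ?_ zero_le_one
    rw [one_pow, ← he]
    exact Finset.single_le_sum (f := fun b => e b ^ 2) (fun _ _ => sq_nonneg _) (Finset.mem_univ b)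

theorem Jc_core {n : ℕ} (A0 : ℝ) : ∃ C : ℝ, 0 < C ∧
    ∀ (A : Matrix (Fin (n + 1)) (Fin (n + 1)) ℝ), (∀ i j, |A i j| ≤ A0) →
    ∀ (M : Matrix (Fin (n + 1)) (Fin n) ℝ) (e : E (n + 1)), Ue e → ∀ a,
    |Jc (A * M) a| ≤
      C * (Real.sqrt (fn M ^ 2 - ∑ j, (∑ b, e b * M b j) ^ 2) ^ n +
        fn M * Real.sqrt (fn M ^ 2 - ∑ j, (∑ b, e b * M b j) ^ 2) ^ (n - 1)) := by
  set B : ℝ := (n + 1) * |A0| with hB
  have hB0 : 0 ≤ B := by positivity
  refine ⟨(n.factorial : ℝ) * B ^ n + n * (B * ((n.factorial : ℝ) * B ^ (n - 1))) + 1,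
    by positivity, fun A hA M e he a => ?_⟩
  set R : Matrix (Fin (n + 1)) (Fin n) ℝ :=
    Matrix.of fun b j => M b j - e b * ∑ c, e c * M c j with hR
  set w : Fin n → ℝ := fun j => ∑ c, e c * M c j with hw
  have hT : Real.sqrt (fn M ^ 2 - ∑ j, (∑ b, e b * M b j) ^ 2) = fn R := by
    rw [← tilt_id M e he]
    exact Real.sqrt_sq (fn_nonneg' _)
  rw [hT]
  have hw1 : ∀ j, |w j| ≤ fn M := by
    intro j
    refine abs_le_of_sq_le_sq ?_ (fn_nonneg' M)
    have h1 := tilt_id M e he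
    have h2 := sq_nonneg (fn R)
    have h3 : w j ^ 2 ≤ ∑ j, (∑ b, e b * M b j) ^ 2 :=
      Finset.single_le_sum (f := fun j => (∑ b, e b * M b j) ^ 2) (fun _ _ => sq_nonneg _)
        (Finset.mem_univ j)
    rw [← hR] at h1
    linarith
  have hA0 : ∀ i j, |A i j| ≤ |A0| := fun i j => (hA i j).trans (le_abs_self _)
  set v : Fin n → ℝ := fun i => ∑ b, A (a.succAbove i) b * e b with hv
  have hv1 : ∀ i, |v i| ≤ B := by
    intro i
    refine (Finset.abs_sum_le_sum_abs _ _).trans ?_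
    have h1 : ∀ b ∈ (Finset.univ : Finset (Fin (n + 1))), |A (a.succAbove i) b * e b| ≤ |A0| := by
      intro b _
      rw [abs_mul]
      calc |A (a.succAbove i) b| * |e b| ≤ |A0| * 1 :=
            mul_le_mul (hA0 _ _) (Ue_abs e he b) (abs_nonneg _) (abs_nonneg _)
        _ = |A0| := mul_one _
    refine (Finset.sum_le_sum h1).trans ?_
    rw [Finset.sum_const, Finset.card_univ, Fintype.card_fin, nsmul_eq_mul, hB]
    push_cast
    exact le_rfl
  have hX : ∀ i j, |((A * R).submatrix a.succAbove id) i j| ≤ B * fn R := by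
    intro i j
    rw [Matrix.submatrix_apply, Matrix.mul_apply]
    refine (Finset.abs_sum_le_sum_abs _ _).trans ?_
    have h1 : ∀ b ∈ (Finset.univ : Finset (Fin (n + 1))),
        |A (a.succAbove i) b * R b (id j)| ≤ |A0| * fn R := by
      intro b _
      rw [abs_mul]
      exact mul_le_mul (hA0 _ _) (entry_le_fn' R _ _) (abs_nonneg _) (abs_nonneg _)
    refine (Finset.sum_le_sum h1).trans ?_
    rw [Finset.sum_const, Finset.card_univ, Fintype.card_fin, nsmul_eq_mul, hB]
    push_cast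
    exact le_of_eq (by ring)
  have hdec : (A * M).submatrix a.succAbove id =
      Matrix.of fun i j => ((A * R).submatrix a.succAbove id) i j + v i * w j := by
    ext i j
    simp only [Matrix.submatrix_apply, Matrix.mul_apply, Matrix.of_apply, hv, Finset.sum_mul, id]
    rw [← Finset.sum_add_distrib]
    refine Finset.sum_congr rfl fun b _ => ?_
    simp only [hR, Matrix.of_apply, hw]
    ring
  rw [Jc_abs, hdec]
  refine (det_rank1_bd _ v w hX hv1 hw1).trans ?_
  have hR0 := fn_nonneg' R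
  have hM0 := fn_nonneg' M
  have p1 : 0 ≤ fn R ^ n := by positivity
  have p2 : 0 ≤ fn M * fn R ^ (n - 1) := by positivity
  have q1 : 0 ≤ (n.factorial : ℝ) * B ^ n := by positivity
  have q2 : 0 ≤ (n : ℝ) * (B * ((n.factorial : ℝ) * B ^ (n - 1))) := by positivity
  rw [mul_pow B (fn R) n, mul_pow B (fn R) (n - 1)]
  have e1 : (n.factorial : ℝ) * (B ^ n * fn R ^ n) +
      n * (B * ((n.factorial : ℝ) * (fn M * (B ^ (n - 1) * fn R ^ (n - 1))))) =
      ((n.factorial : ℝ) * B ^ n) * fn R ^ n +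
        ((n : ℝ) * (B * ((n.factorial : ℝ) * B ^ (n - 1)))) * (fn M * fn R ^ (n - 1)) := by ring
  rw [e1]
  nlinarith [mul_nonneg q1 p2, mul_nonneg q2 p1]

theorem Jc_tilt {n : ℕ} (hn : 3 ≤ n) (A0 : ℝ) : ∃ C : ℝ, 0 < C ∧
    ∀ (A : Matrix (Fin (n + 1)) (Fin (n + 1)) ℝ), (∀ i j, |A i j| ≤ A0) →
    ∀ (M : Matrix (Fin (n + 1)) (Fin n) ℝ) (e : E (n + 1)), Ue e → ∀ a,
    |Jc (A * M) a| ≤ C * (fn M ^ (n - 2) * (fn M ^ 2 - ∑ j, (∑ b, e b * M b j) ^ 2)) := by
  obtain ⟨C, hC, h⟩ := Jc_core (n := n) A0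
  refine ⟨2 * C, by positivity, fun A hA M e he a => (h A hA M e he a).trans ?_⟩
  have h1 := tilt_id M e he
  rw [← h1, Real.sqrt_sq (fn_nonneg' _)]
  set T := fn (Matrix.of fun b j => M b j - e b * ∑ c, e c * M c j) with hT
  have hT0 : 0 ≤ T := fn_nonneg' _
  have hM0 := fn_nonneg' M
  have hTM : T ≤ fn M := by
    refine abs_le_of_sq_le_sq' ?_ hM0 |>.2
    rw [h1]
    have : 0 ≤ ∑ j, (∑ b, e b * M b j) ^ 2 := Finset.sum_nonneg fun _ _ => sq_nonneg _
    linarith
  obtain ⟨k, rfl⟩ : ∃ k, n = k + 3 := ⟨n - 3, by omega⟩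
  have e1 : T ^ (k + 3) ≤ fn M ^ (k + 3 - 2) * T ^ 2 := by
    have : k + 3 - 2 = k + 1 := by omega
    rw [this]
    calc T ^ (k + 3) = T ^ (k + 1) * T ^ 2 := by ring
      _ ≤ _ := mul_le_mul_of_nonneg_right (pow_le_pow_left₀ hT0 hTM _) (sq_nonneg _)
  have e2 : fn M * T ^ (k + 3 - 1) ≤ fn M ^ (k + 3 - 2) * T ^ 2 := by
    have a1 : k + 3 - 2 = k + 1 := by omega
    have a2 : k + 3 - 1 = k + 2 := by omega
    rw [a1, a2]
    calc fn M * T ^ (k + 2) = fn M * T ^ k * T ^ 2 := by ring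
      _ ≤ fn M * fn M ^ k * T ^ 2 :=
        mul_le_mul_of_nonneg_right
          (mul_le_mul_of_nonneg_left (pow_le_pow_left₀ hT0 hTM _) hM0) (sq_nonneg _)
      _ = _ := by ring
  calc C * (T ^ (k + 3) + fn M * T ^ (k + 3 - 1))
      ≤ C * (fn M ^ (k + 3 - 2) * T ^ 2 + fn M ^ (k + 3 - 2) * T ^ 2) :=
        mul_le_mul_of_nonneg_left (add_le_add e1 e2) hC.le
    _ = _ := by ring

theorem Jc_tilt2 {n : ℕ} (hn : 2 ≤ n) (A0 : ℝ) : ∃ C : ℝ, 0 < C ∧
    ∀ (A : Matrix (Fin (n + 1)) (Fin (n + 1)) ℝ), (∀ i j, |A i j| ≤ A0) →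
    ∀ (M : Matrix (Fin (n + 1)) (Fin n) ℝ) (e : E (n + 1)), Ue e → ∀ a,
    |Jc (A * M) a| ≤ C * (fn M ^ (n - 1) *
      Real.sqrt (fn M ^ 2 - ∑ j, (∑ b, e b * M b j) ^ 2)) := by
  obtain ⟨C, hC, h⟩ := Jc_core (n := n) A0
  refine ⟨2 * C, by positivity, fun A hA M e he a => (h A hA M e he a).trans ?_⟩
  have h1 := tilt_id M e he
  rw [← h1, Real.sqrt_sq (fn_nonneg' _)]
  set T := fn (Matrix.of fun b j => M b j - e b * ∑ c, e c * M c j) with hT
  have hT0 : 0 ≤ T := fn_nonneg' _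
  have hM0 := fn_nonneg' M
  have hTM : T ≤ fn M := by
    refine abs_le_of_sq_le_sq' ?_ hM0 |>.2
    rw [h1]
    have : 0 ≤ ∑ j, (∑ b, e b * M b j) ^ 2 := Finset.sum_nonneg fun _ _ => sq_nonneg _
    linarith
  obtain ⟨k, rfl⟩ : ∃ k, n = k + 2 := ⟨n - 2, by omega⟩
  have a2 : k + 2 - 1 = k + 1 := by omega
  have e1 : T ^ (k + 2) ≤ fn M ^ (k + 1) * T := by
    calc T ^ (k + 2) = T ^ (k + 1) * T := by ring
      _ ≤ _ := mul_le_mul_of_nonneg_right (pow_le_pow_left₀ hT0 hTM _) hT0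
  have e2 : fn M * T ^ (k + 1) ≤ fn M ^ (k + 1) * T := by
    calc fn M * T ^ (k + 1) = fn M * T ^ k * T := by ring
      _ ≤ fn M * fn M ^ k * T :=
        mul_le_mul_of_nonneg_right
          (mul_le_mul_of_nonneg_left (pow_le_pow_left₀ hT0 hTM _) hM0) hT0
      _ = _ := by ring
  rw [a2]
  calc C * (T ^ (k + 2) + fn M * T ^ (k + 1))
      ≤ C * (fn M ^ (k + 1) * T + fn M ^ (k + 1) * T) :=
        mul_le_mul_of_nonneg_left (add_le_add e1 e2) hC.le
    _ = _ := by ring

end H930.HS.XJcAlg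

namespace H930.HS

export XJcAlg (Jc_le Jc_tilt Jc_tilt2)

end H930.HS
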