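import Pool.Agent.Helper930.HS.Exp

set_option autoImplicit false

open MeasureTheory Metric Set Filter Topology
open scoped ENNReal NNReal ContDiff

namespace H930.HS.XTLe

open H930.BL



lemma T_le_aux {n : ℕ} {ch : Bx n → Finset (Bx n)} {d : Bx n → E (n + 1) → ℝ} (Q : Bx n)
    (μ : Measure (E (n + 1))) (hQ : Integrable (d Q) μ) (hκ : ∀ κ ∈ ch Q, Integrable (d κ) μ) :
    (∫ y, |d Q y| ∂μ) ≤ (∫ y, |dl ch d Q y| ∂μ) + ∑ κ ∈ ch Q, ∫ y, |d κ y| ∂μ := by
  have hs : Integrable (fun y => ∑ κ ∈ ch Q, |d κ y|) μ :=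
    integrable_finsetSum _ fun κ hk => (hκ κ hk).abs
  have hl : Integrable (fun y => |dl ch d Q y|) μ := by
    refine (Integrable.sub hQ (integrable_finsetSum _ fun κ hk => hκ κ hk)).abs
  rw [← integral_finsetSum _ fun κ hk => (hκ κ hk).abs, ← integral_add hl hs]
  refine integral_mono hQ.abs (hl.add hs) fun y => ?_
  show |d Q y| ≤ |dl ch d Q y| + ∑ κ ∈ ch Q, |d κ y|
  have h1 : d Q y = dl ch d Q y + ∑ κ ∈ ch Q, d κ y := by
    unfold dl; ring
  calc |d Q y| = |dl ch d Q y + ∑ κ ∈ ch Q, d κ y| := by rw [← h1]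
    _ ≤ |dl ch d Q y| + |∑ κ ∈ ch Q, d κ y| := abs_add_le _ _
    _ ≤ _ := by
        gcongr
        exact Finset.abs_sum_le_sum_abs _ _

theorem T_le {n : ℕ} {M : ℝ} {B : Set (E n)} {H : E (n + 1) → ℝ} {u : E n → E (n + 1)}
    {ν : E n → ℝ} {P : Bx n → Prop} {ch : Bx n → Finset (Bx n)} {rk : Bx n → ℕ}
    {d : Bx n → E (n + 1) → ℝ} {S : Bx n → ℝ} (h : Sys M B H u ν P ch rk d S) :
    ∀ Q, P Q → 0 ≤ S Q ∧ (∫ y, |d Q y|) ≤ Dq ch d Q + S Q ∧
      ∀ s : ℝ, (∫ y in {y | s ^ 2 < qs (u Q.a) y}, |d Q y|) ≤ Ds u ch d Q s + S Q := by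
  have key : ∀ N : ℕ, ∀ Q, rk Q = N → P Q → 0 ≤ S Q ∧ (∫ y, |d Q y|) ≤ Dq ch d Q + S Q ∧
      ∀ s : ℝ, (∫ y in {y | s ^ 2 < qs (u Q.a) y}, |d Q y|) ≤ Ds u ch d Q s + S Q := by
    intro N
    induction N using Nat.strong_induction_on with
    | _ N ih =>
      intro Q hN hP
      have ihκ : ∀ κ ∈ ch Q, 0 ≤ S κ ∧ (∫ y, |d κ y|) ≤ Dq ch d κ + S κ := by
        intro κ hk
        have h1 := ih (rk κ) (hN ▸ h.cells.rk_lt Q hP κ hk) κ rfl (h.cells.chP Q hP κ hk)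
        exact ⟨h1.1, h1.2.1⟩
      have hrec := h.Srec Q hP
      have hint : ∀ κ ∈ ch Q, Integrable (d κ) := fun κ hk =>
        (h.deg κ (h.cells.chP Q hP κ hk)).int
      have hQi : Integrable (d Q) := (h.deg Q hP).int
      have hDq : ∀ κ, 0 ≤ Dq ch d κ := fun κ => integral_nonneg fun y => abs_nonneg _
      refine ⟨?_, ?_, ?_⟩
      · rw [hrec]
        exact Finset.sum_nonneg fun κ hk => add_nonneg (hDq κ) (ihκ κ hk).1
      · refine (T_le_aux Q volume hQi hint).trans ?_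
        rw [hrec]
        have : ∑ κ ∈ ch Q, ∫ y, |d κ y| ≤ ∑ κ ∈ ch Q, (Dq ch d κ + S κ) :=
          Finset.sum_le_sum fun κ hk => (ihκ κ hk).2
        unfold Dq at *
        linarith
      · intro s
        refine (T_le_aux Q (volume.restrict {y | s ^ 2 < qs (u Q.a) y}) hQi.integrableOn
          fun κ hk => (hint κ hk).integrableOn).trans ?_
        have h2 : ∑ κ ∈ ch Q, ∫ y in {y | s ^ 2 < qs (u Q.a) y}, |d κ y| ≤
            ∑ κ ∈ ch Q, (Dq ch d κ + S κ) := by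
          refine Finset.sum_le_sum fun κ hk => ?_
          refine (setIntegral_le_integral (hint κ hk).abs
            (Filter.Eventually.of_forall fun y => abs_nonneg _)).trans (ihκ κ hk).2
        rw [hrec]
        unfold Ds
        linarith
  intro Q hP
  exact key (rk Q) Q rfl hP

end H930.HS.XTLe

namespace H930.HS

export XTLe (T_le)

end H930.HS
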