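import Pool.Agent.Helper930.HS.Thr
import Pool.Agent.Helper930.HS.TLe

set_option autoImplicit false

open MeasureTheory Metric Set Filter Topology
open scoped ENNReal NNReal ContDiff

namespace H930.HS.XSide

open H930.BL



theorem side_sum {n : ℕ} {ι : Type*} (s : Finset ι) (A : ι → Set (E n)) (T : Set (E n))
    (g : E n → ℝ) (hg : ∀ x, 0 ≤ g x) (hint : IntegrableOn g T)
    (hA : ∀ i ∈ s, MeasurableSet (A i))
    (hd : ∀ i ∈ s, ∀ j ∈ s, i ≠ j → Disjoint (A i) (A j)) (hsub : ∀ i ∈ s, A i ⊆ T) :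
    ∑ i ∈ s, ∫ x in A i, g x ≤ ∫ x in T, g x := by
  have h1 := integral_biUnion_finset (μ := volume) (f := g) s hA
    (fun i hi j hj hij => hd i hi j hj hij) (fun i hi => hint.mono_set (hsub i hi))
  rw [← h1]
  exact setIntegral_mono_set hint (Eventually.of_forall hg)
    (HasSubset.Subset.eventuallyLE (iUnion₂_subset hsub))

theorem side_cont {n : ℕ} {u : E n → E (n + 1)} (hu : ContDiff ℝ ∞ u) :
    Continuous fun x => fn (Dm u x) ^ n := by
  unfold fn
  refine Continuous.pow (Real.continuous_sqrt.comp (continuous_finsetSum _ fun a _ =>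
    continuous_finsetSum _ fun b _ => Continuous.pow ?_ 2)) n
  change Continuous (pd (fun y => u y a) b)
  exact continuous_pd (((contDiff_pi.1 hu) a).of_le (by exact_mod_cast le_top)) b

theorem side_nn {n : ℕ} (u : E n → E (n + 1)) (x : E n) : 0 ≤ fn (Dm u x) ^ n :=
  pow_nonneg (Real.sqrt_nonneg _) _

theorem side_cl {n : ℕ} (Q : Bx n) : IsCompact Q.cl := by
  have h : Q.cl = Icc Q.a Q.b := by
    ext x
    exact forall_and
  rw [h]
  exact isCompact_Icc

theorem side_s_sub_cl {n : ℕ} (Q : Bx n) : Q.s ⊆ Q.cl := fun _ hx i => ⟨(hx i).1, (hx i).2.le⟩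

theorem side_meas_s {n : ℕ} (Q : Bx n) : MeasurableSet Q.s := by
  have h : Q.s = Set.univ.pi fun i => Set.Ico (Q.a i) (Q.b i) := by
    ext x
    constructor
    · intro hx i _
      exact hx i
    · intro hx i
      exact hx i (mem_univ _)
  rw [h]
  exact MeasurableSet.univ_pi fun i => measurableSet_Ico

theorem side_meas_Rg {n : ℕ} (ch : Bx n → Finset (Bx n)) (Q : Bx n) : MeasurableSet (Rg ch Q) := by
  have h : Rg ch Q = Q.s ∩ ⋂ κ ∈ ch Q, (κ.s)ᶜ := by
    ext x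
    simp only [Rg, mem_inter_iff, mem_iInter, mem_compl_iff]
    rfl
  rw [h]
  exact (side_meas_s Q).inter ((ch Q).measurableSet_biInter fun κ _ => (side_meas_s κ).compl)

theorem side_cont_qs {n : ℕ} {u : E n → E (n + 1)} (hu : ContDiff ℝ ∞ u) (c : E (n + 1)) :
    Continuous fun x => qs c (u x) := by
  unfold qs
  exact continuous_finsetSum _ fun a _ =>
    (((continuous_apply a).comp hu.continuous).sub continuous_const).pow 2

theorem side_qs {m : ℕ} (c k y : E m) (h1 : 100 ≤ qs c k) (h2 : qs c k ≤ 104) (h3 : qs k y ≤ 1) :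
    1 / 4 ≤ qs c y ∧ qs c y ≤ 144 := by
  have hu : qs c y ≤ 11 / 10 * qs c k + 11 * qs k y := by
    unfold qs
    rw [Finset.mul_sum, Finset.mul_sum, ← Finset.sum_add_distrib]
    refine Finset.sum_le_sum fun a _ => ?_
    nlinarith [sq_nonneg ((k a - c a) - 10 * (y a - k a))]
  have hl : 1 / 2 * qs c k - qs k y ≤ qs c y := by
    unfold qs
    rw [Finset.mul_sum, ← Finset.sum_sub_distrib]
    refine Finset.sum_le_sum fun a _ => ?_
    nlinarith [sq_nonneg ((k a - c a) + 2 * (y a - k a))]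
  constructor <;> linarith

theorem side {n : ℕ} (hn : 2 ≤ n) (M : ℝ) : ∃ ε C : ℝ, 0 < ε ∧ 0 < C ∧ ∀ {B : Set (E n)}
    {H : E (n + 1) → ℝ} {u : E n → E (n + 1)} {ν : E n → ℝ} {P : Bx n → Prop}
    {ch : Bx n → Finset (Bx n)} {rk : Bx n → ℕ} {d : Bx n → E (n + 1) → ℝ} {S : Bx n → ℝ},
    Sys M B H u ν P ch rk d S → ∀ Q, P Q → EN u Q.s ≤ ε →
    ∑ κ ∈ ch Q, (EN u (Rg ch κ) + ∑ κ' ∈ ch κ, EN u (Nr u ch κ' 1)) ≤
      C * (S Q + ∫ x in Q.s, ν x) := by
  obtain ⟨ε, C, hε, hC, hfar⟩ := far hn M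
  refine ⟨ε, 3 * C, hε, by positivity, ?_⟩
  intro B H u ν P ch rk d S h Q hQ hE
  have hsm := h.cells.smooth
  have hcont := side_cont hsm
  have hint : ∀ K : Bx n, IntegrableOn (fun x => fn (Dm u x) ^ n) K.s := fun K =>
    (hcont.continuousOn.integrableOn_compact (side_cl K)).mono_set (side_s_sub_cl K)
  have hP1 : ∀ κ ∈ ch Q, P κ := fun κ hκ => h.cells.chP Q hQ κ hκ
  -- the inequality for one child
  have hch : ∀ κ ∈ ch Q, EN u (Rg ch κ) + ∑ κ' ∈ ch κ, EN u (Nr u ch κ' 1) ≤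
      EN u {x | x ∈ Rg ch κ ∧ qs (u κ.a) (u x) ≤ 1 / 4} + 2 * Fq u κ := by
    intro κ hκ
    have hPκ := hP1 κ hκ
    have e1 : EN u (Rg ch κ) ≤ EN u {x | x ∈ Rg ch κ ∧ qs (u κ.a) (u x) ≤ 1 / 4} + Fq u κ := by
      have hun : Rg ch κ = {x | x ∈ Rg ch κ ∧ qs (u κ.a) (u x) ≤ 1 / 4} ∪
          {x | x ∈ Rg ch κ ∧ 1 / 4 < qs (u κ.a) (u x)} := by
        ext x
        constructor
        · intro hx
          rcases le_or_gt (qs (u κ.a) (u x)) (1 / 4) with h1 | h1
          · exact Or.inl ⟨hx, h1⟩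
          · exact Or.inr ⟨hx, h1⟩
        · rintro (hx | hx)
          · exact hx.1
          · exact hx.1
      have hm2 : MeasurableSet {x | x ∈ Rg ch κ ∧ 1 / 4 < qs (u κ.a) (u x)} :=
        (side_meas_Rg ch κ).inter
          (measurableSet_lt measurable_const (side_cont_qs hsm _).measurable)
      have hdj : Disjoint {x | x ∈ Rg ch κ ∧ qs (u κ.a) (u x) ≤ 1 / 4}
          {x | x ∈ Rg ch κ ∧ 1 / 4 < qs (u κ.a) (u x)} := by
        rw [Set.disjoint_left]
        intro x hx hx2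
        exact absurd hx.2 (not_le.2 hx2.2)
      have e2 : EN u (Rg ch κ) = EN u {x | x ∈ Rg ch κ ∧ qs (u κ.a) (u x) ≤ 1 / 4} +
          EN u {x | x ∈ Rg ch κ ∧ 1 / 4 < qs (u κ.a) (u x)} := by
        unfold EN
        conv_lhs => rw [hun]
        exact setIntegral_union hdj hm2 ((hint κ).mono_set fun x hx => hx.1.1)
          ((hint κ).mono_set fun x hx => hx.1.1)
      rw [e2]
      refine add_le_add le_rfl ?_
      unfold EN Fq
      refine setIntegral_mono_set ((hint κ).mono_set fun x hx => hx.1)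
        (Eventually.of_forall fun x => side_nn u x) (HasSubset.Subset.eventuallyLE ?_)
      intro x hx
      exact ⟨hx.1.1, hx.2.le, (h.cells.small κ hPκ x hx.1).trans (by norm_num)⟩
    have e3 : ∑ κ' ∈ ch κ, EN u (Nr u ch κ' 1) ≤ Fq u κ := by
      unfold EN Fq
      refine side_sum (ch κ) (fun κ' => Nr u ch κ' 1) _ _ (side_nn u)
        ((hint κ).mono_set fun x hx => hx.1) ?_ ?_ ?_
      · intro κ' _
        exact (side_meas_Rg ch κ').inter
          (measurableSet_le (side_cont_qs hsm _).measurable measurable_const)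
      · intro i hi j hj hij
        exact (h.cells.disj κ hPκ i hi j hj hij).mono (fun x hx => hx.1.1) (fun x hx => hx.1.1)
      · intro κ' hκ' x hx
        have := side_qs (u κ.a) (u κ'.a) (u x) (h.cells.lo κ hPκ κ' hκ')
          (h.cells.hi κ hPκ κ' hκ') hx.2
        exact ⟨h.cells.chs κ hPκ κ' hκ' hx.1.1, this.1, this.2⟩
    linarith
  have h1 : ∑ κ ∈ ch Q, EN u {x | x ∈ Rg ch κ ∧ qs (u κ.a) (u x) ≤ 1 / 4} ≤ Fq u Q := by
    unfold EN Fq
    refine side_sum (ch Q) (fun κ => {x | x ∈ Rg ch κ ∧ qs (u κ.a) (u x) ≤ 1 / 4}) _ _ (side_nn u)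
      ((hint Q).mono_set fun x hx => hx.1) ?_ ?_ ?_
    · intro κ _
      exact (side_meas_Rg ch κ).inter
        (measurableSet_le (side_cont_qs hsm _).measurable measurable_const)
    · intro i hi j hj hij
      exact (h.cells.disj Q hQ i hi j hj hij).mono (fun x hx => hx.1.1) (fun x hx => hx.1.1)
    · intro κ hκ x hx
      have := side_qs (u Q.a) (u κ.a) (u x) (h.cells.lo Q hQ κ hκ)
        (h.cells.hi Q hQ κ hκ) (hx.2.trans (by norm_num))
      exact ⟨h.cells.chs Q hQ κ hκ hx.1.1, this.1, this.2⟩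
  have h2 : Fq u Q ≤ C * (S Q + ∫ x in Q.s, ν x) := (hfar h Q hQ hE).2
  have h3 : ∀ κ ∈ ch Q, Fq u κ ≤ C * (S κ + ∫ x in κ.s, ν x) := by
    intro κ hκ
    refine (hfar h κ (hP1 κ hκ) (le_trans ?_ hE)).2
    unfold EN
    exact setIntegral_mono_set (hint Q) (Eventually.of_forall fun x => side_nn u x)
      (HasSubset.Subset.eventuallyLE (h.cells.chs Q hQ κ hκ))
  have h4 : ∑ κ ∈ ch Q, S κ ≤ S Q := by
    rw [h.Srec Q hQ]
    refine Finset.sum_le_sum fun κ _ => ?_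
    have : 0 ≤ Dq ch d κ := integral_nonneg fun y => abs_nonneg _
    linarith
  have h5 : ∑ κ ∈ ch Q, ∫ x in κ.s, ν x ≤ ∫ x in Q.s, ν x :=
    side_sum (ch Q) (fun κ => κ.s) Q.s ν h.nn
      (h.nint.mono_set ((side_s_sub_cl Q).trans (h.sub Q hQ))) (fun κ _ => side_meas_s κ)
      (h.cells.disj Q hQ) (h.cells.chs Q hQ)
  calc ∑ κ ∈ ch Q, (EN u (Rg ch κ) + ∑ κ' ∈ ch κ, EN u (Nr u ch κ' 1))
      ≤ ∑ κ ∈ ch Q, (EN u {x | x ∈ Rg ch κ ∧ qs (u κ.a) (u x) ≤ 1 / 4} +
          2 * (C * (S κ + ∫ x in κ.s, ν x))) := by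
        refine Finset.sum_le_sum fun κ hκ => ?_
        have e1 := hch κ hκ
        have e2 := h3 κ hκ
        linarith
    _ = ∑ κ ∈ ch Q, EN u {x | x ∈ Rg ch κ ∧ qs (u κ.a) (u x) ≤ 1 / 4} +
          2 * (C * (∑ κ ∈ ch Q, S κ + ∑ κ ∈ ch Q, ∫ x in κ.s, ν x)) := by
        rw [Finset.sum_add_distrib, ← Finset.mul_sum, ← Finset.mul_sum, Finset.sum_add_distrib]
    _ ≤ C * (S Q + ∫ x in Q.s, ν x) + 2 * (C * (S Q + ∫ x in Q.s, ν x)) := by
        refine add_le_add (h1.trans h2) ?_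
        have : C * (∑ κ ∈ ch Q, S κ + ∑ κ ∈ ch Q, ∫ x in κ.s, ν x) ≤
            C * (S Q + ∫ x in Q.s, ν x) :=
          mul_le_mul_of_nonneg_left (add_le_add h4 h5) hC.le
        linarith
    _ = 3 * C * (S Q + ∫ x in Q.s, ν x) := by ring

end H930.HS.XSide

namespace H930.HS

export XSide (side)

end H930.HS
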