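import Pool.Agent.Helper930.HS.IsoQ
import Pool.Agent.Helper930.HS.Side
import Pool.Agent.Helper930.HS.JcAlg
import Pool.Agent.Helper930.HS.PcDer
import Pool.Agent.Helper930.HS.TLe

set_option autoImplicit false

open MeasureTheory Metric Set Filter Topology
open scoped ENNReal NNReal ContDiff

namespace H930.HS.XSideD

open H930.BL



theorem sideD_fn_nonneg {m n : ℕ} (M : Matrix (Fin m) (Fin n) ℝ) : 0 ≤ fn M := Real.sqrt_nonneg _

theorem sideD_fn_mul {m n : ℕ} (A : Matrix (Fin m) (Fin m) ℝ) (M : Matrix (Fin m) (Fin n) ℝ)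
    (C : ℝ) (hC : 0 ≤ C) (hA : ∀ i j, |A i j| ≤ C) : fn (A * M) ≤ ((m : ℝ) * C) * fn M := by
  unfold fn
  rw [Real.sqrt_le_iff]
  refine ⟨by positivity, ?_⟩
  rw [mul_pow, Real.sq_sqrt (by positivity)]
  have h1 : ∀ a b, (A * M) a b ^ 2 ≤ ((m : ℝ) * C ^ 2) * ∑ k, M k b ^ 2 := by
    intro a b
    rw [Matrix.mul_apply]
    refine (Finset.sum_mul_sq_le_sq_mul_sq _ _ _).trans ?_
    apply mul_le_mul_of_nonneg_right _ (Finset.sum_nonneg fun _ _ => sq_nonneg _)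
    calc ∑ k, A a k ^ 2 ≤ ∑ _k : Fin m, C ^ 2 := by
          apply Finset.sum_le_sum
          intro k _
          rw [← sq_abs]
          exact pow_le_pow_left₀ (abs_nonneg _) (hA a k) 2
      _ = (m : ℝ) * C ^ 2 := by
          rw [Finset.sum_const, Finset.card_univ, Fintype.card_fin, nsmul_eq_mul]
  calc ∑ a, ∑ b, (A * M) a b ^ 2 ≤ ∑ _a : Fin m, ∑ b, ((m : ℝ) * C ^ 2) * ∑ k, M k b ^ 2 :=
        Finset.sum_le_sum fun a _ => Finset.sum_le_sum fun b _ => h1 a b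
    _ = ((m : ℝ) * C) ^ 2 * ∑ a, ∑ b, M a b ^ 2 := by
        rw [Finset.sum_const, Finset.card_univ, Fintype.card_fin, nsmul_eq_mul, ← Finset.mul_sum,
          Finset.sum_comm]
        ring

theorem sideD_cont {n : ℕ} {u : E n → E (n + 1)} (hu : ContDiff ℝ ∞ u) :
    Continuous (fun x => fn (Dm u x) ^ n) := by
  unfold fn Dm
  refine Continuous.pow ?_ n
  refine Real.continuous_sqrt.comp ?_
  refine continuous_finsetSum _ fun a _ => continuous_finsetSum _ fun b _ => Continuous.pow ?_ 2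
  exact continuous_pd (((contDiff_pi.1 hu) a).of_le (by exact_mod_cast le_top)) b

theorem sideD_meas_s {n : ℕ} (Q : Bx n) : MeasurableSet Q.s := by
  have : Q.s = Set.univ.pi (fun i => Set.Ico (Q.a i) (Q.b i)) := by
    ext x; simp [Bx.s, Set.mem_pi]
  rw [this]
  exact MeasurableSet.univ_pi (fun i => measurableSet_Ico)

theorem sideD_int {n : ℕ} {u : E n → E (n + 1)} (hu : ContDiff ℝ ∞ u) (Q : Bx n) :
    IntegrableOn (fun x => fn (Dm u x) ^ n) Q.s := by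
  have h1 : Q.s ⊆ Set.Icc Q.a Q.b := fun x hx => ⟨fun i => (hx i).1, fun i => (hx i).2.le⟩
  exact ((sideD_cont hu).integrableOn_Icc).mono_set h1

theorem sideD_meas_Rg {n : ℕ} (ch : Bx n → Finset (Bx n)) (Q : Bx n) :
    MeasurableSet (Rg ch Q) := by
  have : Rg ch Q = Q.s \ ⋃ κ ∈ ch Q, κ.s := by ext x; simp [Rg]
  rw [this]
  exact (sideD_meas_s Q).diff (Finset.measurableSet_biUnion _ (fun κ _ => sideD_meas_s κ))

theorem sideD_mono {n : ℕ} {u : E n → E (n + 1)} (hu : ContDiff ℝ ∞ u) (Q : Bx n)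
    {A B : Set (E n)} (hAB : A ⊆ B) (hB : B ⊆ Q.s) : EN u A ≤ EN u B := by
  unfold EN
  exact setIntegral_mono_set ((sideD_int hu Q).mono_set hB)
    (Filter.Eventually.of_forall fun x => pow_nonneg (sideD_fn_nonneg _) _)
    (Filter.Eventually.of_forall hAB)

theorem sideD_EN_nonneg {n : ℕ} (u : E n → E (n + 1)) (A : Set (E n)) : 0 ≤ EN u A :=
  integral_nonneg fun _ => pow_nonneg (sideD_fn_nonneg _) _

theorem sideD_Rg_sub {n : ℕ} (ch : Bx n → Finset (Bx n)) (Q : Bx n) : Rg ch Q ⊆ Q.s :=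
  fun _ hx => hx.1

theorem sideD_dec {n : ℕ} {u : E n → E (n + 1)} {P : Bx n → Prop} {ch : Bx n → Finset (Bx n)}
    {rk : Bx n → ℕ} (h : Cells u P ch rk) (Q : Bx n) (hQ : P Q) :
    EN u Q.s = EN u (Rg ch Q) + ∑ κ ∈ ch Q, EN u κ.s := by
  have hsub : (⋃ κ ∈ ch Q, κ.s) ⊆ Q.s := Set.iUnion₂_subset (fun κ hκ => h.chs Q hQ κ hκ)
  have h1 : Q.s = Rg ch Q ∪ ⋃ κ ∈ ch Q, κ.s := by
    ext x
    constructor
    · intro hx
      by_cases hx2 : x ∈ ⋃ κ ∈ ch Q, κ.s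
      · exact Or.inr hx2
      · refine Or.inl ⟨hx, fun κ hκ hxκ => hx2 ?_⟩
        exact Set.mem_biUnion hκ hxκ
    · rintro (hx | hx)
      · exact hx.1
      · exact hsub hx
  have hI := sideD_int h.smooth Q
  have hdis : Disjoint (Rg ch Q) (⋃ κ ∈ ch Q, κ.s) := by
    rw [Set.disjoint_left]
    intro x hx hx2
    rw [Set.mem_iUnion₂] at hx2
    obtain ⟨κ, hκ, hxκ⟩ := hx2
    exact hx.2 κ hκ hxκ
  unfold EN
  conv_lhs => rw [h1]
  rw [setIntegral_union hdis (Finset.measurableSet_biUnion _ (fun κ _ => sideD_meas_s κ))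
    (hI.mono_set (sideD_Rg_sub ch Q)) (hI.mono_set hsub)]
  congr 1
  exact integral_biUnion_finset (ch Q) (fun κ _ => sideD_meas_s κ)
    (fun κ hκ κ' hκ' hne => h.disj Q hQ κ hκ κ' hκ' hne)
    (fun κ hκ => hI.mono_set (h.chs Q hQ κ hκ))

theorem sideD_A {n : ℕ} (hn : 2 ≤ n) : ∃ K : ℝ, 0 < K ∧ ∀ {u : E n → E (n + 1)} {P : Bx n → Prop}
    {ch : Bx n → Finset (Bx n)} {rk : Bx n → ℕ} {d : Bx n → E (n + 1) → ℝ}, Cells u P ch rk →
    (∀ Q, P Q → DegF u ch Q (d Q)) → ∀ Q, P Q →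
    Dq ch d Q ≤ K * (EN u (Rg ch Q) + ∑ κ ∈ ch Q, EN u (Nr u ch κ (1 / 64))) *
      (EN u (Rg ch Q) + ∑ κ ∈ ch Q, EN u (Nr u ch κ (1 / 64))) ^ ((1 : ℝ) / n) := by
  obtain ⟨Ci, hCi, hiso⟩ := isoQ hn
  obtain ⟨CJ, hCJ, hJ⟩ := Jc_le hn
  obtain ⟨CP, hCP, hP⟩ := Pc_der (n := n)
  have hn0 : (0 : ℝ) < n := by
    have : 0 < n := by omega
    exact_mod_cast this
  obtain ⟨C1, hC1⟩ : ∃ C1 : ℝ, C1 = CJ * (1 + (((n + 1 : ℕ) : ℝ) * CP) ^ n) := ⟨_, rfl⟩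
  have hpw : 0 ≤ (((n + 1 : ℕ) : ℝ) * CP) ^ n := by positivity
  have hC1p : 0 < C1 := by rw [hC1]; positivity
  refine ⟨Ci * C1 ^ (((n : ℝ) + 1) / n), by positivity, ?_⟩
  intro u P ch rk d hcell hdeg Q hQ
  have hb1 : ∀ x a, |Jc (Dm u x) a| ≤ C1 * fn (Dm u x) ^ n := by
    intro x a
    refine (hJ _ _).trans ?_
    have h0 : 0 ≤ fn (Dm u x) ^ n := pow_nonneg (sideD_fn_nonneg _) _
    apply mul_le_mul_of_nonneg_right _ h0
    rw [hC1]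
    nlinarith
  have hb2 : ∀ c x a, |Jc (Dm (fun z => Pc c (u z)) x) a| ≤ C1 * fn (Dm u x) ^ n := by
    intro c x a
    obtain ⟨_, hA⟩ := hP u hcell.smooth c
    obtain ⟨A, hA1, hA2⟩ := hA x
    refine (hJ _ _).trans ?_
    rw [hA2]
    have h1 := sideD_fn_mul A (Dm u x) CP hCP.le hA1
    have h2 : fn (A * Dm u x) ^ n ≤ (((n + 1 : ℕ) : ℝ) * CP) ^ n * fn (Dm u x) ^ n := by
      rw [← mul_pow]
      exact pow_le_pow_left₀ (sideD_fn_nonneg _) h1 n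
    have h0 : 0 ≤ fn (Dm u x) ^ n := pow_nonneg (sideD_fn_nonneg _) _
    calc CJ * fn (A * Dm u x) ^ n ≤ CJ * ((((n + 1 : ℕ) : ℝ) * CP) ^ n * fn (Dm u x) ^ n) :=
          mul_le_mul_of_nonneg_left h2 hCJ.le
      _ = (CJ * (((n + 1 : ℕ) : ℝ) * CP) ^ n) * fn (Dm u x) ^ n := by ring
      _ ≤ C1 * fn (Dm u x) ^ n := by
          apply mul_le_mul_of_nonneg_right _ h0
          rw [hC1]
          nlinarith
  have h1 := hiso hcell hdeg Q hQ (fun x => C1 * fn (Dm u x) ^ n)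
    (fun x => mul_nonneg hC1p.le (pow_nonneg (sideD_fn_nonneg _) _))
    ((sideD_int hcell.smooth Q).const_mul C1) hb1 hb2
  have h2 : (∫ x in Rg ch Q, C1 * fn (Dm u x) ^ n) +
      ∑ κ ∈ ch Q, ∫ x in Nr u ch κ (1 / 64), C1 * fn (Dm u x) ^ n =
      C1 * (EN u (Rg ch Q) + ∑ κ ∈ ch Q, EN u (Nr u ch κ (1 / 64))) := by
    unfold EN
    rw [mul_add, Finset.mul_sum, integral_const_mul]
    congr 1
    apply Finset.sum_congr rfl
    intro κ _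
    rw [integral_const_mul]
  rw [h2] at h1
  have hge : 0 ≤ EN u (Rg ch Q) + ∑ κ ∈ ch Q, EN u (Nr u ch κ (1 / 64)) :=
    add_nonneg (sideD_EN_nonneg _ _) (Finset.sum_nonneg fun _ _ => sideD_EN_nonneg _ _)
  rw [Real.mul_rpow hC1p.le hge] at h1
  have h3 : (EN u (Rg ch Q) + ∑ κ ∈ ch Q, EN u (Nr u ch κ (1 / 64))) ^ (((n : ℝ) + 1) / n) =
      (EN u (Rg ch Q) + ∑ κ ∈ ch Q, EN u (Nr u ch κ (1 / 64))) *
      (EN u (Rg ch Q) + ∑ κ ∈ ch Q, EN u (Nr u ch κ (1 / 64))) ^ ((1 : ℝ) / n) := by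
    have h4 : ((n : ℝ) + 1) / n = 1 + 1 / n := by field_simp
    rw [h4, Real.rpow_add' hge (by positivity), Real.rpow_one]
  rw [h3] at h1
  refine h1.trans (le_of_eq ?_)
  ring

theorem sideD_a_le {n : ℕ} {u : E n → E (n + 1)} {P : Bx n → Prop} {ch : Bx n → Finset (Bx n)}
    {rk : Bx n → ℕ} (h : Cells u P ch rk) (Q : Bx n) (hQ : P Q) :
    EN u (Rg ch Q) + ∑ κ ∈ ch Q, EN u (Nr u ch κ (1 / 64)) ≤ EN u Q.s := by
  rw [sideD_dec h Q hQ]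
  apply add_le_add le_rfl
  apply Finset.sum_le_sum
  intro κ _
  exact sideD_mono h.smooth κ (fun x hx => hx.1.1) subset_rfl

theorem sideD_child_le {n : ℕ} {u : E n → E (n + 1)} {P : Bx n → Prop} {ch : Bx n → Finset (Bx n)}
    {rk : Bx n → ℕ} (h : Cells u P ch rk) (Q : Bx n) (hQ : P Q) (κ : Bx n) (hκ : κ ∈ ch Q) :
    EN u κ.s ≤ EN u Q.s :=
  sideD_mono h.smooth Q (h.chs Q hQ κ hκ) subset_rfl

theorem sideD_ind {n : ℕ} {M : ℝ} {B : Set (E n)}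
    {H : E (n + 1) → ℝ} {u : E n → E (n + 1)} {ν : E n → ℝ} {P : Bx n → Prop}
    {ch : Bx n → Finset (Bx n)} {rk : Bx n → ℕ} {d : Bx n → E (n + 1) → ℝ} {S : Bx n → ℝ}
    (h : Sys M B H u ν P ch rk d S) (C : ℝ)
    (hD : ∀ κ, P κ → EN u κ.s ≤ 1 →
      Dq ch d κ ≤ C * (EN u (Rg ch κ) + ∑ κ' ∈ ch κ, EN u (Rg ch κ'))) :
    ∀ (k : ℕ) (Q : Bx n), rk Q = k → P Q → EN u Q.s ≤ 1 →
      S Q + C * ∑ κ ∈ ch Q, EN u (Rg ch κ) ≤ 2 * C * (EN u Q.s - EN u (Rg ch Q)) := by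
  intro k
  induction k using Nat.strong_induction_on with
  | _ k ih =>
    intro Q hk hQ hE
    rw [h.Srec Q hQ, Finset.mul_sum, ← Finset.sum_add_distrib]
    have h1 : EN u Q.s - EN u (Rg ch Q) = ∑ κ ∈ ch Q, EN u κ.s := by
      rw [sideD_dec h.cells Q hQ]; ring
    rw [h1, Finset.mul_sum]
    apply Finset.sum_le_sum
    intro κ hκ
    have hPκ := h.cells.chP Q hQ κ hκ
    have hEκ : EN u κ.s ≤ 1 := (sideD_child_le h.cells Q hQ κ hκ).trans hE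
    have h2 := ih (rk κ) (by rw [← hk]; exact h.cells.rk_lt Q hQ κ hκ) κ rfl hPκ hEκ
    have h3 := hD κ hPκ hEκ
    linarith

theorem sideD {n : ℕ} (hn : 2 ≤ n) (M : ℝ) : ∃ ε C : ℝ, 0 < ε ∧ 0 < C ∧ ∀ {B : Set (E n)}
    {H : E (n + 1) → ℝ} {u : E n → E (n + 1)} {ν : E n → ℝ} {P : Bx n → Prop}
    {ch : Bx n → Finset (Bx n)} {rk : Bx n → ℕ} {d : Bx n → E (n + 1) → ℝ} {S : Bx n → ℝ},
    Sys M B H u ν P ch rk d S → ∀ Q, P Q → EN u Q.s ≤ ε →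
    ∑ κ ∈ ch Q, Dq ch d κ ≤ C * EN u Q.s ^ ((1 : ℝ) / n) * (S Q + ∫ x in Q.s, ν x) ∧
    S Q ≤ C * EN u Q.s := by
  obtain ⟨ε, Cs, hε, hCs, hside⟩ := side hn M
  obtain ⟨K, hK, hA⟩ := sideD_A hn
  have hn0 : (0 : ℝ) < n := by
    have : 0 < n := by omega
    exact_mod_cast this
  refine ⟨min ε 1, K * Cs + 2 * K, lt_min hε one_pos, by positivity, ?_⟩
  intro B H u ν P ch rk d S h Q hQ hE
  have hEε : EN u Q.s ≤ ε := hE.trans (min_le_left _ _)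
  have hE1 : EN u Q.s ≤ 1 := hE.trans (min_le_right _ _)
  have hE0 := sideD_EN_nonneg u Q.s
  have hν0 : 0 ≤ ∫ x in Q.s, ν x := integral_nonneg fun x => h.nn x
  have hS0 : 0 ≤ S Q := (T_le h Q hQ).1
  have hsq := hside h Q hQ hEε
  have hr0 : 0 ≤ EN u Q.s ^ ((1 : ℝ) / n) := Real.rpow_nonneg hE0 _
  constructor
  · have h1 : ∀ κ ∈ ch Q, Dq ch d κ ≤ (K * EN u Q.s ^ ((1 : ℝ) / n)) *
        (EN u (Rg ch κ) + ∑ κ' ∈ ch κ, EN u (Nr u ch κ' 1)) := by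
      intro κ hκ
      have hPκ := h.cells.chP Q hQ κ hκ
      have h2 := hA h.cells h.deg κ hPκ
      have h3 := sideD_a_le h.cells κ hPκ
      have h4 := sideD_child_le h.cells Q hQ κ hκ
      have hge : 0 ≤ EN u (Rg ch κ) + ∑ κ' ∈ ch κ, EN u (Nr u ch κ' (1 / 64)) :=
        add_nonneg (sideD_EN_nonneg _ _) (Finset.sum_nonneg fun _ _ => sideD_EN_nonneg _ _)
      have h5 : (EN u (Rg ch κ) + ∑ κ' ∈ ch κ, EN u (Nr u ch κ' (1 / 64))) ^ ((1 : ℝ) / n) ≤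
          EN u Q.s ^ ((1 : ℝ) / n) :=
        Real.rpow_le_rpow hge (h3.trans h4) (by positivity)
      have h6 : EN u (Rg ch κ) + ∑ κ' ∈ ch κ, EN u (Nr u ch κ' (1 / 64)) ≤
          EN u (Rg ch κ) + ∑ κ' ∈ ch κ, EN u (Nr u ch κ' 1) := by
        apply add_le_add le_rfl
        apply Finset.sum_le_sum
        intro κ' _
        exact sideD_mono h.cells.smooth κ'
          (fun x hx => ⟨hx.1, hx.2.trans (by norm_num)⟩) (fun x hx => hx.1.1)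
      calc Dq ch d κ ≤ K * (EN u (Rg ch κ) + ∑ κ' ∈ ch κ, EN u (Nr u ch κ' (1 / 64))) *
            (EN u (Rg ch κ) + ∑ κ' ∈ ch κ, EN u (Nr u ch κ' (1 / 64))) ^ ((1 : ℝ) / n) := h2
        _ ≤ K * (EN u (Rg ch κ) + ∑ κ' ∈ ch κ, EN u (Nr u ch κ' 1)) *
            EN u Q.s ^ ((1 : ℝ) / n) := by
            apply mul_le_mul (mul_le_mul_of_nonneg_left h6 hK.le) h5 (Real.rpow_nonneg hge _)
            exact mul_nonneg hK.le (hge.trans h6)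
        _ = (K * EN u Q.s ^ ((1 : ℝ) / n)) *
            (EN u (Rg ch κ) + ∑ κ' ∈ ch κ, EN u (Nr u ch κ' 1)) := by ring
    calc ∑ κ ∈ ch Q, Dq ch d κ ≤ ∑ κ ∈ ch Q, (K * EN u Q.s ^ ((1 : ℝ) / n)) *
          (EN u (Rg ch κ) + ∑ κ' ∈ ch κ, EN u (Nr u ch κ' 1)) := Finset.sum_le_sum h1
      _ = (K * EN u Q.s ^ ((1 : ℝ) / n)) * ∑ κ ∈ ch Q,
          (EN u (Rg ch κ) + ∑ κ' ∈ ch κ, EN u (Nr u ch κ' 1)) := by rw [← Finset.mul_sum]
      _ ≤ (K * EN u Q.s ^ ((1 : ℝ) / n)) * (Cs * (S Q + ∫ x in Q.s, ν x)) :=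
          mul_le_mul_of_nonneg_left hsq (mul_nonneg hK.le hr0)
      _ = (K * Cs) * EN u Q.s ^ ((1 : ℝ) / n) * (S Q + ∫ x in Q.s, ν x) := by ring
      _ ≤ (K * Cs + 2 * K) * EN u Q.s ^ ((1 : ℝ) / n) * (S Q + ∫ x in Q.s, ν x) := by
          apply mul_le_mul_of_nonneg_right _ (add_nonneg hS0 hν0)
          apply mul_le_mul_of_nonneg_right _ hr0
          linarith
  · have hD : ∀ κ, P κ → EN u κ.s ≤ 1 →
        Dq ch d κ ≤ K * (EN u (Rg ch κ) + ∑ κ' ∈ ch κ, EN u (Rg ch κ')) := by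
      intro κ hPκ hEκ
      have h2 := hA h.cells h.deg κ hPκ
      have h3 := sideD_a_le h.cells κ hPκ
      have hge : 0 ≤ EN u (Rg ch κ) + ∑ κ' ∈ ch κ, EN u (Nr u ch κ' (1 / 64)) :=
        add_nonneg (sideD_EN_nonneg _ _) (Finset.sum_nonneg fun _ _ => sideD_EN_nonneg _ _)
      have h5 : (EN u (Rg ch κ) + ∑ κ' ∈ ch κ, EN u (Nr u ch κ' (1 / 64))) ^ ((1 : ℝ) / n) ≤ 1 :=
        Real.rpow_le_one hge (h3.trans hEκ) (by positivity)
      have h6 : EN u (Rg ch κ) + ∑ κ' ∈ ch κ, EN u (Nr u ch κ' (1 / 64)) ≤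
          EN u (Rg ch κ) + ∑ κ' ∈ ch κ, EN u (Rg ch κ') := by
        apply add_le_add le_rfl
        apply Finset.sum_le_sum
        intro κ' _
        exact sideD_mono h.cells.smooth κ' (fun x hx => hx.1) (sideD_Rg_sub ch κ')
      calc Dq ch d κ ≤ K * (EN u (Rg ch κ) + ∑ κ' ∈ ch κ, EN u (Nr u ch κ' (1 / 64))) *
            (EN u (Rg ch κ) + ∑ κ' ∈ ch κ, EN u (Nr u ch κ' (1 / 64))) ^ ((1 : ℝ) / n) := h2
        _ ≤ K * (EN u (Rg ch κ) + ∑ κ' ∈ ch κ, EN u (Rg ch κ')) * 1 := by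
            apply mul_le_mul (mul_le_mul_of_nonneg_left h6 hK.le) h5 (Real.rpow_nonneg hge _)
            exact mul_nonneg hK.le (hge.trans h6)
        _ = K * (EN u (Rg ch κ) + ∑ κ' ∈ ch κ, EN u (Rg ch κ')) := mul_one _
    have h1 := sideD_ind h K hD (rk Q) Q rfl hQ hE1
    have h2 : 0 ≤ ∑ κ ∈ ch Q, EN u (Rg ch κ) := Finset.sum_nonneg fun _ _ => sideD_EN_nonneg _ _
    have h3 := mul_nonneg hK.le h2
    have h4 := mul_nonneg hK.le (sideD_EN_nonneg u (Rg ch Q))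
    have h5 := mul_nonneg (mul_nonneg hK.le hCs.le) hE0
    nlinarith

end H930.HS.XSideD

namespace H930.HS

export XSideD (sideD)

end H930.HS
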