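import Pool.Agent.Helper930.HS.Exp

set_option autoImplicit false

open MeasureTheory Metric Set Filter Topology
open scoped ENNReal NNReal ContDiff

namespace H930.HS.XTeB

open H930.BL



theorem te_bounds_fn_nonneg {m n : ℕ} (M : Matrix (Fin m) (Fin n) ℝ) : 0 ≤ fn M :=
  Real.sqrt_nonneg _

theorem te_bounds_fn_sq {m n : ℕ} (M : Matrix (Fin m) (Fin n) ℝ) :
    fn M ^ 2 = ∑ a, ∑ b, M a b ^ 2 :=
  Real.sq_sqrt (Finset.sum_nonneg fun _ _ => Finset.sum_nonneg fun _ _ => sq_nonneg _)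

theorem te_bounds_pow {n : ℕ} (hn : 2 ≤ n) (t : ℝ) : t ^ (n - 2) * t ^ 2 = t ^ n := by
  rw [← pow_add]
  congr 1
  omega

theorem te_bounds {n : ℕ} (hn : 2 ≤ n) (u : E n → E (n + 1)) (e : E (n + 1)) (he : Ue e)
    (x : E n) : 0 ≤ te u e x ∧ te u e x ≤ fn (Dm u x) ^ n ∧ te u 0 x = fn (Dm u x) ^ n := by
  have h0 := te_bounds_fn_nonneg (Dm u x)
  have h1 : ∑ j, (∑ a, e a * Dm u x a j) ^ 2 ≤ fn (Dm u x) ^ 2 := by
    rw [te_bounds_fn_sq, Finset.sum_comm]
    refine Finset.sum_le_sum fun j _ => ?_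
    refine (Finset.sum_mul_sq_le_sq_mul_sq Finset.univ e (fun a => Dm u x a j)).trans ?_
    have h2 : ∑ a, e a ^ 2 ≤ 1 := by
      rcases he with he | he
      · rw [he]; simp
      · exact he.le
    have h3 : 0 ≤ ∑ a, Dm u x a j ^ 2 := Finset.sum_nonneg fun _ _ => sq_nonneg _
    nlinarith
  have h2 : 0 ≤ ∑ j, (∑ a, e a * Dm u x a j) ^ 2 := Finset.sum_nonneg fun _ _ => sq_nonneg _
  have h3 : 0 ≤ fn (Dm u x) ^ (n - 2) := pow_nonneg h0 _
  refine ⟨?_, ?_, ?_⟩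
  · unfold te
    exact mul_nonneg h3 (by linarith)
  · unfold te
    rw [← te_bounds_pow hn (fn (Dm u x))]
    exact mul_le_mul_of_nonneg_left (by linarith) h3
  · unfold te
    rw [← te_bounds_pow hn (fn (Dm u x))]
    simp

theorem mo_le_kf (C : ℝ) (hC : ∀ s : ℝ, |deriv Real.smoothTransition s| ≤ C) (q : ℝ) :
    |deriv kf q| ≤ C * (4 / 3) ∧ (q < 1 / 4 → deriv kf q = 0) ∧ (1 < q → deriv kf q = 0) := by
  have h1 : deriv kf q = deriv Real.smoothTransition ((4 * q - 1) / 3) * (4 / 3) := by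
    have h2 : HasDerivAt (fun q : ℝ => (4 * q - 1) / 3) (4 / 3) q := by
      have := ((hasDerivAt_id q).const_mul 4).sub_const 1 |>.div_const 3
      simpa using this
    have h3 : HasDerivAt Real.smoothTransition (deriv Real.smoothTransition ((4 * q - 1) / 3))
        ((4 * q - 1) / 3) :=
      ((Real.smoothTransition.contDiff (n := 1)).differentiable one_ne_zero _).hasDerivAt
    exact (h3.comp q h2).deriv
  refine ⟨?_, ?_, ?_⟩
  · rw [h1, abs_mul, abs_of_pos (by norm_num : (0 : ℝ) < 4 / 3)]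
    exact mul_le_mul_of_nonneg_right (hC _) (by norm_num)
  · intro hq
    have h2 : kf =ᶠ[𝓝 q] fun _ => (0 : ℝ) := by
      filter_upwards [Iio_mem_nhds hq] with s hs
      unfold kf
      exact Real.smoothTransition.zero_of_nonpos (by rw [mem_Iio] at hs; linarith)
    rw [h2.deriv_eq, deriv_const]
  · intro hq
    have h2 : kf =ᶠ[𝓝 q] fun _ => (1 : ℝ) := by
      filter_upwards [Ioi_mem_nhds hq] with s hs
      unfold kf
      exact Real.smoothTransition.one_of_one_le (by rw [mem_Ioi] at hs; linarith)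
    rw [h2.deriv_eq, deriv_const]

theorem mo_le_row {m n : ℕ} (M : Matrix (Fin m) (Fin n) ℝ) (a b : Fin m) :
    |∑ j, M a j * M b j| ≤ fn M ^ 2 := by
  have hr : ∀ a, ∑ j, M a j ^ 2 ≤ fn M ^ 2 := by
    intro a
    rw [te_bounds_fn_sq]
    exact Finset.single_le_sum (f := fun a => ∑ j, M a j ^ 2)
      (fun _ _ => Finset.sum_nonneg fun _ _ => sq_nonneg _) (Finset.mem_univ a)
  have h1 : |∑ j, M a j * M b j| ≤ ∑ j, (M a j ^ 2 + M b j ^ 2) / 2 := by
    refine (Finset.abs_sum_le_sum_abs _ _).trans (Finset.sum_le_sum fun j _ => ?_)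
    rw [abs_le]
    constructor
    · nlinarith [sq_nonneg (M a j + M b j)]
    · nlinarith [sq_nonneg (M a j - M b j)]
  rw [← Finset.sum_div, Finset.sum_add_distrib] at h1
  linarith [hr a, hr b]

theorem mo_le_kb {m : ℕ} (C : ℝ) (hC0 : 0 < C)
    (hC : ∀ s : ℝ, |deriv Real.smoothTransition s| ≤ C) (c y : E m) (b : Fin m) :
    (¬ (1 / 4 ≤ qs c y ∧ qs c y ≤ 1) → kb c y b = 0) ∧
    ((1 / 4 ≤ qs c y ∧ qs c y ≤ 1) → |kb c y b| ≤ C * (8 / 3) ∧ |y b - c b| ≤ 1) := by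
  obtain ⟨h1, h2, h3⟩ := mo_le_kf C hC (qs c y)
  constructor
  · intro h
    unfold kb
    rcases lt_or_ge (qs c y) (1 / 4) with hq | hq
    · rw [h2 hq, zero_mul]
    · rw [h3 (by by_contra h4; push Not at h4; exact h ⟨hq, h4⟩), zero_mul]
  · rintro ⟨hq1, hq2⟩
    have h4 : (y b - c b) ^ 2 ≤ 1 := by
      refine le_trans ?_ hq2
      unfold qs
      exact Finset.single_le_sum (f := fun a => (y a - c a) ^ 2) (fun _ _ => sq_nonneg _)
        (Finset.mem_univ b)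
    have h5 : |y b - c b| ≤ 1 := (sq_le_one_iff_abs_le_one _).1 h4
    refine ⟨?_, h5⟩
    unfold kb
    rw [abs_mul, abs_mul, abs_of_pos (by norm_num : (0 : ℝ) < 2)]
    have h6 : 0 ≤ |deriv kf (qs c y)| := abs_nonneg _
    have h7 : 0 ≤ |y b - c b| := abs_nonneg _
    nlinarith [mul_le_mul h1 h5 h7 (by positivity)]

theorem mo_le_cont {n m : ℕ} {u : E n → E m} (hu : ContDiff ℝ ∞ u) :
    Continuous fun x => fn (Dm u x) := by
  unfold fn
  refine Real.continuous_sqrt.comp ?_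
  refine continuous_finsetSum _ fun a _ => continuous_finsetSum _ fun b _ => ?_
  refine Continuous.pow ?_ 2
  exact continuous_pd (((contDiff_pi.1 hu) a).of_le (by exact_mod_cast le_top)) b

theorem mo_le_set {n : ℕ} {u : E n → E (n + 1)} (hu : ContDiff ℝ ∞ u)
    (ch : Bx n → Finset (Bx n)) (κ : Bx n) (C : ℝ) (F : E n → ℝ)
    (hF0 : ∀ x, ¬ (1 / 4 ≤ qs (u κ.a) (u x) ∧ qs (u κ.a) (u x) ≤ 1) → F x = 0)
    (hF1 : ∀ x, (1 / 4 ≤ qs (u κ.a) (u x) ∧ qs (u κ.a) (u x) ≤ 1) →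
      |F x| ≤ C * fn (Dm u x) ^ n) :
    |∫ x in Rg ch κ, F x| ≤
      C * EN u {x | x ∈ Rg ch κ ∧ 1 / 4 ≤ qs (u κ.a) (u x) ∧ qs (u κ.a) (u x) ≤ 1} := by
  obtain ⟨R, hR⟩ : ∃ R : Set (E n), R = {x | 1 / 4 ≤ qs (u κ.a) (u x) ∧ qs (u κ.a) (u x) ≤ 1} :=
    ⟨_, rfl⟩
  have hqc : Continuous fun x => qs (u κ.a) (u x) := by
    unfold qs
    refine continuous_finsetSum _ fun a _ => ?_
    exact (((continuous_apply a).comp hu.continuous).sub continuous_const).pow 2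
  have hRm : MeasurableSet R := by
    rw [hR]
    exact ((isClosed_le continuous_const hqc).inter (isClosed_le hqc continuous_const)).measurableSet
  have hint : IntegrableOn (fun x => C * fn (Dm u x) ^ n) (Rg ch κ) := by
    have h1 : IntegrableOn (fun x => C * fn (Dm u x) ^ n) (Icc κ.a κ.b) :=
      (continuous_const.mul ((mo_le_cont hu).pow n)).continuousOn.integrableOn_compact isCompact_Icc
    refine h1.mono_set ?_
    rintro x ⟨hx, _⟩
    exact ⟨fun i => (hx i).1, fun i => (hx i).2.le⟩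
  have h1 : ‖∫ x in Rg ch κ, F x‖ ≤
      ∫ x in Rg ch κ, R.indicator (fun x => C * fn (Dm u x) ^ n) x := by
    refine norm_integral_le_of_norm_le (hint.indicator hRm) (Filter.Eventually.of_forall fun x => ?_)
    by_cases hx : x ∈ R
    · rw [indicator_of_mem hx, Real.norm_eq_abs]
      rw [hR] at hx
      exact hF1 x hx
    · rw [indicator_of_notMem hx, hF0 x (by rw [hR] at hx; exact hx), norm_zero]
  rw [Real.norm_eq_abs] at h1
  refine h1.trans (le_of_eq ?_)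
  rw [setIntegral_indicator hRm, integral_const_mul]
  unfold EN
  rw [hR]
  rfl

theorem mo_le {n : ℕ} (hn : 2 ≤ n) : ∃ C : ℝ, 0 < C ∧ ∀ {u : E n → E (n + 1)} {P : Bx n → Prop}
    {ch : Bx n → Finset (Bx n)} {rk : Bx n → ℕ}, Cells u P ch rk → ∀ κ, P κ → ∀ (a b : Fin (n + 1)),
    |Ph u ch κ a| ≤ C * EN u {x | x ∈ Rg ch κ ∧ 1 / 4 ≤ qs (u κ.a) (u x) ∧ qs (u κ.a) (u x) ≤ 1} ∧
    |Mo u ch κ a b| ≤
      C * EN u {x | x ∈ Rg ch κ ∧ 1 / 4 ≤ qs (u κ.a) (u x) ∧ qs (u κ.a) (u x) ≤ 1} := by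
  obtain ⟨C, hC0, hC⟩ := exists_C0
  refine ⟨((n : ℝ) + 1) * (C * (8 / 3)), by positivity, ?_⟩
  intro u P ch rk hc κ hκ a b
  have hs : ∀ x, (1 / 4 ≤ qs (u κ.a) (u x) ∧ qs (u κ.a) (u x) ≤ 1) →
      |∑ b, kb (u κ.a) (u x) b * ∑ j, Dm u x a j * Dm u x b j| ≤
        ((n : ℝ) + 1) * (C * (8 / 3)) * fn (Dm u x) ^ 2 := by
    intro x hx
    refine (Finset.abs_sum_le_sum_abs _ _).trans ?_
    have h1 : ∀ b ∈ (Finset.univ : Finset (Fin (n + 1))),
        |kb (u κ.a) (u x) b * ∑ j, Dm u x a j * Dm u x b j| ≤ C * (8 / 3) * fn (Dm u x) ^ 2 := by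
      intro b _
      rw [abs_mul]
      exact mul_le_mul ((mo_le_kb C hC0 hC (u κ.a) (u x) b).2 hx).1 (mo_le_row _ a b)
        (abs_nonneg _) (by positivity)
    refine (Finset.sum_le_card_nsmul _ _ _ h1).trans (le_of_eq ?_)
    rw [Finset.card_univ, Fintype.card_fin, nsmul_eq_mul]
    push_cast
    ring
  have hs0 : ∀ x, ¬ (1 / 4 ≤ qs (u κ.a) (u x) ∧ qs (u κ.a) (u x) ≤ 1) →
      ∑ b, kb (u κ.a) (u x) b * ∑ j, Dm u x a j * Dm u x b j = 0 := by
    intro x hx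
    refine Finset.sum_eq_zero fun b _ => ?_
    rw [(mo_le_kb C hC0 hC (u κ.a) (u x) b).1 hx, zero_mul]
  constructor
  · refine mo_le_set hc.smooth ch κ _ _ ?_ ?_
    · intro x hx
      rw [hs0 x hx, mul_zero]
    · intro x hx
      rw [abs_mul, abs_of_nonneg (pow_nonneg (te_bounds_fn_nonneg _) _), ← te_bounds_pow hn (fn (Dm u x))]
      have := mul_le_mul_of_nonneg_left (hs x hx)
        (pow_nonneg (te_bounds_fn_nonneg (Dm u x)) (n - 2))
      refine this.trans (le_of_eq (by ring))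
  · refine mo_le_set hc.smooth ch κ _ _ ?_ ?_
    · intro x hx
      rw [hs0 x hx, mul_zero, mul_zero]
    · intro x hx
      rw [abs_mul, abs_of_nonneg (pow_nonneg (te_bounds_fn_nonneg _) _), ← te_bounds_pow hn (fn (Dm u x)),
        abs_mul]
      have h1 := ((mo_le_kb C hC0 hC (u κ.a) (u x) b).2 hx).2
      have h2 := mul_le_mul h1 (hs x hx) (abs_nonneg _) zero_le_one
      have := mul_le_mul_of_nonneg_left h2
        (pow_nonneg (te_bounds_fn_nonneg (Dm u x)) (n - 2))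
      refine this.trans (le_of_eq (by ring))

end H930.HS.XTeB

namespace H930.HS

export XTeB (te_bounds mo_le)

end H930.HS
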