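import Pool.Agent.Helper930.HS.Exp

set_option autoImplicit false

open MeasureTheory Metric Set Filter Topology
open scoped ENNReal NNReal ContDiff

namespace H930.HS.XDeG

open H930.BL



theorem deG {C β : ℝ} (hC : 0 < C) (hβ : 0 < β) : ∃ ε : ℝ, 0 < ε ∧ ∀ (y : ℝ → ℝ) (S : ℝ), 0 ≤ S →
    (∀ s, 0 ≤ y s) → (∀ s t, 1 / 8 ≤ s → s ≤ t → y t ≤ y s) →
    (∀ s h, 1 / 8 ≤ s → 0 < h → s + 2 * h ≤ 1 / 4 → y (s + 2 * h) ≤ C * (h⁻¹ * (y s + S)) ^ (1 + β)) →
    y (1 / 8) ≤ ε → y (1 / 4) ≤ S := by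
  have hβ1 : 0 < 1 + β := by linarith
  set b : ℝ := (2:ℝ) ^ (-(1 + β) / β) with hb
  have hb0 : 0 < b := Real.rpow_pos_of_pos two_pos _
  have hb1 : b < 1 := Real.rpow_lt_one_of_one_lt_of_neg one_lt_two
    (div_neg_of_neg_of_pos (by linarith) hβ)
  have hbb : (2 * b) ^ (1 + β) = b := by
    have h1 : b ^ β = ((2:ℝ) ^ (1 + β))⁻¹ := by
      rw [hb, ← Real.rpow_mul (by norm_num), ← Real.rpow_neg (by norm_num)]
      congr 1
      field_simp
    have h2 : (0:ℝ) < (2:ℝ) ^ (1 + β) := Real.rpow_pos_of_pos two_pos _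
    rw [Real.mul_rpow (by norm_num) hb0.le, Real.rpow_add hb0 1 β, Real.rpow_one, h1]
    field_simp
  set K : ℝ := C * (64:ℝ) ^ (1 + β) with hK
  have hK0 : 0 < K := mul_pos hC (Real.rpow_pos_of_pos (by norm_num) _)
  set ε : ℝ := (b / K) ^ (1 / β) with hε
  have hε0 : 0 < ε := Real.rpow_pos_of_pos (div_pos hb0 hK0) _
  have hεβ : K * ε ^ β = b := by
    rw [hε, ← Real.rpow_mul (div_pos hb0 hK0).le, one_div_mul_cancel hβ.ne', Real.rpow_one]
    field_simp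
  refine ⟨ε, hε0, ?_⟩
  intro y S hS hy hmono hrec hy0
  by_contra hcon
  push Not at hcon
  have hp0 : ∀ k : ℕ, (0:ℝ) < (1 / 2) ^ k := fun k => by positivity
  have hp1 : ∀ k : ℕ, ((1:ℝ) / 2) ^ k ≤ 1 := fun k => pow_le_one₀ (by norm_num) (by norm_num)
  have hs : ∀ k : ℕ, y (1 / 4) ≤ y (1 / 4 - 1 / 8 * (1 / 2) ^ k) := by
    intro k
    have h0 := hp0 k
    have h1 := hp1 k
    exact hmono _ _ (by linarith) (by linarith)
  have key : ∀ k : ℕ, y (1 / 4 - 1 / 8 * (1 / 2) ^ k) ≤ ε * b ^ k := by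
    intro k
    induction k with
    | zero =>
      have e : (1:ℝ) / 4 - 1 / 8 * (1 / 2) ^ 0 = 1 / 8 := by norm_num
      rw [e, pow_zero, mul_one]
      exact hy0
    | succ k ih =>
      have h0 := hp0 k
      have h1 := hp1 k
      have hr := hrec (1 / 4 - 1 / 8 * (1 / 2) ^ k) (1 / 32 * (1 / 2) ^ k) (by linarith)
        (by positivity) (by linarith)
      have e : (1:ℝ) / 4 - 1 / 8 * (1 / 2) ^ k + 2 * (1 / 32 * (1 / 2) ^ k) =
          1 / 4 - 1 / 8 * (1 / 2) ^ (k + 1) := by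
        rw [pow_succ]; ring
      rw [e] at hr
      have hinv : ((1:ℝ) / 32 * (1 / 2) ^ k)⁻¹ = 32 * 2 ^ k := by
        rw [one_div_pow]
        field_simp
      have hyS : y (1 / 4 - 1 / 8 * (1 / 2) ^ k) + S ≤ 2 * (ε * b ^ k) := by
        have := hs k
        linarith
      have hle : ((1:ℝ) / 32 * (1 / 2) ^ k)⁻¹ * (y (1 / 4 - 1 / 8 * (1 / 2) ^ k) + S) ≤
          (64 * ε) * (2 * b) ^ k := by
        rw [hinv, mul_pow]
        calc 32 * 2 ^ k * (y (1 / 4 - 1 / 8 * (1 / 2) ^ k) + S)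
            ≤ 32 * 2 ^ k * (2 * (ε * b ^ k)) := mul_le_mul_of_nonneg_left hyS (by positivity)
          _ = (64 * ε) * (2 ^ k * b ^ k) := by ring
      have hnn : 0 ≤ ((1:ℝ) / 32 * (1 / 2) ^ k)⁻¹ * (y (1 / 4 - 1 / 8 * (1 / 2) ^ k) + S) :=
        mul_nonneg (by positivity) (add_nonneg (hy _) hS)
      have hpow : ((2 * b) ^ k) ^ (1 + β) = b ^ k := by
        have h2b : (0:ℝ) ≤ 2 * b := by positivity
        rw [← Real.rpow_natCast (2 * b) k, ← Real.rpow_mul h2b, mul_comm (k:ℝ), Real.rpow_mul h2b,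
          hbb, Real.rpow_natCast]
      calc y (1 / 4 - 1 / 8 * (1 / 2) ^ (k + 1))
          ≤ C * (((1:ℝ) / 32 * (1 / 2) ^ k)⁻¹ *
              (y (1 / 4 - 1 / 8 * (1 / 2) ^ k) + S)) ^ (1 + β) := hr
        _ ≤ C * ((64 * ε) * (2 * b) ^ k) ^ (1 + β) :=
            mul_le_mul_of_nonneg_left (Real.rpow_le_rpow hnn hle hβ1.le) hC.le
        _ = C * ((64:ℝ) ^ (1 + β) * (ε * ε ^ β) * b ^ k) := by
            rw [Real.mul_rpow (by positivity) (by positivity), hpow,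
              Real.mul_rpow (by norm_num) hε0.le, Real.rpow_add hε0 1 β, Real.rpow_one]
        _ = ε * (K * ε ^ β) * b ^ k := by rw [hK]; ring
        _ = ε * b ^ (k + 1) := by rw [hεβ, pow_succ]; ring
  have hlim : Tendsto (fun k : ℕ => ε * b ^ k) atTop (𝓝 (ε * 0)) :=
    (tendsto_pow_atTop_nhds_zero_of_lt_one hb0.le hb1).const_mul ε
  have hfin : y (1 / 4) ≤ ε * 0 := ge_of_tendsto' hlim (fun k => (hs k).trans (key k))
  linarith

end H930.HS.XDeG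

namespace H930.HS

export XDeG (deG)

end H930.HS
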