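import Pool.Agent.Helper930.HS.PcDer

set_option autoImplicit false

open MeasureTheory Metric Set Filter Topology
open scoped ENNReal NNReal ContDiff

namespace H930.HS.XDForm

open H930.BL



theorem dform_cont {n : ℕ} {u : E n → E (n + 1)} (hu : ContDiff ℝ ∞ u)
    {ζ : E (n + 1) → ℝ} (hζ : ContDiff ℝ ∞ ζ) (a : Fin (n + 1)) :
    Continuous fun x => ζ (u x) * Jc (Dm u x) a := by
  apply (hζ.continuous.comp hu.continuous).mul
  unfold Jc
  apply continuous_const.mul
  apply Continuous.matrix_det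
  apply Continuous.matrix_submatrix
  refine continuous_matrix fun i j => ?_
  have h1 : ContDiff ℝ 1 (fun y => u y i) := ((contDiff_pi.1 hu) i).of_le (by exact_mod_cast le_top)
  exact continuous_pd h1 j

theorem dform_qs {m : ℕ} (c y : E m) (t : ℝ) :
    qs c (fun a => c a + t * (y a - c a)) = t ^ 2 * qs c y := by
  unfold qs
  rw [Finset.mul_sum]
  apply Finset.sum_congr rfl
  intro a _
  ring

theorem dform_qs_nonneg {m : ℕ} (c y : E m) : 0 ≤ qs c y :=
  Finset.sum_nonneg fun _ _ => sq_nonneg _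

theorem dform_meas {n : ℕ} (Q : Bx n) : MeasurableSet Q.s := by
  have : Q.s = Set.pi Set.univ (fun i => Set.Ico (Q.a i) (Q.b i)) := by
    ext x
    simp [Bx.s, Set.mem_pi]
  rw [this]
  exact MeasurableSet.univ_pi fun i => measurableSet_Ico

theorem dform_point {n : ℕ} {u : E n → E (n + 1)} (hu : ContDiff ℝ ∞ u) (c : E (n + 1))
    (ζ : E (n + 1) → ℝ) (h0 : ∀ y, qs c y ≤ 1 / 64 → ζ y = 0) (a : Fin (n + 1)) (x : E n) :
    ζ (Pc c (u x)) * Jc (Dm (fun z => Pc c (u z)) x) a = ζ (u x) * Jc (Dm u x) a := by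
  by_cases hx : qs c (u x) ≤ 1 / 64
  · have h1 : ζ (u x) = 0 := h0 _ hx
    have h2 : ζ (Pc c (u x)) = 0 := by
      apply h0
      unfold Pc
      rw [dform_qs]
      set t := Real.smoothTransition ((256 * qs c (u x) - 1) / 3) with ht
      have ht0 : 0 ≤ t := Real.smoothTransition.nonneg _
      have ht1 : t ≤ 1 := Real.smoothTransition.le_one _
      have hq := dform_qs_nonneg c (u x)
      have : t ^ 2 ≤ 1 := by nlinarith
      nlinarith
    rw [h1, h2, zero_mul, zero_mul]
  · push Not at hx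
    have hPc : ∀ y, 1 / 64 < qs c y → Pc c y = y := by
      intro y hy
      funext i
      unfold Pc
      rw [Real.smoothTransition.one_of_one_le (by linarith)]
      ring
    have hcont : Continuous (fun z => qs c (u z)) := by
      unfold qs
      have hu' := hu.continuous
      fun_prop
    have hev : (fun z => Pc c (u z)) =ᶠ[𝓝 x] u := by
      have : ∀ᶠ z in 𝓝 x, 1 / 64 < qs c (u z) := hcont.continuousAt.eventually_const_lt hx
      filter_upwards [this] with z hz
      exact hPc _ hz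
    have hDm : Dm (fun z => Pc c (u z)) x = Dm u x := by
      unfold Dm
      ext i j
      simp only [Matrix.of_apply]
      unfold pd
      have h2 : (fun y => Pc c (u y) i) =ᶠ[𝓝 x] fun y => u y i := by
        filter_upwards [hev] with z hz
        exact congrFun hz i
      rw [h2.fderiv_eq]
    rw [hDm, hPc _ hx]

theorem dform {n : ℕ} (hn : 2 ≤ n) {u : E n → E (n + 1)} {P : Bx n → Prop}
    {ch : Bx n → Finset (Bx n)} {rk : Bx n → ℕ} (h : Cells u P ch rk) {Q : Bx n} (hQ : P Q)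
    {d : E (n + 1) → ℝ} (hd : DegF u ch Q d) (ζ : E (n + 1) → ℝ) (hζ : ContDiff ℝ ∞ ζ)
    (h0 : ∀ y, qs (u Q.a) y ≤ 1 / 64 → ζ y = 0) (a : Fin (n + 1)) :
    ∫ x in Q.s, ζ (u x) * Jc (Dm u x) a = ∫ y, d y * pd ζ a y := by
  rw [← hd.form ζ hζ a]
  have h1 : ∫ x in Rg ch Q, ζ (Pc (u Q.a) (u x)) * Jc (Dm (fun z => Pc (u Q.a) (u z)) x) a =
      ∫ x in Rg ch Q, ζ (u x) * Jc (Dm u x) a := by
    congr 1
    funext x
    exact dform_point h.smooth (u Q.a) ζ h0 a x
  rw [h1]
  have hcont := dform_cont h.smooth hζ a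
  have hint : IntegrableOn (fun x => ζ (u x) * Jc (Dm u x) a) Q.s := by
    have h2 : IntegrableOn (fun x => ζ (u x) * Jc (Dm u x) a) (Set.Icc Q.a Q.b) :=
      hcont.integrableOn_Icc
    apply h2.mono_set
    intro x hx
    exact ⟨fun i => (hx i).1, fun i => (hx i).2.le⟩
  have hU : MeasurableSet (⋃ κ ∈ ch Q, κ.s) := Finset.measurableSet_biUnion _ fun κ _ => dform_meas κ
  have hRg : Rg ch Q = Q.s \ (⋃ κ ∈ ch Q, κ.s) := by
    ext x
    simp only [Rg, Set.mem_ofPred_eq, Set.mem_sdiff, Set.mem_iUnion, not_exists]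
  have hRgm : MeasurableSet (Rg ch Q) := by
    rw [hRg]
    exact (dform_meas Q).diff hU
  have hQs : Q.s = Rg ch Q ∪ ⋃ κ ∈ ch Q, κ.s := by
    rw [hRg]
    ext x
    constructor
    · intro hx
      by_cases hx2 : x ∈ ⋃ κ ∈ ch Q, κ.s
      · exact Or.inr hx2
      · exact Or.inl ⟨hx, hx2⟩
    · rintro (hx | hx)
      · exact hx.1
      · simp only [Set.mem_iUnion] at hx
        obtain ⟨κ, hκ, hx⟩ := hx
        exact h.chs Q hQ κ hκ hx
  have hdisj : Disjoint (Rg ch Q) (⋃ κ ∈ ch Q, κ.s) := by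
    rw [hRg]
    exact Set.disjoint_sdiff_left
  have hintR : IntegrableOn (fun x => ζ (u x) * Jc (Dm u x) a) (Rg ch Q) :=
    hint.mono_set fun x hx => hx.1
  have hintU : IntegrableOn (fun x => ζ (u x) * Jc (Dm u x) a) (⋃ κ ∈ ch Q, κ.s) := by
    apply hint.mono_set
    intro x hx
    simp only [Set.mem_iUnion] at hx
    obtain ⟨κ, hκ, hx⟩ := hx
    exact h.chs Q hQ κ hκ hx
  conv_lhs => rw [hQs]
  rw [setIntegral_union hdisj hU hintR hintU]
  congr 1
  rw [integral_biUnion_finset]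
  · intro κ _
    exact dform_meas κ
  · intro κ hκ κ' hκ' hne
    exact h.disj Q hQ κ hκ κ' hκ' hne
  · intro κ hκ
    exact hint.mono_set (h.chs Q hQ κ hκ)

end H930.HS.XDForm

namespace H930.HS

export XDForm (dform)

end H930.HS
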