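import Pool.Agent.Helper930.HS.Exp

set_option autoImplicit false

open MeasureTheory Metric Set Filter Topology
open scoped ENNReal NNReal ContDiff

namespace H930.HS.XHApx

open H930.BL



theorem H_approx {N : ℕ} {M : ℝ} {H : E N → ℝ} (hb : ∀ y, |H y| ≤ M)
    (hL : ∀ y z, |H y - H z| ≤ M * ‖y - z‖) :
    ∀ ε : ℝ, 0 < ε → ∃ G : E N → ℝ, ContDiff ℝ ∞ G ∧ (∀ y, |G y| ≤ M) ∧
      (∀ y a, |pd G a y| ≤ M) ∧ ∀ y, |G y - H y| ≤ ε := by
  intro ε hε
  have hM : 0 ≤ M := (abs_nonneg _).trans (hb 0)
  have hlip : LipschitzWith (Real.toNNReal M) H := by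
    refine LipschitzWith.of_dist_le_mul fun y z => ?_
    rw [Real.dist_eq, dist_eq_norm, Real.coe_toNNReal _ hM]
    exact hL y z
  have hc : Continuous H := hlip.continuous
  obtain ⟨δ, hδ, hδ'⟩ : ∃ δ : ℝ, 0 < δ ∧ M * δ ≤ ε := by
    refine ⟨ε / (M + 1), by positivity, ?_⟩
    rw [mul_div_assoc', div_le_iff₀ (by positivity)]
    nlinarith
  let φ : ContDiffBump (0 : E N) := ⟨δ / 2, δ, by positivity, by linarith⟩
  have hr0 : ∀ t, 0 ≤ φ.normed volume t := fun t => φ.nonneg_normed t
  have hri : Integrable (φ.normed (volume : Measure (E N))) := φ.integrable_normed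
  have hr1 : ∫ t, φ.normed volume t = 1 := φ.integral_normed
  have hrH : ∀ y, Integrable (fun t => φ.normed volume t * H (y - t)) := by
    intro y
    refine hri.mul_bdd (c := M) ?_ ?_
    · exact (hc.comp (continuous_const.sub continuous_id)).aestronglyMeasurable
    · exact Eventually.of_forall fun t => by simpa using hb (y - t)
  let G : E N → ℝ := fun y => ∫ t, φ.normed volume t * H (y - t)
  have hG : G = convolution (φ.normed volume) H (ContinuousLinearMap.lsmul ℝ ℝ) volume := by
    ext y; simp [G, convolution]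
  have hGs : ContDiff ℝ ∞ G := by
    rw [hG]
    exact φ.hasCompactSupport_normed.contDiff_convolution_left _ φ.contDiff_normed
      hc.locallyIntegrable
  have hGb : ∀ y, |G y| ≤ M := by
    intro y
    have h1 : ‖G y‖ ≤ ∫ t, φ.normed volume t * M := by
      refine norm_integral_le_of_norm_le (hri.mul_const M) (Eventually.of_forall fun t => ?_)
      rw [norm_mul, Real.norm_of_nonneg (hr0 t)]
      exact mul_le_mul_of_nonneg_left (hb _) (hr0 t)
    rw [integral_mul_const, hr1, one_mul] at h1
    exact h1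
  have hGL : LipschitzWith (Real.toNNReal M) G := by
    refine LipschitzWith.of_dist_le_mul fun y z => ?_
    rw [dist_eq_norm, dist_eq_norm, Real.coe_toNNReal _ hM]
    have h0 : G y - G z = ∫ t, (φ.normed volume t * H (y - t) - φ.normed volume t * H (z - t)) := by
      rw [integral_sub (hrH y) (hrH z)]
    have h1 : ‖G y - G z‖ ≤ ∫ t, φ.normed volume t * (M * ‖y - z‖) := by
      rw [h0]
      refine norm_integral_le_of_norm_le (hri.mul_const _) (Eventually.of_forall fun t => ?_)
      rw [← mul_sub, norm_mul, Real.norm_of_nonneg (hr0 t)]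
      refine mul_le_mul_of_nonneg_left ?_ (hr0 t)
      have := hL (y - t) (z - t)
      rwa [sub_sub_sub_cancel_right] at this
    rw [integral_mul_const, hr1, one_mul] at h1
    exact h1
  refine ⟨G, hGs, hGb, ?_, ?_⟩
  · intro y a
    have h1 : ‖fderiv ℝ G y‖ ≤ M := by
      have := norm_fderiv_le_of_lipschitz ℝ hGL (x₀ := y)
      rwa [Real.coe_toNNReal _ hM] at this
    have h2 := (fderiv ℝ G y).le_opNorm (Pi.single a (1 : ℝ))
    have h3 : ‖(Pi.single a (1 : ℝ) : E N)‖ = 1 := by
      rw [Pi.norm_single]; simp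
    rw [h3, mul_one] at h2
    exact h2.trans h1
  · intro y
    have h1 := φ.dist_normed_convolution_le (μ := volume) (g := H) (x₀ := y) (ε := ε)
      hc.aestronglyMeasurable (fun x hx => by
        rw [Real.dist_eq]
        refine (hL x y).trans ?_
        have : ‖x - y‖ ≤ δ := by
          rw [← dist_eq_norm]
          exact (mem_ball.1 hx).le
        exact (mul_le_mul_of_nonneg_left this hM).trans hδ')
    rw [← hG, Real.dist_eq] at h1
    exact h1

end H930.HS.XHApx

namespace H930.HS

export XHApx (H_approx)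

end H930.HS
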