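import Pool.Agent.Helper930.HS.IndS
import Pool.Agent.Helper930.HS.DForm
import Pool.Agent.Helper930.HS.TLe
import Pool.Agent.Helper930.HS.HApx
import Pool.Agent.Helper930.HS.PcDer

set_option autoImplicit false

open MeasureTheory Metric Set Filter Topology
open scoped ENNReal NNReal ContDiff

namespace H930.HS.XTest1

open H930.BL



theorem test1_cl {n : ℕ} (Q : Bx n) : Q.cl = Icc Q.a Q.b := by
  ext x
  constructor
  · intro h
    exact ⟨fun i => (h i).1, fun i => (h i).2⟩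
  · intro h i
    exact ⟨h.1 i, h.2 i⟩

theorem test1_compact {n : ℕ} (Q : Bx n) : IsCompact Q.cl := by
  rw [test1_cl]
  exact isCompact_Icc

theorem test1_s_sub {n : ℕ} (Q : Bx n) : Q.s ⊆ Q.cl := fun _ hx i => ⟨(hx i).1, (hx i).2.le⟩

theorem test1_s_meas {n : ℕ} (Q : Bx n) : MeasurableSet Q.s := by
  have : Q.s = Set.pi univ (fun i => Ico (Q.a i) (Q.b i)) := by
    ext x
    simp [Bx.s]
  rw [this]
  exact MeasurableSet.univ_pi fun i => measurableSet_Ico

theorem test1_intOn {n : ℕ} (Q : Bx n) {f : E n → ℝ} (hf : Continuous f) : IntegrableOn f Q.s :=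
  (hf.continuousOn.integrableOn_compact (test1_compact Q)).mono_set (test1_s_sub Q)

theorem test1_fn {m n : ℕ} (M : Matrix (Fin m) (Fin n) ℝ) (a : Fin m) (b : Fin n) :
    |M a b| ≤ fn M := by
  unfold fn
  apply Real.abs_le_sqrt
  calc M a b ^ 2 ≤ ∑ b, M a b ^ 2 :=
        Finset.single_le_sum (f := fun b => M a b ^ 2) (fun _ _ => sq_nonneg _) (Finset.mem_univ b)
    _ ≤ _ := Finset.single_le_sum (f := fun a => ∑ b, M a b ^ 2)
        (fun _ _ => Finset.sum_nonneg fun _ _ => sq_nonneg _) (Finset.mem_univ a)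

theorem test1_Dm_cont {n m : ℕ} {u : E n → E m} (hu : ContDiff ℝ ∞ u) :
    Continuous (fun x => Dm u x) := by
  apply continuous_matrix
  intro i j
  exact continuous_pd (((contDiff_pi.1 hu) i).of_le (by simp)) j

theorem test1_J_cont {n : ℕ} {u : E n → E (n + 1)} (hu : ContDiff ℝ ∞ u) (i : Fin (n + 1)) :
    Continuous (fun x => Jc (Dm u x) i) := by
  unfold Jc
  exact continuous_const.mul (((test1_Dm_cont hu).matrix_submatrix _ _).matrix_det)

theorem test1_qs_cont {m : ℕ} (c : E m) : Continuous (qs c) := by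
  unfold qs
  fun_prop

theorem test1_pd_zero {m : ℕ} (c : E m) (ζ : E m → ℝ) (hζ : ContDiff ℝ ∞ ζ) (s : ℝ) (hs : 0 < s)
    (h0 : ∀ y, qs c y ≤ s ^ 2 → ζ y = 0) (i : Fin m) (y : E m) (hy : qs c y ≤ s ^ 2) :
    pd ζ i y = 0 := by
  have h1 : ∀ z, qs c z < s ^ 2 → pd ζ i z = 0 := by
    intro z hz
    have ho : IsOpen {z | qs c z < s ^ 2} := isOpen_lt (test1_qs_cont c) continuous_const
    have he : ζ =ᶠ[𝓝 z] fun _ => (0 : ℝ) := by
      filter_upwards [ho.mem_nhds hz] with w hw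
      exact h0 w (le_of_lt hw)
    unfold pd
    rw [he.fderiv_eq]
    simp
  have hc : Continuous (fun t : ℝ => pd ζ i (c + t • (y - c))) :=
    (continuous_pd (hζ.of_le (by simp)) i).comp (by fun_prop)
  have hcl : IsClosed {t : ℝ | pd ζ i (c + t • (y - c)) = 0} := isClosed_eq hc continuous_const
  have hsub : Ico (0 : ℝ) 1 ⊆ {t : ℝ | pd ζ i (c + t • (y - c)) = 0} := by
    intro t ht
    apply h1
    have e1 : qs c (c + t • (y - c)) = t ^ 2 * qs c y := by
      unfold qs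
      rw [Finset.mul_sum]
      apply Finset.sum_congr rfl
      intro a _
      simp only [Pi.add_apply, Pi.smul_apply, Pi.sub_apply, smul_eq_mul]
      ring
    have e2 : t ^ 2 < 1 := by
      have := ht.1
      have := ht.2
      nlinarith
    have e3 : 0 < s ^ 2 := by positivity
    rw [e1]
    nlinarith [sq_nonneg t]
  have h2 : (1 : ℝ) ∈ closure (Ico (0 : ℝ) 1) := by
    rw [closure_Ico (by norm_num)]
    simp
  have h3 := closure_minimal hsub hcl h2
  have e4 : c + (1 : ℝ) • (y - c) = y := by rw [one_smul]; abel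
  simp only [Set.mem_ofPred_eq, e4] at h3
  exact h3

theorem test1_G {n : ℕ} (hn : 2 ≤ n) {M : ℝ} (hM : 0 ≤ M) {B : Set (E n)}
    {H : E (n + 1) → ℝ} {u : E n → E (n + 1)} {ν : E n → ℝ} {P : Bx n → Prop}
    {ch : Bx n → Finset (Bx n)} {rk : Bx n → ℕ} {d : Bx n → E (n + 1) → ℝ} {S : Bx n → ℝ}
    (h : Sys M B H u ν P ch rk d S) (Q : Bx n) (hQ : P Q) (X : E (n + 1) → E (n + 1)) (A : ℝ)
    (hX : FB A X) (s : ℝ) (hs : 1 / 8 ≤ s) (h0 : ∀ y, qs (u Q.a) y ≤ s ^ 2 → ∀ a, X y a = 0)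
    (G : E (n + 1) → ℝ) (hG : ContDiff ℝ ∞ G) (hG1 : ∀ y, |G y| ≤ M) (hG2 : ∀ y a, |pd G a y| ≤ M) :
    |∫ x in Q.s, G (u x) * ∑ i, Jc (Dm u x) i * X (u x) i| ≤
      ((n + 1 : ℝ) * (2 * M * A)) * (Ds u ch d Q s + S Q) := by
  obtain ⟨hX1, hX2, hX3⟩ := hX
  have hA : 0 ≤ A := (abs_nonneg _).trans (hX2 0 0)
  have hXi : ∀ i, ContDiff ℝ ∞ (fun y => X y i) := contDiff_pi.1 hX1
  have hu : ContDiff ℝ ∞ u := h.cells.smooth
  have hcu : Continuous u := hu.continuous
  have hs64 : (1 : ℝ) / 64 ≤ s ^ 2 := by nlinarith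
  have hd := h.deg Q hQ
  let ζ : Fin (n + 1) → E (n + 1) → ℝ := fun i y => G y * X y i
  have hζ : ∀ i, ContDiff ℝ ∞ (ζ i) := fun i => hG.mul (hXi i)
  have hζ0 : ∀ i y, qs (u Q.a) y ≤ s ^ 2 → ζ i y = 0 := by
    intro i y hy
    simp only [ζ]
    rw [h0 y hy i, mul_zero]
  have hform : ∀ i, ∫ x in Q.s, ζ i (u x) * Jc (Dm u x) i = ∫ y, d Q y * pd (ζ i) i y :=
    fun i => dform hn h.cells hQ hd (ζ i) (hζ i) (fun y hy => hζ0 i y (hy.trans hs64)) i
  -- bounds
  have hpd : ∀ i y, |pd (ζ i) i y| ≤ 2 * M * A := by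
    intro i y
    have e1 : pd (ζ i) i y = G y * pd (fun y => X y i) i y + X y i * pd G i y :=
      pd_mul (hG.differentiable (by simp) y) ((hXi i).differentiable (by simp) y) i
    rw [e1]
    refine (abs_add_le _ _).trans ?_
    rw [abs_mul, abs_mul]
    have b1 : |G y| * |pd (fun y => X y i) i y| ≤ M * A :=
      mul_le_mul (hG1 y) (hX3 y i i) (abs_nonneg _) hM
    have b2 : |X y i| * |pd G i y| ≤ A * M :=
      mul_le_mul (hX2 y i) (hG2 y i) (abs_nonneg _) hA
    linarith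
  have hpd0 : ∀ i y, qs (u Q.a) y ≤ s ^ 2 → pd (ζ i) i y = 0 := fun i y hy =>
    test1_pd_zero (u Q.a) (ζ i) (hζ i) s (by linarith) (hζ0 i) i y hy
  have hpdc : ∀ i, Continuous (pd (ζ i) i) := fun i => continuous_pd ((hζ i).of_le (by simp)) i
  have hT := (T_le h Q hQ).2.2 s
  have hset : MeasurableSet {y | s ^ 2 < qs (u Q.a) y} :=
    (isOpen_lt continuous_const (test1_qs_cont _)).measurableSet
  have hbi : ∀ i, |∫ y, d Q y * pd (ζ i) i y| ≤ 2 * M * A * (Ds u ch d Q s + S Q) := by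
    intro i
    have hle : |∫ y, d Q y * pd (ζ i) i y| ≤
        ∫ y, {y | s ^ 2 < qs (u Q.a) y}.indicator (fun y => |d Q y| * (2 * M * A)) y := by
      rw [← Real.norm_eq_abs]
      apply norm_integral_le_of_norm_le
      · exact (hd.int.abs.mul_const _).indicator hset
      · refine Eventually.of_forall fun y => ?_
        by_cases hy : s ^ 2 < qs (u Q.a) y
        · rw [Set.indicator_of_mem (show y ∈ {y | s ^ 2 < qs (u Q.a) y} from hy), norm_mul,
            Real.norm_eq_abs, Real.norm_eq_abs]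
          exact mul_le_mul_of_nonneg_left (hpd i y) (abs_nonneg _)
        · rw [Set.indicator_of_notMem (show y ∉ {y | s ^ 2 < qs (u Q.a) y} from hy),
            hpd0 i y (not_lt.1 hy), mul_zero, norm_zero]
    rw [integral_indicator hset, integral_mul_const] at hle
    have h2 : 0 ≤ 2 * M * A := by positivity
    calc _ ≤ _ := hle
      _ = 2 * M * A * ∫ y in {y | s ^ 2 < qs (u Q.a) y}, |d Q y| := mul_comm _ _
      _ ≤ _ := mul_le_mul_of_nonneg_left hT h2
  have hsum : ∫ x in Q.s, G (u x) * ∑ i, Jc (Dm u x) i * X (u x) i =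
      ∑ i, ∫ y, d Q y * pd (ζ i) i y := by
    rw [← Finset.sum_congr rfl fun i _ => hform i, ← integral_finsetSum]
    · apply setIntegral_congr_fun (test1_s_meas Q)
      intro x _
      simp only [ζ]
      rw [Finset.mul_sum]
      apply Finset.sum_congr rfl
      intro i _
      ring
    · intro i _
      apply test1_intOn
      exact ((hζ i).continuous.comp hcu).mul (test1_J_cont hu i)
  rw [hsum]
  calc |∑ i, ∫ y, d Q y * pd (ζ i) i y| ≤ ∑ i, |∫ y, d Q y * pd (ζ i) i y| :=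
        Finset.abs_sum_le_sum_abs _ _
    _ ≤ ∑ _i : Fin (n + 1), 2 * M * A * (Ds u ch d Q s + S Q) :=
        Finset.sum_le_sum fun i _ => hbi i
    _ = _ := by
        rw [Finset.sum_const, Finset.card_univ, Fintype.card_fin, nsmul_eq_mul]
        push_cast
        ring

theorem test1_H {n : ℕ} (hn : 2 ≤ n) {M : ℝ} (hM : 0 ≤ M) {B : Set (E n)}
    {H : E (n + 1) → ℝ} {u : E n → E (n + 1)} {ν : E n → ℝ} {P : Bx n → Prop}
    {ch : Bx n → Finset (Bx n)} {rk : Bx n → ℕ} {d : Bx n → E (n + 1) → ℝ} {S : Bx n → ℝ}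
    (h : Sys M B H u ν P ch rk d S) (Q : Bx n) (hQ : P Q) (X : E (n + 1) → E (n + 1)) (A : ℝ)
    (hX : FB A X) (s : ℝ) (hs : 1 / 8 ≤ s) (h0 : ∀ y, qs (u Q.a) y ≤ s ^ 2 → ∀ a, X y a = 0) :
    |∫ x in Q.s, H (u x) * ∑ i, Jc (Dm u x) i * X (u x) i| ≤
      ((n + 1 : ℝ) * (2 * M * A)) * (Ds u ch d Q s + S Q) := by
  have hX1 := hX.1
  have hXi : ∀ i, ContDiff ℝ ∞ (fun y => X y i) := contDiff_pi.1 hX1
  have hu : ContDiff ℝ ∞ u := h.cells.smooth
  have hcu : Continuous u := hu.continuous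
  have hHc : Continuous H := by
    have : LipschitzWith (Real.toNNReal M) H := by
      apply LipschitzWith.of_dist_le_mul
      intro y z
      rw [Real.dist_eq, dist_eq_norm, Real.coe_toNNReal M hM]
      exact h.HL y z
    exact this.continuous
  have hJX : Continuous (fun x => ∑ i, Jc (Dm u x) i * X (u x) i) :=
    continuous_finsetSum _ fun i _ => (test1_J_cont hu i).mul ((hXi i).continuous.comp hcu)
  set K := ∫ x in Q.s, |∑ i, Jc (Dm u x) i * X (u x) i| with hK
  have hK0 : 0 ≤ K := integral_nonneg fun _ => abs_nonneg _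
  apply le_of_forall_pos_le_add
  intro ε hε
  obtain ⟨G, hG, hG1, hG2, hG3⟩ := H_approx h.Hb h.HL (ε / (K + 1)) (by positivity)
  have h1 := test1_G hn hM h Q hQ X A hX s hs h0 G hG hG1 hG2
  have h2 : |(∫ x in Q.s, H (u x) * ∑ i, Jc (Dm u x) i * X (u x) i) -
      ∫ x in Q.s, G (u x) * ∑ i, Jc (Dm u x) i * X (u x) i| ≤ ε / (K + 1) * K := by
    have i1 : IntegrableOn (fun x => H (u x) * ∑ i, Jc (Dm u x) i * X (u x) i) Q.s :=
      test1_intOn Q ((hHc.comp hcu).mul hJX)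
    have i2 : IntegrableOn (fun x => G (u x) * ∑ i, Jc (Dm u x) i * X (u x) i) Q.s :=
      test1_intOn Q ((hG.continuous.comp hcu).mul hJX)
    rw [← integral_sub i1 i2, ← Real.norm_eq_abs, hK, ← integral_const_mul]
    apply norm_integral_le_of_norm_le
    · exact (test1_intOn Q hJX.abs).const_mul _
    · refine Eventually.of_forall fun x => ?_
      rw [← sub_mul, norm_mul, Real.norm_eq_abs, Real.norm_eq_abs, abs_sub_comm]
      exact mul_le_mul_of_nonneg_right (hG3 (u x)) (abs_nonneg _)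
  have h3 : ε / (K + 1) * K ≤ ε := by
    rw [div_mul_eq_mul_div, div_le_iff₀ (by positivity)]
    nlinarith
  have h4 := abs_sub_abs_le_abs_sub
    (∫ x in Q.s, H (u x) * ∑ i, Jc (Dm u x) i * X (u x) i)
    (∫ x in Q.s, G (u x) * ∑ i, Jc (Dm u x) i * X (u x) i)
  linarith

theorem test1_main {n : ℕ} (hn : 2 ≤ n) {M : ℝ} (hM : 0 ≤ M) {B : Set (E n)}
    {H : E (n + 1) → ℝ} {u : E n → E (n + 1)} {ν : E n → ℝ} {P : Bx n → Prop}
    {ch : Bx n → Finset (Bx n)} {rk : Bx n → ℕ} {d : Bx n → E (n + 1) → ℝ} {S : Bx n → ℝ}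
    (h : Sys M B H u ν P ch rk d S) (Q : Bx n) (hQ : P Q) (X : E (n + 1) → E (n + 1)) (A : ℝ)
    (hX : FB A X) (s : ℝ) (hs : 1 / 8 ≤ s) (h0 : ∀ y, qs (u Q.a) y ≤ s ^ 2 → ∀ a, X y a = 0) :
    |∫ x in Q.s, ad u X x| ≤ (n + 1 : ℝ) * A * (∫ x in Q.s, ν x) +
      ((n + 1 : ℝ) * (2 * M * A)) * (Ds u ch d Q s + S Q) := by
  have hH := test1_H hn hM h Q hQ X A hX s hs h0
  obtain ⟨hX1, hX2, hX3⟩ := hX
  have hA : 0 ≤ A := (abs_nonneg _).trans (hX2 0 0)
  have hXi : ∀ i, ContDiff ℝ ∞ (fun y => X y i) := contDiff_pi.1 hX1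
  have hu : ContDiff ℝ ∞ u := h.cells.smooth
  have hs64 : (1 : ℝ) / 64 ≤ s ^ 2 := by nlinarith
  have hind : ∀ i, ContDiff ℝ ∞ (Q.s.indicator (fun x => X (u x) i)) ∧
      HasCompactSupport (Q.s.indicator (fun x => X (u x) i)) ∧
      tsupport (Q.s.indicator (fun x => X (u x) i)) ⊆ Q.cl ∧
      ∀ x j, pd (Q.s.indicator fun x => X (u x) i) j x =
        Q.s.indicator (fun x => ∑ b, pd (fun y => X y i) b (u x) * Dm u x b j) x := fun i =>
    ind_smooth hn h.cells hQ (fun y => X y i) (hXi i) (fun y hy => h0 y (hy.trans hs64) i)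
  let φ : E n → E (n + 1) := fun x i => Q.s.indicator (fun x => X (u x) i) x
  have hφ : ContDiff ℝ ∞ φ := contDiff_pi.2 fun i => (hind i).1
  have hφ0 : ∀ x, x ∉ Q.s → φ x = 0 := by
    intro x hx
    funext i
    simp only [φ]
    rw [Set.indicator_of_notMem hx]
    rfl
  have hφcs : HasCompactSupport φ := by
    apply HasCompactSupport.intro (test1_compact Q)
    intro x hx
    exact hφ0 x fun hx' => hx (test1_s_sub Q hx')
  have hφts : tsupport φ ⊆ B := by
    refine Subset.trans ?_ (h.sub Q hQ)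
    apply closure_minimal _ (test1_compact Q).isClosed
    intro x hx
    by_contra hcon
    exact hx (hφ0 x fun hx' => hcon (test1_s_sub Q hx'))
  have hDφ : ∀ x i j, Dm φ x i j =
      Q.s.indicator (fun x => ∑ b, pd (fun y => X y i) b (u x) * Dm u x b j) x := fun x i j =>
    (hind i).2.2.2 x j
  have hn1 : (1 : ℝ) ≤ n + 1 := by
    have : (0 : ℝ) ≤ n := Nat.cast_nonneg n
    linarith
  have hapx := h.apx φ hφ hφcs hφts Q.s (test1_s_meas Q) ((test1_s_sub Q).trans (h.sub Q hQ))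
    (fun x hx => ⟨hφ0 x hx, fun i j => by rw [hDφ, Set.indicator_of_notMem hx]⟩)
    ((n + 1 : ℝ) * A) (by positivity)
    (fun x i => by
      simp only [φ]
      by_cases hx : x ∈ Q.s
      · rw [Set.indicator_of_mem hx]
        have := hX2 (u x) i
        nlinarith
      · rw [Set.indicator_of_notMem hx, abs_zero]
        positivity)
    (fun x i j => by
      have hfn : 0 ≤ fn (Dm u x) := Real.sqrt_nonneg _
      rw [hDφ]
      by_cases hx : x ∈ Q.s
      · rw [Set.indicator_of_mem hx]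
        calc |∑ b, pd (fun y => X y i) b (u x) * Dm u x b j|
            ≤ ∑ b, |pd (fun y => X y i) b (u x) * Dm u x b j| := Finset.abs_sum_le_sum_abs _ _
          _ ≤ ∑ _b : Fin (n + 1), A * fn (Dm u x) := by
              apply Finset.sum_le_sum
              intro b _
              rw [abs_mul]
              exact mul_le_mul (hX3 _ _ _) (test1_fn _ _ _) (abs_nonneg _) hA
          _ = _ := by
              rw [Finset.sum_const, Finset.card_univ, Fintype.card_fin, nsmul_eq_mul]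
              push_cast
              ring
      · rw [Set.indicator_of_notMem hx, abs_zero]
        positivity)
  have e1 : (∫ x, fn (Dm u x) ^ (n - 2) * ∑ i, ∑ j, Dm u x i j * Dm φ x i j) =
      ∫ x in Q.s, ad u X x := by
    rw [← integral_indicator (test1_s_meas Q)]
    congr 1
    funext x
    by_cases hx : x ∈ Q.s
    · rw [Set.indicator_of_mem hx]
      unfold ad
      congr 1
      apply Finset.sum_congr rfl
      intro i _
      have e2 : ∀ j, Dm u x i j * Dm φ x i j =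
          ∑ b, pd (fun y => X y i) b (u x) * (Dm u x i j * Dm u x b j) := by
        intro j
        rw [hDφ, Set.indicator_of_mem hx, Finset.mul_sum]
        apply Finset.sum_congr rfl
        intro b _
        ring
      rw [Finset.sum_congr rfl fun j _ => e2 j, Finset.sum_comm]
      apply Finset.sum_congr rfl
      intro b _
      rw [Finset.mul_sum]
    · rw [Set.indicator_of_notMem hx]
      have e2 : ∀ i j, Dm u x i j * Dm φ x i j = 0 := by
        intro i j
        rw [hDφ, Set.indicator_of_notMem hx, mul_zero]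
      simp only [e2, Finset.sum_const_zero, mul_zero]
  have e3 : (∫ x, H (u x) * ∑ i, Jc (Dm u x) i * φ x i) =
      ∫ x in Q.s, H (u x) * ∑ i, Jc (Dm u x) i * X (u x) i := by
    rw [← integral_indicator (test1_s_meas Q)]
    congr 1
    funext x
    by_cases hx : x ∈ Q.s
    · rw [Set.indicator_of_mem hx]
      simp only [φ]
      simp only [Set.indicator_of_mem hx]
    · rw [Set.indicator_of_notMem hx, hφ0 x hx]
      simp
  rw [e1, e3] at hapx
  have h4 := abs_sub_abs_le_abs_sub (∫ x in Q.s, ad u X x)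
    (∫ x in Q.s, H (u x) * ∑ i, Jc (Dm u x) i * X (u x) i)
  linarith

theorem test1 {n : ℕ} (hn : 2 ≤ n) (M : ℝ) : ∃ C : ℝ, 0 < C ∧ ∀ {B : Set (E n)}
    {H : E (n + 1) → ℝ} {u : E n → E (n + 1)} {ν : E n → ℝ} {P : Bx n → Prop}
    {ch : Bx n → Finset (Bx n)} {rk : Bx n → ℕ} {d : Bx n → E (n + 1) → ℝ} {S : Bx n → ℝ},
    Sys M B H u ν P ch rk d S → ∀ Q, P Q → ∀ (X : E (n + 1) → E (n + 1)) (A : ℝ), FB A X →
    ∀ s : ℝ, 1 / 8 ≤ s → (∀ y, qs (u Q.a) y ≤ s ^ 2 → ∀ a, X y a = 0) →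
    |∫ x in Q.s, ad u X x| ≤ C * A * (Ds u ch d Q s + S Q + ∫ x in Q.s, ν x) := by
  refine ⟨(n + 1 : ℝ) * (1 + 2 * |M|), by positivity, ?_⟩
  intro B H u ν P ch rk d S h Q hQ X A hX s hs h0
  have hM : 0 ≤ M := (abs_nonneg _).trans (h.Hb 0)
  have hA : 0 ≤ A := (abs_nonneg _).trans (hX.2.1 0 0)
  have h1 := test1_main hn hM h Q hQ X A hX s hs h0
  have hD : 0 ≤ Ds u ch d Q s := integral_nonneg fun _ => abs_nonneg _
  have hS : 0 ≤ S Q := (T_le h Q hQ).1
  have hν : 0 ≤ ∫ x in Q.s, ν x := integral_nonneg fun x => h.nn x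
  rw [abs_of_nonneg hM]
  refine h1.trans ?_
  have p1 : 0 ≤ (n + 1 : ℝ) * A * (Ds u ch d Q s + S Q) := by positivity
  have p2 : 0 ≤ (n + 1 : ℝ) * A * (2 * M) * (∫ x in Q.s, ν x) := by positivity
  nlinarith

end H930.HS.XTest1

namespace H930.HS

export XTest1 (test1)

end H930.HS
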