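import Pool.Agent.Helper930.HS.RadF
import Pool.Agent.Helper930.HS.Test1

set_option autoImplicit false

open MeasureTheory Metric Set Filter Topology
open scoped ENNReal NNReal ContDiff

namespace H930.HS.XFar1

open H930.BL



lemma far1_aux_ccomp {n m : ℕ} {u : E n → E m} (hu : ContDiff ℝ ∞ u) (i : Fin m) :
    ContDiff ℝ 1 (fun y => u y i) :=
  ((contDiff_pi.1 hu) i).of_le (by exact_mod_cast le_top)

lemma far1_aux_Dm {n m : ℕ} {u : E n → E m} (hu : ContDiff ℝ ∞ u) (i : Fin m) (j : Fin n) :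
    Continuous fun x => Dm u x i j :=
  continuous_pd (far1_aux_ccomp hu i) j

lemma far1_aux_fn {n m : ℕ} {u : E n → E m} (hu : ContDiff ℝ ∞ u) :
    Continuous fun x => fn (Dm u x) :=
  Real.continuous_sqrt.comp (continuous_finsetSum _ fun a _ => continuous_finsetSum _ fun b _ =>
    (far1_aux_Dm hu a b).pow 2)

lemma far1_aux_qs {n m : ℕ} {u : E n → E m} (hu : ContDiff ℝ ∞ u) (c : E m) :
    Continuous fun x => qs c (u x) :=
  continuous_finsetSum _ fun a _ => ((far1_aux_ccomp hu a).continuous.sub continuous_const).pow 2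

lemma far1_aux_ad {n : ℕ} {u : E n → E (n + 1)} {X : E (n + 1) → E (n + 1)}
    (hu : ContDiff ℝ ∞ u) (hX : ContDiff ℝ ∞ X) : Continuous (ad u X) := by
  unfold ad
  refine ((far1_aux_fn hu).pow _).mul (continuous_finsetSum _ fun a _ => continuous_finsetSum _
    fun b _ => Continuous.mul ?_ (continuous_finsetSum _ fun j _ =>
      (far1_aux_Dm hu a j).mul (far1_aux_Dm hu b j)))
  exact (continuous_pd (far1_aux_ccomp hX a) b).comp hu.continuous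

lemma far1_aux_qs_nonneg {m : ℕ} (c y : E m) : 0 ≤ qs c y :=
  Finset.sum_nonneg fun _ _ => sq_nonneg _

lemma far1_aux_fn_nonneg {m n : ℕ} (M : Matrix (Fin m) (Fin n) ℝ) : 0 ≤ fn M :=
  Real.sqrt_nonneg _

lemma far1_aux_fn_sq {m n : ℕ} (M : Matrix (Fin m) (Fin n) ℝ) :
    ∑ j, ∑ a, M a j ^ 2 = fn M ^ 2 := by
  have h0 : (0 : ℝ) ≤ ∑ a, ∑ b, M a b ^ 2 :=
    Finset.sum_nonneg fun _ _ => Finset.sum_nonneg fun _ _ => sq_nonneg _
  unfold fn
  rw [Real.sq_sqrt h0]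
  exact Finset.sum_comm

lemma far1_aux_ms {n : ℕ} (Q : Bx n) : MeasurableSet Q.s := by
  have : Q.s = Set.pi univ fun i => Ico (Q.a i) (Q.b i) := by
    ext x
    simp [Bx.s, Set.mem_pi]
  rw [this]
  exact MeasurableSet.univ_pi fun i => measurableSet_Ico

lemma far1_aux_sub {n : ℕ} (Q : Bx n) : Q.s ⊆ Icc Q.a Q.b := by
  intro x hx
  exact ⟨fun i => (hx i).1, fun i => (hx i).2.le⟩

lemma far1_aux_int {n : ℕ} (Q : Bx n) {g : E n → ℝ} (hg : Continuous g) :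
    IntegrableOn g Q.s volume :=
  (hg.continuousOn.integrableOn_compact isCompact_Icc).mono_set (far1_aux_sub Q)

lemma far1_aux_ad_eq {n : ℕ} (u : E n → E (n + 1)) (X : E (n + 1) → E (n + 1)) (x : E n) :
    ad u X x = fn (Dm u x) ^ (n - 2) * ∑ j, ∑ a, ∑ b, pd (fun z => X z a) b (u x) *
      (Dm u x a j * Dm u x b j) := by
  unfold ad
  congr 1
  have h1 : ∀ a : Fin (n + 1), ∀ b : Fin (n + 1),
      pd (fun y => X y a) b (u x) * ∑ j, Dm u x a j * Dm u x b j =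
        ∑ j, pd (fun y => X y a) b (u x) * (Dm u x a j * Dm u x b j) := fun a b => by
    rw [Finset.mul_sum]
  simp only [h1]
  have h2 : ∀ a : Fin (n + 1),
      ∑ b, ∑ j, pd (fun y => X y a) b (u x) * (Dm u x a j * Dm u x b j) =
        ∑ j, ∑ b, pd (fun y => X y a) b (u x) * (Dm u x a j * Dm u x b j) := fun a =>
    Finset.sum_comm
  simp only [h2]
  exact Finset.sum_comm

theorem far1 {n : ℕ} (hn : 2 ≤ n) (M : ℝ) : ∃ C : ℝ, 0 < C ∧ ∀ {B : Set (E n)}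
    {H : E (n + 1) → ℝ} {u : E n → E (n + 1)} {ν : E n → ℝ} {P : Bx n → Prop}
    {ch : Bx n → Finset (Bx n)} {rk : Bx n → ℕ} {d : Bx n → E (n + 1) → ℝ} {S : Bx n → ℝ},
    Sys M B H u ν P ch rk d S → ∀ Q, P Q → ∀ s h : ℝ, 1 / 8 ≤ s → s ≤ 1 → 0 < h → h ≤ 1 →
    ∫ x in {x | x ∈ Q.s ∧ (s + h) ^ 2 ≤ qs (u Q.a) (u x)},
      ((1 + qs (u Q.a) (u x)) ^ 2)⁻¹ * fn (Dm u x) ^ n ≤
        C / h * (Ds u ch d Q s + S Q + ∫ x in Q.s, ν x) := by
  obtain ⟨C1, hC1, hrad⟩ := rad_field (m := n + 1)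
  obtain ⟨C2, hC2, htest⟩ := test1 hn M
  refine ⟨C2 * C1, mul_pos hC2 hC1, ?_⟩
  intro B H u ν P ch rk d S hsys Q hQ s h hs1 hs2 hh1 hh2
  obtain ⟨X, hX1, hX2, hX3, hX4⟩ := hrad (u Q.a) s h hs1 hs2 hh1 hh2
  have ht := htest hsys Q hQ X (C1 / h) hX1 s hs1 hX2
  have hu := hsys.cells.smooth
  have hXs := hX1.1
  have had := far1_aux_ad hu hXs
  have hqs := far1_aux_qs hu (u Q.a)
  -- pointwise bounds
  have hpos : ∀ x, 0 ≤ ad u X x := by
    intro x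
    rw [far1_aux_ad_eq]
    apply mul_nonneg (pow_nonneg (far1_aux_fn_nonneg _) _)
    apply Finset.sum_nonneg
    intro j _
    exact hX3 (u x) (fun a => Dm u x a j)
  have hlow : ∀ x, (s + h) ^ 2 ≤ qs (u Q.a) (u x) →
      ((1 + qs (u Q.a) (u x)) ^ 2)⁻¹ * fn (Dm u x) ^ n ≤ ad u X x := by
    intro x hx
    rw [far1_aux_ad_eq]
    have h1 : ∀ j, ((1 + qs (u Q.a) (u x)) ^ 2)⁻¹ * ∑ a, Dm u x a j ^ 2 ≤
        ∑ a, ∑ b, pd (fun z => X z a) b (u x) * (Dm u x a j * Dm u x b j) := fun j =>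
      hX4 (u x) (fun a => Dm u x a j) hx
    have h2 : fn (Dm u x) ^ n = fn (Dm u x) ^ (n - 2) * ∑ j, ∑ a, Dm u x a j ^ 2 := by
      have e1 : ∑ j, ∑ a, Dm u x a j ^ 2 = fn (Dm u x) ^ 2 := far1_aux_fn_sq (Dm u x)
      rw [e1, ← pow_add]
      congr 1
      omega
    rw [h2]
    have h3 : ((1 + qs (u Q.a) (u x)) ^ 2)⁻¹ * (fn (Dm u x) ^ (n - 2) * ∑ j, ∑ a, Dm u x a j ^ 2) =
        fn (Dm u x) ^ (n - 2) * ∑ j, ((1 + qs (u Q.a) (u x)) ^ 2)⁻¹ * ∑ a, Dm u x a j ^ 2 := by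
      rw [← Finset.mul_sum]
      ring
    rw [h3]
    apply mul_le_mul_of_nonneg_left _ (pow_nonneg (far1_aux_fn_nonneg _) _)
    exact Finset.sum_le_sum fun j _ => h1 j
  have hms : MeasurableSet {x | x ∈ Q.s ∧ (s + h) ^ 2 ≤ qs (u Q.a) (u x)} :=
    (far1_aux_ms Q).inter (measurableSet_le measurable_const hqs.measurable)
  have hsub : {x | x ∈ Q.s ∧ (s + h) ^ 2 ≤ qs (u Q.a) (u x)} ⊆ Q.s := fun x hx => hx.1
  have hGc : Continuous fun x => ((1 + qs (u Q.a) (u x)) ^ 2)⁻¹ * fn (Dm u x) ^ n := by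
    refine Continuous.mul (Continuous.inv₀ ((continuous_const.add hqs).pow 2) ?_)
      ((far1_aux_fn hu).pow n)
    intro x
    have := far1_aux_qs_nonneg (u Q.a) (u x)
    positivity
  have i1 : ∫ x in {x | x ∈ Q.s ∧ (s + h) ^ 2 ≤ qs (u Q.a) (u x)},
      ((1 + qs (u Q.a) (u x)) ^ 2)⁻¹ * fn (Dm u x) ^ n ≤
      ∫ x in {x | x ∈ Q.s ∧ (s + h) ^ 2 ≤ qs (u Q.a) (u x)}, ad u X x := by
    apply setIntegral_mono_on ((far1_aux_int Q hGc).mono_set hsub)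
      ((far1_aux_int Q had).mono_set hsub) hms
    intro x hx
    exact hlow x hx.2
  have i2 : ∫ x in {x | x ∈ Q.s ∧ (s + h) ^ 2 ≤ qs (u Q.a) (u x)}, ad u X x ≤
      ∫ x in Q.s, ad u X x := by
    apply setIntegral_mono_set (far1_aux_int Q had)
    · exact Filter.Eventually.of_forall fun x => hpos x
    · exact hsub.eventuallyLE
  have i3 := (le_abs_self _).trans ht
  calc _ ≤ _ := i1
    _ ≤ _ := i2
    _ ≤ _ := i3
    _ = _ := by ring

end H930.HS.XFar1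

namespace H930.HS

export XFar1 (far1)

end H930.HS
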