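import Pool.Agent.Helper930.HS.IsoQ
import Pool.Agent.Helper930.HS.Far1
import Pool.Agent.Helper930.HS.DeG
import Pool.Agent.Helper930.HS.JcAlg
import Pool.Agent.Helper930.HS.PcDer

set_option autoImplicit false

open MeasureTheory Metric Set Filter Topology
open scoped ENNReal NNReal ContDiff

namespace H930.HS.XThr

open H930.BL



theorem thr_fn_nonneg {m n : ℕ} (A : Matrix (Fin m) (Fin n) ℝ) : 0 ≤ fn A := Real.sqrt_nonneg _

theorem thr_fn_cont {n : ℕ} {u : E n → E (n + 1)} (hu : ContDiff ℝ ∞ u) :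
    Continuous (fun x => fn (Dm u x)) := by
  have h : ∀ i j, Continuous (fun x => Dm u x i j) := by
    intro i j
    have h1 : ContDiff ℝ 1 (fun y => u y i) :=
      (contDiff_pi.1 (hu.of_le (by exact_mod_cast le_top))) i
    exact continuous_pd h1 j
  unfold fn
  exact Real.continuous_sqrt.comp (continuous_finsetSum _ fun a _ =>
    continuous_finsetSum _ fun b _ => (h a b).pow 2)

theorem thr_qs_cont {n : ℕ} {u : E n → E (n + 1)} (hu : ContDiff ℝ ∞ u) (c : E (n + 1)) :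
    Continuous (fun x => qs c (u x)) := by
  have h : ∀ i, Continuous (fun x => u x i) := fun i => (continuous_apply i).comp hu.continuous
  unfold qs
  exact continuous_finsetSum _ fun a _ => ((h a).sub continuous_const).pow 2

theorem thr_qs_nonneg {m : ℕ} (c y : E m) : 0 ≤ qs c y :=
  Finset.sum_nonneg fun _ _ => sq_nonneg _

theorem thr_qs_up {m : ℕ} (c k y : E m) : qs c y ≤ 5 / 4 * qs c k + 5 * qs k y := by
  unfold qs
  rw [Finset.mul_sum, Finset.mul_sum, ← Finset.sum_add_distrib]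
  refine Finset.sum_le_sum fun a _ => ?_
  nlinarith [sq_nonneg ((k a - c a) / 2 - 2 * (y a - k a))]

theorem thr_qs_lo {m : ℕ} (c k y : E m) : qs c k ≤ 2 * qs c y + 2 * qs k y := by
  unfold qs
  rw [Finset.mul_sum, Finset.mul_sum, ← Finset.sum_add_distrib]
  refine Finset.sum_le_sum fun a _ => ?_
  nlinarith [sq_nonneg ((y a - c a) + (y a - k a))]

theorem thr_meas_s {n : ℕ} (Q : Bx n) : MeasurableSet Q.s := by
  have h : Q.s = Set.pi Set.univ (fun i => Set.Ico (Q.a i) (Q.b i)) := by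
    ext x
    simp [Bx.s, Set.mem_pi]
  rw [h]
  exact MeasurableSet.univ_pi (fun i => measurableSet_Ico)

theorem thr_meas_Rg {n : ℕ} (ch : Bx n → Finset (Bx n)) (Q : Bx n) :
    MeasurableSet (Rg ch Q) := by
  have h : Rg ch Q = Q.s ∩ ⋂ κ ∈ ch Q, (κ.s)ᶜ := by
    ext x
    simp [Rg]
  rw [h]
  exact (thr_meas_s Q).inter (Finset.measurableSet_biInter _ (fun κ _ => (thr_meas_s κ).compl))

theorem thr_int {n : ℕ} (Q : Bx n) {f : E n → ℝ} (hf : Continuous f) : IntegrableOn f Q.s := by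
  have h1 : IntegrableOn f (Set.Icc Q.a Q.b) :=
    hf.continuousOn.integrableOn_compact isCompact_Icc
  refine h1.mono_set ?_
  intro x hx
  exact ⟨fun i => (hx i).1, fun i => (hx i).2.le⟩

theorem thr_fn_mul {n : ℕ} {A : Matrix (Fin (n + 1)) (Fin (n + 1)) ℝ} {C : ℝ} (hC : 0 ≤ C)
    (hA : ∀ i j, |A i j| ≤ C) (D : Matrix (Fin (n + 1)) (Fin n) ℝ) :
    fn (A * D) ≤ ((n + 1 : ℕ) : ℝ) * C * fn D := by
  have hn0 : (0 : ℝ) ≤ ((n + 1 : ℕ) : ℝ) := Nat.cast_nonneg _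
  unfold fn
  rw [Real.sqrt_le_left (by positivity), mul_pow, Real.sq_sqrt
    (Finset.sum_nonneg fun _ _ => Finset.sum_nonneg fun _ _ => sq_nonneg _)]
  have h1 : ∀ i j, (A * D) i j ^ 2 ≤ ((n + 1 : ℕ) : ℝ) * C ^ 2 * ∑ k, D k j ^ 2 := by
    intro i j
    rw [Matrix.mul_apply]
    refine (Finset.sum_mul_sq_le_sq_mul_sq _ _ _).trans ?_
    refine mul_le_mul_of_nonneg_right ?_ (Finset.sum_nonneg fun _ _ => sq_nonneg _)
    calc ∑ k, A i k ^ 2 ≤ ∑ _k : Fin (n + 1), C ^ 2 := by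
          refine Finset.sum_le_sum fun k _ => ?_
          rw [← sq_abs]
          exact pow_le_pow_left₀ (abs_nonneg _) (hA i k) 2
      _ = ((n + 1 : ℕ) : ℝ) * C ^ 2 := by
          rw [Finset.sum_const, Finset.card_univ, Fintype.card_fin, nsmul_eq_mul]
  calc ∑ i, ∑ j, (A * D) i j ^ 2
      ≤ ∑ i : Fin (n + 1), ∑ j, ((n + 1 : ℕ) : ℝ) * C ^ 2 * ∑ k, D k j ^ 2 :=
        Finset.sum_le_sum fun i _ => Finset.sum_le_sum fun j _ => h1 i j
    _ = (((n + 1 : ℕ) : ℝ) * C) ^ 2 * ∑ k, ∑ j, D k j ^ 2 := by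
        rw [Finset.sum_const, Finset.card_univ, Fintype.card_fin, nsmul_eq_mul,
          ← Finset.mul_sum, Finset.sum_comm (f := fun j k => D k j ^ 2)]
        ring

theorem thr_split {n : ℕ} {ι : Type*} [DecidableEq ι] (c : Finset ι) (A F : Set (E n))
    (N : ι → Set (E n)) (hA : MeasurableSet A) (hN : ∀ k ∈ c, MeasurableSet (N k))
    (hAF : A ⊆ F) (hNF : ∀ k ∈ c, N k ⊆ F) (hAN : ∀ k ∈ c, Disjoint A (N k))
    (hNN : ∀ k ∈ c, ∀ k' ∈ c, k ≠ k' → Disjoint (N k) (N k')) {t : E n → ℝ}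
    (ht : ∀ x, 0 ≤ t x) (hti : IntegrableOn t F) :
    (∫ x in A, t x) + ∑ k ∈ c, ∫ x in N k, t x ≤ ∫ x in F, t x := by
  have h1 : ∫ x in ⋃ k ∈ c, N k, t x = ∑ k ∈ c, ∫ x in N k, t x :=
    integral_biUnion_finset c hN (fun k hk k' hk' hne => hNN k hk k' hk' hne)
      (fun k hk => hti.mono_set (hNF k hk))
  have hU : MeasurableSet (⋃ k ∈ c, N k) := Finset.measurableSet_biUnion _ hN
  have hUF : (⋃ k ∈ c, N k) ⊆ F := Set.iUnion₂_subset hNF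
  rw [← h1, ← setIntegral_union (by
    rw [Set.disjoint_iUnion₂_right]
    exact hAN) hU (hti.mono_set hAF) (hti.mono_set hUF)]
  exact setIntegral_mono_set hti (Filter.Eventually.of_forall ht)
    (Set.union_subset hAF hUF).eventuallyLE

theorem thr_key {n : ℕ} {u : E n → E (n + 1)} {P : Bx n → Prop}
    {ch : Bx n → Finset (Bx n)} {rk : Bx n → ℕ} (h : Cells u P ch rk) (Q : Bx n) (hQ : P Q)
    (T : ℝ) (hT : 0 ≤ T) (r : ℝ) (hr : 0 ≤ r) (hr1 : r ≤ 1) :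
    (∫ x in {x | x ∈ Rg ch Q ∧ r ^ 2 ≤ qs (u Q.a) (u x)}, T * fn (Dm u x) ^ n) +
      (∑ κ ∈ ch Q, ∫ x in Nr u ch κ (1 / 64), T * fn (Dm u x) ^ n) ≤
      T * 145 ^ 2 * ∫ x in {x | x ∈ Q.s ∧ r ^ 2 ≤ qs (u Q.a) (u x)},
        ((1 + qs (u Q.a) (u x)) ^ 2)⁻¹ * fn (Dm u x) ^ n := by
  classical
  have hqc := thr_qs_cont h.smooth (u Q.a)
  have hfc := thr_fn_cont h.smooth
  have hw : Continuous (fun x => ((1 + qs (u Q.a) (u x)) ^ 2)⁻¹ * fn (Dm u x) ^ n) := by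
    refine Continuous.mul (Continuous.inv₀ ((continuous_const.add hqc).pow 2) (fun x => ?_))
      (hfc.pow n)
    have := thr_qs_nonneg (u Q.a) (u x)
    positivity
  have hm1 : MeasurableSet {x | r ^ 2 ≤ qs (u Q.a) (u x)} :=
    measurableSet_le measurable_const hqc.measurable
  have hm2 : MeasurableSet {x | qs (u Q.a) (u x) ≤ 144} :=
    measurableSet_le hqc.measurable measurable_const
  have hFm : MeasurableSet {x | x ∈ Q.s ∧ r ^ 2 ≤ qs (u Q.a) (u x) ∧ qs (u Q.a) (u x) ≤ 144} :=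
    (thr_meas_s Q).inter (hm1.inter hm2)
  have hNsub : ∀ κ : Bx n, Nr u ch κ (1 / 64) ⊆ κ.s := fun κ x hx => hx.1.1
  have hstep1 : (∫ x in {x | x ∈ Rg ch Q ∧ r ^ 2 ≤ qs (u Q.a) (u x)}, T * fn (Dm u x) ^ n) +
      (∑ κ ∈ ch Q, ∫ x in Nr u ch κ (1 / 64), T * fn (Dm u x) ^ n) ≤
      ∫ x in {x | x ∈ Q.s ∧ r ^ 2 ≤ qs (u Q.a) (u x) ∧ qs (u Q.a) (u x) ≤ 144},
        T * fn (Dm u x) ^ n := by
    apply thr_split (ch Q)
    · exact (thr_meas_Rg ch Q).inter hm1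
    · intro κ _
      exact (thr_meas_Rg ch κ).inter
        (measurableSet_le (thr_qs_cont h.smooth (u κ.a)).measurable measurable_const)
    · rintro x ⟨hx, hx2⟩
      exact ⟨hx.1, hx2, (h.small Q hQ x hx).trans (by norm_num)⟩
    · rintro κ hκ x ⟨hx, hx2⟩
      have h1 := thr_qs_up (u Q.a) (u κ.a) (u x)
      have h2 := thr_qs_lo (u Q.a) (u κ.a) (u x)
      have h3 := h.lo Q hQ κ hκ
      have h4 := h.hi Q hQ κ hκ
      refine ⟨h.chs Q hQ κ hκ hx.1, ?_, ?_⟩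
      · nlinarith
      · linarith
    · intro κ hκ
      rw [Set.disjoint_left]
      rintro x ⟨hx, _⟩ hx2
      exact hx.2 κ hκ (hNsub κ hx2)
    · intro κ hκ κ' hκ' hne
      exact (h.disj Q hQ κ hκ κ' hκ' hne).mono (hNsub κ) (hNsub κ')
    · intro x
      exact mul_nonneg hT (pow_nonneg (thr_fn_nonneg _) _)
    · exact (thr_int Q (continuous_const.mul (hfc.pow n))).mono_set (fun x hx => hx.1)
  have hwi : IntegrableOn (fun x => T * 145 ^ 2 *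
      (((1 + qs (u Q.a) (u x)) ^ 2)⁻¹ * fn (Dm u x) ^ n)) Q.s :=
    thr_int Q (continuous_const.mul hw)
  have hstep2 : ∫ x in {x | x ∈ Q.s ∧ r ^ 2 ≤ qs (u Q.a) (u x) ∧ qs (u Q.a) (u x) ≤ 144},
      T * fn (Dm u x) ^ n ≤
      ∫ x in {x | x ∈ Q.s ∧ r ^ 2 ≤ qs (u Q.a) (u x) ∧ qs (u Q.a) (u x) ≤ 144},
        T * 145 ^ 2 * (((1 + qs (u Q.a) (u x)) ^ 2)⁻¹ * fn (Dm u x) ^ n) := by
    refine setIntegral_mono_on
      ((thr_int Q (continuous_const.mul (hfc.pow n))).mono_set (fun x hx => hx.1))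
      (hwi.mono_set (fun x hx => hx.1)) hFm (fun x hx => ?_)
    have h1 := thr_qs_nonneg (u Q.a) (u x)
    have h2 : qs (u Q.a) (u x) ≤ 144 := hx.2.2
    have h3 : (1 : ℝ) ≤ 145 ^ 2 * ((1 + qs (u Q.a) (u x)) ^ 2)⁻¹ := by
      rw [← div_eq_mul_inv, one_le_div (by positivity)]
      exact pow_le_pow_left₀ (by linarith) (by linarith) 2
    have h4 : 0 ≤ T * fn (Dm u x) ^ n := mul_nonneg hT (pow_nonneg (thr_fn_nonneg _) _)
    calc T * fn (Dm u x) ^ n = (T * fn (Dm u x) ^ n) * 1 := (mul_one _).symm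
      _ ≤ (T * fn (Dm u x) ^ n) * (145 ^ 2 * ((1 + qs (u Q.a) (u x)) ^ 2)⁻¹) :=
          mul_le_mul_of_nonneg_left h3 h4
      _ = _ := by ring
  have hstep3 : ∫ x in {x | x ∈ Q.s ∧ r ^ 2 ≤ qs (u Q.a) (u x) ∧ qs (u Q.a) (u x) ≤ 144},
        T * 145 ^ 2 * (((1 + qs (u Q.a) (u x)) ^ 2)⁻¹ * fn (Dm u x) ^ n) ≤
      ∫ x in {x | x ∈ Q.s ∧ r ^ 2 ≤ qs (u Q.a) (u x)},
        T * 145 ^ 2 * (((1 + qs (u Q.a) (u x)) ^ 2)⁻¹ * fn (Dm u x) ^ n) := by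
    refine setIntegral_mono_set (hwi.mono_set (fun x hx => hx.1))
      (Filter.Eventually.of_forall (fun x => ?_))
      (LE.le.eventuallyLE (fun x hx => ⟨hx.1, hx.2.1⟩))
    have h1 := thr_qs_nonneg (u Q.a) (u x)
    have h2 := thr_fn_nonneg (Dm u x)
    show 0 ≤ T * 145 ^ 2 * (((1 + qs (u Q.a) (u x)) ^ 2)⁻¹ * fn (Dm u x) ^ n)
    positivity
  exact hstep1.trans (hstep2.trans (hstep3.trans (le_of_eq (integral_const_mul _ _))))

theorem thr_S_nonneg {n : ℕ} {M : ℝ} {B : Set (E n)}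
    {H : E (n + 1) → ℝ} {u : E n → E (n + 1)} {ν : E n → ℝ} {P : Bx n → Prop}
    {ch : Bx n → Finset (Bx n)} {rk : Bx n → ℕ} {d : Bx n → E (n + 1) → ℝ} {S : Bx n → ℝ}
    (h : Sys M B H u ν P ch rk d S) : ∀ (k : ℕ) (Q : Bx n), rk Q ≤ k → P Q → 0 ≤ S Q := by
  intro k
  induction k with
  | zero =>
    intro Q hk hQ
    rw [h.Srec Q hQ]
    refine Finset.sum_nonneg fun κ hκ => ?_
    have := h.cells.rk_lt Q hQ κ hκ
    omega
  | succ k ih =>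
    intro Q hk hQ
    rw [h.Srec Q hQ]
    refine Finset.sum_nonneg fun κ hκ => ?_
    have h1 := h.cells.rk_lt Q hQ κ hκ
    exact add_nonneg (integral_nonneg fun _ => abs_nonneg _)
      (ih κ (by omega) (h.cells.chP Q hQ κ hκ))

theorem thr_dl_int {n : ℕ} {M : ℝ} {B : Set (E n)}
    {H : E (n + 1) → ℝ} {u : E n → E (n + 1)} {ν : E n → ℝ} {P : Bx n → Prop}
    {ch : Bx n → Finset (Bx n)} {rk : Bx n → ℕ} {d : Bx n → E (n + 1) → ℝ} {S : Bx n → ℝ}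
    (h : Sys M B H u ν P ch rk d S) (Q : Bx n) (hQ : P Q) :
    Integrable (fun y => |dl ch d Q y|) := by
  refine Integrable.abs ?_
  unfold dl
  exact (h.deg Q hQ).int.sub (integrable_finsetSum _ (fun κ hκ =>
    (h.deg κ (h.cells.chP Q hQ κ hκ)).int))

theorem thr_Ds_anti {n : ℕ} {M : ℝ} {B : Set (E n)}
    {H : E (n + 1) → ℝ} {u : E n → E (n + 1)} {ν : E n → ℝ} {P : Bx n → Prop}
    {ch : Bx n → Finset (Bx n)} {rk : Bx n → ℕ} {d : Bx n → E (n + 1) → ℝ} {S : Bx n → ℝ}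
    (h : Sys M B H u ν P ch rk d S) (Q : Bx n) (hQ : P Q) {s t : ℝ} (hs : 0 ≤ s) (hst : s ≤ t) :
    Ds u ch d Q t ≤ Ds u ch d Q s := by
  unfold Ds
  refine setIntegral_mono_set (thr_dl_int h Q hQ).integrableOn
    (Filter.Eventually.of_forall (fun x => abs_nonneg _))
    (LE.le.eventuallyLE (fun x hx => ?_))
  have h1 : s ^ 2 ≤ t ^ 2 := pow_le_pow_left₀ hs hst 2
  exact lt_of_le_of_lt h1 hx

theorem thr_Ds_nonneg {n : ℕ} (u : E n → E (n + 1)) (ch : Bx n → Finset (Bx n))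
    (d : Bx n → E (n + 1) → ℝ) (Q : Bx n) (s : ℝ) : 0 ≤ Ds u ch d Q s :=
  integral_nonneg fun _ => abs_nonneg _

theorem thr_t {n : ℕ} (hn : 2 ≤ n) : ∃ T : ℝ, 0 < T ∧ ∀ (u : E n → E (n + 1)),
    ContDiff ℝ ∞ u → (∀ x a, |Jc (Dm u x) a| ≤ T * fn (Dm u x) ^ n) ∧
      ∀ c x a, |Jc (Dm (fun z => Pc c (u z)) x) a| ≤ T * fn (Dm u x) ^ n := by
  obtain ⟨C1, hC1, hJ⟩ := Jc_le hn
  obtain ⟨C2, hC2, hP⟩ := Pc_der (n := n)
  refine ⟨C1 * (1 + ((n + 1 : ℕ) : ℝ) * C2) ^ n, by positivity, fun u hu => ⟨fun x a => ?_,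
    fun c x a => ?_⟩⟩
  · refine (hJ (Dm u x) a).trans ?_
    refine mul_le_mul_of_nonneg_right ?_ (pow_nonneg (thr_fn_nonneg _) _)
    have h1 : (1 : ℝ) ≤ (1 + ((n + 1 : ℕ) : ℝ) * C2) ^ n := by
      apply one_le_pow₀
      have : 0 ≤ ((n + 1 : ℕ) : ℝ) * C2 := by positivity
      linarith
    nlinarith
  · obtain ⟨A, hA, hD⟩ := (hP u hu c).2 x
    rw [hD]
    refine (hJ (A * Dm u x) a).trans ?_
    have h1 := thr_fn_mul hC2.le hA (Dm u x)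
    have h2 := thr_fn_nonneg (Dm u x)
    have h3 : fn (A * Dm u x) ≤ (1 + ((n + 1 : ℕ) : ℝ) * C2) * fn (Dm u x) := by nlinarith
    calc C1 * fn (A * Dm u x) ^ n ≤ C1 * ((1 + ((n + 1 : ℕ) : ℝ) * C2) * fn (Dm u x)) ^ n :=
          mul_le_mul_of_nonneg_left (pow_le_pow_left₀ (thr_fn_nonneg _) h3 n) hC1.le
      _ = _ := by rw [mul_pow]; ring

theorem thr {n : ℕ} (hn : 2 ≤ n) (M : ℝ) : ∃ ε : ℝ, 0 < ε ∧ ∀ {B : Set (E n)}
    {H : E (n + 1) → ℝ} {u : E n → E (n + 1)} {ν : E n → ℝ} {P : Bx n → Prop}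
    {ch : Bx n → Finset (Bx n)} {rk : Bx n → ℕ} {d : Bx n → E (n + 1) → ℝ} {S : Bx n → ℝ},
    Sys M B H u ν P ch rk d S → ∀ Q, P Q → EN u Q.s ≤ ε →
    Ds u ch d Q (1 / 4) ≤ S Q + ∫ x in Q.s, ν x := by
  obtain ⟨T, hT, htb⟩ := thr_t hn
  obtain ⟨C1, hC1, hiso⟩ := isoQ hn
  obtain ⟨C2, hC2, hisos⟩ := isoQs hn
  obtain ⟨C3, hC3, hfar⟩ := far1 hn M
  have hn0 : (0 : ℝ) < n := by
    have : 0 < n := by omega
    exact_mod_cast this
  set p : ℝ := ((n : ℝ) + 1) / n with hp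
  have hp0 : 0 < p := by positivity
  have hp1 : p = 1 + 1 / (n : ℝ) := by
    rw [hp]
    field_simp
  set K : ℝ := T * 145 ^ 2 * C3 + 1 with hK
  have hK0 : 0 < K := by positivity
  obtain ⟨ε0, hε0, hdeG⟩ := deG (C := C2 * K ^ p) (β := 1 / (n : ℝ)) (by positivity)
    (by positivity)
  refine ⟨(ε0 / C1) ^ (p⁻¹) / T, by positivity, ?_⟩
  intro B H u ν P ch rk d S hS Q hQ hEN
  have hu := hS.cells.smooth
  have hSQ := thr_S_nonneg hS (rk Q) Q le_rfl hQ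
  have hνQ : 0 ≤ ∫ x in Q.s, ν x := integral_nonneg hS.nn
  have hfc := thr_fn_cont hu
  have ht0 : ∀ x, 0 ≤ T * fn (Dm u x) ^ n := fun x =>
    mul_nonneg hT.le (pow_nonneg (thr_fn_nonneg _) _)
  have hti : IntegrableOn (fun x => T * fn (Dm u x) ^ n) Q.s :=
    thr_int Q (continuous_const.mul (hfc.pow n))
  have hy0 := thr_Ds_nonneg u ch d Q
  refine hdeG (fun s => Ds u ch d Q s) (S Q + ∫ x in Q.s, ν x) (by positivity) hy0
    (fun s t hs hst => thr_Ds_anti hS Q hQ (by linarith) hst) ?_ ?_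
  · intro s h hs hh hsh
    have h1 := hisos hS.cells hS.deg Q hQ (fun x => T * fn (Dm u x) ^ n) ht0 hti (htb u hu).1
      (htb u hu).2 (s + h) h (by linarith) (by linarith) hh (by linarith)
    have h2 := thr_key hS.cells Q hQ T hT.le (s + h) (by linarith) (by linarith)
    have h3 := hfar hS Q hQ s h hs (by linarith) hh (by linarith)
    have h4 := thr_Ds_anti hS Q hQ (s := s) (t := s + h) (by linarith) (by linarith)
    have h5 : s + h + h = s + 2 * h := by ring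
    rw [h5] at h1
    refine h1.trans ?_
    have hys := hy0 s
    have hhinv : 0 < h⁻¹ := inv_pos.mpr hh
    have h6 : ((∫ x in {x | x ∈ Rg ch Q ∧ (s + h) ^ 2 ≤ qs (u Q.a) (u x)}, T * fn (Dm u x) ^ n) +
        (∑ κ ∈ ch Q, ∫ x in Nr u ch κ (1 / 64), T * fn (Dm u x) ^ n) +
        h⁻¹ * Ds u ch d Q (s + h)) ≤ K * (h⁻¹ * (Ds u ch d Q s + (S Q + ∫ x in Q.s, ν x))) := by
      have h7 : T * 145 ^ 2 * ∫ x in {x | x ∈ Q.s ∧ (s + h) ^ 2 ≤ qs (u Q.a) (u x)},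
          ((1 + qs (u Q.a) (u x)) ^ 2)⁻¹ * fn (Dm u x) ^ n ≤
          T * 145 ^ 2 * (C3 / h * (Ds u ch d Q s + S Q + ∫ x in Q.s, ν x)) :=
        mul_le_mul_of_nonneg_left h3 (by positivity)
      have h8 : h⁻¹ * Ds u ch d Q (s + h) ≤
          h⁻¹ * (Ds u ch d Q s + (S Q + ∫ x in Q.s, ν x)) := by
        apply mul_le_mul_of_nonneg_left _ hhinv.le
        linarith
      have h9 : T * 145 ^ 2 * (C3 / h * (Ds u ch d Q s + S Q + ∫ x in Q.s, ν x)) =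
          (T * 145 ^ 2 * C3) * (h⁻¹ * (Ds u ch d Q s + (S Q + ∫ x in Q.s, ν x))) := by
        rw [div_eq_mul_inv]
        ring
      rw [hK, add_mul, one_mul]
      linarith
    have h10 : 0 ≤ h⁻¹ * (Ds u ch d Q s + (S Q + ∫ x in Q.s, ν x)) := by positivity
    have h11 : 0 ≤ ((∫ x in {x | x ∈ Rg ch Q ∧ (s + h) ^ 2 ≤ qs (u Q.a) (u x)},
        T * fn (Dm u x) ^ n) +
        (∑ κ ∈ ch Q, ∫ x in Nr u ch κ (1 / 64), T * fn (Dm u x) ^ n) +
        h⁻¹ * Ds u ch d Q (s + h)) := by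
      refine add_nonneg (add_nonneg (integral_nonneg ht0)
        (Finset.sum_nonneg fun _ _ => integral_nonneg ht0)) ?_
      exact mul_nonneg hhinv.le (hy0 _)
    have h12 := Real.rpow_le_rpow h11 h6 hp0.le
    rw [Real.mul_rpow hK0.le h10] at h12
    calc _ ≤ C2 * (K ^ p * (h⁻¹ * (Ds u ch d Q s + (S Q + ∫ x in Q.s, ν x))) ^ p) :=
          mul_le_mul_of_nonneg_left h12 hC2.le
      _ = C2 * K ^ p * (h⁻¹ * (Ds u ch d Q s + (S Q + ∫ x in Q.s, ν x))) ^ (1 + 1 / (n : ℝ)) := by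
          rw [← hp1]
          ring
  · have h1 := hiso hS.cells hS.deg Q hQ (fun x => T * fn (Dm u x) ^ n) ht0 hti (htb u hu).1
      (htb u hu).2
    have h2 : Ds u ch d Q (1 / 8) ≤ Dq ch d Q :=
      setIntegral_le_integral (thr_dl_int hS Q hQ)
        (Filter.Eventually.of_forall (fun _ => abs_nonneg _))
    have h3 : (∫ x in Rg ch Q, T * fn (Dm u x) ^ n) +
        ∑ κ ∈ ch Q, ∫ x in Nr u ch κ (1 / 64), T * fn (Dm u x) ^ n ≤
        ∫ x in Q.s, T * fn (Dm u x) ^ n := by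
      classical
      have hNsub : ∀ κ : Bx n, Nr u ch κ (1 / 64) ⊆ κ.s := fun κ x hx => hx.1.1
      apply thr_split (ch Q)
      · exact thr_meas_Rg ch Q
      · intro κ _
        exact (thr_meas_Rg ch κ).inter
          (measurableSet_le (thr_qs_cont hu (u κ.a)).measurable measurable_const)
      · intro x hx
        exact hx.1
      · intro κ hκ x hx
        exact hS.cells.chs Q hQ κ hκ (hNsub κ hx)
      · intro κ hκ
        rw [Set.disjoint_left]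
        intro x hx hx2
        exact hx.2 κ hκ (hNsub κ hx2)
      · intro κ hκ κ' hκ' hne
        exact (hS.cells.disj Q hQ κ hκ κ' hκ' hne).mono (hNsub κ) (hNsub κ')
      · exact ht0
      · exact hti
    have h3' := h3.trans (le_of_eq (integral_const_mul _ _))
    have h4 : T * ∫ x in Q.s, fn (Dm u x) ^ n ≤ (ε0 / C1) ^ (p⁻¹) := by
      have h5 : ∫ x in Q.s, fn (Dm u x) ^ n ≤ (ε0 / C1) ^ (p⁻¹) / T := hEN
      rw [le_div_iff₀ hT] at h5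
      linarith
    have h6 : 0 ≤ (∫ x in Rg ch Q, T * fn (Dm u x) ^ n) +
        ∑ κ ∈ ch Q, ∫ x in Nr u ch κ (1 / 64), T * fn (Dm u x) ^ n :=
      add_nonneg (integral_nonneg ht0) (Finset.sum_nonneg fun _ _ => integral_nonneg ht0)
    have h7 := Real.rpow_le_rpow h6 (h3'.trans h4) hp0.le
    rw [Real.rpow_inv_rpow (by positivity) hp0.ne'] at h7
    calc Ds u ch d Q (1 / 8) ≤ Dq ch d Q := h2
      _ ≤ C1 * ((∫ x in Rg ch Q, T * fn (Dm u x) ^ n) +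
          ∑ κ ∈ ch Q, ∫ x in Nr u ch κ (1 / 64), T * fn (Dm u x) ^ n) ^ p := h1
      _ ≤ C1 * (ε0 / C1) := mul_le_mul_of_nonneg_left h7 hC1.le
      _ = ε0 := by field_simp

theorem far {n : ℕ} (hn : 2 ≤ n) (M : ℝ) : ∃ ε C : ℝ, 0 < ε ∧ 0 < C ∧ ∀ {B : Set (E n)}
    {H : E (n + 1) → ℝ} {u : E n → E (n + 1)} {ν : E n → ℝ} {P : Bx n → Prop}
    {ch : Bx n → Finset (Bx n)} {rk : Bx n → ℕ} {d : Bx n → E (n + 1) → ℝ} {S : Bx n → ℝ},
    Sys M B H u ν P ch rk d S → ∀ Q, P Q → EN u Q.s ≤ ε →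
    Ds u ch d Q (1 / 4) ≤ S Q + (∫ x in Q.s, ν x) ∧ Fq u Q ≤ C * (S Q + ∫ x in Q.s, ν x) := by
  obtain ⟨ε, hε, hthr⟩ := thr hn M
  obtain ⟨C3, hC3, hfar⟩ := far1 hn M
  refine ⟨ε, 145 ^ 2 * (8 * C3), hε, by positivity, ?_⟩
  intro B H u ν P ch rk d S hS Q hQ hEN
  have h1 := hthr hS Q hQ hEN
  refine ⟨h1, ?_⟩
  have hu := hS.cells.smooth
  have hfc := thr_fn_cont hu
  have hqc := thr_qs_cont hu (u Q.a)
  have h2 := hfar hS Q hQ (1 / 4) (1 / 4) (by norm_num) (by norm_num) (by norm_num) (by norm_num)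
  have e1 : ((1 : ℝ) / 4 + 1 / 4) ^ 2 = 1 / 4 := by norm_num
  rw [e1] at h2
  have hw : Continuous (fun x => ((1 + qs (u Q.a) (u x)) ^ 2)⁻¹ * fn (Dm u x) ^ n) := by
    refine Continuous.mul (Continuous.inv₀ ((continuous_const.add hqc).pow 2) (fun x => ?_))
      (hfc.pow n)
    have := thr_qs_nonneg (u Q.a) (u x)
    positivity
  have hFm : MeasurableSet {x | x ∈ Q.s ∧ 1 / 4 ≤ qs (u Q.a) (u x) ∧ qs (u Q.a) (u x) ≤ 144} :=
    (thr_meas_s Q).inter ((measurableSet_le measurable_const hqc.measurable).inter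
      (measurableSet_le hqc.measurable measurable_const))
  have hwi : IntegrableOn (fun x => 145 ^ 2 *
      (((1 + qs (u Q.a) (u x)) ^ 2)⁻¹ * fn (Dm u x) ^ n)) Q.s :=
    thr_int Q (continuous_const.mul hw)
  have h3 : Fq u Q ≤
      ∫ x in {x | x ∈ Q.s ∧ 1 / 4 ≤ qs (u Q.a) (u x) ∧ qs (u Q.a) (u x) ≤ 144},
        145 ^ 2 * (((1 + qs (u Q.a) (u x)) ^ 2)⁻¹ * fn (Dm u x) ^ n) := by
    unfold Fq
    refine setIntegral_mono_on
      ((thr_int Q (hfc.pow n)).mono_set (fun x hx => hx.1))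
      (hwi.mono_set (fun x hx => hx.1)) hFm (fun x hx => ?_)
    have h1 := thr_qs_nonneg (u Q.a) (u x)
    have h2 : qs (u Q.a) (u x) ≤ 144 := hx.2.2
    have h3 : (1 : ℝ) ≤ 145 ^ 2 * ((1 + qs (u Q.a) (u x)) ^ 2)⁻¹ := by
      rw [← div_eq_mul_inv, one_le_div (by positivity)]
      exact pow_le_pow_left₀ (by linarith) (by linarith) 2
    have h4 : 0 ≤ fn (Dm u x) ^ n := pow_nonneg (thr_fn_nonneg _) _
    calc fn (Dm u x) ^ n = fn (Dm u x) ^ n * 1 := (mul_one _).symm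
      _ ≤ fn (Dm u x) ^ n * (145 ^ 2 * ((1 + qs (u Q.a) (u x)) ^ 2)⁻¹) :=
          mul_le_mul_of_nonneg_left h3 h4
      _ = _ := by ring
  have h4 : ∫ x in {x | x ∈ Q.s ∧ 1 / 4 ≤ qs (u Q.a) (u x) ∧ qs (u Q.a) (u x) ≤ 144},
        145 ^ 2 * (((1 + qs (u Q.a) (u x)) ^ 2)⁻¹ * fn (Dm u x) ^ n) ≤
      ∫ x in {x | x ∈ Q.s ∧ 1 / 4 ≤ qs (u Q.a) (u x)},
        145 ^ 2 * (((1 + qs (u Q.a) (u x)) ^ 2)⁻¹ * fn (Dm u x) ^ n) := by
    refine setIntegral_mono_set (hwi.mono_set (fun x hx => hx.1))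
      (Filter.Eventually.of_forall (fun x => ?_))
      (LE.le.eventuallyLE (fun x hx => ⟨hx.1, hx.2.1⟩))
    have h1 := thr_qs_nonneg (u Q.a) (u x)
    have h2 := thr_fn_nonneg (Dm u x)
    show 0 ≤ 145 ^ 2 * (((1 + qs (u Q.a) (u x)) ^ 2)⁻¹ * fn (Dm u x) ^ n)
    positivity
  have h4' := h4.trans (le_of_eq (integral_const_mul _ _))
  have h5 : (145 : ℝ) ^ 2 * ∫ x in {x | x ∈ Q.s ∧ 1 / 4 ≤ qs (u Q.a) (u x)},
      ((1 + qs (u Q.a) (u x)) ^ 2)⁻¹ * fn (Dm u x) ^ n ≤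
      145 ^ 2 * (C3 / (1 / 4) * (Ds u ch d Q (1 / 4) + S Q + ∫ x in Q.s, ν x)) :=
    mul_le_mul_of_nonneg_left h2 (by positivity)
  refine h3.trans (h4'.trans (h5.trans ?_))
  have h6 : C3 / (1 / 4) * (Ds u ch d Q (1 / 4) + S Q + ∫ x in Q.s, ν x) ≤
      8 * C3 * (S Q + ∫ x in Q.s, ν x) := by
    have e2 : C3 / (1 / 4) = 4 * C3 := by ring
    rw [e2]
    nlinarith
  calc (145 : ℝ) ^ 2 * (C3 / (1 / 4) * (Ds u ch d Q (1 / 4) + S Q + ∫ x in Q.s, ν x))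
      ≤ 145 ^ 2 * (8 * C3 * (S Q + ∫ x in Q.s, ν x)) :=
        mul_le_mul_of_nonneg_left h6 (by positivity)
    _ = _ := by ring

end H930.HS.XThr

namespace H930.HS

export XThr (thr far)

end H930.HS
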