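import Pool.Agent.Helper930.HS.Thr
import Pool.Agent.Helper930.HS.TLe

set_option autoImplicit false

open MeasureTheory Metric Set Filter Topology
open scoped ENNReal NNReal ContDiff

namespace H930.HS.XWtS

open H930.BL



lemma h181_ms {n : ℕ} (Q : Bx n) : MeasurableSet Q.s := by
  have : Q.s = Set.pi univ (fun i => Ico (Q.a i) (Q.b i)) := by
    ext x; simp [Bx.s]
  rw [this]
  exact MeasurableSet.univ_pi fun i => measurableSet_Ico

lemma h181_Rg {n : ℕ} (ch : Bx n → Finset (Bx n)) (Q : Bx n) :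
    Rg ch Q = Q.s \ ⋃ κ ∈ ch Q, κ.s := by
  ext x
  simp [Rg]

lemma h181_mRg {n : ℕ} (ch : Bx n → Finset (Bx n)) (Q : Bx n) : MeasurableSet (Rg ch Q) := by
  rw [h181_Rg]
  exact (h181_ms Q).diff (Finset.measurableSet_biUnion _ fun κ _ => h181_ms κ)

lemma h181_s_sub_cl {n : ℕ} (Q : Bx n) : Q.s ⊆ Q.cl := fun _ hx i => ⟨(hx i).1, (hx i).2.le⟩

lemma h181_P {n : ℕ} {P : Bx n → Prop} {ch : Bx n → Finset (Bx n)} {u : E n → E (n + 1)}
    {rk : Bx n → ℕ} (h : Cells u P ch rk)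
    (m : ℕ) (q : ℕ → Bx n) (h0 : P (q 0)) (hq : ∀ i < m, q (i + 1) ∈ ch (q i)) :
    ∀ i ≤ m, P (q i) := by
  intro i
  induction i with
  | zero => intro _; exact h0
  | succ i ih => intro hi; exact h.chP _ (ih (by omega)) _ (hq i (by omega))

theorem h181_nu_split {n : ℕ} {M : ℝ} {B : Set (E n)} {H : E (n + 1) → ℝ} {u : E n → E (n + 1)}
    {ν : E n → ℝ} {P : Bx n → Prop} {ch : Bx n → Finset (Bx n)} {rk : Bx n → ℕ}
    {d : Bx n → E (n + 1) → ℝ} {S : Bx n → ℝ} (h : Sys M B H u ν P ch rk d S)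
    (Q : Bx n) (hQ : P Q) :
    (∫ x in Q.s, ν x) = (∫ x in Rg ch Q, ν x) + ∑ κ ∈ ch Q, ∫ x in κ.s, ν x := by
  have hi : IntegrableOn ν Q.s := h.nint.mono_set ((h181_s_sub_cl Q).trans (h.sub Q hQ))
  have hU : MeasurableSet (⋃ κ ∈ ch Q, κ.s) := Finset.measurableSet_biUnion _ fun κ _ => h181_ms κ
  have hsub : (⋃ κ ∈ ch Q, κ.s) ⊆ Q.s := by
    intro x hx
    simp only [mem_iUnion] at hx
    obtain ⟨κ, hκ, hx⟩ := hx
    exact h.cells.chs Q hQ κ hκ hx
  have h1 : (∫ x in Rg ch Q, ν x) = (∫ x in Q.s, ν x) - ∫ x in (⋃ κ ∈ ch Q, κ.s), ν x := by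
    rw [h181_Rg]
    exact setIntegral_sdiff hU hi hsub
  have h2 : (∫ x in (⋃ κ ∈ ch Q, κ.s), ν x) = ∑ κ ∈ ch Q, ∫ x in κ.s, ν x := by
    apply integral_biUnion_finset
    · exact fun κ _ => h181_ms κ
    · intro κ hκ κ' hκ' hne
      exact h.cells.disj Q hQ κ hκ κ' hκ' hne
    · exact fun κ hκ => hi.mono_set (h.cells.chs Q hQ κ hκ)
  rw [h1, h2]
  ring

theorem h181_chain_nu {n : ℕ} {M : ℝ} {B : Set (E n)} {H : E (n + 1) → ℝ} {u : E n → E (n + 1)}
    {ν : E n → ℝ} {P : Bx n → Prop} {ch : Bx n → Finset (Bx n)} {rk : Bx n → ℕ}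
    {d : Bx n → E (n + 1) → ℝ} {S : Bx n → ℝ} (h : Sys M B H u ν P ch rk d S) [DecidableEq (Bx n)]
    (m : ℕ) (q : ℕ → Bx n) (h0 : P (q 0)) (hq : ∀ i < m, q (i + 1) ∈ ch (q i)) :
    (∫ x in (q 0).s, ν x) = (∑ i ∈ Finset.range m, ∫ x in Rg ch (q i), ν x) +
      (∑ i ∈ Finset.range m, ∑ κ ∈ (ch (q i)).erase (q (i + 1)), ∫ x in κ.s, ν x) +
        ∫ x in (q m).s, ν x := by
  induction m with
  | zero => simp
  | succ m ih =>
    have ih' := ih (fun i hi => hq i (by omega))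
    have hP := h181_P h.cells (m + 1) q h0 hq m (by omega)
    have h1 := h181_nu_split h (q m) hP
    have h2 := Finset.add_sum_erase (ch (q m)) (fun κ => ∫ x in κ.s, ν x) (hq m (by omega))
    rw [Finset.sum_range_succ, Finset.sum_range_succ]
    linarith

theorem chain_S {n : ℕ} {M : ℝ} {B : Set (E n)} {H : E (n + 1) → ℝ} {u : E n → E (n + 1)}
    {ν : E n → ℝ} {P : Bx n → Prop} {ch : Bx n → Finset (Bx n)} {rk : Bx n → ℕ}
    {d : Bx n → E (n + 1) → ℝ} {S : Bx n → ℝ} (h : Sys M B H u ν P ch rk d S) [DecidableEq (Bx n)]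
    (m : ℕ) (q : ℕ → Bx n) (h0 : P (q 0)) (hq : ∀ i < m, q (i + 1) ∈ ch (q i)) :
    S (q 0) = (∑ i ∈ Finset.range m, ∑ κ ∈ ch (q i), Dq ch d κ) +
      (∑ i ∈ Finset.range m, ∑ κ ∈ (ch (q i)).erase (q (i + 1)), S κ) + S (q m) := by
  induction m with
  | zero => simp
  | succ m ih =>
    have ih' := ih (fun i hi => hq i (by omega))
    have hP := h181_P h.cells (m + 1) q h0 hq m (by omega)
    have h1 := h.Srec (q m) hP
    rw [Finset.sum_add_distrib] at h1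
    have h2 := Finset.add_sum_erase (ch (q m)) (fun κ => S κ) (hq m (by omega))
    rw [Finset.sum_range_succ, Finset.sum_range_succ]
    linarith

theorem h181_Ds_le {n : ℕ} {M : ℝ} {B : Set (E n)} {H : E (n + 1) → ℝ} {u : E n → E (n + 1)}
    {ν : E n → ℝ} {P : Bx n → Prop} {ch : Bx n → Finset (Bx n)} {rk : Bx n → ℕ}
    {d : Bx n → E (n + 1) → ℝ} {S : Bx n → ℝ} (h : Sys M B H u ν P ch rk d S)
    (Q : Bx n) (hQ : P Q) (s : ℝ) : Ds u ch d Q s ≤ Dq ch d Q := by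
  unfold Ds Dq
  have hint : Integrable (fun y => |dl ch d Q y|) := by
    have h1 : Integrable (dl ch d Q) := by
      unfold dl
      exact (h.deg Q hQ).int.sub
        (integrable_finsetSum _ fun κ hκ => (h.deg κ (h.cells.chP Q hQ κ hκ)).int)
    exact h1.abs
  exact setIntegral_le_integral hint (Eventually.of_forall fun y => abs_nonneg _)

lemma h181_Dq_nn {n : ℕ} (ch : Bx n → Finset (Bx n)) (d : Bx n → E (n + 1) → ℝ) (Q : Bx n) :
    0 ≤ Dq ch d Q := integral_nonneg fun _ => abs_nonneg _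

theorem wt_sum {n : ℕ} (hn : 2 ≤ n) (M : ℝ) : ∃ ε C : ℝ, 0 < ε ∧ 0 < C ∧ ∀ {B : Set (E n)}
    {H : E (n + 1) → ℝ} {u : E n → E (n + 1)} {ν : E n → ℝ} {P : Bx n → Prop}
    {ch : Bx n → Finset (Bx n)} {rk : Bx n → ℕ} {d : Bx n → E (n + 1) → ℝ} {S : Bx n → ℝ},
    Sys M B H u ν P ch rk d S → ∀ (m : ℕ) (q : ℕ → Bx n), P (q 0) →
    (∀ i < m, q (i + 1) ∈ ch (q i)) → EN u (q 0).s ≤ ε →
    ∑ i ∈ Finset.range m, wt u ν ch d S (q i) (q (i + 1)) ≤
      C * (S (q 0) + ∫ x in (q 0).s, ν x) := by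
  obtain ⟨ε, C0, hε, hC0, hfar⟩ := far hn M
  refine ⟨ε, 3, hε, by norm_num, ?_⟩
  intro B H u ν P ch rk d S h m q h0 hq hE
  classical
  have hP := h181_P h.cells m q h0 hq
  have hS0 : 0 ≤ S (q 0) := (T_le h _ h0).1
  have hν0 : ∀ A : Set (E n), 0 ≤ ∫ x in A, ν x := fun A => integral_nonneg fun x => h.nn x
  rcases m with _ | m
  · simp only [Finset.range_zero, Finset.sum_empty]
    have := hν0 (q 0).s
    positivity
  have hS := chain_S h (m + 1) q h0 hq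
  have hν := h181_chain_nu h (m + 1) q h0 hq
  have hSm : 0 ≤ S (q (m + 1)) := (T_le h _ (hP (m + 1) le_rfl)).1
  have hX0 : ∀ i ∈ Finset.range (m + 1), 0 ≤ ∑ κ ∈ ch (q i), Dq ch d κ :=
    fun i _ => Finset.sum_nonneg fun κ _ => h181_Dq_nn ch d κ
  have hY0 : 0 ≤ ∑ i ∈ Finset.range (m + 1), ∑ κ ∈ (ch (q i)).erase (q (i + 1)), S κ := by
    refine Finset.sum_nonneg fun i hi => Finset.sum_nonneg fun κ hκ => ?_
    have hi' := Finset.mem_range.1 hi
    exact (T_le h κ (h.cells.chP _ (hP i (by omega)) κ (Finset.mem_of_mem_erase hκ))).1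
  have hW0 : 0 ≤ ∑ i ∈ Finset.range (m + 1), ∑ κ ∈ (ch (q i)).erase (q (i + 1)),
      ∫ x in κ.s, ν x :=
    Finset.sum_nonneg fun i _ => Finset.sum_nonneg fun κ _ => hν0 _
  have hV0 : 0 ≤ ∑ i ∈ Finset.range (m + 1), ∫ x in Rg ch (q i), ν x :=
    Finset.sum_nonneg fun i _ => hν0 _
  have hDs : ∑ i ∈ Finset.range (m + 1), Ds u ch d (q i) (1 / 4) ≤
      (S (q 0) + ∫ x in (q 0).s, ν x) +
        ∑ i ∈ Finset.range (m + 1), ∑ κ ∈ ch (q i), Dq ch d κ := by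
    rw [Finset.sum_range_succ', add_comm]
    refine add_le_add (hfar h _ h0 hE).1 ?_
    rw [Finset.sum_range_succ (fun i => ∑ κ ∈ ch (q i), Dq ch d κ)]
    have : ∑ i ∈ Finset.range m, Ds u ch d (q (i + 1)) (1 / 4) ≤
        ∑ i ∈ Finset.range m, ∑ κ ∈ ch (q i), Dq ch d κ := by
      refine Finset.sum_le_sum fun i hi => ?_
      have hi' := Finset.mem_range.1 hi
      refine (h181_Ds_le h _ (hP (i + 1) (by omega)) _).trans ?_
      exact Finset.single_le_sum (f := fun κ => Dq ch d κ) (fun κ _ => h181_Dq_nn ch d κ)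
        (hq i (by omega))
    have h2 := hX0 m (Finset.mem_range.2 (by omega))
    linarith
  have hRg : ∑ i ∈ Finset.range (m + 1), ∫ x in Rg ch (q (i + 1)), ν x ≤
      (∑ i ∈ Finset.range (m + 1), ∫ x in Rg ch (q i), ν x) + ∫ x in (q (m + 1)).s, ν x := by
    rw [Finset.sum_range_succ, Finset.sum_range_succ' (fun i => ∫ x in Rg ch (q i), ν x)]
    have h1 := hν0 (Rg ch (q 0))
    have h2 : ∫ x in Rg ch (q (m + 1)), ν x ≤ ∫ x in (q (m + 1)).s, ν x := by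
      refine setIntegral_mono_set
        (h.nint.mono_set ((h181_s_sub_cl _).trans (h.sub _ (hP (m + 1) le_rfl))))
        (Eventually.of_forall fun x => h.nn x)
        (LE.le.eventuallyLE fun x hx => hx.1)
    linarith
  have hwt : ∑ i ∈ Finset.range (m + 1), wt u ν ch d S (q i) (q (i + 1)) =
      (∑ i ∈ Finset.range (m + 1), Ds u ch d (q i) (1 / 4)) +
      (∑ i ∈ Finset.range (m + 1), ∑ κ ∈ ch (q i), Dq ch d κ) +
      (∑ i ∈ Finset.range (m + 1), ∑ κ ∈ (ch (q i)).erase (q (i + 1)), S κ) +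
      (∑ i ∈ Finset.range (m + 1), ∑ κ ∈ (ch (q i)).erase (q (i + 1)), ∫ x in κ.s, ν x) +
      (∑ i ∈ Finset.range (m + 1), ∫ x in Rg ch (q i), ν x) +
      ∑ i ∈ Finset.range (m + 1), ∫ x in Rg ch (q (i + 1)), ν x := by
    simp only [← Finset.sum_add_distrib]
    refine Finset.sum_congr rfl fun i _ => ?_
    unfold wt
    have : (∑ κ ∈ (@Finset.erase (Bx n) (fun a b => Classical.propDecidable (a = b)) (ch (q i))
        (q (i + 1))), (S κ + ∫ x in κ.s, ν x)) =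
        (∑ κ ∈ (ch (q i)).erase (q (i + 1)), S κ) +
          ∑ κ ∈ (ch (q i)).erase (q (i + 1)), ∫ x in κ.s, ν x := by
      rw [Finset.sum_add_distrib]
    rw [this]
    ring
  rw [hwt]
  have := hν0 (q 0).s
  have := hν0 (q (m + 1)).s
  linarith

end H930.HS.XWtS

namespace H930.HS

export XWtS (wt_sum chain_S)

end H930.HS
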