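import Pool.Agent.Helper930.HS.CTilt
import Pool.Agent.Helper930.HS.IsoQ
import Pool.Agent.Helper930.HS.JcAlg
import Pool.Agent.Helper930.HS.PcDer
import Pool.Agent.Helper930.HS.TeB
import Pool.Agent.Helper930.HS.Thr
import Pool.Agent.Helper930.HS.Side
import Pool.Agent.Helper930.HS.SideD
import Pool.Agent.Helper930.HS.WtS
import Pool.Agent.Helper930.HS.TLe

set_option autoImplicit false

open MeasureTheory Metric Set Filter Topology
open scoped ENNReal NNReal ContDiff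

namespace H930.HS.XCD2

open H930.BL



theorem j12664_cont_fn {n : ℕ} {u : E n → E (n + 1)} (hu : ContDiff ℝ ∞ u) :
    Continuous fun x => fn (Dm u x) := by
  unfold fn
  refine Real.continuous_sqrt.comp (continuous_finsetSum _ fun a _ =>
    continuous_finsetSum _ fun b _ => Continuous.pow ?_ 2)
  show Continuous (pd (fun y => u y a) b)
  exact continuous_pd (((contDiff_pi.1 hu) a).of_le (by exact_mod_cast le_top)) b

theorem j12664_cont_Dm {n : ℕ} {u : E n → E (n + 1)} (hu : ContDiff ℝ ∞ u) (a : Fin (n + 1))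
    (b : Fin n) : Continuous fun x => Dm u x a b := by
  show Continuous (pd (fun y => u y a) b)
  exact continuous_pd (((contDiff_pi.1 hu) a).of_le (by exact_mod_cast le_top)) b

theorem j12664_cont_te {n : ℕ} {u : E n → E (n + 1)} (hu : ContDiff ℝ ∞ u) (e : E (n + 1)) :
    Continuous (te u e) := by
  unfold te
  refine ((j12664_cont_fn hu).pow _).mul (((j12664_cont_fn hu).pow 2).sub
    (continuous_finsetSum _ fun j _ => (continuous_finsetSum _ fun a _ => ?_).pow 2))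
  exact continuous_const.mul (j12664_cont_Dm hu a j)

theorem j12664_cont_qs {n : ℕ} {u : E n → E (n + 1)} (hu : ContDiff ℝ ∞ u) (c : E (n + 1)) :
    Continuous fun x => qs c (u x) := by
  unfold qs
  have h := hu.continuous
  exact continuous_finsetSum _ fun a _ =>
    (((continuous_apply a).comp h).sub continuous_const).pow 2

theorem j12664_cont_kf : Continuous kf := by
  unfold kf
  refine Real.smoothTransition.continuous.comp ?_
  fun_prop

theorem j12664_kf_nonneg (q : ℝ) : 0 ≤ kf q := Real.smoothTransition.nonneg _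

theorem j12664_kf_le_one (q : ℝ) : kf q ≤ 1 := Real.smoothTransition.le_one _

theorem j12664_kf_zero {q : ℝ} (h : q ≤ 1 / 4) : kf q = 0 :=
  Real.smoothTransition.zero_of_nonpos (by linarith)

theorem j12664_meas_s {n : ℕ} (Q : Bx n) : MeasurableSet Q.s := by
  have : Q.s = Set.pi Set.univ fun i => Set.Ico (Q.a i) (Q.b i) := by
    ext x; simp [Bx.s, Set.mem_pi]
  rw [this]
  exact MeasurableSet.univ_pi fun i => measurableSet_Ico

theorem j12664_compact_cl {n : ℕ} (Q : Bx n) : IsCompact Q.cl := by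
  have : Q.cl = Set.Icc Q.a Q.b := by
    ext x
    simp only [Bx.cl, Set.mem_setOf_eq, Set.mem_Icc, Pi.le_def]
    exact ⟨fun h => ⟨fun i => (h i).1, fun i => (h i).2⟩, fun h i => ⟨h.1 i, h.2 i⟩⟩
  rw [this]
  exact isCompact_Icc

theorem j12664_s_sub_cl {n : ℕ} (Q : Bx n) : Q.s ⊆ Q.cl := fun x hx i => ⟨(hx i).1, (hx i).2.le⟩

theorem j12664_meas_Rg {n : ℕ} (ch : Bx n → Finset (Bx n)) (Q : Bx n) :
    MeasurableSet (Rg ch Q) := by
  have : Rg ch Q = Q.s \ ⋃ κ ∈ ch Q, κ.s := by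
    ext x; simp [Rg]
  rw [this]
  exact (j12664_meas_s Q).diff (Finset.measurableSet_biUnion _ fun κ _ => j12664_meas_s κ)

theorem j12664_meas_Nr {n : ℕ} {u : E n → E (n + 1)} (hu : ContDiff ℝ ∞ u)
    (ch : Bx n → Finset (Bx n)) (Q : Bx n) (r : ℝ) : MeasurableSet (Nr u ch Q r) := by
  unfold Nr
  exact (j12664_meas_Rg ch Q).inter
    (measurableSet_le (j12664_cont_qs hu _).measurable measurable_const)

theorem j12664_Rg_sub {n : ℕ} (ch : Bx n → Finset (Bx n)) (Q : Bx n) : Rg ch Q ⊆ Q.s :=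
  fun _ hx => hx.1

theorem j12664_Nr_sub {n : ℕ} (u : E n → E (n + 1)) (ch : Bx n → Finset (Bx n)) (Q : Bx n) (r : ℝ) :
    Nr u ch Q r ⊆ Rg ch Q := fun _ hx => hx.1

theorem j12664_intOn {n : ℕ} {f : E n → ℝ} (hf : Continuous f) (Q : Bx n) :
    IntegrableOn f Q.s :=
  (hf.continuousOn.integrableOn_compact (j12664_compact_cl Q)).mono_set (j12664_s_sub_cl Q)

/-- disjoint pieces of a set -/
theorem j12664_sum_le {n : ℕ} {f : E n → ℝ} (hf0 : ∀ x, 0 ≤ f x) {Z : Set (E n)}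
    (hf : IntegrableOn f Z) {A : Set (E n)} (hA : MeasurableSet A) (hAZ : A ⊆ Z)
    (hZm : MeasurableSet Z)
    (s : Finset (Bx n)) (D : Bx n → Set (E n)) (hD : ∀ κ ∈ s, MeasurableSet (D κ))
    (hDZ : ∀ κ ∈ s, D κ ⊆ Z) (hAD : ∀ κ ∈ s, Disjoint A (D κ))
    (hDD : ∀ κ ∈ s, ∀ κ' ∈ s, κ ≠ κ' → Disjoint (D κ) (D κ')) :
    (∫ x in A, f x) + ∑ κ ∈ s, ∫ x in D κ, f x = (∫ x in A ∪ ⋃ κ ∈ s, D κ, f x) ∧
      (∫ x in A ∪ ⋃ κ ∈ s, D κ, f x) ≤ ∫ x in Z, f x := by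
  have h1 : ∫ x in ⋃ κ ∈ s, D κ, f x = ∑ κ ∈ s, ∫ x in D κ, f x :=
    integral_biUnion_finset s hD (fun κ hκ κ' hκ' hne => hDD κ hκ κ' hκ' hne)
      fun κ hκ => hf.mono_set (hDZ κ hκ)
  have hU : (⋃ κ ∈ s, D κ) ⊆ Z := Set.iUnion₂_subset hDZ
  have hUm : MeasurableSet (⋃ κ ∈ s, D κ) := Finset.measurableSet_biUnion _ hD
  have hdis : Disjoint A (⋃ κ ∈ s, D κ) := by
    rw [Set.disjoint_iUnion₂_right]
    exact hAD
  constructor
  · rw [setIntegral_union hdis hUm (hf.mono_set hAZ) (hf.mono_set hU), h1]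
  · exact setIntegral_mono_set hf (ae_of_all _ hf0)
      (HasSubset.Subset.eventuallyLE (Set.union_subset hAZ hU))


theorem j12664_te2 (u : E 2 → E (2 + 1)) (e : E (2 + 1)) (x : E 2) :
    te u e x = fn (Dm u x) ^ 2 - ∑ j, (∑ a, e a * Dm u x a j) ^ 2 := by
  unfold te
  rw [Nat.sub_self, pow_zero, one_mul]

/-- Cauchy-Schwarz -/
theorem j12664_cs {μ : Measure (E 2)} {f g : E 2 → ℝ} (hf0 : ∀ x, 0 ≤ f x) (hg0 : ∀ x, 0 ≤ g x)
    (hfm : AEStronglyMeasurable f μ) (hgm : AEStronglyMeasurable (fun x => Real.sqrt (g x)) μ)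
    (hf : Integrable (fun x => f x ^ 2) μ) (hg : Integrable g μ) :
    ∫ x, f x * Real.sqrt (g x) ∂μ ≤ Real.sqrt (∫ x, f x ^ 2 ∂μ) * Real.sqrt (∫ x, g x ∂μ) := by
  have e1 : ENNReal.ofReal 2 = 2 := by simp
  have h1 := integral_mul_le_Lp_mul_Lq_of_nonneg (μ := μ) (p := 2) (q := 2)
    Real.HolderConjugate.two_two (f := f) (g := fun x => Real.sqrt (g x)) (ae_of_all _ hf0)
    (ae_of_all _ fun x => Real.sqrt_nonneg _)
    (by rw [e1]; exact (memLp_two_iff_integrable_sq hfm).2 hf)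
    (by
      rw [e1]
      refine (memLp_two_iff_integrable_sq hgm).2 ?_
      refine hg.congr (ae_of_all _ fun x => ?_)
      show g x = Real.sqrt (g x) ^ 2
      rw [Real.sq_sqrt (hg0 x)])
  have h2 : ∫ x, f x ^ (2 : ℝ) ∂μ = ∫ x, f x ^ 2 ∂μ := by
    refine integral_congr_ae (ae_of_all _ fun x => ?_)
    show f x ^ (2 : ℝ) = f x ^ 2
    rw [Real.rpow_two]
  have h3 : ∫ x, Real.sqrt (g x) ^ (2 : ℝ) ∂μ = ∫ x, g x ∂μ := by
    refine integral_congr_ae (ae_of_all _ fun x => ?_)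
    show Real.sqrt (g x) ^ (2 : ℝ) = g x
    rw [Real.rpow_two, Real.sq_sqrt (hg0 x)]
  rw [h2, h3] at h1
  rwa [Real.sqrt_eq_rpow, Real.sqrt_eq_rpow]

/-- energy of the node region -/
noncomputable def j12664_G (u : E 2 → E (2 + 1)) (ch : Bx 2 → Finset (Bx 2)) (κ : Bx 2) : ℝ :=
  EN u (Rg ch κ) + ∑ κ' ∈ ch κ, EN u (Nr u ch κ' (1 / 64))

noncomputable def j12664_W (u : E 2 → E (2 + 1)) (ch : Bx 2 → Finset (Bx 2)) (κ : Bx 2)
    (e : E (2 + 1)) : ℝ :=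
  (∫ x in Rg ch κ, kf (qs (u κ.a) (u x)) * te u e x) +
    ∑ κ' ∈ ch κ, ∫ x in Nr u ch κ' (1 / 64), te u e x

noncomputable def j12664_V (u : E 2 → E (2 + 1)) (ch : Bx 2 → Finset (Bx 2)) (κ : Bx 2)
    (e : E (2 + 1)) : ℝ :=
  ∫ x in Rg ch κ, (1 - kf (qs (u κ.a) (u x))) * te u e x

theorem j12664_EN_nonneg {n : ℕ} (u : E n → E (n + 1)) (A : Set (E n)) : 0 ≤ EN u A := by
  unfold EN
  exact integral_nonneg fun x => pow_nonneg (Real.sqrt_nonneg _) _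

theorem j12664_fn_nonneg {m n : ℕ} (M : Matrix (Fin m) (Fin n) ℝ) : 0 ≤ fn M := Real.sqrt_nonneg _

theorem j12664_G_nonneg (u : E 2 → E (2 + 1)) (ch : Bx 2 → Finset (Bx 2)) (κ : Bx 2) :
    0 ≤ j12664_G u ch κ :=
  add_nonneg (j12664_EN_nonneg _ _) (Finset.sum_nonneg fun _ _ => j12664_EN_nonneg _ _)

theorem j12664_W_nonneg (u : E 2 → E (2 + 1)) (ch : Bx 2 → Finset (Bx 2)) (κ : Bx 2)
    (e : E (2 + 1)) (he : Ue e) : 0 ≤ j12664_W u ch κ e :=
  add_nonneg (integral_nonneg fun x => mul_nonneg (j12664_kf_nonneg _)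
    (te_bounds le_rfl u e he x).1) (Finset.sum_nonneg fun _ _ =>
      integral_nonneg fun x => (te_bounds le_rfl u e he x).1)

theorem j12664_V_nonneg (u : E 2 → E (2 + 1)) (ch : Bx 2 → Finset (Bx 2)) (κ : Bx 2)
    (e : E (2 + 1)) (he : Ue e) : 0 ≤ j12664_V u ch κ e :=
  integral_nonneg fun x => mul_nonneg (sub_nonneg.2 (j12664_kf_le_one _))
    (te_bounds le_rfl u e he x).1

open scoped Classical in
theorem j12664_node : ∃ K : ℝ, 0 < K ∧ ∀ {u : E 2 → E (2 + 1)} {P : Bx 2 → Prop}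
    {ch : Bx 2 → Finset (Bx 2)} {rk : Bx 2 → ℕ} {d : Bx 2 → E (2 + 1) → ℝ}, Cells u P ch rk →
    (∀ Q, P Q → DegF u ch Q (d Q)) → ∀ κ, P κ → ∀ (e e' : E (2 + 1)), Ue e → Ue e' →
    Dq ch d κ ≤ K * (j12664_G u ch κ *
      (2 * j12664_V u ch κ e + 2 * j12664_W u ch κ e')) ^ ((3 : ℝ) / 4) := by
  obtain ⟨C0, hC0, hiso⟩ := isoQ (n := 2) le_rfl
  obtain ⟨A1, hA1, hPc⟩ := Pc_der (n := 2)
  obtain ⟨C1, hC1, hJ⟩ := Jc_tilt2 (n := 2) le_rfl (max 1 A1)
  refine ⟨C0 * C1 ^ ((3 : ℝ) / 2), by positivity, ?_⟩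
  intro u P ch rk d hc hd κ hκ e e' he he'
  have hu := hc.smooth
  set A : Set (E 2) := {x | x ∈ Rg ch κ ∧ kf (qs (u κ.a) (u x)) ≤ 1 / 2} with hA
  have hAm : MeasurableSet A := (j12664_meas_Rg ch κ).inter
    (measurableSet_le ((j12664_cont_kf.comp (j12664_cont_qs hu _)).measurable) measurable_const)
  set τ : E 2 → ℝ := fun x => if x ∈ A then te u e x else te u e' x with hτ
  have hτ0 : ∀ x, 0 ≤ τ x := by
    intro x
    simp only [hτ]
    split_ifs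
    · exact (te_bounds le_rfl u e he x).1
    · exact (te_bounds le_rfl u e' he' x).1
  have hτ1 : ∀ x, τ x ≤ fn (Dm u x) ^ 2 := by
    intro x
    simp only [hτ]
    split_ifs
    · exact (te_bounds le_rfl u e he x).2.1
    · exact (te_bounds le_rfl u e' he' x).2.1
  have hτm : Measurable τ :=
    Measurable.ite hAm (j12664_cont_te hu e).measurable (j12664_cont_te hu e').measurable
  set t : E 2 → ℝ := fun x => C1 * (fn (Dm u x) * Real.sqrt (τ x)) with ht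
  have ht0 : ∀ x, 0 ≤ t x := fun x =>
    mul_nonneg hC1.le (mul_nonneg (j12664_fn_nonneg _) (Real.sqrt_nonneg _))
  have hfnm : Measurable fun x => fn (Dm u x) := (j12664_cont_fn hu).measurable
  have htm : Measurable t := (hfnm.mul hτm.sqrt).const_mul _
  have hfn2 : IntegrableOn (fun x => fn (Dm u x) ^ 2) κ.s :=
    j12664_intOn ((j12664_cont_fn hu).pow 2) κ
  have hτi : IntegrableOn τ κ.s := by
    refine Integrable.mono' hfn2 hτm.aestronglyMeasurable (ae_of_all _ fun x => ?_)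
    rw [Real.norm_of_nonneg (hτ0 x)]
    exact hτ1 x
  have hti : IntegrableOn t κ.s := by
    refine Integrable.mono' (hfn2.const_mul C1) htm.aestronglyMeasurable (ae_of_all _ fun x => ?_)
    rw [Real.norm_of_nonneg (ht0 x)]
    simp only [ht]
    refine mul_le_mul_of_nonneg_left ?_ hC1.le
    rw [pow_two]
    refine mul_le_mul_of_nonneg_left ?_ (j12664_fn_nonneg _)
    rw [← Real.sqrt_sq (j12664_fn_nonneg (Dm u x))]
    exact Real.sqrt_le_sqrt (hτ1 x)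
  -- the pointwise bound
  have hkey : ∀ (B : Matrix (Fin (2 + 1)) (Fin (2 + 1)) ℝ), (∀ i j, |B i j| ≤ max 1 A1) →
      ∀ x a, |Jc (B * Dm u x) a| ≤ t x := by
    intro B hB x a
    simp only [ht, hτ]
    split_ifs with hx
    · rw [j12664_te2]
      have := hJ B hB (Dm u x) e he a
      rwa [show 2 - 1 = 1 from rfl, pow_one] at this
    · rw [j12664_te2]
      have := hJ B hB (Dm u x) e' he' a
      rwa [show 2 - 1 = 1 from rfl, pow_one] at this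
  have hb1 : ∀ x a, |Jc (Dm u x) a| ≤ t x := by
    intro x a
    have h1 := hkey 1 (by
      intro i j
      rw [Matrix.one_apply]
      split_ifs
      · rw [abs_one]; exact le_max_left _ _
      · rw [abs_zero]; exact zero_le_one.trans (le_max_left _ _)) x a
    rwa [Matrix.one_mul] at h1
  have hb2 : ∀ c x a, |Jc (Dm (fun z => Pc c (u z)) x) a| ≤ t x := by
    intro c x a
    obtain ⟨B, hB, hBe⟩ := (hPc u hu c).2 x
    rw [hBe]
    exact hkey B (fun i j => (hB i j).trans (le_max_right _ _)) x a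
  have h1 := hiso hc hd κ hκ t ht0 hti hb1 hb2
  -- the sets
  have hN : ∀ κ' ∈ ch κ, Nr u ch κ' (1 / 64) ⊆ κ'.s := fun κ' _ =>
    (j12664_Nr_sub u ch κ' _).trans (j12664_Rg_sub ch κ')
  have hNZ : ∀ κ' ∈ ch κ, Nr u ch κ' (1 / 64) ⊆ κ.s := fun κ' hκ' =>
    (hN κ' hκ').trans (hc.chs κ hκ κ' hκ')
  have hNm : ∀ κ' ∈ ch κ, MeasurableSet (Nr u ch κ' (1 / 64)) := fun κ' _ =>
    j12664_meas_Nr hu ch κ' _
  have hAD : ∀ κ' ∈ ch κ, Disjoint (Rg ch κ) (Nr u ch κ' (1 / 64)) := by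
    intro κ' hκ'
    rw [Set.disjoint_left]
    intro x hx hx'
    exact hx.2 κ' hκ' (hN κ' hκ' hx')
  have hDD : ∀ κ' ∈ ch κ, ∀ κ'' ∈ ch κ, κ' ≠ κ'' →
      Disjoint (Nr u ch κ' (1 / 64)) (Nr u ch κ'' (1 / 64)) := by
    intro κ' h' κ'' h'' hne
    exact (hc.disj κ hκ κ' h' κ'' h'' hne).mono (hN κ' h') (hN κ'' h'')
  set T : Set (E 2) := Rg ch κ ∪ ⋃ κ' ∈ ch κ, Nr u ch κ' (1 / 64) with hT
  have hTs : T ⊆ κ.s := Set.union_subset (j12664_Rg_sub ch κ) (Set.iUnion₂_subset hNZ)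
  have e1 := (j12664_sum_le ht0 hti (j12664_meas_Rg ch κ) (j12664_Rg_sub ch κ) (j12664_meas_s κ)
    (ch κ) (fun κ' => Nr u ch κ' (1 / 64)) hNm hNZ hAD hDD).1
  have e2 := (j12664_sum_le hτ0 hτi (j12664_meas_Rg ch κ) (j12664_Rg_sub ch κ) (j12664_meas_s κ)
    (ch κ) (fun κ' => Nr u ch κ' (1 / 64)) hNm hNZ hAD hDD).1
  have e3 := (j12664_sum_le (fun x => pow_nonneg (j12664_fn_nonneg (Dm u x)) 2) hfn2
    (j12664_meas_Rg ch κ) (j12664_Rg_sub ch κ) (j12664_meas_s κ)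
    (ch κ) (fun κ' => Nr u ch κ' (1 / 64)) hNm hNZ hAD hDD).1
  rw [← hT] at e1 e2 e3
  have e3' : j12664_G u ch κ = ∫ x in T, fn (Dm u x) ^ 2 := e3
  rw [e1] at h1
  have h2 : ∫ x in T, t x ≤ C1 * (Real.sqrt (∫ x in T, fn (Dm u x) ^ 2) *
      Real.sqrt (∫ x in T, τ x)) := by
    simp only [ht]
    rw [integral_const_mul]
    refine mul_le_mul_of_nonneg_left ?_ hC1.le
    exact j12664_cs (fun x => j12664_fn_nonneg _) hτ0 hfnm.aestronglyMeasurable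
      hτm.sqrt.aestronglyMeasurable (hfn2.mono_set hTs) (hτi.mono_set hTs)
  -- the tilt
  have h3 : ∫ x in T, τ x ≤ 2 * j12664_V u ch κ e + 2 * j12664_W u ch κ e' := by
    rw [← e2]
    have hV : IntegrableOn (fun x => (1 - kf (qs (u κ.a) (u x))) * te u e x) (Rg ch κ) :=
      (j12664_intOn ((continuous_const.sub (j12664_cont_kf.comp (j12664_cont_qs hu _))).mul
        (j12664_cont_te hu e)) κ).mono_set (j12664_Rg_sub ch κ)
    have hW : IntegrableOn (fun x => kf (qs (u κ.a) (u x)) * te u e' x) (Rg ch κ) :=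
      (j12664_intOn ((j12664_cont_kf.comp (j12664_cont_qs hu _)).mul
        (j12664_cont_te hu e')) κ).mono_set (j12664_Rg_sub ch κ)
    have h4 : ∫ x in Rg ch κ, τ x ≤ 2 * j12664_V u ch κ e +
        2 * ∫ x in Rg ch κ, kf (qs (u κ.a) (u x)) * te u e' x := by
      unfold j12664_V
      rw [← integral_const_mul, ← integral_const_mul, ← integral_add (hV.const_mul 2)
        (hW.const_mul 2)]
      refine setIntegral_mono_on (hτi.mono_set (j12664_Rg_sub ch κ))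
        ((hV.const_mul 2).add (hW.const_mul 2)) (j12664_meas_Rg ch κ) fun x hx => ?_
      have hk0 := j12664_kf_nonneg (qs (u κ.a) (u x))
      have hk1 := j12664_kf_le_one (qs (u κ.a) (u x))
      have ht1 := (te_bounds le_rfl u e he x).1
      have ht2 := (te_bounds le_rfl u e' he' x).1
      simp only [hτ]
      split_ifs with hxA
      · have h5 : kf (qs (u κ.a) (u x)) ≤ 1 / 2 := hxA.2
        have h6 := mul_nonneg hk0 ht2
        nlinarith
      · have h5 : 1 / 2 < kf (qs (u κ.a) (u x)) := by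
          by_contra hcon
          exact hxA ⟨hx, not_lt.1 hcon⟩
        have h6 := mul_nonneg (sub_nonneg.2 hk1) ht1
        nlinarith
    have h5 : ∑ κ' ∈ ch κ, ∫ x in Nr u ch κ' (1 / 64), τ x ≤
        2 * ∑ κ' ∈ ch κ, ∫ x in Nr u ch κ' (1 / 64), te u e' x := by
      rw [Finset.mul_sum]
      refine Finset.sum_le_sum fun κ' hκ' => ?_
      have h6 : ∫ x in Nr u ch κ' (1 / 64), τ x = ∫ x in Nr u ch κ' (1 / 64), te u e' x := by
        refine setIntegral_congr_fun (hNm κ' hκ') fun x hx => ?_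
        simp only [hτ]
        rw [if_neg]
        intro hxA
        exact hxA.1.2 κ' hκ' (hN κ' hκ' hx)
      rw [h6]
      have h7 : 0 ≤ ∫ x in Nr u ch κ' (1 / 64), te u e' x :=
        integral_nonneg fun x => (te_bounds le_rfl u e' he' x).1
      linarith
    unfold j12664_W
    linarith
  have hT0 : 0 ≤ ∫ x in T, t x := integral_nonneg ht0
  have hG0 := j12664_G_nonneg u ch κ
  have hY0 : 0 ≤ 2 * j12664_V u ch κ e + 2 * j12664_W u ch κ e' := by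
    have := j12664_V_nonneg u ch κ e he
    have := j12664_W_nonneg u ch κ e' he'
    linarith
  set Y := 2 * j12664_V u ch κ e + 2 * j12664_W u ch κ e' with hY
  have h8 : ∫ x in T, t x ≤ C1 * (j12664_G u ch κ * Y) ^ ((1 : ℝ) / 2) := by
    refine h2.trans ?_
    refine mul_le_mul_of_nonneg_left ?_ hC1.le
    rw [← e3', ← Real.sqrt_eq_rpow, ← Real.sqrt_mul hG0]
    refine Real.sqrt_le_sqrt (mul_le_mul_of_nonneg_left h3 hG0)
  refine h1.trans ?_
  rw [mul_assoc]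
  refine mul_le_mul_of_nonneg_left ?_ hC0.le
  have h9 : ((((2 : ℕ) : ℝ)) + 1) / ((2 : ℕ) : ℝ) = (3 : ℝ) / 2 := by norm_num
  rw [h9]
  calc (∫ x in T, t x) ^ ((3 : ℝ) / 2) ≤
        (C1 * (j12664_G u ch κ * Y) ^ ((1 : ℝ) / 2)) ^ ((3 : ℝ) / 2) :=
        Real.rpow_le_rpow hT0 h8 (by norm_num)
    _ = C1 ^ ((3 : ℝ) / 2) * (j12664_G u ch κ * Y) ^ ((3 : ℝ) / 4) := by
        rw [Real.mul_rpow hC1.le (Real.rpow_nonneg (mul_nonneg hG0 hY0) _),
          ← Real.rpow_mul (mul_nonneg hG0 hY0)]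
        norm_num


theorem j12664_ENint {n : ℕ} {u : E n → E (n + 1)} (hu : ContDiff ℝ ∞ u) (Q : Bx n) :
    IntegrableOn (fun x => fn (Dm u x) ^ n) Q.s :=
  j12664_intOn ((j12664_cont_fn hu).pow n) Q

theorem j12664_EN_mono {n : ℕ} {u : E n → E (n + 1)} (hu : ContDiff ℝ ∞ u) {Q : Bx n}
    {A A' : Set (E n)} (h : A ⊆ A') (h' : A' ⊆ Q.s) : EN u A ≤ EN u A' := by
  unfold EN
  exact setIntegral_mono_set ((j12664_ENint hu Q).mono_set h')
    (ae_of_all _ fun x => pow_nonneg (j12664_fn_nonneg _) _) (HasSubset.Subset.eventuallyLE h)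

theorem j12664_V_sum {u : E 2 → E (2 + 1)} {ch : Bx 2 → Finset (Bx 2)} (Q : Bx 2)
    (e : E (2 + 1)) (he : Ue e) :
    ∑ κ ∈ ch Q, j12664_V u ch κ e ≤ tau u ch Q e := by
  have h1 : 0 ≤ ∫ x in Rg ch Q, kf (qs (u Q.a) (u x)) * te u e x :=
    integral_nonneg fun x => mul_nonneg (j12664_kf_nonneg _) (te_bounds le_rfl u e he x).1
  unfold tau j12664_V
  linarith

theorem j12664_tau_nonneg {u : E 2 → E (2 + 1)} {ch : Bx 2 → Finset (Bx 2)} (Q : Bx 2)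
    (e : E (2 + 1)) (he : Ue e) : 0 ≤ tau u ch Q e :=
  (Finset.sum_nonneg fun κ _ => j12664_V_nonneg u ch κ e he).trans (j12664_V_sum Q e he)

theorem j12664_W_le_tau {u : E 2 → E (2 + 1)} {P : Bx 2 → Prop} {ch : Bx 2 → Finset (Bx 2)}
    {rk : Bx 2 → ℕ} (hc : Cells u P ch rk) (Q : Bx 2) (e : E (2 + 1)) (he : Ue e) :
    j12664_W u ch Q e ≤ tau u ch Q e := by
  have hu := hc.smooth
  unfold j12664_W tau
  refine add_le_add_right (Finset.sum_le_sum fun κ hκ => ?_) _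
  have hV : IntegrableOn (fun x => (1 - kf (qs (u κ.a) (u x))) * te u e x) (Rg ch κ) :=
    (j12664_intOn ((continuous_const.sub (j12664_cont_kf.comp (j12664_cont_qs hu _))).mul
      (j12664_cont_te hu e)) κ).mono_set (j12664_Rg_sub ch κ)
  have h1 : ∫ x in Nr u ch κ (1 / 64), te u e x =
      ∫ x in Nr u ch κ (1 / 64), (1 - kf (qs (u κ.a) (u x))) * te u e x := by
    refine setIntegral_congr_fun (j12664_meas_Nr hu ch κ _) fun x hx => ?_
    have h2 : qs (u κ.a) (u x) ≤ 1 / 64 := hx.2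
    show te u e x = (1 - kf (qs (u κ.a) (u x))) * te u e x
    rw [j12664_kf_zero (by linarith)]
    ring
  rw [h1]
  exact setIntegral_mono_set hV (ae_of_all _ fun x =>
    mul_nonneg (sub_nonneg.2 (j12664_kf_le_one _)) (te_bounds le_rfl u e he x).1)
    (HasSubset.Subset.eventuallyLE (j12664_Nr_sub u ch κ _))

theorem j12664_W_zero {u : E 2 → E (2 + 1)} {P : Bx 2 → Prop} {ch : Bx 2 → Finset (Bx 2)}
    {rk : Bx 2 → ℕ} (hc : Cells u P ch rk) (κ : Bx 2) (hκ : P κ) :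
    j12664_W u ch κ 0 ≤ Fq u κ := by
  have hu := hc.smooth
  have he0 : Ue (0 : E (2 + 1)) := Or.inl rfl
  set F : Set (E 2) := {x | x ∈ κ.s ∧ 1 / 4 ≤ qs (u κ.a) (u x) ∧ qs (u κ.a) (u x) ≤ 144} with hF
  have hFm : MeasurableSet F := (j12664_meas_s κ).inter
    ((measurableSet_le measurable_const (j12664_cont_qs hu _).measurable).inter
      (measurableSet_le (j12664_cont_qs hu _).measurable measurable_const))
  have hFs : F ⊆ κ.s := fun x hx => hx.1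
  have hfn2 : IntegrableOn (fun x => fn (Dm u x) ^ 2) κ.s := j12664_ENint hu κ
  have hN : ∀ κ' ∈ ch κ, Nr u ch κ' (1 / 64) ⊆ κ'.s := fun κ' _ =>
    (j12664_Nr_sub u ch κ' _).trans (j12664_Rg_sub ch κ')
  have hNZ : ∀ κ' ∈ ch κ, Nr u ch κ' (1 / 64) ⊆ F := by
    intro κ' hκ' x hx
    have h1 : qs (u κ'.a) (u x) ≤ 1 / 64 := hx.2
    have h2 := hc.lo κ hκ κ' hκ'
    have h3 := hc.hi κ hκ κ' hκ'
    refine ⟨hc.chs κ hκ κ' hκ' (hN κ' hκ' hx), ?_, ?_⟩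
    · have h4 : (1 / 2) * qs (u κ.a) (u κ'.a) - qs (u κ'.a) (u x) ≤ qs (u κ.a) (u x) := by
        unfold qs
        rw [Finset.mul_sum, ← Finset.sum_sub_distrib]
        refine Finset.sum_le_sum fun a _ => ?_
        nlinarith [sq_nonneg (u κ'.a a - u κ.a a + 2 * (u x a - u κ'.a a))]
      linarith
    · have h4 : qs (u κ.a) (u x) ≤ (11 / 10) * qs (u κ.a) (u κ'.a) + 11 * qs (u κ'.a) (u x) := by
        unfold qs
        rw [Finset.mul_sum, Finset.mul_sum, ← Finset.sum_add_distrib]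
        refine Finset.sum_le_sum fun a _ => ?_
        nlinarith [sq_nonneg (u κ'.a a - u κ.a a - 10 * (u x a - u κ'.a a))]
      linarith
  have hNm : ∀ κ' ∈ ch κ, MeasurableSet (Nr u ch κ' (1 / 64)) := fun κ' _ =>
    j12664_meas_Nr hu ch κ' _
  have hAD : ∀ κ' ∈ ch κ, Disjoint (Rg ch κ ∩ F) (Nr u ch κ' (1 / 64)) := by
    intro κ' hκ'
    rw [Set.disjoint_left]
    intro x hx hx'
    exact hx.1.2 κ' hκ' (hN κ' hκ' hx')
  have hDD : ∀ κ' ∈ ch κ, ∀ κ'' ∈ ch κ, κ' ≠ κ'' →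
      Disjoint (Nr u ch κ' (1 / 64)) (Nr u ch κ'' (1 / 64)) := by
    intro κ' h' κ'' h'' hne
    exact (hc.disj κ hκ κ' h' κ'' h'' hne).mono (hN κ' h') (hN κ'' h'')
  have e3 := j12664_sum_le (fun x => pow_nonneg (j12664_fn_nonneg (Dm u x)) 2)
    (hfn2.mono_set hFs) ((j12664_meas_Rg ch κ).inter hFm) (Set.inter_subset_right) hFm
    (ch κ) (fun κ' => Nr u ch κ' (1 / 64)) hNm hNZ hAD hDD
  have h5 : ∫ x in Rg ch κ, kf (qs (u κ.a) (u x)) * te u 0 x ≤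
      ∫ x in Rg ch κ ∩ F, fn (Dm u x) ^ 2 := by
    rw [← setIntegral_indicator hFm]
    have hW : IntegrableOn (fun x => kf (qs (u κ.a) (u x)) * te u 0 x) (Rg ch κ) :=
      (j12664_intOn ((j12664_cont_kf.comp (j12664_cont_qs hu _)).mul
        (j12664_cont_te hu 0)) κ).mono_set (j12664_Rg_sub ch κ)
    refine setIntegral_mono_on hW ((hfn2.indicator hFm).mono_set (j12664_Rg_sub ch κ))
      (j12664_meas_Rg ch κ) fun x hx => ?_
    have h6 := (te_bounds le_rfl u 0 he0 x).2.2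
    rw [h6]
    have hk0 := j12664_kf_nonneg (qs (u κ.a) (u x))
    have hk1 := j12664_kf_le_one (qs (u κ.a) (u x))
    have hf0 : 0 ≤ fn (Dm u x) ^ 2 := pow_nonneg (j12664_fn_nonneg _) _
    by_cases hxF : x ∈ F
    · rw [Set.indicator_of_mem hxF]
      nlinarith
    · rw [Set.indicator_of_notMem hxF]
      have h7 : kf (qs (u κ.a) (u x)) = 0 := by
        apply j12664_kf_zero
        by_contra hcon
        rw [not_le] at hcon
        have h8 := hc.small κ hκ x hx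
        exact hxF ⟨hx.1, hcon.le, by linarith⟩
      rw [h7, zero_mul]
  have h6 : ∑ κ' ∈ ch κ, ∫ x in Nr u ch κ' (1 / 64), te u 0 x =
      ∑ κ' ∈ ch κ, ∫ x in Nr u ch κ' (1 / 64), fn (Dm u x) ^ 2 := by
    refine Finset.sum_congr rfl fun κ' _ => ?_
    refine integral_congr_ae (ae_of_all _ fun x => ?_)
    exact (te_bounds le_rfl u 0 he0 x).2.2
  have h7 : Fq u κ = ∫ x in F, fn (Dm u x) ^ 2 := rfl
  unfold j12664_W
  rw [h6, h7]
  linarith [e3.1, e3.2]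

theorem j12664_EN_split {n : ℕ} {u : E n → E (n + 1)} {P : Bx n → Prop}
    {ch : Bx n → Finset (Bx n)} {rk : Bx n → ℕ} (hc : Cells u P ch rk) (κ : Bx n) (hκ : P κ) :
    EN u (Rg ch κ) + ∑ κ' ∈ ch κ, EN u κ'.s ≤ EN u κ.s := by
  have hu := hc.smooth
  have h := j12664_sum_le (fun x => pow_nonneg (j12664_fn_nonneg (Dm u x)) n)
    (j12664_ENint hu κ) (j12664_meas_Rg ch κ) (j12664_Rg_sub ch κ) (j12664_meas_s κ)
    (ch κ) (fun κ' => κ'.s) (fun κ' _ => j12664_meas_s κ') (fun κ' hκ' => hc.chs κ hκ κ' hκ')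
    (by
      intro κ' hκ'
      rw [Set.disjoint_left]
      intro x hx hx'
      exact hx.2 κ' hκ' hx')
    (fun κ' h' κ'' h'' hne => hc.disj κ hκ κ' h' κ'' h'' hne)
  unfold EN
  linarith [h.1, h.2]

theorem j12664_EN_Nr {n : ℕ} {u : E n → E (n + 1)} {P : Bx n → Prop}
    {ch : Bx n → Finset (Bx n)} {rk : Bx n → ℕ} (hc : Cells u P ch rk) (κ : Bx n) (r : ℝ) :
    EN u (Nr u ch κ r) ≤ EN u (Rg ch κ) :=
  j12664_EN_mono hc.smooth (j12664_Nr_sub u ch κ r) (j12664_Rg_sub ch κ)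

theorem j12664_EN_Rg {n : ℕ} {u : E n → E (n + 1)} {P : Bx n → Prop}
    {ch : Bx n → Finset (Bx n)} {rk : Bx n → ℕ} (hc : Cells u P ch rk) (κ : Bx n) :
    EN u (Rg ch κ) ≤ EN u κ.s :=
  j12664_EN_mono hc.smooth (j12664_Rg_sub ch κ) subset_rfl

theorem j12664_G_le {u : E 2 → E (2 + 1)} {P : Bx 2 → Prop} {ch : Bx 2 → Finset (Bx 2)}
    {rk : Bx 2 → ℕ} (hc : Cells u P ch rk) (κ : Bx 2) (hκ : P κ) :
    j12664_G u ch κ ≤ EN u κ.s := by
  refine le_trans ?_ (j12664_EN_split hc κ hκ)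
  unfold j12664_G
  exact add_le_add_right (Finset.sum_le_sum fun κ' _ =>
    (j12664_EN_Nr hc κ' _).trans (j12664_EN_Rg hc κ')) _

theorem j12664_G_le2 {u : E 2 → E (2 + 1)} {P : Bx 2 → Prop} {ch : Bx 2 → Finset (Bx 2)}
    {rk : Bx 2 → ℕ} (hc : Cells u P ch rk) (κ κ2 : Bx 2) (hκ : P κ) (h2 : κ2 ∈ ch κ) :
    j12664_G u ch κ ≤ EN u κ.s - EN u κ2.s + EN u (Rg ch κ2) := by
  classical
  have h1 := j12664_EN_split hc κ hκ
  unfold j12664_G
  rw [← Finset.add_sum_erase _ _ h2] at h1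
  rw [← Finset.add_sum_erase _ _ h2]
  have h3 : ∑ κ' ∈ (ch κ).erase κ2, EN u (Nr u ch κ' (1 / 64)) ≤
      ∑ κ' ∈ (ch κ).erase κ2, EN u κ'.s :=
    Finset.sum_le_sum fun κ' _ => (j12664_EN_Nr hc κ' _).trans (j12664_EN_Rg hc κ')
  have h4 := j12664_EN_Nr hc κ2 (1 / 64)
  linarith

theorem j12664_G_sum {u : E 2 → E (2 + 1)} {P : Bx 2 → Prop} {ch : Bx 2 → Finset (Bx 2)}
    {rk : Bx 2 → ℕ} (hc : Cells u P ch rk) (Q κ1 : Bx 2) (hQ : P Q) (h1 : κ1 ∈ ch Q) :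
    ∑ κ ∈ ch Q, j12664_G u ch κ ≤ EN u Q.s - EN u κ1.s + j12664_G u ch κ1 := by
  classical
  have h2 := j12664_EN_split hc Q hQ
  rw [← Finset.add_sum_erase _ _ h1] at h2
  rw [← Finset.add_sum_erase _ _ h1]
  have h3 : ∑ κ ∈ (ch Q).erase κ1, j12664_G u ch κ ≤ ∑ κ ∈ (ch Q).erase κ1, EN u κ.s :=
    Finset.sum_le_sum fun κ hκ => j12664_G_le hc κ (hc.chP Q hQ κ (Finset.mem_of_mem_erase hκ))
  have h4 := j12664_EN_nonneg u (Rg ch Q)
  linarith

/-- telescoping -/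
theorem j12664_G_total {u : E 2 → E (2 + 1)} {P : Bx 2 → Prop} {ch : Bx 2 → Finset (Bx 2)}
    {rk : Bx 2 → ℕ} (hc : Cells u P ch rk) (m : ℕ) (q : ℕ → Bx 2) (hP : ∀ i ≤ m, P (q i))
    (hq : ∀ i < m, q (i + 1) ∈ ch (q i)) (hsub : ∀ i ≤ m, (q i).s ⊆ (q 0).s) :
    ∑ i ∈ Finset.range m, ∑ κ ∈ ch (q i), j12664_G u ch κ ≤ 3 * EN u (q 0).s := by
  classical
  set b : ℕ → ℝ := fun i => if i ≤ m then EN u (q i).s else 0 with hb
  have hb0 : ∀ i, 0 ≤ b i := by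
    intro i
    simp only [hb]
    split_ifs
    · exact j12664_EN_nonneg _ _
    · exact le_rfl
  have hb1 : ∀ i, b i ≤ EN u (q 0).s := by
    intro i
    simp only [hb]
    split_ifs with h
    · exact j12664_EN_mono hc.smooth (hsub i h) subset_rfl
    · exact j12664_EN_nonneg _ _
  have hRg : ∀ j ≤ m, EN u (Rg ch (q j)) ≤ b j - b (j + 1) := by
    intro j hj
    by_cases hj2 : j < m
    · simp only [hb, if_pos hj, if_pos (show j + 1 ≤ m from hj2)]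
      have h1 := j12664_EN_split hc (q j) (hP j hj)
      rw [← Finset.add_sum_erase _ _ (hq j hj2)] at h1
      have h2 : 0 ≤ ∑ κ ∈ (ch (q j)).erase (q (j + 1)), EN u κ.s :=
        Finset.sum_nonneg fun _ _ => j12664_EN_nonneg _ _
      linarith
    · have hjm : j = m := by omega
      simp only [hb, if_pos hj, if_neg (show ¬ (j + 1 ≤ m) by omega), sub_zero]
      exact j12664_EN_Rg hc _
  have hmain : ∀ i ∈ Finset.range m, ∑ κ ∈ ch (q i), j12664_G u ch κ ≤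
      (b i - b (i + 1)) + (b (i + 1) - b (i + 2)) + (b (i + 2) - b (i + 3)) := by
    intro i hi
    rw [Finset.mem_range] at hi
    have h1 := j12664_G_sum hc (q i) (q (i + 1)) (hP i hi.le) (hq i hi)
    have e1 : b i = EN u (q i).s := by simp only [hb, if_pos hi.le]
    have e2 : b (i + 1) = EN u (q (i + 1)).s := by simp only [hb, if_pos (show i + 1 ≤ m from hi)]
    by_cases hi2 : i + 1 < m
    · have e3 : b (i + 2) = EN u (q (i + 2)).s := by
        simp only [hb, if_pos (show i + 2 ≤ m from hi2)]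
      have h2 := j12664_G_le2 hc (q (i + 1)) (q (i + 2)) (hP _ hi) (hq _ hi2)
      have h3 := hRg (i + 2) hi2
      rw [show i + 2 + 1 = i + 3 from rfl] at h3
      linarith
    · have e3 : b (i + 2) = 0 := by simp only [hb, if_neg (show ¬ (i + 2 ≤ m) by omega)]
      have e4 : b (i + 3) = 0 := by simp only [hb, if_neg (show ¬ (i + 3 ≤ m) by omega)]
      have h2 := j12664_G_le hc (q (i + 1)) (hP _ hi)
      linarith
  refine (Finset.sum_le_sum hmain).trans ?_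
  rw [Finset.sum_add_distrib, Finset.sum_add_distrib]
  have t1 : ∑ i ∈ Finset.range m, (b i - b (i + 1)) = b 0 - b m := Finset.sum_range_sub' b m
  have t2 : ∑ i ∈ Finset.range m, (b (i + 1) - b (i + 2)) = b 1 - b (m + 1) :=
    Finset.sum_range_sub' (fun i => b (i + 1)) m
  have t3 : ∑ i ∈ Finset.range m, (b (i + 2) - b (i + 3)) = b 2 - b (m + 2) :=
    Finset.sum_range_sub' (fun i => b (i + 2)) m
  rw [t1, t2, t3]
  linarith [hb0 m, hb0 (m + 1), hb0 (m + 2), hb1 0, hb1 1, hb1 2]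

theorem j12664_hol {ι : Type*} (s : Finset ι) (G Y : ι → ℝ) (L : ℝ) (hG : ∀ i ∈ s, 0 ≤ G i)
    (hY : ∀ i ∈ s, 0 ≤ Y i) (hL : ∀ i ∈ s, G i ≤ L) :
    ∑ i ∈ s, (G i * Y i) ^ ((3 : ℝ) / 4) ≤
      L ^ ((1 : ℝ) / 2) * ((∑ i ∈ s, G i) ^ ((1 : ℝ) / 4) * (∑ i ∈ s, Y i) ^ ((3 : ℝ) / 4)) := by
  have hpq : Real.HolderConjugate 4 (4 / 3) := by
    rw [Real.holderConjugate_iff]
    norm_num
  have h1 := Real.inner_le_Lp_mul_Lq_of_nonneg s hpq (f := fun i => G i ^ ((1 : ℝ) / 4))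
    (g := fun i => Y i ^ ((3 : ℝ) / 4)) (fun i hi => Real.rpow_nonneg (hG i hi) _)
    (fun i hi => Real.rpow_nonneg (hY i hi) _)
  have h2 : ∑ i ∈ s, (G i ^ ((1 : ℝ) / 4)) ^ (4 : ℝ) = ∑ i ∈ s, G i := by
    refine Finset.sum_congr rfl fun i hi => ?_
    rw [← Real.rpow_mul (hG i hi)]
    norm_num
  have h3 : ∑ i ∈ s, (Y i ^ ((3 : ℝ) / 4)) ^ ((4 : ℝ) / 3) = ∑ i ∈ s, Y i := by
    refine Finset.sum_congr rfl fun i hi => ?_
    rw [← Real.rpow_mul (hY i hi)]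
    norm_num
  rw [h2, h3] at h1
  have h4 : (1 : ℝ) / (4 / 3) = 3 / 4 := by norm_num
  rw [h4] at h1
  have h5 : ∀ i ∈ s, (G i * Y i) ^ ((3 : ℝ) / 4) ≤
      L ^ ((1 : ℝ) / 2) * (G i ^ ((1 : ℝ) / 4) * Y i ^ ((3 : ℝ) / 4)) := by
    intro i hi
    have hg := hG i hi
    have hy := hY i hi
    rw [Real.mul_rpow hg hy, ← mul_assoc]
    refine mul_le_mul_of_nonneg_right ?_ (Real.rpow_nonneg hy _)
    have h6 : G i ^ ((3 : ℝ) / 4) = G i ^ ((1 : ℝ) / 2) * G i ^ ((1 : ℝ) / 4) := by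
      rw [← Real.rpow_add_of_nonneg hg (by norm_num) (by norm_num)]
      norm_num
    rw [h6]
    exact mul_le_mul_of_nonneg_right (Real.rpow_le_rpow hg (hL i hi) (by norm_num))
      (Real.rpow_nonneg hg _)
  refine (Finset.sum_le_sum h5).trans ?_
  rw [← Finset.mul_sum]
  by_cases hs : s.Nonempty
  · obtain ⟨i, hi⟩ := hs
    have hL0 : 0 ≤ L := (hG i hi).trans (hL i hi)
    exact mul_le_mul_of_nonneg_left h1 (Real.rpow_nonneg hL0 _)
  · rw [Finset.not_nonempty_iff_eq_empty] at hs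
    subst hs
    simp


theorem j12664_num {K C3 C4 Cy a σ X : ℝ} (hK : 0 < K) (hC3 : 0 < C3) (hC4 : 0 < C4)
    (hCy : 0 < Cy) (ha : 0 ≤ a) (hσ : 0 ≤ σ) (hσ1 : σ ≤ C4 + 1) {sG sY : ℝ} (hG0 : 0 ≤ sG)
    (hY0 : 0 ≤ sY) (hG : sG ≤ 3 * a) (hY : sY ≤ Cy * σ)
    (hX : X ≤ K * ((C3 * σ) ^ ((1 : ℝ) / 2) * (sG ^ ((1 : ℝ) / 4) * sY ^ ((3 : ℝ) / 4)))) :
    X ≤ K * (C3 ^ ((1 : ℝ) / 2) * ((3 : ℝ) ^ ((1 : ℝ) / 4) * Cy ^ ((3 : ℝ) / 4))) *
      (C4 + 1) ^ ((1 : ℝ) / 4) * a ^ ((1 : ℝ) / 4) * σ := by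
  have h1 : sG ^ ((1 : ℝ) / 4) ≤ (3 : ℝ) ^ ((1 : ℝ) / 4) * a ^ ((1 : ℝ) / 4) := by
    rw [← Real.mul_rpow (by norm_num) ha]
    exact Real.rpow_le_rpow hG0 hG (by norm_num)
  have h2 : sY ^ ((3 : ℝ) / 4) ≤ Cy ^ ((3 : ℝ) / 4) * σ ^ ((3 : ℝ) / 4) := by
    rw [← Real.mul_rpow hCy.le hσ]
    exact Real.rpow_le_rpow hY0 hY (by norm_num)
  have h3 : (C3 * σ) ^ ((1 : ℝ) / 2) = C3 ^ ((1 : ℝ) / 2) * σ ^ ((1 : ℝ) / 2) :=
    Real.mul_rpow hC3.le hσ
  have h4 : sG ^ ((1 : ℝ) / 4) * sY ^ ((3 : ℝ) / 4) ≤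
      ((3 : ℝ) ^ ((1 : ℝ) / 4) * a ^ ((1 : ℝ) / 4)) * (Cy ^ ((3 : ℝ) / 4) * σ ^ ((3 : ℝ) / 4)) :=
    mul_le_mul h1 h2 (Real.rpow_nonneg hY0 _)
      (mul_nonneg (Real.rpow_nonneg (by norm_num) _) (Real.rpow_nonneg ha _))
  have h5 : σ ^ ((1 : ℝ) / 2) * σ ^ ((3 : ℝ) / 4) = σ ^ ((1 : ℝ) / 4) * σ := by
    rw [← Real.rpow_add_of_nonneg hσ (by norm_num) (by norm_num)]
    have : σ ^ ((1 : ℝ) / 4) * σ = σ ^ ((1 : ℝ) / 4) * σ ^ (1 : ℝ) := by rw [Real.rpow_one]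
    rw [this, ← Real.rpow_add_of_nonneg hσ (by norm_num) (by norm_num)]
    norm_num
  have h6 : σ ^ ((1 : ℝ) / 4) ≤ (C4 + 1) ^ ((1 : ℝ) / 4) :=
    Real.rpow_le_rpow hσ hσ1 (by norm_num)
  refine hX.trans ?_
  rw [h3]
  calc K * (C3 ^ ((1 : ℝ) / 2) * σ ^ ((1 : ℝ) / 2) * (sG ^ ((1 : ℝ) / 4) * sY ^ ((3 : ℝ) / 4)))
      ≤ K * (C3 ^ ((1 : ℝ) / 2) * σ ^ ((1 : ℝ) / 2) *
        (((3 : ℝ) ^ ((1 : ℝ) / 4) * a ^ ((1 : ℝ) / 4)) *
          (Cy ^ ((3 : ℝ) / 4) * σ ^ ((3 : ℝ) / 4)))) := by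
        refine mul_le_mul_of_nonneg_left (mul_le_mul_of_nonneg_left h4 ?_) hK.le
        exact mul_nonneg (Real.rpow_nonneg hC3.le _) (Real.rpow_nonneg hσ _)
    _ = K * (C3 ^ ((1 : ℝ) / 2) * ((3 : ℝ) ^ ((1 : ℝ) / 4) * Cy ^ ((3 : ℝ) / 4))) *
        a ^ ((1 : ℝ) / 4) * (σ ^ ((1 : ℝ) / 2) * σ ^ ((3 : ℝ) / 4)) := by ring
    _ = K * (C3 ^ ((1 : ℝ) / 2) * ((3 : ℝ) ^ ((1 : ℝ) / 4) * Cy ^ ((3 : ℝ) / 4))) *
        a ^ ((1 : ℝ) / 4) * (σ ^ ((1 : ℝ) / 4) * σ) := by rw [h5]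
    _ ≤ K * (C3 ^ ((1 : ℝ) / 2) * ((3 : ℝ) ^ ((1 : ℝ) / 4) * Cy ^ ((3 : ℝ) / 4))) *
        a ^ ((1 : ℝ) / 4) * ((C4 + 1) ^ ((1 : ℝ) / 4) * σ) := by
        refine mul_le_mul_of_nonneg_left (mul_le_mul_of_nonneg_right h6 hσ) ?_
        have i1 := Real.rpow_nonneg hC3.le ((1 : ℝ) / 2)
        have i2 := Real.rpow_nonneg (show (0 : ℝ) ≤ 3 by norm_num) ((1 : ℝ) / 4)
        have i3 := Real.rpow_nonneg hCy.le ((3 : ℝ) / 4)
        have i4 := Real.rpow_nonneg ha ((1 : ℝ) / 4)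
        positivity
    _ = _ := by ring

theorem chain_D2 {n : ℕ} (hn : n = 2) (M : ℝ) : ∃ ε C : ℝ, 0 < ε ∧ 0 < C ∧ ∀ {B : Set (E n)}
    {H : E (n + 1) → ℝ} {u : E n → E (n + 1)} {ν : E n → ℝ} {P : Bx n → Prop}
    {ch : Bx n → Finset (Bx n)} {rk : Bx n → ℕ} {d : Bx n → E (n + 1) → ℝ} {S : Bx n → ℝ},
    Sys M B H u ν P ch rk d S → ∀ (m : ℕ) (q : ℕ → Bx n), P (q 0) →
    (∀ i < m, q (i + 1) ∈ ch (q i)) → EN u (q 0).s ≤ ε → ∫ x in (q 0).s, ν x ≤ 1 →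
    ∑ i ∈ Finset.range m, ∑ κ ∈ ch (q i), Dq ch d κ ≤
      C * EN u (q 0).s ^ ((1 : ℝ) / 4) * (S (q 0) + ∫ x in (q 0).s, ν x) := by
  classical
  subst hn
  obtain ⟨ε1, C1, hε1, hC1, htilt⟩ := chain_tilt (n := 2) le_rfl M
  obtain ⟨ε2, C2, hε2, hC2, hfar⟩ := far (n := 2) le_rfl M
  obtain ⟨ε3, C3, hε3, hC3, hside⟩ := side (n := 2) le_rfl M
  obtain ⟨ε4, C4, hε4, hC4, hsideD⟩ := sideD (n := 2) le_rfl M
  obtain ⟨ε5, C5, hε5, hC5, hwt⟩ := wt_sum (n := 2) le_rfl M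
  obtain ⟨K, hK, hnode⟩ := j12664_node
  set Cy : ℝ := 4 * C1 + 2 * C2 + 2 * C2 * C5 with hCy
  have hCy0 : 0 < Cy := by positivity
  refine ⟨min (min (min ε1 ε2) (min ε3 ε4)) (min ε5 1),
    K * (C3 ^ ((1 : ℝ) / 2) * ((3 : ℝ) ^ ((1 : ℝ) / 4) * Cy ^ ((3 : ℝ) / 4))) *
      (C4 + 1) ^ ((1 : ℝ) / 4), by positivity, ?_, ?_⟩
  · have i1 := Real.rpow_pos_of_pos hC3 ((1 : ℝ) / 2)
    have i2 := Real.rpow_pos_of_pos (show (0 : ℝ) < 3 by norm_num) ((1 : ℝ) / 4)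
    have i3 := Real.rpow_pos_of_pos hCy0 ((3 : ℝ) / 4)
    have i4 := Real.rpow_pos_of_pos (show (0 : ℝ) < C4 + 1 by linarith) ((1 : ℝ) / 4)
    positivity
  intro B H u ν P ch rk d S h m q h0 hq hEN hν
  have hEN1 : EN u (q 0).s ≤ ε1 := hEN.trans
    ((min_le_left _ _).trans ((min_le_left _ _).trans (min_le_left _ _)))
  have hEN2 : EN u (q 0).s ≤ ε2 := hEN.trans
    ((min_le_left _ _).trans ((min_le_left _ _).trans (min_le_right _ _)))
  have hEN3 : EN u (q 0).s ≤ ε3 := hEN.trans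
    ((min_le_left _ _).trans ((min_le_right _ _).trans (min_le_left _ _)))
  have hEN4 : EN u (q 0).s ≤ ε4 := hEN.trans
    ((min_le_left _ _).trans ((min_le_right _ _).trans (min_le_right _ _)))
  have hEN5 : EN u (q 0).s ≤ ε5 := hEN.trans ((min_le_right _ _).trans (min_le_left _ _))
  have hEN6 : EN u (q 0).s ≤ 1 := hEN.trans ((min_le_right _ _).trans (min_le_right _ _))
  have hc := h.cells
  have hu := hc.smooth
  have hEN0 : 0 ≤ EN u (q 0).s := j12664_EN_nonneg _ _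
  have hP : ∀ i ≤ m, P (q i) := by
    intro i
    induction i with
    | zero => exact fun _ => h0
    | succ i ih => exact fun hi => hc.chP _ (ih (by omega)) _ (hq i (by omega))
  have hsub : ∀ i ≤ m, (q i).s ⊆ (q 0).s := by
    intro i
    induction i with
    | zero => exact fun _ => subset_rfl
    | succ i ih => exact fun hi =>
        (hc.chs _ (hP i (by omega)) _ (hq i (by omega))).trans (ih (by omega))
  have hνi : IntegrableOn ν (q 0).s :=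
    h.nint.mono_set ((j12664_s_sub_cl _).trans (h.sub _ h0))
  have hνm : ∀ A : Set (E 2), A ⊆ (q 0).s → ∫ x in A, ν x ≤ ∫ x in (q 0).s, ν x := fun A hA =>
    setIntegral_mono_set hνi (ae_of_all _ h.nn) (HasSubset.Subset.eventuallyLE hA)
  have hν0 : ∀ A : Set (E 2), 0 ≤ ∫ x in A, ν x := fun A => integral_nonneg h.nn
  have hS0 : ∀ Q, P Q → 0 ≤ S Q := fun Q hQ => (T_le h Q hQ).1
  have hD0 : ∀ Q, 0 ≤ Dq ch d Q := fun Q => integral_nonneg fun _ => abs_nonneg _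
  have hSm : ∀ i ≤ m, S (q i) ≤ S (q 0) := by
    intro i
    induction i with
    | zero => exact fun _ => le_rfl
    | succ i ih =>
      intro hi
      refine le_trans ?_ (ih (by omega))
      rw [h.Srec _ (hP i (by omega)), ← Finset.add_sum_erase _ _ (hq i (by omega))]
      have i1 : 0 ≤ ∑ κ ∈ (ch (q i)).erase (q (i + 1)), (Dq ch d κ + S κ) :=
        Finset.sum_nonneg fun κ hκ => add_nonneg (hD0 κ)
          (hS0 κ (hc.chP _ (hP i (by omega)) κ (Finset.mem_of_mem_erase hκ)))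
      have i2 := hD0 (q (i + 1))
      linarith
  set σ : ℝ := S (q 0) + ∫ x in (q 0).s, ν x with hσ
  have hσ0 : 0 ≤ σ := add_nonneg (hS0 _ h0) (hν0 _)
  have hσ1 : σ ≤ C4 + 1 := by
    have i1 := (hsideD h (q 0) h0 hEN4).2
    have i2 : C4 * EN u (q 0).s ≤ C4 * 1 := mul_le_mul_of_nonneg_left hEN6 hC4.le
    linarith
  rcases Nat.eq_zero_or_pos m with hm | hm
  · subst hm
    rw [Finset.range_zero, Finset.sum_empty]
    have i1 := Real.rpow_nonneg hC3.le ((1 : ℝ) / 2)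
    have i2 := Real.rpow_nonneg (show (0 : ℝ) ≤ 3 by norm_num) ((1 : ℝ) / 4)
    have i3 := Real.rpow_nonneg hCy0.le ((3 : ℝ) / 4)
    have i4 := Real.rpow_nonneg (show (0 : ℝ) ≤ C4 + 1 by linarith) ((1 : ℝ) / 4)
    have i5 := Real.rpow_nonneg hEN0 ((1 : ℝ) / 4)
    positivity
  obtain ⟨e, he, htau⟩ := htilt h m q h0 hq hEN1 hm
  set e' : ℕ → Bx 2 → E (2 + 1) := fun i κ => if κ = q (i + 1) ∧ i + 1 < m then e (i + 1) else 0
    with he'
  have hUe' : ∀ i κ, Ue (e' i κ) := by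
    intro i κ
    simp only [he']
    split_ifs
    · exact he _
    · exact Or.inl rfl
  set Y : ℕ → Bx 2 → ℝ := fun i κ => 2 * j12664_V u ch κ (e i) + 2 * j12664_W u ch κ (e' i κ)
    with hY
  have hY0 : ∀ i κ, 0 ≤ Y i κ := by
    intro i κ
    have i1 := j12664_V_nonneg u ch κ (e i) (he i)
    have i2 := j12664_W_nonneg u ch κ (e' i κ) (hUe' i κ)
    simp only [hY]
    linarith
  have hchP : ∀ i < m, ∀ κ ∈ ch (q i), P κ := fun i hi κ hκ => hc.chP _ (hP i hi.le) κ hκ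
  have hchs : ∀ i < m, ∀ κ ∈ ch (q i), κ.s ⊆ (q 0).s := fun i hi κ hκ =>
    (hc.chs _ (hP i hi.le) κ hκ).trans (hsub i hi.le)
  -- the flattened index set
  set I : Finset (Σ _ : ℕ, Bx 2) := (Finset.range m).sigma fun i => ch (q i) with hI
  have hImem : ∀ x ∈ I, x.1 < m ∧ x.2 ∈ ch (q x.1) := by
    intro x hx
    rw [hI, Finset.mem_sigma, Finset.mem_range] at hx
    exact hx
  have hflat : ∀ g : ℕ → Bx 2 → ℝ, ∑ i ∈ Finset.range m, ∑ κ ∈ ch (q i), g i κ =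
      ∑ x ∈ I, g x.1 x.2 := fun g => Finset.sum_sigma' _ _ _
  have hGY : ∑ i ∈ Finset.range m, ∑ κ ∈ ch (q i), Dq ch d κ ≤
      K * ∑ x ∈ I, (j12664_G u ch x.2 * Y x.1 x.2) ^ ((3 : ℝ) / 4) := by
    rw [hflat (fun _ κ => Dq ch d κ), Finset.mul_sum]
    refine Finset.sum_le_sum fun x hx => ?_
    obtain ⟨hx1, hx2⟩ := hImem x hx
    exact hnode hc h.deg x.2 (hchP _ hx1 _ hx2) (e x.1) (e' x.1 x.2) (he _) (hUe' _ _)
  have hGL : ∀ x ∈ I, j12664_G u ch x.2 ≤ C3 * σ := by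
    intro x hx
    obtain ⟨hx1, hx2⟩ := hImem x hx
    have i1 := hside h (q x.1) (hP _ hx1.le)
      ((j12664_EN_mono hu (hsub _ hx1.le) subset_rfl).trans hEN3)
    have i2 : EN u (Rg ch x.2) + ∑ κ' ∈ ch x.2, EN u (Nr u ch κ' 1) ≤
        ∑ κ ∈ ch (q x.1), (EN u (Rg ch κ) + ∑ κ' ∈ ch κ, EN u (Nr u ch κ' 1)) :=
      Finset.single_le_sum (f := fun κ => EN u (Rg ch κ) + ∑ κ' ∈ ch κ, EN u (Nr u ch κ' 1))
        (fun κ _ => add_nonneg (j12664_EN_nonneg _ _)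
          (Finset.sum_nonneg fun _ _ => j12664_EN_nonneg _ _)) hx2
    have i3 : j12664_G u ch x.2 ≤ EN u (Rg ch x.2) + ∑ κ' ∈ ch x.2, EN u (Nr u ch κ' 1) := by
      unfold j12664_G
      refine add_le_add_right (Finset.sum_le_sum fun κ' _ => ?_) _
      refine j12664_EN_mono (Q := κ') hu (fun y hy => ⟨hy.1, ?_⟩)
        ((j12664_Nr_sub u ch κ' _).trans (j12664_Rg_sub ch κ'))
      have : qs (u κ'.a) (u y) ≤ 1 / 64 := hy.2
      linarith
    have i4 : S (q x.1) + ∫ y in (q x.1).s, ν y ≤ σ :=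
      add_le_add (hSm _ hx1.le) (hνm _ (hsub _ hx1.le))
    exact i3.trans (i2.trans (i1.trans (mul_le_mul_of_nonneg_left i4 hC3.le)))
  have hGs : ∑ x ∈ I, j12664_G u ch x.2 ≤ 3 * EN u (q 0).s := by
    rw [← hflat (fun _ κ => j12664_G u ch κ)]
    exact j12664_G_total hc m q hP hq hsub
  -- the far part
  have hF : ∀ i < m, ∀ κ ∈ ch (q i), j12664_W u ch κ 0 ≤ C2 * (S κ + ∫ x in κ.s, ν x) := by
    intro i hi κ hκ
    refine (j12664_W_zero hc κ (hchP i hi κ hκ)).trans ?_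
    exact (hfar h κ (hchP i hi κ hκ)
      ((j12664_EN_mono hu (hchs i hi κ hκ) subset_rfl).trans hEN2)).2
  -- sum of the wt
  have hwt' : ∑ i ∈ Finset.range m, ∑ κ ∈ (ch (q i)).erase (q (i + 1)),
      (S κ + ∫ x in κ.s, ν x) ≤ C5 * σ := by
    refine le_trans (Finset.sum_le_sum fun i hi => ?_) (hwt h m q h0 hq hEN5)
    rw [Finset.mem_range] at hi
    have i1 : 0 ≤ Ds u ch d (q i) (1 / 4) := integral_nonneg fun _ => abs_nonneg _
    have i2 : 0 ≤ ∑ κ ∈ ch (q i), Dq ch d κ := Finset.sum_nonneg fun κ _ => hD0 κ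
    have i3 := hν0 (Rg ch (q i))
    have i4 := hν0 (Rg ch (q (i + 1)))
    unfold wt
    have i5 : ∑ κ ∈ (ch (q i)).erase (q (i + 1)), (S κ + ∫ x in κ.s, ν x) =
      ∑ κ ∈ @Finset.erase _ (fun a b => Classical.propDecidable (a = b)) (ch (q i)) (q (i + 1)),
        (S κ + ∫ x in κ.s, ν x) := by
      congr!
    rw [← i5]
    linarith
  -- one level
  set g : ℕ → ℝ := fun i => if i + 1 < m then tau u ch (q (i + 1)) (e (i + 1)) else C2 * σ
    with hg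
  have hlev : ∀ i ∈ Finset.range m, ∑ κ ∈ ch (q i), Y i κ ≤
      2 * tau u ch (q i) (e i) + 2 * (g i + C2 * ∑ κ ∈ (ch (q i)).erase (q (i + 1)),
        (S κ + ∫ x in κ.s, ν x)) := by
    intro i hi
    rw [Finset.mem_range] at hi
    have i1 : ∑ κ ∈ ch (q i), Y i κ = 2 * ∑ κ ∈ ch (q i), j12664_V u ch κ (e i) +
        2 * ∑ κ ∈ ch (q i), j12664_W u ch κ (e' i κ) := by
      simp only [hY]
      rw [Finset.sum_add_distrib, Finset.mul_sum, Finset.mul_sum]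
    have i2 := j12664_V_sum (u := u) (ch := ch) (q i) (e i) (he i)
    have i3 : ∑ κ ∈ ch (q i), j12664_W u ch κ (e' i κ) =
        j12664_W u ch (q (i + 1)) (e' i (q (i + 1))) +
          ∑ κ ∈ (ch (q i)).erase (q (i + 1)), j12664_W u ch κ (e' i κ) :=
      (Finset.add_sum_erase _ _ (hq i hi)).symm
    have i4 : ∑ κ ∈ (ch (q i)).erase (q (i + 1)), j12664_W u ch κ (e' i κ) ≤
        C2 * ∑ κ ∈ (ch (q i)).erase (q (i + 1)), (S κ + ∫ x in κ.s, ν x) := by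
      rw [Finset.mul_sum]
      refine Finset.sum_le_sum fun κ hκ => ?_
      have j1 : e' i κ = 0 := by
        simp only [he']
        rw [if_neg]
        exact fun hh => (Finset.ne_of_mem_erase hκ) hh.1
      rw [j1]
      exact hF i hi κ (Finset.mem_of_mem_erase hκ)
    have i5 : j12664_W u ch (q (i + 1)) (e' i (q (i + 1))) ≤ g i := by
      by_cases hi2 : i + 1 < m
      · have j1 : e' i (q (i + 1)) = e (i + 1) := by
          show (if q (i + 1) = q (i + 1) ∧ i + 1 < m then e (i + 1) else 0) = e (i + 1)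
          rw [if_pos ⟨rfl, hi2⟩]
        have j2 : g i = tau u ch (q (i + 1)) (e (i + 1)) := by
          simp only [hg]
          rw [if_pos hi2]
        rw [j1, j2]
        exact j12664_W_le_tau hc _ _ (he _)
      · have j1 : e' i (q (i + 1)) = 0 := by
          simp only [he']
          rw [if_neg]
          exact fun hh => hi2 hh.2
        have j2 : g i = C2 * σ := by
          simp only [hg]
          rw [if_neg hi2]
        rw [j1, j2]
        refine (hF i hi _ (hq i hi)).trans (mul_le_mul_of_nonneg_left ?_ hC2.le)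
        exact add_le_add (hSm _ hi) (hνm _ (hsub _ hi))
    rw [i1, i3]
    linarith
  have hgs : ∑ i ∈ Finset.range m, g i ≤
      (∑ i ∈ Finset.range m, tau u ch (q i) (e i)) + C2 * σ := by
    obtain ⟨m', rfl⟩ : ∃ m', m = m' + 1 := ⟨m - 1, by omega⟩
    rw [Finset.sum_range_succ, Finset.sum_range_succ']
    have j1 : g m' = C2 * σ := by
      simp only [hg]
      rw [if_neg (lt_irrefl _)]
    have j2 : ∑ i ∈ Finset.range m', g i =
        ∑ i ∈ Finset.range m', tau u ch (q (i + 1)) (e (i + 1)) := by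
      refine Finset.sum_congr rfl fun i hi => ?_
      rw [Finset.mem_range] at hi
      simp only [hg]
      rw [if_pos (by omega)]
    have j3 := j12664_tau_nonneg (u := u) (ch := ch) (q 0) (e 0) (he 0)
    rw [j1, j2]
    linarith
  have hYs : ∑ x ∈ I, Y x.1 x.2 ≤ Cy * σ := by
    rw [← hflat Y]
    refine (Finset.sum_le_sum hlev).trans ?_
    rw [Finset.sum_add_distrib, ← Finset.mul_sum, ← Finset.mul_sum, Finset.sum_add_distrib,
      ← Finset.mul_sum]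
    have j1 : C2 * ∑ i ∈ Finset.range m, ∑ κ ∈ (ch (q i)).erase (q (i + 1)),
      (S κ + ∫ x in κ.s, ν x) ≤ C2 * (C5 * σ) := mul_le_mul_of_nonneg_left hwt' hC2.le
    have j2 : Cy * σ = 4 * (C1 * σ) + 2 * (C2 * σ) + 2 * (C2 * (C5 * σ)) := by
      rw [hCy]; ring
    rw [j2]
    linarith
  have hX := j12664_hol I (fun x => j12664_G u ch x.2) (fun x => Y x.1 x.2) (C3 * σ)
    (fun x _ => j12664_G_nonneg _ _ _) (fun x _ => hY0 _ _) hGL
  exact j12664_num hK hC3 hC4 hCy0 hEN0 hσ0 hσ1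
    (Finset.sum_nonneg fun x _ => j12664_G_nonneg _ _ _) (Finset.sum_nonneg fun x _ => hY0 _ _)
    hGs hYs (hGY.trans (mul_le_mul_of_nonneg_left hX hK.le))


end H930.HS.XCD2

namespace H930.HS

export XCD2 (chain_D2)

end H930.HS
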