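import Pool.Agent.Helper930.HS.CTilt
import Pool.Agent.Helper930.HS.IsoQ
import Pool.Agent.Helper930.HS.JcAlg
import Pool.Agent.Helper930.HS.PcDer
import Pool.Agent.Helper930.HS.TeB
import Pool.Agent.Helper930.HS.Thr
import Pool.Agent.Helper930.HS.WtS
import Pool.Agent.Helper930.HS.TLe

set_option autoImplicit false

open MeasureTheory Metric Set Filter Topology
open scoped ENNReal NNReal ContDiff

namespace H930.HS.XCD3

open H930.BL



theorem chain_D3_kf_nonneg (q : ℝ) : 0 ≤ kf q := Real.smoothTransition.nonneg _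

theorem chain_D3_kf_le (q : ℝ) : kf q ≤ 1 := Real.smoothTransition.le_one _

theorem chain_D3_kf_zero {q : ℝ} (h : q ≤ 1 / 4) : kf q = 0 :=
  Real.smoothTransition.zero_of_nonpos (by linarith)

theorem chain_D3_kf_one {q : ℝ} (h : 1 ≤ q) : kf q = 1 :=
  Real.smoothTransition.one_of_one_le (by linarith)

theorem chain_D3_kf_cont : Continuous kf := by
  unfold kf
  exact Real.smoothTransition.continuous.comp (by fun_prop)

theorem chain_D3_qs_cont {n : ℕ} (c : E (n + 1)) {u : E n → E (n + 1)} (hu : Continuous u) :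
    Continuous fun x => qs c (u x) := by
  unfold qs
  refine continuous_finsetSum _ fun a _ => ?_
  exact (((continuous_apply a).comp hu).sub continuous_const).pow 2

theorem chain_D3_Dm_cont {n : ℕ} {u : E n → E (n + 1)} (hu : ContDiff ℝ ∞ u) (i : Fin (n + 1))
    (j : Fin n) : Continuous fun x => Dm u x i j := by
  have h1 : ContDiff ℝ 1 (fun y => u y i) := ((contDiff_pi.1 hu) i).of_le (by simp)
  exact continuous_pd h1 j

theorem chain_D3_fn_cont {n : ℕ} {u : E n → E (n + 1)} (hu : ContDiff ℝ ∞ u) :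
    Continuous fun x => fn (Dm u x) := by
  unfold fn
  apply Continuous.sqrt
  exact continuous_finsetSum _ fun a _ => continuous_finsetSum _ fun b _ =>
    (chain_D3_Dm_cont hu a b).pow 2

theorem chain_D3_te_cont {n : ℕ} {u : E n → E (n + 1)} (hu : ContDiff ℝ ∞ u) (e : E (n + 1)) :
    Continuous (te u e) := by
  unfold te
  apply ((chain_D3_fn_cont hu).pow _).mul
  apply ((chain_D3_fn_cont hu).pow _).sub
  exact continuous_finsetSum _ fun j _ => (continuous_finsetSum _ fun a _ =>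
    continuous_const.mul (chain_D3_Dm_cont hu a j)).pow 2

theorem chain_D3_s_meas {n : ℕ} (Q : Bx n) : MeasurableSet Q.s := by
  have h1 : Q.s = ⋂ i, {x : E n | Q.a i ≤ x i ∧ x i < Q.b i} := by
    ext x; simp [Bx.s]
  rw [h1]
  exact MeasurableSet.iInter fun i => (measurableSet_le measurable_const
    (measurable_pi_apply i)).inter (measurableSet_lt (measurable_pi_apply i) measurable_const)

theorem chain_D3_Rg_eq {n : ℕ} (ch : Bx n → Finset (Bx n)) (Q : Bx n) :
    Rg ch Q = Q.s ∩ ⋂ κ ∈ ch Q, (κ.s)ᶜ := by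
  ext x; simp [Rg]

theorem chain_D3_Rg_meas {n : ℕ} (ch : Bx n → Finset (Bx n)) (Q : Bx n) :
    MeasurableSet (Rg ch Q) := by
  rw [chain_D3_Rg_eq]
  exact (chain_D3_s_meas Q).inter
    (Finset.measurableSet_biInter _ fun κ _ => (chain_D3_s_meas κ).compl)

theorem chain_D3_Rg_sub {n : ℕ} (ch : Bx n → Finset (Bx n)) (Q : Bx n) : Rg ch Q ⊆ Q.s :=
  fun _ hx => hx.1

theorem chain_D3_int {n : ℕ} {f : E n → ℝ} (hf : Continuous f) (Q : Bx n) {A : Set (E n)}
    (hA : A ⊆ Q.s) : IntegrableOn f A :=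
  (hf.continuousOn.integrableOn_compact (isCompact_Icc (a := Q.a) (b := Q.b))).mono_set
    (fun _ hx => ⟨fun i => (hA hx i).1, fun i => (hA hx i).2.le⟩)

theorem chain_D3_dec {n : ℕ} {u : E n → E (n + 1)} {P : Bx n → Prop}
    {ch : Bx n → Finset (Bx n)} {rk : Bx n → ℕ} (hc : Cells u P ch rk) {Q : Bx n} (hQ : P Q)
    {f : E n → ℝ} (hf : IntegrableOn f Q.s) :
    ∫ x in Q.s, f x = (∫ x in Rg ch Q, f x) + ∑ κ ∈ ch Q, ∫ x in κ.s, f x := by
  have h1 : Q.s = Rg ch Q ∪ ⋃ κ ∈ ch Q, κ.s := by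
    ext x
    constructor
    · intro hx
      by_cases h : ∃ κ ∈ ch Q, x ∈ κ.s
      · obtain ⟨κ, hκ, hxκ⟩ := h
        exact Or.inr (mem_biUnion hκ hxκ)
      · push Not at h
        exact Or.inl ⟨hx, h⟩
    · rintro (hx | hx)
      · exact hx.1
      · obtain ⟨κ, hκ, hxκ⟩ := mem_iUnion₂.1 hx
        exact hc.chs Q hQ κ hκ hxκ
  have h2 : Disjoint (Rg ch Q) (⋃ κ ∈ ch Q, κ.s) := by
    rw [Set.disjoint_left]
    intro x hx hx'
    obtain ⟨κ, hκ, hxκ⟩ := mem_iUnion₂.1 hx'
    exact hx.2 κ hκ hxκ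
  have h3 : (⋃ κ ∈ ch Q, κ.s) ⊆ Q.s := by
    rw [h1]; exact subset_union_right
  conv_lhs => rw [h1]
  rw [setIntegral_union h2 (Finset.measurableSet_biUnion _ fun κ _ => chain_D3_s_meas κ)
    (hf.mono_set (chain_D3_Rg_sub ch Q)) (hf.mono_set h3),
    integral_biUnion_finset _ (fun κ _ => chain_D3_s_meas κ)]
  · intro κ hκ κ' hκ' hne
    exact hc.disj Q hQ κ hκ κ' hκ' hne
  · intro κ hκ
    exact hf.mono_set (hc.chs Q hQ κ hκ)

/-- euclidean distance estimate -/
theorem chain_D3_qs_tri {m : ℕ} (c c' y : E m) (h1 : 100 ≤ qs c c') (h2 : qs c c' ≤ 104)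
    (h3 : qs c' y < 1) : 1 / 4 ≤ qs c y ∧ qs c y ≤ 144 := by
  have hcs := Finset.sum_mul_sq_le_sq_mul_sq Finset.univ (fun a => c' a - c a)
    (fun a => y a - c' a)
  have e1 : qs c y = qs c c' + 2 * (∑ a, (c' a - c a) * (y a - c' a)) + qs c' y := by
    unfold qs
    rw [Finset.mul_sum, ← Finset.sum_add_distrib, ← Finset.sum_add_distrib]
    refine Finset.sum_congr rfl fun a _ => ?_
    ring
  have hn : 0 ≤ qs c' y := Finset.sum_nonneg fun a _ => sq_nonneg _
  set p := ∑ a, (c' a - c a) * (y a - c' a) with hp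
  have h4 : p ^ 2 ≤ 104 := by
    refine hcs.trans ?_
    change qs c c' * qs c' y ≤ 104
    nlinarith
  have h5 : |p| ≤ 10.2 := by
    rw [← abs_of_nonneg (by norm_num : (0 : ℝ) ≤ 10.2)]
    apply sq_le_sq.1
    norm_num
    linarith
  have h6 := abs_le.1 h5
  rw [e1]
  constructor
  · linarith [h6.1]
  · linarith [h6.2]

theorem chain_D3_te_nonneg {n : ℕ} (hn : 2 ≤ n) (u : E n → E (n + 1)) {e : E (n + 1)} (he : Ue e)
    (x : E n) : 0 ≤ te u e x := (te_bounds hn u e he x).1

theorem chain_D3_te_le {n : ℕ} (hn : 2 ≤ n) (u : E n → E (n + 1)) {e : E (n + 1)} (he : Ue e)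
    (x : E n) : te u e x ≤ fn (Dm u x) ^ n := (te_bounds hn u e he x).2.1

theorem chain_D3_fn_nonneg {n : ℕ} (u : E n → E (n + 1)) (x : E n) : 0 ≤ fn (Dm u x) ^ n :=
  pow_nonneg (Real.sqrt_nonneg _) _

theorem chain_D3_Ue_zero {m : ℕ} : Ue (0 : E m) := Or.inl rfl

/-- the part of the tilt in the child `κ` -/
noncomputable def chain_D3_al {n : ℕ} (u : E n → E (n + 1)) (ch : Bx n → Finset (Bx n)) (κ : Bx n)
    (e : E (n + 1)) : ℝ := ∫ x in Rg ch κ, (1 - kf (qs (u κ.a) (u x))) * te u e x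

theorem chain_D3_al_nonneg {n : ℕ} (hn : 2 ≤ n) (u : E n → E (n + 1)) (ch : Bx n → Finset (Bx n))
    (κ : Bx n) {e : E (n + 1)} (he : Ue e) : 0 ≤ chain_D3_al u ch κ e := by
  apply setIntegral_nonneg (chain_D3_Rg_meas ch κ)
  intro x _
  exact mul_nonneg (by linarith [chain_D3_kf_le (qs (u κ.a) (u x))]) (chain_D3_te_nonneg hn u he x)

theorem chain_D3_tau_eq {n : ℕ} (u : E n → E (n + 1)) (ch : Bx n → Finset (Bx n)) (Q : Bx n)
    (e : E (n + 1)) : tau u ch Q e = (∫ x in Rg ch Q, kf (qs (u Q.a) (u x)) * te u e x) +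
      ∑ κ ∈ ch Q, chain_D3_al u ch κ e := rfl

theorem chain_D3_tau_first {n : ℕ} (hn : 2 ≤ n) (u : E n → E (n + 1)) (ch : Bx n → Finset (Bx n))
    (Q : Bx n) {e : E (n + 1)} (he : Ue e) :
    0 ≤ ∫ x in Rg ch Q, kf (qs (u Q.a) (u x)) * te u e x := by
  apply setIntegral_nonneg (chain_D3_Rg_meas ch Q)
  intro x _
  exact mul_nonneg (chain_D3_kf_nonneg _) (chain_D3_te_nonneg hn u he x)

theorem chain_D3_tau_nonneg {n : ℕ} (hn : 2 ≤ n) (u : E n → E (n + 1)) (ch : Bx n → Finset (Bx n))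
    (Q : Bx n) {e : E (n + 1)} (he : Ue e) : 0 ≤ tau u ch Q e := by
  rw [chain_D3_tau_eq]
  exact add_nonneg (chain_D3_tau_first hn u ch Q he)
    (Finset.sum_nonneg fun κ _ => chain_D3_al_nonneg hn u ch κ he)

theorem chain_D3_sum_al {n : ℕ} (hn : 2 ≤ n) (u : E n → E (n + 1)) (ch : Bx n → Finset (Bx n))
    (Q : Bx n) {e : E (n + 1)} (he : Ue e) :
    ∑ κ ∈ ch Q, chain_D3_al u ch κ e ≤ tau u ch Q e := by
  rw [chain_D3_tau_eq]
  linarith [chain_D3_tau_first hn u ch Q he]

theorem chain_D3_tau_zero {n : ℕ} (hn : 2 ≤ n) {u : E n → E (n + 1)} {P : Bx n → Prop}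
    {ch : Bx n → Finset (Bx n)} {rk : Bx n → ℕ} (hc : Cells u P ch rk) {κ : Bx n} (hκ : P κ) :
    tau u ch κ 0 ≤ Fq u κ := by
  classical
  have hu := hc.smooth
  have hqc := fun c => chain_D3_qs_cont c hu.continuous
  have hfc : Continuous fun x => fn (Dm u x) ^ n := (chain_D3_fn_cont hu).pow n
  set A : Set (E n) := {x | 1 / 4 ≤ qs (u κ.a) (u x) ∧ qs (u κ.a) (u x) ≤ 144} with hA
  have hAm : MeasurableSet A :=
    (measurableSet_le measurable_const (hqc _).measurable).inter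
      (measurableSet_le (hqc _).measurable measurable_const)
  have hFq : Fq u κ = ∫ x in κ.s, A.indicator (fun x => fn (Dm u x) ^ n) x := by
    rw [setIntegral_indicator hAm]
    rfl
  have hint : IntegrableOn (A.indicator (fun x => fn (Dm u x) ^ n)) κ.s :=
    (chain_D3_int hfc κ subset_rfl).indicator hAm
  have hind0 : ∀ x, 0 ≤ A.indicator (fun x => fn (Dm u x) ^ n) x := fun x =>
    Set.indicator_nonneg (fun y _ => chain_D3_fn_nonneg u y) x
  rw [hFq, chain_D3_dec hc hκ hint, chain_D3_tau_eq]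
  have hte0 : ∀ x, te u 0 x = fn (Dm u x) ^ n := fun x =>
    (te_bounds hn u 0 chain_D3_Ue_zero x).2.2
  have hkc := fun c => chain_D3_kf_cont.comp (hqc c)
  apply add_le_add
  · apply setIntegral_mono_on
    · exact chain_D3_int ((hkc (u κ.a)).mul (chain_D3_te_cont hu 0)) κ (chain_D3_Rg_sub ch κ)
    · exact hint.mono_set (chain_D3_Rg_sub ch κ)
    · exact chain_D3_Rg_meas ch κ
    · intro x hx
      rw [hte0]
      by_cases h1 : qs (u κ.a) (u x) ≤ 1 / 4
      · rw [chain_D3_kf_zero h1, zero_mul]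
        exact hind0 x
      · have hxA : x ∈ A := ⟨(not_le.1 h1).le, (hc.small κ hκ x hx).trans (by norm_num)⟩
        rw [Set.indicator_of_mem hxA]
        exact mul_le_of_le_one_left (chain_D3_fn_nonneg u x) (chain_D3_kf_le _)
  · apply Finset.sum_le_sum
    intro k' hk'
    have hk's := hc.chs κ hκ k' hk'
    calc chain_D3_al u ch k' 0
        ≤ ∫ x in Rg ch k', A.indicator (fun x => fn (Dm u x) ^ n) x := by
          apply setIntegral_mono_on
          · exact chain_D3_int ((continuous_const.sub (hkc (u k'.a))).mul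
              (chain_D3_te_cont hu 0)) k' (chain_D3_Rg_sub ch k')
          · exact hint.mono_set ((chain_D3_Rg_sub ch k').trans hk's)
          · exact chain_D3_Rg_meas ch k'
          · intro x hx
            rw [hte0]
            by_cases h1 : 1 ≤ qs (u k'.a) (u x)
            · rw [chain_D3_kf_one h1, sub_self, zero_mul]
              exact hind0 x
            · have hxA : x ∈ A := chain_D3_qs_tri _ _ _ (hc.lo κ hκ k' hk') (hc.hi κ hκ k' hk')
                (not_le.1 h1)
              rw [Set.indicator_of_mem hxA]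
              exact mul_le_of_le_one_left (chain_D3_fn_nonneg u x)
                (by linarith [chain_D3_kf_nonneg (qs (u k'.a) (u x))])
      _ ≤ ∫ x in k'.s, A.indicator (fun x => fn (Dm u x) ^ n) x := by
          apply setIntegral_mono_set (hint.mono_set hk's)
          · exact Filter.Eventually.of_forall hind0
          · exact (chain_D3_Rg_sub ch k').eventuallyLE

theorem chain_D3_cell {n : ℕ} (hn : 3 ≤ n) : ∃ C : ℝ, 0 < C ∧ ∀ {u : E n → E (n + 1)}
    {P : Bx n → Prop} {ch : Bx n → Finset (Bx n)} {rk : Bx n → ℕ} {d : Bx n → E (n + 1) → ℝ},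
    Cells u P ch rk → (∀ Q, P Q → DegF u ch Q (d Q)) → ∀ κ, P κ → ∀ e e' : E (n + 1), Ue e →
    Ue e' → Dq ch d κ ≤ C * EN u κ.s ^ ((1 : ℝ) / n) *
      (chain_D3_al u ch κ e + tau u ch κ e') := by
  classical
  have hn2 : 2 ≤ n := by omega
  obtain ⟨C2, hC2, iso⟩ := isoQ hn2
  obtain ⟨CP, hCP, hPc⟩ := @Pc_der n
  obtain ⟨CJ, hCJ, hJ⟩ := Jc_tilt hn (1 + CP)
  refine ⟨C2 * (2 * CJ) * CJ ^ ((1 : ℝ) / n), by positivity, ?_⟩
  intro u P ch rk d hc hdeg κ hκ e e' he he'
  have hu := hc.smooth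
  have hqc := fun c => chain_D3_qs_cont c hu.continuous
  have hkc := fun c => chain_D3_kf_cont.comp (hqc c)
  have hfc : Continuous fun x => fn (Dm u x) ^ n := (chain_D3_fn_cont hu).pow n
  set A : Set (E n) := {x | x ∈ Rg ch κ ∧ kf (qs (u κ.a) (u x)) ≤ 1 / 2} with hA
  have hAm : MeasurableSet A :=
    (chain_D3_Rg_meas ch κ).inter (measurableSet_le (hkc _).measurable measurable_const)
  set ee : E n → E (n + 1) := fun x => if x ∈ A then e else e' with hee
  have hUe : ∀ x, Ue (ee x) := by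
    intro x
    simp only [hee]
    split_ifs
    · exact he
    · exact he'
  set t : E n → ℝ := fun x => CJ * te u (ee x) x with ht
  have ht0 : ∀ x, 0 ≤ t x := fun x => mul_nonneg hCJ.le (chain_D3_te_nonneg hn2 u (hUe x) x)
  have htle : ∀ x, t x ≤ CJ * fn (Dm u x) ^ n := fun x =>
    mul_le_mul_of_nonneg_left (chain_D3_te_le hn2 u (hUe x) x) hCJ.le
  have htp : t = A.piecewise (fun x => CJ * te u e x) (fun x => CJ * te u e' x) := by
    ext x
    by_cases hx : x ∈ A
    · simp only [ht, hee, Set.piecewise_eq_of_mem _ _ _ hx, if_pos hx]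
    · simp only [ht, hee, Set.piecewise_eq_of_notMem _ _ _ hx, if_neg hx]
  have htint : IntegrableOn t κ.s := by
    rw [htp]
    apply Integrable.piecewise hAm
    · exact (chain_D3_int (continuous_const.mul (chain_D3_te_cont hu e)) κ
        subset_rfl).integrable.integrableOn
    · exact (chain_D3_int (continuous_const.mul (chain_D3_te_cont hu e')) κ
        subset_rfl).integrable.integrableOn
  have hj1 : ∀ x a, |Jc (Dm u x) a| ≤ t x := by
    intro x a
    have h1 := hJ 1 (fun i j => by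
      rw [Matrix.one_apply]
      split_ifs
      · rw [abs_one]; linarith
      · rw [abs_zero]; linarith) (Dm u x) (ee x) (hUe x) a
    rw [Matrix.one_mul] at h1
    exact h1
  have hj2 : ∀ c x a, |Jc (Dm (fun z => Pc c (u z)) x) a| ≤ t x := by
    intro c x a
    obtain ⟨_, h2⟩ := hPc u hu c
    obtain ⟨Am, hAm', hD⟩ := h2 x
    rw [hD]
    exact hJ Am (fun i j => (hAm' i j).trans (by linarith)) (Dm u x) (ee x) (hUe x) a
  have hiso := iso hc hdeg κ hκ t ht0 htint hj1 hj2
  set X := (∫ x in Rg ch κ, t x) + ∑ k' ∈ ch κ, ∫ x in Nr u ch k' (1 / 64), t x with hX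
  have hNrm : ∀ k', MeasurableSet (Nr u ch k' (1 / 64)) := fun k' =>
    (chain_D3_Rg_meas ch k').inter (measurableSet_le (hqc _).measurable measurable_const)
  have hNrs : ∀ k', Nr u ch k' (1 / 64) ⊆ Rg ch k' := fun k' x hx => hx.1
  have hX0 : 0 ≤ X := by
    apply add_nonneg
    · exact setIntegral_nonneg (chain_D3_Rg_meas ch κ) fun x _ => ht0 x
    · exact Finset.sum_nonneg fun k' _ => setIntegral_nonneg (hNrm k') fun x _ => ht0 x
  have hX1 : X ≤ 2 * CJ * (chain_D3_al u ch κ e + tau u ch κ e') := by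
    have a1 : ∫ x in Rg ch κ, t x ≤ 2 * CJ * chain_D3_al u ch κ e +
        2 * CJ * ∫ x in Rg ch κ, kf (qs (u κ.a) (u x)) * te u e' x := by
      unfold chain_D3_al
      have i1 : IntegrableOn (fun x => (1 - kf (qs (u κ.a) (u x))) * te u e x) (Rg ch κ) :=
        chain_D3_int ((continuous_const.sub (hkc (u κ.a))).mul (chain_D3_te_cont hu e)) κ
          (chain_D3_Rg_sub ch κ)
      have i2 : IntegrableOn (fun x => kf (qs (u κ.a) (u x)) * te u e' x) (Rg ch κ) :=
        chain_D3_int ((hkc (u κ.a)).mul (chain_D3_te_cont hu e')) κ (chain_D3_Rg_sub ch κ)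
      rw [← integral_const_mul, ← integral_const_mul, ← integral_add (i1.const_mul _)
        (i2.const_mul _)]
      apply setIntegral_mono_on (htint.mono_set (chain_D3_Rg_sub ch κ))
        ((i1.const_mul _).add (i2.const_mul _)) (chain_D3_Rg_meas ch κ)
      intro x hx
      have k0 := chain_D3_kf_nonneg (qs (u κ.a) (u x))
      have k1 := chain_D3_kf_le (qs (u κ.a) (u x))
      have t0 := chain_D3_te_nonneg hn2 u he x
      have t1 := chain_D3_te_nonneg hn2 u he' x
      show t x ≤ 2 * CJ * ((1 - kf (qs (u κ.a) (u x))) * te u e x) +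
        2 * CJ * (kf (qs (u κ.a) (u x)) * te u e' x)
      by_cases hk : kf (qs (u κ.a) (u x)) ≤ 1 / 2
      · have hxA : x ∈ A := ⟨hx, hk⟩
        simp only [ht, hee, if_pos hxA]
        have b1 : 0 ≤ CJ * (kf (qs (u κ.a) (u x)) * te u e' x) := by positivity
        have b2 : 0 ≤ CJ * te u e x := by positivity
        have b3 : 0 ≤ CJ * te u e x * (1 - 2 * kf (qs (u κ.a) (u x))) :=
          mul_nonneg b2 (by linarith)
        linarith
      · have hxA : x ∉ A := fun h => hk h.2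
        simp only [ht, hee, if_neg hxA]
        have b1 : 0 ≤ CJ * ((1 - kf (qs (u κ.a) (u x))) * te u e x) :=
          mul_nonneg hCJ.le (mul_nonneg (by linarith) t0)
        have b2 : 0 ≤ CJ * te u e' x := by positivity
        push Not at hk
        have b3 : 0 ≤ CJ * te u e' x * (2 * kf (qs (u κ.a) (u x)) - 1) :=
          mul_nonneg b2 (by linarith)
        linarith
    have a2 : ∀ k' ∈ ch κ, ∫ x in Nr u ch k' (1 / 64), t x ≤ 2 * CJ * chain_D3_al u ch k' e' := by
      intro k' hk'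
      have hks := hc.chs κ hκ k' hk'
      have i1 : IntegrableOn (fun x => (1 - kf (qs (u k'.a) (u x))) * te u e' x) (Rg ch k') :=
        chain_D3_int ((continuous_const.sub (hkc (u k'.a))).mul (chain_D3_te_cont hu e')) k'
          (chain_D3_Rg_sub ch k')
      have i1c : IntegrableOn (fun x => 2 * CJ * ((1 - kf (qs (u k'.a) (u x))) * te u e' x))
          (Rg ch k') := i1.const_mul _
      unfold chain_D3_al
      rw [← integral_const_mul]
      calc ∫ x in Nr u ch k' (1 / 64), t x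
          ≤ ∫ x in Nr u ch k' (1 / 64),
              2 * CJ * ((1 - kf (qs (u k'.a) (u x))) * te u e' x) := by
            apply setIntegral_mono_on
              (htint.mono_set ((hNrs k').trans ((chain_D3_Rg_sub ch k').trans hks)))
              (i1c.mono_set (hNrs k')) (hNrm k')
            intro x hx
            have hxA : x ∉ A := fun h => h.1.2 k' hk' hx.1.1
            have hkz : kf (qs (u k'.a) (u x)) = 0 :=
              chain_D3_kf_zero (le_trans hx.2 (by norm_num))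
            have t1 := chain_D3_te_nonneg hn2 u he' x
            simp only [ht, hee, if_neg hxA]
            rw [hkz]
            have b2 : 0 ≤ CJ * te u e' x := by positivity
            linarith
        _ ≤ ∫ x in Rg ch k', 2 * CJ * ((1 - kf (qs (u k'.a) (u x))) * te u e' x) := by
            apply setIntegral_mono_set i1c
            · refine Filter.Eventually.of_forall fun x => ?_
              have t1 := chain_D3_te_nonneg hn2 u he' x
              have k1 := chain_D3_kf_le (qs (u k'.a) (u x))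
              exact mul_nonneg (by positivity) (mul_nonneg (by linarith) t1)
            · exact (hNrs k').eventuallyLE
    have a3 : ∑ k' ∈ ch κ, ∫ x in Nr u ch k' (1 / 64), t x ≤
        2 * CJ * ∑ k' ∈ ch κ, chain_D3_al u ch k' e' := by
      rw [Finset.mul_sum]
      exact Finset.sum_le_sum a2
    rw [chain_D3_tau_eq]
    rw [hX]
    calc _ ≤ _ := add_le_add a1 a3
      _ = _ := by ring
  have hX2 : X ≤ CJ * EN u κ.s := by
    have a1 : X ≤ ∫ x in κ.s, t x := by
      rw [chain_D3_dec hc hκ htint, hX]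
      apply add_le_add le_rfl
      apply Finset.sum_le_sum
      intro k' hk'
      exact setIntegral_mono_set (htint.mono_set (hc.chs κ hκ k' hk'))
        (Filter.Eventually.of_forall ht0)
        (((hNrs k').trans (chain_D3_Rg_sub ch k')).eventuallyLE)
    have a2 : ∫ x in κ.s, t x ≤ ∫ x in κ.s, CJ * fn (Dm u x) ^ n := by
      apply setIntegral_mono_on htint
        (chain_D3_int (continuous_const.mul hfc) κ subset_rfl) (chain_D3_s_meas κ)
      exact fun x _ => htle x
    have e3 : ∫ x in κ.s, CJ * fn (Dm u x) ^ n = CJ * EN u κ.s := integral_const_mul _ _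
    rw [e3] at a2
    exact a1.trans a2
  have hEN0 : 0 ≤ EN u κ.s := setIntegral_nonneg (chain_D3_s_meas κ) fun x _ =>
    chain_D3_fn_nonneg u x
  have hn0 : (0 : ℝ) < n := by
    have : 0 < n := by omega
    exact_mod_cast this
  have hpow : X ^ (((n : ℝ) + 1) / n) = X * X ^ ((1 : ℝ) / n) := by
    have h1 : ((n : ℝ) + 1) / n = 1 + 1 / n := by field_simp
    rw [h1, Real.rpow_one_add' hX0]
    have : (0 : ℝ) < 1 / n := by positivity
    linarith
  have hpow2 : X ^ ((1 : ℝ) / n) ≤ CJ ^ ((1 : ℝ) / n) * EN u κ.s ^ ((1 : ℝ) / n) := by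
    rw [← Real.mul_rpow hCJ.le hEN0]
    exact Real.rpow_le_rpow hX0 hX2 (by positivity)
  rw [hpow] at hiso
  have hY0 : 0 ≤ 2 * CJ * (chain_D3_al u ch κ e + tau u ch κ e') := hX0.trans hX1
  calc Dq ch d κ ≤ C2 * (X * X ^ ((1 : ℝ) / n)) := hiso
    _ ≤ C2 * ((2 * CJ * (chain_D3_al u ch κ e + tau u ch κ e')) *
        (CJ ^ ((1 : ℝ) / n) * EN u κ.s ^ ((1 : ℝ) / n))) := by
        apply mul_le_mul_of_nonneg_left _ hC2.le
        exact mul_le_mul hX1 hpow2 (Real.rpow_nonneg hX0 _) hY0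
    _ = _ := by ring

theorem chain_D3 {n : ℕ} (hn : 3 ≤ n) (M : ℝ) : ∃ ε C : ℝ, 0 < ε ∧ 0 < C ∧ ∀ {B : Set (E n)}
    {H : E (n + 1) → ℝ} {u : E n → E (n + 1)} {ν : E n → ℝ} {P : Bx n → Prop}
    {ch : Bx n → Finset (Bx n)} {rk : Bx n → ℕ} {d : Bx n → E (n + 1) → ℝ} {S : Bx n → ℝ},
    Sys M B H u ν P ch rk d S → ∀ (m : ℕ) (q : ℕ → Bx n), P (q 0) →
    (∀ i < m, q (i + 1) ∈ ch (q i)) → EN u (q 0).s ≤ ε →
    ∑ i ∈ Finset.range m, ∑ κ ∈ ch (q i), Dq ch d κ ≤
      C * EN u (q 0).s ^ ((1 : ℝ) / n) * (S (q 0) + ∫ x in (q 0).s, ν x) := by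
  classical
  have hn2 : 2 ≤ n := by omega
  obtain ⟨ε1, CT, hε1, hCT, htilt⟩ := chain_tilt hn2 M
  obtain ⟨ε2, CF, hε2, hCF, hfar⟩ := far hn2 M
  obtain ⟨ε3, CW, hε3, hCW, hwt⟩ := wt_sum hn2 M
  obtain ⟨CC, hCC, hcell⟩ := chain_D3_cell hn
  refine ⟨min ε1 (min ε2 ε3), CC * (2 * CT + CF * (CW + 1)), by positivity, by positivity, ?_⟩
  intro B H u ν P ch rk d S hsys m q h0 hq hEN
  have hc := hsys.cells
  have hu := hc.smooth
  have hfc : Continuous fun x => fn (Dm u x) ^ n := (chain_D3_fn_cont hu).pow n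
  have hP : ∀ i, i ≤ m → P (q i) := by
    intro i
    induction i with
    | zero => exact fun _ => h0
    | succ i ih => exact fun hi => hc.chP _ (ih (by omega)) _ (hq i (by omega))
  have hsub : ∀ i, i ≤ m → (q i).s ⊆ (q 0).s := by
    intro i
    induction i with
    | zero => exact fun _ => subset_rfl
    | succ i ih =>
      exact fun hi => (hc.chs _ (hP i (by omega)) _ (hq i (by omega))).trans (ih (by omega))
  have hν : ∀ Q, P Q → IntegrableOn ν Q.s := fun Q hQ =>
    hsys.nint.mono_set (fun x hx => hsys.sub Q hQ (fun i => ⟨(hx i).1, (hx i).2.le⟩))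
  have hν0 : ∀ Q : Bx n, 0 ≤ ∫ x in Q.s, ν x := fun Q =>
    setIntegral_nonneg (chain_D3_s_meas Q) fun x _ => hsys.nn x
  have hS0 : ∀ Q, P Q → 0 ≤ S Q := fun Q hQ => (T_le hsys Q hQ).1
  have hDq0 : ∀ Q, 0 ≤ Dq ch d Q := fun Q => integral_nonneg fun y => abs_nonneg _
  have hEN0 : ∀ Q : Bx n, 0 ≤ EN u Q.s := fun Q =>
    setIntegral_nonneg (chain_D3_s_meas Q) fun x _ => chain_D3_fn_nonneg u x
  have hENm : ∀ Q : Bx n, Q.s ⊆ (q 0).s → EN u Q.s ≤ EN u (q 0).s := fun Q hQ =>
    setIntegral_mono_set (chain_D3_int hfc (q 0) subset_rfl)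
      (Filter.Eventually.of_forall fun x => chain_D3_fn_nonneg u x) hQ.eventuallyLE
  set Sig := S (q 0) + ∫ x in (q 0).s, ν x with hSig
  have hSig0 : 0 ≤ Sig := add_nonneg (hS0 _ h0) (hν0 _)
  have hEp : 0 ≤ EN u (q 0).s ^ ((1 : ℝ) / n) := Real.rpow_nonneg (hEN0 _) _
  rcases Nat.eq_zero_or_pos m with hm0 | hm
  · rw [hm0, Finset.sum_range_zero]
    positivity
  obtain ⟨e, he, hT⟩ := htilt hsys m q h0 hq (hEN.trans (min_le_left _ _)) hm
  set T := ∑ i ∈ Finset.range m, tau u ch (q i) (e i) with hTdef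
  have hEN2 : EN u (q 0).s ≤ ε2 := hEN.trans ((min_le_right _ _).trans (min_le_left _ _))
  have hEN3 : EN u (q 0).s ≤ ε3 := hEN.trans ((min_le_right _ _).trans (min_le_right _ _))
  -- the remainder at a node
  set r : ℕ → ℝ := fun i => if i + 1 < m then tau u ch (q (i + 1)) (e (i + 1)) else
    CF * (S (q (i + 1)) + ∫ x in (q (i + 1)).s, ν x) with hr
  have hfarκ : ∀ κ, P κ → κ.s ⊆ (q 0).s → tau u ch κ 0 ≤ CF * (S κ + ∫ x in κ.s, ν x) := by
    intro κ hκ hκs
    exact (chain_D3_tau_zero hn2 hc hκ).trans (hfar hsys κ hκ ((hENm κ hκs).trans hEN2)).2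
  have hone : ∀ i < m, ∀ κ ∈ ch (q i), Dq ch d κ ≤ CC * EN u (q 0).s ^ ((1 : ℝ) / n) *
      (chain_D3_al u ch κ (e i) + if κ = q (i + 1) then r i else
        CF * (S κ + ∫ x in κ.s, ν x)) := by
    intro i hi κ hκ
    have hPi := hP i hi.le
    have hPκ := hc.chP _ hPi κ hκ
    have hκs : κ.s ⊆ (q 0).s := (hc.chs _ hPi κ hκ).trans (hsub i hi.le)
    have hpw : EN u κ.s ^ ((1 : ℝ) / n) ≤ EN u (q 0).s ^ ((1 : ℝ) / n) :=
      Real.rpow_le_rpow (hEN0 _) (hENm κ hκs) (by positivity)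
    have hal0 := chain_D3_al_nonneg hn2 u ch κ (he i)
    have hmain : ∀ e' : E (n + 1), Ue e' → ∀ ρ : ℝ, tau u ch κ e' ≤ ρ →
        Dq ch d κ ≤ CC * EN u (q 0).s ^ ((1 : ℝ) / n) * (chain_D3_al u ch κ (e i) + ρ) := by
      intro e' he' ρ hρ
      have ht0 := chain_D3_tau_nonneg hn2 u ch κ he'
      calc Dq ch d κ ≤ CC * EN u κ.s ^ ((1 : ℝ) / n) *
            (chain_D3_al u ch κ (e i) + tau u ch κ e') := hcell hc hsys.deg κ hPκ (e i) e' (he i) he'
        _ ≤ CC * EN u (q 0).s ^ ((1 : ℝ) / n) * (chain_D3_al u ch κ (e i) + ρ) := by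
            apply mul_le_mul
            · exact mul_le_mul_of_nonneg_left hpw hCC.le
            · linarith
            · linarith
            · exact mul_nonneg hCC.le hEp
    by_cases hκq : κ = q (i + 1)
    · rw [if_pos hκq]
      simp only [hr]
      by_cases him : i + 1 < m
      · rw [if_pos him]
        apply hmain (e (i + 1)) (he _)
        rw [hκq]
      · rw [if_neg him]
        apply hmain 0 chain_D3_Ue_zero
        rw [← hκq]
        exact hfarκ κ hPκ hκs
    · rw [if_neg hκq]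
      exact hmain 0 chain_D3_Ue_zero _ (hfarκ κ hPκ hκs)
  have hnode : ∀ i < m, ∑ κ ∈ ch (q i), Dq ch d κ ≤ CC * EN u (q 0).s ^ ((1 : ℝ) / n) *
      (tau u ch (q i) (e i) + (r i + CF * ∑ κ ∈ (ch (q i)).erase (q (i + 1)),
        (S κ + ∫ x in κ.s, ν x))) := by
    intro i hi
    calc ∑ κ ∈ ch (q i), Dq ch d κ
        ≤ ∑ κ ∈ ch (q i), CC * EN u (q 0).s ^ ((1 : ℝ) / n) *
          (chain_D3_al u ch κ (e i) + if κ = q (i + 1) then r i else
          CF * (S κ + ∫ x in κ.s, ν x)) := Finset.sum_le_sum (hone i hi)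
      _ = CC * EN u (q 0).s ^ ((1 : ℝ) / n) * ((∑ κ ∈ ch (q i), chain_D3_al u ch κ (e i)) +
          ∑ κ ∈ ch (q i), if κ = q (i + 1) then r i else CF * (S κ + ∫ x in κ.s, ν x)) := by
          rw [← Finset.mul_sum, Finset.sum_add_distrib]
      _ ≤ _ := by
          apply mul_le_mul_of_nonneg_left _ (mul_nonneg hCC.le hEp)
          apply add_le_add (chain_D3_sum_al hn2 u ch (q i) (he i))
          rw [← Finset.add_sum_erase _ _ (hq i hi), if_pos rfl, Finset.mul_sum]
          apply add_le_add le_rfl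
          apply le_of_eq
          apply Finset.sum_congr rfl
          intro κ hκ
          rw [if_neg (Finset.ne_of_mem_erase hκ)]
  have hside : ∑ i ∈ Finset.range m, ∑ κ ∈ (ch (q i)).erase (q (i + 1)),
      (S κ + ∫ x in κ.s, ν x) ≤ CW * Sig := by
    refine le_trans ?_ (hwt hsys m q h0 hq hEN3)
    apply Finset.sum_le_sum
    intro i hi
    have hi' := Finset.mem_range.1 hi
    unfold wt
    have w1 : 0 ≤ Ds u ch d (q i) (1 / 4) := integral_nonneg fun y => abs_nonneg _
    have w2 : 0 ≤ ∑ κ ∈ ch (q i), Dq ch d κ := Finset.sum_nonneg fun κ _ => hDq0 κ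
    have w3 : 0 ≤ ∫ x in Rg ch (q i), ν x :=
      setIntegral_nonneg (chain_D3_Rg_meas ch _) fun x _ => hsys.nn x
    have w4 : 0 ≤ ∫ x in Rg ch (q (i + 1)), ν x :=
      setIntegral_nonneg (chain_D3_Rg_meas ch _) fun x _ => hsys.nn x
    linarith
  have hSm : S (q m) ≤ S (q 0) := by
    rw [chain_S hsys m q h0 hq]
    have w1 : 0 ≤ ∑ i ∈ Finset.range m, ∑ κ ∈ ch (q i), Dq ch d κ :=
      Finset.sum_nonneg fun i _ => Finset.sum_nonneg fun κ _ => hDq0 κ
    have w2 : 0 ≤ ∑ i ∈ Finset.range m, ∑ κ ∈ (ch (q i)).erase (q (i + 1)), S κ := by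
      apply Finset.sum_nonneg
      intro i hi
      apply Finset.sum_nonneg
      intro κ hκ
      exact hS0 κ (hc.chP _ (hP i (Finset.mem_range.1 hi).le) κ (Finset.mem_of_mem_erase hκ))
    linarith
  have hνm : ∫ x in (q m).s, ν x ≤ ∫ x in (q 0).s, ν x :=
    setIntegral_mono_set (hν _ h0) (Filter.Eventually.of_forall hsys.nn) (hsub m le_rfl).eventuallyLE
  have hrsum : ∑ i ∈ Finset.range m, r i ≤ T + CF * Sig := by
    obtain ⟨m', rfl⟩ : ∃ m', m = m' + 1 := ⟨m - 1, by omega⟩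
    rw [Finset.sum_range_succ]
    apply add_le_add
    · rw [hTdef, Finset.sum_range_succ']
      have w1 := chain_D3_tau_nonneg hn2 u ch (q 0) (he 0)
      have w2 : ∑ i ∈ Finset.range m', r i =
          ∑ i ∈ Finset.range m', tau u ch (q (i + 1)) (e (i + 1)) := by
        apply Finset.sum_congr rfl
        intro i hi
        have hi' := Finset.mem_range.1 hi
        simp only [hr]
        rw [if_pos (by omega)]
      rw [w2]
      linarith
    · simp only [hr]
      rw [if_neg (by omega)]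
      apply mul_le_mul_of_nonneg_left _ hCF.le
      linarith
  calc ∑ i ∈ Finset.range m, ∑ κ ∈ ch (q i), Dq ch d κ
      ≤ ∑ i ∈ Finset.range m, CC * EN u (q 0).s ^ ((1 : ℝ) / n) *
        (tau u ch (q i) (e i) + (r i + CF * ∑ κ ∈ (ch (q i)).erase (q (i + 1)),
        (S κ + ∫ x in κ.s, ν x))) :=
        Finset.sum_le_sum fun i hi => hnode i (Finset.mem_range.1 hi)
    _ = CC * EN u (q 0).s ^ ((1 : ℝ) / n) * (T + ((∑ i ∈ Finset.range m, r i) +
        CF * ∑ i ∈ Finset.range m, ∑ κ ∈ (ch (q i)).erase (q (i + 1)),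
        (S κ + ∫ x in κ.s, ν x))) := by
        rw [← Finset.mul_sum, Finset.sum_add_distrib, Finset.sum_add_distrib, Finset.mul_sum]
    _ ≤ CC * EN u (q 0).s ^ ((1 : ℝ) / n) * ((2 * CT + CF * (CW + 1)) * Sig) := by
        apply mul_le_mul_of_nonneg_left _ (mul_nonneg hCC.le hEp)
        have w1 := mul_le_mul_of_nonneg_left hside hCF.le
        have w2 : (2 * CT + CF * (CW + 1)) * Sig =
            CT * Sig + (CT * Sig + CF * Sig + CF * (CW * Sig)) := by ring
        rw [w2]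
        linarith
    _ = _ := by ring

end H930.HS.XCD3

namespace H930.HS

export XCD3 (chain_D3)

end H930.HS
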