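import Pool.Agent.Helper930.HS.Exp

set_option autoImplicit false

open MeasureTheory Metric Set Filter Topology
open scoped ENNReal NNReal ContDiff

namespace H930.HS.XWFB

open H930.BL



theorem wfb_deriv_sT (s : ℝ) (hs : 1 ≤ s) : deriv Real.smoothTransition s = 0 := by
  apply IsLocalMax.deriv_eq_zero
  refine Filter.Eventually.of_forall (fun t => ?_)
  rw [Real.smoothTransition.one_of_one_le hs]
  exact Real.smoothTransition.le_one t

theorem wfb_sT_diff : Differentiable ℝ Real.smoothTransition :=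
  (Real.smoothTransition.contDiff (n := 1)).differentiable one_ne_zero

theorem wfb_kf_has (q : ℝ) :
    HasDerivAt kf (deriv Real.smoothTransition ((4 * q - 1) / 3) * (4 / 3)) q := by
  have h1 : HasDerivAt (fun q : ℝ => (4 * q - 1) / 3) (4 / 3) q := by
    have := (((hasDerivAt_id q).const_mul 4).sub_const 1).div_const 3
    simpa using this
  exact (wfb_sT_diff _).hasDerivAt.comp q h1

theorem wfb_Tf_has (q : ℝ) :
    HasDerivAt Tf (-(deriv Real.smoothTransition ((q - 144) / 256) * (1 / 256))) q := by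
  have h1 : HasDerivAt (fun q : ℝ => (q - 144) / 256) (1 / 256) q := by
    have := ((hasDerivAt_id q).sub_const 144).div_const 256
    simpa using this
  exact ((wfb_sT_diff _).hasDerivAt.comp q h1).const_sub 1

theorem wfb_qs_has {m : ℕ} (c y : E m) : HasFDerivAt (qs c)
    (∑ a, (2 * (y a - c a)) • (ContinuousLinearMap.proj a : E m →L[ℝ] ℝ)) y := by
  have h1 : ∀ a : Fin m, HasFDerivAt (fun y : E m => (y a - c a) ^ 2)
      ((2 * (y a - c a)) • (ContinuousLinearMap.proj a : E m →L[ℝ] ℝ)) y := by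
    intro a
    have h2 : HasFDerivAt (fun y : E m => y a - c a)
        (ContinuousLinearMap.proj a : E m →L[ℝ] ℝ) y :=
      (hasFDerivAt_apply a y).sub_const _
    have h3 := h2.pow 2
    refine h3.congr_fderiv ?_
    norm_num
  have h4 := HasFDerivAt.fun_sum (u := Finset.univ) (fun a _ => h1 a)
  exact h4

theorem wfb_chain {m : ℕ} (k : ℝ → ℝ) (k' : ℝ) (c y : E m) (b : Fin m)
    (hk : HasDerivAt k k' (qs c y)) :
    DifferentiableAt ℝ (fun z => k (qs c z)) y ∧
      pd (fun z => k (qs c z)) b y = k' * (2 * (y b - c b)) := by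
  have h1 := hk.comp_hasFDerivAt y (wfb_qs_has c y)
  refine ⟨h1.differentiableAt, ?_⟩
  unfold pd
  have h2 : fderiv ℝ (fun z => k (qs c z)) y =
      k' • ∑ a, (2 * (y a - c a)) • (ContinuousLinearMap.proj a : E m →L[ℝ] ℝ) := h1.fderiv
  rw [h2]
  simp [Pi.single_apply]

theorem wfb_sq {m : ℕ} (c y : E m) (b : Fin m) : (y b - c b) ^ 2 ≤ qs c y :=
  Finset.single_le_sum (f := fun a => (y a - c a) ^ 2) (fun a _ => sq_nonneg _) (Finset.mem_univ b)

theorem wfb_kf01 (q : ℝ) : 0 ≤ kf q ∧ kf q ≤ 1 :=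
  ⟨Real.smoothTransition.nonneg _, Real.smoothTransition.le_one _⟩

theorem wfb_Tf01 (q : ℝ) : 0 ≤ Tf q ∧ Tf q ≤ 1 := by
  unfold Tf
  have h1 := Real.smoothTransition.nonneg ((q - 144) / 256)
  have h2 := Real.smoothTransition.le_one ((q - 144) / 256)
  constructor <;> linarith

theorem wfb_Tf0 (q : ℝ) (hq : 400 ≤ q) : Tf q = 0 := by
  unfold Tf
  rw [Real.smoothTransition.one_of_one_le (by linarith)]
  ring

theorem wfb_K {m : ℕ} (C : ℝ) (hC : ∀ s : ℝ, |deriv Real.smoothTransition s| ≤ C) (c y : E m)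
    (b : Fin m) : DifferentiableAt ℝ (fun z => kf (qs c z)) y ∧
      |pd (fun z => kf (qs c z)) b y| ≤ 3 * C := by
  obtain ⟨h1, h2⟩ := wfb_chain kf _ c y b (wfb_kf_has (qs c y))
  refine ⟨h1, ?_⟩
  rw [h2]
  have hC0 : 0 ≤ C := (abs_nonneg _).trans (hC 0)
  by_cases hq : 1 ≤ qs c y
  · rw [wfb_deriv_sT _ (by linarith)]
    simp only [zero_mul, abs_zero]
    positivity
  · have h3 := wfb_sq c y b
    have h4 : |y b - c b| ≤ 1 := by
      rw [abs_le]
      constructor <;> nlinarith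
    rw [abs_mul, abs_mul, abs_mul]
    have h5 := hC ((4 * qs c y - 1) / 3)
    have h6 : |(4 / 3 : ℝ)| = 4 / 3 := abs_of_pos (by norm_num)
    have h7 : |(2 : ℝ)| = 2 := abs_of_pos (by norm_num)
    rw [h6, h7]
    have h8 : |deriv Real.smoothTransition ((4 * qs c y - 1) / 3)| * (4 / 3) ≤ C * (4 / 3) :=
      mul_le_mul_of_nonneg_right h5 (by norm_num)
    have h9 : 2 * |y b - c b| ≤ 2 := by linarith
    calc |deriv Real.smoothTransition ((4 * qs c y - 1) / 3)| * (4 / 3) * (2 * |y b - c b|)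
        ≤ C * (4 / 3) * 2 := mul_le_mul h8 h9 (by positivity) (by positivity)
      _ ≤ 3 * C := by linarith

theorem wfb_T {m : ℕ} (C : ℝ) (hC : ∀ s : ℝ, |deriv Real.smoothTransition s| ≤ C) (c y : E m)
    (b : Fin m) : DifferentiableAt ℝ (fun z => Tf (qs c z)) y ∧
      |pd (fun z => Tf (qs c z)) b y| ≤ C ∧
      (400 ≤ qs c y → pd (fun z => Tf (qs c z)) b y = 0) := by
  obtain ⟨h1, h2⟩ := wfb_chain Tf _ c y b (wfb_Tf_has (qs c y))
  refine ⟨h1, ?_, ?_⟩
  · rw [h2]
    have hC0 : 0 ≤ C := (abs_nonneg _).trans (hC 0)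
    by_cases hq : 400 ≤ qs c y
    · rw [wfb_deriv_sT _ (by linarith)]
      simp only [zero_mul, neg_zero, abs_zero]
      exact hC0
    · have h3 := wfb_sq c y b
      have h4 : |y b - c b| ≤ 20 := by
        rw [abs_le]
        constructor <;> nlinarith
      rw [abs_mul, abs_neg, abs_mul, abs_mul]
      have h5 := hC ((qs c y - 144) / 256)
      have h6 : |(1 / 256 : ℝ)| = 1 / 256 := abs_of_pos (by norm_num)
      have h7 : |(2 : ℝ)| = 2 := abs_of_pos (by norm_num)
      rw [h6, h7]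
      have h8 : |deriv Real.smoothTransition ((qs c y - 144) / 256)| * (1 / 256) ≤ C * (1 / 256) :=
        mul_le_mul_of_nonneg_right h5 (by norm_num)
      have h9 : 2 * |y b - c b| ≤ 40 := by linarith
      calc |deriv Real.smoothTransition ((qs c y - 144) / 256)| * (1 / 256) * (2 * |y b - c b|)
          ≤ C * (1 / 256) * 40 := mul_le_mul h8 h9 (by positivity) (by positivity)
        _ ≤ C := by linarith
  · intro hq
    rw [h2, wfb_deriv_sT _ (by linarith)]
    simp

theorem wfb_e {m : ℕ} (e : E m) (he : Ue e) (b : Fin m) : |e b| ≤ 1 := by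
  rcases he with he | he
  · rw [he]; simp
  · have h1 : e b ^ 2 ≤ ∑ a, e a ^ 2 :=
      Finset.single_le_sum (f := fun a => e a ^ 2) (fun a _ => sq_nonneg _) (Finset.mem_univ b)
    rw [he] at h1
    rw [abs_le]
    constructor <;> nlinarith

theorem wfb_P_has {m : ℕ} (c e y : E m) (a : Fin m) :
    HasFDerivAt (fun z : E m => Pe e (fun b => z b - c b) a)
      ((ContinuousLinearMap.proj a : E m →L[ℝ] ℝ) -
        e a • ∑ b, e b • (ContinuousLinearMap.proj b : E m →L[ℝ] ℝ)) y := by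
  have h1 : ∀ a : Fin m, HasFDerivAt (fun y : E m => y a - c a)
      (ContinuousLinearMap.proj a : E m →L[ℝ] ℝ) y := fun a => (hasFDerivAt_apply a y).sub_const _
  have h2 : HasFDerivAt (fun y : E m => ∑ b, e b * (y b - c b))
      (∑ b, e b • (ContinuousLinearMap.proj b : E m →L[ℝ] ℝ)) y :=
    HasFDerivAt.fun_sum (u := Finset.univ) (fun b _ => (h1 b).const_mul (e b))
  exact (h1 a).sub (h2.const_mul (e a))

theorem wfb_P_pd {m : ℕ} (c e y : E m) (he : Ue e) (a b : Fin m) :
    |pd (fun z : E m => Pe e (fun b => z b - c b) a) b y| ≤ 2 := by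
  unfold pd
  rw [(wfb_P_has c e y a).fderiv]
  have e1 : ((ContinuousLinearMap.proj a : E m →L[ℝ] ℝ) -
        e a • ∑ b, e b • (ContinuousLinearMap.proj b : E m →L[ℝ] ℝ)) (Pi.single b 1) =
      (if a = b then 1 else 0) - e a * e b := by
    simp [Pi.single_apply]
  rw [e1]
  have h1 := wfb_e e he a
  have h2 := wfb_e e he b
  have h3 : |e a * e b| ≤ 1 := by
    rw [abs_mul]
    exact mul_le_one₀ h1 (abs_nonneg _) h2
  have h4 : |(if a = b then (1 : ℝ) else 0)| ≤ 1 := by
    split_ifs <;> simp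
  refine (abs_sub _ _).trans ?_
  linarith

theorem wfb_P_bd {m : ℕ} (c e y : E m) (he : Ue e) (a : Fin m) (hq : qs c y ≤ 400) :
    |Pe e (fun b => y b - c b) a| ≤ 20 * (m + 1) := by
  have h1 : ∀ b, |y b - c b| ≤ 20 := by
    intro b
    have h3 := wfb_sq c y b
    rw [abs_le]
    constructor <;> nlinarith
  unfold Pe
  have h2 : |∑ b, e b * (y b - c b)| ≤ 20 * m := by
    refine (Finset.abs_sum_le_sum_abs _ _).trans ?_
    calc ∑ b, |e b * (y b - c b)| ≤ ∑ _b : Fin m, (20 : ℝ) := by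
          refine Finset.sum_le_sum (fun b _ => ?_)
          rw [abs_mul]
          calc |e b| * |y b - c b| ≤ 1 * 20 :=
                mul_le_mul (wfb_e e he b) (h1 b) (abs_nonneg _) zero_le_one
            _ = 20 := one_mul _
      _ = 20 * m := by simp [mul_comm]
  have h3 : |e a * ∑ b, e b * (y b - c b)| ≤ 20 * m := by
    rw [abs_mul]
    calc |e a| * |∑ b, e b * (y b - c b)| ≤ 1 * (20 * m) :=
          mul_le_mul (wfb_e e he a) h2 (abs_nonneg _) zero_le_one
      _ = 20 * m := one_mul _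
  refine (abs_sub _ _).trans ?_
  have := h1 a
  linarith

theorem wfb_qs_smooth {m : ℕ} (c : E m) : ContDiff ℝ ∞ (qs c) := by
  unfold qs
  fun_prop

theorem wfb_kf_smooth {m : ℕ} (c : E m) : ContDiff ℝ ∞ (fun y => kf (qs c y)) := by
  unfold kf
  have h1 : ContDiff ℝ ∞ (fun y => (4 * qs c y - 1) / 3) :=
    (((contDiff_const.mul (wfb_qs_smooth c)).sub contDiff_const).div_const 3)
  exact Real.smoothTransition.contDiff.comp h1

theorem wfb_Tf_smooth {m : ℕ} (c : E m) : ContDiff ℝ ∞ (fun y => Tf (qs c y)) := by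
  unfold Tf
  have h1 : ContDiff ℝ ∞ (fun y => (qs c y - 144) / 256) :=
    ((wfb_qs_smooth c).sub contDiff_const).div_const 256
  exact contDiff_const.sub (Real.smoothTransition.contDiff.comp h1)

theorem wfb_P_smooth {m : ℕ} (c e : E m) (a : Fin m) :
    ContDiff ℝ ∞ (fun z : E m => Pe e (fun b => z b - c b) a) := by
  unfold Pe
  fun_prop

theorem wfb_GP {m : ℕ} (D : ℝ) (hD : 0 ≤ D) (c e : E m) (he : Ue e) (G : E m → ℝ)
    (hG : ContDiff ℝ ∞ G) (hG1 : ∀ y, |G y| ≤ 1) (hGD : ∀ y b, |pd G b y| ≤ D)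
    (hG0 : ∀ y, 400 ≤ qs c y → G y = 0 ∧ ∀ b, pd G b y = 0) :
    FB (20 * (m + 1) * (1 + D) + 2) (fun y a => G y * Pe e (fun b => y b - c b) a) := by
  have hm : (0 : ℝ) ≤ 20 * ((m : ℝ) + 1) := by positivity
  refine ⟨?_, ?_, ?_⟩
  · rw [contDiff_pi]
    intro a
    exact hG.mul (wfb_P_smooth c e a)
  · intro y a
    beta_reduce
    by_cases hq : 400 ≤ qs c y
    · rw [(hG0 y hq).1, zero_mul, abs_zero]
      positivity
    · rw [abs_mul]
      have h1 := wfb_P_bd c e y he a (by linarith)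
      calc |G y| * |Pe e (fun b => y b - c b) a| ≤ 1 * (20 * (m + 1)) :=
            mul_le_mul (hG1 y) h1 (abs_nonneg _) zero_le_one
        _ ≤ 20 * (m + 1) * (1 + D) + 2 := by nlinarith
  · intro y a b
    have h2 := pd_mul (u := G) (v := fun z : E m => Pe e (fun b => z b - c b) a) (x := y)
      (hG.differentiable (by simp) y) (wfb_P_has c e y a).differentiableAt b
    rw [h2]
    by_cases hq : 400 ≤ qs c y
    · rw [(hG0 y hq).1, (hG0 y hq).2 b]
      simp only [zero_mul, mul_zero, add_zero, abs_zero]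
      positivity
    · have h1 := wfb_P_bd c e y he a (by linarith)
      have h3 := wfb_P_pd c e y he a b
      refine (abs_add_le _ _).trans ?_
      rw [abs_mul, abs_mul]
      have h4 : |G y| * |pd (fun z : E m => Pe e (fun b => z b - c b) a) b y| ≤ 1 * 2 :=
        mul_le_mul (hG1 y) h3 (abs_nonneg _) zero_le_one
      have h5 : |Pe e (fun b => y b - c b) a| * |pd G b y| ≤ (20 * (m + 1)) * D :=
        mul_le_mul h1 (hGD y b) (abs_nonneg _) hm
      nlinarith

theorem wfb_mono {m : ℕ} {A A' : ℝ} (h : A ≤ A') {W : E m → E m} (hW : FB A W) : FB A' W :=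
  ⟨hW.1, fun y a => (hW.2.1 y a).trans h, fun y a b => (hW.2.2 y a b).trans h⟩

theorem W_FB (m : ℕ) : ∃ A : ℝ, 0 < A ∧ ∀ (c c' e : E m), Ue e →
    FB A (Wt c e) ∧ FB A (Wk c c' e) ∧
    (∀ a0, FB A (fun y a => if a = a0 then kf (qs c y) else 0)) ∧
    (∀ a0, FB A (fun y a => if a = a0 then 1 - kf (qs c y) else 0)) := by
  obtain ⟨C, hC0, hC⟩ := exists_C0
  have hm : (0 : ℝ) ≤ 20 * ((m : ℝ) + 1) := by positivity
  refine ⟨20 * (m + 1) * (1 + 4 * C) + 2 + 3 * C, by positivity, ?_⟩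
  intro c c' e he
  have hsmK : ∀ c : E m, ContDiff ℝ ∞ (fun y => kf (qs c y)) := wfb_kf_smooth
  refine ⟨?_, ?_, ?_, ?_⟩
  · refine wfb_mono (A := 20 * (m + 1) * (1 + 4 * C) + 2) (by linarith) ?_
    refine wfb_GP (4 * C) (by positivity) c e he (fun y => kf (qs c y) * Tf (qs c y))
      ((wfb_kf_smooth c).mul (wfb_Tf_smooth c)) ?_ ?_ ?_
    · intro y
      rw [abs_mul, abs_of_nonneg (wfb_kf01 _).1, abs_of_nonneg (wfb_Tf01 _).1]
      exact mul_le_one₀ (wfb_kf01 _).2 (wfb_Tf01 _).1 (wfb_Tf01 _).2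
    · intro y b
      obtain ⟨d1, b1⟩ := wfb_K C hC c y b
      obtain ⟨d2, b2, _⟩ := wfb_T C hC c y b
      rw [pd_mul d1 d2]
      refine (abs_add_le _ _).trans ?_
      rw [abs_mul, abs_mul, abs_of_nonneg (wfb_kf01 _).1, abs_of_nonneg (wfb_Tf01 _).1]
      have h1 : kf (qs c y) * |pd (fun z => Tf (qs c z)) b y| ≤ 1 * C :=
        mul_le_mul (wfb_kf01 _).2 b2 (abs_nonneg _) zero_le_one
      have h2 : Tf (qs c y) * |pd (fun z => kf (qs c z)) b y| ≤ 1 * (3 * C) :=
        mul_le_mul (wfb_Tf01 _).2 b1 (abs_nonneg _) zero_le_one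
      linarith
    · intro y hq
      refine ⟨?_, ?_⟩
      · rw [wfb_Tf0 _ hq, mul_zero]
      · intro b
        obtain ⟨d1, b1⟩ := wfb_K C hC c y b
        obtain ⟨d2, _, b2⟩ := wfb_T C hC c y b
        rw [pd_mul d1 d2, b2 hq, wfb_Tf0 _ hq]
        ring
  · refine wfb_mono (A := 20 * (m + 1) * (1 + 4 * C) + 2) (by linarith) ?_
    refine wfb_GP (4 * C) (by positivity) c e he (fun y => (1 - kf (qs c' y)) * Tf (qs c y))
      ((contDiff_const.sub (wfb_kf_smooth c')).mul (wfb_Tf_smooth c)) ?_ ?_ ?_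
    · intro y
      have k1 := wfb_kf01 (qs c' y)
      rw [abs_mul, abs_of_nonneg (by linarith : 0 ≤ 1 - kf (qs c' y)),
        abs_of_nonneg (wfb_Tf01 _).1]
      exact mul_le_one₀ (by linarith) (wfb_Tf01 _).1 (wfb_Tf01 _).2
    · intro y b
      have k1 := wfb_kf01 (qs c' y)
      obtain ⟨d1, b1⟩ := wfb_K C hC c' y b
      obtain ⟨d2, b2, _⟩ := wfb_T C hC c y b
      rw [pd_mul (d1.const_sub 1) d2, pd_one_sub]
      refine (abs_add_le _ _).trans ?_
      rw [abs_mul, abs_mul, abs_neg, abs_of_nonneg (by linarith : 0 ≤ 1 - kf (qs c' y)),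
        abs_of_nonneg (wfb_Tf01 _).1]
      have h1 : (1 - kf (qs c' y)) * |pd (fun z => Tf (qs c z)) b y| ≤ 1 * C :=
        mul_le_mul (by linarith) b2 (abs_nonneg _) zero_le_one
      have h2 : Tf (qs c y) * |pd (fun z => kf (qs c' z)) b y| ≤ 1 * (3 * C) :=
        mul_le_mul (wfb_Tf01 _).2 b1 (abs_nonneg _) zero_le_one
      linarith
    · intro y hq
      refine ⟨?_, ?_⟩
      · rw [wfb_Tf0 _ hq, mul_zero]
      · intro b
        obtain ⟨d1, b1⟩ := wfb_K C hC c' y b
        obtain ⟨d2, _, b2⟩ := wfb_T C hC c y b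
        rw [pd_mul (d1.const_sub 1) d2, b2 hq, wfb_Tf0 _ hq]
        ring
  · intro a0
    have hA : (1 : ℝ) + 3 * C ≤ 20 * (m + 1) * (1 + 4 * C) + 2 + 3 * C := by
      have : 0 ≤ 20 * ((m : ℝ) + 1) * (1 + 4 * C) := by positivity
      linarith
    refine ⟨?_, ?_, ?_⟩
    · rw [contDiff_pi]
      intro a
      by_cases h : a = a0
      · simp only [h, if_true]; exact wfb_kf_smooth c
      · simp only [h, if_false]; exact contDiff_const
    · intro y a
      refine le_trans ?_ hA
      simp only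
      split_ifs
      · rw [abs_of_nonneg (wfb_kf01 _).1]
        linarith [(wfb_kf01 (qs c y)).2]
      · rw [abs_zero]; positivity
    · intro y a b
      refine le_trans ?_ hA
      by_cases h : a = a0
      · simp only [h, if_true]
        linarith [(wfb_K C hC c y b).2]
      · simp only [h, if_false]
        have : pd (fun _ : E m => (0 : ℝ)) b y = 0 := by simp [pd]
        rw [this, abs_zero]; positivity
  · intro a0
    have hA : (1 : ℝ) + 3 * C ≤ 20 * (m + 1) * (1 + 4 * C) + 2 + 3 * C := by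
      have : 0 ≤ 20 * ((m : ℝ) + 1) * (1 + 4 * C) := by positivity
      linarith
    refine ⟨?_, ?_, ?_⟩
    · rw [contDiff_pi]
      intro a
      by_cases h : a = a0
      · simp only [h, if_true]; exact contDiff_const.sub (wfb_kf_smooth c)
      · simp only [h, if_false]; exact contDiff_const
    · intro y a
      refine le_trans ?_ hA
      have k1 := wfb_kf01 (qs c y)
      simp only
      split_ifs
      · rw [abs_of_nonneg (by linarith : 0 ≤ 1 - kf (qs c y))]
        linarith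
      · rw [abs_zero]; positivity
    · intro y a b
      refine le_trans ?_ hA
      by_cases h : a = a0
      · simp only [h, if_true]
        rw [pd_one_sub, abs_neg]
        linarith [(wfb_K C hC c y b).2]
      · simp only [h, if_false]
        have : pd (fun _ : E m => (0 : ℝ)) b y = 0 := by simp [pd]
        rw [this, abs_zero]; positivity

end H930.HS.XWFB

namespace H930.HS

export XWFB (W_FB)

end H930.HS
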