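import Pool.Agent.Helper930.HS.Test2
import Pool.Agent.Helper930.HS.WFB
import Pool.Agent.Helper930.HS.AdW
import Pool.Agent.Helper930.HS.TeB
import Pool.Agent.Helper930.HS.Thr

set_option autoImplicit false

open MeasureTheory Metric Set Filter Topology
open scoped ENNReal NNReal ContDiff

namespace H930.HS.XFlux

open H930.BL



theorem cl_compact235 {n : ℕ} (Q : Bx n) : IsCompact Q.cl := by
  have h : Q.cl = Set.Icc Q.a Q.b := by
    ext x
    simp only [Bx.cl, Set.mem_ofPred_eq, Set.mem_Icc, Pi.le_def, forall_and]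
  rw [h]
  exact isCompact_Icc

theorem s_sub_cl235 {n : ℕ} (Q : Bx n) : Q.s ⊆ Q.cl := fun _ hx i => ⟨(hx i).1, (hx i).2.le⟩

theorem s_meas235 {n : ℕ} (Q : Bx n) : MeasurableSet Q.s := by
  have h : Q.s = ⋂ i, ({x : E n | Q.a i ≤ x i} ∩ {x : E n | x i < Q.b i}) := by
    ext x
    simp [Bx.s]
  rw [h]
  exact MeasurableSet.iInter fun i => (measurableSet_le measurable_const
    (measurable_pi_apply i)).inter (measurableSet_lt (measurable_pi_apply i) measurable_const)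

theorem Rg_meas235 {n : ℕ} (ch : Bx n → Finset (Bx n)) (Q : Bx n) : MeasurableSet (Rg ch Q) := by
  have h : Rg ch Q = Q.s ∩ ⋂ κ ∈ ch Q, κ.sᶜ := by
    ext x
    simp [Rg]
  rw [h]
  exact (s_meas235 Q).inter (Finset.measurableSet_biInter _ fun κ _ => (s_meas235 κ).compl)

theorem Rg_sub235 {n : ℕ} (ch : Bx n → Finset (Bx n)) (Q : Bx n) : Rg ch Q ⊆ Q.s :=
  fun _ hx => hx.1

theorem int235 {n : ℕ} {f : E n → ℝ} (hf : Continuous f) (Q : Bx n) {A : Set (E n)}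
    (hA : A ⊆ Q.s) : IntegrableOn f A :=
  (hf.continuousOn.integrableOn_compact (cl_compact235 Q)).mono_set (hA.trans (s_sub_cl235 Q))

theorem Dm_cont235 {n m : ℕ} {u : E n → E m} (hu : ContDiff ℝ ∞ u) (i : Fin m) (j : Fin n) :
    Continuous fun x => Dm u x i j := by
  have h : (fun x => Dm u x i j) = pd (fun y => u y i) j := by
    ext x
    rfl
  rw [h]
  exact continuous_pd (((contDiff_pi.1 hu) i).of_le (by simp)) j

theorem fn_cont235 {n m : ℕ} {u : E n → E m} (hu : ContDiff ℝ ∞ u) :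
    Continuous fun x => fn (Dm u x) := by
  unfold fn
  exact Real.continuous_sqrt.comp (continuous_finsetSum _ fun a _ =>
    continuous_finsetSum _ fun b _ => (Dm_cont235 hu a b).pow 2)

theorem kf_contDiff235 : ContDiff ℝ ∞ kf := by
  unfold kf
  exact Real.smoothTransition.contDiff.comp (by fun_prop)

theorem kf_cont235 : Continuous kf := kf_contDiff235.continuous

theorem kf_deriv_cont235 : Continuous (deriv kf) :=
  kf_contDiff235.continuous_deriv (by simp)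

theorem qs_cont235 {m : ℕ} (c : E m) : Continuous (qs c) := by
  unfold qs
  exact continuous_finsetSum _ fun a _ => ((continuous_apply a).sub continuous_const).pow 2

theorem kb_cont235 {m : ℕ} (c : E m) (b : Fin m) : Continuous fun y => kb c y b := by
  unfold kb
  exact (kf_deriv_cont235.comp (qs_cont235 c)).mul
    (continuous_const.mul ((continuous_apply b).sub continuous_const))

/-- flux density -/
noncomputable def fl235 {n : ℕ} (u : E n → E (n + 1)) (c : E (n + 1)) (a : Fin (n + 1))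
    (x : E n) : ℝ := ∑ b, kb c (u x) b * ∑ j, Dm u x a j * Dm u x b j

theorem fl_cont235 {n : ℕ} {u : E n → E (n + 1)} (hu : ContDiff ℝ ∞ u) (c : E (n + 1))
    (a : Fin (n + 1)) : Continuous (fl235 u c a) := by
  unfold fl235
  exact continuous_finsetSum _ fun b _ => ((kb_cont235 c b).comp hu.continuous).mul
    (continuous_finsetSum _ fun j _ => (Dm_cont235 hu a j).mul (Dm_cont235 hu b j))

theorem te_cont235 {n : ℕ} {u : E n → E (n + 1)} (hu : ContDiff ℝ ∞ u) (e : E (n + 1)) :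
    Continuous (te u e) := by
  unfold te
  exact ((fn_cont235 hu).pow _).mul (((fn_cont235 hu).pow 2).sub
    (continuous_finsetSum _ fun j _ => (continuous_finsetSum _ fun a _ =>
      continuous_const.mul (Dm_cont235 hu a j)).pow 2))

theorem u_cont235 {n m : ℕ} {u : E n → E m} (hu : ContDiff ℝ ∞ u) (a : Fin m) :
    Continuous fun x => u x a := (continuous_apply a).comp hu.continuous

theorem Mo_eq235 {n : ℕ} (u : E n → E (n + 1)) (ch : Bx n → Finset (Bx n)) (κ : Bx n)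
    (a c : Fin (n + 1)) :
    Mo u ch κ a c = ∫ x in Rg ch κ, fn (Dm u x) ^ (n - 2) * ((u x c - u κ.a c) *
      fl235 u (u κ.a) a x) := rfl

theorem Ph_eq235 {n : ℕ} (u : E n → E (n + 1)) (ch : Bx n → Finset (Bx n)) (κ : Bx n)
    (a : Fin (n + 1)) :
    Ph u ch κ a = ∫ x in Rg ch κ, fn (Dm u x) ^ (n - 2) * fl235 u (u κ.a) a x := rfl

theorem Mp_Mo235 {n : ℕ} {u : E n → E (n + 1)} (hu : ContDiff ℝ ∞ u)
    (ch : Bx n → Finset (Bx n)) (κ : Bx n) (e : E (n + 1)) :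
    Mp (Mo u ch κ) e = ∫ x in Rg ch κ, fn (Dm u x) ^ (n - 2) *
      ∑ a, Pe e (fun b => u x b - u κ.a b) a * fl235 u (u κ.a) a x := by
  have hi : ∀ a c, Integrable (fun x => fn (Dm u x) ^ (n - 2) * ((u x c - u κ.a c) *
      fl235 u (u κ.a) a x)) (volume.restrict (Rg ch κ)) := by
    intro a c
    exact int235 (((fn_cont235 hu).pow _).mul (((u_cont235 hu c).sub continuous_const).mul
      (fl_cont235 hu _ a))) κ (Rg_sub235 ch κ)
  have e1 : ∀ x, fn (Dm u x) ^ (n - 2) *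
      ∑ a, Pe e (fun b => u x b - u κ.a b) a * fl235 u (u κ.a) a x =
      (∑ a, fn (Dm u x) ^ (n - 2) * ((u x a - u κ.a a) * fl235 u (u κ.a) a x)) -
      ∑ a, ∑ b, (e a * e b) * (fn (Dm u x) ^ (n - 2) * ((u x b - u κ.a b) *
        fl235 u (u κ.a) a x)) := by
    intro x
    rw [← Finset.sum_sub_distrib, Finset.mul_sum]
    refine Finset.sum_congr rfl fun a _ => ?_
    unfold Pe
    have e2 : ∑ b, (e a * e b) * (fn (Dm u x) ^ (n - 2) * ((u x b - u κ.a b) *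
        fl235 u (u κ.a) a x)) = (e a * fn (Dm u x) ^ (n - 2) * fl235 u (u κ.a) a x) *
          ∑ b, e b * (u x b - u κ.a b) := by
      rw [Finset.mul_sum]
      refine Finset.sum_congr rfl fun b _ => ?_
      ring
    rw [e2]
    ring
  simp only [e1]
  rw [integral_sub (integrable_finsetSum _ fun a _ => hi a a)
    (integrable_finsetSum _ fun a _ => integrable_finsetSum _ fun b _ => (hi a b).const_mul _),
    integral_finsetSum _ fun a _ => hi a a, integral_finsetSum _ fun a _ =>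
      integrable_finsetSum _ fun b _ => (hi a b).const_mul _]
  unfold Mp
  congr 1
  refine Finset.sum_congr rfl fun a _ => ?_
  rw [integral_finsetSum _ fun b _ => (hi a b).const_mul _]
  refine Finset.sum_congr rfl fun b _ => ?_
  rw [integral_const_mul]
  rfl

theorem Pe_add235 {m : ℕ} (e z w : E m) (a : Fin m) :
    Pe e (fun b => z b + w b) a = Pe e z a + Pe e w a := by
  unfold Pe
  have h : ∑ b, e b * (z b + w b) = ∑ b, e b * z b + ∑ b, e b * w b := by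
    rw [← Finset.sum_add_distrib]
    exact Finset.sum_congr rfl fun b _ => by ring
  rw [h]
  ring

theorem Mp_Ph235 {n : ℕ} {u : E n → E (n + 1)} (hu : ContDiff ℝ ∞ u)
    (ch : Bx n → Finset (Bx n)) (κ : Bx n) (c e : E (n + 1)) :
    ∫ x in Rg ch κ, fn (Dm u x) ^ (n - 2) *
      ∑ a, Pe e (fun b => u x b - c b) a * fl235 u (u κ.a) a x =
    Mp (Mo u ch κ) e + ∑ a, Pe e (fun b => u κ.a b - c b) a * Ph u ch κ a := by
  have hPec : ∀ a, Continuous fun x => Pe e (fun b => u x b - u κ.a b) a := by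
    intro a
    unfold Pe
    exact ((u_cont235 hu a).sub continuous_const).sub (continuous_const.mul
      (continuous_finsetSum _ fun b _ => continuous_const.mul
        ((u_cont235 hu b).sub continuous_const)))
  have hi : ∀ a, Integrable (fun x => fn (Dm u x) ^ (n - 2) * fl235 u (u κ.a) a x)
      (volume.restrict (Rg ch κ)) := by
    intro a
    exact int235 (((fn_cont235 hu).pow _).mul (fl_cont235 hu _ a)) κ (Rg_sub235 ch κ)
  have hi2 : Integrable (fun x => fn (Dm u x) ^ (n - 2) *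
      ∑ a, Pe e (fun b => u x b - u κ.a b) a * fl235 u (u κ.a) a x)
      (volume.restrict (Rg ch κ)) :=
    int235 (((fn_cont235 hu).pow _).mul (continuous_finsetSum _ fun a _ =>
      (hPec a).mul (fl_cont235 hu _ a))) κ (Rg_sub235 ch κ)
  have e1 : ∀ x, fn (Dm u x) ^ (n - 2) *
      ∑ a, Pe e (fun b => u x b - c b) a * fl235 u (u κ.a) a x =
      fn (Dm u x) ^ (n - 2) * (∑ a, Pe e (fun b => u x b - u κ.a b) a * fl235 u (u κ.a) a x) +
      ∑ a, Pe e (fun b => u κ.a b - c b) a * (fn (Dm u x) ^ (n - 2) * fl235 u (u κ.a) a x) := by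
    intro x
    rw [Finset.mul_sum, Finset.mul_sum, ← Finset.sum_add_distrib]
    refine Finset.sum_congr rfl fun a _ => ?_
    have e2 : (fun b => u x b - c b) = fun b => (u x b - u κ.a b) + (u κ.a b - c b) := by
      funext b
      ring
    rw [e2, Pe_add235]
    ring
  simp only [e1]
  rw [integral_add hi2 (integrable_finsetSum _ fun a _ => (hi a).const_mul _),
    integral_finsetSum _ fun a _ => (hi a).const_mul _, ← Mp_Mo235 hu]
  congr 1
  refine Finset.sum_congr rfl fun a _ => ?_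
  rw [integral_const_mul]
  rfl

theorem qs_nonneg235 {m : ℕ} (c y : E m) : 0 ≤ qs c y :=
  Finset.sum_nonneg fun _ _ => sq_nonneg _

theorem qs_tri235 {m : ℕ} (a b y : E m) : qs a b ≤ 2 * qs a y + 2 * qs b y := by
  unfold qs
  rw [Finset.mul_sum, Finset.mul_sum, ← Finset.sum_add_distrib]
  refine Finset.sum_le_sum fun i _ => ?_
  nlinarith [sq_nonneg ((y i - a i) + (y i - b i))]

theorem kf_zero235 {q : ℝ} (h : q ≤ 1 / 4) : kf q = 0 := by
  unfold kf
  exact Real.smoothTransition.zero_of_nonpos (by linarith)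

theorem kf_one235 {q : ℝ} (h : 1 ≤ q) : kf q = 1 := by
  unfold kf
  exact Real.smoothTransition.one_of_one_le (by linarith)

theorem e_le235 {m : ℕ} {e : E m} (he : Ue e) (a : Fin m) : |e a| ≤ 1 := by
  rcases he with rfl | he
  · simp
  · rw [← sq_le_one_iff_abs_le_one, ← he]
    exact Finset.single_le_sum (f := fun a => e a ^ 2) (fun _ _ => sq_nonneg _) (Finset.mem_univ a)

theorem Mp_le235 {m : ℕ} (T : Fin m → Fin m → ℝ) {e : E m} (he : Ue e) {Y : ℝ} (hY : 0 ≤ Y)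
    (hT : ∀ a b, |T a b| ≤ Y) : |Mp T e| ≤ (m + m ^ 2) * Y := by
  have h1 : |∑ a, T a a| ≤ m * Y := by
    refine (Finset.abs_sum_le_sum_abs _ _).trans ?_
    calc ∑ a : Fin m, |T a a| ≤ ∑ _a : Fin m, Y := Finset.sum_le_sum fun a _ => hT a a
      _ = m * Y := by simp
  have h2 : |∑ a, ∑ b, e a * e b * T a b| ≤ m ^ 2 * Y := by
    refine (Finset.abs_sum_le_sum_abs _ _).trans ?_
    calc ∑ a : Fin m, |∑ b, e a * e b * T a b| ≤ ∑ _a : Fin m, (m : ℝ) * Y := by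
          refine Finset.sum_le_sum fun a _ => ?_
          refine (Finset.abs_sum_le_sum_abs _ _).trans ?_
          calc ∑ b : Fin m, |e a * e b * T a b| ≤ ∑ _b : Fin m, Y := by
                refine Finset.sum_le_sum fun b _ => ?_
                rw [abs_mul, abs_mul]
                calc |e a| * |e b| * |T a b| ≤ 1 * 1 * Y := by
                      apply mul_le_mul _ (hT a b) (abs_nonneg _) (by norm_num)
                      exact mul_le_mul (e_le235 he a) (e_le235 he b) (abs_nonneg _) (by norm_num)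
                  _ = Y := by ring
            _ = m * Y := by simp
      _ = m ^ 2 * Y := by simp; ring
  unfold Mp
  calc |(∑ a, T a a) - ∑ a, ∑ b, e a * e b * T a b| ≤ |∑ a, T a a| +
        |∑ a, ∑ b, e a * e b * T a b| := abs_sub _ _
    _ ≤ m * Y + m ^ 2 * Y := add_le_add h1 h2
    _ = _ := by ring

theorem Pe_le235 {m : ℕ} {e z : E m} (he : Ue e) {R : ℝ} (hR : 0 ≤ R) (hz : ∀ b, |z b| ≤ R)
    (a : Fin m) : |Pe e z a| ≤ (1 + m) * R := by
  unfold Pe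
  have h1 : |∑ b, e b * z b| ≤ m * R := by
    refine (Finset.abs_sum_le_sum_abs _ _).trans ?_
    calc ∑ b : Fin m, |e b * z b| ≤ ∑ _b : Fin m, R := by
          refine Finset.sum_le_sum fun b _ => ?_
          rw [abs_mul]
          calc |e b| * |z b| ≤ 1 * R := mul_le_mul (e_le235 he b) (hz b) (abs_nonneg _) (by norm_num)
            _ = R := one_mul R
      _ = m * R := by simp
  calc |z a - e a * ∑ b, e b * z b| ≤ |z a| + |e a * ∑ b, e b * z b| := abs_sub _ _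
    _ ≤ R + 1 * (m * R) := by
        apply add_le_add (hz a)
        rw [abs_mul]
        exact mul_le_mul (e_le235 he a) h1 (abs_nonneg _) (by norm_num)
    _ = _ := by ring

theorem side235 {m : ℕ} (T : Fin m → Fin m → ℝ) (p : Fin m → ℝ) {e z : E m} (he : Ue e) {Y R : ℝ}
    (hY : 0 ≤ Y) (hR : 0 ≤ R) (hT : ∀ a b, |T a b| ≤ Y) (hp : ∀ a, |p a| ≤ Y)
    (hz : ∀ b, |z b| ≤ R) :
    |Mp T e + ∑ a, Pe e z a * p a| ≤ ((m + m ^ 2) + m * ((1 + m) * R)) * Y := by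
  have h1 := Mp_le235 T he hY hT
  have h2 : |∑ a, Pe e z a * p a| ≤ m * ((1 + m) * R) * Y := by
    refine (Finset.abs_sum_le_sum_abs _ _).trans ?_
    calc ∑ a : Fin m, |Pe e z a * p a| ≤ ∑ _a : Fin m, ((1 + m) * R) * Y := by
          refine Finset.sum_le_sum fun a _ => ?_
          rw [abs_mul]
          exact mul_le_mul (Pe_le235 he hR hz a) (hp a) (abs_nonneg _) (by positivity)
      _ = m * ((1 + m) * R) * Y := by simp; ring
  calc |Mp T e + ∑ a, Pe e z a * p a| ≤ |Mp T e| + |∑ a, Pe e z a * p a| := abs_add_le _ _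
    _ ≤ _ := by linarith

/-! facts about a system -/

theorem fn_nonneg235 {m n : ℕ} (A : Matrix (Fin m) (Fin n) ℝ) : 0 ≤ fn A := Real.sqrt_nonneg _

theorem EN_mono235 {n : ℕ} {u : E n → E (n + 1)} (hu : ContDiff ℝ ∞ u) (Q : Bx n)
    {A A' : Set (E n)} (h : A ⊆ A') (h' : A' ⊆ Q.s) : EN u A ≤ EN u A' := by
  unfold EN
  apply setIntegral_mono_set (int235 ((fn_cont235 hu).pow n) Q h')
  · exact Filter.Eventually.of_forall fun x => pow_nonneg (fn_nonneg235 _) n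
  · exact h.eventuallyLE

theorem EN_nonneg235 {n : ℕ} (u : E n → E (n + 1)) (A : Set (E n)) : 0 ≤ EN u A :=
  integral_nonneg fun _ => pow_nonneg (fn_nonneg235 _) n

theorem X_le_Fq235 {n : ℕ} {u : E n → E (n + 1)} (hu : ContDiff ℝ ∞ u)
    (ch : Bx n → Finset (Bx n)) (κ : Bx n) :
    EN u {x | x ∈ Rg ch κ ∧ 1 / 4 ≤ qs (u κ.a) (u x) ∧ qs (u κ.a) (u x) ≤ 1} ≤ Fq u κ :=
  EN_mono235 hu κ (A' := {x | x ∈ κ.s ∧ 1 / 4 ≤ qs (u κ.a) (u x) ∧ qs (u κ.a) (u x) ≤ 144})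
    (fun _ hx => ⟨hx.1.1, hx.2.1, hx.2.2.trans (by norm_num)⟩) (fun _ hx => hx.1)

theorem Dq_nonneg235 {n : ℕ} (ch : Bx n → Finset (Bx n)) (d : Bx n → E (n + 1) → ℝ) (Q : Bx n) :
    0 ≤ Dq ch d Q := integral_nonneg fun _ => abs_nonneg _

theorem S_nonneg235 {n : ℕ} {M : ℝ} {B : Set (E n)} {H : E (n + 1) → ℝ} {u : E n → E (n + 1)}
    {ν : E n → ℝ} {P : Bx n → Prop} {ch : Bx n → Finset (Bx n)} {rk : Bx n → ℕ}
    {d : Bx n → E (n + 1) → ℝ} {S : Bx n → ℝ} (h : Sys M B H u ν P ch rk d S) :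
    ∀ (N : ℕ) (Q : Bx n), P Q → rk Q < N → 0 ≤ S Q := by
  intro N
  induction N with
  | zero => intro Q _ hr; omega
  | succ N ih =>
    intro Q hQ hr
    rw [h.Srec Q hQ]
    refine Finset.sum_nonneg fun κ hκ => add_nonneg (Dq_nonneg235 ch d κ) ?_
    have := h.cells.rk_lt Q hQ κ hκ
    exact ih κ (h.cells.chP Q hQ κ hκ) (by omega)

theorem nu_int235 {n : ℕ} {M : ℝ} {B : Set (E n)} {H : E (n + 1) → ℝ} {u : E n → E (n + 1)}
    {ν : E n → ℝ} {P : Bx n → Prop} {ch : Bx n → Finset (Bx n)} {rk : Bx n → ℕ}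
    {d : Bx n → E (n + 1) → ℝ} {S : Bx n → ℝ} (h : Sys M B H u ν P ch rk d S) (Q : Bx n)
    (hQ : P Q) : IntegrableOn ν Q.s :=
  h.nint.mono_set ((s_sub_cl235 Q).trans (h.sub Q hQ))

theorem nu_Rg235 {n : ℕ} {M : ℝ} {B : Set (E n)} {H : E (n + 1) → ℝ} {u : E n → E (n + 1)}
    {ν : E n → ℝ} {P : Bx n → Prop} {ch : Bx n → Finset (Bx n)} {rk : Bx n → ℕ}
    {d : Bx n → E (n + 1) → ℝ} {S : Bx n → ℝ} (h : Sys M B H u ν P ch rk d S) (Q : Bx n)
    (hQ : P Q) : ∫ x in Rg ch Q, ν x ≤ ∫ x in Q.s, ν x :=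
  setIntegral_mono_set (nu_int235 h Q hQ) (Filter.Eventually.of_forall h.nn)
    (Rg_sub235 ch Q).eventuallyLE

theorem dl_int235 {n : ℕ} {M : ℝ} {B : Set (E n)} {H : E (n + 1) → ℝ} {u : E n → E (n + 1)}
    {ν : E n → ℝ} {P : Bx n → Prop} {ch : Bx n → Finset (Bx n)} {rk : Bx n → ℕ}
    {d : Bx n → E (n + 1) → ℝ} {S : Bx n → ℝ} (h : Sys M B H u ν P ch rk d S) (Q : Bx n)
    (hQ : P Q) : Integrable (fun y => |dl ch d Q y|) := by
  unfold dl
  exact ((h.deg Q hQ).int.sub (integrable_finsetSum _ fun κ hκ =>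
    (h.deg κ (h.cells.chP Q hQ κ hκ)).int)).abs

theorem Ds_mono235 {n : ℕ} {M : ℝ} {B : Set (E n)} {H : E (n + 1) → ℝ} {u : E n → E (n + 1)}
    {ν : E n → ℝ} {P : Bx n → Prop} {ch : Bx n → Finset (Bx n)} {rk : Bx n → ℕ}
    {d : Bx n → E (n + 1) → ℝ} {S : Bx n → ℝ} (h : Sys M B H u ν P ch rk d S) (Q : Bx n)
    (hQ : P Q) : Ds u ch d Q (1 / 2) ≤ Ds u ch d Q (1 / 4) := by
  unfold Ds
  apply setIntegral_mono_set (dl_int235 h Q hQ).integrableOn
  · exact Filter.Eventually.of_forall fun y => abs_nonneg _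
  · apply Filter.Eventually.of_forall
    intro y hy
    have hy' : (1 / 2 : ℝ) ^ 2 < qs (u Q.a) y := hy
    show (1 / 4 : ℝ) ^ 2 < qs (u Q.a) y
    refine lt_trans ?_ hy'
    norm_num

theorem Ds_nonneg235 {n : ℕ} (u : E n → E (n + 1)) (ch : Bx n → Finset (Bx n))
    (d : Bx n → E (n + 1) → ℝ) (Q : Bx n) (s : ℝ) : 0 ≤ Ds u ch d Q s :=
  integral_nonneg fun _ => abs_nonneg _

open scoped Classical in
/-- bookkeeping: the error of the test-field estimate and the side terms -/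
theorem book235 {n : ℕ} {M : ℝ} {B : Set (E n)} {H : E (n + 1) → ℝ} {u : E n → E (n + 1)}
    {ν : E n → ℝ} {P : Bx n → Prop} {ch : Bx n → Finset (Bx n)} {rk : Bx n → ℕ}
    {d : Bx n → E (n + 1) → ℝ} {S : Bx n → ℝ} (h : Sys M B H u ν P ch rk d S) (Q : Bx n)
    (hQ : P Q) (κs : Bx n) (hκs : κs ∈ ch Q) (C1 C2 X : ℝ) (hC1 : 0 ≤ C1) (hC2 : 0 ≤ C2)
    (f : Bx n → ℝ)
    (hX : |X - ∑ κ ∈ ch Q, f κ| ≤ C1 * (Ds u ch d Q (1 / 2) + (∑ κ ∈ ch Q, Dq ch d κ) +
      (∫ x in Rg ch Q, ν x) + ∑ κ ∈ ch Q, ∫ x in Rg ch κ, ν x))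
    (hf : ∀ κ ∈ ch Q, |f κ| ≤ C2 * (S κ + ∫ x in κ.s, ν x)) :
    |X - f κs| ≤ (C1 + C2) * wt u ν ch d S Q κs := by
  have hD := Ds_mono235 h Q hQ
  have hD0 := Ds_nonneg235 u ch d Q (1 / 4)
  have hS : ∀ κ ∈ ch Q, 0 ≤ S κ := fun κ hκ =>
    S_nonneg235 h (rk κ + 1) κ (h.cells.chP Q hQ κ hκ) (Nat.lt_succ_self _)
  have hn0 : ∀ A : Set (E n), 0 ≤ ∫ x in A, ν x := fun A => integral_nonneg h.nn
  have hDq : 0 ≤ ∑ κ ∈ ch Q, Dq ch d κ := Finset.sum_nonneg fun κ _ => Dq_nonneg235 ch d κ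
  obtain ⟨Z, hZ⟩ : ∃ Z, Z = ∑ κ ∈ (ch Q).erase κs, (S κ + ∫ x in κ.s, ν x) := ⟨_, rfl⟩
  have hZ0 : 0 ≤ Z := by
    rw [hZ]
    exact Finset.sum_nonneg fun κ hκ => add_nonneg (hS κ (Finset.mem_of_mem_erase hκ)) (hn0 _)
  have h1 : ∑ κ ∈ ch Q, ∫ x in Rg ch κ, ν x ≤ (∫ x in Rg ch κs, ν x) + Z := by
    rw [← Finset.add_sum_erase _ _ hκs, hZ]
    apply add_le_add le_rfl
    refine Finset.sum_le_sum fun κ hκ => ?_
    have hκ' := Finset.mem_of_mem_erase hκ
    have := nu_Rg235 h κ (h.cells.chP Q hQ κ hκ')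
    linarith [hS κ hκ']
  have h2 : |∑ κ ∈ (ch Q).erase κs, f κ| ≤ C2 * Z := by
    rw [hZ, Finset.mul_sum]
    exact (Finset.abs_sum_le_sum_abs _ _).trans
      (Finset.sum_le_sum fun κ hκ => hf κ (Finset.mem_of_mem_erase hκ))
  have h3 : X - f κs = (X - ∑ κ ∈ ch Q, f κ) + ∑ κ ∈ (ch Q).erase κs, f κ := by
    rw [← Finset.add_sum_erase _ _ hκs]
    ring
  have h4 : wt u ν ch d S Q κs = Ds u ch d Q (1 / 4) + (∑ κ ∈ ch Q, Dq ch d κ) + Z +
      (∫ x in Rg ch Q, ν x) + ∫ x in Rg ch κs, ν x := by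
    rw [hZ]
    rfl
  have h5 : Z ≤ wt u ν ch d S Q κs := by
    rw [h4]
    linarith [hn0 (Rg ch Q), hn0 (Rg ch κs)]
  have h6 : Ds u ch d Q (1 / 2) + (∑ κ ∈ ch Q, Dq ch d κ) +
      (∫ x in Rg ch Q, ν x) + ∑ κ ∈ ch Q, ∫ x in Rg ch κ, ν x ≤ wt u ν ch d S Q κs := by
    rw [h4]
    linarith
  rw [h3]
  calc |(X - ∑ κ ∈ ch Q, f κ) + ∑ κ ∈ (ch Q).erase κs, f κ| ≤ |X - ∑ κ ∈ ch Q, f κ| +
        |∑ κ ∈ (ch Q).erase κs, f κ| := abs_add_le _ _
    _ ≤ C1 * wt u ν ch d S Q κs + C2 * wt u ν ch d S Q κs :=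
        add_le_add (hX.trans (mul_le_mul_of_nonneg_left h6 hC1))
          (h2.trans (mul_le_mul_of_nonneg_left h5 hC2))
    _ = _ := by ring

/-- side estimate from `mo_le` and `far` -/
theorem X_le235 {n : ℕ} {M : ℝ} {B : Set (E n)} {H : E (n + 1) → ℝ} {u : E n → E (n + 1)}
    {ν : E n → ℝ} {P : Bx n → Prop} {ch : Bx n → Finset (Bx n)} {rk : Bx n → ℕ}
    {d : Bx n → E (n + 1) → ℝ} {S : Bx n → ℝ} (h : Sys M B H u ν P ch rk d S) {ε Cf : ℝ}
    (hfar : ∀ Q, P Q → EN u Q.s ≤ ε →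
      Ds u ch d Q (1 / 4) ≤ S Q + (∫ x in Q.s, ν x) ∧ Fq u Q ≤ Cf * (S Q + ∫ x in Q.s, ν x))
    (Q : Bx n) (hQ : P Q) (hE : EN u Q.s ≤ ε) (κ : Bx n) (hκ : κ ∈ ch Q) :
    EN u {x | x ∈ Rg ch κ ∧ 1 / 4 ≤ qs (u κ.a) (u x) ∧ qs (u κ.a) (u x) ≤ 1} ≤
      Cf * (S κ + ∫ x in κ.s, ν x) := by
  have hPκ := h.cells.chP Q hQ κ hκ
  have h1 : EN u κ.s ≤ ε := (EN_mono235 h.cells.smooth Q (h.cells.chs Q hQ κ hκ)
    (subset_refl _)).trans hE
  exact (X_le_Fq235 h.cells.smooth ch κ).trans (hfar κ hPκ h1).2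

theorem far_of_near235 {m : ℕ} {c c' y : E m} (h : 100 ≤ qs c c') (h' : qs c' y ≤ 1 / 64) :
    1 ≤ qs c y := by
  have := qs_tri235 c c' y
  linarith

theorem flux_id {n : ℕ} (hn : 2 ≤ n) (M : ℝ) : ∃ ε C : ℝ, 0 < ε ∧ 0 < C ∧ ∀ {B : Set (E n)}
    {H : E (n + 1) → ℝ} {u : E n → E (n + 1)} {ν : E n → ℝ} {P : Bx n → Prop}
    {ch : Bx n → Finset (Bx n)} {rk : Bx n → ℕ} {d : Bx n → E (n + 1) → ℝ} {S : Bx n → ℝ},
    Sys M B H u ν P ch rk d S → ∀ Q, P Q → EN u Q.s ≤ ε → ∀ κs ∈ ch Q, ∀ a,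
    |Ph u ch Q a - Ph u ch κs a| ≤ C * wt u ν ch d S Q κs := by
  obtain ⟨ε, Cf, hε, hCf, hfar⟩ := far hn M
  obtain ⟨Ct, hCt, htest⟩ := test2 hn M
  obtain ⟨Cm, hCm, hmo⟩ := mo_le hn
  obtain ⟨A, hA, hFB⟩ := W_FB (n + 1)
  refine ⟨ε, Ct * A + Cm * Cf, hε, by positivity, ?_⟩
  intro B H u ν P ch rk d S h Q hQ hE κs hκs a
  have h1 := htest h Q hQ A (fun y b => if b = a then kf (qs (u Q.a) y) else 0)
    (fun κ y b => if b = a then 1 - kf (qs (u κ.a) y) else 0)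
    ((hFB (u Q.a) (u Q.a) 0 (Or.inl rfl)).2.2.1 a)
    (fun κ _ => (hFB (u κ.a) (u κ.a) 0 (Or.inl rfl)).2.2.2 a) (1 / 2) (by norm_num)
    (by
      intro y hy b
      have h2 : kf (qs (u Q.a) y) = 0 := kf_zero235 (hy.trans (by norm_num))
      simp only [h2, ite_self])
    (by
      intro κ hκ y hy
      funext b
      have h2 := far_of_near235 (h.cells.lo Q hQ κ hκ) hy
      have h3 : kf (qs (u κ.a) y) = 0 := kf_zero235 (hy.trans (by norm_num))
      have h4 : kf (qs (u Q.a) y) = 1 := kf_one235 h2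
      simp only [h3, h4, sub_zero])
    (by
      intro κ hκ y hy b
      have h2 : kf (qs (u κ.a) y) = 1 := kf_one235 hy
      simp only [h2, sub_self, ite_self])
  have e3 : ∫ x in Rg ch Q, ad u (fun y b => if b = a then kf (qs (u Q.a) y) else 0) x =
      Ph u ch Q a := by
    have e1 : ∀ x, ad u (fun y b => if b = a then kf (qs (u Q.a) y) else 0) x =
        fn (Dm u x) ^ (n - 2) * ∑ b, kb (u Q.a) (u x) b * ∑ j, Dm u x a j * Dm u x b j :=
      fun x => (ad_flux hn u (u Q.a) a x).1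
    simp only [e1]
    rfl
  have e4 : ∀ κ, ∫ x in Rg ch κ, ad u (fun y b => if b = a then 1 - kf (qs (u κ.a) y) else 0) x =
      - Ph u ch κ a := by
    intro κ
    have e1 : ∀ x, ad u (fun y b => if b = a then 1 - kf (qs (u κ.a) y) else 0) x =
        -(fn (Dm u x) ^ (n - 2) * ∑ b, kb (u κ.a) (u x) b * ∑ j, Dm u x a j * Dm u x b j) :=
      fun x => (ad_flux hn u (u κ.a) a x).2
    simp only [e1]
    rw [integral_neg]
    rfl
  simp only [e3, e4, Finset.sum_neg_distrib] at h1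
  rw [← sub_eq_add_neg] at h1
  refine book235 h Q hQ κs hκs (Ct * A) (Cm * Cf) (Ph u ch Q a) (by positivity) (by positivity)
    (fun κ => Ph u ch κ a) h1 ?_
  intro κ hκ
  have h2 := (hmo h.cells κ (h.cells.chP Q hQ κ hκ) a a).1
  refine h2.trans ?_
  rw [mul_assoc]
  exact mul_le_mul_of_nonneg_left (X_le235 h (hfar h) Q hQ hE κ hκ) hCm.le

theorem tilt_id {n : ℕ} (hn : 2 ≤ n) (M : ℝ) : ∃ ε C : ℝ, 0 < ε ∧ 0 < C ∧ ∀ {B : Set (E n)}
    {H : E (n + 1) → ℝ} {u : E n → E (n + 1)} {ν : E n → ℝ} {P : Bx n → Prop}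
    {ch : Bx n → Finset (Bx n)} {rk : Bx n → ℕ} {d : Bx n → E (n + 1) → ℝ} {S : Bx n → ℝ},
    Sys M B H u ν P ch rk d S → ∀ Q, P Q → EN u Q.s ≤ ε → ∀ κs ∈ ch Q, ∀ e, Ue e →
    |tau u ch Q e + Mp (Mo u ch Q) e - Mp (Mo u ch κs) e -
      ∑ a, Pe e (fun b => u κs.a b - u Q.a b) a * Ph u ch κs a| ≤ C * wt u ν ch d S Q κs := by
  obtain ⟨ε, Cf, hε, hCf, hfar⟩ := far hn M
  obtain ⟨Ct, hCt, htest⟩ := test2 hn M
  obtain ⟨Cm, hCm, hmo⟩ := mo_le hn
  obtain ⟨A, hA, hFB⟩ := W_FB (n + 1)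
  obtain ⟨K, hK⟩ : ∃ K : ℝ, K = ((n + 1 : ℕ) + ((n + 1 : ℕ) : ℝ) ^ 2) +
    (n + 1 : ℕ) * ((1 + ((n + 1 : ℕ) : ℝ)) * 11) := ⟨_, rfl⟩
  have hK0 : 0 < K := by rw [hK]; positivity
  refine ⟨ε, Ct * A + K * (Cm * Cf), hε, by positivity, ?_⟩
  intro B H u ν P ch rk d S h Q hQ hE κs hκs e he
  have hu := h.cells.smooth
  have h1 := htest h Q hQ A (Wt (u Q.a) e) (fun κ => Wk (u Q.a) (u κ.a) e)
    ((hFB (u Q.a) (u Q.a) e he).1)
    (fun κ _ => (hFB (u Q.a) (u κ.a) e he).2.1) (1 / 2) (by norm_num)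
    (by
      intro y hy b
      have h2 : kf (qs (u Q.a) y) = 0 := kf_zero235 (hy.trans (by norm_num))
      simp only [Wt, h2, zero_mul])
    (by
      intro κ hκ y hy
      funext b
      have h2 := far_of_near235 (h.cells.lo Q hQ κ hκ) hy
      have h3 : kf (qs (u κ.a) y) = 0 := kf_zero235 (hy.trans (by norm_num))
      have h4 : kf (qs (u Q.a) y) = 1 := kf_one235 h2
      simp only [Wk, Wt, h3, h4, sub_zero])
    (by
      intro κ hκ y hy b
      have h2 : kf (qs (u κ.a) y) = 1 := kf_one235 hy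
      simp only [Wk, h2, sub_self, zero_mul])
  have hPc : ∀ (c : E (n + 1)) (a : Fin (n + 1)),
      Continuous fun x => Pe e (fun b => u x b - c b) a := by
    intro c a
    unfold Pe
    exact ((u_cont235 hu a).sub continuous_const).sub (continuous_const.mul
      (continuous_finsetSum _ fun b _ => continuous_const.mul
        ((u_cont235 hu b).sub continuous_const)))
  have hfi : ∀ (c c' : E (n + 1)) (κ : Bx n), Integrable (fun x => fn (Dm u x) ^ (n - 2) *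
      ∑ a, Pe e (fun b => u x b - c b) a * fl235 u c' a x) (volume.restrict (Rg ch κ)) := by
    intro c c' κ
    exact int235 (((fn_cont235 hu).pow _).mul (continuous_finsetSum _ fun a _ =>
      (hPc c a).mul (fl_cont235 hu _ a))) κ (Rg_sub235 ch κ)
  have hkfi : ∀ κ : Bx n, Integrable (fun x => kf (qs (u κ.a) (u x)) * te u e x)
      (volume.restrict (Rg ch κ)) := by
    intro κ
    exact int235 ((kf_cont235.comp ((qs_cont235 _).comp hu.continuous)).mul (te_cont235 hu e)) κ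
      (Rg_sub235 ch κ)
  have hkfi' : ∀ κ : Bx n, Integrable (fun x => (1 - kf (qs (u κ.a) (u x))) * te u e x)
      (volume.restrict (Rg ch κ)) := by
    intro κ
    exact int235 ((continuous_const.sub (kf_cont235.comp ((qs_cont235 _).comp
      hu.continuous))).mul (te_cont235 hu e)) κ (Rg_sub235 ch κ)
  have e3 : ∫ x in Rg ch Q, ad u (Wt (u Q.a) e) x =
      (∫ x in Rg ch Q, kf (qs (u Q.a) (u x)) * te u e x) + Mp (Mo u ch Q) e := by
    rw [Mp_Mo235 hu, ← integral_add (hkfi Q) (hfi _ _ Q)]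
    apply setIntegral_congr_fun (Rg_meas235 ch Q)
    intro x hx
    exact ad_Wt hn u (u Q.a) e he x
      (lt_of_le_of_lt (h.cells.small Q hQ x hx) (by norm_num))
  have e4 : ∀ κ ∈ ch Q, ∫ x in Rg ch κ, ad u (Wk (u Q.a) (u κ.a) e) x =
      (∫ x in Rg ch κ, (1 - kf (qs (u κ.a) (u x))) * te u e x) -
        (Mp (Mo u ch κ) e + ∑ a, Pe e (fun b => u κ.a b - u Q.a b) a * Ph u ch κ a) := by
    intro κ hκ
    rw [← Mp_Ph235 hu, ← integral_sub (hkfi' κ) (hfi _ _ κ)]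
    congr 1
    funext x
    exact ad_Wk hn u (u Q.a) (u κ.a) e he (h.cells.hi Q hQ κ hκ) x
  have e5 : (∫ x in Rg ch Q, ad u (Wt (u Q.a) e) x) +
      ∑ κ ∈ ch Q, ∫ x in Rg ch κ, ad u (Wk (u Q.a) (u κ.a) e) x =
      (tau u ch Q e + Mp (Mo u ch Q) e) - ∑ κ ∈ ch Q,
        (Mp (Mo u ch κ) e + ∑ a, Pe e (fun b => u κ.a b - u Q.a b) a * Ph u ch κ a) := by
    rw [e3, Finset.sum_congr rfl e4, Finset.sum_sub_distrib]
    unfold tau
    ring
  rw [e5] at h1
  have h2 := book235 h Q hQ κs hκs (Ct * A) (K * (Cm * Cf)) (tau u ch Q e + Mp (Mo u ch Q) e)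
    (by positivity) (by positivity)
    (fun κ => Mp (Mo u ch κ) e + ∑ a, Pe e (fun b => u κ.a b - u Q.a b) a * Ph u ch κ a) h1
    (by
      intro κ hκ
      have hPκ := h.cells.chP Q hQ κ hκ
      have h3 := side235 (Mo u ch κ) (Ph u ch κ) (z := fun b => u κ.a b - u Q.a b) he
        (Y := Cm * EN u {x | x ∈ Rg ch κ ∧ 1 / 4 ≤ qs (u κ.a) (u x) ∧ qs (u κ.a) (u x) ≤ 1})
        (R := 11) (mul_nonneg hCm.le (EN_nonneg235 u _)) (by norm_num)
        (fun a b => (hmo h.cells κ hPκ a b).2) (fun a => (hmo h.cells κ hPκ a a).1)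
        (by
          intro b
          have h4 := h.cells.hi Q hQ κ hκ
          have h5 : (u κ.a b - u Q.a b) ^ 2 ≤ qs (u Q.a) (u κ.a) :=
            Finset.single_le_sum (f := fun b => (u κ.a b - u Q.a b) ^ 2)
              (fun _ _ => sq_nonneg _) (Finset.mem_univ b)
          rw [← Real.sqrt_sq_eq_abs, Real.sqrt_le_iff]
          exact ⟨by norm_num, by linarith⟩)
      rw [← hK] at h3
      refine h3.trans ?_
      rw [mul_assoc]
      apply mul_le_mul_of_nonneg_left _ hK0.le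
      rw [mul_assoc]
      exact mul_le_mul_of_nonneg_left (X_le235 h (hfar h) Q hQ hE κ hκ) hCm.le)
  have e6 : tau u ch Q e + Mp (Mo u ch Q) e - Mp (Mo u ch κs) e -
      ∑ a, Pe e (fun b => u κs.a b - u Q.a b) a * Ph u ch κs a =
      (tau u ch Q e + Mp (Mo u ch Q) e) - (Mp (Mo u ch κs) e +
        ∑ a, Pe e (fun b => u κs.a b - u Q.a b) a * Ph u ch κs a) := by ring
  rw [e6]
  exact h2

end H930.HS.XFlux

namespace H930.HS

export XFlux (flux_id tilt_id)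

end H930.HS
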