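import Pool.Agent.Helper930.HS.CombT
import Pool.Agent.Helper930.HS.Flux
import Pool.Agent.Helper930.HS.TeB
import Pool.Agent.Helper930.HS.Thr
import Pool.Agent.Helper930.HS.WtS
import Pool.Agent.Helper930.HS.TLe

set_option autoImplicit false

open MeasureTheory Metric Set Filter Topology
open scoped ENNReal NNReal ContDiff

namespace H930.HS.XCTilt

open H930.BL



lemma h181_cont_Dm {n m : ℕ} {u : E n → E m} (hu : ContDiff ℝ ∞ u) (i : Fin m) (j : Fin n) :
    Continuous fun x => Dm u x i j := by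
  have h1 : ContDiff ℝ 1 (fun y => u y i) :=
    ((contDiff_pi.1 hu) i).of_le (by exact_mod_cast le_top)
  exact continuous_pd h1 j

lemma h181_cont_fn {n m : ℕ} {u : E n → E m} (hu : ContDiff ℝ ∞ u) :
    Continuous fun x => fn (Dm u x) := by
  unfold fn
  exact (continuous_finsetSum _ fun a _ => continuous_finsetSum _ fun b _ =>
    (h181_cont_Dm hu a b).pow 2).sqrt

lemma h181_cont_te {n : ℕ} {u : E n → E (n + 1)} (hu : ContDiff ℝ ∞ u) (e : E (n + 1)) :
    Continuous fun x => te u e x := by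
  unfold te
  refine ((h181_cont_fn hu).pow _).mul (((h181_cont_fn hu).pow 2).sub ?_)
  exact continuous_finsetSum _ fun j _ => (continuous_finsetSum _ fun a _ =>
    continuous_const.mul (h181_cont_Dm hu a j)).pow 2

lemma h181_cont_qs {n m : ℕ} {u : E n → E m} (hu : ContDiff ℝ ∞ u) (c : E m) :
    Continuous fun x => qs c (u x) := by
  unfold qs
  exact continuous_finsetSum _ fun a _ =>
    (((continuous_apply a).comp hu.continuous).sub continuous_const).pow 2

lemma h181_cont_kf {n m : ℕ} {u : E n → E m} (hu : ContDiff ℝ ∞ u) (c : E m) :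
    Continuous fun x => kf (qs c (u x)) := by
  unfold kf
  exact Real.smoothTransition.continuous.comp
    (((continuous_const.mul (h181_cont_qs hu c)).sub continuous_const).div_const _)

lemma h181_s_sub_cl {n : ℕ} (Q : Bx n) : Q.s ⊆ Q.cl := fun _ hx i => ⟨(hx i).1, (hx i).2.le⟩

lemma h181_int {n : ℕ} {f : E n → ℝ} (hf : Continuous f) (Q : Bx n) {A : Set (E n)}
    (hA : A ⊆ Q.s) : IntegrableOn f A := by
  have h1 : Q.cl = Icc Q.a Q.b := by
    ext x
    simp only [Bx.cl, mem_ofPred_eq, mem_Icc, Pi.le_def]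
    exact ⟨fun h => ⟨fun i => (h i).1, fun i => (h i).2⟩, fun h i => ⟨h.1 i, h.2 i⟩⟩
  have h2 : IntegrableOn f (Icc Q.a Q.b) := hf.continuousOn.integrableOn_compact isCompact_Icc
  rw [← h1] at h2
  exact h2.mono_set (hA.trans (h181_s_sub_cl Q))

lemma h181_fn_nn {m n : ℕ} (M : Matrix (Fin m) (Fin n) ℝ) : 0 ≤ fn M := Real.sqrt_nonneg _

lemma h181_EN_nn {n : ℕ} (u : E n → E (n + 1)) (A : Set (E n)) : 0 ≤ EN u A :=
  integral_nonneg fun x => pow_nonneg (h181_fn_nn _) _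

lemma h181_EN_mono {n : ℕ} {u : E n → E (n + 1)} (hu : ContDiff ℝ ∞ u) (Q : Bx n)
    {A A' : Set (E n)} (hA : A ⊆ A') (hA' : A' ⊆ Q.s) : EN u A ≤ EN u A' :=
  setIntegral_mono_set (h181_int ((h181_cont_fn hu).pow n) Q hA')
    (Eventually.of_forall fun x => pow_nonneg (h181_fn_nn _) _)
    (LE.le.eventuallyLE hA)

lemma h181_kf01 (q : ℝ) : 0 ≤ kf q ∧ kf q ≤ 1 :=
  ⟨Real.smoothTransition.nonneg _, Real.smoothTransition.le_one _⟩

lemma h181_chain {n : ℕ} {P : Bx n → Prop} {ch : Bx n → Finset (Bx n)} {u : E n → E (n + 1)}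
    {rk : Bx n → ℕ} (h : Cells u P ch rk)
    (m : ℕ) (q : ℕ → Bx n) (h0 : P (q 0)) (hq : ∀ i < m, q (i + 1) ∈ ch (q i)) :
    ∀ i ≤ m, P (q i) ∧ (q i).s ⊆ (q 0).s := by
  intro i
  induction i with
  | zero => intro _; exact ⟨h0, subset_rfl⟩
  | succ i ih =>
    intro hi
    obtain ⟨h1, h2⟩ := ih (by omega)
    exact ⟨h.chP _ h1 _ (hq i (by omega)), (h.chs _ h1 _ (hq i (by omega))).trans h2⟩

lemma h181_tau_nn {n : ℕ} (hn : 2 ≤ n) (u : E n → E (n + 1)) (ch : Bx n → Finset (Bx n))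
    (Q : Bx n) (e : E (n + 1)) (he : Ue e) : 0 ≤ tau u ch Q e := by
  unfold tau
  refine add_nonneg (integral_nonneg fun x => mul_nonneg (h181_kf01 _).1 (te_bounds hn u e he x).1)
    (Finset.sum_nonneg fun κ _ => integral_nonneg fun x =>
      mul_nonneg (sub_nonneg.2 (h181_kf01 _).2) (te_bounds hn u e he x).1)

lemma h181_EN_le_tau {n : ℕ} (hn : 2 ≤ n) {u : E n → E (n + 1)} (hu : ContDiff ℝ ∞ u)
    (ch : Bx n → Finset (Bx n)) (Q Q' : Bx n) (hQ : Q ∈ ch Q') :
    EN u (Rg ch Q) ≤ tau u ch Q 0 + tau u ch Q' 0 := by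
  have h0 : Ue (0 : E (n + 1)) := Or.inl rfl
  have hte : ∀ x, te u 0 x = fn (Dm u x) ^ n := fun x => (te_bounds hn u 0 h0 x).2.2
  have hte0 : ∀ x, 0 ≤ te u 0 x := fun x => (te_bounds hn u 0 h0 x).1
  have hsub : Rg ch Q ⊆ Q.s := fun x hx => hx.1
  have h1 : (∫ x in Rg ch Q, kf (qs (u Q.a) (u x)) * te u 0 x) ≤ tau u ch Q 0 := by
    unfold tau
    have : 0 ≤ ∑ κ ∈ ch Q, ∫ x in Rg ch κ, (1 - kf (qs (u κ.a) (u x))) * te u 0 x :=
      Finset.sum_nonneg fun κ _ => integral_nonneg fun x =>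
        mul_nonneg (sub_nonneg.2 (h181_kf01 _).2) (hte0 x)
    linarith
  have h2 : (∫ x in Rg ch Q, (1 - kf (qs (u Q.a) (u x))) * te u 0 x) ≤ tau u ch Q' 0 := by
    unfold tau
    have ha : 0 ≤ ∫ x in Rg ch Q', kf (qs (u Q'.a) (u x)) * te u 0 x :=
      integral_nonneg fun x => mul_nonneg (h181_kf01 _).1 (hte0 x)
    have hb := Finset.single_le_sum
      (f := fun κ => ∫ x in Rg ch κ, (1 - kf (qs (u κ.a) (u x))) * te u 0 x) (s := ch Q')
      (fun κ _ => integral_nonneg fun x =>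
        mul_nonneg (sub_nonneg.2 (h181_kf01 _).2) (hte0 x)) hQ
    linarith
  have h3 : EN u (Rg ch Q) = (∫ x in Rg ch Q, kf (qs (u Q.a) (u x)) * te u 0 x) +
      ∫ x in Rg ch Q, (1 - kf (qs (u Q.a) (u x))) * te u 0 x := by
    rw [← integral_add]
    · unfold EN
      congr 1
      ext x
      rw [hte x]
      ring
    · exact h181_int ((h181_cont_kf hu _).mul (h181_cont_te hu 0)) Q hsub
    · exact h181_int ((continuous_const.sub (h181_cont_kf hu _)).mul (h181_cont_te hu 0)) Q hsub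
  linarith

theorem chain_tilt {n : ℕ} (hn : 2 ≤ n) (M : ℝ) : ∃ ε C : ℝ, 0 < ε ∧ 0 < C ∧ ∀ {B : Set (E n)}
    {H : E (n + 1) → ℝ} {u : E n → E (n + 1)} {ν : E n → ℝ} {P : Bx n → Prop}
    {ch : Bx n → Finset (Bx n)} {rk : Bx n → ℕ} {d : Bx n → E (n + 1) → ℝ} {S : Bx n → ℝ},
    Sys M B H u ν P ch rk d S → ∀ (m : ℕ) (q : ℕ → Bx n), P (q 0) →
    (∀ i < m, q (i + 1) ∈ ch (q i)) → EN u (q 0).s ≤ ε → 1 ≤ m →
    ∃ e : ℕ → E (n + 1), (∀ i, Ue (e i)) ∧
      ∑ i ∈ Finset.range m, tau u ch (q i) (e i) ≤ C * (S (q 0) + ∫ x in (q 0).s, ν x) := by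
  classical
  obtain ⟨ε1, C1, hε1, hC1, hflux⟩ := flux_id hn M
  obtain ⟨ε2, C2, hε2, hC2, htilt⟩ := tilt_id hn M
  obtain ⟨C3, hC3, hmo⟩ := mo_le hn
  obtain ⟨ε4, C4, hε4, hC4, hfar⟩ := far hn M
  obtain ⟨ε5, C5, hε5, hC5, hwt⟩ := wt_sum hn M
  obtain ⟨K, hK⟩ : ∃ K : ℝ, K = max 1 (max C1 (max C2 C3)) := ⟨_, rfl⟩
  have hK1 : 1 ≤ K := by rw [hK]; exact le_max_left _ _
  have hKC1 : C1 ≤ K := by rw [hK]; exact (le_max_left _ _).trans (le_max_right _ _)
  have hKC2 : C2 ≤ K := by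
    rw [hK]; exact (le_max_left _ _).trans ((le_max_right _ _).trans (le_max_right _ _))
  have hKC3 : C3 ≤ K := by
    rw [hK]; exact (le_max_right _ _).trans ((le_max_right _ _).trans (le_max_right _ _))
  obtain ⟨C6, hC6, hcomb⟩ := comb_tilt (n + 1) hK1
  refine ⟨min ε1 (min ε2 (min ε4 ε5)), C6 * (2 * C4 + C5), by positivity, by positivity, ?_⟩
  intro B H u ν P ch rk d S h m q h0 hq hE hm
  have hE1 : EN u (q 0).s ≤ ε1 := hE.trans (min_le_left _ _)
  have hE2 : EN u (q 0).s ≤ ε2 := hE.trans ((min_le_right _ _).trans (min_le_left _ _))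
  have hE4 : EN u (q 0).s ≤ ε4 :=
    hE.trans ((min_le_right _ _).trans ((min_le_right _ _).trans (min_le_left _ _)))
  have hE5 : EN u (q 0).s ≤ ε5 :=
    hE.trans ((min_le_right _ _).trans ((min_le_right _ _).trans (min_le_right _ _)))
  have hch := h181_chain h.cells m q h0 hq
  have hu := h.cells.smooth
  have hEN : ∀ i ≤ m, EN u (q i).s ≤ EN u (q 0).s := fun i hi =>
    h181_EN_mono hu (q 0) (hch i hi).2 subset_rfl
  have hν0 : ∀ A : Set (E n), 0 ≤ ∫ x in A, ν x := fun A => integral_nonneg fun x => h.nn x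
  have hwtnn : ∀ i < m, 0 ≤ wt u ν ch d S (q i) (q (i + 1)) := by
    intro i hi
    have hPi := (hch i hi.le).1
    unfold wt
    have h1 : 0 ≤ Ds u ch d (q i) (1 / 4) := integral_nonneg fun _ => abs_nonneg _
    have h2 : 0 ≤ ∑ κ ∈ ch (q i), Dq ch d κ :=
      Finset.sum_nonneg fun κ _ => integral_nonneg fun _ => abs_nonneg _
    have h3 : 0 ≤ ∑ κ ∈ (@Finset.erase (Bx n) (fun a b => Classical.propDecidable (a = b))
        (ch (q i)) (q (i + 1))), (S κ + ∫ x in κ.s, ν x) :=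
      Finset.sum_nonneg fun κ hκ => add_nonneg
        (T_le h κ (h.cells.chP _ hPi κ (Finset.mem_of_mem_erase hκ))).1 (hν0 _)
    have h4 := hν0 (Rg ch (q i))
    have h5 := hν0 (Rg ch (q (i + 1)))
    linarith
  obtain ⟨g, hg⟩ : ∃ g : ℕ → ℝ, g = fun i => if i = 0 then Fq u (q 0) else
    if i = m then Fq u (q m) else if i < m then EN u (Rg ch (q i)) else 0 := ⟨_, rfl⟩
  have hg0 : g 0 = Fq u (q 0) := by rw [hg]; simp
  have hm0 : m ≠ 0 := by omega
  have hgm : g m = Fq u (q m) := by rw [hg]; simp [hm0]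
  have hgi : ∀ i, 0 < i → i < m → g i = EN u (Rg ch (q i)) := by
    intro i h1 h2
    rw [hg]
    simp [h1.ne', h2.ne, h2]
  have hFnn : ∀ Q : Bx n, 0 ≤ Fq u Q := fun Q => integral_nonneg fun x =>
    pow_nonneg (h181_fn_nn _) _
  have hgnn : ∀ i, 0 ≤ g i := by
    intro i
    rw [hg]
    simp only
    split_ifs
    · exact hFnn _
    · exact hFnn _
    · exact h181_EN_nn _ _
    · exact le_rfl
  have hgbig : ∀ i ≤ m, EN u {x | x ∈ Rg ch (q i) ∧ 1 / 4 ≤ qs (u (q i).a) (u x) ∧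
      qs (u (q i).a) (u x) ≤ 1} ≤ g i := by
    intro i hi
    have hF : EN u {x | x ∈ Rg ch (q i) ∧ 1 / 4 ≤ qs (u (q i).a) (u x) ∧
      qs (u (q i).a) (u x) ≤ 1} ≤ Fq u (q i) := by
      refine h181_EN_mono hu (q i) (A' := {x | x ∈ (q i).s ∧ 1 / 4 ≤ qs (u (q i).a) (u x) ∧
        qs (u (q i).a) (u x) ≤ 144}) ?_ (fun x hx => hx.1)
      intro x hx
      exact ⟨hx.1.1, hx.2.1, hx.2.2.trans (by norm_num)⟩
    rcases Nat.eq_zero_or_pos i with hi0 | hi0
    · subst hi0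
      rw [hg0]; exact hF
    · rcases hi.lt_or_eq with hlt | heq
      · rw [hgi i hi0 hlt]
        exact h181_EN_mono hu (q i) (fun x hx => hx.1) (fun x hx => hx.1)
      · subst heq
        rw [hgm]; exact hF
  obtain ⟨w, hw⟩ : ∃ w : ℕ → ℝ, w = fun i => if i < m then wt u ν ch d S (q i) (q (i + 1)) else 0 :=
    ⟨_, rfl⟩
  have hwi : ∀ i < m, w i = wt u ν ch d S (q i) (q (i + 1)) := by
    intro i hi
    rw [hw]; simp [hi]
  have hwnn : ∀ i, 0 ≤ w i := by
    intro i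
    by_cases hi : i < m
    · rw [hwi i hi]; exact hwtnn i hi
    · rw [hw]; simp [hi]
  obtain ⟨e, he, hsum⟩ := hcomb m g w (fun i a => Ph u ch (q i) a) (fun i => u (q i).a)
    (fun i a b => Mo u ch (q i) a b) (fun i e => tau u ch (q i) e) hm hgnn hwnn
    (by
      intro i hi a
      have h1 := hflux h (q i) (hch i hi.le).1 ((hEN i hi.le).trans hE1) (q (i + 1)) (hq i hi) a
      rw [abs_sub_comm, hwi i hi]
      exact h1.trans (mul_le_mul_of_nonneg_right hKC1 (hwtnn i hi)))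
    (by
      intro i hi a
      have h1 := (hmo h.cells (q i) (hch i hi).1 a a).1
      exact h1.trans ((mul_le_mul_of_nonneg_left (hgbig i hi) hC3.le).trans
        (mul_le_mul_of_nonneg_right hKC3 (hgnn i))))
    (by
      intro i hi a b
      have h1 := (hmo h.cells (q i) (hch i hi).1 a b).2
      exact h1.trans ((mul_le_mul_of_nonneg_left (hgbig i hi) hC3.le).trans
        (mul_le_mul_of_nonneg_right hKC3 (hgnn i))))
    (by
      intro i hi a
      have h1 := h.cells.hi (q i) (hch i hi.le).1 (q (i + 1)) (hq i hi)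
      have h2 : (u (q (i + 1)).a a - u (q i).a a) ^ 2 ≤ qs (u (q i).a) (u (q (i + 1)).a) := by
        unfold qs
        exact Finset.single_le_sum (f := fun a => (u (q (i + 1)).a a - u (q i).a a) ^ 2)
          (fun _ _ => sq_nonneg _) (Finset.mem_univ a)
      exact abs_le_of_sq_le_sq (by linarith) (by norm_num))
    (by
      intro i hi e he
      refine ⟨h181_tau_nn hn u ch _ e he, ?_⟩
      have h1 := htilt h (q i) (hch i hi.le).1 ((hEN i hi.le).trans hE2) (q (i + 1)) (hq i hi) e he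
      have h2 := (abs_le.1 h1).2
      have h3 := mul_le_mul_of_nonneg_right hKC2 (hwtnn i hi)
      rw [hwi i hi]
      show tau u ch (q i) e ≤ -Mp (Mo u ch (q i)) e + Mp (Mo u ch (q (i + 1))) e +
        (∑ a, Pe e (fun b => u (q (i + 1)).a b - u (q i).a b) a * Ph u ch (q (i + 1)) a) +
          K * wt u ν ch d S (q i) (q (i + 1))
      linarith)
    (by
      intro i hi0 hi
      rw [hgi i hi0 hi]
      refine h181_EN_le_tau hn hu ch (q i) (q (i - 1)) ?_
      have := hq (i - 1) (by omega)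
      rwa [Nat.sub_add_cancel hi0] at this)
  refine ⟨e, he, hsum.trans ?_⟩
  have hsub0 : (q 0).s ⊆ B := (h181_s_sub_cl _).trans (h.sub _ h0)
  have hνm : ∫ x in (q m).s, ν x ≤ ∫ x in (q 0).s, ν x :=
    setIntegral_mono_set (h.nint.mono_set hsub0)
      (Eventually.of_forall fun x => h.nn x) (LE.le.eventuallyLE (hch m le_rfl).2)
  have hSm : S (q m) ≤ S (q 0) := by
    have h1 := chain_S h m q h0 hq
    have h2 : 0 ≤ ∑ i ∈ Finset.range m, ∑ κ ∈ ch (q i), Dq ch d κ :=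
      Finset.sum_nonneg fun i _ => Finset.sum_nonneg fun κ _ => integral_nonneg fun _ => abs_nonneg _
    have h3 : 0 ≤ ∑ i ∈ Finset.range m, ∑ κ ∈ (ch (q i)).erase (q (i + 1)), S κ := by
      refine Finset.sum_nonneg fun i hi => Finset.sum_nonneg fun κ hκ => ?_
      have hi' := Finset.mem_range.1 hi
      exact (T_le h κ (h.cells.chP _ (hch i hi'.le).1 κ (Finset.mem_of_mem_erase hκ))).1
    linarith
  have hF0 := (hfar h (q 0) h0 hE4).2
  have hFm := (hfar h (q m) (hch m le_rfl).1 ((hEN m le_rfl).trans hE4)).2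
  have hFm' : Fq u (q m) ≤ C4 * (S (q 0) + ∫ x in (q 0).s, ν x) :=
    hFm.trans (mul_le_mul_of_nonneg_left (by linarith) hC4.le)
  have hW : ∑ i ∈ Finset.range m, w i ≤ C5 * (S (q 0) + ∫ x in (q 0).s, ν x) := by
    rw [Finset.sum_congr rfl fun i hi => hwi i (Finset.mem_range.1 hi)]
    exact hwt h m q h0 hq hE5
  rw [hg0, hgm, mul_assoc]
  refine mul_le_mul_of_nonneg_left ?_ hC6.le
  linarith

end H930.HS.XCTilt

namespace H930.HS

export XCTilt (chain_tilt)

end H930.HS
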