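import Pool.Agent.Helper930.HS.Exp

set_option autoImplicit false

open MeasureTheory Metric Set Filter Topology
open scoped ENNReal NNReal ContDiff

namespace H930.HS.XCombT

open H930.BL




lemma comb_tilt_left (p : ℕ → Prop) (a i0 : ℕ) (h : a + 1 ≤ i0) :
    ∃ a', a ≤ a' ∧ a' < i0 ∧ (a' = a ∨ ¬ p a') ∧ ∀ i, a' < i → i < i0 → p i := by
  classical
  induction i0, h using Nat.le_induction with
  | base => exact ⟨a, le_rfl, Nat.lt_succ_self a, Or.inl rfl, fun i h1 h2 => by omega⟩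
  | succ k hk ih =>
    by_cases hp : p k
    · obtain ⟨a', h1, h2, h3, h4⟩ := ih
      refine ⟨a', h1, by omega, h3, fun i hi hi' => ?_⟩
      rcases Nat.lt_succ_iff_lt_or_eq.mp hi' with h | rfl
      · exact h4 i hi h
      · exact hp
    · exact ⟨k, by omega, Nat.lt_succ_self k, Or.inr hp, fun i h1 h2 => by omega⟩

lemma comb_tilt_right (p : ℕ → Prop) (i0 b : ℕ) (h : i0 + 1 ≤ b) :
    ∃ b', i0 < b' ∧ b' ≤ b ∧ (b' = b ∨ ¬ p b') ∧ ∀ i, i0 < i → i < b' → p i := by
  classical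
  induction b, h using Nat.le_induction with
  | base => exact ⟨i0 + 1, Nat.lt_succ_self i0, le_rfl, Or.inl rfl, fun i h1 h2 => by omega⟩
  | succ k hk ih =>
    obtain ⟨b', h1, h2, h3, h4⟩ := ih
    by_cases hb : p b'
    · have hbk : b' = k := h3.resolve_right (fun h => h hb)
      subst hbk
      refine ⟨b' + 1, by omega, le_rfl, Or.inl rfl, fun i hi hi' => ?_⟩
      rcases Nat.lt_succ_iff_lt_or_eq.mp hi' with h | rfl
      · exact h4 i hi h
      · exact hb
    · exact ⟨b', h1, by omega, Or.inr hb, h4⟩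

/-- the abstract combinatorial core -/
lemma comb_tilt_core (A K8 : ℝ) (hA : 1 ≤ A) (hK8 : 0 ≤ K8) (m : ℕ) (g w φ τ0 : ℕ → ℝ)
    (P : ℕ → ℕ → ℝ → Prop) (hg : ∀ i, 0 ≤ g i) (hw : ∀ i, 0 ≤ w i) (hφ : ∀ i, 0 ≤ φ i)
    (hφg : ∀ i ≤ m, φ i ≤ A * g i) (hφw : ∀ i < m, |φ (i + 1) - φ i| ≤ A * w i)
    (hT : ∀ a b, a < b → b ≤ m → ∑ i ∈ Finset.Ico a b, τ0 i ≤ A * (g a + g b)
      + A * (∑ i ∈ Finset.Ico (a + 1) b, φ i) + A * φ b + A * ∑ i ∈ Finset.Ico a b, w i)
    (hG : ∀ a b, a < b → b ≤ m →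
      ∑ i ∈ Finset.Ico (a + 1) b, g i ≤ 2 * ∑ i ∈ Finset.Ico a b, τ0 i)
    (hP0 : ∀ a b, a < b → b ≤ m → P a b (∑ i ∈ Finset.Ico a b, τ0 i))
    (hPm : ∀ a b X Y, P a b X → X ≤ Y → P a b Y)
    (hPadd : ∀ a b c X Y, a ≤ b → b ≤ c → P a b X → P b c Y → P a c (X + Y))
    (hPtriv : ∀ a, P a a 0)
    (hP1 : ∀ a b, a < b → b ≤ m → (∀ i, a < i → i < b → g i ≤ 640 * A ^ 3 * φ i) →
      P a b (K8 * (g a + g b + ∑ i ∈ Finset.Ico a b, w i))) :
    ∀ d a b : ℕ, b - a = d → a ≤ b → b ≤ m →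
      P a b ((8 * A ^ 2 + K8) * (g a + g b) +
        (4 * (12 * A ^ 2 + K8) * (8 * A ^ 2) + 4 * A ^ 2 + K8) * ∑ i ∈ Finset.Ico a b, w i) := by
  have hA0 : 0 < A := by linarith
  have hA2 : 1 ≤ A ^ 2 := one_le_pow₀ hA
  have hAA2 : A ≤ A ^ 2 := by nlinarith
  have hWnn : ∀ a b, 0 ≤ ∑ i ∈ Finset.Ico a b, w i := fun a b =>
    Finset.sum_nonneg fun i _ => hw i
  have hWadd : ∀ a b c : ℕ, a ≤ b → b ≤ c → ∑ i ∈ Finset.Ico a c, w i =
      ∑ i ∈ Finset.Ico a b, w i + ∑ i ∈ Finset.Ico b c, w i := fun a b c h1 h2 =>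
    (Finset.sum_Ico_consecutive w h1 h2).symm
  have hvar : ∀ a b : ℕ, a ≤ b → b ≤ m → |φ b - φ a| ≤ A * ∑ i ∈ Finset.Ico a b, w i := by
    intro a b hab
    induction b, hab using Nat.le_induction with
    | base => intro _; simp
    | succ k hk ih =>
      intro hkm
      have h1 := ih (by omega)
      have h2 := hφw k (by omega)
      rw [Finset.sum_Ico_succ_top hk, mul_add]
      calc |φ (k + 1) - φ a| = |(φ (k + 1) - φ k) + (φ k - φ a)| := by ring_nf
        _ ≤ |φ (k + 1) - φ k| + |φ k - φ a| := abs_add_le _ _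
        _ ≤ _ := by linarith
  have hT4 : ∀ a b, a < b → b ≤ m → (∀ i, a < i → i < b → 4 * A * φ i ≤ g i) →
      ∑ i ∈ Finset.Ico a b, τ0 i ≤ 4 * A ^ 2 * (g a + g b + ∑ i ∈ Finset.Ico a b, w i) := by
    intro a b hab hbm hgood
    have h1 := hT a b hab hbm
    have h2 := hG a b hab hbm
    have h3 : 4 * A * ∑ i ∈ Finset.Ico (a + 1) b, φ i ≤ ∑ i ∈ Finset.Ico (a + 1) b, g i := by
      rw [Finset.mul_sum]
      refine Finset.sum_le_sum fun i hi => ?_
      rw [Finset.mem_Ico] at hi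
      exact hgood i (by omega) hi.2
    have h4 := hφg b hbm
    have h5 : A * φ b ≤ A ^ 2 * g b := by
      calc A * φ b ≤ A * (A * g b) := mul_le_mul_of_nonneg_left h4 hA0.le
        _ = A ^ 2 * g b := by ring
    have h6 : A * (g a + g b) ≤ A ^ 2 * (g a + g b) :=
      mul_le_mul_of_nonneg_right hAA2 (add_nonneg (hg a) (hg b))
    have h7 : A * ∑ i ∈ Finset.Ico a b, w i ≤ A ^ 2 * ∑ i ∈ Finset.Ico a b, w i :=
      mul_le_mul_of_nonneg_right hAA2 (hWnn a b)
    have h8 : 0 ≤ A ^ 2 * g a := by have := hg a; positivity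
    have h9 : 0 ≤ A ^ 2 * ∑ i ∈ Finset.Ico a b, w i := by have := hWnn a b; positivity
    linarith
  intro d
  induction d using Nat.strong_induction_on with
  | _ d ih =>
  intro a b hd hab hbm
  have hWab := hWnn a b
  have hga := hg a
  have hgb := hg b
  by_cases hall : ∀ i, a < i → i < b → g i ≤ 640 * A ^ 3 * φ i
  · rcases hab.eq_or_lt with rfl | hlt
    · refine hPm _ _ _ _ (hPtriv a) ?_
      positivity
    · refine hPm _ _ _ _ (hP1 a b hlt hbm hall) ?_
      have e1 : 0 ≤ 8 * A ^ 2 * (g a + g b) := by positivity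
      have e2 : 0 ≤ (4 * (12 * A ^ 2 + K8) * (8 * A ^ 2) + 4 * A ^ 2) *
          ∑ i ∈ Finset.Ico a b, w i := by positivity
      linarith
  · push Not at hall
    obtain ⟨i0, hai0, hi0b, hi0⟩ := hall
    obtain ⟨a', haa', ha'i0, ha'or, ha'good⟩ :=
      comb_tilt_left (fun i => 4 * A * φ i ≤ g i) a i0 hai0
    obtain ⟨b', hi0b', hb'b, hb'or, hb'good⟩ :=
      comb_tilt_right (fun i => 4 * A * φ i ≤ g i) i0 b hi0b
    have hi0good : 4 * A * φ i0 ≤ g i0 := by
      refine le_trans ?_ hi0.le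
      refine mul_le_mul_of_nonneg_right ?_ (hφ i0)
      have : A * 1 ≤ A * A ^ 2 := mul_le_mul_of_nonneg_left hA2 hA0.le
      nlinarith
    have hgood : ∀ i, a' < i → i < b' → 4 * A * φ i ≤ g i := by
      intro i h1 h2
      rcases lt_trichotomy i i0 with h | rfl | h
      · exact ha'good i h1 h
      · exact hi0good
      · exact hb'good i h h2
    have ha'b' : a' < b' := by omega
    have hb'm : b' ≤ m := by omega
    have hT' := hT4 a' b' ha'b' hb'm hgood
    have hG' := hG a' b' ha'b' hb'm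
    have hgi0 : g i0 ≤ ∑ i ∈ Finset.Ico (a' + 1) b', g i :=
      Finset.single_le_sum (fun i _ => hg i) (Finset.mem_Ico.mpr ⟨by omega, hi0b'⟩)
    set W' := ∑ i ∈ Finset.Ico a' b', w i with hW'
    have hW'nn : 0 ≤ W' := hWnn _ _
    have hga' := hg a'
    have hgb' := hg b'
    have hi0K : 80 * A * φ i0 ≤ g a' + g b' + W' := by
      have h1 : 640 * A ^ 3 * φ i0 ≤ 8 * A ^ 2 * (g a' + g b' + W') := by linarith
      have h2 : 8 * A ^ 2 * (80 * A * φ i0) ≤ 8 * A ^ 2 * (g a' + g b' + W') := by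
        calc 8 * A ^ 2 * (80 * A * φ i0) = 640 * A ^ 3 * φ i0 := by ring
          _ ≤ _ := h1
      exact le_of_mul_le_mul_left h2 (by positivity)
    have hLbound : a' ≠ a → g a' ≤ (1 / 10) * g b' + 8 * A ^ 2 * W' := by
      intro hne
      have h1 : g a' < 4 * A * φ a' := not_le.mp (ha'or.resolve_left hne)
      have h2 : |φ i0 - φ a'| ≤ A * ∑ i ∈ Finset.Ico a' i0, w i := hvar a' i0 (by omega) (by omega)
      have h3 : ∑ i ∈ Finset.Ico a' i0, w i ≤ W' := by
        rw [hW', hWadd a' i0 b' (by omega) (by omega)]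
        linarith [hWnn i0 b']
      have h4 : φ a' ≤ φ i0 + A * W' := by
        have h5 := (abs_le.mp h2).1
        have h6 : A * ∑ i ∈ Finset.Ico a' i0, w i ≤ A * W' := mul_le_mul_of_nonneg_left h3 hA0.le
        linarith
      have h5 : 4 * A * φ a' ≤ 4 * A * (φ i0 + A * W') :=
        mul_le_mul_of_nonneg_left h4 (by positivity)
      have h6 : W' ≤ A ^ 2 * W' := by nlinarith
      nlinarith
    have hRbound : b' ≠ b → g b' ≤ (1 / 10) * g a' + 8 * A ^ 2 * W' := by
      intro hne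
      have h1 : g b' < 4 * A * φ b' := not_le.mp (hb'or.resolve_left hne)
      have h2 : |φ b' - φ i0| ≤ A * ∑ i ∈ Finset.Ico i0 b', w i := hvar i0 b' (by omega) (by omega)
      have h3 : ∑ i ∈ Finset.Ico i0 b', w i ≤ W' := by
        rw [hW', hWadd a' i0 b' (by omega) (by omega)]
        linarith [hWnn a' i0]
      have h4 : φ b' ≤ φ i0 + A * W' := by
        have h5 := (abs_le.mp h2).2
        have h6 : A * ∑ i ∈ Finset.Ico i0 b', w i ≤ A * W' := mul_le_mul_of_nonneg_left h3 hA0.le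
        linarith
      have h5 : 4 * A * φ b' ≤ 4 * A * (φ i0 + A * W') :=
        mul_le_mul_of_nonneg_left h4 (by positivity)
      have h6 : W' ≤ A ^ 2 * W' := by nlinarith
      nlinarith
    have hmid : P a' b' (4 * A ^ 2 * (g a' + g b' + W')) := hPm _ _ _ _ (hP0 a' b' ha'b' hb'm) hT'
    have hWtot : ∑ i ∈ Finset.Ico a b, w i = ∑ i ∈ Finset.Ico a a', w i + W' +
        ∑ i ∈ Finset.Ico b' b, w i := by
      rw [hWadd a a' b haa' (by omega), hWadd a' b' b (by omega) hb'b]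
      ring
    obtain ⟨L, hL⟩ : ∃ L, L = 8 * A ^ 2 + K8 := ⟨_, rfl⟩
    obtain ⟨K5, hK5⟩ : ∃ K5, K5 = 8 * A ^ 2 := ⟨_, rfl⟩
    obtain ⟨K7, hK7⟩ : ∃ K7, K7 = 4 * A ^ 2 := ⟨_, rfl⟩
    obtain ⟨L', hL'⟩ : ∃ L', L' = 4 * (L + K7) * K5 + K7 + K8 := ⟨_, rfl⟩
    have hL'eq : 4 * (12 * A ^ 2 + K8) * (8 * A ^ 2) + 4 * A ^ 2 + K8 = L' := by
      rw [hL', hL, hK5, hK7]; ring
    have hLK7 : 2 * K7 ≤ L := by rw [hL, hK7]; linarith
    have hK7nn : 0 ≤ K7 := by rw [hK7]; positivity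
    have hK5nn : 0 ≤ K5 := by rw [hK5]; positivity
    have hLnn : 0 ≤ L := by linarith
    have hL'nn : 0 ≤ L' := by rw [hL']; positivity
    have hL'1 : (4 * (L + K7) * K5 + K7) * W' ≤ L' * W' := by
      refine mul_le_mul_of_nonneg_right ?_ hW'nn
      rw [hL']; linarith
    have hLKnn : 0 ≤ L + K7 := by linarith
    have hprod : 0 ≤ (L + K7) * K5 * W' := by positivity
    rw [hL'eq, ← hL] at ih ⊢
    rw [← hK5] at hLbound hRbound
    rw [← hK7] at hmid
    rw [hWtot]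
    by_cases ha : a' = a
    · by_cases hb : b' = b
      · -- whole interval
        subst ha; subst hb
        refine hPm _ _ _ _ hmid ?_
        simp only [Finset.Ico_self, Finset.sum_empty, zero_add, add_zero]
        have e1 : K7 * (g a' + g b') ≤ L * (g a' + g b') :=
          mul_le_mul_of_nonneg_right (by linarith) (by positivity)
        have e2 : K7 * W' ≤ L' * W' := by linarith
        linarith
      · subst ha
        have hb2 := hRbound hb
        have ihb := ih (b - b') (by omega) b' b rfl hb'b hbm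
        refine hPm _ _ _ _ (hPadd a' b' b _ _ ha'b'.le hb'b hmid ihb) ?_
        simp only [Finset.Ico_self, Finset.sum_empty, zero_add]
        have e1 : (L + K7) * g b' ≤ (L + K7) * ((1 / 10) * g a' + K5 * W') :=
          mul_le_mul_of_nonneg_left hb2 hLKnn
        have e2 : K7 * g a' + (L + K7) * ((1 / 10) * g a') ≤ L * g a' := by
          have : (K7 + (L + K7) * (1 / 10)) * g a' ≤ L * g a' :=
            mul_le_mul_of_nonneg_right (by linarith) hga'
          linarith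
        linarith
    · have ha2 := hLbound ha
      have iha := ih (a' - a) (by omega) a a' rfl haa' (by omega)
      by_cases hb : b' = b
      · subst hb
        refine hPm _ _ _ _ (hPadd a a' b' _ _ haa' ha'b'.le iha hmid) ?_
        simp only [Finset.Ico_self, Finset.sum_empty, add_zero]
        have e1 : (L + K7) * g a' ≤ (L + K7) * ((1 / 10) * g b' + K5 * W') :=
          mul_le_mul_of_nonneg_left ha2 hLKnn
        have e2 : K7 * g b' + (L + K7) * ((1 / 10) * g b') ≤ L * g b' := by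
          have : (K7 + (L + K7) * (1 / 10)) * g b' ≤ L * g b' :=
            mul_le_mul_of_nonneg_right (by linarith) hgb'
          linarith
        linarith
      · have hb2 := hRbound hb
        have ihb := ih (b - b') (by omega) b' b rfl hb'b hbm
        refine hPm _ _ _ _ (hPadd a b' b _ _ (by omega) hb'b
          (hPadd a a' b' _ _ haa' ha'b'.le iha hmid) ihb) ?_
        have e0 : g a' + g b' ≤ 4 * (K5 * W') := by
          have : 0 ≤ K5 * W' := by positivity
          linarith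
        have e1 : (L + K7) * (g a' + g b') ≤ (L + K7) * (4 * (K5 * W')) :=
          mul_le_mul_of_nonneg_left e0 hLKnn
        linarith


/-- euclidean length -/
noncomputable def comb_tilt_r {N : ℕ} (p : E N) : ℝ := Real.sqrt (∑ a, p a ^ 2)

lemma comb_tilt_r_eq {N : ℕ} (p : E N) :
    comb_tilt_r p = ‖(WithLp.toLp 2 p : EuclideanSpace ℝ (Fin N))‖ := by
  rw [EuclideanSpace.norm_eq]
  unfold comb_tilt_r
  congr 1
  refine Finset.sum_congr rfl fun a _ => ?_
  rw [Real.norm_eq_abs, sq_abs]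

lemma comb_tilt_r_nonneg {N : ℕ} (p : E N) : 0 ≤ comb_tilt_r p := Real.sqrt_nonneg _

lemma comb_tilt_r_sq {N : ℕ} (p : E N) : comb_tilt_r p ^ 2 = ∑ a, p a ^ 2 :=
  Real.sq_sqrt (Finset.sum_nonneg fun _ _ => sq_nonneg _)

lemma comb_tilt_abs_le {N : ℕ} (p : E N) (a : Fin N) : |p a| ≤ comb_tilt_r p := by
  apply Real.abs_le_sqrt
  exact Finset.single_le_sum (f := fun a => p a ^ 2) (fun _ _ => sq_nonneg _) (Finset.mem_univ a)

lemma comb_tilt_r_le_sum {N : ℕ} (p : E N) : comb_tilt_r p ≤ ∑ a, |p a| := by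
  unfold comb_tilt_r
  rw [Real.sqrt_le_left (Finset.sum_nonneg fun _ _ => abs_nonneg _)]
  have h1 : ∀ a ∈ (Finset.univ : Finset (Fin N)), p a ^ 2 ≤ |p a| * ∑ b, |p b| := by
    intro a ha
    rw [← sq_abs, pow_two]
    exact mul_le_mul_of_nonneg_left
      (Finset.single_le_sum (f := fun b => |p b|) (fun _ _ => abs_nonneg _) ha) (abs_nonneg _)
  calc ∑ a, p a ^ 2 ≤ ∑ a, |p a| * ∑ b, |p b| := Finset.sum_le_sum h1
    _ = (∑ a, |p a|) ^ 2 := by rw [← Finset.sum_mul, pow_two]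

lemma comb_tilt_sum_le {N : ℕ} (p : E N) : ∑ a, |p a| ≤ N * comb_tilt_r p := by
  calc ∑ a, |p a| ≤ ∑ _a : Fin N, comb_tilt_r p :=
        Finset.sum_le_sum fun a _ => comb_tilt_abs_le p a
    _ = N * comb_tilt_r p := by simp

lemma comb_tilt_r_sub {N : ℕ} (p q : E N) :
    |comb_tilt_r p - comb_tilt_r q| ≤ comb_tilt_r (p - q) := by
  rw [comb_tilt_r_eq, comb_tilt_r_eq, comb_tilt_r_eq]
  exact abs_norm_sub_norm_le _ _

/-- the direction -/
noncomputable def comb_tilt_e {N : ℕ} (p : E N) : E N := fun a => p a / comb_tilt_r p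

lemma comb_tilt_Ue {N : ℕ} (p : E N) : Ue (comb_tilt_e p) := by
  rcases eq_or_ne (comb_tilt_r p) 0 with h | h
  · left
    funext a
    simp [comb_tilt_e, h]
  · right
    have h1 : ∀ a, comb_tilt_e p a ^ 2 = p a ^ 2 / comb_tilt_r p ^ 2 := fun a => by
      unfold comb_tilt_e
      rw [div_pow]
    simp only [h1]
    rw [← Finset.sum_div, ← comb_tilt_r_sq, div_self (pow_ne_zero 2 h)]

lemma comb_tilt_e_le {N : ℕ} (p : E N) (a : Fin N) : |comb_tilt_e p a| ≤ 1 := by
  unfold comb_tilt_e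
  rw [abs_div, abs_of_nonneg (comb_tilt_r_nonneg p)]
  exact div_le_one_of_le₀ (comb_tilt_abs_le p a) (comb_tilt_r_nonneg p)

lemma comb_tilt_e_sub {N : ℕ} (p q : E N) (hp : 0 < comb_tilt_r p) (a : Fin N) :
    |comb_tilt_e p a - comb_tilt_e q a| ≤ 2 * comb_tilt_r (p - q) / comb_tilt_r p := by
  have h1 : |p a / comb_tilt_r p - q a / comb_tilt_r p| ≤ comb_tilt_r (p - q) / comb_tilt_r p := by
    rw [← sub_div, abs_div, abs_of_pos hp]
    exact div_le_div_of_nonneg_right (comb_tilt_abs_le (p - q) a) hp.le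
  have h2 : |q a / comb_tilt_r p - q a / comb_tilt_r q| ≤
      comb_tilt_r (p - q) / comb_tilt_r p := by
    rcases (comb_tilt_r_nonneg q).eq_or_lt with hq | hq
    · have h3 : q a = 0 := by
        have := comb_tilt_abs_le q a
        rw [← hq] at this
        exact abs_nonpos_iff.mp this
      rw [h3, zero_div, zero_div, sub_zero, abs_zero]
      exact div_nonneg (comb_tilt_r_nonneg _) hp.le
    · have h4 : q a / comb_tilt_r p - q a / comb_tilt_r q =
          (q a / comb_tilt_r q) * ((comb_tilt_r q - comb_tilt_r p) / comb_tilt_r p) := by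
        field_simp
      rw [h4, abs_mul, abs_div (comb_tilt_r q - comb_tilt_r p), abs_of_pos hp]
      have h5 : |q a / comb_tilt_r q| ≤ 1 := comb_tilt_e_le q a
      have h6 : |comb_tilt_r q - comb_tilt_r p| ≤ comb_tilt_r (p - q) := by
        rw [abs_sub_comm]; exact comb_tilt_r_sub p q
      calc |q a / comb_tilt_r q| * (|comb_tilt_r q - comb_tilt_r p| / comb_tilt_r p)
          ≤ 1 * (comb_tilt_r (p - q) / comb_tilt_r p) :=
            mul_le_mul h5 (div_le_div_of_nonneg_right h6 hp.le) (by positivity) zero_le_one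
        _ = _ := one_mul _
  have h7 : comb_tilt_e p a - comb_tilt_e q a =
      (p a / comb_tilt_r p - q a / comb_tilt_r p) + (q a / comb_tilt_r p - q a / comb_tilt_r q) := by
    unfold comb_tilt_e; ring
  rw [h7]
  refine (abs_add_le _ _).trans ?_
  have h8 : 2 * comb_tilt_r (p - q) / comb_tilt_r p =
      comb_tilt_r (p - q) / comb_tilt_r p + comb_tilt_r (p - q) / comb_tilt_r p := by ring
  rw [h8]
  exact add_le_add h1 h2

lemma comb_tilt_cross {N : ℕ} (p z : E N) : ∑ a, Pe (comb_tilt_e p) z a * p a = 0 := by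
  have h1 : ∑ a, Pe (comb_tilt_e p) z a * p a =
      (∑ a, z a * p a) - (∑ a, comb_tilt_e p a * p a) * ∑ b, comb_tilt_e p b * z b := by
    unfold Pe
    rw [Finset.sum_mul, ← Finset.sum_sub_distrib]
    exact Finset.sum_congr rfl fun a _ => by ring
  have h2 : ∑ a, comb_tilt_e p a * p a = comb_tilt_r p ^ 2 / comb_tilt_r p := by
    rw [comb_tilt_r_sq, Finset.sum_div]
    exact Finset.sum_congr rfl fun a _ => by unfold comb_tilt_e; ring
  have h3 : ∑ b, comb_tilt_e p b * z b = (∑ a, z a * p a) / comb_tilt_r p := by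
    rw [Finset.sum_div]
    exact Finset.sum_congr rfl fun a _ => by unfold comb_tilt_e; ring
  rw [h1, h2, h3]
  rcases eq_or_ne (comb_tilt_r p) 0 with h | h
  · have h4 : ∀ a, p a = 0 := fun a => by
      have := comb_tilt_abs_le p a
      rw [h] at this
      exact abs_nonpos_iff.mp this
    simp [h4]
  · field_simp
    ring

lemma comb_tilt_Mp_le {N : ℕ} (Q : Fin N → Fin N → ℝ) (e : E N) {B : ℝ}
    (hQ : ∀ a b, |Q a b| ≤ B) (he : ∀ a, |e a| ≤ 1) : |Mp Q e| ≤ ((N : ℝ) + (N : ℝ) ^ 2) * B := by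
  unfold Mp
  have h1 : |∑ a, Q a a| ≤ N * B := by
    refine (Finset.abs_sum_le_sum_abs _ _).trans ?_
    refine (Finset.sum_le_sum fun a _ => hQ a a).trans ?_
    simp
  have h2 : |∑ a, ∑ b, e a * e b * Q a b| ≤ (N : ℝ) ^ 2 * B := by
    refine (Finset.abs_sum_le_sum_abs _ _).trans ?_
    have h3 : ∀ a ∈ (Finset.univ : Finset (Fin N)), |∑ b, e a * e b * Q a b| ≤ N * B := by
      intro a _
      refine (Finset.abs_sum_le_sum_abs _ _).trans ?_
      have h4 : ∀ b ∈ (Finset.univ : Finset (Fin N)), |e a * e b * Q a b| ≤ B := by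
        intro b _
        rw [abs_mul, abs_mul]
        have h5 : |e a| * |e b| ≤ 1 := mul_le_one₀ (he a) (abs_nonneg _) (he b)
        exact (mul_le_of_le_one_left (abs_nonneg _) h5).trans (hQ a b)
      refine (Finset.sum_le_sum h4).trans ?_
      simp
    refine (Finset.sum_le_sum h3).trans ?_
    simp only [Finset.sum_const, Finset.card_univ, Fintype.card_fin, nsmul_eq_mul]
    apply le_of_eq; ring
  calc |∑ a, Q a a - ∑ a, ∑ b, e a * e b * Q a b|
      ≤ |∑ a, Q a a| + |∑ a, ∑ b, e a * e b * Q a b| := abs_sub _ _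
    _ ≤ _ := by linarith

lemma comb_tilt_Mp_sub {N : ℕ} (Q : Fin N → Fin N → ℝ) (e e' : E N) {B δ : ℝ} (hδ : 0 ≤ δ)
    (hQ : ∀ a b, |Q a b| ≤ B) (he : ∀ a, |e a| ≤ 1) (he' : ∀ a, |e' a| ≤ 1)
    (hd : ∀ a, |e a - e' a| ≤ δ) : |Mp Q e - Mp Q e'| ≤ (N : ℝ) ^ 2 * (2 * δ * B) := by
  have h0 : Mp Q e - Mp Q e' = ∑ a, ∑ b, (e' a * e' b - e a * e b) * Q a b := by
    unfold Mp
    have : ∑ a, ∑ b, (e' a * e' b - e a * e b) * Q a b =
        (∑ a, ∑ b, e' a * e' b * Q a b) - ∑ a, ∑ b, e a * e b * Q a b := by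
      rw [← Finset.sum_sub_distrib]
      refine Finset.sum_congr rfl fun a _ => ?_
      rw [← Finset.sum_sub_distrib]
      exact Finset.sum_congr rfl fun b _ => by ring
    rw [this]
    ring
  rw [h0]
  refine (Finset.abs_sum_le_sum_abs _ _).trans ?_
  have h3 : ∀ a ∈ (Finset.univ : Finset (Fin N)),
      |∑ b, (e' a * e' b - e a * e b) * Q a b| ≤ N * (2 * δ * B) := by
    intro a _
    refine (Finset.abs_sum_le_sum_abs _ _).trans ?_
    have h4 : ∀ b ∈ (Finset.univ : Finset (Fin N)),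
        |(e' a * e' b - e a * e b) * Q a b| ≤ 2 * δ * B := by
      intro b _
      rw [abs_mul]
      have h5 : |e' a * e' b - e a * e b| ≤ 2 * δ := by
        have h6 : e' a * e' b - e a * e b = -(e' a * (e b - e' b)) - (e a - e' a) * e b := by ring
        rw [h6]
        refine (abs_sub _ _).trans ?_
        rw [abs_neg, abs_mul, abs_mul]
        have h7 : |e' a| * |e b - e' b| ≤ 1 * δ :=
          mul_le_mul (he' a) (hd b) (abs_nonneg _) zero_le_one
        have h8 : |e a - e' a| * |e b| ≤ δ * 1 := mul_le_mul (hd a) (he b) (abs_nonneg _) hδ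
        linarith
      exact mul_le_mul h5 (hQ a b) (abs_nonneg _) (by positivity)
    refine (Finset.sum_le_sum h4).trans ?_
    simp
  refine (Finset.sum_le_sum h3).trans ?_
  simp only [Finset.sum_const, Finset.card_univ, Fintype.card_fin, nsmul_eq_mul]
  apply le_of_eq; ring

lemma comb_tilt_T0 {N : ℕ} {K : ℝ} (m : ℕ) (w φ : ℕ → ℝ) (τ0 Y : ℕ → ℝ)
    (h : ∀ i < m, τ0 i ≤ -Y i + Y (i + 1) + 11 * N * φ (i + 1) + K * w i) (a b : ℕ)
    (hab : a + 1 ≤ b) : b ≤ m → ∑ i ∈ Finset.Ico a b, τ0 i ≤ -Y a + Y b +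
      11 * N * ((∑ i ∈ Finset.Ico (a + 1) b, φ i) + φ b) + K * ∑ i ∈ Finset.Ico a b, w i := by
  induction b, hab using Nat.le_induction with
  | base =>
    intro hm
    have := h a (by omega)
    simp only [Nat.Ico_succ_singleton, Finset.sum_singleton, Finset.Ico_self, Finset.sum_empty,
      zero_add]
    exact this
  | succ k hk ih =>
    intro hm
    have h1 := ih (by omega)
    have h2 := h k (by omega)
    rw [Finset.sum_Ico_succ_top (by omega : a ≤ k), Finset.sum_Ico_succ_top hk,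
      Finset.sum_Ico_succ_top (by omega : a ≤ k)]
    linarith

lemma comb_tilt_G {m : ℕ} (g τ0 : ℕ → ℝ) (hτ0 : ∀ i < m, 0 ≤ τ0 i)
    (h : ∀ i, 0 < i → i < m → g i ≤ τ0 i + τ0 (i - 1)) (a b : ℕ) (hab : a + 1 ≤ b) : b ≤ m →
    (∑ i ∈ Finset.Ico (a + 1) b, g i) + τ0 (b - 1) ≤ 2 * ∑ i ∈ Finset.Ico a b, τ0 i := by
  induction b, hab using Nat.le_induction with
  | base =>
    intro hm
    have := hτ0 a (by omega)
    simp only [Nat.Ico_succ_singleton, Finset.sum_singleton, Finset.Ico_self, Finset.sum_empty,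
      zero_add, Nat.add_sub_cancel]
    linarith
  | succ k hk ih =>
    intro hm
    have h1 := ih (by omega)
    have h2 := h k (by omega) (by omega)
    rw [Finset.sum_Ico_succ_top hk, Finset.sum_Ico_succ_top (by omega : a ≤ k),
      Nat.add_sub_cancel]
    linarith

lemma comb_tilt_T1 {N : ℕ} {K K4 : ℝ} (m : ℕ) (w : ℕ → ℝ) (Φ : ℕ → E N)
    (Mm : ℕ → Fin N → Fin N → ℝ) (τ : ℕ → E N → ℝ) (hw : ∀ i, 0 ≤ w i) (hK4 : 0 ≤ K4)
    (h : ∀ i < m, τ i (comb_tilt_e (Φ (i + 1))) ≤ -Mp (Mm i) (comb_tilt_e (Φ (i + 1))) +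
      Mp (Mm (i + 1)) (comb_tilt_e (Φ (i + 1))) + K * w i) (a b : ℕ)
    (hab : a + 1 ≤ b) : b ≤ m → (∀ i, a < i → i < b →
      |Mp (Mm i) (comb_tilt_e (Φ i)) - Mp (Mm i) (comb_tilt_e (Φ (i + 1)))| ≤ K4 * w i) →
    ∑ i ∈ Finset.Ico a b, τ i (comb_tilt_e (Φ (i + 1))) ≤ -Mp (Mm a) (comb_tilt_e (Φ (a + 1))) +
      Mp (Mm b) (comb_tilt_e (Φ b)) + (K + K4) * ∑ i ∈ Finset.Ico a b, w i := by
  induction b, hab using Nat.le_induction with
  | base =>
    intro hm _
    have := h a (by omega)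
    have h2 := mul_nonneg hK4 (hw a)
    simp only [Nat.Ico_succ_singleton, Finset.sum_singleton]
    linarith
  | succ k hk ih =>
    intro hm hd
    have h1 := ih (by omega) (fun i h1 h2 => hd i h1 (by omega))
    have h2 := h k (by omega)
    have h3 := (abs_le.mp (hd k (by omega) (by omega))).2
    rw [Finset.sum_Ico_succ_top (by omega : a ≤ k), Finset.sum_Ico_succ_top (by omega : a ≤ k)]
    linarith

theorem comb_tilt (N : ℕ) {K : ℝ} (hK : 1 ≤ K) : ∃ C : ℝ, 0 < C ∧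
    ∀ (m : ℕ) (g w : ℕ → ℝ) (Φ c : ℕ → E N) (Mm : ℕ → Fin N → Fin N → ℝ) (τ : ℕ → E N → ℝ),
    1 ≤ m → (∀ i, 0 ≤ g i) → (∀ i, 0 ≤ w i) →
    (∀ i < m, ∀ a, |Φ (i + 1) a - Φ i a| ≤ K * w i) →
    (∀ i ≤ m, ∀ a, |Φ i a| ≤ K * g i) →
    (∀ i ≤ m, ∀ a b, |Mm i a b| ≤ K * g i) →
    (∀ i < m, ∀ a, |c (i + 1) a - c i a| ≤ 11) →
    (∀ i < m, ∀ e, Ue e → 0 ≤ τ i e ∧
      τ i e ≤ -Mp (Mm i) e + Mp (Mm (i + 1)) e +
        (∑ a, Pe e (fun b => c (i + 1) b - c i b) a * Φ (i + 1) a) + K * w i) →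
    (∀ i, 0 < i → i < m → g i ≤ τ i 0 + τ (i - 1) 0) →
    ∃ e : ℕ → E N, (∀ i, Ue (e i)) ∧
      ∑ i ∈ Finset.range m, τ i (e i) ≤ C * (g 0 + g m + ∑ i ∈ Finset.range m, w i) := by
  have hK0 : 0 < K := by linarith
  have hN0 : (0 : ℝ) ≤ N := Nat.cast_nonneg N
  obtain ⟨A, hAdef⟩ : ∃ A : ℝ, A = 11 * ((N : ℝ) + 1) ^ 2 * K := ⟨_, rfl⟩
  have hN1 : (1 : ℝ) ≤ ((N : ℝ) + 1) ^ 2 := by nlinarith
  have hA1 : 1 ≤ A := by rw [hAdef]; nlinarith
  have hAK : K ≤ A := by rw [hAdef]; nlinarith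
  have hANK : (N : ℝ) * K ≤ A := by
    rw [hAdef]
    have : (N : ℝ) ≤ 11 * ((N : ℝ) + 1) ^ 2 := by nlinarith
    exact mul_le_mul_of_nonneg_right this hK0.le
  have hANNK : ((N : ℝ) + (N : ℝ) ^ 2) * K ≤ A := by
    rw [hAdef]
    have : (N : ℝ) + (N : ℝ) ^ 2 ≤ 11 * ((N : ℝ) + 1) ^ 2 := by nlinarith
    exact mul_le_mul_of_nonneg_right this hK0.le
  have hA11 : 11 * (N : ℝ) ≤ A := by
    rw [hAdef]
    have h1 : 11 * (N : ℝ) ≤ 11 * ((N : ℝ) + 1) ^ 2 := by nlinarith
    have h2 : 0 ≤ 11 * ((N : ℝ) + 1) ^ 2 := by positivity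
    nlinarith
  obtain ⟨K4, hK4def⟩ : ∃ K4 : ℝ, K4 = 4 * (N : ℝ) ^ 3 * K ^ 2 * (640 * A ^ 3) := ⟨_, rfl⟩
  have hK4 : 0 ≤ K4 := by rw [hK4def]; positivity
  obtain ⟨K8, hK8def⟩ : ∃ K8 : ℝ, K8 = ((N : ℝ) + (N : ℝ) ^ 2) * K + (K + K4) := ⟨_, rfl⟩
  have hK8 : 0 ≤ K8 := by rw [hK8def]; positivity
  obtain ⟨L, hL⟩ : ∃ L : ℝ, L = 8 * A ^ 2 + K8 := ⟨_, rfl⟩
  obtain ⟨L', hL'⟩ : ∃ L' : ℝ,
    L' = 4 * (12 * A ^ 2 + K8) * (8 * A ^ 2) + 4 * A ^ 2 + K8 := ⟨_, rfl⟩
  have hLpos : 0 < L := by rw [hL]; positivity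
  have hL'pos : 0 < L' := by rw [hL']; positivity
  refine ⟨L + L', by positivity, ?_⟩
  intro m g w Φ c Mm τ hm hg hw hΦw hΦg hMg hc hτ hgτ
  have hU0 : Ue (0 : E N) := Or.inl rfl
  have hrg : ∀ i ≤ m, comb_tilt_r (Φ i) ≤ A * g i := by
    intro i hi
    refine (comb_tilt_r_le_sum _).trans ?_
    refine (Finset.sum_le_sum fun a _ => hΦg i hi a).trans ?_
    simp only [Finset.sum_const, Finset.card_univ, Fintype.card_fin, nsmul_eq_mul]
    rw [← mul_assoc]
    exact mul_le_mul_of_nonneg_right hANK (hg i)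
  have hrd : ∀ i < m, comb_tilt_r (Φ (i + 1) - Φ i) ≤ N * K * w i := by
    intro i hi
    refine (comb_tilt_r_le_sum _).trans ?_
    refine (Finset.sum_le_sum fun a _ => hΦw i hi a).trans ?_
    simp only [Finset.sum_const, Finset.card_univ, Fintype.card_fin, nsmul_eq_mul]
    rw [← mul_assoc]
  have hrw : ∀ i < m, |comb_tilt_r (Φ (i + 1)) - comb_tilt_r (Φ i)| ≤ A * w i := by
    intro i hi
    refine (comb_tilt_r_sub _ _).trans ((hrd i hi).trans ?_)
    exact mul_le_mul_of_nonneg_right hANK (hw i)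
  have hMpb : ∀ i ≤ m, ∀ e : E N, (∀ a, |e a| ≤ 1) → |Mp (Mm i) e| ≤
      ((N : ℝ) + (N : ℝ) ^ 2) * K * g i := by
    intro i hi e he
    refine (comb_tilt_Mp_le (Mm i) e (hMg i hi) he).trans (le_of_eq (by ring))
  have hτ0 : ∀ i < m, τ i 0 ≤ -Mp (Mm i) 0 + Mp (Mm (i + 1)) 0 +
      11 * N * comb_tilt_r (Φ (i + 1)) + K * w i := by
    intro i hi
    have h1 := (hτ i hi 0 hU0).2
    have h2 : ∑ a, Pe 0 (fun b => c (i + 1) b - c i b) a * Φ (i + 1) a ≤
        11 * N * comb_tilt_r (Φ (i + 1)) := by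
      calc ∑ a, Pe 0 (fun b => c (i + 1) b - c i b) a * Φ (i + 1) a
          ≤ ∑ a, 11 * |Φ (i + 1) a| := by
            refine Finset.sum_le_sum fun a _ => ?_
            have h3 : Pe (0 : E N) (fun b => c (i + 1) b - c i b) a = c (i + 1) a - c i a := by
              simp [Pe]
            rw [h3]
            refine (le_abs_self _).trans ?_
            rw [abs_mul]
            exact mul_le_mul_of_nonneg_right (hc i hi a) (abs_nonneg _)
        _ = 11 * ∑ a, |Φ (i + 1) a| := by rw [Finset.mul_sum]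
        _ ≤ 11 * (N * comb_tilt_r (Φ (i + 1))) :=
            mul_le_mul_of_nonneg_left (comb_tilt_sum_le _) (by norm_num)
        _ = _ := by ring
    linarith
  have hτ0nn : ∀ i < m, 0 ≤ τ i 0 := fun i hi => (hτ i hi 0 hU0).1
  have hcore := comb_tilt_core A K8 hA1 hK8 m g w (fun i => comb_tilt_r (Φ i)) (fun i => τ i 0)
    (fun a b X => ∃ e : ℕ → E N, (∀ i, Ue (e i)) ∧ ∑ i ∈ Finset.Ico a b, τ i (e i) ≤ X) hg hw
    (fun i => comb_tilt_r_nonneg _) hrg hrw
    (by
      intro a b hab hbm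
      have h1 := comb_tilt_T0 (N := N) (K := K) m w (fun i => comb_tilt_r (Φ i)) (fun i => τ i 0)
        (fun i => Mp (Mm i) 0) hτ0 a b hab hbm
      have h2 := (abs_le.mp (hMpb a (by omega) 0 (by simp))).1
      have h3 := (abs_le.mp (hMpb b hbm 0 (by simp))).2
      have h4 : ((N : ℝ) + (N : ℝ) ^ 2) * K * g a ≤ A * g a :=
        mul_le_mul_of_nonneg_right hANNK (hg a)
      have h5 : ((N : ℝ) + (N : ℝ) ^ 2) * K * g b ≤ A * g b :=
        mul_le_mul_of_nonneg_right hANNK (hg b)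
      have h6 : 0 ≤ (∑ i ∈ Finset.Ico (a + 1) b, comb_tilt_r (Φ i)) + comb_tilt_r (Φ b) :=
        add_nonneg (Finset.sum_nonneg fun _ _ => comb_tilt_r_nonneg _) (comb_tilt_r_nonneg _)
      have h7 := mul_le_mul_of_nonneg_right hA11 h6
      have h8 : K * ∑ i ∈ Finset.Ico a b, w i ≤ A * ∑ i ∈ Finset.Ico a b, w i :=
        mul_le_mul_of_nonneg_right hAK (Finset.sum_nonneg fun i _ => hw i)
      show ∑ i ∈ Finset.Ico a b, τ i 0 ≤ _
      linarith)
    (by
      intro a b hab hbm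
      have h1 := comb_tilt_G g (fun i => τ i 0) hτ0nn hgτ a b hab hbm
      have h2 := hτ0nn (b - 1) (by omega)
      linarith)
    (by
      intro a b hab hbm
      exact ⟨fun _ => 0, fun _ => hU0, le_rfl⟩)
    (by
      rintro a b X Y ⟨e, he, hX⟩ hXY
      exact ⟨e, he, hX.trans hXY⟩)
    (by
      rintro a b c' X Y hab hbc ⟨e, he, hX⟩ ⟨e', he', hY⟩
      refine ⟨fun i => if i < b then e i else e' i, fun i => ?_, ?_⟩
      · show Ue (if i < b then e i else e' i)
        split_ifs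
        · exact he i
        · exact he' i
      · rw [← Finset.sum_Ico_consecutive _ hab hbc]
        refine add_le_add ?_ ?_
        · refine le_trans (le_of_eq (Finset.sum_congr rfl fun i hi => ?_)) hX
          rw [Finset.mem_Ico] at hi
          show τ i (if i < b then e i else e' i) = τ i (e i)
          rw [if_pos hi.2]
        · refine le_trans (le_of_eq (Finset.sum_congr rfl fun i hi => ?_)) hY
          rw [Finset.mem_Ico] at hi
          show τ i (if i < b then e i else e' i) = τ i (e' i)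
          rw [if_neg (not_lt.mpr hi.1)])
    (by
      intro a
      exact ⟨fun _ => 0, fun _ => hU0, by simp⟩)
    (by
      intro a b hab hbm hall
      refine ⟨fun i => comb_tilt_e (Φ (i + 1)), fun i => comb_tilt_Ue _, ?_⟩
      have h1 := comb_tilt_T1 (K := K) (K4 := K4) m w Φ Mm τ hw hK4 (by
        intro i hi
        have h1 := (hτ i hi _ (comb_tilt_Ue (Φ (i + 1)))).2
        rw [comb_tilt_cross] at h1
        linarith) a b hab hbm (by
        intro i hai hib
        have him : i < m := by omega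
        have hgi := hall i hai hib
        have hgi0 := hg i
        have hB : ∀ a b, |Mm i a b| ≤ K * (640 * A ^ 3 * comb_tilt_r (Φ i)) := fun a b =>
          (hMg i him.le a b).trans (mul_le_mul_of_nonneg_left hgi hK0.le)
        rcases (comb_tilt_r_nonneg (Φ i)).eq_or_lt with h0 | hpos
        · rw [← h0] at hB
          have h2 := comb_tilt_Mp_sub (Mm i) (comb_tilt_e (Φ i)) (comb_tilt_e (Φ (i + 1)))
            (δ := 2) (by norm_num) hB (comb_tilt_e_le _) (comb_tilt_e_le _) (fun a => by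
              have h3 := comb_tilt_e_le (Φ i) a
              have h4 := comb_tilt_e_le (Φ (i + 1)) a
              refine (abs_sub _ _).trans ?_
              linarith)
          refine h2.trans ?_
          have h3 := mul_nonneg hK4 (hw i)
          simp only [mul_zero]
          exact h3
        · have h2 := comb_tilt_Mp_sub (Mm i) (comb_tilt_e (Φ i)) (comb_tilt_e (Φ (i + 1)))
            (δ := 2 * (N * K * w i) / comb_tilt_r (Φ i))
            (by have := hw i; positivity) hB (comb_tilt_e_le _) (comb_tilt_e_le _) (fun a => by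
              refine (comb_tilt_e_sub _ _ hpos a).trans ?_
              refine div_le_div_of_nonneg_right ?_ hpos.le
              refine mul_le_mul_of_nonneg_left ?_ (by norm_num)
              have h5 : comb_tilt_r (Φ i - Φ (i + 1)) = comb_tilt_r (Φ (i + 1) - Φ i) := by
                unfold comb_tilt_r
                congr 1
                refine Finset.sum_congr rfl fun a _ => ?_
                rw [Pi.sub_apply, Pi.sub_apply]
                ring
              rw [h5]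
              exact hrd i him)
          refine h2.trans (le_of_eq ?_)
          rw [hK4def]
          field_simp
          ring)
      have h2 := (abs_le.mp (hMpb a (by omega) _ (comb_tilt_e_le (Φ (a + 1))))).1
      have h3 := (abs_le.mp (hMpb b hbm _ (comb_tilt_e_le (Φ b)))).2
      refine h1.trans ?_
      have h4 : 0 ≤ (K + K4) * (g a + g b) := by
        have := hg a; have := hg b; positivity
      have h5 : 0 ≤ ((N : ℝ) + (N : ℝ) ^ 2) * K * ∑ i ∈ Finset.Ico a b, w i := by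
        have : 0 ≤ ∑ i ∈ Finset.Ico a b, w i := Finset.sum_nonneg fun i _ => hw i
        positivity
      rw [hK8def]
      linarith)
    m 0 m (by omega) (by omega) le_rfl
  obtain ⟨e, he, hX⟩ := hcore
  refine ⟨e, he, ?_⟩
  rw [Finset.range_eq_Ico]
  refine hX.trans ?_
  rw [← hL, ← hL']
  have h1 : 0 ≤ L * ∑ i ∈ Finset.Ico 0 m, w i :=
    mul_nonneg hLpos.le (Finset.sum_nonneg fun i _ => hw i)
  have h2 : 0 ≤ L' * (g 0 + g m) := mul_nonneg hL'pos.le (add_nonneg (hg 0) (hg m))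
  linarith

end H930.HS.XCombT

namespace H930.HS

export XCombT (comb_tilt)

end H930.HS
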