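import Pool.Agent.Helper930.HS.Exp

set_option autoImplicit false

open MeasureTheory Metric Set Filter Topology
open scoped ENNReal NNReal ContDiff

namespace H930.HS.XContO

open H930.BL



theorem cont_osc {n m : ℕ} (hn : 1 ≤ n) {Ω : Set (E n)} (hΩ : IsOpen Ω) (u : E n → E m)
    (hu : AEStronglyMeasurable u (volume.restrict Ω))
    (h : ∀ x0 ∈ Ω, ∀ ρ : ℝ, 0 < ρ → ∃ r : ℝ, 0 < r ∧ closedBall x0 r ⊆ Ω ∧
      ∀ᵐ x ∂(volume.restrict (closedBall x0 r)), ∀ᵐ y ∂(volume.restrict (closedBall x0 r)),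
        ∀ a, |u x a - u y a| ≤ ρ) :
    ∃ v : E n → E m, ContinuousOn v Ω ∧ u =ᵐ[volume.restrict Ω] v := by
  classical
  have hr : ∀ (k : ℕ) (x0 : E n), ∃ r : ℝ, x0 ∈ Ω → (0 < r ∧ closedBall x0 r ⊆ Ω ∧
      ∀ᵐ x ∂(volume.restrict (closedBall x0 r)), ∀ᵐ y ∂(volume.restrict (closedBall x0 r)),
        ∀ a, |u x a - u y a| ≤ 1 / ((k : ℝ) + 1)) := by
    intro k x0
    by_cases hx : x0 ∈ Ω
    · obtain ⟨r, h1⟩ := h x0 hx (1 / ((k : ℝ) + 1)) (by positivity)
      exact ⟨r, fun _ => h1⟩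
    · exact ⟨0, fun h' => absurd h' hx⟩
  choose r hr using hr
  have hcov : ∀ k : ℕ, ∃ T ⊆ Ω, T.Countable ∧ Ω ⊆ ⋃ x ∈ T, ball x (r k x) := by
    intro k
    apply TopologicalSpace.countable_cover_nhdsWithin
    intro x hx
    exact mem_nhdsWithin_of_mem_nhds (ball_mem_nhds x (hr k x hx).1)
  choose T hTs hTc hTcov using hcov
  set N : Set (E n) := ⋃ k, ⋃ x0 ∈ T k, {x | ¬ (x ∈ closedBall x0 (r k x0) →
    ∀ᵐ y ∂(volume.restrict (closedBall x0 (r k x0))), ∀ a, |u x a - u y a| ≤ 1 / ((k : ℝ) + 1))}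
    with hNdef
  have hN : volume N = 0 := by
    rw [hNdef]
    apply measure_iUnion_null
    intro k
    rw [measure_biUnion_null_iff (hTc k)]
    intro x0 hx0
    have h1 := (hr k x0 (hTs k hx0)).2.2
    rw [ae_restrict_iff' isClosed_closedBall.measurableSet] at h1
    exact h1
  set G : Set (E n) := Ω \ N with hG
  -- the main estimate
  have hmain : ∀ x1 ∈ Ω, ∀ ρ : ℝ, 0 < ρ → ∃ U ∈ 𝓝 x1, ∀ x ∈ U ∩ G, ∀ y ∈ U ∩ G,
      dist (u x) (u y) ≤ ρ := by
    intro x1 hx1 ρ hρ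
    obtain ⟨k, hk⟩ := exists_nat_one_div_lt (half_pos hρ)
    obtain ⟨x0, hx0, hx01⟩ := mem_iUnion₂.1 (hTcov k hx1)
    refine ⟨ball x0 (r k x0), isOpen_ball.mem_nhds hx01, ?_⟩
    have hgood : ∀ x ∈ ball x0 (r k x0) ∩ G,
        ∀ᵐ y ∂(volume.restrict (closedBall x0 (r k x0))), ∀ a, |u x a - u y a| ≤ 1 / ((k : ℝ) + 1) := by
      intro x hx
      by_contra hcon
      apply hx.2.2
      rw [hNdef]
      refine mem_iUnion.2 ⟨k, mem_iUnion₂.2 ⟨x0, hx0, ?_⟩⟩
      intro h2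
      exact hcon (h2 (ball_subset_closedBall hx.1))
    intro x hx y hy
    have h1 := hgood x hx
    have h2 := hgood y hy
    have hpos : volume (closedBall x0 (r k x0)) ≠ 0 :=
      (measure_closedBall_pos volume x0 (hr k x0 (hTs k hx0)).1).ne'
    have hne : (ae (volume.restrict (closedBall x0 (r k x0)))).NeBot := by
      rw [ae_neBot]
      intro h3
      rw [Measure.restrict_eq_zero] at h3
      exact hpos h3
    obtain ⟨z, hz1, hz2⟩ := (h1.and h2).exists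
    rw [dist_pi_le_iff hρ.le]
    intro a
    rw [Real.dist_eq]
    have e1 := hz1 a
    have e2 := hz2 a
    have e3 : |u x a - u y a| ≤ |u x a - u z a| + |u y a - u z a| := by
      have : u x a - u y a = (u x a - u z a) - (u y a - u z a) := by ring
      rw [this]
      exact abs_sub _ _
    have e4 : (1 : ℝ) / ((k : ℝ) + 1) < ρ / 2 := hk
    linarith
  have hdense : Ω ⊆ closure G := by
    intro x hx
    rw [_root_.mem_closure_iff]
    intro o ho hxo
    by_contra hemp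
    rw [Set.not_nonempty_iff_eq_empty] at hemp
    have h1 : o ∩ Ω ⊆ N := by
      intro z hz
      by_contra hzN
      have : z ∈ o ∩ G := ⟨hz.1, hz.2, hzN⟩
      rw [hemp] at this
      exact this
    have h2 : volume (o ∩ Ω) = 0 := measure_mono_null h1 hN
    exact ((ho.inter hΩ).measure_pos volume ⟨x, hxo, hx⟩).ne' h2
  have hlim : ∀ x ∈ Ω, ∃ y, Tendsto u (𝓝[G] x) (𝓝 y) := by
    intro x hx
    have hnb : (𝓝[G] x).NeBot := mem_closure_iff_nhdsWithin_neBot.1 (hdense hx)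
    apply cauchy_map_iff_exists_tendsto.1
    rw [Metric.cauchy_iff]
    refine ⟨hnb.map u, ?_⟩
    intro ε hε
    obtain ⟨U, hU, h1⟩ := hmain x hx (ε / 2) (half_pos hε)
    refine ⟨u '' (U ∩ G), image_mem_map (inter_mem (mem_nhdsWithin_of_mem_nhds hU)
      self_mem_nhdsWithin), ?_⟩
    rintro _ ⟨a, ha, rfl⟩ _ ⟨b, hb, rfl⟩
    have := h1 a ha b hb
    linarith
  refine ⟨extendFrom G u, continuousOn_extendFrom hdense hlim, ?_⟩
  have hae : ∀ᵐ x ∂(volume.restrict Ω), x ∈ G := by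
    rw [ae_restrict_iff' hΩ.measurableSet]
    have h1 : ∀ᵐ x ∂(volume : Measure (E n)), x ∉ N := measure_eq_zero_iff_ae_notMem.1 hN
    filter_upwards [h1] with x hx hxΩ
    exact ⟨hxΩ, hx⟩
  filter_upwards [hae] with x hx
  symm
  apply extendFrom_eq (subset_closure hx)
  rw [Metric.tendsto_nhds]
  intro ε hε
  obtain ⟨U, hU, h1⟩ := hmain x hx.1 (ε / 2) (half_pos hε)
  have h2 : U ∩ G ∈ 𝓝[G] x := inter_mem (mem_nhdsWithin_of_mem_nhds hU) self_mem_nhdsWithin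
  filter_upwards [h2] with y hy
  have := h1 y hy x ⟨mem_of_mem_nhds hU, hx⟩
  linarith

end H930.HS.XContO

namespace H930.HS

export XContO (cont_osc)

end H930.HS
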