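import Pool.Agent.Helper930.HS.Exp

set_option autoImplicit false

open MeasureTheory Metric Set Filter Topology
open scoped ENNReal NNReal ContDiff

namespace H930.HS.XDec

open H930.BL



lemma dec_tri {m : ℕ} (c y z : E m) (h1 : qs c y ≤ 100) (h2 : qs y z ≤ 1 / 1024) :
    qs c z ≤ 104 := by
  have h : qs c z ≤ (101 / 100 : ℝ) * qs c y + 101 * qs y z := by
    unfold qs
    rw [Finset.mul_sum, Finset.mul_sum, ← Finset.sum_add_distrib]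
    refine Finset.sum_le_sum fun a _ => ?_
    nlinarith [sq_nonneg ((1 / 10 : ℝ) * (y a - c a) - 10 * (z a - y a))]
  linarith

lemma dec_vol_nonneg {n : ℕ} (Q : Bx n) : 0 ≤ Q.vol := by
  unfold Bx.vol
  exact Finset.prod_nonneg fun i _ => (sub_pos.2 (Q.lt i)).le

/-- the conclusion for a box `R`, relative to the centre `c` -/
def DecC {n : ℕ} (u : E n → E (n + 1)) (P : Bx n → Prop) (c : E (n + 1)) (t : ℝ) (R : Bx n)
    (K : Finset (Bx n)) : Prop :=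
  (∀ κ ∈ K, P κ ∧ κ.s ⊆ R.s ∧ κ.cl ⊆ R.cl ∧
        100 ≤ qs c (u κ.a) ∧ qs c (u κ.a) ≤ 104 ∧ κ.vol ≤ t) ∧
      (∀ κ ∈ K, ∀ κ' ∈ K, κ ≠ κ' → Disjoint κ.s κ'.s) ∧
      (∀ x ∈ R.s, (∀ κ ∈ K, x ∉ κ.s) → qs c (u x) ≤ 104)

lemma dec_union {n : ℕ} {u : E n → E (n + 1)} {P : Bx n → Prop} {c : E (n + 1)} {t : ℝ}
    {R R1 R2 : Bx n} {K1 K2 : Finset (Bx n)} (hs : Spl R R1 R2)
    (h1 : DecC u P c t R1 K1) (h2 : DecC u P c t R2 K2) :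
    ∃ K, DecC u P c t R K := by
  classical
  obtain ⟨e, hd, c1, c2, -, -, -, -⟩ := hs
  have s1 : R1.s ⊆ R.s := by rw [e]; exact Set.subset_union_left
  have s2 : R2.s ⊆ R.s := by rw [e]; exact Set.subset_union_right
  obtain ⟨a1, b1, d1⟩ := h1
  obtain ⟨a2, b2, d2⟩ := h2
  refine ⟨K1 ∪ K2, ?_, ?_, ?_⟩
  · intro κ hκ
    rcases Finset.mem_union.1 hκ with h | h
    · obtain ⟨p1, p2, p3, p4⟩ := a1 κ h
      exact ⟨p1, p2.trans s1, p3.trans c1, p4⟩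
    · obtain ⟨p1, p2, p3, p4⟩ := a2 κ h
      exact ⟨p1, p2.trans s2, p3.trans c2, p4⟩
  · intro κ hκ κ' hκ' hne
    rcases Finset.mem_union.1 hκ with h | h <;> rcases Finset.mem_union.1 hκ' with h' | h'
    · exact b1 κ h κ' h' hne
    · exact hd.mono (a1 κ h).2.1 (a2 κ' h').2.1
    · exact (hd.mono (a1 κ' h').2.1 (a2 κ h).2.1).symm
    · exact b2 κ h κ' h' hne
  · intro x hx hK
    rw [e] at hx
    rcases hx with hx | hx
    · exact d1 x hx fun κ h => hK κ (Finset.mem_union_left _ h)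
    · exact d2 x hx fun κ h => hK κ (Finset.mem_union_right _ h)

lemma dec_aux {n : ℕ} (u : E n → E (n + 1)) (P : Bx n → Prop) (δ : ℝ) (hδ : 0 < δ)
    (hbd : ∀ Q, P Q → ∀ x ∈ Q.bd, qs (u Q.a) (u x) ≤ 1 / 1024)
    (hsplit : ∀ Q, P Q → ∃ Q1 Q2, P Q1 ∧ P Q2 ∧ Spl Q Q1 Q2)
    (hsmall : ∀ Q, P Q → Q.vol ≤ δ → ∀ x ∈ Q.s, qs (u Q.a) (u x) ≤ 1 / 1024)
    (c : E (n + 1)) (k : ℕ) :
    ∀ R, P R → qs c (u R.a) < 100 → R.vol ≤ δ * (3 / 2 : ℝ) ^ k →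
      ∃ K : Finset (Bx n), DecC u P c (2 / 3 * R.vol) R K ∧ (R.vol ≤ δ → K = ∅) := by
  induction k with
  | zero =>
    intro R hR hc hv
    rw [pow_zero, mul_one] at hv
    refine ⟨∅, ⟨by simp, by simp, ?_⟩, fun _ => rfl⟩
    intro x hx _
    exact dec_tri c (u R.a) (u x) hc.le (hsmall R hR hv x hx)
  | succ k ih =>
    intro R hR hc hv
    by_cases hv' : R.vol ≤ δ
    · refine ⟨∅, ⟨by simp, by simp, ?_⟩, fun _ => rfl⟩
      intro x hx _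
      exact dec_tri c (u R.a) (u x) hc.le (hsmall R hR hv' x hx)
    · obtain ⟨R1, R2, hP1, hP2, hs⟩ := hsplit R hR
      have key : ∀ S : Bx n, P S → S.a ∈ R.bd → S.vol ≤ 2 / 3 * R.vol →
          ∃ K : Finset (Bx n), DecC u P c (2 / 3 * R.vol) S K := by
        intro S hS hSa hSv
        have h104 : qs c (u S.a) ≤ 104 := dec_tri c (u R.a) (u S.a) hc.le (hbd R hR _ hSa)
        by_cases h100 : 100 ≤ qs c (u S.a)
        · refine ⟨{S}, ?_, ?_, ?_⟩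
          · intro κ hκ
            rw [Finset.mem_singleton] at hκ
            subst hκ
            exact ⟨hS, subset_rfl, subset_rfl, h100, h104, hSv⟩
          · intro κ hκ κ' hκ' hne
            rw [Finset.mem_singleton] at hκ hκ'
            exact absurd (hκ.trans hκ'.symm) hne
          · intro x hx hK
            exact absurd hx (hK S (Finset.mem_singleton_self S))
        · have hk : S.vol ≤ δ * (3 / 2 : ℝ) ^ k := by
            rw [pow_succ] at hv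
            linarith
          obtain ⟨K, ⟨hK1, hK2, hK3⟩, -⟩ := ih S hS (not_le.1 h100) hk
          have hS0 := dec_vol_nonneg S
          refine ⟨K, ?_, hK2, hK3⟩
          intro κ hκ
          obtain ⟨p1, p2, p3, p4, p5, p6⟩ := hK1 κ hκ
          exact ⟨p1, p2, p3, p4, p5, by linarith⟩
      obtain ⟨K1, h1⟩ := key R1 hP1 hs.2.2.2.2.1 hs.2.2.2.2.2.2.1
      obtain ⟨K2, h2⟩ := key R2 hP2 hs.2.2.2.2.2.1 hs.2.2.2.2.2.2.2
      obtain ⟨K, hK⟩ := dec_union hs h1 h2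
      exact ⟨K, hK, fun h => absurd h hv'⟩

theorem dec {n : ℕ} (u : E n → E (n + 1)) (P : Bx n → Prop) (δ : ℝ) (hδ : 0 < δ)
    (hbd : ∀ Q, P Q → ∀ x ∈ Q.bd, qs (u Q.a) (u x) ≤ 1 / 1024)
    (hsplit : ∀ Q, P Q → ∃ Q1 Q2, P Q1 ∧ P Q2 ∧ Spl Q Q1 Q2)
    (hsmall : ∀ Q, P Q → Q.vol ≤ δ → ∀ x ∈ Q.s, qs (u Q.a) (u x) ≤ 1 / 1024) :
    ∀ Q, P Q → ∃ K : Finset (Bx n), (∀ κ ∈ K, P κ ∧ κ.s ⊆ Q.s ∧ κ.cl ⊆ Q.cl ∧
        100 ≤ qs (u Q.a) (u κ.a) ∧ qs (u Q.a) (u κ.a) ≤ 104 ∧ κ.vol ≤ 2 / 3 * Q.vol) ∧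
      (∀ κ ∈ K, ∀ κ' ∈ K, κ ≠ κ' → Disjoint κ.s κ'.s) ∧
      (∀ x ∈ Q.s, (∀ κ ∈ K, x ∉ κ.s) → qs (u Q.a) (u x) ≤ 104) ∧
      (Q.vol ≤ δ → K = ∅) := by
  intro Q hQ
  obtain ⟨k, hk⟩ := pow_unbounded_of_one_lt (Q.vol / δ) (by norm_num : (1 : ℝ) < 3 / 2)
  have hv : Q.vol ≤ δ * (3 / 2 : ℝ) ^ k := by
    rw [div_lt_iff₀ hδ] at hk
    linarith
  have h0 : qs (u Q.a) (u Q.a) < 100 := by
    unfold qs
    simp
  obtain ⟨K, ⟨h1, h2, h3⟩, h4⟩ :=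
    dec_aux u P δ hδ hbd hsplit hsmall (u Q.a) k Q hQ h0 hv
  exact ⟨K, h1, h2, h3, h4⟩

end H930.HS.XDec

namespace H930.HS

export XDec (dec)

end H930.HS
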