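import Pool.Agent.Helper930.BL.Defs

set_option autoImplicit false

open MeasureTheory Metric Set Filter Topology
open scoped ENNReal NNReal ContDiff

namespace H930.HS

open H930.BL

/-- derivative matrix of `u : E n → E m` -/
noncomputable def Dm {n m : ℕ} (u : E n → E m) (x : E n) : Matrix (Fin m) (Fin n) ℝ :=
  Matrix.of fun i j => pd (fun y => u y i) j x

/-- Frobenius norm -/
noncomputable def fn {m n : ℕ} (M : Matrix (Fin m) (Fin n) ℝ) : ℝ :=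
  Real.sqrt (∑ a, ∑ b, M a b ^ 2)

/-- component `i` of the generalised cross product of the columns of `M` -/
noncomputable def Jc {n : ℕ} (M : Matrix (Fin (n + 1)) (Fin n) ℝ) (i : Fin (n + 1)) : ℝ :=
  (-1 : ℝ) ^ (i : ℕ) * (M.submatrix i.succAbove id).det

/-- squared euclidean distance -/
noncomputable def qs {m : ℕ} (c y : E m) : ℝ := ∑ a, (y a - c a) ^ 2

/-- `A(∇u) : ∇(W ∘ u)` for a vector field `W` on the target -/
noncomputable def ad {n : ℕ} (u : E n → E (n + 1)) (W : E (n + 1) → E (n + 1)) (x : E n) : ℝ :=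
  fn (Dm u x) ^ (n - 2) *
    ∑ a, ∑ b, pd (fun y => W y a) b (u x) * ∑ j, Dm u x a j * Dm u x b j

/-- smooth vector field bounded by `A` together with its first derivatives -/
def FB {m : ℕ} (A : ℝ) (W : E m → E m) : Prop :=
  ContDiff ℝ ∞ W ∧ (∀ y a, |W y a| ≤ A) ∧ ∀ y a b, |pd (fun z => W z a) b y| ≤ A

/-- `u` solves the `H`-system up to the error density `ν`, inside the open set `B` -/
def Apx {n : ℕ} (H : E (n + 1) → ℝ) (u : E n → E (n + 1)) (ν : E n → ℝ) (B : Set (E n)) : Prop :=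
  ∀ (φ : E n → E (n + 1)), ContDiff ℝ ∞ φ → HasCompactSupport φ → tsupport φ ⊆ B →
  ∀ (S : Set (E n)), MeasurableSet S → S ⊆ B →
  (∀ x, x ∉ S → φ x = 0 ∧ ∀ i j, Dm φ x i j = 0) →
  ∀ a : ℝ, 0 ≤ a → (∀ x i, |φ x i| ≤ a) → (∀ x i j, |Dm φ x i j| ≤ a * fn (Dm u x)) →
  |(∫ x, fn (Dm u x) ^ (n - 2) * ∑ i, ∑ j, Dm u x i j * Dm φ x i j) -
    ∫ x, H (u x) * ∑ i, Jc (Dm u x) i * φ x i| ≤ a * ∫ x in S, ν x

/-- a (nondegenerate) box -/
structure Bx (n : ℕ) where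
  a : E n
  b : E n
  lt : ∀ i, a i < b i

/-- half open box -/
def Bx.s {n : ℕ} (Q : Bx n) : Set (E n) := {x | ∀ i, Q.a i ≤ x i ∧ x i < Q.b i}

/-- closed box -/
def Bx.cl {n : ℕ} (Q : Bx n) : Set (E n) := {x | ∀ i, Q.a i ≤ x i ∧ x i ≤ Q.b i}

/-- boundary of the box -/
def Bx.bd {n : ℕ} (Q : Bx n) : Set (E n) := {x | x ∈ Q.cl ∧ ∃ i, x i = Q.a i ∨ x i = Q.b i}

/-- volume of the box -/
noncomputable def Bx.vol {n : ℕ} (Q : Bx n) : ℝ := ∏ i, (Q.b i - Q.a i)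

/-- the box minus its children -/
def Rg {n : ℕ} (ch : Bx n → Finset (Bx n)) (Q : Bx n) : Set (E n) :=
  {x | x ∈ Q.s ∧ ∀ κ ∈ ch Q, x ∉ κ.s}

/-- a tree of boxes; `P` is the set of admissible boxes, `ch Q` the children of `Q` -/
structure Cells {n : ℕ} (u : E n → E (n + 1)) (P : Bx n → Prop) (ch : Bx n → Finset (Bx n))
    (rk : Bx n → ℕ) : Prop where
  smooth : ContDiff ℝ ∞ u
  bd : ∀ Q, P Q → ∀ x ∈ Q.bd, qs (u Q.a) (u x) ≤ 1 / 1024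
  chP : ∀ Q, P Q → ∀ κ ∈ ch Q, P κ
  chs : ∀ Q, P Q → ∀ κ ∈ ch Q, κ.s ⊆ Q.s
  chcl : ∀ Q, P Q → ∀ κ ∈ ch Q, κ.cl ⊆ Q.cl
  disj : ∀ Q, P Q → ∀ κ ∈ ch Q, ∀ κ' ∈ ch Q, κ ≠ κ' → Disjoint κ.s κ'.s
  lo : ∀ Q, P Q → ∀ κ ∈ ch Q, 100 ≤ qs (u Q.a) (u κ.a)
  hi : ∀ Q, P Q → ∀ κ ∈ ch Q, qs (u Q.a) (u κ.a) ≤ 104
  small : ∀ Q, P Q → ∀ x ∈ Rg ch Q, qs (u Q.a) (u x) ≤ 104
  rk_lt : ∀ Q, P Q → ∀ κ ∈ ch Q, rk κ < rk Q

/-- the collapse map: `c` near `c`, the identity away from `c` -/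
noncomputable def Pc {m : ℕ} (c y : E m) : E m :=
  fun a => c a + Real.smoothTransition ((256 * qs c y - 1) / 3) * (y a - c a)

/-- `d` is the degree density of the box `Q` -/
structure DegF {n : ℕ} (u : E n → E (n + 1)) (ch : Bx n → Finset (Bx n)) (Q : Bx n)
    (d : E (n + 1) → ℝ) : Prop where
  int : Integrable d
  isint : ∀ y, ∃ k : ℤ, d y = k
  bdd : ∃ R : ℝ, ∀ y, R < ‖y‖ → d y = 0
  form : ∀ ζ : E (n + 1) → ℝ, ContDiff ℝ ∞ ζ → ∀ a,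
    (∫ x in Rg ch Q, ζ (Pc (u Q.a) (u x)) * Jc (Dm (fun z => Pc (u Q.a) (u z)) x) a) +
      (∑ κ ∈ ch Q, ∫ x in κ.s, ζ (u x) * Jc (Dm u x) a) = ∫ y, d y * pd ζ a y

/-- degree density of the box minus the degree densities of its children -/
noncomputable def dl {n : ℕ} (ch : Bx n → Finset (Bx n)) (d : Bx n → E (n + 1) → ℝ) (Q : Bx n)
    (y : E (n + 1)) : ℝ := d Q y - ∑ κ ∈ ch Q, d κ y

/-- its total mass -/
noncomputable def Dq {n : ℕ} (ch : Bx n → Finset (Bx n)) (d : Bx n → E (n + 1) → ℝ) (Q : Bx n) : ℝ :=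
  ∫ y, |dl ch d Q y|

/-- its mass outside the ball of radius `s` around `u Q.a` -/
noncomputable def Ds {n : ℕ} (u : E n → E (n + 1)) (ch : Bx n → Finset (Bx n))
    (d : Bx n → E (n + 1) → ℝ) (Q : Bx n) (s : ℝ) : ℝ :=
  ∫ y in {y | s ^ 2 < qs (u Q.a) y}, |dl ch d Q y|

/-- the complete set-up -/
structure Sys {n : ℕ} (M : ℝ) (B : Set (E n)) (H : E (n + 1) → ℝ) (u : E n → E (n + 1))
    (ν : E n → ℝ) (P : Bx n → Prop) (ch : Bx n → Finset (Bx n)) (rk : Bx n → ℕ)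
    (d : Bx n → E (n + 1) → ℝ) (S : Bx n → ℝ) : Prop where
  cells : Cells u P ch rk
  opn : IsOpen B
  sub : ∀ Q, P Q → Q.cl ⊆ B
  apx : Apx H u ν B
  nint : IntegrableOn ν B
  nn : ∀ x, 0 ≤ ν x
  Hb : ∀ y, |H y| ≤ M
  HL : ∀ y z, |H y - H z| ≤ M * ‖y - z‖
  deg : ∀ Q, P Q → DegF u ch Q (d Q)
  Srec : ∀ Q, P Q → S Q = ∑ κ ∈ ch Q, (Dq ch d κ + S κ)

/-- the energy in a set -/
noncomputable def EN {n : ℕ} (u : E n → E (n + 1)) (A : Set (E n)) : ℝ :=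
  ∫ x in A, fn (Dm u x) ^ n

/-- cut-off profile, as a function of the squared distance: `0` for `q ≤ 1/4`, `1` for `q ≥ 1` -/
noncomputable def kf (q : ℝ) : ℝ := Real.smoothTransition ((4 * q - 1) / 3)

/-- cut-off profile: `1` for `q ≤ 144`, `0` for `q ≥ 400` -/
noncomputable def Tf (q : ℝ) : ℝ := 1 - Real.smoothTransition ((q - 144) / 256)

/-- the linear map `z ↦ z - ⟨e,z⟩ e` -/
noncomputable def Pe {m : ℕ} (e z : E m) : E m := fun a => z a - e a * ∑ b, e b * z b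

/-- `e = 0` or `e` is a unit vector -/
def Ue {m : ℕ} (e : E m) : Prop := e = 0 ∨ ∑ a, e a ^ 2 = 1

/-- tilt density -/
noncomputable def te {n : ℕ} (u : E n → E (n + 1)) (e : E (n + 1)) (x : E n) : ℝ :=
  fn (Dm u x) ^ (n - 2) * (fn (Dm u x) ^ 2 - ∑ j, (∑ a, e a * Dm u x a j) ^ 2)

/-- tilt of the node `Q` -/
noncomputable def tau {n : ℕ} (u : E n → E (n + 1)) (ch : Bx n → Finset (Bx n)) (Q : Bx n)
    (e : E (n + 1)) : ℝ :=
  (∫ x in Rg ch Q, kf (qs (u Q.a) (u x)) * te u e x) +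
    ∑ κ ∈ ch Q, ∫ x in Rg ch κ, (1 - kf (qs (u κ.a) (u x))) * te u e x

/-- `∂_b (kf ∘ qs c)` at `y` -/
noncomputable def kb {m : ℕ} (c y : E m) (b : Fin m) : ℝ :=
  deriv kf (qs c y) * (2 * (y b - c b))

/-- flux through the cut at `κ` -/
noncomputable def Ph {n : ℕ} (u : E n → E (n + 1)) (ch : Bx n → Finset (Bx n)) (κ : Bx n)
    (a : Fin (n + 1)) : ℝ :=
  ∫ x in Rg ch κ, fn (Dm u x) ^ (n - 2) *
    ∑ b, kb (u κ.a) (u x) b * ∑ j, Dm u x a j * Dm u x b j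

/-- first moments of the flux through the cut at `κ` -/
noncomputable def Mo {n : ℕ} (u : E n → E (n + 1)) (ch : Bx n → Finset (Bx n)) (κ : Bx n)
    (a c : Fin (n + 1)) : ℝ :=
  ∫ x in Rg ch κ, fn (Dm u x) ^ (n - 2) * ((u x c - u κ.a c) *
    ∑ b, kb (u κ.a) (u x) b * ∑ j, Dm u x a j * Dm u x b j)

/-- `M(P_e)` -/
noncomputable def Mp {m : ℕ} (Q : Fin m → Fin m → ℝ) (e : E m) : ℝ :=
  (∑ a, Q a a) - ∑ a, ∑ b, e a * e b * Q a b

open scoped Classical in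
/-- error terms at the node `Q` with main child `κs` -/
noncomputable def wt {n : ℕ} (u : E n → E (n + 1)) (ν : E n → ℝ) (ch : Bx n → Finset (Bx n))
    (d : Bx n → E (n + 1) → ℝ) (S : Bx n → ℝ) (Q κs : Bx n) : ℝ :=
  Ds u ch d Q (1 / 4) + (∑ κ ∈ ch Q, Dq ch d κ) +
    (∑ κ ∈ (ch Q).erase κs, (S κ + ∫ x in κ.s, ν x)) + (∫ x in Rg ch Q, ν x) +
      ∫ x in Rg ch κs, ν x

/-- integral over the slice `x i = t` of the box `Q` -/
noncomputable def fc {m : ℕ} (f : E (m + 1) → ℝ) (Q : Bx (m + 1)) (i : Fin (m + 1)) (t : ℝ) : ℝ :=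
  ∫ z in Icc (fun j => Q.a (i.succAbove j)) (fun j => Q.b (i.succAbove j)),
    f (i.insertNth (α := fun _ => ℝ) t z)

/-- the cube with centre `x` and half side `s` -/
def cube {n : ℕ} (x : E n) (s : ℝ) (hs : 0 < s) : Bx n :=
  ⟨fun i => x i - s, fun i => x i + s, fun i => by linarith⟩

/-- weak solutions, as in the frozen statement -/
def WSol {n : ℕ} (Ω : Set (E n)) (H : E (n + 1) → ℝ) (u : E n → E (n + 1))
    (Du : E n → Matrix (Fin (n + 1)) (Fin n) ℝ) : Prop :=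
  MemLp u (n : ENNReal) (volume.restrict Ω) ∧
  (∀ i j, MemLp (fun x => Du x i j) (n : ENNReal) (volume.restrict Ω)) ∧
  (∀ (φ : E n → ℝ), ContDiff ℝ (⊤ : ℕ∞) φ → HasCompactSupport φ → tsupport φ ⊆ Ω →
     (∀ (i : Fin (n + 1)) (j : Fin n),
        ∫ x in Ω, u x i * fderiv ℝ φ x (Pi.single j 1)
          = - ∫ x in Ω, Du x i j * φ x) ∧
     (∀ i : Fin (n + 1),
        ∫ x in Ω, Real.sqrt (∑ a, ∑ b, Du x a b ^ 2) ^ (n - 2)
            * ∑ j, Du x i j * fderiv ℝ φ x (Pi.single j 1)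
          = ∫ x in Ω, H (u x) * ((-1 : ℝ) ^ (i : ℕ) * ((Du x).submatrix i.succAbove id).det) * φ x))

/-- energy of the part of the box that is far from `u Q.a` -/
noncomputable def Fq {n : ℕ} (u : E n → E (n + 1)) (Q : Bx n) : ℝ :=
  ∫ x in {x | x ∈ Q.s ∧ 1 / 4 ≤ qs (u Q.a) (u x) ∧ qs (u Q.a) (u x) ≤ 144}, fn (Dm u x) ^ n

/-- the part of the region of `κ` that is mapped close to `u κ.a` -/
def Nr {n : ℕ} (u : E n → E (n + 1)) (ch : Bx n → Finset (Bx n)) (κ : Bx n) (r : ℝ) : Set (E n) :=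
  {x | x ∈ Rg ch κ ∧ qs (u κ.a) (u x) ≤ r}

/-- tilt test field on the node -/
noncomputable def Wt {m : ℕ} (c e y : E m) : E m :=
  fun a => kf (qs c y) * Tf (qs c y) * Pe e (fun b => y b - c b) a

/-- tilt test field on the children -/
noncomputable def Wk {m : ℕ} (c c' e y : E m) : E m :=
  fun a => (1 - kf (qs c' y)) * Tf (qs c y) * Pe e (fun b => y b - c b) a

/-- good boxes: inside `Q0`, bounded aspect ratio, small face integrals of `f` -/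
def Gb {m : ℕ} (f : E (m + 1) → ℝ) (ε : ℝ) (Q0 Q : Bx (m + 1)) : Prop :=
  Q.cl ⊆ Q0.cl ∧ (∀ i j, Q.b i - Q.a i ≤ 3 * (Q.b j - Q.a j)) ∧
    ∀ i, dist Q.a Q.b * fc f Q i (Q.a i) ≤ ε ∧ dist Q.a Q.b * fc f Q i (Q.b i) ≤ ε

/-- `Q1, Q2` is an admissible subdivision of `Q` -/
def Spl {n : ℕ} (Q Q1 Q2 : Bx n) : Prop :=
  Q.s = Q1.s ∪ Q2.s ∧ Disjoint Q1.s Q2.s ∧ Q1.cl ⊆ Q.cl ∧ Q2.cl ⊆ Q.cl ∧ Q1.a ∈ Q.bd ∧
    Q2.a ∈ Q.bd ∧ Q1.vol ≤ 2 / 3 * Q.vol ∧ Q2.vol ≤ 2 / 3 * Q.vol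

end H930.HS
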