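import Pool.Agent.Helper930.HS.DegMap
import Pool.Agent.Helper930.HS.PcDer

set_option autoImplicit false

open MeasureTheory Metric Set Filter Topology
open scoped ENNReal NNReal ContDiff

namespace H930.HS.XDegE

open H930.BL



lemma dx5_qs_le {m : ℕ} (c y z : E m) : qs c y ≤ 2 * qs c z + 2 * qs y z := by
  unfold qs
  rw [Finset.mul_sum, Finset.mul_sum, ← Finset.sum_add_distrib]
  refine Finset.sum_le_sum fun a _ => ?_
  nlinarith [sq_nonneg ((z a - c a) + (z a - y a))]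

lemma dx5_qs_cont {n m : ℕ} {u : E n → E m} (hu : Continuous u) (c : E m) :
    Continuous fun x => qs c (u x) := by
  unfold qs
  exact continuous_finsetSum _ fun a _ =>
    (((continuous_apply a).comp hu).sub continuous_const).pow 2

lemma dx5_Pc_const {m : ℕ} {c y : E m} (h : qs c y ≤ 1 / 256) : Pc c y = c := by
  funext a
  unfold Pc
  rw [Real.smoothTransition.zero_of_nonpos (by linarith)]
  ring

lemma dx5_Pc_id {m : ℕ} {c y : E m} (h : 1 / 64 ≤ qs c y) : Pc c y = y := by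
  funext a
  unfold Pc
  rw [Real.smoothTransition.one_of_one_le (by linarith)]
  ring

open scoped Classical in
noncomputable def dx5_g {n : ℕ} (u : E n → E (n + 1)) (ch : Bx n → Finset (Bx n)) (Q : Bx n)
    (x : E n) : E (n + 1) :=
  if x ∈ Q.s then (if ∃ κ ∈ ch Q, x ∈ κ.s then u x else Pc (u Q.a) (u x)) else u Q.a

lemma dx5_cl_eq {n : ℕ} (Q : Bx n) : Q.cl = Icc Q.a Q.b := by
  ext x
  constructor
  · intro hx
    exact ⟨fun i => (hx i).1, fun i => (hx i).2⟩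
  · intro hx i
    exact ⟨hx.1 i, hx.2 i⟩

lemma dx5_cl_compact {n : ℕ} (Q : Bx n) : IsCompact Q.cl := by
  rw [dx5_cl_eq]
  exact isCompact_Icc

lemma dx5_cl_closed {n : ℕ} (Q : Bx n) : IsClosed Q.cl := (dx5_cl_compact Q).isClosed

def dx5_in {n : ℕ} (Q : Bx n) : Set (E n) := {x | ∀ i, Q.a i < x i ∧ x i < Q.b i}

lemma dx5_in_open {n : ℕ} (Q : Bx n) : IsOpen (dx5_in Q) := by
  have h : dx5_in Q = Set.pi univ (fun i => Ioo (Q.a i) (Q.b i)) := by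
    ext x
    simp [dx5_in]
  rw [h]
  exact isOpen_set_pi finite_univ fun i _ => isOpen_Ioo

lemma dx5_in_of {n : ℕ} {Q : Bx n} {x : E n} (h : x ∈ Q.cl) (h' : x ∉ Q.bd) : x ∈ dx5_in Q := by
  intro i
  have h1 := h i
  refine ⟨lt_of_le_of_ne h1.1 fun he => h' ⟨h, i, Or.inl he.symm⟩,
    lt_of_le_of_ne h1.2 fun he => h' ⟨h, i, Or.inr he⟩⟩

lemma dx5_in_s {n : ℕ} (Q : Bx n) : dx5_in Q ⊆ Q.s := fun _ hx i => ⟨(hx i).1.le, (hx i).2⟩

lemma dx5_s_cl {n : ℕ} (Q : Bx n) : Q.s ⊆ Q.cl := fun _ hx i => ⟨(hx i).1, (hx i).2.le⟩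

lemma dx5_cl_s {n : ℕ} {Q : Bx n} {x : E n} (h : x ∈ Q.cl) (h' : x ∉ Q.s) : x ∈ Q.bd := by
  by_contra hb
  exact h' (dx5_in_s Q (dx5_in_of h hb))

lemma dx5_bd_sub {n : ℕ} {Q κ : Bx n} (h : κ.cl ⊆ Q.cl) {x : E n} (hx : x ∈ κ.cl)
    (hb : x ∈ Q.bd) : x ∈ κ.bd := by
  have ha : κ.a ∈ Q.cl := h fun i => ⟨le_rfl, (κ.lt i).le⟩
  have hb' : κ.b ∈ Q.cl := h fun i => ⟨(κ.lt i).le, le_rfl⟩
  obtain ⟨_, i, hi⟩ := hb
  refine ⟨hx, i, ?_⟩
  have h1 := ha i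
  have h2 := hb' i
  have h3 := hx i
  rcases hi with hi | hi
  · left; linarith [h1.1, h3.1]
  · right; linarith [h2.2, h3.2]

lemma dx5_s_meas {n : ℕ} (Q : Bx n) : MeasurableSet Q.s := by
  have h : Q.s = ⋂ i, (fun x : E n => x i) ⁻¹' Ico (Q.a i) (Q.b i) := by
    ext x
    simp [Bx.s]
  rw [h]
  exact MeasurableSet.iInter fun i => measurableSet_Ico.preimage (measurable_pi_apply i)

lemma dx5_Rg_meas {n : ℕ} (ch : Bx n → Finset (Bx n)) (Q : Bx n) : MeasurableSet (Rg ch Q) := by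
  have h : Rg ch Q = Q.s \ ⋃ κ ∈ ch Q, κ.s := by
    ext x
    simp [Rg]
  rw [h]
  exact (dx5_s_meas Q).diff (Finset.measurableSet_biUnion _ fun κ _ => dx5_s_meas κ)

section
variable {n : ℕ} {u : E n → E (n + 1)} {P : Bx n → Prop} {ch : Bx n → Finset (Bx n)}
  {rk : Bx n → ℕ}

lemma dx5_big (h : Cells u P ch rk) {Q : Bx n} (hQ : P Q) {κ : Bx n} (hκ : κ ∈ ch Q) {x : E n}
    (hx : x ∈ κ.bd) : 49 ≤ qs (u Q.a) (u x) := by
  have h1 := h.bd κ (h.chP Q hQ κ hκ) x hx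
  have h2 := h.lo Q hQ κ hκ
  have h3 := dx5_qs_le (u Q.a) (u κ.a) (u x)
  linarith

/-- near the boundary of `Q` -/
lemma dx5_nbd (h : Cells u P ch rk) {Q : Bx n} (hQ : P Q) {x : E n} (hx : x ∈ Q.bd) :
    (dx5_g u ch Q =ᶠ[𝓝 x] fun _ => u Q.a) ∧ (fun z => Pc (u Q.a) (u z)) =ᶠ[𝓝 x] fun _ => u Q.a := by
  have hc := dx5_qs_cont h.smooth.continuous (u Q.a)
  have h1 : ∀ᶠ y in 𝓝 x, qs (u Q.a) (u y) < 1 / 256 := by
    have h2 : qs (u Q.a) (u x) < 1 / 256 := lt_of_le_of_lt (h.bd Q hQ x hx) (by norm_num)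
    exact (hc.continuousAt (x := x)).eventually_lt continuousAt_const h2
  have h2 : ∀ᶠ y in 𝓝 x, ∀ κ ∈ ch Q, y ∉ κ.s := by
    have h3 : ∀ κ ∈ ch Q, ∀ᶠ y in 𝓝 x, y ∉ κ.s := by
      intro κ hκ
      have h4 : x ∉ κ.cl := by
        intro h5
        have h6 := dx5_bd_sub (h.chcl Q hQ κ hκ) h5 hx
        have h7 := dx5_big h hQ hκ h6
        have h8 := h.bd Q hQ x hx
        linarith
      have h5 : κ.clᶜ ∈ 𝓝 x := (dx5_cl_closed κ).isOpen_compl.mem_nhds h4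
      filter_upwards [h5] with y hy hy'
      exact hy (dx5_s_cl κ hy')
    exact (Filter.eventually_all_finset _).2 h3
  constructor
  · filter_upwards [h1, h2] with y hy1 hy2
    unfold dx5_g
    have h3 : ¬ ∃ κ ∈ ch Q, y ∈ κ.s := by
      rintro ⟨κ, hκ, hy⟩
      exact hy2 κ hκ hy
    rw [if_neg h3, dx5_Pc_const hy1.le]
    split_ifs <;> rfl
  · filter_upwards [h1] with y hy1
    exact dx5_Pc_const hy1.le

/-- near the boundary of a child -/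
lemma dx5_nchild (h : Cells u P ch rk) {Q : Bx n} (hQ : P Q) {κ : Bx n} (hκ : κ ∈ ch Q) {x : E n}
    (hx : x ∈ κ.bd) : (dx5_g u ch Q =ᶠ[𝓝 x] u) ∧ (fun z => Pc (u Q.a) (u z)) =ᶠ[𝓝 x] u := by
  have hc := dx5_qs_cont h.smooth.continuous (u Q.a)
  have h49 := dx5_big h hQ hκ hx
  have h1 : ∀ᶠ y in 𝓝 x, 1 / 64 < qs (u Q.a) (u y) := by
    have h2 : 1 / 64 < qs (u Q.a) (u x) := by linarith
    exact continuousAt_const.eventually_lt (hc.continuousAt (x := x)) h2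
  have hxQ : x ∈ dx5_in Q := by
    refine dx5_in_of (h.chcl Q hQ κ hκ hx.1) fun hb => ?_
    have h8 := h.bd Q hQ x hb
    linarith
  have h2 : ∀ᶠ y in 𝓝 x, y ∈ Q.s := by
    filter_upwards [(dx5_in_open Q).mem_nhds hxQ] with y hy
    exact dx5_in_s Q hy
  constructor
  · filter_upwards [h1, h2] with y hy1 hy2
    unfold dx5_g
    rw [if_pos hy2, dx5_Pc_id hy1.le]
    split_ifs <;> rfl
  · filter_upwards [h1] with y hy1
    exact dx5_Pc_id hy1.le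

lemma dx5_L2 (h : Cells u P ch rk) {Q : Bx n} (hQ : P Q) {κ : Bx n} (hκ : κ ∈ ch Q) {x : E n}
    (hx : x ∈ κ.s) : dx5_g u ch Q =ᶠ[𝓝 x] u := by
  by_cases hb : x ∈ κ.bd
  · exact (dx5_nchild h hQ hκ hb).1
  · have h1 := dx5_in_of (dx5_s_cl κ hx) hb
    filter_upwards [(dx5_in_open κ).mem_nhds h1] with y hy
    have h2 := dx5_in_s κ hy
    unfold dx5_g
    rw [if_pos (h.chs Q hQ κ hκ h2), if_pos ⟨κ, hκ, h2⟩]

lemma dx5_L3 (h : Cells u P ch rk) {Q : Bx n} (hQ : P Q) {x : E n}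
    (hx : x ∉ Q.s) : dx5_g u ch Q =ᶠ[𝓝 x] fun _ => u Q.a := by
  by_cases hc : x ∈ Q.cl
  · exact (dx5_nbd h hQ (dx5_cl_s hc hx)).1
  · filter_upwards [(dx5_cl_closed Q).isOpen_compl.mem_nhds hc] with y hy
    unfold dx5_g
    rw [if_neg fun h' => hy (dx5_s_cl Q h')]

lemma dx5_L1 (h : Cells u P ch rk) {Q : Bx n} (hQ : P Q) {x : E n}
    (hx : x ∈ Rg ch Q) : dx5_g u ch Q =ᶠ[𝓝 x] fun z => Pc (u Q.a) (u z) := by
  by_cases hb : x ∈ Q.bd
  · exact (dx5_nbd h hQ hb).1.trans (dx5_nbd h hQ hb).2.symm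
  by_cases hk : ∃ κ ∈ ch Q, x ∈ κ.bd
  · obtain ⟨κ, hκ, hk⟩ := hk
    exact (dx5_nchild h hQ hκ hk).1.trans (dx5_nchild h hQ hκ hk).2.symm
  · have h1 := dx5_in_of (dx5_s_cl Q hx.1) hb
    have h2 : ∀ᶠ y in 𝓝 x, ∀ κ ∈ ch Q, y ∉ κ.s := by
      have h3 : ∀ κ ∈ ch Q, ∀ᶠ y in 𝓝 x, y ∉ κ.s := by
        intro κ hκ
        have h4 : x ∉ κ.cl := by
          intro h5
          exact hk ⟨κ, hκ, dx5_cl_s h5 (hx.2 κ hκ)⟩
        have h5 : κ.clᶜ ∈ 𝓝 x := (dx5_cl_closed κ).isOpen_compl.mem_nhds h4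
        filter_upwards [h5] with y hy hy'
        exact hy (dx5_s_cl κ hy')
      exact (Filter.eventually_all_finset _).2 h3
    filter_upwards [(dx5_in_open Q).mem_nhds h1, h2] with y hy1 hy2
    unfold dx5_g
    have h3 : ¬ ∃ κ ∈ ch Q, y ∈ κ.s := by
      rintro ⟨κ, hκ, hy⟩
      exact hy2 κ hκ hy
    rw [if_pos (dx5_in_s Q hy1), if_neg h3]

lemma dx5_smooth (h : Cells u P ch rk) {Q : Bx n} (hQ : P Q) : ContDiff ℝ ∞ (dx5_g u ch Q) := by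
  rw [contDiff_iff_contDiffAt]
  intro x
  obtain ⟨C, hC, hPc⟩ := Pc_der (n := n)
  by_cases hx : x ∈ Q.s
  · by_cases hk : ∃ κ ∈ ch Q, x ∈ κ.s
    · obtain ⟨κ, hκ, hk⟩ := hk
      exact h.smooth.contDiffAt.congr_of_eventuallyEq (dx5_L2 h hQ hκ hk)
    · have hR : x ∈ Rg ch Q := ⟨hx, fun κ hκ hk' => hk ⟨κ, hκ, hk'⟩⟩
      exact (hPc u h.smooth (u Q.a)).1.contDiffAt.congr_of_eventuallyEq (dx5_L1 h hQ hR)
  · exact contDiffAt_const.congr_of_eventuallyEq (dx5_L3 h hQ hx)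

lemma dx5_Dm_congr {m : ℕ} {f g : E n → E m} {x : E n} (h : f =ᶠ[𝓝 x] g) : Dm f x = Dm g x := by
  ext i j
  unfold Dm pd
  simp only [Matrix.of_apply]
  have h1 : (fun y => f y i) =ᶠ[𝓝 x] fun y => g y i := by
    filter_upwards [h] with y hy
    rw [hy]
  rw [h1.fderiv_eq]

lemma dx5_Jc_const (hn : 2 ≤ n) (c : E (n + 1)) (x : E n) (a : Fin (n + 1)) :
    Jc (Dm (fun _ : E n => c) x) a = 0 := by
  have h1 : Dm (fun _ : E n => c) x = 0 := by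
    ext i j
    simp [Dm, pd]
  rw [h1]
  unfold Jc
  have h2 : ((0 : Matrix (Fin (n + 1)) (Fin n) ℝ).submatrix a.succAbove id) = 0 := by
    ext i j
    simp
  haveI : Nonempty (Fin n) := ⟨⟨0, by omega⟩⟩
  rw [h2, Matrix.det_zero]
  ring

lemma dx5_Jc_cont {g : E n → E (n + 1)} (hg : ContDiff ℝ ∞ g) (a : Fin (n + 1)) :
    Continuous fun x => Jc (Dm g x) a := by
  unfold Jc
  refine continuous_const.mul (Continuous.matrix_det ?_)
  refine continuous_matrix fun i j => ?_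
  simp only [Matrix.submatrix_apply, Dm, Matrix.of_apply]
  exact continuous_pd ((contDiff_pi.1 (hg.of_le (by exact_mod_cast le_top))) _) _

end

theorem deg_exists {n : ℕ} (hn : 2 ≤ n) {u : E n → E (n + 1)} {P : Bx n → Prop}
    {ch : Bx n → Finset (Bx n)} {rk : Bx n → ℕ} (h : Cells u P ch rk) {Q : Bx n} (hQ : P Q) :
    ∃ d : E (n + 1) → ℝ, DegF u ch Q d := by
  have hg := dx5_smooth h hQ
  obtain ⟨d, hd1, hd2, hd3, hd4⟩ := deg_map hn (dx5_g u ch Q) hg (u Q.a) Q.cl (dx5_cl_compact Q)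
    (fun x hx => (dx5_L3 h hQ fun h' => hx (dx5_s_cl Q h')).eq_of_nhds)
  refine ⟨d, hd1, hd2, hd3, fun ζ hζ a => ?_⟩
  rw [← hd4 ζ hζ a]
  set F : E n → ℝ := fun x => ζ (dx5_g u ch Q x) * Jc (Dm (dx5_g u ch Q) x) a with hF
  have hFc : Continuous F := (hζ.continuous.comp hg.continuous).mul (dx5_Jc_cont hg a)
  have hFi : ∀ S : Set (E n), S ⊆ Q.cl → IntegrableOn F S := fun S hS =>
    (hFc.continuousOn.integrableOn_compact (dx5_cl_compact Q)).mono_set hS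
  have e1 : ∫ x in Rg ch Q, ζ (Pc (u Q.a) (u x)) * Jc (Dm (fun z => Pc (u Q.a) (u z)) x) a =
      ∫ x in Rg ch Q, F x := by
    refine setIntegral_congr_fun (dx5_Rg_meas ch Q) fun x hx => ?_
    have h1 := dx5_L1 h hQ hx
    simp only [hF]
    rw [dx5_Dm_congr h1, h1.eq_of_nhds]
  have e2 : ∀ κ ∈ ch Q, ∫ x in κ.s, ζ (u x) * Jc (Dm u x) a = ∫ x in κ.s, F x := by
    intro κ hκ
    refine setIntegral_congr_fun (dx5_s_meas κ) fun x hx => ?_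
    have h1 := dx5_L2 h hQ hκ hx
    simp only [hF]
    rw [dx5_Dm_congr h1, h1.eq_of_nhds]
  have e3 : ∫ x, F x = ∫ x in Q.s, F x := by
    symm
    refine setIntegral_eq_integral_of_forall_compl_eq_zero fun x hx => ?_
    have h1 := dx5_L3 h hQ hx
    simp only [hF]
    rw [dx5_Dm_congr h1, dx5_Jc_const hn, mul_zero]
  have hU : Q.s = Rg ch Q ∪ ⋃ κ ∈ ch Q, κ.s := by
    ext x
    simp only [mem_union, mem_iUnion, exists_prop]
    constructor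
    · intro hx
      by_cases hk : ∃ κ ∈ ch Q, x ∈ κ.s
      · exact Or.inr hk
      · exact Or.inl ⟨hx, fun κ hκ hk' => hk ⟨κ, hκ, hk'⟩⟩
    · rintro (hx | ⟨κ, hκ, hx⟩)
      · exact hx.1
      · exact h.chs Q hQ κ hκ hx
  have hdj : Disjoint (Rg ch Q) (⋃ κ ∈ ch Q, κ.s) := by
    rw [Set.disjoint_left]
    intro x hx hx'
    simp only [mem_iUnion, exists_prop] at hx'
    obtain ⟨κ, hκ, hx'⟩ := hx'
    exact hx.2 κ hκ hx'
  have hRcl : Rg ch Q ⊆ Q.cl := fun x hx => dx5_s_cl Q hx.1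
  have hkcl : ∀ κ ∈ ch Q, κ.s ⊆ Q.cl := fun κ hκ => (h.chs Q hQ κ hκ).trans (dx5_s_cl Q)
  have hUm : MeasurableSet (⋃ κ ∈ ch Q, κ.s) :=
    Finset.measurableSet_biUnion _ fun κ _ => dx5_s_meas κ
  have e4 : ∫ x in Q.s, F x = (∫ x in Rg ch Q, F x) + ∑ κ ∈ ch Q, ∫ x in κ.s, F x := by
    rw [hU, setIntegral_union hdj hUm (hFi _ hRcl) (hFi _ (iUnion₂_subset hkcl))]
    congr 1
    refine integral_biUnion_finset _ (fun κ _ => dx5_s_meas κ) ?_ (fun κ hκ => hFi _ (hkcl κ hκ))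
    intro κ hκ κ' hκ' hne
    exact h.disj Q hQ κ hκ κ' hκ' hne
  show _ = ∫ x, F x
  rw [e1, Finset.sum_congr rfl e2, e3, e4]

end H930.HS.XDegE

namespace H930.HS

export XDegE (deg_exists)

end H930.HS
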