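import Pool.Agent.Helper930.HS.Exp
import Pool.Agent.Helper930.BL.J03

set_option autoImplicit false

open MeasureTheory Metric Set Filter Topology
open scoped ENNReal NNReal ContDiff

namespace H930.HS.XVertArea

open H930.BL



/-- the derivative matrix of the vertical ray map -/
noncomputable def vaA {n : ℕ} (g : E n → E (n + 1)) (x : E n) :
    Matrix (Fin (n + 1)) (Fin (n + 1)) ℝ :=
  Matrix.of fun i => Fin.cons (if i = 0 then (-1 : ℝ) else 0) (fun j => pd (fun y => g y i) j x)

/-- the tail as a continuous linear map -/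
noncomputable def vaT (n : ℕ) : E (n + 1) →L[ℝ] E n :=
  ContinuousLinearMap.pi fun j => ContinuousLinearMap.proj (R := ℝ) j.succ

/-- the vertical ray map -/
noncomputable def vaF {n : ℕ} (g : E n → E (n + 1)) (z : E (n + 1)) : E (n + 1) :=
  fun i => g (vaT n z) i - if i = 0 then z 0 else 0

lemma vaT_apply {n : ℕ} (z : E (n + 1)) (j : Fin n) : vaT n z j = z j.succ := rfl

lemma vaA_det {n : ℕ} (g : E n → E (n + 1)) (x : E n) :
    (toC (vaA g x)).det = - Jc (Dm g x) 0 := by
  rw [toC_det, Matrix.det_succ_column_zero, Fin.sum_univ_succ]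
  have h1 : ∀ i : Fin n, (-1 : ℝ) ^ ((i.succ : Fin (n + 1)) : ℕ) * vaA g x i.succ 0 *
      ((vaA g x).submatrix i.succ.succAbove Fin.succ).det = 0 := by
    intro i
    have : vaA g x i.succ 0 = 0 := by
      simp [vaA, Fin.succ_ne_zero]
    rw [this]; ring
  rw [Finset.sum_eq_zero (fun i _ => h1 i)]
  have h2 : vaA g x 0 0 = -1 := by simp [vaA]
  have h3 : (vaA g x).submatrix (Fin.succAbove 0) Fin.succ =
      (Dm g x).submatrix (Fin.succAbove 0) id := by
    ext i j
    simp [vaA, Dm]
  rw [h2, h3, Jc]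
  simp

lemma vaF_hasFDerivAt {n : ℕ} (g : E n → E (n + 1)) (hg : ContDiff ℝ ∞ g) (z : E (n + 1)) :
    HasFDerivAt (vaF g) (toC (vaA g (vaT n z))) z := by
  rw [hasFDerivAt_pi']
  intro i
  have hgi : HasFDerivAt (fun y => g y i) (fderiv ℝ (fun y => g y i) (vaT n z)) (vaT n z) := by
    have : ContDiff ℝ ∞ (fun y => g y i) := (contDiff_pi.1 hg) i
    exact (this.differentiable (by simp)).differentiableAt.hasFDerivAt
  have h1 : HasFDerivAt (fun z => g (vaT n z) i)
      ((fderiv ℝ (fun y => g y i) (vaT n z)).comp (vaT n)) z :=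
    hgi.comp z (vaT n).hasFDerivAt
  have h2 : HasFDerivAt (fun z : E (n + 1) => if i = 0 then z 0 else 0)
      (if i = 0 then (ContinuousLinearMap.proj (R := ℝ) (φ := fun _ : Fin (n + 1) => ℝ) 0) else 0)
      z := by
    by_cases hi : i = 0
    · simp only [hi, if_true]
      exact (ContinuousLinearMap.proj (R := ℝ) (φ := fun _ : Fin (n + 1) => ℝ) 0).hasFDerivAt
    · simp only [hi, if_false]
      exact hasFDerivAt_const _ _
  refine (h1.sub h2).congr_fderiv ?_
  ext v
  have hv : (toC (vaA g (vaT n z))) v i = ∑ j, vaA g (vaT n z) i j * v j := by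
    simp [toC, Matrix.mulVec, dotProduct]
  have hv' : ((ContinuousLinearMap.proj (R := ℝ) i).comp (toC (vaA g (vaT n z)))) v =
      (toC (vaA g (vaT n z))) v i := rfl
  rw [hv', hv, Fin.sum_univ_succ]
  simp only [sub_apply, ContinuousLinearMap.comp_apply]
  rw [fderiv_apply_eq]
  have e1 : vaA g (vaT n z) i 0 = if i = 0 then (-1 : ℝ) else 0 := by simp [vaA]
  have e2 : ∀ j : Fin n, vaA g (vaT n z) i j.succ = pd (fun y => g y i) j (vaT n z) := by
    intro j; simp [vaA]
  rw [e1]
  simp only [e2]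
  have e3 : ∑ j, (vaT n v) j * pd (fun y => g y i) j (vaT n z) =
      ∑ j : Fin n, pd (fun y => g y i) j (vaT n z) * v j.succ := by
    refine Finset.sum_congr rfl fun j _ => ?_
    rw [vaT_apply, mul_comm]
  rw [e3]
  by_cases hi : i = 0
  · simp only [hi, if_true]
    simp
    ring
  · simp [hi]

lemma va_cont {n : ℕ} (g : E n → E (n + 1)) (hg : ContDiff ℝ ∞ g) :
    Continuous (fun x => Jc (Dm g x) 0) := by
  have h1 : ContDiff ℝ 1 g := hg.of_le (by simp)
  have h2 : Continuous (fun x => Dm g x) := by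
    refine continuous_matrix fun i j => ?_
    exact continuous_pd ((contDiff_pi.1 h1) i) j
  unfold Jc
  exact continuous_const.mul ((h2.matrix_submatrix _ _).matrix_det)

theorem vert_area {n : ℕ} (g : E n → E (n + 1)) (hg : ContDiff ℝ ∞ g) (K : Set (E n))
    (hK : IsCompact K) (T : ℝ) :
    ∃ N : E (n + 1) → ℤ, Measurable N ∧ Integrable (fun y => (N y : ℝ)) ∧
      ∀ ψ : E (n + 1) → ℝ, Measurable ψ → (∃ C : ℝ, ∀ y, |ψ y| ≤ C) →
        ∫ x in K, ∫ t in Ioo 0 T, ψ (fun i => g x i - if i = 0 then t else 0) * Jc (Dm g x) 0 =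
          ∫ y, ψ y * N y := by
  classical
  have hJ := va_cont g hg
  set s : Set (E (n + 1)) := {z | z 0 ∈ Ioo 0 T ∧ vaT n z ∈ K} with hs
  have hsm : MeasurableSet s := by
    have h1 : MeasurableSet {z : E (n + 1) | z 0 ∈ Ioo 0 T} :=
      measurableSet_Ioo.preimage (measurable_pi_apply 0)
    have h2 : MeasurableSet {z : E (n + 1) | vaT n z ∈ K} :=
      hK.measurableSet.preimage (vaT n).continuous.measurable
    exact h1.inter h2
  have hdet : ∀ z, (toC (vaA g (vaT n z))).det = - Jc (Dm g (vaT n z)) 0 := fun z => vaA_det g _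
  have hcomp : IsCompact {z : E (n + 1) | z 0 ∈ Icc 0 T ∧ vaT n z ∈ K} := by
    have h1 : IsCompact ((Icc 0 T ×ˢ K : Set (ℝ × E n))) := isCompact_Icc.prod hK
    have h2 : Continuous (fun p : ℝ × E n => (Fin.cons p.1 p.2 : E (n + 1))) := by
      refine continuous_pi fun i => ?_
      refine Fin.cases ?_ (fun j => ?_) i
      · simpa using continuous_fst
      · simp only [Fin.cons_succ]
        exact (continuous_apply j).comp continuous_snd
    have h3 : {z : E (n + 1) | z 0 ∈ Icc 0 T ∧ vaT n z ∈ K} ⊆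
        (fun p : ℝ × E n => (Fin.cons p.1 p.2 : E (n + 1))) '' (Icc 0 T ×ˢ K) := by
      rintro z ⟨hz1, hz2⟩
      refine ⟨(z 0, vaT n z), ⟨hz1, hz2⟩, ?_⟩
      ext i
      refine Fin.cases ?_ (fun j => ?_) i
      · simp
      · simp [vaT_apply]
    refine (h1.image h2).of_isClosed_subset ?_ h3
    exact (isClosed_Icc.preimage (continuous_apply 0)).inter
      (hK.isClosed.preimage (vaT n).continuous)
  have hint : IntegrableOn (fun z => (toC (vaA g (vaT n z))).det) s := by
    have h1 : Continuous (fun z => (toC (vaA g (vaT n z))).det) := by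
      simp only [hdet]
      exact (hJ.comp (vaT n).continuous).neg
    refine (h1.continuousOn.integrableOn_compact hcomp).mono_set ?_
    rintro z ⟨hz1, hz2⟩
    exact ⟨Ioo_subset_Icc_self hz1, hz2⟩
  obtain ⟨N, hN1, hN2, hN3, -⟩ := area_integer (f := vaF g)
    (f' := fun z => toC (vaA g (vaT n z))) hsm
    (fun z _ => (vaF_hasFDerivAt g hg z).hasFDerivWithinAt) hint
  refine ⟨fun y => - N y, hN1.neg, ?_, ?_⟩
  · simpa using hN2.neg
  intro ψ hψ hC
  have h3 := hN3 ψ hψ hC
  obtain ⟨C, hC⟩ := hC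
  have hR : ∫ y, ψ y * ((- N y : ℤ) : ℝ) = ∫ z in s, ψ (vaF g z) * Jc (Dm g (vaT n z)) 0 := by
    have e1 : ∀ y, ψ y * ((- N y : ℤ) : ℝ) = - (ψ y * (N y : ℝ)) := by
      intro y; push_cast; ring
    simp only [e1]
    rw [integral_neg, ← h3, ← integral_neg]
    refine integral_congr_ae (Filter.Eventually.of_forall fun z => ?_)
    simp only [hdet]
    ring
  rw [hR]
  -- the function on the product
  set Ψ : ℝ × E n → ℝ := fun p => ψ (fun i => g p.2 i - if i = 0 then p.1 else 0) *
    Jc (Dm g p.2) 0 with hΨ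
  let e := MeasurableEquiv.piFinSuccAbove (fun _ : Fin (n + 1) => ℝ) 0
  have he : MeasurePreserving e volume volume :=
    volume_preserving_piFinSuccAbove (fun _ : Fin (n + 1) => ℝ) 0
  have he1 : ∀ z, e z = (z 0, vaT n z) := by
    intro z
    rfl
  have h4 : ∫ z in s, ψ (vaF g z) * Jc (Dm g (vaT n z)) 0 =
      ∫ p in (Ioo 0 T ×ˢ K : Set (ℝ × E n)), Ψ p := by
    have h5 := he.setIntegral_preimage_emb e.measurableEmbedding Ψ (Ioo 0 T ×ˢ K)
    have h6 : e ⁻¹' (Ioo 0 T ×ˢ K) = s := by
      ext z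
      simp only [mem_preimage, he1, mem_prod]
      rfl
    rw [h6] at h5
    rw [← h5]
    refine integral_congr_ae (Filter.Eventually.of_forall fun z => ?_)
    simp only [hΨ, he1]
    rfl
  rw [h4]
  have hΨi : Integrable Ψ ((volume.restrict (Ioo 0 T)).prod (volume.restrict K)) := by
    have h7 : Continuous (fun p : ℝ × E n => Jc (Dm g p.2) 0) := hJ.comp continuous_snd
    have h8 : IntegrableOn (fun p : ℝ × E n => Jc (Dm g p.2) 0) (Ioo 0 T ×ˢ K) := by
      have h7' : IntegrableOn (fun p : ℝ × E n => Jc (Dm g p.2) 0) (Icc 0 T ×ˢ K) :=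
        h7.continuousOn.integrableOn_compact (isCompact_Icc.prod hK)
      exact h7'.mono_set (prod_mono Ioo_subset_Icc_self le_rfl)
    have h9 : Measurable (fun p : ℝ × E n => ψ (fun i => g p.2 i - if i = 0 then p.1 else 0)) := by
      refine hψ.comp (measurable_pi_iff.2 fun i => ?_)
      refine Measurable.sub ?_ ?_
      · exact ((continuous_apply i).comp (hg.continuous.comp continuous_snd)).measurable
      · by_cases hi : i = 0
        · simpa [hi] using measurable_fst
        · simp [hi]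
    rw [Measure.prod_restrict]
    exact h8.bdd_mul h9.aestronglyMeasurable (Filter.Eventually.of_forall fun p => by
      rw [Real.norm_eq_abs]; exact hC _)
  rw [Measure.volume_eq_prod, ← Measure.prod_restrict, integral_prod_symm _ hΨi]

end H930.HS.XVertArea

namespace H930.HS

export XVertArea (vert_area)

end H930.HS
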