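import Pool.Agent.Helper930.HS.NullId
import Pool.Agent.Helper930.HS.VertArea

set_option autoImplicit false

open MeasureTheory Metric Set Filter Topology
open scoped ENNReal NNReal ContDiff

namespace H930.HS.XDegMap

open H930.BL



/-- smoothness of parametric integrals -/
theorem contDiff_param {m : ℕ} (k : ℕ) : ∀ (G : Type) [NormedAddCommGroup G] [NormedSpace ℝ G]
    [CompleteSpace G] (F : E m × ℝ → G), ContDiff ℝ ∞ F →
    ContDiff ℝ k (fun y => ∫ τ in (0:ℝ)..1, F (y, τ)) := by
  induction k with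
  | zero =>
    intro G _ _ _ F hF
    rw [Nat.cast_zero, contDiff_zero]
    exact intervalIntegral.continuous_parametric_intervalIntegral_of_continuous'
      (f := fun y τ => F (y, τ)) hF.continuous 0 1
  | succ k ih =>
    intro G _ _ _ F hF
    have hF' : ContDiff ℝ ∞ (fun p : E m × ℝ => (fderiv ℝ F p).comp
        (ContinuousLinearMap.inl ℝ (E m) ℝ)) := by
      have h1 : ContDiff ℝ ∞ (fderiv ℝ F) := hF.fderiv_right (m := ∞) (by norm_cast)
      exact h1.clm_comp contDiff_const
    have h2 := ih (E m →L[ℝ] G) _ hF'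
    push_cast
    rw [contDiff_succ_iff_hasFDerivAt]
    refine ⟨_, h2, fun y0 => ?_⟩
    have hcomp : IsCompact (closedBall y0 1 ×ˢ Icc (0:ℝ) 1) :=
      (isCompact_closedBall y0 1).prod isCompact_Icc
    obtain ⟨C, hC⟩ := hcomp.exists_bound_of_continuousOn hF'.continuous.continuousOn
    refine intervalIntegral.hasFDerivAt_integral_of_dominated_of_fderiv_le
      (s := closedBall y0 1) (bound := fun _ => C) (F := fun y τ => F (y, τ))
      (F' := fun y τ => (fderiv ℝ F (y, τ)).comp (ContinuousLinearMap.inl ℝ (E m) ℝ))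
      (closedBall_mem_nhds y0 one_pos) ?_ ?_ ?_ ?_ ?_ ?_
    · refine Eventually.of_forall fun y => ?_
      exact (hF.continuous.comp (by fun_prop)).aestronglyMeasurable
    · exact (hF.continuous.comp (by fun_prop)).intervalIntegrable _ _
    · exact (hF'.continuous.comp (by fun_prop : Continuous fun τ : ℝ => (y0, τ))).aestronglyMeasurable
    · refine Eventually.of_forall fun τ hτ y hy => ?_
      refine hC (y, τ) ⟨hy, ?_⟩
      rw [uIoc_of_le zero_le_one] at hτ
      exact ⟨hτ.1.le, hτ.2⟩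
    · exact intervalIntegrable_const
    · refine Eventually.of_forall fun τ hτ y hy => ?_
      have h3 : HasFDerivAt F (fderiv ℝ F (y, τ)) (y, τ) :=
        (hF.differentiable (by simp) (y, τ)).hasFDerivAt
      exact h3.comp y (hasFDerivAt_prodMk_left y τ)

theorem upd_eq {m : ℕ} (y : E m) (b : Fin m) (s : ℝ) :
    Function.update y b s = y + (s - y b) • (Pi.single b (1:ℝ) : E m) := by
  funext i
  by_cases h : i = b
  · subst h; simp
  · simp [h]

/-- antiderivative in the direction `b` -/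
noncomputable def an {m : ℕ} (b : Fin m) (s0 : ℝ) (ζ : E m → ℝ) (y : E m) : ℝ :=
  ∫ s in s0..(y b), ζ (Function.update y b s)

theorem an_contDiff {m : ℕ} (b : Fin m) (s0 : ℝ) {ζ : E m → ℝ} (hζ : ContDiff ℝ ∞ ζ) :
    ContDiff ℝ ∞ (an b s0 ζ) := by
  have h1 : an b s0 ζ = fun y => (y b - s0) * ∫ τ in (0:ℝ)..1,
      (fun p : E m × ℝ => ζ (p.1 + ((p.1 b - s0) * p.2 + s0 - p.1 b) •
        (Pi.single b (1:ℝ) : E m))) (y, τ) := by
    funext y
    have h2 := intervalIntegral.smul_integral_comp_mul_add (a := 0) (b := 1)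
      (fun s => ζ (Function.update y b s)) (y b - s0) s0
    rw [mul_zero, zero_add, mul_one, sub_add_cancel] at h2
    unfold an
    rw [← h2, smul_eq_mul]
    congr 1
    refine intervalIntegral.integral_congr fun τ _ => ?_
    simp only [upd_eq]
  rw [h1]
  have h3 : ContDiff ℝ ∞ (fun p : E m × ℝ => ζ (p.1 + ((p.1 b - s0) * p.2 + s0 - p.1 b) •
        (Pi.single b (1:ℝ) : E m))) := by
    refine hζ.comp ?_
    have h4 : ContDiff ℝ ∞ (fun p : E m × ℝ => p.1 b) :=
      (contDiff_apply ℝ ℝ b).comp contDiff_fst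
    have h5 : ContDiff ℝ ∞ (fun p : E m × ℝ => (p.1 b - s0) * p.2 + s0 - p.1 b) :=
      (((h4.sub contDiff_const).mul contDiff_snd).add contDiff_const).sub h4
    exact contDiff_fst.add (h5.smul contDiff_const)
  refine ContDiff.mul ?_ ?_
  · exact (contDiff_apply ℝ ℝ b).sub contDiff_const
  · rw [contDiff_infty]
    intro k
    exact contDiff_param k ℝ _ h3

theorem line_deriv {m : ℕ} {η : E m → ℝ} (hη : Differentiable ℝ η) (b : Fin m) (y : E m) (t : ℝ) :
    HasDerivAt (fun t => η (y + t • (Pi.single b (1:ℝ) : E m)))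
      (pd η b (y + t • (Pi.single b (1:ℝ) : E m))) t := by
  have h1 : HasDerivAt (fun t : ℝ => y + t • (Pi.single b (1:ℝ) : E m))
      (Pi.single b (1:ℝ) : E m) t := by
    have := ((hasDerivAt_id t).smul_const (Pi.single b (1:ℝ) : E m)).const_add y
    simpa using this
  exact (hη _).hasFDerivAt.comp_hasDerivAt t h1

theorem an_pd {m : ℕ} (b : Fin m) (s0 : ℝ) {ζ : E m → ℝ} (hζ : ContDiff ℝ ∞ ζ) (y : E m) :
    pd (an b s0 ζ) b y = ζ y := by
  have hd : Differentiable ℝ (an b s0 ζ) := (an_contDiff b s0 hζ).differentiable (by simp)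
  have h1 := line_deriv hd b y 0
  rw [zero_smul, add_zero] at h1
  have h2 : (fun t : ℝ => an b s0 ζ (y + t • (Pi.single b (1:ℝ) : E m))) =
      fun t => ∫ s in s0..(y b + t), ζ (Function.update y b s) := by
    funext t
    unfold an
    have e1 : (y + t • (Pi.single b (1:ℝ) : E m)) b = y b + t := by simp
    rw [e1]
    refine intervalIntegral.integral_congr fun s _ => ?_
    congr 1
    funext i
    by_cases h : i = b
    · subst h; simp
    · simp [h]
  rw [h2] at h1
  have hc : Continuous (fun s => ζ (Function.update y b s)) :=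
    hζ.continuous.comp (continuous_const.update b continuous_id)
  have h3 : HasDerivAt (fun u => ∫ s in s0..u, ζ (Function.update y b s))
      (ζ (Function.update y b (y b))) (y b) :=
    intervalIntegral.integral_hasDerivAt_right (hc.intervalIntegrable _ _)
      (hc.stronglyMeasurableAtFilter _ _) hc.continuousAt
  rw [Function.update_eq_self] at h3
  have h4 : HasDerivAt (fun t => ∫ s in s0..(y b + t), ζ (Function.update y b s)) (ζ y) 0 := by
    have h5 : HasDerivAt (fun t : ℝ => y b + t) 1 0 := by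
      simpa using (hasDerivAt_id (0:ℝ)).const_add (y b)
    have h6 : HasDerivAt (fun u => ∫ s in s0..u, ζ (Function.update y b s))
      (ζ y) (y b + 0) := by rw [add_zero]; exact h3
    have h7 := h6.comp (0:ℝ) h5
    rw [mul_one] at h7
    exact h7
  exact h1.unique h4

theorem pd_zero_of_inv {m : ℕ} {η : E m → ℝ} (hη : Differentiable ℝ η) (b : Fin m)
    (h : ∀ y (t : ℝ), η (y + t • (Pi.single b (1:ℝ) : E m)) = η y) (y : E m) : pd η b y = 0 := by
  have h1 := line_deriv hη b y 0
  rw [zero_smul, add_zero] at h1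
  have h2 : (fun t : ℝ => η (y + t • (Pi.single b (1:ℝ) : E m))) = fun _ => η y :=
    funext fun t => h y t
  rw [h2] at h1
  exact h1.unique (hasDerivAt_const _ _)

theorem pd_contDiff {m : ℕ} {η : E m → ℝ} (hη : ContDiff ℝ ∞ η) (b : Fin m) :
    ContDiff ℝ ∞ (pd η b) := by
  unfold pd
  exact (hη.fderiv_right (m := ∞) (by norm_cast)).clm_apply contDiff_const

theorem pd_comm {m : ℕ} {η : E m → ℝ} (hη : ContDiff ℝ ∞ η) (a b : Fin m) (y : E m) :
    pd (pd η a) b y = pd (pd η b) a y := by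
  have hd : DifferentiableAt ℝ (fderiv ℝ η) y :=
    ((hη.fderiv_right (m := 1) (by norm_cast)).differentiable (by simp)) y
  have key : ∀ c d : Fin m, pd (pd η c) d y =
      fderiv ℝ (fderiv ℝ η) y (Pi.single d 1) (Pi.single c 1) := by
    intro c d
    have h1 : HasFDerivAt (pd η c) ((ContinuousLinearMap.apply ℝ ℝ (Pi.single c (1:ℝ) : E m)).comp
        (fderiv ℝ (fderiv ℝ η) y)) y :=
      (ContinuousLinearMap.apply ℝ ℝ (Pi.single c (1:ℝ) : E m)).hasFDerivAt.comp y hd.hasFDerivAt
    unfold pd at h1 ⊢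
    rw [h1.fderiv]
    rfl
  rw [key, key]
  have hs : IsSymmSndFDerivAt ℝ η y :=
    (hη.contDiffAt (x := y)).isSymmSndFDerivAt (by
      rw [minSmoothness_of_isRCLikeNormedField]
      have h2 : ((2:ℕ∞) : ℕ∞ω) ≤ ((⊤ : ℕ∞) : ℕ∞ω) := WithTop.coe_le_coe.2 le_top
      exact h2)
  exact hs _ _

theorem sh_eq {n : ℕ} (y : E (n + 1)) (t : ℝ) :
    (fun i => y i - if i = 0 then t else 0) = y + (-t) • (Pi.single 0 (1:ℝ) : E (n + 1)) := by
  funext i
  by_cases h : i = 0
  · subst h; simp [sub_eq_add_neg]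
  · simp [h]

theorem ftc {n : ℕ} {A : E (n + 1) → ℝ} (hA : ContDiff ℝ ∞ A) (y : E (n + 1)) {T : ℝ}
    (hT : 0 ≤ T) : ∫ t in Ioo 0 T, pd A 0 (fun i => y i - if i = 0 then t else 0) =
      A y - A (fun i => y i - if i = 0 then T else 0) := by
  rw [← integral_Ioc_eq_integral_Ioo, ← intervalIntegral.integral_of_le hT]
  have hd : Differentiable ℝ A := hA.differentiable (by simp)
  have h1 : ∀ t ∈ uIcc 0 T, HasDerivAt (fun t => - A (fun i => y i - if i = 0 then t else 0))
      (pd A 0 (fun i => y i - if i = 0 then t else 0)) t := by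
    intro t _
    have h2 := line_deriv hd 0 y (-t)
    have h3 : HasDerivAt (fun t : ℝ => -t) (-1) t := hasDerivAt_neg t
    have h4 := (h2.comp t h3).neg
    simp only [sh_eq]
    have h5 : -(pd A 0 (y + (-t) • (Pi.single 0 (1:ℝ) : E (n + 1))) * -1) =
      pd A 0 (y + (-t) • (Pi.single 0 (1:ℝ) : E (n + 1))) := by ring
    rw [h5] at h4
    exact h4
  have hc : Continuous (fun t : ℝ => pd A 0 (fun i => y i - if i = 0 then t else 0)) := by
    simp only [sh_eq]
    exact (pd_contDiff hA 0).continuous.comp (by fun_prop)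
  rw [intervalIntegral.integral_eq_sub_of_hasDerivAt h1 (hc.intervalIntegrable _ _)]
  have h6 : (fun i : Fin (n + 1) => y i - if i = 0 then (0:ℝ) else 0) = y := by
    funext i; simp
  rw [h6]
  ring

section main
variable {n : ℕ} {g : E n → E (n + 1)} {c : E (n + 1)} {K : Set (E n)}

theorem Jc_off (hn : 2 ≤ n) (hK : IsCompact K) (hc : ∀ x, x ∉ K → g x = c) (a : Fin (n + 1))
    {x : E n} (hx : x ∉ K) : Jc (Dm g x) a = 0 := by
  have h1 : Dm g x = 0 := by
    ext i j
    unfold Dm pd
    have h2 : (fun y => g y i) =ᶠ[𝓝 x] fun _ => c i := by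
      filter_upwards [hK.isClosed.isOpen_compl.mem_nhds hx] with y hy
      rw [hc y hy]
    simp only [Matrix.of_apply, Matrix.zero_apply]
    rw [h2.fderiv_eq]
    simp
  have : Nonempty (Fin n) := ⟨⟨0, by omega⟩⟩
  unfold Jc
  rw [h1]
  have h3 : (0 : Matrix (Fin (n + 1)) (Fin n) ℝ).submatrix a.succAbove id = 0 := rfl
  rw [h3, Matrix.det_zero, mul_zero]

theorem cont_J (hg : ContDiff ℝ ∞ g) (a : Fin (n + 1)) : Continuous (fun x => Jc (Dm g x) a) := by
  unfold Jc
  refine continuous_const.mul (Continuous.matrix_det ?_)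
  refine continuous_matrix fun i j => ?_
  simp only [Matrix.submatrix_apply, Dm, Matrix.of_apply, id]
  have h1 : ContDiff ℝ ∞ (fun y => g y (a.succAbove i)) := contDiff_pi.1 hg _
  exact (pd_contDiff h1 j).continuous

theorem int_J (hn : 2 ≤ n) (hg : ContDiff ℝ ∞ g) (hK : IsCompact K)
    (hc : ∀ x, x ∉ K → g x = c) (a : Fin (n + 1)) {f : E n → ℝ} (hf : Continuous f) :
    Integrable (fun x => f x * Jc (Dm g x) a) := by
  refine (hf.mul (cont_J hg a)).integrable_of_hasCompactSupport ?_
  refine HasCompactSupport.intro hK fun x hx => ?_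
  show f x * Jc (Dm g x) a = 0
  rw [Jc_off hn hK hc a hx, mul_zero]

theorem int_K (hn : 2 ≤ n) (hK : IsCompact K)
    (hc : ∀ x, x ∉ K → g x = c) (a : Fin (n + 1)) (f : E n → ℝ) :
    ∫ x in K, f x * Jc (Dm g x) a = ∫ x, f x * Jc (Dm g x) a := by
  apply setIntegral_eq_integral_of_forall_compl_eq_zero
  intro x hx
  rw [Jc_off hn hK hc a hx, mul_zero]

theorem null' (hn : 2 ≤ n) (hg : ContDiff ℝ ∞ g) (hK : IsCompact K)
    (hc : ∀ x, x ∉ K → g x = c) {η : E (n + 1) → ℝ} (hη : ContDiff ℝ ∞ η) (a : Fin (n + 1))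
    (ha : a ≠ 0) : ∫ x, pd η 0 (g x) * Jc (Dm g x) a = ∫ x, pd η a (g x) * Jc (Dm g x) 0 := by
  have h1 := null_id hn g hg c K hK hc η hη a ha
  rw [integral_sub] at h1
  · linarith
  · exact int_J hn hg hK hc a ((pd_contDiff hη 0).continuous.comp hg.continuous)
  · exact int_J hn hg hK hc 0 ((pd_contDiff hη a).continuous.comp hg.continuous)

theorem g_bdd (hg : ContDiff ℝ ∞ g) (hK : IsCompact K) (hc : ∀ x, x ∉ K → g x = c) :
    ∃ R : ℝ, 0 ≤ R ∧ ∀ x, ‖g x‖ ≤ R := by
  obtain ⟨C, hC⟩ := hK.exists_bound_of_continuousOn hg.continuous.continuousOn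
  refine ⟨max C ‖c‖, (norm_nonneg c).trans (le_max_right _ _), fun x => ?_⟩
  by_cases hx : x ∈ K
  · exact (hC x hx).trans (le_max_left _ _)
  · rw [hc x hx]; exact le_max_right _ _

/-- the layer -/
theorem layer (hn : 2 ≤ n) (hg : ContDiff ℝ ∞ g) (hK : IsCompact K)
    (hc : ∀ x, x ∉ K → g x = c) {R : ℝ} (hR0 : 0 ≤ R) (hR : ∀ x, ‖g x‖ ≤ R)
    {N : E (n + 1) → ℤ} (hNi : Integrable (fun y => (N y : ℝ)))
    (hN : ∀ ψ : E (n + 1) → ℝ, Measurable ψ → (∃ C : ℝ, ∀ y, |ψ y| ≤ C) →
        ∫ x in K, ∫ t in Ioo 0 (2 * R + 2), ψ (fun i => g x i - if i = 0 then t else 0) *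
          Jc (Dm g x) 0 = ∫ y, ψ y * N y) :
    ∀ᵐ y : E (n + 1), y ∈ {y : E (n + 1) | -R - 2 < y 0 ∧ y 0 < -R} → (N y : ℝ) = 0 := by
  have hg0 : ∀ x, -R ≤ g x 0 ∧ g x 0 ≤ R := fun x =>
    abs_le.1 ((norm_le_pi_norm (g x) 0).trans (hR x))
  have hL : IsOpen {y : E (n + 1) | -R - 2 < y 0 ∧ y 0 < -R} := by
    apply IsOpen.inter
    · exact isOpen_lt continuous_const (continuous_apply 0)
    · exact isOpen_lt (continuous_apply 0) continuous_const
  refine hL.ae_eq_zero_of_integral_contDiff_smul_eq_zero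
    (hNi.locallyIntegrable.locallyIntegrableOn _) ?_
  intro ψ hψ hψc hψs
  have hψ0 : ∀ y : E (n + 1), (y 0 ≤ -R - 2 ∨ -R ≤ y 0) → ψ y = 0 := by
    intro y hy
    by_contra hne
    have h1 := hψs (subset_tsupport ψ hne)
    obtain ⟨h2, h3⟩ := h1
    rcases hy with hy | hy <;> linarith
  obtain ⟨B, hB⟩ := hψc.exists_bound_of_continuous hψ.continuous
  have h1 := hN ψ hψ.continuous.measurable ⟨B, fun y => hB y⟩
  simp only [smul_eq_mul]
  rw [← h1]
  -- the antiderivative
  have hA := an_contDiff (0 : Fin (n + 1)) (-R - 2) hψ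
  have hApd : pd (an (0 : Fin (n + 1)) (-R - 2) ψ) 0 = ψ := funext (an_pd 0 (-R - 2) hψ)
  have hAlow : ∀ y : E (n + 1), y 0 ≤ -R - 2 → an (0 : Fin (n + 1)) (-R - 2) ψ y = 0 := by
    intro y hy
    unfold an
    rw [intervalIntegral.integral_congr (g := fun _ => (0:ℝ)), intervalIntegral.integral_zero]
    intro s hs
    rw [uIcc_of_ge hy] at hs
    apply hψ0
    left
    rw [Function.update_self]
    exact hs.2
  have hAhigh : ∀ y : E (n + 1), -R ≤ y 0 → an (0 : Fin (n + 1)) (-R - 2) ψ y =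
      an (0 : Fin (n + 1)) (-R - 2) ψ (Function.update y 0 (-R)) := by
    intro y hy
    unfold an
    have hcont : Continuous (fun s => ψ (Function.update y 0 s)) :=
      hψ.continuous.comp (continuous_const.update 0 continuous_id)
    rw [← intervalIntegral.integral_add_adjacent_intervals (b := -R)
      (hcont.intervalIntegrable _ _) (hcont.intervalIntegrable _ _)]
    have h2 : ∫ s in (-R)..(y 0), ψ (Function.update y 0 s) = 0 := by
      rw [intervalIntegral.integral_congr (g := fun _ => (0:ℝ)), intervalIntegral.integral_zero]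
      intro s hs
      rw [uIcc_of_le hy] at hs
      apply hψ0
      right
      rw [Function.update_self]
      exact hs.1
    rw [h2, add_zero, Function.update_self]
    refine intervalIntegral.integral_congr fun s _ => ?_
    simp only [Function.update_idem]
  -- the function `Ψ`
  obtain ⟨Ψ, hΨdef⟩ : ∃ Ψ : E (n + 1) → ℝ, Ψ = fun y =>
    an (0 : Fin (n + 1)) (-R - 2) ψ (Function.update y 0 (-R)) := ⟨_, rfl⟩
  have hΨ : ContDiff ℝ ∞ Ψ := by
    rw [hΨdef]
    simp only [upd_eq]
    refine hA.comp ?_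
    exact contDiff_id.add ((contDiff_const.sub (contDiff_apply ℝ ℝ 0)).smul contDiff_const)
  have hΨinv : ∀ (y : E (n + 1)) (t : ℝ),
      Ψ (y + t • (Pi.single 0 (1:ℝ) : E (n + 1))) = Ψ y := by
    intro y t
    rw [hΨdef]
    beta_reduce
    congr 1
    funext i
    by_cases h : i = 0
    · subst h; simp
    · simp [h]
  have hinner : ∀ x, ∫ t in Ioo 0 (2 * R + 2), ψ (fun i => g x i - if i = 0 then t else 0) *
          Jc (Dm g x) 0 = Ψ (g x) * Jc (Dm g x) 0 := by
    intro x
    rw [integral_mul_const]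
    congr 1
    have h2 := ftc hA (g x) (T := 2 * R + 2) (by linarith)
    rw [hApd] at h2
    have h3 := hAlow (fun i => g x i - if i = 0 then 2 * R + 2 else 0) (by
      rw [if_pos rfl]
      linarith [(hg0 x).2])
    rw [h2, h3, sub_zero, hAhigh _ (hg0 x).1, hΨdef]
  simp only [hinner]
  rw [int_K hn hK hc 0 (fun x => Ψ (g x))]
  -- the second antiderivative
  have hb : (⟨1, by omega⟩ : Fin (n + 1)) ≠ 0 := by
    intro h
    have := congrArg Fin.val h
    simp at this
  obtain ⟨b, hbne⟩ : ∃ b : Fin (n + 1), b ≠ 0 := ⟨_, hb⟩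
  have hΞ := an_contDiff b 0 hΨ
  have hΞpd : pd (an b 0 Ψ) b = Ψ := funext (an_pd b 0 hΨ)
  have hΞinv : ∀ (y : E (n + 1)) (t : ℝ),
      an b 0 Ψ (y + t • (Pi.single 0 (1:ℝ) : E (n + 1))) = an b 0 Ψ y := by
    intro y t
    unfold an
    have e1 : (y + t • (Pi.single 0 (1:ℝ) : E (n + 1))) b = y b := by simp [hbne]
    rw [e1]
    refine intervalIntegral.integral_congr fun s _ => ?_
    rw [← hΨinv (Function.update y b s) t]
    congr 1
    funext i
    by_cases h : i = b
    · subst h; simp [hbne]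
    · simp [h]
  have hΞ0 : ∀ y, pd (an b 0 Ψ) 0 y = 0 :=
    pd_zero_of_inv (hΞ.differentiable (by simp)) 0 hΞinv
  have h3 := null' hn hg hK hc hΞ b hbne
  rw [hΞpd] at h3
  simp only [hΞ0, zero_mul, integral_zero] at h3
  exact h3.symm

end main

theorem deg_map {n : ℕ} (hn : 2 ≤ n) (g : E n → E (n + 1)) (hg : ContDiff ℝ ∞ g) (c : E (n + 1))
    (K : Set (E n)) (hK : IsCompact K) (hc : ∀ x, x ∉ K → g x = c) :
    ∃ d : E (n + 1) → ℝ, Integrable d ∧ (∀ y, ∃ k : ℤ, d y = k) ∧
      (∃ R : ℝ, ∀ y, R < ‖y‖ → d y = 0) ∧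
      ∀ ζ : E (n + 1) → ℝ, ContDiff ℝ ∞ ζ → ∀ a,
        ∫ x, ζ (g x) * Jc (Dm g x) a = ∫ y, d y * pd ζ a y := by
  obtain ⟨R, hR0, hR⟩ := g_bdd hg hK hc
  obtain ⟨N, hNm, hNi, hN⟩ := vert_area g hg K hK (2 * R + 2)
  have hgi : ∀ x i, -R ≤ g x i ∧ g x i ≤ R := fun x i =>
    abs_le.1 ((norm_le_pi_norm (g x) i).trans (hR x))
  have hL := layer hn hg hK hc hR0 hR hNi hN
  -- `N` vanishes above and beside
  have hS : ∀ᵐ y : E (n + 1), y ∈ {y : E (n + 1) | R < y 0 ∨ ∃ i, i ≠ 0 ∧ R < |y i|} →
      (N y : ℝ) = 0 := by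
    have hSm : MeasurableSet {y : E (n + 1) | R < y 0 ∨ ∃ i, i ≠ 0 ∧ R < |y i|} := by
      have e1 : {y : E (n + 1) | R < y 0 ∨ ∃ i, i ≠ 0 ∧ R < |y i|} =
          {y : E (n + 1) | R < y 0} ∪ ⋃ i : Fin (n + 1), ⋃ _ : i ≠ 0,
            {y : E (n + 1) | R < |y i|} := by
        ext y
        simp
      rw [e1]
      refine (measurableSet_lt measurable_const (measurable_pi_apply 0)).union ?_
      refine MeasurableSet.iUnion fun i => MeasurableSet.iUnion fun _ => ?_
      exact measurableSet_lt measurable_const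
        (continuous_abs.comp (continuous_apply i) : Continuous fun y : E (n + 1) => |y i|).measurable
    set S1 := {y : E (n + 1) | R < y 0 ∨ ∃ i, i ≠ 0 ∧ R < |y i|} with hS1
    have hsgn : Measurable (fun y => if 0 ≤ N y then (1:ℝ) else -1) :=
      Measurable.ite (measurableSet_le measurable_const hNm) measurable_const measurable_const
    have h1 := hN (S1.indicator (fun y => if 0 ≤ N y then (1:ℝ) else -1))
      (hsgn.indicator hSm) ⟨1, fun y => by
        by_cases hy : y ∈ S1
        · rw [indicator_of_mem hy]; split_ifs <;> simp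
        · rw [indicator_of_notMem hy]; simp⟩
    have h2 : ∀ x, ∫ t in Ioo 0 (2 * R + 2), S1.indicator (fun y => if 0 ≤ N y then (1:ℝ) else -1)
        (fun i => g x i - if i = 0 then t else 0) * Jc (Dm g x) 0 = 0 := by
      intro x
      refine setIntegral_eq_zero_of_forall_eq_zero fun t ht => ?_
      rw [indicator_of_notMem, zero_mul]
      rintro (h3 | ⟨i, hi, h3⟩)
      · simp only [if_true] at h3
        linarith [(hgi x 0).2, ht.1]
      · simp only [if_neg hi, sub_zero] at h3
        have := abs_le.2 (hgi x i)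
        linarith
    simp only [h2, integral_zero] at h1
    have h3 : (fun y => S1.indicator (fun y => if 0 ≤ N y then (1:ℝ) else -1) y * (N y : ℝ)) =
        S1.indicator (fun y => |(N y : ℝ)|) := by
      funext y
      by_cases hy : y ∈ S1
      · rw [indicator_of_mem hy, indicator_of_mem hy]
        split_ifs with h4
        · rw [one_mul, abs_of_nonneg (by exact_mod_cast h4)]
        · rw [abs_of_neg (by exact_mod_cast not_le.1 h4)]; ring
      · rw [indicator_of_notMem hy, indicator_of_notMem hy, zero_mul]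
    rw [h3] at h1
    have h4 : Integrable (S1.indicator (fun y => |(N y : ℝ)|)) := hNi.abs.indicator hSm
    have h5 := (integral_eq_zero_iff_of_nonneg (fun y => indicator_nonneg
      (fun _ _ => abs_nonneg _) y) h4).1 h1.symm
    filter_upwards [h5] with y hy hyS
    rw [indicator_of_mem hyS] at hy
    exact abs_eq_zero.1 hy
  -- the density
  obtain ⟨d, hd⟩ : ∃ d : E (n + 1) → ℝ, d = (closedBall (0 : E (n + 1)) (R + 1)).indicator
    (fun y => (N y : ℝ)) := ⟨_, rfl⟩
  -- the formula for `a = 0`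
  have h0 : ∀ ζ : E (n + 1) → ℝ, ContDiff ℝ ∞ ζ →
      ∫ x, ζ (g x) * Jc (Dm g x) 0 = ∫ y, d y * pd ζ 0 y := by
    intro ζ hζ
    let κ : ContDiffBump (0 : E (n + 1)) := ⟨R + 3, R + 4, by linarith, by linarith⟩
    obtain ⟨χ, hχdef⟩ : ∃ χ : E (n + 1) → ℝ, χ = fun y =>
      Real.smoothTransition (2 * (y 0 + R + 3/2)) := ⟨_, rfl⟩
    have hχ : ContDiff ℝ ∞ χ := by
      rw [hχdef]
      refine Real.smoothTransition.contDiff.comp ?_
      exact contDiff_const.mul (((contDiff_apply ℝ ℝ 0).add contDiff_const).add contDiff_const)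
    have hχ1 : ∀ y : E (n + 1), -R - 1 ≤ y 0 → χ y = 1 := by
      intro y hy
      rw [hχdef]
      exact Real.smoothTransition.one_of_one_le (by linarith)
    have hχ0 : ∀ y : E (n + 1), y 0 ≤ -R - 3/2 → χ y = 0 := by
      intro y hy
      rw [hχdef]
      exact Real.smoothTransition.zero_of_nonpos (by linarith)
    obtain ⟨ζ', hζ'def⟩ : ∃ ζ' : E (n + 1) → ℝ, ζ' = fun y => ζ y * χ y * κ y := ⟨_, rfl⟩
    have hζ' : ContDiff ℝ ∞ ζ' := by
      rw [hζ'def]
      exact (hζ.mul hχ).mul κ.contDiff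
    have hζ'c : HasCompactSupport ζ' := by
      rw [hζ'def]
      exact κ.hasCompactSupport.mul_left
    have hpc : HasCompactSupport (pd ζ' 0) := by
      refine HasCompactSupport.of_support_subset_isCompact hζ'c ?_
      intro y hy
      by_contra hcon
      exact hy (pd_eq_zero_of_notMem hcon 0)
    obtain ⟨B, hB⟩ := hpc.exists_bound_of_continuous (pd_contDiff hζ' 0).continuous
    have h1 := hN (pd ζ' 0) (pd_contDiff hζ' 0).continuous.measurable ⟨B, hB⟩
    have hinner : ∀ x, ∫ t in Ioo 0 (2 * R + 2), pd ζ' 0 (fun i => g x i - if i = 0 then t else 0) *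
          Jc (Dm g x) 0 = ζ (g x) * Jc (Dm g x) 0 := by
      intro x
      rw [integral_mul_const]
      congr 1
      have h2 := ftc hζ' (g x) (T := 2 * R + 2) (by linarith)
      have h3 : ζ' (fun i => g x i - if i = 0 then 2 * R + 2 else 0) = 0 := by
        rw [hζ'def]
        beta_reduce
        rw [hχ0, mul_zero, zero_mul]
        rw [if_pos rfl]
        linarith [(hgi x 0).2]
      have h5 : ζ' (g x) = ζ (g x) := by
        rw [hζ'def]
        beta_reduce
        rw [hχ1 (g x) (by linarith [(hgi x 0).1]), κ.one_of_mem_closedBall, mul_one, mul_one]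
        rw [mem_closedBall_zero_iff]
        exact (hR x).trans (by show R ≤ R + 3; linarith)
      rw [h2, h3, h5, sub_zero]
    simp only [hinner] at h1
    rw [int_K hn hK hc 0 (fun x => ζ (g x))] at h1
    rw [h1]
    apply integral_congr_ae
    filter_upwards [hL, hS] with y hy1 hy2
    by_cases hNy : (N y : ℝ) = 0
    · rw [hNy, mul_zero, hd]
      by_cases hyb : y ∈ closedBall (0 : E (n + 1)) (R + 1)
      · rw [indicator_of_mem hyb, hNy, zero_mul]
      · rw [indicator_of_notMem hyb, zero_mul]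
    · have hy1' : ¬ (-R - 2 < y 0 ∧ y 0 < -R) := fun h => hNy (hy1 h)
      have hy2' : ¬ (R < y 0 ∨ ∃ i, i ≠ 0 ∧ R < |y i|) := fun h => hNy (hy2 h)
      push Not at hy2'
      obtain ⟨hy3, hy4⟩ := hy2'
      by_cases hy0 : -R ≤ y 0
      · have hyn : ‖y‖ ≤ R := by
          rw [pi_norm_le_iff_of_nonneg hR0]
          intro i
          by_cases hi : i = 0
          · rw [hi, Real.norm_eq_abs, abs_le]
            exact ⟨hy0, hy3⟩
          · exact hy4 i hi
        have hyb : y ∈ closedBall (0 : E (n + 1)) (R + 1) := by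
          rw [mem_closedBall_zero_iff]; linarith
        rw [hd, indicator_of_mem hyb, mul_comm]
        congr 1
        have hev : ζ' =ᶠ[𝓝 y] ζ := by
          have e1 : IsOpen {z : E (n + 1) | -R - 1 < z 0} :=
            isOpen_lt continuous_const (continuous_apply 0)
          filter_upwards [e1.mem_nhds (show -R - 1 < y 0 by linarith),
            isOpen_ball.mem_nhds (show y ∈ ball (0 : E (n + 1)) (R + 3) by
              rw [mem_ball_zero_iff]; linarith)] with z hz1 hz2
          rw [hζ'def]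
          beta_reduce
          rw [hχ1 z (le_of_lt hz1), κ.one_of_mem_closedBall (ball_subset_closedBall hz2), mul_one,
            mul_one]
        unfold pd
        rw [hev.fderiv_eq]
      · push Not at hy0
        have hy5 : y 0 ≤ -R - 2 := by
          by_contra hcon
          exact hy1' ⟨not_le.1 hcon, hy0⟩
        have hyb : y ∉ closedBall (0 : E (n + 1)) (R + 1) := by
          intro h2
          rw [mem_closedBall_zero_iff] at h2
          have h3 := (norm_le_pi_norm y 0).trans h2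
          rw [Real.norm_eq_abs, abs_le] at h3
          linarith [h3.1]
        rw [hd, indicator_of_notMem hyb, zero_mul]
        have hev : ζ' =ᶠ[𝓝 y] fun _ => 0 := by
          have e1 : IsOpen {z : E (n + 1) | z 0 < -R - 3/2} :=
            isOpen_lt (continuous_apply 0) continuous_const
          filter_upwards [e1.mem_nhds (show y 0 < -R - 3/2 by linarith)] with z hz
          rw [hζ'def]
          beta_reduce
          rw [hχ0 z (le_of_lt hz), mul_zero, zero_mul]
        unfold pd
        rw [hev.fderiv_eq]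
        simp
  refine ⟨d, ?_, ?_, ⟨R + 1, ?_⟩, ?_⟩
  · rw [hd]
    exact hNi.indicator measurableSet_closedBall
  · intro y
    rw [hd]
    by_cases hyb : y ∈ closedBall (0 : E (n + 1)) (R + 1)
    · exact ⟨N y, indicator_of_mem hyb _⟩
    · exact ⟨0, by rw [indicator_of_notMem hyb]; simp⟩
  · intro y hy
    rw [hd, indicator_of_notMem]
    rw [mem_closedBall_zero_iff]
    exact not_le.2 hy
  · intro ζ hζ a
    by_cases ha : a = 0
    · rw [ha]; exact h0 ζ hζ
    · have hη := an_contDiff (0 : Fin (n + 1)) 0 hζ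
      have hηpd : pd (an (0 : Fin (n + 1)) 0 ζ) 0 = ζ := funext (an_pd 0 0 hζ)
      have h1 := null' hn hg hK hc hη a ha
      rw [hηpd] at h1
      rw [h1, h0 _ (pd_contDiff hη a)]
      refine integral_congr_ae (Eventually.of_forall fun y => ?_)
      beta_reduce
      rw [pd_comm hη a 0, hηpd]

end H930.HS.XDegMap

namespace H930.HS

export XDegMap (deg_map)

end H930.HS
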