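import Pool.Agent.Helper930.HS.PcDer

set_option autoImplicit false

open MeasureTheory Metric Set Filter Topology
open scoped ENNReal NNReal ContDiff

namespace H930.HS.XDlF

open H930.BL



lemma meas_s_aux {n : ℕ} (Q : Bx n) : MeasurableSet Q.s := by
  have : Q.s = ⋂ i, {x | Q.a i ≤ x i ∧ x i < Q.b i} := by ext x; simp [Bx.s]
  rw [this]
  refine MeasurableSet.iInter fun i => ?_
  exact (measurableSet_le measurable_const (measurable_pi_apply i)).inter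
    (measurableSet_lt (measurable_pi_apply i) measurable_const)

lemma meas_Rg_aux {n : ℕ} (ch : Bx n → Finset (Bx n)) (Q : Bx n) : MeasurableSet (Rg ch Q) := by
  have : Rg ch Q = Q.s \ ⋃ κ ∈ ch Q, κ.s := by
    ext x; simp [Rg]
  rw [this]
  exact (meas_s_aux Q).diff (Finset.measurableSet_biUnion _ fun κ _ => meas_s_aux κ)

lemma Rg_sub_aux {n : ℕ} (ch : Bx n → Finset (Bx n)) (Q : Bx n) : Rg ch Q ⊆ Q.s :=
  fun _ hx => hx.1

lemma intOn_s_aux {n : ℕ} (Q : Bx n) {F : E n → ℝ} (hF : Continuous F) :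
    IntegrableOn F Q.s := by
  have h1 : IntegrableOn F (Icc Q.a Q.b) := hF.continuousOn.integrableOn_compact isCompact_Icc
  refine h1.mono_set fun x hx => ⟨fun i => (hx i).1, fun i => (hx i).2.le⟩

lemma cont_Jc_aux {n : ℕ} {w : E n → E (n + 1)} (hw : ContDiff ℝ ∞ w) (a : Fin (n + 1)) :
    Continuous fun x => Jc (Dm w x) a := by
  have h1 : ∀ i j, Continuous fun x => Dm w x i j := by
    intro i j
    have : ContDiff ℝ 1 (fun y => w y i) := ((contDiff_pi.1 hw) i).of_le (by norm_cast)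
    exact continuous_pd this j
  unfold Jc
  refine continuous_const.mul ?_
  refine Continuous.matrix_det ?_
  refine continuous_matrix fun i j => ?_
  exact h1 _ _

lemma cont_qs_aux {m : ℕ} (c : E m) : Continuous (qs c) := by
  unfold qs
  exact continuous_finsetSum _ fun a _ => ((continuous_apply a).sub continuous_const).pow 2

lemma qs_nonneg_aux {m : ℕ} (c y : E m) : 0 ≤ qs c y :=
  Finset.sum_nonneg fun _ _ => sq_nonneg _

lemma Pc_id_aux {m : ℕ} {c y : E m} (h : 1 / 64 ≤ qs c y) : Pc c y = y := by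
  funext a
  unfold Pc
  rw [Real.smoothTransition.one_of_one_le (by linarith)]
  ring

lemma qs_Pc_aux {m : ℕ} (c y : E m) : qs c (Pc c y) ≤ qs c y := by
  unfold qs
  refine Finset.sum_le_sum fun a _ => ?_
  unfold Pc
  set σ := Real.smoothTransition ((256 * qs c y - 1) / 3) with hσ
  have h0 : 0 ≤ σ := Real.smoothTransition.nonneg _
  have h1 : σ ≤ 1 := Real.smoothTransition.le_one _
  have : (c a + σ * (y a - c a) - c a) ^ 2 = σ ^ 2 * (y a - c a) ^ 2 := by ring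
  rw [this]
  have h2 : σ ^ 2 ≤ 1 := by nlinarith
  nlinarith [sq_nonneg (y a - c a)]

lemma Dm_eq_aux {n : ℕ} {u : E n → E (n + 1)} (hu : Continuous u) {c : E (n + 1)} {x : E n}
    (h : 1 / 64 < qs c (u x)) : Dm (fun z => Pc c (u z)) x = Dm u x := by
  have h1 : ∀ᶠ z in 𝓝 x, 1 / 64 < qs c (u z) :=
    ((cont_qs_aux c).comp hu).continuousAt.eventually (lt_mem_nhds h)
  ext i j
  simp only [Dm, Matrix.of_apply, pd]
  have h2 : (fun y => Pc c (u y) i) =ᶠ[𝓝 x] fun y => u y i := by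
    filter_upwards [h1] with z hz
    rw [Pc_id_aux hz.le]
  rw [h2.fderiv_eq]

/-- integrability of `d * pd ζ a` -/
lemma int_d_aux {n : ℕ} {u : E n → E (n + 1)} {ch : Bx n → Finset (Bx n)} {Q : Bx n}
    {d : E (n + 1) → ℝ} (hd : DegF u ch Q d) {ζ : E (n + 1) → ℝ} (hζ : ContDiff ℝ ∞ ζ)
    (a : Fin (n + 1)) : Integrable fun y => d y * pd ζ a y := by
  obtain ⟨R, hR⟩ := hd.bdd
  have hc : Continuous (pd ζ a) := continuous_pd (hζ.of_le (by norm_cast)) a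
  obtain ⟨C, hC⟩ := (isCompact_closedBall (0 : E (n + 1)) R).exists_bound_of_continuousOn
    hc.continuousOn
  refine (hd.int.norm.const_mul (max C 0)).mono' (hd.int.aestronglyMeasurable.mul
    hc.aestronglyMeasurable) (Eventually.of_forall fun y => ?_)
  by_cases hy : R < ‖y‖
  · simp [hR y hy]
  · have h1 := hC y (by simpa using hy)
    rw [norm_mul, mul_comm]
    exact mul_le_mul_of_nonneg_right (h1.trans (le_max_left _ _)) (norm_nonneg _)

lemma split_aux {n : ℕ} {u : E n → E (n + 1)} {P : Bx n → Prop}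
    {ch : Bx n → Finset (Bx n)} {rk : Bx n → ℕ} (h : Cells u P ch rk) {κ : Bx n} (hκ : P κ)
    {F : E n → ℝ} (hF : Continuous F) :
    ∫ x in Rg ch κ, F x = (∫ x in κ.s, F x) - ∑ κ' ∈ ch κ, ∫ x in κ'.s, F x := by
  have e : Rg ch κ = κ.s \ ⋃ κ' ∈ ch κ, κ'.s := by
    ext x; simp [Rg]
  rw [e, setIntegral_sdiff (Finset.measurableSet_biUnion _ fun κ _ => meas_s_aux κ)
    (intOn_s_aux κ hF) (Set.iUnion₂_subset fun κ' hκ' => h.chs κ hκ κ' hκ')]
  rw [integral_biUnion_finset _ (fun κ' _ => meas_s_aux κ')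
    (fun a ha b hb hab => h.disj κ hκ a ha b hb hab) (fun κ' _ => intOn_s_aux κ' hF)]

lemma node_aux {n : ℕ} {u : E n → E (n + 1)} {P : Bx n → Prop}
    {ch : Bx n → Finset (Bx n)} {rk : Bx n → ℕ} (h : Cells u P ch rk)
    {κ : Bx n} 
    (ζ : E (n + 1) → ℝ) (hζ : ContDiff ℝ ∞ ζ) (A : ℝ) (hA : ∀ y, |ζ y| ≤ A) (a : Fin (n + 1)) :
    |(∫ x in Rg ch κ, ζ (u x) * Jc (Dm u x) a) -
      ∫ x in Rg ch κ, ζ (Pc (u κ.a) (u x)) * Jc (Dm (fun z => Pc (u κ.a) (u z)) x) a| ≤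
      A * ∫ x in Nr u ch κ (1 / 64),
          (|Jc (Dm u x) a| + |Jc (Dm (fun z => Pc (u κ.a) (u z)) x) a|) := by
  have hA0 : 0 ≤ A := (abs_nonneg _).trans (hA 0)
  obtain ⟨C, _, hPc⟩ := Pc_der (n := n)
  have hP := (hPc u h.smooth (u κ.a)).1
  have c1 : Continuous fun x => ζ (u x) * Jc (Dm u x) a :=
    (hζ.continuous.comp h.smooth.continuous).mul (cont_Jc_aux h.smooth a)
  have c2 : Continuous fun x => ζ (Pc (u κ.a) (u x)) * Jc (Dm (fun z => Pc (u κ.a) (u z)) x) a :=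
    (hζ.continuous.comp hP.continuous).mul (cont_Jc_aux hP a)
  have hNr : MeasurableSet (Nr u ch κ (1 / 64)) := by
    refine (meas_Rg_aux ch κ).inter ?_
    exact (isClosed_le ((cont_qs_aux _).comp h.smooth.continuous) continuous_const).measurableSet
  have hsub : Nr u ch κ (1 / 64) ⊆ Rg ch κ := fun x hx => hx.1
  have i1 : IntegrableOn (fun x => ζ (u x) * Jc (Dm u x) a) (Rg ch κ) :=
    (intOn_s_aux κ c1).mono_set (Rg_sub_aux ch κ)
  have i2 : IntegrableOn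
      (fun x => ζ (Pc (u κ.a) (u x)) * Jc (Dm (fun z => Pc (u κ.a) (u z)) x) a) (Rg ch κ) :=
    (intOn_s_aux κ c2).mono_set (Rg_sub_aux ch κ)
  rw [← integral_sub i1 i2]
  have e : ∫ x in Rg ch κ, (ζ (u x) * Jc (Dm u x) a -
      ζ (Pc (u κ.a) (u x)) * Jc (Dm (fun z => Pc (u κ.a) (u z)) x) a) =
      ∫ x in Nr u ch κ (1 / 64), (ζ (u x) * Jc (Dm u x) a -
      ζ (Pc (u κ.a) (u x)) * Jc (Dm (fun z => Pc (u κ.a) (u z)) x) a) := by
    refine setIntegral_eq_of_subset_of_forall_sdiff_eq_zero (meas_Rg_aux ch κ) hsub ?_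
    intro x hx
    have hx2 : 1 / 64 < qs (u κ.a) (u x) := by
      by_contra hc
      exact hx.2 ⟨hx.1, not_lt.1 hc⟩
    rw [Dm_eq_aux h.smooth.continuous hx2, Pc_id_aux hx2.le, sub_self]
  rw [e, ← integral_const_mul, ← Real.norm_eq_abs]
  refine (norm_integral_le_of_norm_le (g := fun x => A * (|Jc (Dm u x) a| +
    |Jc (Dm (fun z => Pc (u κ.a) (u z)) x) a|)) ?_ ?_)
  · have c3 : Continuous fun x => A * (|Jc (Dm u x) a| +
        |Jc (Dm (fun z => Pc (u κ.a) (u z)) x) a|) :=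
      continuous_const.mul ((cont_Jc_aux h.smooth a).abs.add (cont_Jc_aux hP a).abs)
    exact (intOn_s_aux κ c3).mono_set (hsub.trans (Rg_sub_aux ch κ))
  · refine Eventually.of_forall fun x => ?_
    rw [Real.norm_eq_abs]
    refine (abs_sub _ _).trans ?_
    rw [abs_mul, abs_mul, mul_add]
    exact add_le_add (mul_le_mul_of_nonneg_right (hA _) (abs_nonneg _))
      (mul_le_mul_of_nonneg_right (hA _) (abs_nonneg _))

lemma main_aux {n : ℕ} {u : E n → E (n + 1)} {P : Bx n → Prop}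
    {ch : Bx n → Finset (Bx n)} {rk : Bx n → ℕ} (h : Cells u P ch rk)
    {d : Bx n → E (n + 1) → ℝ} (hd : ∀ Q, P Q → DegF u ch Q (d Q)) {Q : Bx n} (hQ : P Q)
    (ζ : E (n + 1) → ℝ) (hζ : ContDiff ℝ ∞ ζ) (A : ℝ) (hA : ∀ y, |ζ y| ≤ A) (a : Fin (n + 1)) :
    |∫ y, dl ch d Q y * pd ζ a y| ≤
      |∫ x in Rg ch Q, ζ (Pc (u Q.a) (u x)) * Jc (Dm (fun z => Pc (u Q.a) (u z)) x) a| +
        A * ∑ κ ∈ ch Q, ∫ x in Nr u ch κ (1 / 64),
          (|Jc (Dm u x) a| + |Jc (Dm (fun z => Pc (u κ.a) (u z)) x) a|) := by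
  have c1 : Continuous fun x => ζ (u x) * Jc (Dm u x) a :=
    (hζ.continuous.comp h.smooth.continuous).mul (cont_Jc_aux h.smooth a)
  have e1 : ∫ y, dl ch d Q y * pd ζ a y =
      (∫ y, d Q y * pd ζ a y) - ∑ κ ∈ ch Q, ∫ y, d κ y * pd ζ a y := by
    rw [← integral_finsetSum _ fun κ hκ => int_d_aux (hd κ (h.chP Q hQ κ hκ)) hζ a,
      ← integral_sub (int_d_aux (hd Q hQ) hζ a)
        (integrable_finsetSum _ fun κ hκ => int_d_aux (hd κ (h.chP Q hQ κ hκ)) hζ a)]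
    refine integral_congr_ae (Eventually.of_forall fun y => ?_)
    simp only [dl]
    rw [sub_mul, Finset.sum_mul]
  rw [e1, ← (hd Q hQ).form ζ hζ a]
  have e2 : ∑ κ ∈ ch Q, ∫ y, d κ y * pd ζ a y = ∑ κ ∈ ch Q,
      ((∫ x in Rg ch κ, ζ (Pc (u κ.a) (u x)) * Jc (Dm (fun z => Pc (u κ.a) (u z)) x) a) +
      ((∫ x in κ.s, ζ (u x) * Jc (Dm u x) a) - ∫ x in Rg ch κ, ζ (u x) * Jc (Dm u x) a)) := by
    refine Finset.sum_congr rfl fun κ hκ => ?_
    rw [← (hd κ (h.chP Q hQ κ hκ)).form ζ hζ a, split_aux h (h.chP Q hQ κ hκ) c1]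
    ring
  rw [e2, add_sub_assoc, ← Finset.sum_sub_distrib, Finset.mul_sum]
  refine (abs_add_le _ _).trans (add_le_add le_rfl ?_)
  refine (Finset.abs_sum_le_sum_abs _ _).trans (Finset.sum_le_sum fun κ hκ => ?_)
  refine le_trans (le_of_eq ?_) (node_aux h (κ := κ) ζ hζ A hA a)
  congr 1
  ring

theorem dl_form {n : ℕ} (hn : 2 ≤ n) {u : E n → E (n + 1)} {P : Bx n → Prop}
    {ch : Bx n → Finset (Bx n)} {rk : Bx n → ℕ} (h : Cells u P ch rk)
    {d : Bx n → E (n + 1) → ℝ} (hd : ∀ Q, P Q → DegF u ch Q (d Q)) {Q : Bx n} (hQ : P Q)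
    (ζ : E (n + 1) → ℝ) (hζ : ContDiff ℝ ∞ ζ) (A : ℝ) (hA : ∀ y, |ζ y| ≤ A) (a : Fin (n + 1)) :
    |∫ y, dl ch d Q y * pd ζ a y| ≤
      A * ((∫ x in Rg ch Q, |Jc (Dm (fun z => Pc (u Q.a) (u z)) x) a|) +
        ∑ κ ∈ ch Q, ∫ x in Nr u ch κ (1 / 64),
          (|Jc (Dm u x) a| + |Jc (Dm (fun z => Pc (u κ.a) (u z)) x) a|)) := by
  refine (main_aux h hd hQ ζ hζ A hA a).trans ?_
  rw [mul_add]
  refine add_le_add ?_ le_rfl
  obtain ⟨C, _, hPc⟩ := Pc_der (n := n)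
  have hP := (hPc u h.smooth (u Q.a)).1
  rw [← integral_const_mul, ← Real.norm_eq_abs]
  refine (norm_integral_le_of_norm_le (g := fun x => A *
    |Jc (Dm (fun z => Pc (u Q.a) (u z)) x) a|) ?_ ?_)
  · have c3 : Continuous fun x => A * |Jc (Dm (fun z => Pc (u Q.a) (u z)) x) a| :=
      continuous_const.mul (cont_Jc_aux hP a).abs
    exact (intOn_s_aux Q c3).mono_set (Rg_sub_aux ch Q)
  · refine Eventually.of_forall fun x => ?_
    rw [Real.norm_eq_abs, abs_mul]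
    exact mul_le_mul_of_nonneg_right (hA _) (abs_nonneg _)

theorem dl_form_s {n : ℕ} (hn : 2 ≤ n) {u : E n → E (n + 1)} {P : Bx n → Prop}
    {ch : Bx n → Finset (Bx n)} {rk : Bx n → ℕ} (h : Cells u P ch rk)
    {d : Bx n → E (n + 1) → ℝ} (hd : ∀ Q, P Q → DegF u ch Q (d Q)) {Q : Bx n} (hQ : P Q)
    (ζ : E (n + 1) → ℝ) (hζ : ContDiff ℝ ∞ ζ) (A : ℝ) (hA : ∀ y, |ζ y| ≤ A) (s : ℝ)
    (hs : 1 / 8 ≤ s) (h0 : ∀ y, qs (u Q.a) y ≤ s ^ 2 → ζ y = 0) (a : Fin (n + 1)) :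
    |∫ y, dl ch d Q y * pd ζ a y| ≤
      A * ((∫ x in {x | x ∈ Rg ch Q ∧ s ^ 2 ≤ qs (u Q.a) (u x)}, |Jc (Dm u x) a|) +
        ∑ κ ∈ ch Q, ∫ x in Nr u ch κ (1 / 64),
          (|Jc (Dm u x) a| + |Jc (Dm (fun z => Pc (u κ.a) (u z)) x) a|)) := by
  refine (main_aux h hd hQ ζ hζ A hA a).trans ?_
  rw [mul_add]
  refine add_le_add ?_ le_rfl
  have hs2 : 1 / 64 ≤ s ^ 2 := by nlinarith
  have hsub : {x | x ∈ Rg ch Q ∧ s ^ 2 ≤ qs (u Q.a) (u x)} ⊆ Rg ch Q := fun x hx => hx.1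
  have e : ∫ x in Rg ch Q, ζ (Pc (u Q.a) (u x)) * Jc (Dm (fun z => Pc (u Q.a) (u z)) x) a =
      ∫ x in {x | x ∈ Rg ch Q ∧ s ^ 2 ≤ qs (u Q.a) (u x)},
        ζ (Pc (u Q.a) (u x)) * Jc (Dm (fun z => Pc (u Q.a) (u z)) x) a := by
    refine setIntegral_eq_of_subset_of_forall_sdiff_eq_zero (meas_Rg_aux ch Q) hsub ?_
    intro x hx
    have hx2 : qs (u Q.a) (u x) ≤ s ^ 2 := by
      by_contra hc
      exact hx.2 ⟨hx.1, (not_le.1 hc).le⟩
    rw [h0 _ ((qs_Pc_aux _ _).trans hx2), zero_mul]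
  rw [e, ← integral_const_mul, ← Real.norm_eq_abs]
  refine (norm_integral_le_of_norm_le (g := fun x => A * |Jc (Dm u x) a|) ?_ ?_)
  · have c3 : Continuous fun x => A * |Jc (Dm u x) a| :=
      continuous_const.mul (cont_Jc_aux h.smooth a).abs
    exact (intOn_s_aux Q c3).mono_set (hsub.trans (Rg_sub_aux ch Q))
  · refine Eventually.of_forall fun x => ?_
    rw [Real.norm_eq_abs, abs_mul]
    by_cases hx : qs (u Q.a) (u x) ≤ s ^ 2
    · rw [h0 _ ((qs_Pc_aux _ _).trans hx), abs_zero, zero_mul]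
      exact mul_nonneg ((abs_nonneg _).trans (hA 0)) (abs_nonneg _)
    · have hx2 : 1 / 64 < qs (u Q.a) (u x) := lt_of_le_of_lt hs2 (not_le.1 hx)
      rw [Dm_eq_aux h.smooth.continuous hx2]
      exact mul_le_mul_of_nonneg_right (hA _) (abs_nonneg _)

end H930.HS.XDlF

namespace H930.HS

export XDlF (dl_form dl_form_s)

end H930.HS
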