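import Pool.Agent.Helper930.HS.Defs
import Pool.Agent.Helper930.BL.J01
import Pool.Agent.Helper930.BL.J02
import Pool.Agent.Helper930.BL.J03
import Pool.Agent.Helper930.BL.J08
import Pool.Agent.Helper930.BL.J09a
import Pool.Agent.Helper930.BL.Poin

set_option autoImplicit false

namespace H930.HS

export H930.BL.J08 (exists_C0)
export H930.BL.J09a (moll_integrable moll_contr moll_conv moll_cc moll_l1)
export H930.BL.J02 (aux_lin)

end H930.HS
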