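import Pool.Agent.Helper930.HS.Exp

set_option autoImplicit false

open MeasureTheory Metric Set Filter Topology
open scoped ENNReal NNReal ContDiff

namespace H930.HS.XFaceCh

open H930.BL



/-- the closed slab -/
def slab {m : ℕ} (Q : Bx (m + 1)) (i : Fin (m + 1)) (p q : ℝ) : Set (E (m + 1)) :=
  {x | (p ≤ x i ∧ x i ≤ q) ∧ ∀ j, Q.a (i.succAbove j) ≤ x (i.succAbove j) ∧
    x (i.succAbove j) ≤ Q.b (i.succAbove j)}

theorem slice_fubini {m : ℕ} (f : E (m + 1) → ℝ) (hf : Continuous f) (Q : Bx (m + 1))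
    (i : Fin (m + 1)) (p q : ℝ) :
    IntegrableOn (fc f Q i) (Icc p q) volume ∧
      ∫ t in Icc p q, fc f Q i t = ∫ x in slab Q i p q, f x := by
  let e : (Fin (m + 1) → ℝ) ≃ᵐ ℝ × (Fin m → ℝ) := MeasurableEquiv.piFinSuccAbove (fun _ => ℝ) i
  have he : MeasurePreserving e volume volume :=
    volume_preserving_piFinSuccAbove (fun _ : Fin (m + 1) => ℝ) i
  let K : Set (Fin m → ℝ) := Icc (fun j => Q.a (i.succAbove j)) (fun j => Q.b (i.succAbove j))
  let g : ℝ × (Fin m → ℝ) → ℝ := fun y => f (i.insertNth (α := fun _ => ℝ) y.1 y.2)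
  have hg : Continuous g := by
    refine hf.comp ?_
    refine continuous_pi fun k => ?_
    rcases Fin.eq_self_or_eq_succAbove i k with h | ⟨j, h⟩
    · subst h
      simpa using continuous_fst
    · subst h
      simp only [Fin.insertNth_apply_succAbove]
      exact (continuous_apply j).comp continuous_snd
  have hgi : IntegrableOn g (Icc p q ×ˢ K) ((volume : Measure ℝ).prod (volume : Measure (Fin m → ℝ))) := by
    rw [← Measure.volume_eq_prod]
    exact hg.continuousOn.integrableOn_compact (isCompact_Icc.prod isCompact_Icc)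
  have hpre : e ⁻¹' (Icc p q ×ˢ K) = slab Q i p q := by
    ext x
    show ((x i ∈ Icc p q) ∧ ((fun j => x (i.succAbove j)) ∈ K)) ↔ _
    constructor
    · rintro ⟨h1, h2, h3⟩
      exact ⟨h1, fun j => ⟨h2 j, h3 j⟩⟩
    · rintro ⟨h1, h2⟩
      exact ⟨h1, fun j => (h2 j).1, fun j => (h2 j).2⟩
  have hge : ∀ x, g (e x) = f x := by
    intro x
    show f (i.insertNth (α := fun _ => ℝ) (x i) (fun j => x (i.succAbove j))) = f x
    congr 1
    exact Fin.insertNth_self_removeNth i x
  constructor
  · have h2 : Integrable g (((volume : Measure ℝ).restrict (Icc p q)).prod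
        ((volume : Measure (Fin m → ℝ)).restrict K)) := by
      rw [Measure.prod_restrict]
      exact hgi
    exact h2.integral_prod_left
  · have h3 := setIntegral_prod g hgi
    have h4 := he.setIntegral_preimage_emb e.measurableEmbedding g (Icc p q ×ˢ K)
    rw [hpre, Measure.volume_eq_prod] at h4
    rw [h3] at h4
    simp only [hge] at h4
    rw [h4]
    rfl

theorem fc_nonneg {m : ℕ} {f : E (m + 1) → ℝ} (hf0 : ∀ x, 0 ≤ f x)
    (Q : Bx (m + 1)) (i : Fin (m + 1)) (t : ℝ) : 0 ≤ fc f Q i t :=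
  integral_nonneg fun _ => hf0 _

theorem face_choice {m : ℕ} (f : E (m + 1) → ℝ) (hf : Continuous f) (hf0 : ∀ x, 0 ≤ f x)
    (Q : Bx (m + 1)) (i : Fin (m + 1)) :
    ∃ t : ℝ, Q.a i + (Q.b i - Q.a i) / 3 ≤ t ∧ t ≤ Q.b i - (Q.b i - Q.a i) / 3 ∧
      fc f Q i t ≤ 3 / (Q.b i - Q.a i) * ∫ x in Q.s, f x := by
  have hL : 0 < Q.b i - Q.a i := sub_pos.2 (Q.lt i)
  obtain ⟨hint, hfub⟩ := slice_fubini f hf Q i (Q.a i + (Q.b i - Q.a i) / 3) (Q.b i - (Q.b i - Q.a i) / 3)
  have hvol : volume (Icc (Q.a i + (Q.b i - Q.a i) / 3) (Q.b i - (Q.b i - Q.a i) / 3)) =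
      ENNReal.ofReal ((Q.b i - Q.a i) / 3) := by
    rw [Real.volume_Icc]
    congr 1
    ring
  obtain ⟨t, ht, hle⟩ := exists_le_setAverage (μ := volume)
    (s := Icc (Q.a i + (Q.b i - Q.a i) / 3) (Q.b i - (Q.b i - Q.a i) / 3)) (f := fc f Q i)
    (by rw [hvol]; simp; linarith) (by rw [hvol]; exact ENNReal.ofReal_ne_top) hint
  refine ⟨t, ht.1, ht.2, hle.trans ?_⟩
  rw [setAverage_eq, hfub, Measure.real, hvol, ENNReal.toReal_ofReal (by positivity), smul_eq_mul]
  have e1 : ((Q.b i - Q.a i) / 3)⁻¹ = 3 / (Q.b i - Q.a i) := by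
    rw [inv_div]
  rw [e1]
  refine mul_le_mul_of_nonneg_left ?_ (by positivity)
  have hcl : ∫ x in Q.s, f x = ∫ x in Icc Q.a Q.b, f x := by
    refine setIntegral_congr_set ?_
    have h1 := Measure.univ_pi_Ico_ae_eq_Icc (μ := fun _ : Fin (m + 1) => (volume : Measure ℝ))
      (f := Q.a) (g := Q.b)
    have h2 : Q.s = pi univ (fun i => Ico (Q.a i) (Q.b i)) := by
      ext x
      simp [Bx.s, Set.mem_pi]
    rw [h2]
    exact h1
  rw [hcl]
  refine setIntegral_mono_set (hf.continuousOn.integrableOn_compact isCompact_Icc)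
    (Eventually.of_forall hf0) (Eventually.of_forall ?_)
  intro x hx
  have hsub : slab Q i (Q.a i + (Q.b i - Q.a i) / 3) (Q.b i - (Q.b i - Q.a i) / 3) ⊆ Icc Q.a Q.b := by
    rintro x ⟨⟨h1, h2⟩, h3⟩
    constructor
    · intro k
      rcases Fin.eq_self_or_eq_succAbove i k with h | ⟨j, h⟩
      · subst h; linarith
      · subst h; exact (h3 j).1
    · intro k
      rcases Fin.eq_self_or_eq_succAbove i k with h | ⟨j, h⟩
      · subst h; linarith
      · subst h; exact (h3 j).2
  exact hsub hx

theorem root_choice {m : ℕ} : ∃ C : ℝ, 0 < C ∧ ∀ (f : E (m + 1) → ℝ), Continuous f →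
    (∀ x, 0 ≤ f x) → ∀ (x : E (m + 1)) (h : ℝ), 0 < h → ∃ (s : ℝ) (hs : 0 < s), h < s ∧ s < 2 * h ∧
      ∀ i, fc f (cube x s hs) i (x i - s) ≤ C / h * (∫ y in closedBall x (2 * h), f y) ∧
        fc f (cube x s hs) i (x i + s) ≤ C / h * (∫ y in closedBall x (2 * h), f y) := by
  refine ⟨2 * ((m : ℝ) + 1), by positivity, ?_⟩
  intro f hf hf0 x h hh
  have h2h : (0 : ℝ) < 2 * h := by linarith
  obtain ⟨I, hI⟩ : ∃ I, I = ∫ y in closedBall x (2 * h), f y := ⟨_, rfl⟩
  have hI0 : 0 ≤ I := by rw [hI]; exact integral_nonneg fun _ => hf0 _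
  rw [← hI]
  have hIint : IntegrableOn f (closedBall x (2 * h)) :=
    hf.continuousOn.integrableOn_compact (isCompact_closedBall _ _)
  -- slabs
  have hslab : ∀ (i : Fin (m + 1)) (p q : ℝ), x i - 2 * h ≤ p → q ≤ x i + 2 * h →
      ∫ t in Icc p q, fc f (cube x (2 * h) h2h) i t ≤ I := by
    intro i p q hp hq
    rw [(slice_fubini f hf _ i p q).2, hI]
    refine setIntegral_mono_set hIint (Eventually.of_forall hf0) (Eventually.of_forall ?_)
    have hsub : slab (cube x (2 * h) h2h) i p q ⊆ closedBall x (2 * h) := by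
      rintro y ⟨⟨h1, h2⟩, h3⟩
      rw [mem_closedBall, dist_pi_le_iff h2h.le]
      intro k
      rw [Real.dist_eq, abs_le]
      rcases Fin.eq_self_or_eq_succAbove i k with hk | ⟨j, hk⟩
      · subst hk
        constructor <;> linarith
      · subst hk
        have h4 := (h3 j).1
        have h5 := (h3 j).2
        simp only [cube] at h4 h5
        constructor <;> linarith
    exact fun y hy => hsub hy
  have hii : ∀ (i : Fin (m + 1)) (p q : ℝ), p ≤ q → IntervalIntegrable (fc f (cube x (2 * h) h2h) i) volume p q := by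
    intro i p q hpq
    rw [intervalIntegrable_iff_integrableOn_Icc_of_le hpq]
    exact (slice_fubini f hf _ i p q).1
  have hm1 : ∀ i : Fin (m + 1), IntervalIntegrable (fun s => fc f (cube x (2 * h) h2h) i (x i - s)) volume h (2 * h) := by
    intro i
    have := (hii i (x i - 2 * h) (x i - h) (by linarith)).comp_sub_left (x i)
    simp only [sub_sub_cancel] at this
    exact this.symm
  have hm2 : ∀ i : Fin (m + 1), IntervalIntegrable (fun s => fc f (cube x (2 * h) h2h) i (x i + s)) volume h (2 * h) := by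
    intro i
    have := (hii i (x i + h) (x i + 2 * h) (by linarith)).comp_add_left (x i)
    simp only [add_sub_cancel_left] at this
    exact this
  have hi1 : ∀ i : Fin (m + 1), ∫ s in h..(2 * h), fc f (cube x (2 * h) h2h) i (x i - s) ≤ I := by
    intro i
    rw [intervalIntegral.integral_comp_sub_left (fun t => fc f (cube x (2 * h) h2h) i t) (x i),
      intervalIntegral.integral_of_le (by linarith), ← integral_Icc_eq_integral_Ioc]
    exact hslab i _ _ le_rfl (by linarith)
  have hi2 : ∀ i : Fin (m + 1), ∫ s in h..(2 * h), fc f (cube x (2 * h) h2h) i (x i + s) ≤ I := by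
    intro i
    rw [intervalIntegral.integral_comp_add_left (fun t => fc f (cube x (2 * h) h2h) i t) (x i),
      intervalIntegral.integral_of_le (by linarith), ← integral_Icc_eq_integral_Ioc]
    exact hslab i _ _ (by linarith) le_rfl
  let G : ℝ → ℝ := fun s => ∑ i, (fc f (cube x (2 * h) h2h) i (x i - s) + fc f (cube x (2 * h) h2h) i (x i + s))
  have hGint : IntervalIntegrable G volume h (2 * h) := by
    have := IntervalIntegrable.sum (μ := volume) (a := h) (b := 2 * h) Finset.univ
      (f := fun i s => fc f (cube x (2 * h) h2h) i (x i - s) + fc f (cube x (2 * h) h2h) i (x i + s))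
      (fun i _ => (hm1 i).add (hm2 i))
    refine this.congr_ae (Eventually.of_forall fun s => ?_)
    simp [G]
  have hGle : ∫ s in h..(2 * h), G s ≤ 2 * ((m : ℝ) + 1) * I := by
    show ∫ s in h..(2 * h), ∑ i, (fc f (cube x (2 * h) h2h) i (x i - s) + fc f (cube x (2 * h) h2h) i (x i + s)) ≤ _
    rw [intervalIntegral.integral_finsetSum (fun i _ => (hm1 i).add (hm2 i))]
    have h1 : ∀ i ∈ (Finset.univ : Finset (Fin (m + 1))), ∫ s in h..(2 * h),
        (fc f (cube x (2 * h) h2h) i (x i - s) + fc f (cube x (2 * h) h2h) i (x i + s)) ≤ 2 * I := by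
      intro i _
      rw [intervalIntegral.integral_add (hm1 i) (hm2 i)]
      linarith [hi1 i, hi2 i]
    refine (Finset.sum_le_sum h1).trans (le_of_eq ?_)
    rw [Finset.sum_const, Finset.card_univ, Fintype.card_fin, nsmul_eq_mul]
    push_cast
    ring
  have hvol : volume (Ioo h (2 * h)) = ENNReal.ofReal h := by
    rw [Real.volume_Ioo]
    congr 1
    ring
  have hGon : IntegrableOn G (Ioo h (2 * h)) := by
    rw [intervalIntegrable_iff_integrableOn_Ioo_of_le (by linarith)] at hGint
    exact hGint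
  obtain ⟨s, hs, hle⟩ := exists_le_setAverage (μ := volume) (s := Ioo h (2 * h)) (f := G)
    (by rw [hvol]; simp; linarith) (by rw [hvol]; exact ENNReal.ofReal_ne_top) hGon
  have hs0 : 0 < s := hh.trans hs.1
  refine ⟨s, hs0, hs.1, hs.2, ?_⟩
  have hGs : G s ≤ 2 * ((m : ℝ) + 1) / h * I := by
    refine hle.trans ?_
    rw [setAverage_eq, Measure.real, hvol, ENNReal.toReal_ofReal hh.le, smul_eq_mul,
      ← integral_Ioc_eq_integral_Ioo, ← intervalIntegral.integral_of_le (by linarith)]
    calc h⁻¹ * ∫ s in h..(2 * h), G s ≤ h⁻¹ * (2 * ((m : ℝ) + 1) * I) :=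
          mul_le_mul_of_nonneg_left hGle (by positivity)
      _ = _ := by ring
  -- comparison of the boxes
  have hcmp : ∀ (i : Fin (m + 1)) (t : ℝ), fc f (cube x s hs0) i t ≤ fc f (cube x (2 * h) h2h) i t := by
    intro i t
    have hcont : Continuous (fun z : Fin m → ℝ => f (i.insertNth (α := fun _ => ℝ) t z)) := by
      refine hf.comp (continuous_pi fun k => ?_)
      rcases Fin.eq_self_or_eq_succAbove i k with h | ⟨j, h⟩
      · subst h
        simpa using continuous_const
      · subst h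
        simpa using continuous_apply j
    refine setIntegral_mono_set (hcont.continuousOn.integrableOn_compact isCompact_Icc)
      (Eventually.of_forall fun _ => hf0 _) (Eventually.of_forall ?_)
    have hsub : Icc (fun j => (cube x s hs0).a (i.succAbove j)) (fun j => (cube x s hs0).b (i.succAbove j)) ⊆
        Icc (fun j => (cube x (2 * h) h2h).a (i.succAbove j)) (fun j => (cube x (2 * h) h2h).b (i.succAbove j)) := by
      refine Icc_subset_Icc ?_ ?_
      · intro j
        simp only [cube]
        linarith [hs.2]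
      · intro j
        simp only [cube]
        linarith [hs.2]
    exact fun z hz => hsub hz
  intro i
  have hterm : fc f (cube x (2 * h) h2h) i (x i - s) + fc f (cube x (2 * h) h2h) i (x i + s) ≤ G s :=
    Finset.single_le_sum (f := fun i => fc f (cube x (2 * h) h2h) i (x i - s) +
      fc f (cube x (2 * h) h2h) i (x i + s))
      (fun k _ => add_nonneg (fc_nonneg hf0 _ _ _) (fc_nonneg hf0 _ _ _)) (Finset.mem_univ i)
  have n1 := fc_nonneg hf0 (cube x (2 * h) h2h) i (x i - s)
  have n2 := fc_nonneg hf0 (cube x (2 * h) h2h) i (x i + s)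
  constructor
  · exact (hcmp i _).trans (by linarith)
  · exact (hcmp i _).trans (by linarith)

end H930.HS.XFaceCh

namespace H930.HS

export XFaceCh (face_choice root_choice)

end H930.HS
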