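import Pool.Agent.Helper930.HS.Exp

set_option autoImplicit false

open MeasureTheory Metric Set Filter Topology
open scoped ENNReal NNReal ContDiff

namespace H930.HS.XIndAbs

open H930.BL



theorem ind_abs_chain {ι : Type} (P : ι → Prop) (ch : ι → Finset ι) (rk : ι → ℕ) (E : ι → ℝ)
    (T : ℝ) (hP : ∀ Q, P Q → ∀ κ ∈ ch Q, P κ) (hrk : ∀ Q, P Q → ∀ κ ∈ ch Q, rk κ < rk Q) :
    ∀ (N : ℕ) (Q : ι), rk Q ≤ N → P Q → ∃ (m : ℕ) (q : ℕ → ι), q 0 = Q ∧
      (∀ i < m, q (i + 1) ∈ ch (q i)) ∧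
      (∀ i < m, T < E (q (i + 1))) ∧ ∀ κ ∈ ch (q m), E κ ≤ T := by
  intro N
  induction N with
  | zero =>
    intro Q hQ hPQ
    refine ⟨0, fun _ => Q, rfl, by simp, by simp, ?_⟩
    intro κ hκ
    have := hrk Q hPQ κ hκ
    omega
  | succ N ih =>
    intro Q hQ hPQ
    by_cases h : ∀ κ ∈ ch Q, E κ ≤ T
    · exact ⟨0, fun _ => Q, rfl, by simp, by simp, h⟩
    · push Not at h
      obtain ⟨κ, hκ, hT⟩ := h
      obtain ⟨m, q, hq0, hq1, hq2, hq3⟩ := ih κ (by have := hrk Q hPQ κ hκ; omega) (hP Q hPQ κ hκ)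
      refine ⟨m + 1, fun i => Nat.casesOn i Q q, rfl, ?_, ?_, hq3⟩
      · intro i hi
        cases i with
        | zero => show q 0 ∈ ch Q; rw [hq0]; exact hκ
        | succ i => exact hq1 i (by omega)
      · intro i hi
        cases i with
        | zero => show T < E (q 0); rw [hq0]; exact hT
        | succ i => exact hq2 i (by omega)

theorem ind_abs {C β : ℝ} (hC : 0 < C) (hβ : 0 < β) : ∃ ε K : ℝ, 0 < ε ∧ 0 < K ∧
    ∀ {ι : Type} [DecidableEq ι] (P : ι → Prop) (ch : ι → Finset ι) (rk : ι → ℕ) (S E ν : ι → ℝ),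
    (∀ Q, P Q → ∀ κ ∈ ch Q, P κ) → (∀ Q, P Q → ∀ κ ∈ ch Q, rk κ < rk Q) →
    (∀ Q, P Q → 0 ≤ S Q) → (∀ Q, P Q → 0 ≤ E Q) → (∀ Q, P Q → 0 ≤ ν Q) →
    (∀ Q, P Q → ∑ κ ∈ ch Q, E κ ≤ E Q) → (∀ Q, P Q → ∑ κ ∈ ch Q, ν κ ≤ ν Q) →
    (∀ (m : ℕ) (q : ℕ → ι), P (q 0) → (∀ i < m, q (i + 1) ∈ ch (q i)) → E (q 0) ≤ ε →
      S (q 0) ≤ C * E (q 0) ^ β * (S (q 0) + ν (q 0)) +
        (∑ i ∈ Finset.range m, ∑ κ ∈ (ch (q i)).erase (q (i + 1)), S κ) +
          ∑ κ ∈ ch (q m), S κ) →
    ∀ Q, P Q → E Q ≤ ε → S Q ≤ K * ν Q := by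
  have h2β : (2:ℝ) ^ (-β) < 1 :=
    Real.rpow_lt_one_of_one_lt_of_neg (by norm_num) (by linarith)
  have h2β0 : 0 < (2:ℝ) ^ (-β) := by positivity
  obtain ⟨A, hA⟩ : ∃ A : ℝ, A = 3 * C / (1 - 2 ^ (-β)) := ⟨_, rfl⟩
  have hA0 : 0 < A := by
    rw [hA]
    exact div_pos (by linarith) (by linarith)
  have hAe : A * (1 - 2 ^ (-β)) = 3 * C := by
    rw [hA, div_mul_cancel₀]
    linarith
  have hCA : 3 * C ≤ A := by nlinarith
  obtain ⟨ε, hε⟩ : ∃ ε : ℝ, ε = (1 / A) ^ (1 / β) := ⟨_, rfl⟩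
  have hε0 : 0 < ε := by
    rw [hε]
    exact Real.rpow_pos_of_pos (by positivity) _
  have hεβ : ε ^ β = 1 / A := by
    rw [hε, ← Real.rpow_mul (by positivity), one_div_mul_cancel hβ.ne', Real.rpow_one]
  refine ⟨ε, 2, hε0, by norm_num, ?_⟩
  intro ι _ P ch rk S E ν hP hrk hS hE hν hEs hνs hmain
  have hxb : ∀ Q, P Q → E Q ≤ ε → A * E Q ^ β ≤ 1 := by
    intro Q hPQ hEQ
    have h1 : E Q ^ β ≤ 1 / A := by
      rw [← hεβ]
      exact Real.rpow_le_rpow (hE Q hPQ) hEQ hβ.le
    calc A * E Q ^ β ≤ A * (1 / A) := mul_le_mul_of_nonneg_left h1 hA0.le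
      _ = 1 := by field_simp
  have key : ∀ N Q, rk Q ≤ N → P Q → E Q ≤ ε → S Q ≤ (1 + A * E Q ^ β) * ν Q := by
    intro N
    induction N using Nat.strong_induction_on with
    | _ N ih =>
      intro Q hQN hPQ hEQ
      obtain ⟨m, q, hq0, hq1, hq2, hq3⟩ :=
        ind_abs_chain P ch rk E (E Q / 2) hP hrk N Q hQN hPQ
      have hPq : ∀ i, i ≤ m → P (q i) := by
        intro i
        induction i with
        | zero => intro _; rw [hq0]; exact hPQ
        | succ i ihi => intro hi; exact hP _ (ihi (by omega)) _ (hq1 i (by omega))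
      have hEq : ∀ i, i ≤ m → E (q i) ≤ E Q := by
        intro i
        induction i with
        | zero => intro _; rw [hq0]
        | succ i ihi =>
          intro hi
          have h1 := ihi (by omega)
          have h2 := hEs _ (hPq i (by omega))
          have h3 : E (q (i + 1)) ≤ ∑ κ ∈ ch (q i), E κ :=
            Finset.single_le_sum (f := E)
              (fun κ hκ => hE κ (hP _ (hPq i (by omega)) κ hκ)) (hq1 i (by omega))
          linarith
      have hrq : ∀ i, i ≤ m → rk (q i) ≤ rk Q := by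
        intro i
        induction i with
        | zero => intro _; rw [hq0]
        | succ i ihi =>
          intro hi
          have h1 := ihi (by omega)
          have h2 := hrk _ (hPq i (by omega)) _ (hq1 i (by omega))
          omega
      have hE0 := hE Q hPQ
      have hchild : ∀ i ≤ m, ∀ κ ∈ ch (q i), E κ ≤ E Q / 2 →
          S κ ≤ (1 + A * (2 ^ (-β) * E Q ^ β)) * ν κ := by
        intro i hi κ hκ hEκ
        have h1 := hrk _ (hPq i hi) κ hκ
        have h2 := hrq i hi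
        have hPκ := hP _ (hPq i hi) κ hκ
        have h3 := ih (rk κ) (by omega) κ le_rfl hPκ (hEκ.trans (by linarith))
        refine h3.trans (mul_le_mul_of_nonneg_right ?_ (hν κ hPκ))
        have h4 : E κ ^ β ≤ (E Q / 2) ^ β := Real.rpow_le_rpow (hE κ hPκ) hEκ hβ.le
        have h5 : (E Q / 2) ^ β = 2 ^ (-β) * E Q ^ β := by
          rw [Real.div_rpow hE0 (by norm_num), Real.rpow_neg (by norm_num)]
          ring
        rw [h5] at h4
        have := mul_le_mul_of_nonneg_left h4 hA0.le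
        linarith
      have hx0 : 0 ≤ E Q ^ β := Real.rpow_nonneg hE0 _
      obtain ⟨B, hB⟩ : ∃ B : ℝ, B = 1 + A * (2 ^ (-β) * E Q ^ β) := ⟨_, rfl⟩
      have hB0 : 0 ≤ B := by rw [hB]; positivity
      have hside : ∀ i ∈ Finset.range m, ∑ κ ∈ (ch (q i)).erase (q (i + 1)), S κ ≤
          B * (ν (q i) - ν (q (i + 1))) := by
        intro i hi
        have him : i < m := Finset.mem_range.1 hi
        have h1 : ∑ κ ∈ (ch (q i)).erase (q (i + 1)), S κ ≤
            ∑ κ ∈ (ch (q i)).erase (q (i + 1)), B * ν κ := by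
          refine Finset.sum_le_sum fun κ hκ => ?_
          rw [Finset.mem_erase] at hκ
          rw [hB]
          apply hchild i him.le κ hκ.2
          have h2 : E κ + E (q (i + 1)) ≤ ∑ κ ∈ ch (q i), E κ := by
            rw [← Finset.sum_erase_add _ _ (hq1 i him)]
            have h3 : E κ ≤ ∑ κ ∈ (ch (q i)).erase (q (i + 1)), E κ :=
              Finset.single_le_sum (f := E)
                (fun κ' hκ' => hE κ' (hP _ (hPq i him.le) κ' (Finset.mem_of_mem_erase hκ')))
                (Finset.mem_erase.2 hκ)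
            linarith
          have h3 := hEs _ (hPq i him.le)
          have h4 := hEq i him.le
          have h5 := hq2 i him
          linarith
        rw [← Finset.mul_sum] at h1
        refine h1.trans (mul_le_mul_of_nonneg_left ?_ hB0)
        have h2 := Finset.sum_erase_add (ch (q i)) ν (hq1 i him)
        have h3 := hνs _ (hPq i him.le)
        linarith
      have hlast : ∑ κ ∈ ch (q m), S κ ≤ B * ν (q m) := by
        calc ∑ κ ∈ ch (q m), S κ ≤ ∑ κ ∈ ch (q m), B * ν κ :=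
              Finset.sum_le_sum fun κ hκ => by
                rw [hB]; exact hchild m le_rfl κ hκ (hq3 κ hκ)
          _ = B * ∑ κ ∈ ch (q m), ν κ := by rw [Finset.mul_sum]
          _ ≤ B * ν (q m) := mul_le_mul_of_nonneg_left (hνs _ (hPq m le_rfl)) hB0
      have htot : (∑ i ∈ Finset.range m, ∑ κ ∈ (ch (q i)).erase (q (i + 1)), S κ) ≤
          B * (ν Q - ν (q m)) := by
        refine (Finset.sum_le_sum hside).trans (le_of_eq ?_)
        rw [← Finset.mul_sum, Finset.sum_range_sub', hq0]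
      have hm := hmain m q (by rw [hq0]; exact hPQ) hq1 (by rw [hq0]; exact hEQ)
      rw [hq0] at hm
      have hAx := hxb Q hPQ hEQ
      obtain ⟨x, hx⟩ : ∃ x : ℝ, x = E Q ^ β := ⟨_, rfl⟩
      rw [← hx] at hm hAx hx0 hB ⊢
      have hν0 := hν Q hPQ
      have hS0 := hS Q hPQ
      have hCx : C * x ≤ 1 / 3 := by nlinarith
      have h1 : S Q * (1 - C * x) ≤ (C * x + B) * ν Q := by nlinarith
      have h2 : (C * x + B) ≤ (1 + A * x) * (1 - C * x) := by
        have h3 : (1 + A * x) * (1 - C * x) - (C * x + B) = x * C * (1 - A * x) := by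
          rw [hB]
          have : A * (2:ℝ) ^ (-β) = A - 3 * C := by linarith
          linear_combination (-x) * this
        have h4 : 0 ≤ x * C * (1 - A * x) :=
          mul_nonneg (mul_nonneg hx0 hC.le) (by linarith)
        linarith
      have h5 : S Q * (1 - C * x) ≤ ((1 + A * x) * ν Q) * (1 - C * x) := by
        refine h1.trans ((mul_le_mul_of_nonneg_right h2 hν0).trans (le_of_eq ?_))
        ring
      exact le_of_mul_le_mul_right h5 (by linarith)
  intro Q hPQ hEQ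
  refine (key (rk Q) Q le_rfl hPQ hEQ).trans (mul_le_mul_of_nonneg_right ?_ (hν Q hPQ))
  have := hxb Q hPQ hEQ
  linarith

end H930.HS.XIndAbs

namespace H930.HS

export XIndAbs (ind_abs)

end H930.HS
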