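import Pool.Agent.Helper930.HS.Exp

set_option autoImplicit false

open MeasureTheory Metric Set Filter Topology
open scoped ENNReal NNReal ContDiff

namespace H930.HS.XIndS

open H930.BL



lemma aux_qs_cont {m : ℕ} (c : E m) : Continuous (fun y : E m => qs c y) := by
  unfold qs
  fun_prop

lemma aux_cl_eq {n : ℕ} (Q : Bx n) : Q.cl = Icc Q.a Q.b := by
  ext x
  simp only [Bx.cl, mem_ofPred_eq, mem_Icc, Pi.le_def]
  exact ⟨fun h => ⟨fun i => (h i).1, fun i => (h i).2⟩, fun h i => ⟨h.1 i, h.2 i⟩⟩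

lemma aux_local {n : ℕ} {u : E n → E (n + 1)} {P : Bx n → Prop}
    {ch : Bx n → Finset (Bx n)} {rk : Bx n → ℕ} (h : Cells u P ch rk) {Q : Bx n} (hQ : P Q)
    (Z : E (n + 1) → ℝ) (h0 : ∀ y, qs (u Q.a) y ≤ 1 / 64 → Z y = 0) (x : E n) :
    (Q.s.indicator (fun x => Z (u x)) =ᶠ[𝓝 x] (fun x => Z (u x)) ∧ x ∈ Q.s) ∨
    (Q.s.indicator (fun x => Z (u x)) =ᶠ[𝓝 x] (fun _ => 0) ∧
      (x ∉ Q.s ∨ ∀ b, pd Z b (u x) = 0)) := by
  have hu : Continuous u := h.smooth.continuous
  by_cases hcl : x ∈ Q.cl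
  · by_cases hbd : ∃ i, x i = Q.a i ∨ x i = Q.b i
    · right
      have hx : qs (u Q.a) (u x) < 1 / 64 := by
        have := h.bd Q hQ x ⟨hcl, hbd⟩
        linarith
      have hopen : IsOpen {y : E (n + 1) | qs (u Q.a) y < 1 / 64} :=
        isOpen_lt (aux_qs_cont _) continuous_const
      have hZ : Z =ᶠ[𝓝 (u x)] (fun _ => 0) := by
        filter_upwards [hopen.mem_nhds hx] with y hy
        exact h0 y (le_of_lt hy)
      refine ⟨?_, Or.inr fun b => ?_⟩
      · filter_upwards [hu.continuousAt.eventually hZ] with z hz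
        by_cases hz' : z ∈ Q.s
        · rw [indicator_of_mem hz', hz]
        · rw [indicator_of_notMem hz']
      · unfold pd
        rw [hZ.fderiv_eq]
        simp
    · left
      push Not at hbd
      have hin : ∀ i, Q.a i < x i ∧ x i < Q.b i := fun i =>
        ⟨lt_of_le_of_ne (hcl i).1 (Ne.symm (hbd i).1), lt_of_le_of_ne (hcl i).2 (hbd i).2⟩
      have hev : ∀ᶠ z in 𝓝 x, ∀ i, Q.a i < z i ∧ z i < Q.b i := by
        rw [eventually_all]
        intro i
        exact ((continuous_apply i).continuousAt.eventually (lt_mem_nhds (hin i).1)).and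
          ((continuous_apply i).continuousAt.eventually (gt_mem_nhds (hin i).2))
      refine ⟨?_, fun i => ⟨(hin i).1.le, (hin i).2⟩⟩
      filter_upwards [hev] with z hz
      rw [indicator_of_mem]
      exact fun i => ⟨(hz i).1.le, (hz i).2⟩
  · right
    have hsc : Q.s ⊆ Q.cl := fun z hz i => ⟨(hz i).1, (hz i).2.le⟩
    have hopen : IsOpen (Q.cl)ᶜ := by
      rw [aux_cl_eq]
      exact isClosed_Icc.isOpen_compl
    refine ⟨?_, Or.inl fun hx => hcl (hsc hx)⟩
    filter_upwards [hopen.mem_nhds hcl] with z hz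
    rw [indicator_of_notMem]
    exact fun hz' => hz (hsc hz')

theorem ind_smooth {n : ℕ} (hn : 2 ≤ n) {u : E n → E (n + 1)} {P : Bx n → Prop}
    {ch : Bx n → Finset (Bx n)} {rk : Bx n → ℕ} (h : Cells u P ch rk) {Q : Bx n} (hQ : P Q)
    (Z : E (n + 1) → ℝ) (hZ : ContDiff ℝ ∞ Z) (h0 : ∀ y, qs (u Q.a) y ≤ 1 / 64 → Z y = 0) :
    ContDiff ℝ ∞ (Q.s.indicator (fun x => Z (u x))) ∧
      HasCompactSupport (Q.s.indicator (fun x => Z (u x))) ∧
      tsupport (Q.s.indicator (fun x => Z (u x))) ⊆ Q.cl ∧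
      ∀ x j, pd (Q.s.indicator fun x => Z (u x)) j x =
        Q.s.indicator (fun x => ∑ b, pd Z b (u x) * Dm u x b j) x :=  by
  have hsc : Q.s ⊆ Q.cl := fun z hz i => ⟨(hz i).1, (hz i).2.le⟩
  have hcomp : IsCompact Q.cl := by
    rw [aux_cl_eq]
    exact isCompact_Icc
  have hZu : ContDiff ℝ ∞ (fun x => Z (u x)) := hZ.comp h.smooth
  refine ⟨?_, ?_, ?_, ?_⟩
  · rw [contDiff_iff_contDiffAt]
    intro x
    rcases aux_local h hQ Z h0 x with ⟨h1, _⟩ | ⟨h1, _⟩
    · exact (hZu.contDiffAt).congr_of_eventuallyEq h1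
    · exact (contDiffAt_const).congr_of_eventuallyEq h1
  · refine HasCompactSupport.intro hcomp fun x hx => ?_
    rw [indicator_of_notMem]
    exact fun hx' => hx (hsc hx')
  · refine closure_minimal ?_ hcomp.isClosed
    intro x hx
    by_contra hx'
    exact hx (indicator_of_notMem (fun h' => hx' (hsc h')) _)
  · intro x j
    rcases aux_local h hQ Z h0 x with ⟨h1, h2⟩ | ⟨h1, h2⟩
    · rw [indicator_of_mem h2]
      unfold pd
      rw [h1.fderiv_eq]
      have hdu : DifferentiableAt ℝ u x := (h.smooth.differentiable (by simp)).differentiableAt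
      have hdZ : DifferentiableAt ℝ Z (u x) := (hZ.differentiable (by simp)).differentiableAt
      have h3 : fderiv ℝ (fun x => Z (u x)) x = (fderiv ℝ Z (u x)).comp (fderiv ℝ u x) :=
        fderiv_comp x hdZ hdu
      rw [h3, ContinuousLinearMap.comp_apply, aux_lin Z (u x)]
      refine Finset.sum_congr rfl fun l _ => ?_
      rw [mul_comm]
      congr 1
      unfold Dm pd
      rw [Matrix.of_apply]
      have h4 : fderiv ℝ (fun y => u y l) x (Pi.single j 1) = (fderiv ℝ u x (Pi.single j 1)) l := by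
        rw [fderiv_apply hdu]
        rfl
      rw [h4]
    · have e1 : pd (Q.s.indicator fun x => Z (u x)) j x = 0 := by
        unfold pd
        rw [h1.fderiv_eq]
        simp
      rw [e1]
      rcases h2 with h2 | h2
      · rw [indicator_of_notMem h2]
      · by_cases hx : x ∈ Q.s
        · rw [indicator_of_mem hx]
          simp [h2]
        · rw [indicator_of_notMem hx]

end H930.HS.XIndS

namespace H930.HS

export XIndS (ind_smooth)

end H930.HS
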