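import Pool.Agent.Helper930.HS.Exp

set_option autoImplicit false

open MeasureTheory Metric Set Filter Topology
open scoped ENNReal NNReal ContDiff

namespace H930.HS.XIsoBv

open H930.BL



theorem iso_bv_l1 {n : ℕ} (p : E n → ℝ) (hp : ContDiff ℝ ∞ p) (hc : HasCompactSupport p) (m : ℝ)
    (h : ∀ ζ : E n → ℝ, ContDiff ℝ ∞ ζ → HasCompactSupport ζ → (∀ y, |ζ y| ≤ 1) →
      |∫ y, p y * ζ y| ≤ m) : ∫ y, |p y| ≤ m := by
  have hKc : IsCompact (tsupport p) := hc
  have hKm : MeasurableSet (tsupport p) := (isClosed_tsupport p).measurableSet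
  have hKfin : volume (tsupport p) ≠ ⊤ := hKc.measure_lt_top.ne
  set V : ℝ := volume.real (tsupport p) with hV
  have hV0 : 0 ≤ V := measureReal_nonneg
  have key : ∀ δ : ℝ, 0 < δ → ∫ y, |p y| ≤ m + δ * V := by
    intro δ hδ
    have hpos : ∀ y, 0 < p y ^ 2 + δ ^ 2 := fun y => by positivity
    set ζ : E n → ℝ := fun y => p y / Real.sqrt (p y ^ 2 + δ ^ 2) with hζ
    have hζs : ContDiff ℝ ∞ ζ := by
      refine hp.div ?_ ?_
      · exact ((hp.pow 2).add contDiff_const).sqrt fun y => (hpos y).ne'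
      · intro y
        exact (Real.sqrt_pos.2 (hpos y)).ne'
    have hζc : HasCompactSupport ζ := by
      refine hc.mono ?_
      intro y hy
      rw [Function.mem_support] at hy ⊢
      intro h0
      apply hy
      rw [hζ]
      simp [h0]
    have hζ1 : ∀ y, |ζ y| ≤ 1 := by
      intro y
      rw [hζ]
      simp only
      rw [abs_div, abs_of_pos (Real.sqrt_pos.2 (hpos y)), div_le_one (Real.sqrt_pos.2 (hpos y))]
      apply Real.abs_le_sqrt
      nlinarith [sq_nonneg δ]
    have h1 := h ζ hζs hζc hζ1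
    have hint1 : Integrable (fun y => p y * ζ y) := by
      have hcont : Continuous fun y => p y * ζ y := hp.continuous.mul hζs.continuous
      exact hcont.integrable_of_hasCompactSupport (hc.mul_right)
    have hint2 : Integrable (fun y => |p y|) :=
      hp.continuous.abs.integrable_of_hasCompactSupport hc.abs
    have hint3 : Integrable ((tsupport p).indicator (fun _ => δ)) :=
      (integrable_indicator_iff hKm).2 (integrableOn_const hKfin)
    have h2 : ∀ y, |p y| ≤ p y * ζ y + (tsupport p).indicator (fun _ => δ) y := by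
      intro y
      have hs := Real.sqrt_pos.2 (hpos y)
      by_cases hy : y ∈ tsupport p
      · rw [Set.indicator_of_mem hy]
        have h3 : p y * ζ y = p y ^ 2 / Real.sqrt (p y ^ 2 + δ ^ 2) := by
          rw [hζ]; simp only; ring
        rw [h3, ← sub_le_iff_le_add, le_div_iff₀ hs]
        have h4 : Real.sqrt (p y ^ 2 + δ ^ 2) ≤ |p y| + δ := by
          apply Real.sqrt_le_iff.2
          refine ⟨by positivity, ?_⟩
          rw [← sq_abs (p y)]
          nlinarith [abs_nonneg (p y)]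
        by_cases h5 : δ ≤ |p y|
        · calc (|p y| - δ) * Real.sqrt (p y ^ 2 + δ ^ 2) ≤ (|p y| - δ) * (|p y| + δ) :=
                mul_le_mul_of_nonneg_left h4 (by linarith)
            _ ≤ p y ^ 2 := by rw [← sq_abs (p y)]; nlinarith
        · have : (|p y| - δ) * Real.sqrt (p y ^ 2 + δ ^ 2) ≤ 0 :=
            mul_nonpos_of_nonpos_of_nonneg (by linarith) hs.le
          nlinarith [sq_nonneg (p y)]
      · rw [Set.indicator_of_notMem hy]
        have : p y = 0 := image_eq_zero_of_notMem_tsupport hy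
        rw [this]; simp
    calc ∫ y, |p y| ≤ ∫ y, (p y * ζ y + (tsupport p).indicator (fun _ => δ) y) :=
          integral_mono hint2 (hint1.add hint3) h2
      _ = (∫ y, p y * ζ y) + δ * V := by
          rw [integral_add hint1 hint3, integral_indicator hKm, setIntegral_const, smul_eq_mul,
            mul_comm]
      _ ≤ m + δ * V := by
          have := (abs_le.1 h1).2
          linarith
  apply le_of_forall_pos_le_add
  intro ε hε
  have h6 := key (ε / (V + 1)) (by positivity)
  refine h6.trans ?_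
  have : ε / (V + 1) * V ≤ ε := by
    rw [div_mul_eq_mul_div, div_le_iff₀ (by positivity)]
    nlinarith
  linarith

theorem iso_bv_pd_conv {n : ℕ} (ρ : ContDiffBump (0 : E n)) (ζ : E n → ℝ) (hζ : ContDiff ℝ ∞ ζ)
    (hζc : HasCompactSupport ζ) (a : Fin n) (y : E n) :
    pd (MeasureTheory.convolution (ρ.normed volume) ζ (ContinuousLinearMap.lsmul ℝ ℝ) volume) a y =
    (MeasureTheory.convolution (ρ.normed volume) (pd ζ a) (ContinuousLinearMap.lsmul ℝ ℝ) volume) y := by
  have hρ : LocallyIntegrable (ρ.normed volume) (volume : Measure (E n)) :=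
    (ρ.integrable_normed).locallyIntegrable
  have h1 : ContDiff ℝ 1 ζ := hζ.of_le (by exact_mod_cast le_top)
  have h2 := HasCompactSupport.hasFDerivAt_convolution_right
    (ContinuousLinearMap.lsmul ℝ ℝ : ℝ →L[ℝ] ℝ →L[ℝ] ℝ) hζc hρ h1 y
  unfold pd
  rw [h2.fderiv]
  exact convolution_precompR_apply (ContinuousLinearMap.lsmul ℝ ℝ : ℝ →L[ℝ] ℝ →L[ℝ] ℝ) hρ
    (hζc.fderiv ℝ) (h1.continuous_fderiv one_ne_zero) y (Pi.single a 1)

theorem iso_bv_conv_le {n : ℕ} (ρ : ContDiffBump (0 : E n)) (ζ : E n → ℝ)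
    (h : ∀ y, |ζ y| ≤ 1) (y : E n) :
    |(MeasureTheory.convolution (ρ.normed volume) ζ (ContinuousLinearMap.lsmul ℝ ℝ) volume) y| ≤ 1 := by
  have h1 : ‖∫ t, (ContinuousLinearMap.lsmul ℝ ℝ : ℝ →L[ℝ] ℝ →L[ℝ] ℝ) (ρ.normed volume t) (ζ (y - t))‖ ≤
      ∫ t, ρ.normed (volume : Measure (E n)) t := by
    refine norm_integral_le_of_norm_le ρ.integrable_normed (Filter.Eventually.of_forall fun t => ?_)
    rw [ContinuousLinearMap.lsmul_apply, smul_eq_mul, norm_mul, Real.norm_eq_abs, Real.norm_eq_abs,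
      abs_of_nonneg (ρ.nonneg_normed t)]
    exact mul_le_of_le_one_right (ρ.nonneg_normed t) (h _)
  rw [ρ.integral_normed] at h1
  exact h1

theorem iso_bv_moll {n : ℕ} (f : E n → ℝ) (hf : Integrable f) (ρ : ContDiffBump (0 : E n)) (m : ℝ)
    (hm : ∀ ζ : E n → ℝ, ContDiff ℝ ∞ ζ → HasCompactSupport ζ → ∀ A : ℝ, (∀ y, |ζ y| ≤ A) →
      ∀ a, |∫ y, f y * pd ζ a y| ≤ m * A) (ζ : E n → ℝ) (hζ : ContDiff ℝ ∞ ζ)
    (hζc : HasCompactSupport ζ) (hζ1 : ∀ y, |ζ y| ≤ 1) (a : Fin n) :
    |∫ x, (∫ y, ρ.normed volume (x - y) * f y) * pd ζ a x| ≤ m := by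
  have hρc : Continuous (ρ.normed (volume : Measure (E n))) := (ρ.contDiff_normed (n := 0)).continuous
  have hpc : Continuous (pd ζ a) := continuous_pd (hζ.of_le (by exact_mod_cast le_top)) a
  have hpcs : HasCompactSupport (pd ζ a) := by
    refine hζc.mono' ?_
    intro x hx
    by_contra hcon
    exact hx (pd_eq_zero_of_notMem hcon a)
  have hpi : Integrable (pd ζ a) := hpc.integrable_of_hasCompactSupport hpcs
  -- Fubini
  have hprod : Integrable (Function.uncurry fun (x y : E n) =>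
      ρ.normed volume (x - y) * f y * pd ζ a x) ((volume : Measure (E n)).prod volume) := by
    have h1 : Integrable (fun z : E n × E n => pd ζ a z.1 * f z.2)
        ((volume : Measure (E n)).prod volume) := hpi.mul_prod hf
    have h2 : Continuous fun z : E n × E n => ρ.normed (volume : Measure (E n)) (z.1 - z.2) :=
      hρc.comp (continuous_fst.sub continuous_snd)
    obtain ⟨B, hB⟩ := (ρ.hasCompactSupport_normed (μ := (volume : Measure (E n)))).exists_bound_of_continuous hρc
    have h3 := h1.bdd_mul (c := B) h2.aestronglyMeasurable (Filter.Eventually.of_forall fun z => hB _)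
    refine h3.congr (Filter.Eventually.of_forall fun z => ?_)
    simp only [Function.uncurry]
    ring
  have e1 : ∫ x, (∫ y, ρ.normed volume (x - y) * f y) * pd ζ a x =
      ∫ y, f y * pd (MeasureTheory.convolution (ρ.normed volume) ζ
        (ContinuousLinearMap.lsmul ℝ ℝ) volume) a y := by
    have h4 : ∀ x, (∫ y, ρ.normed volume (x - y) * f y) * pd ζ a x =
        ∫ y, ρ.normed volume (x - y) * f y * pd ζ a x := by
      intro x
      rw [integral_mul_const]
    simp only [h4]
    rw [integral_integral_swap hprod]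
    congr 1
    funext y
    rw [iso_bv_pd_conv ρ ζ hζ hζc a y, ← moll_conv, ← integral_const_mul]
    congr 1
    funext x
    have h5 : ρ.normed volume (x - y) = ρ.normed volume (y - x) := by
      rw [← ρ.normed_neg (μ := volume) (x - y), neg_sub]
    rw [h5]
    ring
  rw [e1]
  have hs : ContDiff ℝ ∞ (MeasureTheory.convolution (ρ.normed volume) ζ
      (ContinuousLinearMap.lsmul ℝ ℝ) volume) :=
    HasCompactSupport.contDiff_convolution_right _ hζc
      (ρ.integrable_normed).locallyIntegrable hζ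
  have hcs : HasCompactSupport (MeasureTheory.convolution (ρ.normed volume) ζ
      (ContinuousLinearMap.lsmul ℝ ℝ) volume) :=
    HasCompactSupport.convolution _ ρ.hasCompactSupport_normed hζc
  have := hm _ hs hcs 1 (iso_bv_conv_le ρ ζ hζ1) a
  rwa [mul_one] at this

theorem iso_bv_smooth {N : ℕ} (hN : 2 ≤ N) (f : E N → ℝ) (hf : Integrable f)
    (hR : ∃ R : ℝ, ∀ y, R < ‖y‖ → f y = 0) (m : ℝ) (hm0 : 0 ≤ m)
    (hm : ∀ ζ : E N → ℝ, ContDiff ℝ ∞ ζ → HasCompactSupport ζ → ∀ A : ℝ, (∀ y, |ζ y| ≤ A) →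
      ∀ a, |∫ y, f y * pd ζ a y| ≤ m * A) (ρ : ContDiffBump (0 : E N)) :
    ∫⁻ x, ‖∫ y, ρ.normed volume (x - y) * f y‖ₑ ^ ((N : ℝ) / ((N : ℝ) - 1)) ≤
      (lintegralPowLePowLIntegralFDerivConst (volume : Measure (E N))
        ((N : ℝ) / ((N : ℝ) - 1)) : ℝ≥0∞) *
      (ENNReal.ofReal (N * m)) ^ ((N : ℝ) / ((N : ℝ) - 1)) := by
  obtain ⟨R, hR⟩ := hR
  have hfc : HasCompactSupport f :=
    HasCompactSupport.intro (isCompact_closedBall (0 : E N) R) fun y hy => by
      apply hR
      simpa using hy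
  set u : E N → ℝ := MeasureTheory.convolution (ρ.normed volume) f
    (ContinuousLinearMap.lsmul ℝ ℝ) volume with hu
  have hux : ∀ x, ∫ y, ρ.normed volume (x - y) * f y = u x := fun x => moll_conv f ρ x
  have hus : ContDiff ℝ ∞ u := HasCompactSupport.contDiff_convolution_left _
    ρ.hasCompactSupport_normed ρ.contDiff_normed hf.locallyIntegrable
  have hucs : HasCompactSupport u := HasCompactSupport.convolution _ ρ.hasCompactSupport_normed hfc
  have hus1 : ContDiff ℝ 1 u := hus.of_le (by exact_mod_cast le_top)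
  have hN1 : (1 : ℝ) < N := by exact_mod_cast hN
  have hconj : ((Module.finrank ℝ (E N) : ℕ) : ℝ).HolderConjugate ((N : ℝ) / ((N : ℝ) - 1)) := by
    rw [Module.finrank_fin_fun, Real.holderConjugate_iff]
    refine ⟨hN1, ?_⟩
    have h0 : (N : ℝ) ≠ 0 := by linarith
    have h1 : (N : ℝ) - 1 ≠ 0 := by linarith
    field_simp
    ring
  have hq0 : 0 ≤ (N : ℝ) / ((N : ℝ) - 1) := by
    apply div_nonneg <;> linarith
  have hgns := lintegral_pow_le_pow_lintegral_fderiv (volume : Measure (E N)) hus1 hucs hconj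
  simp only [hux]
  refine hgns.trans ?_
  gcongr
  -- derivative bound
  have hpcs : ∀ a, HasCompactSupport (pd u a) := fun a => by
    refine hucs.mono' ?_
    intro x hx
    by_contra hcon
    exact hx (pd_eq_zero_of_notMem hcon a)
  have hps : ∀ a, ContDiff ℝ ∞ (pd u a) := fun a => by
    unfold pd
    have h1 : ContDiff ℝ ∞ (fderiv ℝ u) := hus.fderiv_right (by exact_mod_cast le_top)
    exact h1.clm_apply contDiff_const
  have hpd : ∀ a, ∫ x, |pd u a x| ≤ m := by
    intro a
    apply iso_bv_l1 (pd u a) (hps a) (hpcs a)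
    intro ζ hζ hζc hζ1
    have hζd : Differentiable ℝ ζ := hζ.differentiable (by simp)
    have hud : Differentiable ℝ u := hus.differentiable (by simp)
    have hpζ : Continuous (pd ζ a) := continuous_pd (hζ.of_le (by exact_mod_cast le_top)) a
    have h3 := integral_mul_fderiv_eq_neg_fderiv_mul_of_integrable (μ := (volume : Measure (E N)))
      (f := u) (g := ζ) (v := Pi.single a 1)
      (((hps a).continuous.mul hζ.continuous).integrable_of_hasCompactSupport (hpcs a).mul_right)
      ((hus.continuous.mul hpζ).integrable_of_hasCompactSupport hucs.mul_right)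
      ((hus.continuous.mul hζ.continuous).integrable_of_hasCompactSupport hucs.mul_right)
      (fun x _ => hud x) (fun x _ => hζd x)
    have h4 : ∫ x, pd u a x * ζ x = - ∫ x, u x * pd ζ a x := by
      have h5 : ∫ x, u x * pd ζ a x = - ∫ x, pd u a x * ζ x := h3
      rw [h5, neg_neg]
    rw [h4, abs_neg]
    have h6 := iso_bv_moll f hf ρ m hm ζ hζ hζc hζ1 a
    simp only [hux] at h6
    exact h6
  have hgri : Integrable (gr u) := by
    unfold gr
    refine integrable_finsetSum _ fun a _ => ?_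
    exact (hps a).continuous.abs.integrable_of_hasCompactSupport (hpcs a).abs
  calc ∫⁻ x, ‖fderiv ℝ u x‖ₑ ≤ ∫⁻ x, ENNReal.ofReal (gr u x) := by
        refine lintegral_mono fun x => ?_
        rw [← ofReal_norm]
        exact ENNReal.ofReal_le_ofReal (norm_fderiv_le_gr u x)
    _ = ENNReal.ofReal (∫ x, gr u x) :=
        (ofReal_integral_eq_lintegral_ofReal hgri (Filter.Eventually.of_forall (gr_nonneg u))).symm
    _ ≤ ENNReal.ofReal (N * m) := by
        apply ENNReal.ofReal_le_ofReal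
        unfold gr
        rw [integral_finsetSum _ fun a _ =>
          (hps a).continuous.abs.integrable_of_hasCompactSupport (hpcs a).abs]
        calc ∑ a, ∫ x, |pd u a x| ≤ ∑ _a : Fin N, m := Finset.sum_le_sum fun a _ => hpd a
          _ = N * m := by simp

theorem iso_bv {N : ℕ} (hN : 2 ≤ N) : ∃ C : ℝ, 0 < C ∧ ∀ f : E N → ℝ, Integrable f →
    (∃ R : ℝ, ∀ y, R < ‖y‖ → f y = 0) → ∀ m : ℝ, 0 ≤ m →
    (∀ ζ : E N → ℝ, ContDiff ℝ ∞ ζ → HasCompactSupport ζ → ∀ A : ℝ, (∀ y, |ζ y| ≤ A) →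
      ∀ a, |∫ y, f y * pd ζ a y| ≤ m * A) →
    ∫⁻ y, ENNReal.ofReal (|f y| ^ ((N : ℝ) / ((N : ℝ) - 1))) ≤
      ENNReal.ofReal (C * m ^ ((N : ℝ) / ((N : ℝ) - 1))) := by
  set q : ℝ := (N : ℝ) / ((N : ℝ) - 1) with hq
  have hN1 : (1 : ℝ) < N := by exact_mod_cast hN
  have hq0 : 0 < q := by
    apply div_pos <;> linarith
  set c0 : ℝ≥0 := lintegralPowLePowLIntegralFDerivConst (volume : Measure (E N)) q with hc0
  refine ⟨c0 * (N : ℝ) ^ q + 1, by positivity, ?_⟩
  intro f hf hR m hm0 hm
  -- mollifiers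
  set φ : ℕ → ContDiffBump (0 : E N) := fun k =>
    ⟨1 / (2 * ((k : ℝ) + 1)), 1 / ((k : ℝ) + 1), by positivity, by
      apply one_div_lt_one_div_of_lt (by positivity)
      have : (0 : ℝ) ≤ k := Nat.cast_nonneg k
      linarith⟩ with hφ
  have hφr : Tendsto (fun k => (φ k).rOut) atTop (𝓝 0) := tendsto_one_div_add_atTop_nhds_zero_nat
  set w : ℕ → E N → ℝ := fun k x => ∫ y, (φ k).normed volume (x - y) * f y with hw
  have hwc : ∀ k, Continuous (w k) := by
    intro k
    have : w k = MeasureTheory.convolution ((φ k).normed volume) f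
        (ContinuousLinearMap.lsmul ℝ ℝ) volume := by
      funext x; exact moll_conv f (φ k) x
    rw [this]
    exact (HasCompactSupport.contDiff_convolution_left (n := 0) _
      (φ k).hasCompactSupport_normed (φ k).contDiff_normed hf.locallyIntegrable).continuous
  have hl1 := moll_l1 hf φ hφr
  have hmeas : TendstoInMeasure volume w atTop f := by
    apply tendstoInMeasure_of_tendsto_eLpNorm one_ne_zero
      (fun k => (hwc k).aestronglyMeasurable) hf.aestronglyMeasurable
    simp only [eLpNorm_one_eq_lintegral_enorm]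
    exact hl1
  obtain ⟨ns, hns, hae⟩ := hmeas.exists_seq_tendsto_ae
  have hbd : ∀ k, ∫⁻ x, ‖w k x‖ₑ ^ q ≤ (c0 : ℝ≥0∞) * (ENNReal.ofReal (N * m)) ^ q := fun k =>
    iso_bv_smooth hN f hf hR m hm0 hm (φ k)
  have hfat : ∫⁻ x, ‖f x‖ₑ ^ q ≤ (c0 : ℝ≥0∞) * (ENNReal.ofReal (N * m)) ^ q := by
    have h1 : ∫⁻ x, ‖f x‖ₑ ^ q = ∫⁻ x, liminf (fun i => ‖w (ns i) x‖ₑ ^ q) atTop := by
      apply lintegral_congr_ae
      filter_upwards [hae] with x hx
      have h2 : Tendsto (fun i => ‖w (ns i) x‖ₑ ^ q) atTop (𝓝 (‖f x‖ₑ ^ q)) :=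
        ((ENNReal.continuous_rpow_const.tendsto _).comp (hx.enorm))
      exact h2.liminf_eq.symm
    rw [h1]
    refine (lintegral_liminf_le fun i => ?_).trans ?_
    · exact ((hwc (ns i)).enorm.measurable).pow_const q
    · refine liminf_le_of_frequently_le' (Filter.Frequently.of_forall fun i => hbd (ns i))
  have e1 : ∀ y, ENNReal.ofReal (|f y| ^ q) = ‖f y‖ₑ ^ q := by
    intro y
    rw [← ofReal_norm, Real.norm_eq_abs, ENNReal.ofReal_rpow_of_nonneg (abs_nonneg _) hq0.le]
  simp only [e1]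
  refine hfat.trans ?_
  rw [ENNReal.ofReal_rpow_of_nonneg (by positivity) hq0.le]
  have e2 : (c0 : ℝ≥0∞) = ENNReal.ofReal (c0 : ℝ) := (ENNReal.ofReal_coe_nnreal).symm
  rw [e2, ← ENNReal.ofReal_mul (by positivity)]
  apply ENNReal.ofReal_le_ofReal
  rw [Real.mul_rpow (by positivity) hm0]
  have : 0 ≤ m ^ q := Real.rpow_nonneg hm0 q
  nlinarith

end H930.HS.XIsoBv

namespace H930.HS

export XIsoBv (iso_bv)

end H930.HS
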