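import Pool.Agent.Helper930.HS.OscB
import Pool.Agent.Helper930.HS.ContO

set_option autoImplicit false

open MeasureTheory Metric Set Filter Topology
open scoped ENNReal NNReal ContDiff

namespace H930.HS.XMainR

open H930.BL



lemma mr_fn_smul {m n : ℕ} (M : Matrix (Fin m) (Fin n) ℝ) {c : ℝ} (hc : 0 ≤ c) :
    fn (c • M) = c * fn M := by
  unfold fn
  have h : ∑ a, ∑ b, (c • M) a b ^ 2 = c ^ 2 * ∑ a, ∑ b, M a b ^ 2 := by
    simp [Finset.mul_sum, mul_pow]
  rw [h, Real.sqrt_mul (by positivity), Real.sqrt_sq hc]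

lemma mr_scale {n : ℕ} (hn : 2 ≤ n) {Ω : Set (E n)} {H : E (n + 1) → ℝ}
    {u : E n → E (n + 1)} {Du : E n → Matrix (Fin (n + 1)) (Fin n) ℝ} (hs : WSol Ω H u Du)
    {c r : ℝ} (hc : 0 < c) (hcr : r * c = 1) :
    WSol Ω (fun y => r * H (r • y)) (fun x => c • u x) (fun x => c • Du x) := by
  obtain ⟨h1, h2, h3⟩ := hs
  refine ⟨h1.const_smul c, fun i j => ?_, fun φ hφ hφc hφs => ⟨fun i j => ?_, fun i => ?_⟩⟩
  · exact (h2 i j).const_mul c
  · have := (h3 φ hφ hφc hφs).1 i j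
    simp only [Pi.smul_apply, Matrix.smul_apply, smul_eq_mul, mul_assoc]
    rw [integral_const_mul, integral_const_mul, this]; ring
  · have hh := (h3 φ hφ hφc hφs).2 i
    have e1 : ∀ x, Real.sqrt (∑ a, ∑ b, (c • Du x) a b ^ 2) ^ (n - 2)
          * ∑ j, (c • Du x) i j * fderiv ℝ φ x (Pi.single j 1)
        = c ^ (n - 1) * (Real.sqrt (∑ a, ∑ b, Du x a b ^ 2) ^ (n - 2)
          * ∑ j, Du x i j * fderiv ℝ φ x (Pi.single j 1)) := by
      intro x
      have h4 := mr_fn_smul (Du x) hc.le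
      unfold fn at h4
      have h5 : ∑ j, (c • Du x) i j * fderiv ℝ φ x (Pi.single j 1)
          = c * ∑ j, Du x i j * fderiv ℝ φ x (Pi.single j 1) := by
        rw [Finset.mul_sum]
        refine Finset.sum_congr rfl fun j _ => ?_
        rw [Matrix.smul_apply, smul_eq_mul]; ring
      rw [h4, h5, mul_pow]
      have h6 : c ^ (n - 1) = c ^ (n - 2) * c := by
        rw [← pow_succ]; congr 1; omega
      rw [h6]; ring
    have e2 : ∀ x, (r * H (r • (c • u x))) * ((-1 : ℝ) ^ (i : ℕ) *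
          ((c • Du x).submatrix i.succAbove id).det) * φ x
        = c ^ (n - 1) * (H (u x) * ((-1 : ℝ) ^ (i : ℕ) *
          ((Du x).submatrix i.succAbove id).det) * φ x) := by
      intro x
      rw [smul_smul, hcr, one_smul]
      have h7 : (c • Du x).submatrix i.succAbove id = c • ((Du x).submatrix i.succAbove id) := rfl
      rw [h7, Matrix.det_smul, Fintype.card_fin]
      have h8 : r * c ^ n = c ^ (n - 1) := by
        have : c ^ n = c * c ^ (n - 1) := by
          rw [← pow_succ']; congr 1; omega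
        rw [this, ← mul_assoc, hcr, one_mul]
      rw [← h8]; ring
    simp only [e1, e2]
    rw [integral_const_mul, integral_const_mul, hh]

lemma mr_int {n : ℕ} (hn : 2 ≤ n) {Ω : Set (E n)} {H : E (n + 1) → ℝ}
    {u : E n → E (n + 1)} {Du : E n → Matrix (Fin (n + 1)) (Fin n) ℝ} (hs : WSol Ω H u Du) :
    IntegrableOn (fun x => fn (Du x) ^ n) Ω := by
  have h2 := hs.2.1
  have hle : ∀ x, fn (Du x) ≤ ∑ a, ∑ b, |Du x a b| := by
    intro x
    unfold fn
    have h0 : 0 ≤ ∑ a, ∑ b, |Du x a b| :=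
      Finset.sum_nonneg fun _ _ => Finset.sum_nonneg fun _ _ => abs_nonneg _
    rw [show (∑ a, ∑ b, |Du x a b|) = Real.sqrt ((∑ a, ∑ b, |Du x a b|) ^ 2) from
      (Real.sqrt_sq h0).symm]
    apply Real.sqrt_le_sqrt
    have h3 : ∀ a b, |Du x a b| ≤ ∑ a, ∑ b, |Du x a b| := fun a b =>
      (Finset.single_le_sum (f := fun b => |Du x a b|) (fun _ _ => abs_nonneg _)
        (Finset.mem_univ b)).trans
        (Finset.single_le_sum (f := fun a => ∑ b, |Du x a b|)
          (fun _ _ => Finset.sum_nonneg fun _ _ => abs_nonneg _) (Finset.mem_univ a))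
    calc ∑ a, ∑ b, Du x a b ^ 2 ≤ ∑ a, ∑ b, (∑ a, ∑ b, |Du x a b|) * |Du x a b| := by
          refine Finset.sum_le_sum fun a _ => Finset.sum_le_sum fun b _ => ?_
          rw [← sq_abs, sq]
          exact mul_le_mul_of_nonneg_right (h3 a b) (abs_nonneg _)
      _ = (∑ a, ∑ b, |Du x a b|) ^ 2 := by
          simp only [← Finset.mul_sum]
          rw [sq]
  have hm : MemLp (fun x => ∑ a, ∑ b, |Du x a b|) (n : ENNReal) (volume.restrict Ω) := by
    refine memLp_finsetSum _ fun a _ => memLp_finsetSum _ fun b _ => ?_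
    exact (h2 a b).abs
  have hmeas : AEStronglyMeasurable (fun x => fn (Du x)) (volume.restrict Ω) := by
    unfold fn
    refine (Real.continuous_sqrt.comp_aestronglyMeasurable ?_)
    refine Finset.aestronglyMeasurable_fun_sum _ fun a _ =>
      Finset.aestronglyMeasurable_fun_sum _ fun b _ => ?_
    exact ((h2 a b).1).pow 2
  have hfn : MemLp (fun x => fn (Du x)) (n : ENNReal) (volume.restrict Ω) := by
    refine MemLp.of_le hm hmeas (Eventually.of_forall fun x => ?_)
    have h0 : 0 ≤ fn (Du x) := Real.sqrt_nonneg _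
    rw [Real.norm_eq_abs, Real.norm_eq_abs, abs_of_nonneg h0]
    exact (hle x).trans (le_abs_self _)
  have := hfn.integrable_norm_pow (by omega : n ≠ 0)
  refine this.congr (Eventually.of_forall fun x => ?_)
  have h0 : 0 ≤ fn (Du x) := Real.sqrt_nonneg _
  simp only
  rw [Real.norm_eq_abs, abs_of_nonneg h0]

theorem main_reg {n : ℕ} (hn : 2 ≤ n) {Ω : Set (E n)} (hΩ : IsOpen Ω) {H : E (n + 1) → ℝ}
    (hb : ∃ M : ℝ, ∀ y, |H y| ≤ M) (hL : ∃ K : NNReal, LipschitzWith K H)
    {u : E n → E (n + 1)} {Du : E n → Matrix (Fin (n + 1)) (Fin n) ℝ} (hs : WSol Ω H u Du) :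
    ∃ v : E n → E (n + 1), ContinuousOn v Ω ∧ u =ᵐ[volume.restrict Ω] v := by
  obtain ⟨M, hM⟩ := hb
  obtain ⟨K, hK⟩ := hL
  have hM0 : 0 ≤ M := (abs_nonneg _).trans (hM 0)
  obtain ⟨ε, hε, hosc⟩ := osc_base hn (max M K)
  refine cont_osc (by omega) hΩ u hs.1.1 ?_
  intro x0 hx0 ρ hρ
  obtain ⟨r, hr0, hr1, hrρ⟩ : ∃ r : ℝ, 0 < r ∧ r ≤ 1 ∧ 2 * r ≤ ρ := by
    refine ⟨(min ρ 1) / 2, by positivity, ?_, ?_⟩
    · have := min_le_right ρ 1; linarith
    · have := min_le_left ρ 1; linarith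
  obtain ⟨c, hc⟩ : ∃ c : ℝ, c = r⁻¹ := ⟨_, rfl⟩
  have hc0 : 0 < c := by rw [hc]; positivity
  have hcr : r * c = 1 := by rw [hc]; exact mul_inv_cancel₀ hr0.ne'
  have hs' := mr_scale hn hs hc0 hcr
  have hI := mr_int hn hs
  obtain ⟨R, hR0, hR⟩ : ∃ R : ℝ, 0 < R ∧ closedBall x0 R ⊆ Ω :=
    Metric.nhds_basis_closedBall.mem_iff.1 (hΩ.mem_nhds hx0)
  -- smallness
  have hsmall : ∃ h : ℝ, 0 < h ∧ 3 * h ≤ R ∧
      ∫ x in closedBall x0 (2 * h), fn (Du x) ^ n ≤ ε * r ^ n := by
    have hT : Tendsto (fun h : ℝ => (volume.restrict Ω) (closedBall x0 (2 * h))) (𝓝[>] 0) (𝓝 0) := by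
      have h1 : Tendsto (fun h : ℝ => ENNReal.ofReal ((2 * (2 * h)) ^ n)) (𝓝[>] 0) (𝓝 0) := by
        have : Tendsto (fun h : ℝ => (2 * (2 * h)) ^ n) (𝓝[>] 0) (𝓝 ((2 * (2 * 0)) ^ n)) := by
          apply tendsto_nhdsWithin_of_tendsto_nhds
          exact (Continuous.tendsto (by fun_prop) 0)
        have h2 := ENNReal.tendsto_ofReal this
        simpa [show n ≠ 0 by omega] using h2
      refine tendsto_of_tendsto_of_tendsto_of_le_of_le' tendsto_const_nhds h1
        (Eventually.of_forall fun _ => zero_le) ?_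
      filter_upwards [self_mem_nhdsWithin] with h hh
      have hh : 0 < h := hh
      rw [← volume_cube x0 (by positivity : (0:ℝ) ≤ 2 * h)]
      exact Measure.restrict_apply_le _ _
    have h3 := Integrable.tendsto_setIntegral_nhds_zero hI hT
    have h4 : ∀ᶠ h in 𝓝[>] (0:ℝ),
        ∫ x in closedBall x0 (2 * h), fn (Du x) ^ n ∂(volume.restrict Ω) < ε * r ^ n :=
      (tendsto_order.1 h3).2 _ (by positivity)
    have h5 : ∀ᶠ h in 𝓝[>] (0:ℝ), 3 * h ≤ R := by
      have : ∀ᶠ h in 𝓝 (0:ℝ), 3 * h < R := by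
        have ht : Tendsto (fun h : ℝ => 3 * h) (𝓝 0) (𝓝 (3 * 0)) :=
          Continuous.tendsto (by fun_prop : Continuous fun h : ℝ => 3 * h) 0
        exact (tendsto_order.1 ht).2 R (by simpa using hR0)
      filter_upwards [nhdsWithin_le_nhds this] with h hh using hh.le
    obtain ⟨h, hh4, hh5, hh0⟩ := (h4.and (h5.and self_mem_nhdsWithin)).exists
    have hh0 : 0 < h := hh0
    refine ⟨h, hh0, hh5, ?_⟩
    rw [Measure.restrict_restrict measurableSet_closedBall] at hh4
    rw [show closedBall x0 (2 * h) ∩ Ω = closedBall x0 (2 * h) from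
      inter_eq_left.2 ((closedBall_subset_closedBall (by linarith)).trans hR)] at hh4
    exact hh4.le
  obtain ⟨h, hh0, hhR, hhe⟩ := hsmall
  refine ⟨h, hh0, (closedBall_subset_closedBall (by linarith)).trans hR, ?_⟩
  have key := hosc (Ω := Ω) (H := fun y => r * H (r • y)) (u := fun x => c • u x)
    (Du := fun x => c • Du x) hΩ ?_ ?_ hs' x0 h hh0
    ((closedBall_subset_closedBall hhR).trans hR) ?_
  · filter_upwards [key] with x hx
    filter_upwards [hx] with y hy
    intro a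
    have h6 := hy a
    simp only [Pi.smul_apply, smul_eq_mul] at h6
    rw [← mul_sub, abs_mul, abs_of_pos hc0] at h6
    calc |u x a - u y a| = r * (c * |u x a - u y a|) := by rw [← mul_assoc, hcr, one_mul]
      _ ≤ r * 2 := mul_le_mul_of_nonneg_left h6 hr0.le
      _ ≤ ρ := by linarith
  · intro y
    rw [abs_mul, abs_of_pos hr0]
    calc r * |H (r • y)| ≤ 1 * M := mul_le_mul hr1 (hM _) (abs_nonneg _) zero_le_one
      _ = M := one_mul _
      _ ≤ _ := le_max_left _ _
  · intro y z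
    rw [← mul_sub, abs_mul, abs_of_pos hr0]
    have h7 : |H (r • y) - H (r • z)| ≤ K * ‖r • y - r • z‖ := by
      have := hK.dist_le_mul (r • y) (r • z)
      rwa [Real.dist_eq, dist_eq_norm] at this
    rw [← smul_sub, norm_smul, Real.norm_eq_abs, abs_of_pos hr0] at h7
    have hn0 : 0 ≤ ‖y - z‖ := norm_nonneg _
    have hK0 : (0:ℝ) ≤ K := K.2
    calc r * |H (r • y) - H (r • z)| ≤ r * (K * (r * ‖y - z‖)) :=
          mul_le_mul_of_nonneg_left h7 hr0.le
      _ = (r * r) * (K * ‖y - z‖) := by ring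
      _ ≤ 1 * (K * ‖y - z‖) := by
          apply mul_le_mul_of_nonneg_right _ (by positivity)
          nlinarith
      _ = K * ‖y - z‖ := one_mul _
      _ ≤ _ := mul_le_mul_of_nonneg_right (le_max_right _ _) hn0
  · simp only [mr_fn_smul _ hc0.le, mul_pow]
    rw [integral_const_mul]
    calc c ^ n * ∫ x in closedBall x0 (2 * h), fn (Du x) ^ n ≤ c ^ n * (ε * r ^ n) :=
          mul_le_mul_of_nonneg_left hhe (by positivity)
      _ = ε * (r * c) ^ n := by rw [mul_pow]; ring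
      _ = ε := by rw [hcr, one_pow, mul_one]

end H930.HS.XMainR

namespace H930.HS

export XMainR (main_reg)

end H930.HS
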