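import Pool.Agent.Helper930.HS.IndAbs
import Pool.Agent.Helper930.HS.CD3
import Pool.Agent.Helper930.HS.CD2
import Pool.Agent.Helper930.HS.SideD
import Pool.Agent.Helper930.HS.WtS
import Pool.Agent.Helper930.HS.TLe

set_option autoImplicit false

open MeasureTheory Metric Set Filter Topology
open scoped ENNReal NNReal ContDiff

namespace H930.HS.XMass

open H930.BL



theorem ms_meas_s {n : ℕ} (Q : Bx n) : MeasurableSet Q.s := by
  have : Q.s = Set.pi univ (fun i => Ico (Q.a i) (Q.b i)) := by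
    ext x
    simp [Bx.s]
  rw [this]
  exact MeasurableSet.univ_pi fun i => measurableSet_Ico

theorem ms_cl_eq {n : ℕ} (Q : Bx n) : Q.cl = Icc Q.a Q.b := by
  ext x
  simp only [Bx.cl, mem_Icc, Pi.le_def]
  constructor
  · intro h
    exact ⟨fun i => (h i).1, fun i => (h i).2⟩
  · intro h i
    exact ⟨h.1 i, h.2 i⟩

theorem ms_s_cl {n : ℕ} (Q : Bx n) : Q.s ⊆ Q.cl := fun _ hx i => ⟨(hx i).1, (hx i).2.le⟩

theorem ms_cont {n : ℕ} {u : E n → E (n + 1)} (hu : ContDiff ℝ ∞ u) :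
    Continuous fun x => fn (Dm u x) ^ n := by
  have h1 : ∀ a b, Continuous fun x => Dm u x a b := by
    intro a b
    exact continuous_pd ((contDiff_pi.1 (hu.of_le (by exact_mod_cast le_top))) a) b
  unfold fn
  refine Continuous.pow (Real.continuous_sqrt.comp ?_) n
  exact continuous_finsetSum _ fun a _ => continuous_finsetSum _ fun b _ => (h1 a b).pow 2

theorem ms_int_s {n : ℕ} {u : E n → E (n + 1)} (hu : ContDiff ℝ ∞ u) (Q : Bx n) :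
    IntegrableOn (fun x => fn (Dm u x) ^ n) Q.s := by
  have h1 : IsCompact Q.cl := by rw [ms_cl_eq]; exact isCompact_Icc
  exact ((ms_cont hu).continuousOn.integrableOn_compact h1).mono_set (ms_s_cl Q)

theorem ms_fn_nonneg {n : ℕ} {u : E n → E (n + 1)} (x : E n) : 0 ≤ fn (Dm u x) ^ n :=
  pow_nonneg (Real.sqrt_nonneg _) n

theorem ms_sum_le {n : ℕ} {f : E n → ℝ} (hf : ∀ x, 0 ≤ f x) {Q : Bx n} (hint : IntegrableOn f Q.s)
    (c : Finset (Bx n)) (hsub : ∀ κ ∈ c, κ.s ⊆ Q.s)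
    (hdis : ∀ κ ∈ c, ∀ κ' ∈ c, κ ≠ κ' → Disjoint κ.s κ'.s) :
    ∑ κ ∈ c, ∫ x in κ.s, f x ≤ ∫ x in Q.s, f x := by
  have h1 : ∫ x in (⋃ κ ∈ c, κ.s), f x = ∑ κ ∈ c, ∫ x in κ.s, f x := by
    rw [integral_biUnion_finset c (fun κ _ => ms_meas_s κ) (fun κ hκ κ' hκ' hne =>
      hdis κ hκ κ' hκ' hne) (fun κ hκ => hint.mono_set (hsub κ hκ))]
  rw [← h1]
  refine setIntegral_mono_set hint (Filter.Eventually.of_forall hf) ?_
  exact (Set.iUnion₂_subset hsub).eventuallyLE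

theorem ms_chain {n : ℕ} (hn : 2 ≤ n) (M : ℝ) : ∃ β ε C : ℝ, 0 < β ∧ β ≤ (1 : ℝ) / n ∧ 0 < ε ∧
    0 < C ∧ ∀ {B : Set (E n)}
    {H : E (n + 1) → ℝ} {u : E n → E (n + 1)} {ν : E n → ℝ} {P : Bx n → Prop}
    {ch : Bx n → Finset (Bx n)} {rk : Bx n → ℕ} {d : Bx n → E (n + 1) → ℝ} {S : Bx n → ℝ},
    Sys M B H u ν P ch rk d S → ∀ (m : ℕ) (q : ℕ → Bx n), P (q 0) →
    (∀ i < m, q (i + 1) ∈ ch (q i)) → EN u (q 0).s ≤ ε → ∫ x in (q 0).s, ν x ≤ 1 →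
    ∑ i ∈ Finset.range m, ∑ κ ∈ ch (q i), Dq ch d κ ≤
      C * EN u (q 0).s ^ β * (S (q 0) + ∫ x in (q 0).s, ν x) := by
  rcases Nat.lt_or_ge 2 n with h | h
  · obtain ⟨ε, C, hε, hC, h1⟩ := chain_D3 (n := n) h M
    have hn0 : (0 : ℝ) < n := by exact_mod_cast (by omega : 0 < n)
    refine ⟨(1 : ℝ) / n, ε, C, by positivity, le_rfl, hε, hC, ?_⟩
    intro B H u ν P ch rk d S hs m q h0 hq hE _
    exact h1 hs m q h0 hq hE
  · have h2 : n = 2 := by omega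
    obtain ⟨ε, C, hε, hC, h1⟩ := chain_D2 h2 M
    refine ⟨(1 : ℝ) / 4, ε, C, by norm_num, ?_, hε, hC, ?_⟩
    · rw [h2]; norm_num
    · intro B H u ν P ch rk d S hs m q h0 hq hE hν
      exact h1 hs m q h0 hq hE hν

theorem mass_small {n : ℕ} (hn : 2 ≤ n) (M : ℝ) : ∃ ε K : ℝ, 0 < ε ∧ 0 < K ∧ ∀ {B : Set (E n)}
    {H : E (n + 1) → ℝ} {u : E n → E (n + 1)} {ν : E n → ℝ} {P : Bx n → Prop}
    {ch : Bx n → Finset (Bx n)} {rk : Bx n → ℕ} {d : Bx n → E (n + 1) → ℝ} {S : Bx n → ℝ},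
    Sys M B H u ν P ch rk d S → (∫ x in B, ν x) ≤ 1 → ∀ Q, P Q → EN u Q.s ≤ ε →
    S Q ≤ K * ∫ x in Q.s, ν x := by
  classical
  obtain ⟨β, ε₁, C₁, hβ, hβn, hε₁, hC₁, hchain⟩ := ms_chain hn M
  obtain ⟨ε₂, C₂, hε₂, hC₂, hside⟩ := sideD hn M
  obtain ⟨ε₃, K, hε₃, hK, hind⟩ := ind_abs (C := C₁ + C₂) (β := β) (by positivity) hβ
  have hn0 : (0 : ℝ) < n := by exact_mod_cast (by omega : 0 < n)
  set ε₀ : ℝ := min (min ε₁ ε₂) 1 with hε₀
  have hε₀pos : 0 < ε₀ := lt_min (lt_min hε₁ hε₂) one_pos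
  have h01 : ε₀ ≤ ε₁ := (min_le_left _ _).trans (min_le_left _ _)
  have h02 : ε₀ ≤ ε₂ := (min_le_left _ _).trans (min_le_right _ _)
  have h03 : ε₀ ≤ 1 := min_le_right _ _
  refine ⟨min ε₃ ε₀, K, lt_min hε₃ hε₀pos, hK, ?_⟩
  intro B H u ν P ch rk d S hs hνB Q hPQ hEQ
  have hu := hs.cells.smooth
  have hνint : ∀ Q, P Q → IntegrableOn ν Q.s := fun Q hQ =>
    hs.nint.mono_set ((ms_s_cl Q).trans (hs.sub Q hQ))
  have hENmono : ∀ Q κ : Bx n, κ.s ⊆ Q.s → EN u κ.s ≤ EN u Q.s := by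
    intro Q κ hsub
    exact setIntegral_mono_set (ms_int_s hu Q) (Filter.Eventually.of_forall fun x =>
      ms_fn_nonneg x) hsub.eventuallyLE
  have hνmono : ∀ Q κ : Bx n, P Q → κ.s ⊆ Q.s → ∫ x in κ.s, ν x ≤ ∫ x in Q.s, ν x := by
    intro Q κ hQ hsub
    exact setIntegral_mono_set (hνint Q hQ) (Filter.Eventually.of_forall fun x => hs.nn x)
      hsub.eventuallyLE
  have hS0 : ∀ Q, P Q → 0 ≤ S Q := fun Q hQ => (T_le hs Q hQ).1
  have hEN0 : ∀ Q : Bx n, 0 ≤ EN u Q.s := fun Q => integral_nonneg fun x => ms_fn_nonneg x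
  have hν0 : ∀ Q : Bx n, 0 ≤ ∫ x in Q.s, ν x := fun Q => integral_nonneg fun x => hs.nn x
  have hDq0 : ∀ κ, 0 ≤ Dq ch d κ := fun κ => integral_nonneg fun x => abs_nonneg _
  refine hind (fun Q => P Q ∧ EN u Q.s ≤ ε₀) ch rk S (fun Q => EN u Q.s)
    (fun Q => ∫ x in Q.s, ν x) ?_ ?_ ?_ ?_ ?_ ?_ ?_ ?_ Q ⟨hPQ, hEQ.trans (min_le_right _ _)⟩
    (hEQ.trans (min_le_left _ _))
  · intro Q hQ κ hκ
    exact ⟨hs.cells.chP Q hQ.1 κ hκ, (hENmono Q κ (hs.cells.chs Q hQ.1 κ hκ)).trans hQ.2⟩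
  · intro Q hQ κ hκ
    exact hs.cells.rk_lt Q hQ.1 κ hκ
  · intro Q hQ
    exact hS0 Q hQ.1
  · intro Q _
    exact hEN0 Q
  · intro Q _
    exact hν0 Q
  · intro Q hQ
    exact ms_sum_le (fun x => ms_fn_nonneg x) (ms_int_s hu Q) (ch Q) (hs.cells.chs Q hQ.1)
      (hs.cells.disj Q hQ.1)
  · intro Q hQ
    exact ms_sum_le hs.nn (hνint Q hQ.1) (ch Q) (hs.cells.chs Q hQ.1) (hs.cells.disj Q hQ.1)
  · intro m q h0 hq _
    obtain ⟨hP0, hE0⟩ := h0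
    have hPi : ∀ i ≤ m, P (q i) ∧ (q i).s ⊆ (q 0).s := by
      intro i
      induction i with
      | zero => intro _; exact ⟨hP0, Subset.rfl⟩
      | succ i ih =>
        intro hi
        obtain ⟨a1, a2⟩ := ih (by omega)
        have a3 := hq i (by omega)
        exact ⟨hs.cells.chP _ a1 _ a3, (hs.cells.chs _ a1 _ a3).trans a2⟩
    obtain ⟨hPm, hsm⟩ := hPi m le_rfl
    have hcS := chain_S hs m q hP0 hq
    have hν1 : ∫ x in (q 0).s, ν x ≤ 1 := by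
      refine le_trans ?_ hνB
      exact setIntegral_mono_set hs.nint (Filter.Eventually.of_forall fun x => hs.nn x)
        ((ms_s_cl _).trans (hs.sub _ hP0)).eventuallyLE
    have hA := hchain hs m q hP0 hq (hE0.trans h01) hν1
    have hEm : EN u (q m).s ≤ EN u (q 0).s := hENmono _ _ hsm
    have hB := (hside hs (q m) hPm (hEm.trans (hE0.trans h02))).1
    have hA0 : 0 ≤ ∑ i ∈ Finset.range m, ∑ κ ∈ ch (q i), Dq ch d κ :=
      Finset.sum_nonneg fun i _ => Finset.sum_nonneg fun κ _ => hDq0 κ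
    have hB0 : 0 ≤ ∑ i ∈ Finset.range m, ∑ κ ∈ (ch (q i)).erase (q (i + 1)), S κ := by
      refine Finset.sum_nonneg fun i hi => Finset.sum_nonneg fun κ hκ => ?_
      exact hS0 κ (hs.cells.chP _ (hPi i (Finset.mem_range.1 hi).le).1 κ (Finset.mem_of_mem_erase hκ))
    have hSm : S (q m) ≤ S (q 0) := by linarith
    have hνm : ∫ x in (q m).s, ν x ≤ ∫ x in (q 0).s, ν x := hνmono _ _ hP0 hsm
    have hpow : EN u (q m).s ^ ((1 : ℝ) / n) ≤ EN u (q 0).s ^ β := by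
      refine (Real.rpow_le_rpow (hEN0 _) hEm (by positivity)).trans ?_
      exact Real.rpow_le_rpow_of_exponent_ge' (hEN0 _) (hE0.trans h03) hβ.le hβn
    have hrec := hs.Srec (q m) hPm
    rw [Finset.sum_add_distrib] at hrec
    have hpow0 : 0 ≤ EN u (q 0).s ^ β := Real.rpow_nonneg (hEN0 _) _
    have hB2 : C₂ * EN u (q m).s ^ ((1 : ℝ) / n) * (S (q m) + ∫ x in (q m).s, ν x) ≤
        C₂ * EN u (q 0).s ^ β * (S (q 0) + ∫ x in (q 0).s, ν x) := by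
      have b1 : C₂ * EN u (q m).s ^ ((1 : ℝ) / n) ≤ C₂ * EN u (q 0).s ^ β :=
        mul_le_mul_of_nonneg_left hpow hC₂.le
      have b2 : 0 ≤ S (q m) + ∫ x in (q m).s, ν x := add_nonneg (hS0 _ hPm) (hν0 _)
      exact mul_le_mul b1 (add_le_add hSm hνm) b2 (mul_nonneg hC₂.le hpow0)
    have e1 : (C₁ + C₂) * EN u (q 0).s ^ β * (S (q 0) + ∫ x in (q 0).s, ν x) =
        C₁ * EN u (q 0).s ^ β * (S (q 0) + ∫ x in (q 0).s, ν x) +
        C₂ * EN u (q 0).s ^ β * (S (q 0) + ∫ x in (q 0).s, ν x) := by ring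
    show S (q 0) ≤ (C₁ + C₂) * EN u (q 0).s ^ β * (S (q 0) + ∫ x in (q 0).s, ν x) +
        (∑ i ∈ Finset.range m, ∑ κ ∈ (ch (q i)).erase (q (i + 1)), S κ) + ∑ κ ∈ ch (q m), S κ
    rw [e1]
    linarith


end H930.HS.XMass

namespace H930.HS

export XMass (mass_small)

end H930.HS
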