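import Pool.Agent.Helper930.HS.Exp
import Pool.Agent.Helper930.BL.J09a

set_option autoImplicit false

open MeasureTheory Metric Set Filter Topology
open scoped ENNReal NNReal ContDiff

namespace H930.HS.XMollS

open H930.BL



/-- mollification -/
noncomputable def ms_mo {n : ℕ} (ψ : ContDiffBump (0 : E n)) (u : E n → ℝ) (x : E n) : ℝ :=
  ∫ y, ψ.normed volume (x - y) * u y

theorem ms_mo_eq {n : ℕ} (ψ : ContDiffBump (0 : E n)) (u : E n → ℝ) :
    ms_mo ψ u = MeasureTheory.convolution u (ψ.normed volume) (ContinuousLinearMap.mul ℝ ℝ)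
      volume := by
  funext x
  unfold ms_mo MeasureTheory.convolution
  refine integral_congr_ae (Eventually.of_forall fun y => ?_)
  simp [mul_comm]

theorem ms_smooth {n : ℕ} (ψ : ContDiffBump (0 : E n)) {u : E n → ℝ} (hu : Integrable u) :
    ContDiff ℝ ∞ (ms_mo ψ u) := by
  rw [ms_mo_eq]
  exact ψ.hasCompactSupport_normed.contDiff_convolution_right _ hu.locallyIntegrable
    ψ.contDiff_normed

theorem ms_pd {n : ℕ} (ψ : ContDiffBump (0 : E n)) {u : E n → ℝ} (hu : Integrable u) (j : Fin n)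
    (x : E n) : pd (ms_mo ψ u) j x = ∫ y, u y * pd (ψ.normed volume) j (x - y) := by
  have hρ : ContDiff ℝ 1 (ψ.normed volume : E n → ℝ) := ψ.contDiff_normed
  rw [ms_mo_eq]
  unfold pd
  rw [(ψ.hasCompactSupport_normed.hasFDerivAt_convolution_right _ hu.locallyIntegrable
    hρ x).fderiv]
  rw [convolution_precompR_apply _ hu.locallyIntegrable
    (ψ.hasCompactSupport_normed.fderiv (𝕜 := ℝ)) (hρ.continuous_fderiv one_ne_zero)]
  rfl

theorem ms_rho_int {n : ℕ} (ψ : ContDiffBump (0 : E n)) (x : E n) :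
    Integrable (fun y => ψ.normed volume (x - y)) :=
  (ψ.integrable_normed (μ := volume)).comp_sub_left x

theorem ms_rho_one {n : ℕ} (ψ : ContDiffBump (0 : E n)) (x : E n) :
    ∫ y, ψ.normed volume (x - y) = 1 := by
  rw [integral_sub_left_eq_self (fun y => ψ.normed volume y) volume x]
  exact ψ.integral_normed

theorem ms_bern {n : ℕ} (hn : 2 ≤ n) {t c : ℝ} (ht : 0 ≤ t) (hc : 0 ≤ c) :
    c ^ n + n * c ^ (n - 1) * (t - c) ≤ t ^ n := by
  rcases hc.eq_or_lt with rfl | hc
  · rw [zero_pow (by omega), zero_pow (by omega)]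
    simp only [mul_zero, zero_mul, add_zero]
    positivity
  · have h1 : (-1 : ℝ) ≤ t / c := by
      have : 0 ≤ t / c := div_nonneg ht hc.le
      linarith
    have h2 := one_add_mul_sub_le_pow h1 n
    have h3 : c ^ n = c ^ (n - 1) * c := by
      rw [← pow_succ]; congr 1; omega
    have h4 := mul_le_mul_of_nonneg_left h2 (pow_pos hc n).le
    rw [div_pow, mul_div_cancel₀ _ (pow_pos hc n).ne'] at h4
    have h5 : c ^ n * (1 + n * (t / c - 1)) = c ^ n + n * c ^ (n - 1) * (t - c) := by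
      rw [h3]
      field_simp
    linarith

theorem ms_abs_le {n : ℕ} (ψ : ContDiffBump (0 : E n)) (u : E n → ℝ) (x : E n) :
    |ms_mo ψ u x| ≤ ms_mo ψ (fun y => |u y|) x := by
  unfold ms_mo
  refine (abs_integral_le_integral_abs).trans (le_of_eq ?_)
  refine integral_congr_ae (Eventually.of_forall fun y => ?_)
  simp only [abs_mul, abs_of_nonneg (ψ.nonneg_normed _)]

theorem ms_jensen {n : ℕ} (hn : 2 ≤ n) (ψ : ContDiffBump (0 : E n)) {u : E n → ℝ}
    (hu : Integrable u) (hun : Integrable (fun y => |u y| ^ n)) (x : E n) :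
    |ms_mo ψ u x| ^ n ≤ ms_mo ψ (fun y => |u y| ^ n) x := by
  have hua : Integrable (fun y => |u y|) := hu.abs
  set c := ms_mo ψ (fun y => |u y|) x with hc
  have hc0 : 0 ≤ c := (abs_nonneg _).trans (ms_abs_le ψ u x)
  have i1 := moll_integrable hua ψ x
  have i2 := moll_integrable hun ψ x
  have i0 := ms_rho_int ψ x
  have key : ∫ y, (c ^ n * ψ.normed volume (x - y) +
      n * c ^ (n - 1) * (ψ.normed volume (x - y) * |u y| - c * ψ.normed volume (x - y))) ≤
      ∫ y, ψ.normed volume (x - y) * |u y| ^ n := by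
    refine integral_mono ((i0.const_mul _).add ((i1.sub (i0.const_mul _)).const_mul _)) i2
      fun y => ?_
    have h1 := ms_bern hn (abs_nonneg (u y)) hc0
    have h2 := mul_le_mul_of_nonneg_left h1 (ψ.nonneg_normed (μ := volume) (x - y))
    dsimp only
    calc _ = ψ.normed volume (x - y) * (c ^ n + n * c ^ (n - 1) * (|u y| - c)) := by ring
      _ ≤ _ := h2
  have e1 : ∫ y, (c ^ n * ψ.normed volume (x - y) +
      n * c ^ (n - 1) * (ψ.normed volume (x - y) * |u y| - c * ψ.normed volume (x - y))) =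
      c ^ n * (∫ y, ψ.normed volume (x - y)) + n * c ^ (n - 1) *
        ((∫ y, ψ.normed volume (x - y) * |u y|) - c * ∫ y, ψ.normed volume (x - y)) := by
    rw [← integral_const_mul, ← integral_const_mul c, ← integral_sub i1 (i0.const_mul c),
      ← integral_const_mul, ← integral_add (i0.const_mul _)]
    exact (i1.sub (i0.const_mul _)).const_mul _
  rw [e1, ms_rho_one] at key
  have h3 : ∫ y, ψ.normed volume (x - y) * |u y| = c := rfl
  rw [h3] at key
  have h4 : c ^ n ≤ ms_mo ψ (fun y => |u y| ^ n) x := by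
    change c ^ n ≤ ∫ y, ψ.normed volume (x - y) * |u y| ^ n
    linarith
  exact (pow_le_pow_left₀ (abs_nonneg _) (ms_abs_le ψ u x) n).trans h4

theorem ms_enorm_pow (n : ℕ) (a : ℝ) : ‖a‖ₑ ^ n = ‖|a| ^ n‖ₑ := by
  rw [Real.enorm_eq_ofReal_abs, Real.enorm_eq_ofReal_abs, abs_pow, abs_abs,
    ENNReal.ofReal_pow (abs_nonneg _)]

theorem ms_eLp {n : ℕ} (hn : 2 ≤ n) (f : E n → ℝ) :
    eLpNorm f (n : ENNReal) volume = (∫⁻ x, ‖f x‖ₑ ^ n) ^ (1 / (n : ℝ)) := by
  rw [eLpNorm_eq_lintegral_rpow_enorm_toReal (by simp; omega) (by simp)]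
  simp only [ENNReal.toReal_natCast, ENNReal.rpow_natCast]

theorem ms_contr {n : ℕ} (hn : 2 ≤ n) (ψ : ContDiffBump (0 : E n)) {u : E n → ℝ}
    (hu : Integrable u) (hun : Integrable (fun y => |u y| ^ n)) :
    eLpNorm (ms_mo ψ u) (n : ENNReal) volume ≤ eLpNorm u (n : ENNReal) volume := by
  rw [ms_eLp hn, ms_eLp hn]
  refine ENNReal.rpow_le_rpow ?_ (by positivity)
  calc ∫⁻ x, ‖ms_mo ψ u x‖ₑ ^ n ≤ ∫⁻ x, ‖ms_mo ψ (fun y => |u y| ^ n) x‖ₑ := by
        refine lintegral_mono fun x => ?_
        dsimp only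
        rw [ms_enorm_pow, Real.enorm_eq_ofReal_abs, Real.enorm_eq_ofReal_abs]
        refine ENNReal.ofReal_le_ofReal ?_
        rw [abs_of_nonneg (by positivity)]
        exact (ms_jensen hn ψ hu hun x).trans (le_abs_self _)
    _ ≤ ∫⁻ y, ‖|u y| ^ n‖ₑ := moll_contr hun ψ
    _ = _ := by
        refine lintegral_congr fun y => ?_
        rw [ms_enorm_pow]

theorem ms_bound {n : ℕ} (ψ : ContDiffBump (0 : E n)) {g : E n → ℝ} (hg : Integrable g) {M : ℝ}
    (hM : ∀ y, |g y| ≤ M) (x : E n) : |ms_mo ψ g x| ≤ M := by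
  refine (ms_abs_le ψ g x).trans ?_
  unfold ms_mo
  calc ∫ y, ψ.normed volume (x - y) * |g y| ≤ ∫ y, M * ψ.normed volume (x - y) := by
        refine integral_mono (moll_integrable hg.abs ψ x) ((ms_rho_int ψ x).const_mul _)
          fun y => ?_
        dsimp only
        rw [mul_comm]
        exact mul_le_mul_of_nonneg_right (hM y) (ψ.nonneg_normed _)
    _ = M := by rw [integral_const_mul, ms_rho_one, mul_one]

theorem ms_cc {n : ℕ} (hn : 2 ≤ n) {g : E n → ℝ} (hg : Continuous g) (hgc : HasCompactSupport g)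
    (φ : ℕ → ContDiffBump (0 : E n)) (hφ : Tendsto (fun k => (φ k).rOut) atTop (𝓝 0)) :
    Tendsto (fun k => eLpNorm (fun x => ms_mo (φ k) g x - g x) (n : ENNReal) volume)
      atTop (𝓝 0) := by
  obtain ⟨M, hM⟩ := hgc.exists_bound_of_continuous hg
  have hgi : Integrable g := hg.integrable_of_hasCompactSupport hgc
  have h0 := moll_cc hg hgc φ hφ
  have h1 : Tendsto (fun k => ∫⁻ x, ‖ms_mo (φ k) g x - g x‖ₑ ^ n) atTop (𝓝 0) := by
    have h2 : Tendsto (fun k => ENNReal.ofReal (2 * M) ^ (n - 1) *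
        ∫⁻ x, ‖ms_mo (φ k) g x - g x‖ₑ) atTop (𝓝 0) := by
      have := ENNReal.Tendsto.const_mul (a := ENNReal.ofReal (2 * M) ^ (n - 1)) h0
        (Or.inr (by finiteness))
      rw [mul_zero] at this
      exact this
    refine tendsto_of_tendsto_of_tendsto_of_le_of_le tendsto_const_nhds h2
      (fun k => zero_le) fun k => ?_
    dsimp only
    rw [← lintegral_const_mul' _ _ (by finiteness)]
    refine lintegral_mono fun x => ?_
    have h3 : ‖ms_mo (φ k) g x - g x‖ₑ ≤ ENNReal.ofReal (2 * M) := by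
      rw [Real.enorm_eq_ofReal_abs]
      refine ENNReal.ofReal_le_ofReal ?_
      refine (abs_sub _ _).trans ?_
      have := ms_bound (φ k) hgi (fun y => by simpa using hM y) x
      have h5 := hM x
      rw [Real.norm_eq_abs] at h5
      linarith
    have h4 : n = (n - 1) + 1 := by omega
    calc ‖ms_mo (φ k) g x - g x‖ₑ ^ n = ‖ms_mo (φ k) g x - g x‖ₑ ^ (n - 1) *
          ‖ms_mo (φ k) g x - g x‖ₑ := by
          rw [← pow_succ, ← h4]
      _ ≤ _ := by gcongr
  have h5 : Tendsto (fun k => (∫⁻ x, ‖ms_mo (φ k) g x - g x‖ₑ ^ n) ^ (1 / (n : ℝ))) atTop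
      (𝓝 0) := by
    have hc := (ENNReal.continuous_rpow_const (y := 1 / (n : ℝ))).tendsto 0
    rw [ENNReal.zero_rpow_of_pos (by positivity)] at hc
    exact hc.comp h1
  refine h5.congr fun k => ?_
  rw [ms_eLp hn]

theorem ms_conv {n : ℕ} (hn : 2 ≤ n) {H : E n → ℝ} (hH : Integrable H)
    (hHn : MemLp H (n : ENNReal) volume)
    (φ : ℕ → ContDiffBump (0 : E n)) (hφ : Tendsto (fun k => (φ k).rOut) atTop (𝓝 0)) :
    Tendsto (fun k => eLpNorm (fun x => ms_mo (φ k) H x - H x) (n : ENNReal) volume)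
      atTop (𝓝 0) := by
  have hp1 : (1 : ENNReal) ≤ (n : ENNReal) := by
    exact_mod_cast (by omega : 1 ≤ n)
  rw [ENNReal.tendsto_atTop_zero]
  intro ε hε
  obtain ⟨g, hgc, hgε, hg, hgn⟩ := hHn.exists_hasCompactSupport_eLpNorm_sub_le (by simp)
    (ε := ε / 3) (by simpa using hε.ne')
  have hgi : Integrable g := hg.integrable_of_hasCompactSupport hgc
  have hcc := ms_cc hn hg hgc φ hφ
  rw [ENNReal.tendsto_atTop_zero] at hcc
  obtain ⟨N, hN⟩ := hcc (ε / 3) (ENNReal.div_pos hε.ne' (by simp))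
  refine ⟨N, fun k hk => ?_⟩
  have hd : Integrable (H - g) := hH.sub hgi
  have hdn : MemLp (H - g) (n : ENNReal) volume := hHn.sub hgn
  have hdn' : Integrable (fun y => |(H - g) y| ^ n) := by
    have := hdn.integrable_norm_pow (by omega)
    simpa only [Real.norm_eq_abs] using this
  have e1 : (fun x => ms_mo (φ k) H x - H x) =
      (ms_mo (φ k) (H - g) + (fun x => ms_mo (φ k) g x - g x)) + (g - H) := by
    funext x
    simp only [Pi.add_apply, Pi.sub_apply]
    have : ms_mo (φ k) H x = ms_mo (φ k) (H - g) x + ms_mo (φ k) g x := by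
      unfold ms_mo
      rw [← integral_add (moll_integrable hd (φ k) x) (moll_integrable hgi (φ k) x)]
      refine integral_congr_ae (Eventually.of_forall fun y => ?_)
      simp only [Pi.sub_apply]
      ring
    rw [this]
    ring
  have m1 : AEStronglyMeasurable (ms_mo (φ k) (H - g)) volume :=
    (ms_smooth (φ k) hd).continuous.aestronglyMeasurable
  have m2 : AEStronglyMeasurable (fun x => ms_mo (φ k) g x - g x) volume :=
    ((ms_smooth (φ k) hgi).continuous.sub hg).aestronglyMeasurable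
  have m3 : AEStronglyMeasurable (g - H) volume := (hgi.sub hH).aestronglyMeasurable
  rw [e1]
  calc _ ≤ eLpNorm (ms_mo (φ k) (H - g) + (fun x => ms_mo (φ k) g x - g x)) (n : ENNReal) volume +
        eLpNorm (g - H) (n : ENNReal) volume := eLpNorm_add_le (m1.add m2) m3 hp1
    _ ≤ (eLpNorm (ms_mo (φ k) (H - g)) (n : ENNReal) volume +
        eLpNorm (fun x => ms_mo (φ k) g x - g x) (n : ENNReal) volume) +
        eLpNorm (g - H) (n : ENNReal) volume := by
          gcongr
          exact eLpNorm_add_le m1 m2 hp1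
    _ ≤ (ε / 3 + ε / 3) + ε / 3 := by
          refine add_le_add (add_le_add ?_ (hN k hk)) ?_
          · exact (ms_contr hn (φ k) hd hdn').trans hgε
          · rw [eLpNorm_sub_comm]
            exact hgε
    _ = ε := by
          rw [ENNReal.add_thirds]

theorem ms_int {n : ℕ} (hn : 2 ≤ n) {H : E n → ℝ} (hH : Integrable H)
    (hHn : MemLp H (n : ENNReal) volume)
    (φ : ℕ → ContDiffBump (0 : E n)) (hφ : Tendsto (fun k => (φ k).rOut) atTop (𝓝 0))
    (K : Set (E n)) :
    Tendsto (fun k => ∫ x in K, |ms_mo (φ k) H x - H x| ^ n) atTop (𝓝 0) := by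
  have h0 := ms_conv hn hH hHn φ hφ
  have h1 : Tendsto (fun k => ∫⁻ x, ‖ms_mo (φ k) H x - H x‖ₑ ^ n) atTop (𝓝 0) := by
    have hc := ((ENNReal.continuous_pow n).tendsto 0).comp h0
    rw [zero_pow (by omega)] at hc
    refine hc.congr fun k => ?_
    simp only [Function.comp]
    rw [ms_eLp hn, ← ENNReal.rpow_natCast, ← ENNReal.rpow_mul]
    rw [one_div, inv_mul_cancel₀ (by positivity), ENNReal.rpow_one]
  have h2 := (ENNReal.tendsto_toReal ENNReal.zero_ne_top).comp h1
  rw [ENNReal.toReal_zero] at h2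
  have hfin : ∀ᶠ k in atTop, ∫⁻ x, ‖ms_mo (φ k) H x - H x‖ₑ ^ n < 1 :=
    h1.eventually (gt_mem_nhds one_pos)
  refine tendsto_of_tendsto_of_tendsto_of_le_of_le' tendsto_const_nhds h2
    (Eventually.of_forall fun k => integral_nonneg fun x => by positivity) ?_
  filter_upwards [hfin] with k hk
  simp only [Function.comp]
  have hm : AEStronglyMeasurable (fun x => |ms_mo (φ k) H x - H x| ^ n) (volume.restrict K) := by
    have : AEStronglyMeasurable (fun x => ms_mo (φ k) H x - H x) volume :=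
      (ms_smooth (φ k) hH).continuous.aestronglyMeasurable.sub hH.aestronglyMeasurable
    have h3 := (this.norm.pow n).mono_measure (Measure.restrict_le_self (s := K))
    simp only [Real.norm_eq_abs] at h3
    exact h3
  rw [integral_eq_lintegral_of_nonneg_ae
    (Eventually.of_forall fun x => pow_nonneg (abs_nonneg _) _) hm]
  refine ENNReal.toReal_mono hk.ne_top ?_
  refine (setLIntegral_le_lintegral _ _).trans (le_of_eq ?_)
  refine lintegral_congr fun x => ?_
  rw [ms_enorm_pow, Real.enorm_eq_ofReal_abs,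
    abs_of_nonneg (pow_nonneg (abs_nonneg (ms_mo (φ k) H x - H x)) n)]

theorem ms_ibp {n : ℕ} {Ω : Set (E n)} (hΩ : IsOpen Ω) (w : E n → ℝ)
    (G : Fin n → E n → ℝ)
    (hweak : ∀ φ : E n → ℝ, ContDiff ℝ ∞ φ → HasCompactSupport φ → tsupport φ ⊆ Ω →
      ∀ j, ∫ x in Ω, w x * pd φ j x = - ∫ x in Ω, G j x * φ x)
    (L : Set (E n)) (hLΩ : L ⊆ Ω) (ψ : ContDiffBump (0 : E n)) (x : E n)
    (hx : closedBall x ψ.rOut ⊆ L) (j : Fin n) :
    ∫ y, L.indicator w y * pd (ψ.normed volume) j (x - y) = ms_mo ψ (L.indicator (G j)) x := by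
  have hρ : ContDiff ℝ ∞ (ψ.normed volume : E n → ℝ) := ψ.contDiff_normed
  set φ : E n → ℝ := fun y => ψ.normed volume (x - y) with hφ
  have hφs : ContDiff ℝ ∞ φ := hρ.comp (contDiff_const.sub contDiff_id)
  have hsupp : Function.support φ ⊆ closedBall x ψ.rOut := by
    intro y hy
    have h1 : x - y ∈ Function.support (ψ.normed volume : E n → ℝ) := hy
    rw [ψ.support_normed_eq, mem_ball_zero_iff] at h1
    rw [mem_closedBall, dist_comm, dist_eq_norm]
    exact h1.le
  have htsupp : tsupport φ ⊆ closedBall x ψ.rOut := closure_minimal hsupp isClosed_closedBall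
  have hcs : HasCompactSupport φ :=
    HasCompactSupport.of_support_subset_isCompact (isCompact_closedBall x ψ.rOut) hsupp
  have hpd : ∀ y, pd φ j y = - pd (ψ.normed volume) j (x - y) := by
    intro y
    have h1 : HasFDerivAt (ψ.normed volume : E n → ℝ)
        (fderiv ℝ (ψ.normed volume : E n → ℝ) (x - y)) (x - y) :=
      ((hρ.differentiable (by simp)) (x - y)).hasFDerivAt
    have h2 : HasFDerivAt (fun z : E n => x - z) (-(ContinuousLinearMap.id ℝ (E n))) y :=
      (hasFDerivAt_id y).const_sub x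
    have h3 := h1.comp y h2
    unfold pd
    have h4 : fderiv ℝ φ y = _ := h3.fderiv
    rw [h4]
    simp
  have h := hweak φ hφs hcs (htsupp.trans (hx.trans hLΩ)) j
  have e1 : ∫ y in Ω, w y * pd φ j y = ∫ y, L.indicator w y * pd φ j y := by
    rw [← integral_indicator hΩ.measurableSet]
    refine integral_congr_ae (Eventually.of_forall fun y => ?_)
    by_cases hy : y ∈ L
    · simp only [indicator_of_mem (hLΩ hy), indicator_of_mem hy]
    · have h0 : pd φ j y = 0 := pd_eq_zero_of_notMem (fun h' => hy (hx (htsupp h'))) j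
      simp only [indicator_of_notMem hy, zero_mul]
      by_cases hy2 : y ∈ Ω
      · simp only [indicator_of_mem hy2, h0, mul_zero]
      · simp only [indicator_of_notMem hy2]
  have e2 : ∫ y in Ω, G j y * φ y = ∫ y, L.indicator (G j) y * φ y := by
    rw [← integral_indicator hΩ.measurableSet]
    refine integral_congr_ae (Eventually.of_forall fun y => ?_)
    by_cases hy : y ∈ L
    · simp only [indicator_of_mem (hLΩ hy), indicator_of_mem hy]
    · have h0 : φ y = 0 := image_eq_zero_of_notMem_tsupport (fun h' => hy (hx (htsupp h')))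
      simp only [indicator_of_notMem hy, zero_mul]
      by_cases hy2 : y ∈ Ω
      · simp only [indicator_of_mem hy2, h0, mul_zero]
      · simp only [indicator_of_notMem hy2]
  rw [e1, e2] at h
  simp only [hpd, mul_neg, integral_neg, neg_inj] at h
  rw [h]
  unfold ms_mo
  refine integral_congr_ae (Eventually.of_forall fun y => ?_)
  simp only [hφ, mul_comm]

theorem moll_seq {n : ℕ} (hn : 2 ≤ n) {Ω : Set (E n)} (hΩ : IsOpen Ω) (w : E n → ℝ)
    (G : Fin n → E n → ℝ) (hw : MemLp w (n : ENNReal) (volume.restrict Ω))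
    (hG : ∀ j, MemLp (G j) (n : ENNReal) (volume.restrict Ω))
    (hweak : ∀ φ : E n → ℝ, ContDiff ℝ ∞ φ → HasCompactSupport φ → tsupport φ ⊆ Ω →
      ∀ j, ∫ x in Ω, w x * pd φ j x = - ∫ x in Ω, G j x * φ x)
    (K : Set (E n)) (hK : IsCompact K) (hKΩ : K ⊆ Ω) :
    ∃ v : ℕ → E n → ℝ, (∀ k, ContDiff ℝ ∞ (v k)) ∧
      Tendsto (fun k => ∫ x in K, |v k x - w x| ^ n) atTop (𝓝 0) ∧
      ∀ j, Tendsto (fun k => ∫ x in K, |pd (v k) j x - G j x| ^ n) atTop (𝓝 0) := by
  have hp1 : (1 : ENNReal) ≤ (n : ENNReal) := by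
    exact_mod_cast (by omega : 1 ≤ n)
  obtain ⟨L, hL, hKL, hLΩ⟩ := exists_compact_between hK hΩ hKΩ
  obtain ⟨δ, hδ, hδL⟩ := hK.exists_cthickening_subset_open isOpen_interior hKL
  have hLm : MeasurableSet L := hL.measurableSet
  have hfinite : IsFiniteMeasure (volume.restrict L : Measure (E n)) :=
    ⟨by rw [Measure.restrict_apply_univ]; exact hL.measure_lt_top⟩
  have hmem : ∀ u : E n → ℝ, MemLp u (n : ENNReal) (volume.restrict Ω) →
      MemLp (L.indicator u) (n : ENNReal) volume ∧ Integrable (L.indicator u) := by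
    intro u hu
    have h1 : MemLp u (n : ENNReal) (volume.restrict L) :=
      hu.mono_measure (Measure.restrict_mono hLΩ le_rfl)
    exact ⟨(memLp_indicator_iff_restrict hLm).2 h1,
      (integrable_indicator_iff hLm).2 (h1.integrable hp1)⟩
  have hrpos : ∀ k : ℕ, 0 < δ / ((k : ℝ) + 1) := fun k => by positivity
  let φ : ℕ → ContDiffBump (0 : E n) := fun k =>
    ⟨δ / ((k : ℝ) + 1) / 2, δ / ((k : ℝ) + 1), half_pos (hrpos k), half_lt_self (hrpos k)⟩
  have hφ : Tendsto (fun k => (φ k).rOut) atTop (𝓝 0) := by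
    have h1 := (tendsto_one_div_add_atTop_nhds_zero_nat (𝕜 := ℝ)).const_mul δ
    rw [mul_zero] at h1
    refine h1.congr fun k => ?_
    change δ * (1 / ((k : ℝ) + 1)) = δ / ((k : ℝ) + 1)
    ring
  have hrle : ∀ k, (φ k).rOut ≤ δ := by
    intro k
    change δ / ((k : ℝ) + 1) ≤ δ
    exact div_le_self hδ.le (by linarith [Nat.cast_nonneg (α := ℝ) k])
  have hball : ∀ k, ∀ x ∈ K, closedBall x (φ k).rOut ⊆ L := by
    intro k x hx
    exact ((closedBall_subset_closedBall (hrle k)).trans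
      (closedBall_subset_cthickening hx δ)).trans (hδL.trans interior_subset)
  have hKL' : K ⊆ L := hKL.trans interior_subset
  refine ⟨fun k => ms_mo (φ k) (L.indicator w), fun k => ms_smooth (φ k) (hmem w hw).2, ?_, ?_⟩
  · refine (ms_int hn (hmem w hw).2 (hmem w hw).1 φ hφ K).congr fun k => ?_
    refine setIntegral_congr_fun hK.measurableSet fun x hx => ?_
    simp only [indicator_of_mem (hKL' hx)]
  · intro j
    refine (ms_int hn (hmem _ (hG j)).2 (hmem _ (hG j)).1 φ hφ K).congr fun k => ?_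
    refine setIntegral_congr_fun hK.measurableSet fun x hx => ?_
    simp only [indicator_of_mem (hKL' hx)]
    rw [ms_pd (φ k) (hmem w hw).2 j x,
      ms_ibp hΩ w G hweak L hLΩ (φ k) x (hball k x hx) j]

end H930.HS.XMollS

namespace H930.HS

export XMollS (moll_seq)

end H930.HS
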