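import Pool.Agent.Helper930.HS.Exp

set_option autoImplicit false

open MeasureTheory Metric Set Filter Topology
open scoped ENNReal NNReal ContDiff

namespace H930.HS.XMorBox

open H930.BL



theorem morrey_box_sub {m : ℕ} (G : E m → ℝ) (hG : Continuous G) (hG0 : ∀ z, 0 ≤ G z)
    (a b x : E m) (hx : x ∈ Icc a b) (τ : ℝ) (h0 : 0 < τ) (h1 : τ ≤ 1) :
    ∫ y in Icc a b, G (x + τ • (y - x)) ≤ (τ ^ m)⁻¹ * ∫ z in Icc a b, G z := by
  have hm : MeasurableSet (Icc a b) := measurableSet_Icc
  have hint : Integrable ((Icc a b).indicator G) := by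
    rw [integrable_indicator_iff hm]
    exact hG.continuousOn.integrableOn_compact isCompact_Icc
  have hcomp : ∫ y, (Icc a b).indicator G (x + τ • (y - x)) =
      (τ ^ m)⁻¹ * ∫ z in Icc a b, G z := by
    have e1 : ∀ y, (Icc a b).indicator G (x + τ • (y - x)) =
        (fun u => (Icc a b).indicator G ((x - τ • x) + u)) (τ • y) := by
      intro y
      simp only
      congr 1
      rw [smul_sub]
      abel
    have e2 := Measure.integral_comp_smul (volume : Measure (E m))
      (fun u : E m => (Icc a b).indicator G ((x - τ • x) + u)) τ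
    have e3 := integral_add_left_eq_self (μ := (volume : Measure (E m)))
      (fun u : E m => (Icc a b).indicator G u) (x - τ • x)
    rw [integral_congr_ae (Eventually.of_forall e1)]
    refine e2.trans ?_
    rw [e3, integral_indicator hm, smul_eq_mul, Module.finrank_fin_fun, abs_of_nonneg]
    positivity
  rw [← hcomp, ← integral_indicator hm]
  have hint2 : Integrable (fun y => (Icc a b).indicator G (x + τ • (y - x))) := by
    have e1 : (fun y => (Icc a b).indicator G (x + τ • (y - x))) =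
        fun y => (fun u => (Icc a b).indicator G ((x - τ • x) + u)) (τ • y) := by
      funext y
      simp only
      congr 1
      rw [smul_sub]
      abel
    rw [e1]
    exact (hint.comp_add_left _).comp_smul h0.ne'
  apply integral_mono_of_nonneg
  · exact Eventually.of_forall fun y => Set.indicator_nonneg (fun _ _ => hG0 _) _
  · exact hint2
  · refine Eventually.of_forall fun y => ?_
    by_cases hy : y ∈ Icc a b
    · have hy' : x + τ • (y - x) ∈ Icc a b :=
        (convex_Icc a b).add_smul_sub_mem hx hy ⟨h0.le, h1⟩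
      simp only
      rw [Set.indicator_of_mem hy, Set.indicator_of_mem hy']
    · simp only
      rw [Set.indicator_of_notMem hy]
      exact Set.indicator_nonneg (fun _ _ => hG0 _) _

theorem morrey_box_jensen (φ : ℝ → ℝ) (hφ : Continuous φ) (h0 : ∀ s, 0 ≤ φ s) (p : ℕ) :
    (∫ s in Ioc (0 : ℝ) 1, φ s) ^ p ≤ ∫ s in Ioc (0 : ℝ) 1, φ s ^ p := by
  have hpr : IsProbabilityMeasure (volume.restrict (Ioc (0 : ℝ) 1)) := by
    constructor
    simp
  have hi : ∀ ψ : ℝ → ℝ, Continuous ψ → Integrable ψ (volume.restrict (Ioc (0 : ℝ) 1)) := by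
    intro ψ hψ
    exact (hψ.continuousOn.integrableOn_compact isCompact_Icc).mono_set Ioc_subset_Icc_self
  exact (convexOn_pow p).map_integral_le (by fun_prop) isClosed_Ici
    (Eventually.of_forall fun s => h0 s) (hi φ hφ) (hi _ (hφ.pow p))

theorem morrey_box_ftc {m : ℕ} (w : E m → ℝ) (hw : ContDiff ℝ 1 w) (x y : E m) :
    |w y - w x| ^ (m + 1) ≤ ∫ s in Ioc (0 : ℝ) 1,
      ((m + 1 : ℝ) * s ^ m * (gr w (x + s ^ (m + 1) • (y - x)) * ‖y - x‖)) ^ (m + 1) := by
  have hfd : Continuous (fderiv ℝ w) := hw.continuous_fderiv one_ne_zero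
  have hγ : ∀ s : ℝ, HasDerivAt (fun s : ℝ => x + s ^ (m + 1) • (y - x))
      (((m + 1 : ℝ) * s ^ m) • (y - x)) s := by
    intro s
    have h1 := (hasDerivAt_pow (m + 1) s).smul_const (y - x)
    have h2 := h1.const_add x
    simpa using h2
  have hder : ∀ s : ℝ, HasDerivAt (fun s : ℝ => w (x + s ^ (m + 1) • (y - x)))
      (fderiv ℝ w (x + s ^ (m + 1) • (y - x)) (((m + 1 : ℝ) * s ^ m) • (y - x))) s := by
    intro s
    exact ((hw.differentiable one_ne_zero _).hasFDerivAt).comp_hasDerivAt s (hγ s)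
  have hcont : Continuous (fun s : ℝ =>
      fderiv ℝ w (x + s ^ (m + 1) • (y - x)) (((m + 1 : ℝ) * s ^ m) • (y - x))) := by
    apply Continuous.clm_apply
    · exact hfd.comp (by fun_prop)
    · fun_prop
  have hftc : ∫ s in (0 : ℝ)..1,
      fderiv ℝ w (x + s ^ (m + 1) • (y - x)) (((m + 1 : ℝ) * s ^ m) • (y - x)) = w y - w x := by
    rw [intervalIntegral.integral_eq_sub_of_hasDerivAt (fun s _ => hder s)
      (hcont.intervalIntegrable _ _)]
    simp
  have hi : ∀ ψ : ℝ → ℝ, Continuous ψ → IntegrableOn ψ (Ioc (0 : ℝ) 1) := by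
    intro ψ hψ
    exact (hψ.continuousOn.integrableOn_compact isCompact_Icc).mono_set Ioc_subset_Icc_self
  have h1 : |w y - w x| ≤ ∫ s in Ioc (0 : ℝ) 1,
      |fderiv ℝ w (x + s ^ (m + 1) • (y - x)) (((m + 1 : ℝ) * s ^ m) • (y - x))| := by
    rw [← hftc, intervalIntegral.integral_of_le zero_le_one]
    exact abs_integral_le_integral_abs
  have hgc : Continuous (gr w) := continuous_gr hw
  calc |w y - w x| ^ (m + 1)
      ≤ (∫ s in Ioc (0 : ℝ) 1,
        |fderiv ℝ w (x + s ^ (m + 1) • (y - x)) (((m + 1 : ℝ) * s ^ m) • (y - x))|) ^ (m + 1) := by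
        gcongr
    _ ≤ ∫ s in Ioc (0 : ℝ) 1,
        |fderiv ℝ w (x + s ^ (m + 1) • (y - x)) (((m + 1 : ℝ) * s ^ m) • (y - x))| ^ (m + 1) :=
        morrey_box_jensen _ hcont.abs (fun _ => abs_nonneg _) _
    _ ≤ _ := by
        apply setIntegral_mono_on (hi _ (hcont.abs.pow _)) _ measurableSet_Ioc
        · intro s hs
          have hs0 : 0 ≤ s := hs.1.le
          apply pow_le_pow_left₀ (abs_nonneg _)
          refine (abs_fderiv_apply_le w _ _).trans ?_
          rw [norm_smul, Real.norm_of_nonneg (by positivity : (0 : ℝ) ≤ (m + 1 : ℝ) * s ^ m)]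
          apply le_of_eq
          ring
        · apply hi
          fun_prop

theorem morrey_box_point {m : ℕ} (hm : 1 ≤ m) (w : E m → ℝ) (hw : ContDiff ℝ 1 w)
    (a b : E m) (L : ℝ) (hL : 0 ≤ L) (hab : ∀ i, b i - a i ≤ L) (x : E m) (hx : x ∈ Icc a b) :
    ∫ y in Icc a b, |w y - w x| ^ (m + 1) ≤
      ((m + 1 : ℝ) * L) ^ (m + 1) * ∫ z in Icc a b, gr w z ^ (m + 1) := by
  have hgc : Continuous (gr w) := continuous_gr hw
  have hwc : Continuous w := hw.continuous
  have hx' : ∀ y ∈ Icc a b, ‖y - x‖ ≤ L := by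
    intro y hy
    rw [pi_norm_le_iff_of_nonneg hL]
    intro i
    rw [Real.norm_eq_abs, Pi.sub_apply, abs_le]
    have h1 := hab i
    have h2 := hx.1 i
    have h3 := hx.2 i
    have h4 := hy.1 i
    have h5 := hy.2 i
    constructor <;> linarith
  -- the integrand
  let F : E m → ℝ → ℝ := fun y s =>
    ((m + 1 : ℝ) * L) ^ (m + 1) * ((s ^ m) ^ (m + 1) * gr w (x + s ^ (m + 1) • (y - x)) ^ (m + 1))
  have hFc : Continuous (Function.uncurry F) := by
    simp only [F]
    unfold Function.uncurry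
    fun_prop
  have hFint : Integrable (Function.uncurry F)
      ((volume.restrict (Icc a b)).prod (volume.restrict (Ioc (0 : ℝ) 1))) := by
    rw [Measure.prod_restrict]
    have h1 : IntegrableOn (Function.uncurry F) (Icc a b ×ˢ Icc (0 : ℝ) 1)
        ((volume : Measure (E m)).prod (volume : Measure ℝ)) :=
      hFc.continuousOn.integrableOn_compact (isCompact_Icc.prod isCompact_Icc)
    exact h1.mono_set (Set.prod_mono le_rfl Ioc_subset_Icc_self)
  have hi : ∀ ψ : E m → ℝ, Continuous ψ → IntegrableOn ψ (Icc a b) := by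
    intro ψ hψ
    exact hψ.continuousOn.integrableOn_compact isCompact_Icc
  have hi' : ∀ ψ : ℝ → ℝ, Continuous ψ → IntegrableOn ψ (Ioc (0 : ℝ) 1) := by
    intro ψ hψ
    exact (hψ.continuousOn.integrableOn_compact isCompact_Icc).mono_set Ioc_subset_Icc_self
  have hI0 : 0 ≤ ∫ z in Icc a b, gr w z ^ (m + 1) :=
    integral_nonneg fun z => pow_nonneg (gr_nonneg w z) _
  calc ∫ y in Icc a b, |w y - w x| ^ (m + 1)
      ≤ ∫ y in Icc a b, ∫ s in Ioc (0 : ℝ) 1, F y s := by
        apply setIntegral_mono_on (hi _ (by fun_prop)) hFint.integral_prod_left measurableSet_Icc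
        intro y hy
        refine (morrey_box_ftc w hw x y).trans ?_
        apply setIntegral_mono_on (hi' _ (by fun_prop)) (hi' _ (by simp only [F]; fun_prop))
          measurableSet_Ioc
        intro s hs
        have hs0 : 0 ≤ s := hs.1.le
        have h1 := gr_nonneg w (x + s ^ (m + 1) • (y - x))
        have h2 := hx' y hy
        simp only [F, Function.uncurry]
        rw [← mul_pow, ← mul_pow]
        apply pow_le_pow_left₀ (by positivity)
        calc (m + 1 : ℝ) * s ^ m * (gr w (x + s ^ (m + 1) • (y - x)) * ‖y - x‖)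
            ≤ (m + 1 : ℝ) * s ^ m * (gr w (x + s ^ (m + 1) • (y - x)) * L) := by gcongr
          _ = _ := by ring
    _ = ∫ s in Ioc (0 : ℝ) 1, ∫ y in Icc a b, F y s := integral_integral_swap hFint
    _ ≤ ∫ s in Ioc (0 : ℝ) 1, ((m + 1 : ℝ) * L) ^ (m + 1) * ∫ z in Icc a b, gr w z ^ (m + 1) := by
        apply setIntegral_mono_on hFint.integral_prod_right _ measurableSet_Ioc
        · intro s hs
          have hs0 : 0 < s := hs.1
          simp only [F, Function.uncurry]
          rw [integral_const_mul, integral_const_mul]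
          have h1 := morrey_box_sub (fun z => gr w z ^ (m + 1)) (by fun_prop)
            (fun z => pow_nonneg (gr_nonneg w z) _) a b x hx (s ^ (m + 1)) (by positivity)
            (pow_le_one₀ hs0.le hs.2)
          have h2 : (s ^ m) ^ (m + 1) * (((s ^ (m + 1)) ^ m)⁻¹ *
              ∫ z in Icc a b, gr w z ^ (m + 1)) = ∫ z in Icc a b, gr w z ^ (m + 1) := by
            have h3 : (s ^ m) ^ (m + 1) = (s ^ (m + 1)) ^ m := by ring
            rw [h3, ← mul_assoc, mul_inv_cancel₀ (by positivity), one_mul]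
          apply mul_le_mul_of_nonneg_left _ (by positivity)
          calc (s ^ m) ^ (m + 1) * ∫ y in Icc a b, gr w (x + s ^ (m + 1) • (y - x)) ^ (m + 1)
              ≤ (s ^ m) ^ (m + 1) * (((s ^ (m + 1)) ^ m)⁻¹ *
              ∫ z in Icc a b, gr w z ^ (m + 1)) := by
                apply mul_le_mul_of_nonneg_left h1 (by positivity)
            _ = _ := h2
        · exact hi' _ continuous_const
    _ = _ := by
        simp

theorem morrey_box {m : ℕ} (hm : 1 ≤ m) : ∃ C : ℝ, 0 < C ∧ ∀ (w : E m → ℝ), ContDiff ℝ 1 w →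
    ∀ (a b : E m) (L : ℝ), (∀ i, 0 < b i - a i ∧ b i - a i ≤ L ∧ L ≤ 3 * (b i - a i)) →
    ∀ x ∈ Icc a b, ∀ y ∈ Icc a b,
      |w x - w y| ^ (m + 1) ≤ C * L * ∫ z in Icc a b, gr w z ^ (m + 1) := by
  refine ⟨2 ^ (m + 1) * (m + 1 : ℝ) ^ (m + 1) * 3 ^ m, by positivity, ?_⟩
  intro w hw a b L hab x hx y hy
  have hL : 0 < L := by
    have h := hab ⟨0, hm⟩
    linarith [h.1, h.2.1]
  have hle : a ≤ b := fun i => by linarith [(hab i).1]
  have hwc : Continuous w := hw.continuous
  have hi : ∀ ψ : E m → ℝ, Continuous ψ → IntegrableOn ψ (Icc a b) := by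
    intro ψ hψ
    exact hψ.continuousOn.integrableOn_compact isCompact_Icc
  set I := ∫ z in Icc a b, gr w z ^ (m + 1) with hI
  have hI0 : 0 ≤ I := integral_nonneg fun z => pow_nonneg (gr_nonneg w z) _
  have h1 := morrey_box_point hm w hw a b L hL.le (fun i => (hab i).2.1) x hx
  have h2 := morrey_box_point hm w hw a b L hL.le (fun i => (hab i).2.1) y hy
  have h3 : ∫ z in Icc a b, |w x - w y| ^ (m + 1) ≤
      ∫ z in Icc a b, 2 ^ m * (|w z - w x| ^ (m + 1) + |w z - w y| ^ (m + 1)) := by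
    apply setIntegral_mono_on (hi _ continuous_const) (hi _ (by fun_prop)) measurableSet_Icc
    intro z _
    have h4 := add_pow_le (abs_nonneg (w z - w x)) (abs_nonneg (w z - w y)) (m + 1)
    rw [Nat.add_sub_cancel] at h4
    refine le_trans ?_ h4
    gcongr
    calc |w x - w y| = |(w z - w y) - (w z - w x)| := by congr 1; ring
      _ ≤ |w z - w y| + |w z - w x| := abs_sub _ _
      _ = _ := add_comm _ _
  rw [integral_const_mul, integral_add (hi _ (by fun_prop)) (hi _ (by fun_prop))] at h3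
  rw [setIntegral_const, smul_eq_mul] at h3
  have hV : (L / 3) ^ m ≤ volume.real (Icc a b) := by
    unfold Measure.real
    rw [Real.volume_Icc_pi_toReal hle]
    calc (L / 3) ^ m = ∏ _i : Fin m, (L / 3) := by
          rw [Finset.prod_const, Finset.card_univ, Fintype.card_fin]
      _ ≤ ∏ i, (b i - a i) := by
        apply Finset.prod_le_prod
        · intro i _; positivity
        · intro i _; linarith [(hab i).2.2]
  have h5 : (L / 3) ^ m * |w x - w y| ^ (m + 1) ≤
      2 ^ m * (((m + 1 : ℝ) * L) ^ (m + 1) * I + ((m + 1 : ℝ) * L) ^ (m + 1) * I) := by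
    calc (L / 3) ^ m * |w x - w y| ^ (m + 1)
        ≤ volume.real (Icc a b) * |w x - w y| ^ (m + 1) := by gcongr
      _ ≤ _ := h3
      _ ≤ _ := by gcongr
  have h7 : (L / 3) ^ m * (3 ^ m / L ^ m) = 1 := by
    rw [div_pow]
    have e1 : (L ^ m) ≠ 0 := by positivity
    have e2 : ((3 : ℝ) ^ m) ≠ 0 := by positivity
    field_simp
  have h6 : |w x - w y| ^ (m + 1) = (L / 3) ^ m * |w x - w y| ^ (m + 1) * (3 ^ m / L ^ m) := by
    calc |w x - w y| ^ (m + 1) = 1 * |w x - w y| ^ (m + 1) := by ring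
      _ = (L / 3) ^ m * (3 ^ m / L ^ m) * |w x - w y| ^ (m + 1) := by rw [h7]
      _ = _ := by ring
  rw [h6]
  calc (L / 3) ^ m * |w x - w y| ^ (m + 1) * (3 ^ m / L ^ m)
      ≤ (2 ^ m * (((m + 1 : ℝ) * L) ^ (m + 1) * I + ((m + 1 : ℝ) * L) ^ (m + 1) * I)) *
        (3 ^ m / L ^ m) := by gcongr
    _ = 2 ^ (m + 1) * (m + 1 : ℝ) ^ (m + 1) * 3 ^ m * L * I * (L ^ m / L ^ m) := by
        rw [mul_pow]
        ring
    _ = _ := by
        rw [div_self (by positivity), mul_one]

end H930.HS.XMorBox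

namespace H930.HS

export XMorBox (morrey_box)

end H930.HS
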