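import Pool.Agent.Helper930.HS.Exp
import Pool.Agent.Helper930.BL.J01
import Pool.Agent.Helper930.BL.J02

set_option autoImplicit false

open MeasureTheory Metric Set Filter Topology
open scoped ENNReal NNReal ContDiff

namespace H930.HS.XNullId

open H930.BL



theorem null_id_alg {n : ℕ} (M : Matrix (Fin (n + 1)) (Fin n) ℝ) (v : Fin (n + 1) → ℝ)
    (i : Fin n) :
    ((M.submatrix Fin.succ id).updateRow i (fun j => ∑ b, v b * M b j)).det =
      v i.succ * Jc M 0 - v 0 * Jc M i.succ := by
  obtain ⟨A, hA⟩ : ∃ A : Matrix (Fin (n + 1)) (Fin (n + 1)) ℝ,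
    A = Matrix.of (fun k => (Fin.cons (if k = 0 then (1 : ℝ) else 0) (M k) : Fin (n + 1) → ℝ)) :=
    ⟨_, rfl⟩
  have hA0 : ∀ k, A k 0 = if k = 0 then (1 : ℝ) else 0 := by
    intro k; rw [hA]; rfl
  have hAs : ∀ k (j : Fin n), A k j.succ = M k j := by
    intro k j; rw [hA]; rfl
  have hdetA : A.det = Jc M 0 := by
    rw [Matrix.det_succ_column_zero, Fin.sum_univ_succ, Finset.sum_eq_zero]
    · rw [hA0]
      unfold Jc
      simp only [if_true, mul_one, add_zero]
      congr 2
      ext k j
      simp only [Matrix.submatrix_apply, hAs, id]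
    · intro k _
      rw [hA0]
      simp
  have hrow : (∑ k, v k • A k) = (Fin.cons (v 0) (fun j => ∑ b, v b * M b j) : Fin (n + 1) → ℝ) := by
    ext j
    rw [Finset.sum_apply]
    refine Fin.cases ?_ (fun j => ?_) j
    · simp only [Pi.smul_apply, smul_eq_mul, hA0, Fin.cons_zero]
      simp
    · simp only [Pi.smul_apply, smul_eq_mul, hAs, Fin.cons_succ]
  have hsum := Matrix.det_updateRow_sum A i.succ v
  rw [hrow, hdetA] at hsum
  rw [Matrix.det_succ_column_zero, Fin.sum_univ_succ, Finset.sum_eq_single i] at hsum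
  · have e1 : (A.updateRow i.succ (Fin.cons (v 0) (fun j => ∑ b, v b * M b j) :
        Fin (n + 1) → ℝ)) 0 0 = 1 := by
      rw [Matrix.updateRow_ne (Fin.succ_ne_zero i).symm, hA0, if_pos rfl]
    have e2 : (A.updateRow i.succ (Fin.cons (v 0) (fun j => ∑ b, v b * M b j) :
        Fin (n + 1) → ℝ)) i.succ 0 = v 0 := by
      rw [Matrix.updateRow_self]
      rfl
    have e3 : (A.updateRow i.succ (Fin.cons (v 0) (fun j => ∑ b, v b * M b j) :
        Fin (n + 1) → ℝ)).submatrix (Fin.succAbove 0) Fin.succ =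
        (M.submatrix Fin.succ id).updateRow i (fun j => ∑ b, v b * M b j) := by
      ext k j
      simp only [Matrix.submatrix_apply, Matrix.updateRow_apply, Fin.succAbove_zero, Fin.succ_inj,
        Fin.cons_succ, hAs, id]
    have e4 : (A.updateRow i.succ (Fin.cons (v 0) (fun j => ∑ b, v b * M b j) :
        Fin (n + 1) → ℝ)).submatrix (Fin.succAbove i.succ) Fin.succ =
        M.submatrix (Fin.succAbove i.succ) id := by
      ext k j
      simp only [Matrix.submatrix_apply, Matrix.updateRow_apply, hAs, id,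
        if_neg (Fin.succAbove_ne i.succ k)]
    rw [e1, e2, e3, e4] at hsum
    have hJ : Jc M i.succ = (-1 : ℝ) ^ (i.succ : ℕ) * (M.submatrix i.succ.succAbove id).det := rfl
    rw [hJ]
    simp only [Fin.val_zero, pow_zero, one_mul, mul_one, smul_eq_mul] at hsum
    linear_combination hsum
  · intro k _ hk
    rw [Matrix.updateRow_ne (by simpa using hk), hA0]
    simp
  · intro h
    exact absurd (Finset.mem_univ _) h

theorem null_id_chain {n : ℕ} (g : E n → E (n + 1)) (hg : ContDiff ℝ ∞ g)
    (η : E (n + 1) → ℝ) (hη : ContDiff ℝ ∞ η) (c : ℝ) (j : Fin n) (x : E n) :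
    pd (fun y => η (g y) - c) j x = ∑ b, pd η b (g x) * Dm g x b j := by
  rw [pd_sub_const]
  have h1 : DifferentiableAt ℝ η (g x) := (hη.differentiable (by simp)) (g x)
  have h2 : DifferentiableAt ℝ g x := (hg.differentiable (by simp)) x
  have h3 : fderiv ℝ (fun y => η (g y)) x = (fderiv ℝ η (g x)).comp (fderiv ℝ g x) :=
    fderiv_comp x h1 h2
  have h4 : pd (fun y => η (g y)) j x = fderiv ℝ η (g x) (fderiv ℝ g x (Pi.single j 1)) := by
    unfold pd
    rw [h3]
    rfl
  rw [h4, fderiv_apply_eq]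
  refine Finset.sum_congr rfl fun b _ => ?_
  have h5 : (fderiv ℝ g x (Pi.single j 1)) b = Dm g x b j := by
    unfold Dm
    rw [Matrix.of_apply]
    unfold pd
    rw [fderiv_pi (fun i => (differentiableAt_pi.1 h2) i)] 
    rfl
  rw [h5, mul_comm]

theorem null_id {n : ℕ} (hn : 2 ≤ n) (g : E n → E (n + 1)) (hg : ContDiff ℝ ∞ g) (c : E (n + 1))
    (K : Set (E n)) (hK : IsCompact K) (hc : ∀ x, x ∉ K → g x = c) (η : E (n + 1) → ℝ)
    (hη : ContDiff ℝ ∞ η) (a : Fin (n + 1)) (ha : a ≠ 0) :
    ∫ x, (pd η 0 (g x) * Jc (Dm g x) a - pd η a (g x) * Jc (Dm g x) 0) = 0 := by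
  obtain ⟨i, rfl⟩ := Fin.exists_succ_eq.mpr ha
  have hf : ContDiff ℝ ∞ (fun x => (fun i : Fin n => g x i.succ)) := by
    apply contDiff_pi.2
    intro i
    exact (contDiff_pi.1 hg) i.succ
  have hh : ContDiff ℝ ∞ (fun x => η (g x) - η c) := (hη.comp hg).sub contDiff_const
  have hcs : HasCompactSupport (fun x => η (g x) - η c) :=
    HasCompactSupport.intro hK (fun x hx => by rw [hc x hx, sub_self])
  have key := null_lagrangian hf hh hcs i
  have e : ∀ x, pd η 0 (g x) * Jc (Dm g x) i.succ - pd η i.succ (g x) * Jc (Dm g x) 0 =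
      - ((jac (fun x => (fun i : Fin n => g x i.succ)) x).updateRow i
        (fun j => pd (fun x => η (g x) - η c) j x)).det := by
    intro x
    have h1 : (fun j => pd (fun x => η (g x) - η c) j x) =
        fun j => ∑ b, pd η b (g x) * Dm g x b j := by
      funext j
      exact null_id_chain g hg η hη (η c) j x
    have h2 : jac (fun x => (fun i : Fin n => g x i.succ)) x =
        (Dm g x).submatrix Fin.succ id := rfl
    rw [h1, h2, null_id_alg (Dm g x) (fun b => pd η b (g x)) i]
    ring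
  simp_rw [e]
  rw [integral_neg, key, neg_zero]

end H930.HS.XNullId

namespace H930.HS

export XNullId (null_id)

end H930.HS
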