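import Pool.Agent.Helper930.HS.Far1
import Pool.Agent.Helper930.HS.Thr
import Pool.Agent.Helper930.HS.Mass

set_option autoImplicit false

open MeasureTheory Metric Set Filter Topology
open scoped ENNReal NNReal ContDiff

namespace H930.HS.XOscS

open H930.BL



theorem osc_smooth {n : ℕ} (hn : 2 ≤ n) (M : ℝ) : ∃ ε K : ℝ, 0 < ε ∧ 0 < K ∧ ∀ {B : Set (E n)}
    {H : E (n + 1) → ℝ} {u : E n → E (n + 1)} {ν : E n → ℝ} {P : Bx n → Prop}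
    {ch : Bx n → Finset (Bx n)} {rk : Bx n → ℕ} {d : Bx n → E (n + 1) → ℝ} {S : Bx n → ℝ},
    Sys M B H u ν P ch rk d S → (∫ x in B, ν x) ≤ 1 → ∀ Q, P Q → EN u Q.s ≤ ε →
    ∫ x in {x | x ∈ Q.s ∧ 1 / 4 ≤ qs (u Q.a) (u x)},
      ((1 + qs (u Q.a) (u x)) ^ 2)⁻¹ * fn (Dm u x) ^ n ≤ K * ∫ x in Q.s, ν x := by
  obtain ⟨C, hC, h1⟩ := far1 hn M
  obtain ⟨ε1, hε1, h2⟩ := thr hn M
  obtain ⟨ε2, K, hε2, hK, h3⟩ := mass_small hn M
  refine ⟨min ε1 ε2, 8 * C * (K + 1), lt_min hε1 hε2, by positivity, ?_⟩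
  intro B H u ν P ch rk d S hS hν Q hQ hE
  have e1 := h2 hS Q hQ (hE.trans (min_le_left _ _))
  have e2 := h3 hS hν Q hQ (hE.trans (min_le_right _ _))
  have e3 := h1 hS Q hQ (1 / 4) (1 / 4) (by norm_num) (by norm_num) (by norm_num) (by norm_num)
  have e4 : ((1 / 4 : ℝ) + 1 / 4) ^ 2 = 1 / 4 := by norm_num
  rw [e4] at e3
  refine e3.trans ?_
  have e5 : C / (1 / 4) = 4 * C := by ring
  rw [e5]
  have e6 : Ds u ch d Q (1 / 4) + S Q + ∫ x in Q.s, ν x ≤ 2 * (K + 1) * ∫ x in Q.s, ν x := by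
    linarith
  calc 4 * C * (Ds u ch d Q (1 / 4) + S Q + ∫ x in Q.s, ν x)
      ≤ 4 * C * (2 * (K + 1) * ∫ x in Q.s, ν x) :=
        mul_le_mul_of_nonneg_left e6 (by positivity)
    _ = 8 * C * (K + 1) * ∫ x in Q.s, ν x := by ring

end H930.HS.XOscS

namespace H930.HS

export XOscS (osc_smooth)

end H930.HS
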