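import Pool.Agent.Helper930.HS.DegE

set_option autoImplicit false

open MeasureTheory Metric Set Filter Topology
open scoped ENNReal NNReal ContDiff

namespace H930.HS.XSysE

open H930.BL



/-- truncated recursion -/
noncomputable def SkA {n : ℕ} (ch : Bx n → Finset (Bx n)) (d : Bx n → E (n + 1) → ℝ) :
    ℕ → Bx n → ℝ
  | 0, _ => 0
  | k + 1, Q => ∑ κ ∈ ch Q, (Dq ch d κ + SkA ch d k κ)

theorem SkA_ind {n : ℕ} {u : E n → E (n + 1)} {P : Bx n → Prop}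
    {ch : Bx n → Finset (Bx n)} {rk : Bx n → ℕ} (h : Cells u P ch rk)
    (d : Bx n → E (n + 1) → ℝ) : ∀ r : ℕ, ∀ Q, P Q → rk Q = r → ∀ k l, r < k → r < l →
      SkA ch d k Q = SkA ch d l Q := by
  intro r
  induction r using Nat.strong_induction_on with
  | _ r ih =>
    intro Q hQ hr k l hk hl
    obtain ⟨k, rfl⟩ : ∃ k', k = k' + 1 := ⟨k - 1, by omega⟩
    obtain ⟨l, rfl⟩ : ∃ l', l = l' + 1 := ⟨l - 1, by omega⟩
    simp only [SkA]
    apply Finset.sum_congr rfl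
    intro κ hκ
    have h1 := h.rk_lt Q hQ κ hκ
    rw [ih (rk κ) (by omega) κ (h.chP Q hQ κ hκ) rfl k l (by omega) (by omega)]

theorem sys_exists {n : ℕ} (hn : 2 ≤ n) {M : ℝ} {B : Set (E n)} {H : E (n + 1) → ℝ}
    {u : E n → E (n + 1)} {ν : E n → ℝ} {P : Bx n → Prop} {ch : Bx n → Finset (Bx n)}
    {rk : Bx n → ℕ} (h : Cells u P ch rk) (hB : IsOpen B) (hs : ∀ Q, P Q → Q.cl ⊆ B)
    (ha : Apx H u ν B) (hi : IntegrableOn ν B) (h0 : ∀ x, 0 ≤ ν x) (hb : ∀ y, |H y| ≤ M)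
    (hL : ∀ y z, |H y - H z| ≤ M * ‖y - z‖) : ∃ d S, Sys M B H u ν P ch rk d S := by
  classical
  let d : Bx n → E (n + 1) → ℝ := fun Q =>
    if hQ : P Q then (deg_exists hn h hQ).choose else 0
  refine ⟨d, fun Q => SkA ch d (rk Q + 1) Q, ?_⟩
  refine ⟨h, hB, hs, ha, hi, h0, hb, hL, ?_, ?_⟩
  · intro Q hQ
    have : d Q = (deg_exists hn h hQ).choose := by simp only [d, hQ, dif_pos]
    rw [this]
    exact (deg_exists hn h hQ).choose_spec
  · intro Q hQ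
    show SkA ch d (rk Q + 1) Q = _
    rw [SkA]
    apply Finset.sum_congr rfl
    intro κ hκ
    have h1 := h.rk_lt Q hQ κ hκ
    rw [SkA_ind h d (rk κ) κ (h.chP Q hQ κ hκ) rfl (rk Q) (rk κ + 1) h1 (by omega)]

end H930.HS.XSysE

namespace H930.HS

export XSysE (sys_exists)

end H930.HS
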