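import Pool.Agent.Helper930.HS.FaceCh

set_option autoImplicit false

open MeasureTheory Metric Set Filter Topology
open scoped ENNReal NNReal ContDiff

namespace H930.HS.XSplB

open H930.BL



theorem fc_mono' {m : ℕ} (f : E (m + 1) → ℝ) (hf : Continuous f) (hf0 : ∀ x, 0 ≤ f x)
    (Q Q' : Bx (m + 1)) (h1 : ∀ i, Q.a i ≤ Q'.a i) (h2 : ∀ i, Q'.b i ≤ Q.b i) (i : Fin (m + 1))
    (s : ℝ) : fc f Q' i s ≤ fc f Q i s := by
  unfold fc
  apply setIntegral_mono_set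
  · apply ContinuousOn.integrableOn_compact isCompact_Icc
    apply Continuous.continuousOn
    apply hf.comp
    exact Continuous.finInsertNth i continuous_const continuous_id
  · exact Eventually.of_forall fun z => hf0 _
  · apply HasSubset.Subset.eventuallyLE
    exact Icc_subset_Icc (fun k => h1 _) (fun k => h2 _)

theorem fc_nonneg' {m : ℕ} (f : E (m + 1) → ℝ) (hf0 : ∀ x, 0 ≤ f x)
    (Q : Bx (m + 1)) (i : Fin (m + 1)) (s : ℝ) : 0 ≤ fc f Q i s := by
  unfold fc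
  exact integral_nonneg fun z => hf0 _

theorem corners {n : ℕ} {Q Q0 : Bx n} (h : Q.cl ⊆ Q0.cl) :
    (∀ i, Q0.a i ≤ Q.a i) ∧ ∀ i, Q.b i ≤ Q0.b i := by
  have ha : Q.a ∈ Q.cl := fun i => ⟨le_rfl, (Q.lt i).le⟩
  have hb : Q.b ∈ Q.cl := fun i => ⟨(Q.lt i).le, le_rfl⟩
  exact ⟨fun i => (h ha i).1, fun i => (h hb i).2⟩

theorem gb_sub {m : ℕ} (f : E (m + 1) → ℝ) (hf : Continuous f)
    (hf0 : ∀ x, 0 ≤ f x) (ε : ℝ) (Q0 : Bx (m + 1)) (h3 : 3 * (∫ x in Q0.s, f x) ≤ ε)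
    (Q : Bx (m + 1)) (h : Gb f ε Q0 Q) (j : Fin (m + 1))
    (hj : ∀ i, Q.b i - Q.a i ≤ Q.b j - Q.a j) (t : ℝ)
    (ht : fc f Q j t ≤ 3 / (Q.b j - Q.a j) * ∫ x in Q.s, f x) (Q' : Bx (m + 1))
    (h1 : ∀ i, Q.a i ≤ Q'.a i) (h2 : ∀ i, Q'.b i ≤ Q.b i)
    (ha : ∀ i, Q'.a i = Q.a i ∨ (i = j ∧ Q'.a i = t))
    (hb : ∀ i, Q'.b i = Q.b i ∨ (i = j ∧ Q'.b i = t))
    (hs : (Q.b j - Q.a j) / 3 ≤ Q'.b j - Q'.a j)
    (hne : ∀ i, i ≠ j → Q'.a i = Q.a i ∧ Q'.b i = Q.b i) : Gb f ε Q0 Q' := by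
  obtain ⟨hc, hr, hface⟩ := h
  have hL : 0 < Q.b j - Q.a j := sub_pos.mpr (Q.lt j)
  have hcl : Q'.cl ⊆ Q.cl := fun x hx i => ⟨(h1 i).trans (hx i).1, (hx i).2.trans (h2 i)⟩
  have hup : ∀ i, Q'.b i - Q'.a i ≤ Q.b j - Q.a j := by
    intro i
    have := hj i
    have := h1 i
    have := h2 i
    linarith
  have hlo : ∀ i, (Q.b j - Q.a j) / 3 ≤ Q'.b i - Q'.a i := by
    intro i
    by_cases hij : i = j
    · rw [hij]; exact hs
    · obtain ⟨e1, e2⟩ := hne i hij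
      rw [e1, e2]
      have := hr j i
      linarith
  have hdQ : dist Q.a Q.b = Q.b j - Q.a j := by
    apply le_antisymm
    · rw [dist_pi_le_iff hL.le]
      intro i
      rw [Real.dist_eq, abs_sub_comm, abs_of_pos (sub_pos.mpr (Q.lt i))]
      exact hj i
    · have := dist_le_pi_dist Q.a Q.b j
      rw [Real.dist_eq, abs_sub_comm, abs_of_pos (sub_pos.mpr (Q.lt j))] at this
      exact this
  have hdQ' : dist Q'.a Q'.b ≤ Q.b j - Q.a j := by
    rw [dist_pi_le_iff hL.le]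
    intro i
    rw [Real.dist_eq, abs_sub_comm, abs_of_pos (sub_pos.mpr (Q'.lt i))]
    exact hup i
  obtain ⟨c1, c2⟩ := corners hc
  have hint : (∫ x in Q.s, f x) ≤ ∫ x in Q0.s, f x := by
    apply setIntegral_mono_set
    · have : IntegrableOn f (Icc Q0.a Q0.b) :=
        (hf.continuousOn).integrableOn_compact isCompact_Icc
      apply this.mono_set
      intro x hx
      exact ⟨fun i => (hx i).1, fun i => (hx i).2.le⟩
    · exact Eventually.of_forall fun z => hf0 _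
    · apply HasSubset.Subset.eventuallyLE
      intro x hx i
      exact ⟨(c1 i).trans (hx i).1, (hx i).2.trans_le (c2 i)⟩
  have key : ∀ i s, (dist Q.a Q.b * fc f Q i s ≤ ε) → dist Q'.a Q'.b * fc f Q' i s ≤ ε := by
    intro i s hi
    refine le_trans ?_ hi
    rw [hdQ]
    exact mul_le_mul hdQ' (fc_mono' f hf hf0 Q Q' h1 h2 i s) (fc_nonneg' f hf0 Q' i s) hL.le
  have keyt : dist Q.a Q.b * fc f Q j t ≤ ε := by
    rw [hdQ]
    calc (Q.b j - Q.a j) * fc f Q j t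
        ≤ (Q.b j - Q.a j) * (3 / (Q.b j - Q.a j) * ∫ x in Q.s, f x) :=
          mul_le_mul_of_nonneg_left ht hL.le
      _ = 3 * ∫ x in Q.s, f x := by field_simp
      _ ≤ 3 * ∫ x in Q0.s, f x := by linarith
      _ ≤ ε := h3
  refine ⟨hcl.trans hc, ?_, ?_⟩
  · intro i k
    have := hup i
    have := hlo k
    linarith
  · intro i
    constructor
    · rcases ha i with e | ⟨e1, e2⟩
      · rw [e]; exact key i _ (hface i).1
      · rw [e2, e1]; exact key j _ keyt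
    · rcases hb i with e | ⟨e1, e2⟩
      · rw [e]; exact key i _ (hface i).2
      · rw [e2, e1]; exact key j _ keyt

theorem vol_sub {n : ℕ} (Q Q' : Bx n) (j : Fin n)
    (hs : Q'.b j - Q'.a j ≤ 2 / 3 * (Q.b j - Q.a j))
    (hne : ∀ i, i ≠ j → Q'.a i = Q.a i ∧ Q'.b i = Q.b i) : Q'.vol ≤ 2 / 3 * Q.vol := by
  unfold Bx.vol
  rw [← Finset.mul_prod_erase Finset.univ (fun i => Q'.b i - Q'.a i) (Finset.mem_univ j),
    ← Finset.mul_prod_erase Finset.univ (fun i => Q.b i - Q.a i) (Finset.mem_univ j)]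
  have e : ∏ i ∈ Finset.univ.erase j, (Q'.b i - Q'.a i) = ∏ i ∈ Finset.univ.erase j, (Q.b i - Q.a i) := by
    apply Finset.prod_congr rfl
    intro i hi
    obtain ⟨e1, e2⟩ := hne i (Finset.ne_of_mem_erase hi)
    rw [e1, e2]
  rw [e, ← mul_assoc]
  apply mul_le_mul_of_nonneg_right hs
  exact Finset.prod_nonneg fun i _ => (sub_pos.mpr (Q.lt i)).le

theorem split_box {m : ℕ} (hm : 1 ≤ m) (f : E (m + 1) → ℝ) (hf : Continuous f)
    (hf0 : ∀ x, 0 ≤ f x) (ε : ℝ) (Q0 : Bx (m + 1)) (h3 : 3 * (∫ x in Q0.s, f x) ≤ ε)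
    (Q : Bx (m + 1)) (h : Gb f ε Q0 Q) : ∃ Q1 Q2, Gb f ε Q0 Q1 ∧ Gb f ε Q0 Q2 ∧ Spl Q Q1 Q2 := by
  obtain ⟨j, hj⟩ := Finite.exists_max (fun i => Q.b i - Q.a i)
  obtain ⟨t, ht1, ht2, ht3⟩ := face_choice f hf hf0 Q j
  have hL : 0 < Q.b j - Q.a j := sub_pos.mpr (Q.lt j)
  let Q1 : Bx (m + 1) := ⟨Q.a, Function.update Q.b j t, fun i => by
    by_cases hij : i = j
    · subst hij; rw [Function.update_self]; linarith
    · rw [Function.update_of_ne hij]; exact Q.lt i⟩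
  let Q2 : Bx (m + 1) := ⟨Function.update Q.a j t, Q.b, fun i => by
    by_cases hij : i = j
    · subst hij; rw [Function.update_self]; linarith
    · rw [Function.update_of_ne hij]; exact Q.lt i⟩
  have a1 : ∀ i, Q1.a i = Q.a i := fun i => rfl
  have b1 : Q1.b j = t := Function.update_self _ _ _
  have b1' : ∀ i, i ≠ j → Q1.b i = Q.b i := fun i hi => Function.update_of_ne hi _ _
  have b2 : ∀ i, Q2.b i = Q.b i := fun i => rfl
  have a2 : Q2.a j = t := Function.update_self _ _ _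
  have a2' : ∀ i, i ≠ j → Q2.a i = Q.a i := fun i hi => Function.update_of_ne hi _ _
  have hb1 : ∀ i, Q1.b i ≤ Q.b i := by
    intro i
    by_cases hij : i = j
    · rw [hij, b1]; linarith
    · rw [b1' i hij]
  have ha2 : ∀ i, Q.a i ≤ Q2.a i := by
    intro i
    by_cases hij : i = j
    · rw [hij, a2]; linarith
    · rw [a2' i hij]
  refine ⟨Q1, Q2, ?_, ?_, ?_, ?_, ?_, ?_, ?_, ?_, ?_, ?_⟩
  · apply gb_sub f hf hf0 ε Q0 h3 Q h j hj t ht3 Q1 (fun i => (a1 i).ge) hb1 (fun i => Or.inl (a1 i))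
    · intro i
      by_cases hij : i = j
      · right; exact ⟨hij, by rw [hij, b1]⟩
      · left; exact b1' i hij
    · rw [a1, b1]; linarith
    · intro i hi; exact ⟨a1 i, b1' i hi⟩
  · apply gb_sub f hf hf0 ε Q0 h3 Q h j hj t ht3 Q2 ha2 (fun i => (b2 i).le) _ (fun i => Or.inl (b2 i))
    · rw [b2, a2]; linarith
    · intro i hi; exact ⟨a2' i hi, b2 i⟩
    · intro i
      by_cases hij : i = j
      · right; exact ⟨hij, by rw [hij, a2]⟩
      · left; exact a2' i hij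
  · ext x
    constructor
    · intro hx
      by_cases hxt : x j < t
      · left
        intro i
        by_cases hij : i = j
        · rw [hij, b1]; exact ⟨(hx j).1, hxt⟩
        · rw [b1' i hij]; exact hx i
      · right
        intro i
        by_cases hij : i = j
        · rw [hij, a2]; exact ⟨not_lt.mp hxt, (hx j).2⟩
        · rw [a2' i hij]; exact hx i
    · rintro (hx | hx)
      · intro i; exact ⟨(hx i).1, (hx i).2.trans_le (hb1 i)⟩
      · intro i; exact ⟨(ha2 i).trans (hx i).1, (hx i).2⟩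
  · rw [Set.disjoint_left]
    intro x hx1 hx2
    have e1 := (hx1 j).2
    have e2 := (hx2 j).1
    rw [b1] at e1
    rw [a2] at e2
    linarith
  · intro x hx i
    exact ⟨(hx i).1, (hx i).2.trans (hb1 i)⟩
  · intro x hx i
    exact ⟨(ha2 i).trans (hx i).1, (hx i).2⟩
  · exact ⟨fun i => ⟨le_rfl, (Q.lt i).le⟩, j, Or.inl rfl⟩
  · refine ⟨fun i => ⟨ha2 i, (Q2.lt i).le⟩, ?_⟩
    have : Nontrivial (Fin (m + 1)) := by
      rw [Fin.nontrivial_iff_two_le]; omega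
    obtain ⟨i, hi⟩ := exists_ne j
    exact ⟨i, Or.inl (a2' i hi)⟩
  · apply vol_sub Q Q1 j
    · rw [a1, b1]; linarith
    · intro i hi; exact ⟨a1 i, b1' i hi⟩
  · apply vol_sub Q Q2 j
    · rw [b2, a2]; linarith
    · intro i hi; exact ⟨a2' i hi, b2 i⟩

end H930.HS.XSplB

namespace H930.HS

export XSplB (split_box)

end H930.HS
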