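import Pool.Agent.Helper930.HS.BdOsc
import Pool.Agent.Helper930.HS.SplB
import Pool.Agent.Helper930.HS.Dec

set_option autoImplicit false

open MeasureTheory Metric Set Filter Topology
open scoped ENNReal NNReal ContDiff

namespace H930.HS.XTree

open H930.BL



lemma aux352_fcont {m : ℕ} (u : E (m + 1) → E (m + 1 + 1)) (hu : ContDiff ℝ ∞ u) :
    Continuous fun x => fn (Dm u x) ^ (m + 1) := by
  have h1 : ∀ a b, Continuous fun x => Dm u x a b := by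
    intro a b
    have : ContDiff ℝ 1 (fun y => u y a) := (contDiff_pi.1 (hu.of_le (by exact_mod_cast le_top))) a
    exact continuous_pd this b
  refine Continuous.pow ?_ _
  unfold fn
  exact (continuous_finsetSum _ fun a _ => continuous_finsetSum _ fun b _ => (h1 a b).pow 2).sqrt

lemma aux352_unif {m : ℕ} (u : E (m + 1) → E (m + 1 + 1)) (hu : ContDiff ℝ ∞ u)
    (Q0 : Bx (m + 1)) : ∃ r : ℝ, 0 < r ∧ ∀ x ∈ Q0.cl, ∀ y ∈ Q0.cl, dist x y ≤ r →
      qs (u x) (u y) ≤ 1 / 1024 := by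
  have hcl : Q0.cl = Icc Q0.a Q0.b := by
    ext x
    simp only [Bx.cl, mem_setOf_eq, mem_Icc, Pi.le_def]
    exact ⟨fun h => ⟨fun i => (h i).1, fun i => (h i).2⟩, fun h i => ⟨h.1 i, h.2 i⟩⟩
  have hK : IsCompact Q0.cl := hcl ▸ isCompact_Icc
  have hU := hK.uniformContinuousOn_of_continuous hu.continuous.continuousOn
  rw [Metric.uniformContinuousOn_iff] at hU
  have hm : (0 : ℝ) < (m : ℝ) + 2 := by positivity
  obtain ⟨r, hr, h⟩ := hU (1 / (32 * ((m : ℝ) + 2))) (by positivity)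
  refine ⟨r / 2, by positivity, fun x hx y hy hxy => ?_⟩
  have h2 := (h x hx y hy (by linarith)).le
  have h3 : qs (u x) (u y) ≤ ∑ _a : Fin (m + 1 + 1), (1 / (32 * ((m : ℝ) + 2))) ^ 2 := by
    unfold qs
    refine Finset.sum_le_sum fun a _ => ?_
    have h4 : |u y a - u x a| ≤ 1 / (32 * ((m : ℝ) + 2)) := by
      have := (dist_le_pi_dist (u x) (u y) a).trans h2
      rw [dist_comm, Real.dist_eq] at this
      exact this
    rw [← sq_abs]
    exact pow_le_pow_left₀ (abs_nonneg _) h4 2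
  refine h3.trans ?_
  rw [Finset.sum_const, Finset.card_univ, Fintype.card_fin, nsmul_eq_mul]
  push_cast
  have h5 : ((m : ℝ) + 1 + 1) * (1 / (32 * ((m : ℝ) + 2))) ^ 2 = 1 / 1024 * (1 / ((m : ℝ) + 2)) := by
    field_simp
    ring
  rw [h5]
  have h6 : 1 / ((m : ℝ) + 2) ≤ 1 := by
    rw [div_le_one hm]; linarith [(Nat.cast_nonneg m : (0 : ℝ) ≤ (m : ℝ))]
  nlinarith

lemma aux352_vol {n : ℕ} (Q : Bx n) : 0 < Q.vol := by
  unfold Bx.vol
  exact Finset.prod_pos fun i _ => by linarith [Q.lt i]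

lemma aux352_dist {m : ℕ} (Q : Bx (m + 1))
    (h : ∀ i j, Q.b i - Q.a i ≤ 3 * (Q.b j - Q.a j)) :
    (dist Q.a Q.b / 3) ^ (m + 1) ≤ Q.vol := by
  unfold Bx.vol
  have h1 : ∀ j, dist Q.a Q.b / 3 ≤ Q.b j - Q.a j := by
    intro j
    have h2 : dist Q.a Q.b ≤ 3 * (Q.b j - Q.a j) := by
      refine (dist_pi_le_iff (by linarith [Q.lt j])).2 fun i => ?_
      rw [Real.dist_eq, abs_sub_comm, abs_of_pos (by linarith [Q.lt i])]
      exact h i j
    linarith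
  calc (dist Q.a Q.b / 3) ^ (m + 1) = ∏ _i : Fin (m + 1), (dist Q.a Q.b / 3) := by
        rw [Finset.prod_const, Finset.card_univ, Fintype.card_fin]
    _ ≤ _ := Finset.prod_le_prod (fun _ _ => by positivity) fun i _ => h1 i

lemma aux352_rk {x y δ : ℝ} (hδ : 0 < δ) (hx : 0 < x) (hy : δ < y) (hxy : x ≤ 2 / 3 * y) :
    ⌈Real.log (x / δ) / Real.log (3 / 2)⌉₊ < ⌈Real.log (y / δ) / Real.log (3 / 2)⌉₊ := by
  have hL : 0 < Real.log (3 / 2) := Real.log_pos (by norm_num)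
  have h1 : 0 < Real.log (y / δ) / Real.log (3 / 2) := by
    refine div_pos (Real.log_pos ?_) hL
    rw [lt_div_iff₀ hδ]; linarith
  have hy0 : 0 < y := hδ.trans hy
  have h2 : Real.log (x / δ) / Real.log (3 / 2) + 1 ≤ Real.log (y / δ) / Real.log (3 / 2) := by
    rw [div_add_one hL.ne', div_le_div_iff_of_pos_right hL, ← Real.log_mul (by positivity) (by norm_num)]
    refine Real.log_le_log (by positivity) ?_
    rw [div_mul_eq_mul_div, div_le_div_iff_of_pos_right hδ]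
    linarith
  rcases le_or_gt (Real.log (x / δ) / Real.log (3 / 2)) 0 with h | h
  · rw [Nat.ceil_eq_zero.2 h]
    exact Nat.ceil_pos.2 h1
  · have h3 := Nat.ceil_lt_add_one h.le
    have h4 := Nat.le_ceil (Real.log (y / δ) / Real.log (3 / 2))
    exact_mod_cast (h3.trans_le h2).trans_le h4

theorem tree_exists {m : ℕ} (hm : 1 ≤ m) : ∃ ε : ℝ, 0 < ε ∧ ∀ (u : E (m + 1) → E (m + 1 + 1)),
    ContDiff ℝ ∞ u → ∀ Q0 : Bx (m + 1), (∀ i j, Q0.b i - Q0.a i ≤ 3 * (Q0.b j - Q0.a j)) →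
    (∀ i, dist Q0.a Q0.b * fc (fun x => fn (Dm u x) ^ (m + 1)) Q0 i (Q0.a i) ≤ ε ∧
      dist Q0.a Q0.b * fc (fun x => fn (Dm u x) ^ (m + 1)) Q0 i (Q0.b i) ≤ ε) →
    EN u Q0.s ≤ ε → ∃ (P : Bx (m + 1) → Prop) (ch : Bx (m + 1) → Finset (Bx (m + 1)))
      (rk : Bx (m + 1) → ℕ), Cells u P ch rk ∧ P Q0 ∧ ∀ Q, P Q → Q.cl ⊆ Q0.cl := by
  classical
  obtain ⟨ε', hε', hosc⟩ := bd_osc hm
  refine ⟨ε' / 3, by positivity, fun u hu Q0 hQ0 hf hE => ?_⟩
  obtain ⟨r, hr, hru⟩ := aux352_unif u hu Q0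
  set f : E (m + 1) → ℝ := fun x => fn (Dm u x) ^ (m + 1) with hfdef
  have hfc : Continuous f := aux352_fcont u hu
  have hf0 : ∀ x, 0 ≤ f x := fun x => pow_nonneg (Real.sqrt_nonneg _) _
  have h3 : 3 * (∫ x in Q0.s, f x) ≤ ε' := by
    have : (∫ x in Q0.s, f x) ≤ ε' / 3 := hE
    linarith
  set P : Bx (m + 1) → Prop := Gb f ε' Q0 with hP
  have hPQ0 : P Q0 := ⟨fun _ h => h, hQ0, fun i => ⟨(hf i).1.trans (by linarith),
    (hf i).2.trans (by linarith)⟩⟩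
  have hδ : (0 : ℝ) < (r / 3) ^ (m + 1) := by positivity
  have hbd : ∀ Q, P Q → ∀ x ∈ Q.bd, qs (u Q.a) (u x) ≤ 1 / 1024 :=
    fun Q hQ => hosc u hu Q0 Q hQ
  have hsmall : ∀ Q, P Q → Q.vol ≤ (r / 3) ^ (m + 1) → ∀ x ∈ Q.s, qs (u Q.a) (u x) ≤ 1 / 1024 := by
    intro Q hQ hv x hx
    have h4 := (aux352_dist Q hQ.2.1).trans hv
    have h5 : dist Q.a Q.b / 3 ≤ r / 3 := by
      by_contra h6
      push Not at h6
      exact absurd h4 (not_le.2 (pow_lt_pow_left₀ h6 (by positivity) (by omega)))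
    have h7 : Q.a ∈ Q.cl := fun i => ⟨le_refl _, (Q.lt i).le⟩
    have h8 : x ∈ Q.cl := fun i => ⟨(hx i).1, (hx i).2.le⟩
    refine hru _ (hQ.1 h7) _ (hQ.1 h8) ?_
    have h9 : dist Q.a x ≤ dist Q.a Q.b := by
      refine (dist_pi_le_iff dist_nonneg).2 fun i => ?_
      refine le_trans ?_ (dist_le_pi_dist Q.a Q.b i)
      rw [Real.dist_eq, Real.dist_eq, abs_sub_comm, abs_sub_comm (Q.a i),
        abs_of_nonneg (by linarith [(hx i).1]), abs_of_pos (by linarith [Q.lt i])]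
      linarith [(hx i).2]
    linarith
  have hdec := dec u P ((r / 3) ^ (m + 1)) hδ hbd
    (fun Q hQ => split_box hm f hfc hf0 ε' Q0 h3 Q hQ) hsmall
  choose! K hK using hdec
  refine ⟨P, K, fun Q => ⌈Real.log (Q.vol / (r / 3) ^ (m + 1)) / Real.log (3 / 2)⌉₊,
    ⟨hu, hbd, fun Q hQ κ hκ => ((hK Q hQ).1 κ hκ).1, fun Q hQ κ hκ => ((hK Q hQ).1 κ hκ).2.1,
      fun Q hQ κ hκ => ((hK Q hQ).1 κ hκ).2.2.1, fun Q hQ => (hK Q hQ).2.1,
      fun Q hQ κ hκ => ((hK Q hQ).1 κ hκ).2.2.2.1, fun Q hQ κ hκ => ((hK Q hQ).1 κ hκ).2.2.2.2.1,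
      fun Q hQ x hx => (hK Q hQ).2.2.1 x hx.1 hx.2, fun Q hQ κ hκ => ?_⟩, hPQ0, fun Q hQ => hQ.1⟩
  refine aux352_rk hδ (aux352_vol κ) ?_ ((hK Q hQ).1 κ hκ).2.2.2.2.2
  by_contra h
  push Not at h
  have := (hK Q hQ).2.2.2 h
  rw [this] at hκ
  simp at hκ

end H930.HS.XTree

namespace H930.HS

export XTree (tree_exists)

end H930.HS
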