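import Pool.Agent.Helper930.HS.ApxE
import Pool.Agent.Helper930.HS.FaceCh
import Pool.Agent.Helper930.HS.Tree
import Pool.Agent.Helper930.HS.SysE
import Pool.Agent.Helper930.HS.OscS

set_option autoImplicit false

open MeasureTheory Metric Set Filter Topology
open scoped ENNReal NNReal ContDiff

namespace H930.HS.XOscB

open H930.BL



theorem OB_one {n k : ℕ} {v : E n → E k} (hv : ContDiff ℝ ∞ v) : ContDiff ℝ 1 v :=
  hv.of_le (by exact_mod_cast le_top)

theorem OB_fn_cont {n k : ℕ} {v : E n → E k} (hv : ContDiff ℝ ∞ v) :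
    Continuous fun x => fn (Dm v x) := by
  unfold fn
  refine Real.continuous_sqrt.comp ?_
  refine continuous_finsetSum _ fun a _ => continuous_finsetSum _ fun b _ => ?_
  refine Continuous.pow ?_ 2
  exact continuous_pd ((contDiff_pi.1 (OB_one hv)) a) b

theorem OB_fn_nonneg {n k : ℕ} (M : Matrix (Fin k) (Fin n) ℝ) : 0 ≤ fn M := Real.sqrt_nonneg _

theorem OB_entry {n k : ℕ} (M : Matrix (Fin k) (Fin n) ℝ) (a : Fin k) (b : Fin n) :
    |M a b| ≤ fn M := by
  unfold fn
  refine Real.abs_le_sqrt ?_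
  calc M a b ^ 2 ≤ ∑ b, M a b ^ 2 :=
        Finset.single_le_sum (f := fun b => M a b ^ 2) (fun _ _ => sq_nonneg _) (Finset.mem_univ b)
    _ ≤ _ := Finset.single_le_sum (f := fun a => ∑ b, M a b ^ 2)
        (fun _ _ => Finset.sum_nonneg fun _ _ => sq_nonneg _) (Finset.mem_univ a)

theorem OB_kf_zero {q : ℝ} (h : q ≤ 1 / 4) : kf q = 0 :=
  Real.smoothTransition.zero_of_nonpos (by linarith)

theorem OB_kf_one {q : ℝ} (h : 1 ≤ q) : kf q = 1 :=
  Real.smoothTransition.one_of_one_le (by linarith)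

theorem OB_kf_smooth : ContDiff ℝ 1 kf := by
  unfold kf
  exact Real.smoothTransition.contDiff.comp
    (((contDiff_const.mul contDiff_id).sub contDiff_const).div_const 3)

theorem OB_kf_deriv_zero {q : ℝ} (h : q < 1 / 4 ∨ 1 < q) : deriv kf q = 0 := by
  rcases h with h | h
  · have : kf =ᶠ[𝓝 q] fun _ => (0 : ℝ) := by
      filter_upwards [gt_mem_nhds h] with y hy
      exact OB_kf_zero hy.le
    rw [this.deriv_eq, deriv_const]
  · have : kf =ᶠ[𝓝 q] fun _ => (1 : ℝ) := by
      filter_upwards [lt_mem_nhds h] with y hy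
      exact OB_kf_one hy.le
    rw [this.deriv_eq, deriv_const]

theorem OB_kf_deriv : ∃ C : ℝ, 0 ≤ C ∧ ∀ q, |deriv kf q| ≤ C := by
  have hc : Continuous (deriv kf) := OB_kf_smooth.continuous_deriv le_rfl
  obtain ⟨C, hC⟩ := (isCompact_Icc (a := (1 / 4 : ℝ)) (b := 1)).exists_bound_of_continuousOn
    hc.continuousOn
  have hC0 : 0 ≤ C := (norm_nonneg _).trans (hC 1 (by norm_num))
  refine ⟨C, hC0, fun q => ?_⟩
  by_cases h : q < 1 / 4 ∨ 1 < q
  · rw [OB_kf_deriv_zero h, abs_zero]; exact hC0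
  · push Not at h
    exact hC q ⟨h.1, h.2⟩

theorem OB_qs_fderiv {n k : ℕ} {v : E n → E k} (hv : ContDiff ℝ ∞ v) (c : E k) (x : E n) :
    HasFDerivAt (fun y => qs c (v y))
      (∑ a, (2 * (v x a - c a)) • fderiv ℝ (fun y => v y a) x) x := by
  unfold qs
  refine HasFDerivAt.fun_sum fun a _ => ?_
  have h1 : HasFDerivAt (fun y => v y a) (fderiv ℝ (fun y => v y a) x) x :=
    (((contDiff_pi.1 (OB_one hv)) a).differentiable one_ne_zero x).hasFDerivAt
  have h2 := (h1.sub_const (c a)).pow 2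
  have e : (2 * (v x a - c a)) = (2 • (v x a - c a) ^ (2 - 1)) := by
    rw [nsmul_eq_mul]; norm_num
  rw [e]
  exact h2

theorem OB_w_smooth {n k : ℕ} {v : E n → E k} (hv : ContDiff ℝ ∞ v) (c : E k) :
    ContDiff ℝ 1 fun x => kf (qs c (v x)) := by
  refine OB_kf_smooth.comp ?_
  unfold qs
  refine ContDiff.sum fun a _ => ?_
  exact (((contDiff_pi.1 (OB_one hv)) a).sub contDiff_const).pow 2

theorem OB_qs_cont {n k : ℕ} {v : E n → E k} (hv : ContDiff ℝ ∞ v) (c : E k) :
    Continuous fun x => qs c (v x) := by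
  unfold qs
  refine continuous_finsetSum _ fun a _ => ?_
  exact (((continuous_apply a).comp hv.continuous).sub continuous_const).pow 2

theorem OB_pd_w {n k : ℕ} {v : E n → E k} (hv : ContDiff ℝ ∞ v) (c : E k) (j : Fin n) (x : E n) :
    pd (fun x => kf (qs c (v x))) j x =
      deriv kf (qs c (v x)) * ∑ a, (2 * (v x a - c a)) * Dm v x a j := by
  have h1 := OB_qs_fderiv hv c x
  have h2 : HasDerivAt kf (deriv kf (qs c (v x))) (qs c (v x)) :=
    (OB_kf_smooth.differentiable one_ne_zero _).hasDerivAt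
  have h3 := h2.comp_hasFDerivAt x h1
  have h4 : HasFDerivAt (fun x => kf (qs c (v x))) _ x := h3
  unfold pd
  rw [h4.fderiv, _root_.smul_apply, _root_.sum_apply, smul_eq_mul]
  congr 1

theorem OB_qs_entry {k : ℕ} (c y : E k) (a : Fin k) (h : qs c y ≤ 1) : |y a - c a| ≤ 1 := by
  have h1 : (y a - c a) ^ 2 ≤ qs c y :=
    Finset.single_le_sum (f := fun a => (y a - c a) ^ 2) (fun _ _ => sq_nonneg _)
      (Finset.mem_univ a)
  rw [← sq_le_one_iff_abs_le_one]
  linarith

theorem OB_gr_zero {n k : ℕ} {v : E n → E k} (hv : ContDiff ℝ ∞ v) (c : E k) (x : E n)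
    (h : qs c (v x) < 1 / 4 ∨ 1 < qs c (v x)) : gr (fun x => kf (qs c (v x))) x = 0 := by
  unfold gr
  refine Finset.sum_eq_zero fun j _ => ?_
  rw [OB_pd_w hv, OB_kf_deriv_zero h, zero_mul, abs_zero]

theorem OB_gr_le {n k : ℕ} {v : E n → E k} (hv : ContDiff ℝ ∞ v) (c : E k) (x : E n) {C : ℝ}
    (hC0 : 0 ≤ C) (hC : ∀ q, |deriv kf q| ≤ C) :
    gr (fun x => kf (qs c (v x))) x ≤ (n * (C * (k * 2))) * fn (Dm v x) := by
  have hf := OB_fn_nonneg (Dm v x)
  by_cases h : 1 < qs c (v x)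
  · rw [OB_gr_zero hv c x (Or.inr h)]
    positivity
  · have h' : qs c (v x) ≤ 1 := not_lt.1 h
    unfold gr
    calc ∑ j, |pd (fun x => kf (qs c (v x))) j x| ≤ ∑ j : Fin n, C * (k * 2) * fn (Dm v x) := by
          refine Finset.sum_le_sum fun j _ => ?_
          rw [OB_pd_w hv, abs_mul, mul_assoc]
          refine mul_le_mul (hC _) ?_ (abs_nonneg _) hC0
          refine (Finset.abs_sum_le_sum_abs _ _).trans ?_
          calc ∑ a, |2 * (v x a - c a) * Dm v x a j| ≤ ∑ a : Fin k, 2 * fn (Dm v x) := by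
                refine Finset.sum_le_sum fun a _ => ?_
                rw [abs_mul, abs_mul, abs_two]
                have h1 := OB_qs_entry c (v x) a h'
                have h2 := OB_entry (Dm v x) a j
                calc 2 * |v x a - c a| * |Dm v x a j| ≤ 2 * 1 * fn (Dm v x) := by gcongr
                  _ = _ := by ring
            _ = k * 2 * fn (Dm v x) := by
                rw [Finset.sum_const, Finset.card_univ, Fintype.card_fin, nsmul_eq_mul]; ring
      _ = _ := by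
          rw [Finset.sum_const, Finset.card_univ, Fintype.card_fin, nsmul_eq_mul]; ring

theorem OB_cl {n : ℕ} (x : E n) (s : ℝ) (hs : 0 < s) : (cube x s hs).cl = closedBall x s := by
  ext y
  rw [mem_closedBall, dist_pi_le_iff hs.le]
  simp only [Bx.cl, cube, mem_ofPred_eq]
  refine forall_congr' fun i => ?_
  rw [Real.dist_eq, abs_le]
  constructor
  · rintro ⟨h1, h2⟩; constructor <;> linarith
  · rintro ⟨h1, h2⟩; constructor <;> linarith

theorem OB_s_meas {n : ℕ} (Q : Bx n) : MeasurableSet Q.s := by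
  have : Q.s = ⋂ i, {x : E n | Q.a i ≤ x i ∧ x i < Q.b i} := by
    ext x; simp [Bx.s]
  rw [this]
  refine MeasurableSet.iInter fun i => ?_
  exact (measurableSet_le measurable_const (measurable_pi_apply i)).inter
    (measurableSet_lt (measurable_pi_apply i) measurable_const)

theorem OB_s_cl {n : ℕ} (Q : Bx n) : Q.s ⊆ Q.cl := fun _ hx i => ⟨(hx i).1, (hx i).2.le⟩

theorem OB_sphere_bd {m : ℕ} (x : E (m + 1)) (s : ℝ) (hs : 0 < s) (y : E (m + 1))
    (hy : y ∈ sphere x s) : y ∈ (cube x s hs).bd := by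
  refine ⟨by rw [OB_cl]; exact sphere_subset_closedBall hy, ?_⟩
  by_contra hcon
  push Not at hcon
  have hcl : y ∈ (cube x s hs).cl := by rw [OB_cl]; exact sphere_subset_closedBall hy
  have : dist y x < s := by
    rw [dist_pi_lt_iff hs]
    intro i
    have h1 := hcl i
    have h2 := hcon i
    rw [Real.dist_eq, abs_lt]
    simp only [cube] at h1 h2
    have h3 : x i - s < y i := lt_of_le_of_ne h1.1 (Ne.symm h2.1)
    have h4 : y i < x i + s := lt_of_le_of_ne h1.2 h2.2
    constructor <;> linarith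
  rw [mem_sphere] at hy
  linarith

theorem OB_diff_bd {m : ℕ} (x : E (m + 1)) (s : ℝ) (hs : 0 < s) (y : E (m + 1))
    (hy : y ∈ closedBall x s) (hy' : y ∉ (cube x s hs).s) : y ∈ (cube x s hs).bd := by
  have hcl : y ∈ (cube x s hs).cl := by rw [OB_cl]; exact hy
  refine ⟨hcl, ?_⟩
  simp only [Bx.s, mem_setOf_eq, not_forall, not_and, not_lt] at hy'
  obtain ⟨i, hi⟩ := hy'
  exact ⟨i, Or.inr (le_antisymm (hcl i).2 (hi (hcl i).1))⟩

theorem OB_vol {m : ℕ} : ∃ C : ℝ, 0 ≤ C ∧ ∀ {k : ℕ} {v : E (m + 1) → E (m + 1 + 1)},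
    ContDiff ℝ ∞ v → ∀ (x0 : E (m + 1)) (h s : ℝ) (hs : 0 < s), h < s → ∀ K : ℝ,
    (∀ x ∈ (cube x0 s hs).bd, qs (v (cube x0 s hs).a) (v x) ≤ 1 / 1024) →
    ∫ x in {x | x ∈ (cube x0 s hs).s ∧ 1 / 4 ≤ qs (v (cube x0 s hs).a) (v x)},
      ((1 + qs (v (cube x0 s hs).a) (v x)) ^ 2)⁻¹ * fn (Dm v x) ^ (m + 1) ≤ K →
    volume (closedBall x0 h ∩ {x | 1 ≤ qs (v (cube x0 s hs).a) (v x)}) ≤
      ENNReal.ofReal ((2 * s) ^ (m + 1) * (C * K)) := by
  obtain ⟨C0, hC00, hC0⟩ := OB_kf_deriv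
  set C1 : ℝ := (((m + 1 : ℕ) : ℝ) * (C0 * (((m + 1 + 1 : ℕ) : ℝ) * 2))) with hC1
  have hC10 : 0 ≤ C1 := by positivity
  refine ⟨4 * C1 ^ (m + 1), by positivity, ?_⟩
  intro _ v hv x0 h s hs hhs K hbd hK
  set c := v (cube x0 s hs).a with hc
  set w : E (m + 1) → ℝ := fun x => kf (qs c (v x)) with hw
  have hw1 : ContDiff ℝ 1 w := OB_w_smooth hv c
  have hq := OB_qs_cont hv c
  have hq0 : ∀ x, 0 ≤ qs c (v x) := fun x => Finset.sum_nonneg fun _ _ => sq_nonneg _
  set T : Set (E (m + 1)) := {x | x ∈ (cube x0 s hs).s ∧ 1 / 4 ≤ qs c (v x)} with hT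
  have hTm : MeasurableSet T := (OB_s_meas _).inter (measurableSet_le measurable_const hq.measurable)
  have hTs : T ⊆ closedBall x0 s := by
    intro x hx
    rw [← OB_cl x0 s hs]
    exact OB_s_cl _ hx.1
  have hwc := hw1.continuous
  have hgc : Continuous fun x => gr w x ^ (m + 1) := (continuous_gr hw1).pow _
  have hp := poincare_zero (n := m + 1) (by omega) (p := ((m + 1 : ℕ) : ℝ)) (by
    push_cast; linarith [Nat.cast_nonneg (α := ℝ) m]) w hw1 x0 s hs (by
      intro x hx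
      have := hbd x (OB_sphere_bd x0 s hs x hx)
      exact OB_kf_zero (by linarith))
  simp only [Real.rpow_natCast] at hp
  have e1 : ∫ x in closedBall x0 s, gr w x ^ (m + 1) = ∫ x in T, gr w x ^ (m + 1) := by
    refine setIntegral_eq_of_subset_of_forall_diff_eq_zero measurableSet_closedBall hTs ?_
    rintro x ⟨hx, hxT⟩
    have hlt : qs c (v x) < 1 / 4 := by
      by_cases h1 : x ∈ (cube x0 s hs).s
      · by_contra hcon
        exact hxT ⟨h1, not_lt.1 hcon⟩
      · have := hbd x (OB_diff_bd x0 s hs x hx h1)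
        linarith
    rw [OB_gr_zero hv c x (Or.inl hlt)]
    simp
  have hFc : Continuous fun x => ((1 + qs c (v x)) ^ 2)⁻¹ * fn (Dm v x) ^ (m + 1) := by
    refine Continuous.mul (Continuous.inv₀ ((continuous_const.add hq).pow 2) fun x => ?_)
      ((OB_fn_cont hv).pow _)
    have := hq0 x
    positivity
  have hintT : ∀ {F : E (m + 1) → ℝ}, Continuous F → IntegrableOn F T := fun hF =>
    (hF.continuousOn.integrableOn_compact (isCompact_closedBall x0 s)).mono_set hTs
  have e2 : ∫ x in T, gr w x ^ (m + 1) ≤ ∫ x in T, (4 * C1 ^ (m + 1)) *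
      (((1 + qs c (v x)) ^ 2)⁻¹ * fn (Dm v x) ^ (m + 1)) := by
    refine setIntegral_mono_on (hintT hgc) ((hintT hFc).const_mul _) hTm ?_
    intro x hx
    have hf := OB_fn_nonneg (Dm v x)
    by_cases h1 : 1 < qs c (v x)
    · rw [OB_gr_zero hv c x (Or.inr h1), zero_pow (by omega)]
      positivity
    · have h2 : qs c (v x) ≤ 1 := not_lt.1 h1
      have h3 : gr w x ^ (m + 1) ≤ (C1 * fn (Dm v x)) ^ (m + 1) :=
        pow_le_pow_left₀ (gr_nonneg _ _) (OB_gr_le hv c x hC00 hC0) _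
      have h4 : 1 ≤ 4 * ((1 + qs c (v x)) ^ 2)⁻¹ := by
        have h5 : (1 + qs c (v x)) ^ 2 ≤ 4 := by nlinarith [hq0 x]
        have h6 : 0 < (1 + qs c (v x)) ^ 2 := by have := hq0 x; positivity
        rw [← div_eq_mul_inv, le_div_iff₀ h6]
        linarith
      calc gr w x ^ (m + 1) ≤ (C1 * fn (Dm v x)) ^ (m + 1) := h3
        _ = 1 * (C1 ^ (m + 1) * fn (Dm v x) ^ (m + 1)) := by rw [mul_pow, one_mul]
        _ ≤ (4 * ((1 + qs c (v x)) ^ 2)⁻¹) * (C1 ^ (m + 1) * fn (Dm v x) ^ (m + 1)) := by gcongr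
        _ = _ := by ring
  rw [integral_const_mul] at e2
  set A : Set (E (m + 1)) := closedBall x0 h ∩ {x | 1 ≤ qs c (v x)} with hA
  have hAm : MeasurableSet A :=
    measurableSet_closedBall.inter (measurableSet_le measurable_const hq.measurable)
  have hAs : A ⊆ closedBall x0 s := fun x hx => closedBall_subset_closedBall hhs.le hx.1
  have hAt : volume A ≠ ⊤ := ((measure_mono hAs).trans_lt measure_closedBall_lt_top).ne
  have hwi : IntegrableOn (fun x => |w x| ^ (m + 1)) (closedBall x0 s) :=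
    (hwc.abs.pow _).continuousOn.integrableOn_compact (isCompact_closedBall x0 s)
  have e3 : volume.real A ≤ ∫ x in closedBall x0 s, |w x| ^ (m + 1) := by
    calc volume.real A = ∫ x in A, (1 : ℝ) := by simp
      _ = ∫ x in A, |w x| ^ (m + 1) := by
          refine setIntegral_congr_fun hAm fun x hx => ?_
          have : w x = 1 := OB_kf_one hx.2
          rw [this]; simp
      _ ≤ _ := setIntegral_mono_set hwi (Eventually.of_forall fun x => by positivity)
          (HasSubset.Subset.eventuallyLE hAs)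
  rw [← ofReal_measureReal hAt]
  refine ENNReal.ofReal_le_ofReal ?_
  calc volume.real A ≤ _ := e3
    _ ≤ _ := hp
    _ ≤ _ := by
        rw [e1]
        gcongr
        refine e2.trans ?_
        gcongr

theorem OB_markov {n k : ℕ} (μ : Measure (E n)) [IsFiniteMeasure μ] (v u : E n → E k) {η δ : ℝ}
    (hδ : 0 < δ) (N : ℕ)
    (hi : Integrable (fun x => ∑ a, |v x a - u x a| ^ N) μ)
    (hle : ∫ x, ∑ a, |v x a - u x a| ^ N ∂μ ≤ η) :
    μ {x | ∃ a, δ < |v x a - u x a|} ≤ ENNReal.ofReal (η / δ ^ N) := by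
  have h1 := mul_meas_ge_le_integral_of_nonneg (μ := μ)
    (f := fun x => ∑ a, |v x a - u x a| ^ N)
    (Eventually.of_forall fun x => Finset.sum_nonneg fun _ _ => by positivity) hi (δ ^ N)
  have h2 : {x | ∃ a, δ < |v x a - u x a|} ⊆ {x | δ ^ N ≤ ∑ a, |v x a - u x a| ^ N} := by
    rintro x ⟨a, ha⟩
    calc δ ^ N ≤ |v x a - u x a| ^ N := pow_le_pow_left₀ hδ.le ha.le _
      _ ≤ _ := Finset.single_le_sum (f := fun a => |v x a - u x a| ^ N)
          (fun _ _ => by positivity) (Finset.mem_univ a)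
  refine (measure_mono h2).trans ?_
  rw [← ofReal_measureReal (measure_ne_top _ _)]
  refine ENNReal.ofReal_le_ofReal ?_
  rw [le_div_iff₀ (by positivity), mul_comm]
  exact h1.trans hle

theorem OB_integrable {n k : ℕ} (hn : 1 ≤ n) {Ω : Set (E n)} {u : E n → E k}
    (hu : MemLp u (n : ENNReal) (volume.restrict Ω)) {v : E n → E k} (hv : ContDiff ℝ ∞ v)
    {x0 : E n} {r : ℝ} (hr : closedBall x0 r ⊆ Ω) :
    IntegrableOn (fun x => ∑ a, |v x a - u x a| ^ n) (closedBall x0 r) := by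
  haveI : IsFiniteMeasure (volume.restrict (closedBall x0 r)) :=
    ⟨by rw [Measure.restrict_apply_univ]; exact measure_closedBall_lt_top⟩
  refine integrable_finsetSum _ fun a _ => ?_
  have h1 : MemLp (fun x => u x a) (n : ENNReal) (volume.restrict (closedBall x0 r)) := by
    have h2 : MemLp u (n : ENNReal) (volume.restrict (closedBall x0 r)) :=
      hu.mono_measure (Measure.restrict_mono hr le_rfl)
    refine MemLp.of_le h2 ((continuous_apply a).comp_aestronglyMeasurable h2.1) ?_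
    exact Eventually.of_forall fun x => norm_le_pi_norm (u x) a
  have h3 : MemLp (fun x => v x a) (n : ENNReal) (volume.restrict (closedBall x0 r)) := by
    have hc : Continuous fun x => v x a := (continuous_apply a).comp hv.continuous
    obtain ⟨C, hC⟩ := (isCompact_closedBall x0 r).exists_bound_of_continuousOn hc.continuousOn
    refine MemLp.of_bound hc.aestronglyMeasurable C ?_
    filter_upwards [self_mem_ae_restrict measurableSet_closedBall] with x hx
    exact hC x hx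
  have h4 := (h3.sub h1).integrable_norm_pow (by omega)
  exact h4

theorem osc_base {n : ℕ} (hn : 2 ≤ n) (M : ℝ) : ∃ ε : ℝ, 0 < ε ∧ ∀ {Ω : Set (E n)}
    {H : E (n + 1) → ℝ} {u : E n → E (n + 1)} {Du : E n → Matrix (Fin (n + 1)) (Fin n) ℝ},
    IsOpen Ω → (∀ y, |H y| ≤ M) → (∀ y z, |H y - H z| ≤ M * ‖y - z‖) → WSol Ω H u Du →
    ∀ (x0 : E n) (h : ℝ), 0 < h → closedBall x0 (3 * h) ⊆ Ω →
      ∫ x in closedBall x0 (2 * h), fn (Du x) ^ n ≤ ε →
      ∀ᵐ x ∂(volume.restrict (closedBall x0 h)), ∀ᵐ y ∂(volume.restrict (closedBall x0 h)),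
        ∀ a, |u x a - u y a| ≤ 2 := by
  obtain ⟨m, rfl⟩ : ∃ m, n = m + 1 := ⟨n - 1, by omega⟩
  have hm : 1 ≤ m := by omega
  obtain ⟨C1, hC1, hroot⟩ := root_choice (m := m)
  obtain ⟨ε1, hε1, htree⟩ := tree_exists hm
  obtain ⟨ε2, K2, hε2, hK2, hosc⟩ := osc_smooth hn M
  obtain ⟨C3, hC3, hvol⟩ := OB_vol (m := m)
  refine ⟨min (ε1 / (8 * C1)) (min (ε1 / 2) (ε2 / 2)), by positivity, ?_⟩
  set ε : ℝ := min (ε1 / (8 * C1)) (min (ε1 / 2) (ε2 / 2)) with hεdef
  have hε : 0 < ε := by positivity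
  have hεa : ε ≤ ε1 / (8 * C1) := min_le_left _ _
  have hεb : ε ≤ ε1 / 2 := (min_le_right _ _).trans (min_le_left _ _)
  have hεc : ε ≤ ε2 / 2 := (min_le_right _ _).trans (min_le_right _ _)
  intro Ω H u Du hΩ hHb hHL hsol x0 h hh hB hen
  set μ : Measure (E (m + 1)) := volume.restrict (closedBall x0 h) with hμ
  haveI : IsFiniteMeasure μ :=
    ⟨by rw [hμ, Measure.restrict_apply_univ]; exact measure_closedBall_lt_top⟩
  have h12 : closedBall x0 h ⊆ closedBall x0 (2 * h) := closedBall_subset_closedBall (by linarith)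
  have h23 : closedBall x0 (2 * h) ⊆ ball x0 (3 * h) := closedBall_subset_ball (by linarith)
  have h2Ω : closedBall x0 (2 * h) ⊆ Ω :=
    (closedBall_subset_closedBall (by linarith)).trans hB
  -- the estimate of the bad set
  set CC : ℝ := (4 * h) ^ (m + 1) * (C3 * K2) with hCC
  have hCC0 : 0 ≤ CC := by positivity
  have hbad : ∀ δ : ℝ, 0 < δ → ∀ η : ℝ, 0 < η → η ≤ 1 → η ≤ ε →
      μ.prod μ {p : E (m + 1) × E (m + 1) | ∃ a, 2 + 2 * δ < |u p.1 a - u p.2 a|} ≤
        ENNReal.ofReal (CC * η + η / δ ^ (m + 1)) * μ univ * 2 := by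
    intro δ hδ η hη hη1 hηε
    obtain ⟨v, ν, hv, hapx, hνi, hν0, hνη, hEN, hvu⟩ :=
      apx_exists hn hΩ hHb hHL hsol x0 h hh hB η hη
    have hEN2 : EN v (closedBall x0 (2 * h)) ≤ 2 * ε := by linarith
    have hfc : Continuous fun x => fn (Dm v x) ^ (m + 1) := (OB_fn_cont hv).pow _
    obtain ⟨s, hs, hs1, hs2, hface⟩ := hroot (fun x => fn (Dm v x) ^ (m + 1)) hfc
      (fun x => by have := OB_fn_nonneg (Dm v x); positivity) x0 h hh
    set Q0 := cube x0 s hs with hQ0
    have hclb : Q0.cl = closedBall x0 s := OB_cl x0 s hs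
    have hcl2 : Q0.cl ⊆ closedBall x0 (2 * h) := by
      rw [hclb]; exact closedBall_subset_closedBall hs2.le
    have hs2h : Q0.s ⊆ closedBall x0 (2 * h) := (OB_s_cl Q0).trans hcl2
    have hENs : EN v Q0.s ≤ 2 * ε := by
      refine le_trans ?_ hEN2
      unfold EN
      refine setIntegral_mono_set (hfc.continuousOn.integrableOn_compact (isCompact_closedBall x0 _))
        (Eventually.of_forall fun x => ?_) (HasSubset.Subset.eventuallyLE hs2h)
      have := OB_fn_nonneg (Dm v x)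
      simp only [Pi.zero_apply]
      positivity
    have hdist : dist Q0.a Q0.b ≤ 4 * h := by
      rw [dist_pi_le_iff (by linarith)]
      intro i
      simp only [hQ0, cube]
      rw [Real.dist_eq, abs_le]
      constructor <;> linarith
    have hENd : (∫ y in closedBall x0 (2 * h), fn (Dm v y) ^ (m + 1)) ≤ 2 * ε := hEN2
    have hEN0 : 0 ≤ ∫ y in closedBall x0 (2 * h), fn (Dm v y) ^ (m + 1) :=
      integral_nonneg fun x => by have := OB_fn_nonneg (Dm v x); positivity
    have hfb : ∀ t : ℝ, t ≤ C1 / h * (∫ y in closedBall x0 (2 * h), fn (Dm v y) ^ (m + 1)) →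
        dist Q0.a Q0.b * t ≤ ε1 := by
      intro t ht
      calc dist Q0.a Q0.b * t ≤ dist Q0.a Q0.b *
            (C1 / h * (∫ y in closedBall x0 (2 * h), fn (Dm v y) ^ (m + 1))) := by gcongr
        _ ≤ 4 * h * (C1 / h * (2 * ε)) := by gcongr
        _ = 8 * C1 * ε := by field_simp; ring
        _ ≤ 8 * C1 * (ε1 / (8 * C1)) := by gcongr
        _ = ε1 := by field_simp
    obtain ⟨P, ch, rk, hcells, hPQ, hPcl⟩ := htree v hv Q0 (by
        intro i j
        simp only [hQ0, cube]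
        linarith) (fun i => ⟨hfb _ (hface i).1, hfb _ (hface i).2⟩) (by linarith)
    obtain ⟨d, S, hsys⟩ := sys_exists hn hcells (isOpen_ball : IsOpen (ball x0 (3 * h)))
      (fun Q hQ => ((hPcl Q hQ).trans hcl2).trans h23) hapx hνi hν0 hHb hHL
    have hosc' := hosc hsys (hνη.trans hη1) Q0 hPQ (by linarith)
    have hνs : ∫ x in Q0.s, ν x ≤ η := by
      refine le_trans ?_ hνη
      exact setIntegral_mono_set hνi (Eventually.of_forall fun x => hν0 x)
        (HasSubset.Subset.eventuallyLE (hs2h.trans h23))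
    have hosc2 := hosc'.trans (mul_le_mul_of_nonneg_left hνs hK2.le)
    have hbdq : ∀ x ∈ Q0.bd, qs (v Q0.a) (v x) ≤ 1 / 1024 := hcells.bd Q0 hPQ
    have hV := hvol (k := 0) hv x0 h s hs hs1 (K2 * η) hbdq hosc2
    set A1 : Set (E (m + 1)) := {x | 1 ≤ qs (v Q0.a) (v x)} with hA1
    set A2 : Set (E (m + 1)) := {x | ∃ a, δ < |v x a - u x a|} with hA2
    have hμ1 : μ A1 ≤ ENNReal.ofReal (CC * η) := by
      rw [hμ, Measure.restrict_apply' measurableSet_closedBall, inter_comm]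
      refine hV.trans (ENNReal.ofReal_le_ofReal ?_)
      calc (2 * s) ^ (m + 1) * (C3 * (K2 * η)) ≤ (4 * h) ^ (m + 1) * (C3 * (K2 * η)) :=
            mul_le_mul_of_nonneg_right (pow_le_pow_left₀ (by positivity) (by linarith) _)
              (by positivity)
        _ = CC * η := by rw [hCC]; ring
    have hint2 : IntegrableOn (fun x => ∑ a, |v x a - u x a| ^ (m + 1)) (closedBall x0 (2 * h)) :=
      OB_integrable (by omega) hsol.1 hv h2Ω
    have hμ2 : μ A2 ≤ ENNReal.ofReal (η / δ ^ (m + 1)) := by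
      refine OB_markov μ v u hδ (m + 1) (hint2.mono_set h12) ?_
      refine le_trans ?_ hvu
      exact setIntegral_mono_set hint2 (Eventually.of_forall fun x =>
        Finset.sum_nonneg fun _ _ => by positivity) (HasSubset.Subset.eventuallyLE h12)
    have hμU : μ (A1 ∪ A2) ≤ ENNReal.ofReal (CC * η + η / δ ^ (m + 1)) := by
      refine (measure_union_le _ _).trans ?_
      rw [ENNReal.ofReal_add (by positivity) (by positivity)]
      exact add_le_add hμ1 hμ2
    have hsub : {p : E (m + 1) × E (m + 1) | ∃ a, 2 + 2 * δ < |u p.1 a - u p.2 a|} ⊆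
        ((A1 ∪ A2) ×ˢ univ) ∪ (univ ×ˢ (A1 ∪ A2)) := by
      rintro ⟨x, y⟩ ⟨a, ha⟩
      by_contra hcon
      simp only [mem_union, mem_prod, mem_univ, and_true, true_and, not_or] at hcon
      obtain ⟨⟨hx1, hx2⟩, hy1, hy2⟩ := hcon
      simp only [hA1, hA2, mem_setOf_eq, not_exists, not_lt, not_le] at hx1 hx2 hy1 hy2
      have k1 := OB_qs_entry (v Q0.a) (v x) a hx1.le
      have k2 := OB_qs_entry (v Q0.a) (v y) a hy1.le
      have k3 := hx2 a
      have k4 := hy2 a
      rw [abs_le] at k1 k2 k3 k4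
      have : |u x a - u y a| ≤ 2 + 2 * δ := by
        rw [abs_le]
        constructor <;> linarith
      simp only at ha
      linarith
    calc μ.prod μ {p : E (m + 1) × E (m + 1) | ∃ a, 2 + 2 * δ < |u p.1 a - u p.2 a|}
        ≤ μ.prod μ (((A1 ∪ A2) ×ˢ univ) ∪ (univ ×ˢ (A1 ∪ A2))) := measure_mono hsub
      _ ≤ μ.prod μ ((A1 ∪ A2) ×ˢ univ) + μ.prod μ (univ ×ˢ (A1 ∪ A2)) := measure_union_le _ _
      _ = μ (A1 ∪ A2) * μ univ * 2 := by
          rw [Measure.prod_prod, Measure.prod_prod, mul_comm (μ univ), mul_two]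
      _ ≤ _ := by gcongr
  have hnull : ∀ δ : ℝ, 0 < δ →
      μ.prod μ {p : E (m + 1) × E (m + 1) | ∃ a, 2 + 2 * δ < |u p.1 a - u p.2 a|} = 0 := by
    intro δ hδ
    have hlim : Tendsto (fun η : ℝ => ENNReal.ofReal (CC * η + η / δ ^ (m + 1)) * μ univ * 2)
        (𝓝[>] 0) (𝓝 (ENNReal.ofReal (CC * 0 + 0 / δ ^ (m + 1)) * μ univ * 2)) := by
      have h1 : Tendsto (fun η : ℝ => CC * η + η / δ ^ (m + 1)) (𝓝[>] 0)
          (𝓝 (CC * 0 + 0 / δ ^ (m + 1))) := by
        refine Tendsto.mono_left ?_ nhdsWithin_le_nhds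
        exact Continuous.tendsto (by fun_prop) _
      exact ENNReal.Tendsto.mul_const (ENNReal.Tendsto.mul_const
        ((ENNReal.continuous_ofReal.tendsto _).comp h1) (Or.inr (measure_ne_top _ _)))
        (Or.inr (by norm_num))
    have hz : ENNReal.ofReal (CC * 0 + 0 / δ ^ (m + 1)) * μ univ * 2 = 0 := by simp
    rw [hz] at hlim
    refine le_antisymm (ge_of_tendsto hlim ?_) zero_le
    have hmem : Ioc (0 : ℝ) (min 1 ε) ∈ 𝓝[>] (0 : ℝ) := Ioc_mem_nhdsGT (by positivity)
    filter_upwards [hmem] with η hη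
    exact hbad δ hδ η hη.1 (hη.2.trans (min_le_left _ _)) (hη.2.trans (min_le_right _ _))
  have hae : ∀ᵐ p ∂(μ.prod μ), ∀ a, |u p.1 a - u p.2 a| ≤ 2 := by
    have h1 : ∀ᵐ p ∂(μ.prod μ), ∀ k : ℕ, ¬ ∃ a, 2 + 2 * (1 / ((k : ℝ) + 1)) < |u p.1 a - u p.2 a| := by
      rw [ae_all_iff]
      intro k
      have := hnull (1 / ((k : ℝ) + 1)) (by positivity)
      rw [ae_iff]
      simpa using this
    filter_upwards [h1] with p hp a
    have h2 : ∀ k : ℕ, |u p.1 a - u p.2 a| ≤ 2 + 2 * (1 / ((k : ℝ) + 1)) := by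
      intro k
      by_contra hcon
      exact hp k ⟨a, not_le.1 hcon⟩
    have h3 : Tendsto (fun k : ℕ => 2 + 2 * (1 / ((k : ℝ) + 1))) atTop (𝓝 (2 + 2 * 0)) :=
      (tendsto_one_div_add_atTop_nhds_zero_nat.const_mul 2).const_add 2
    rw [mul_zero, add_zero] at h3
    exact ge_of_tendsto' h3 h2
  exact Measure.ae_ae_of_ae_prod hae

end H930.HS.XOscB

namespace H930.HS

export XOscB (osc_base)

end H930.HS
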