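import Pool.Agent.Helper930.HS.Exp

set_option autoImplicit false

open MeasureTheory Metric Set Filter Topology
open scoped ENNReal NNReal ContDiff

namespace H930.HS.XRadF

open H930.BL



lemma rad_field_qs_pd {m : ℕ} (c y : E m) :
    HasFDerivAt (qs c) (∑ a, (2 * (y a - c a)) • (ContinuousLinearMap.proj a : E m →L[ℝ] ℝ)) y := by
  unfold qs
  apply HasFDerivAt.fun_sum
  intro a _
  have h1 : HasFDerivAt (fun z : E m => z a - c a) (ContinuousLinearMap.proj a : E m →L[ℝ] ℝ) y :=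
    (ContinuousLinearMap.proj (R := ℝ) (φ := fun _ : Fin m => ℝ) a).hasFDerivAt.sub_const _
  have h2 := h1.pow 2
  simpa using h2

lemma rad_field_sum {m : ℕ} (b : Fin m) (u : Fin m → ℝ) :
    (∑ a, u a • (ContinuousLinearMap.proj a : E m →L[ℝ] ℝ)) (Pi.single b 1) = u b := by
  simp [ContinuousLinearMap.sum_apply, Pi.single_apply]

lemma rad_field_pd {m : ℕ} (c : E m) (F : ℝ → ℝ) (F' : ℝ) (y : E m) (hF : HasDerivAt F F' (qs c y)) (a b : Fin m) :
    pd (fun z => F (qs c z) * (z a - c a)) b y =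
      F (qs c y) * (if a = b then 1 else 0) + 2 * F' * ((y a - c a) * (y b - c b)) := by
  have h1 : HasFDerivAt (fun z => F (qs c z))
      (F' • (∑ a, (2 * (y a - c a)) • (ContinuousLinearMap.proj a : E m →L[ℝ] ℝ))) y :=
    hF.comp_hasFDerivAt y (rad_field_qs_pd c y)
  have h2 : HasFDerivAt (fun z : E m => z a - c a) (ContinuousLinearMap.proj a : E m →L[ℝ] ℝ) y :=
    (ContinuousLinearMap.proj (R := ℝ) (φ := fun _ : Fin m => ℝ) a).hasFDerivAt.sub_const _
  have h3 := h1.mul h2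
  have h4 : fderiv ℝ (fun z => F (qs c z) * (z a - c a)) y = _ := h3.fderiv
  unfold pd
  rw [h4, ContinuousLinearMap.add_apply, ContinuousLinearMap.smul_apply, ContinuousLinearMap.smul_apply,
    ContinuousLinearMap.smul_apply, rad_field_sum]
  simp only [ContinuousLinearMap.proj_apply, Pi.single_apply, smul_eq_mul]
  split_ifs <;> ring

lemma rad_field_quad {m : ℕ} (u ξ : Fin m → ℝ) (A B : ℝ) :
    ∑ a, ∑ b, (A * (if a = b then 1 else 0) + B * (u a * u b)) * (ξ a * ξ b) =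
      A * ∑ a, ξ a ^ 2 + B * (∑ a, u a * ξ a) ^ 2 := by
  have h1 : ∀ a b, (A * (if a = b then (1:ℝ) else 0) + B * (u a * u b)) * (ξ a * ξ b) =
      (if a = b then A * ξ a ^ 2 else 0) + B * ((u a * ξ a) * (u b * ξ b)) := by
    intro a b
    split_ifs with h
    · subst h; ring
    · ring
  simp only [h1, Finset.sum_add_distrib, Finset.sum_ite_eq, Finset.mem_univ, if_true]
  rw [sq (∑ a, u a * ξ a), Finset.sum_mul_sum, Finset.mul_sum, Finset.mul_sum]
  simp only [Finset.mul_sum]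

/-- the profile -/
noncomputable def rad_field_g (s h q : ℝ) : ℝ := Real.smoothTransition ((q - s ^ 2) / ((s + h) ^ 2 - s ^ 2))

lemma rad_field_g_deriv (s h q : ℝ) : HasDerivAt (rad_field_g s h)
    (deriv Real.smoothTransition ((q - s ^ 2) / ((s + h) ^ 2 - s ^ 2)) / ((s + h) ^ 2 - s ^ 2)) q := by
  have h1 : HasDerivAt (fun q : ℝ => (q - s ^ 2) / ((s + h) ^ 2 - s ^ 2)) (1 / ((s + h) ^ 2 - s ^ 2)) q :=
    ((hasDerivAt_id q).sub_const _).div_const _
  have hd : Differentiable ℝ Real.smoothTransition :=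
    (Real.smoothTransition.contDiff (n := 1)).differentiable (by norm_num)
  have h2 := (hd ((q - s ^ 2) / ((s + h) ^ 2 - s ^ 2))).hasDerivAt.comp q h1
  rw [mul_one_div] at h2
  exact h2

lemma rad_field_r {q : ℝ} (hq : 0 ≤ q) : HasDerivAt (fun q : ℝ => (√(1 + q))⁻¹) (-((√(1 + q))⁻¹ ^ 3) / 2) q := by
  have h0 : (0:ℝ) < 1 + q := by linarith
  have h1 : HasDerivAt (fun q : ℝ => 1 + q) 1 q := (hasDerivAt_id q).const_add 1
  have h2 := (h1.sqrt h0.ne').inv (Real.sqrt_pos.2 h0).ne'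
  have h3 : 0 < √(1 + q) := Real.sqrt_pos.2 h0
  have e : -((√(1 + q))⁻¹ ^ 3) / 2 = -(1 / (2 * √(1 + q))) / √(1 + q) ^ 2 := by field_simp
  rw [e]
  exact h2

lemma rad_field_deriv_zero {x : ℝ} (hx : 1 < x) : deriv Real.smoothTransition x = 0 := by
  have : Real.smoothTransition =ᶠ[𝓝 x] fun _ => (1:ℝ) := by
    filter_upwards [lt_mem_nhds hx] with y hy
    exact Real.smoothTransition.one_of_one_le hy.le
  rw [this.deriv_eq, deriv_const]

theorem rad_field {m : ℕ} : ∃ C : ℝ, 0 < C ∧ ∀ (c : E m) (s h : ℝ), 1 / 8 ≤ s → s ≤ 1 → 0 < h →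
    h ≤ 1 → ∃ X : E m → E m, FB (C / h) X ∧ (∀ y, qs c y ≤ s ^ 2 → ∀ a, X y a = 0) ∧
      (∀ y (ξ : E m), 0 ≤ ∑ a, ∑ b, pd (fun z => X z a) b y * (ξ a * ξ b)) ∧
      (∀ y (ξ : E m), (s + h) ^ 2 ≤ qs c y → ((1 + qs c y) ^ 2)⁻¹ * ∑ a, ξ a ^ 2 ≤
        ∑ a, ∑ b, pd (fun z => X z a) b y * (ξ a * ξ b)) := by
  obtain ⟨C0, hC0, hC0'⟩ := exists_C0
  refine ⟨2 + 32 * C0, by positivity, ?_⟩
  intro c s h hs1 hs2 hh hh1
  set L : ℝ := (s + h) ^ 2 - s ^ 2 with hL
  have hLh : h / 4 ≤ L := by rw [hL]; nlinarith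
  have hL0 : 0 < L := lt_of_lt_of_le (by positivity) hLh
  set g : ℝ → ℝ := rad_field_g s h with hg
  set F : ℝ → ℝ := fun q => g q * (√(1 + q))⁻¹ with hF
  set g' : ℝ → ℝ := fun q => deriv Real.smoothTransition ((q - s ^ 2) / L) / L with hg'
  set F' : ℝ → ℝ := fun q => g' q * (√(1 + q))⁻¹ + g q * (-((√(1 + q))⁻¹ ^ 3) / 2) with hF'
  have hqs0 : ∀ y, 0 ≤ qs c y := fun y => Finset.sum_nonneg fun _ _ => sq_nonneg _
  have hder : ∀ q, 0 ≤ q → HasDerivAt F (F' q) q := fun q hq =>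
    (rad_field_g_deriv s h q).mul (rad_field_r hq)
  have hg0 : ∀ q, 0 ≤ g q := fun q => Real.smoothTransition.nonneg _
  have hg1 : ∀ q, g q ≤ 1 := fun q => Real.smoothTransition.le_one _
  have hg'0 : ∀ q, 0 ≤ g' q := fun q => div_nonneg Real.smoothTransition.monotone.deriv_nonneg hL0.le
  have hg'1 : ∀ q, 0 ≤ q → g' q * q ≤ 16 * C0 / h := by
    intro q hq
    rcases le_or_gt q 4 with h4 | h4
    · have h5 : g' q ≤ C0 / (h / 4) := by
        show deriv Real.smoothTransition ((q - s ^ 2) / L) / L ≤ _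
        apply div_le_div₀ hC0.le _ (by positivity) hLh
        exact (le_abs_self _).trans (hC0' _)
      calc g' q * q ≤ (C0 / (h / 4)) * 4 := by
            apply mul_le_mul h5 h4 hq (by positivity)
        _ = 16 * C0 / h := by field_simp; ring
    · have : g' q = 0 := by
        show deriv Real.smoothTransition ((q - s ^ 2) / L) / L = 0
        rw [rad_field_deriv_zero, zero_div]
        rw [one_lt_div hL0, hL]
        nlinarith
      rw [this, zero_mul]
      positivity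
  have hr0 : ∀ q : ℝ, 0 ≤ q → 0 < (√(1 + q))⁻¹ := fun q hq => inv_pos.2 (Real.sqrt_pos.2 (by linarith))
  have hr2 : ∀ q : ℝ, 0 ≤ q → (√(1 + q))⁻¹ ^ 2 = (1 + q)⁻¹ := fun q hq => by
    rw [inv_pow, Real.sq_sqrt (by linarith)]
  have hr3 : ∀ q : ℝ, 0 ≤ q → (√(1 + q))⁻¹ ^ 2 * q = 1 - (√(1 + q))⁻¹ ^ 2 := fun q hq => by
    rw [hr2 q hq]
    have : (1 + q) ≠ 0 := by positivity
    field_simp
    ring
  have hr1 : ∀ q : ℝ, 0 ≤ q → (√(1 + q))⁻¹ ≤ 1 := fun q hq => by
    have h1 := hr3 q hq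
    have h2 : 0 ≤ (√(1 + q))⁻¹ ^ 2 * q := by positivity
    have h3 := hr0 q hq
    nlinarith
  have hpd : ∀ y a b, pd (fun z => F (qs c z) * (z a - c a)) b y =
      F (qs c y) * (if a = b then 1 else 0) + 2 * F' (qs c y) * ((y a - c a) * (y b - c b)) :=
    fun y a b => rad_field_pd c F _ y (hder _ (hqs0 y)) a b
  have hle1 : ∀ y a, (y a - c a) ^ 2 ≤ qs c y := fun y a =>
    Finset.single_le_sum (f := fun a => (y a - c a) ^ 2) (fun _ _ => sq_nonneg _) (Finset.mem_univ a)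
  have hform : ∀ y (ξ : E m), g (qs c y) * (√(1 + qs c y))⁻¹ ^ 3 * ∑ a, ξ a ^ 2 ≤
      ∑ a, ∑ b, pd (fun z => F (qs c z) * (z a - c a)) b y * (ξ a * ξ b) := by
    intro y ξ
    simp only [hpd]
    have hq := rad_field_quad (fun a => y a - c a) ξ (F (qs c y)) (2 * F' (qs c y))
    rw [hq]
    have hCS : (∑ a, (y a - c a) * ξ a) ^ 2 ≤ qs c y * ∑ a, ξ a ^ 2 :=
      Finset.sum_mul_sq_le_sq_mul_sq _ _ _
    have h1 := hr3 _ (hqs0 y)
    have h2 := hr0 _ (hqs0 y)
    have h3 := hg'0 (qs c y)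
    have h4 := hg0 (qs c y)
    simp only [hF, hF']
    set r : ℝ := (√(1 + qs c y))⁻¹ with hr
    set q := qs c y with hqq
    set w := ∑ a, ξ a ^ 2 with hw
    set v := (∑ a, (y a - c a) * ξ a) ^ 2 with hv
    have hv0 : 0 ≤ v := sq_nonneg _
    have e1 : 0 ≤ g' q * r * v := by positivity
    have e2 : 0 ≤ g q * r ^ 3 * (q * w - v) := by
      apply mul_nonneg (by positivity); linarith
    have e3 : g q * r ^ 3 * q = g q * r * (1 - r ^ 2) := by rw [← h1]; ring
    have e4 : g q * r ^ 3 * q * w = g q * r * (1 - r ^ 2) * w := by rw [e3]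
    nlinarith
  refine ⟨fun y a => F (qs c y) * (y a - c a), ⟨?_, ?_, ?_⟩, ?_, ?_, ?_⟩
  · have hqsC : ContDiff ℝ ∞ (qs c) := by unfold qs; fun_prop
    rw [contDiff_pi]
    intro a
    have h1 : ContDiff ℝ ∞ (fun y => g (qs c y)) := by
      have h2 : ContDiff ℝ ∞ (fun y => (qs c y - s ^ 2) / L) := (hqsC.sub contDiff_const).div_const _
      exact (Real.smoothTransition.contDiff (n := ⊤)).comp h2
    have h3 : ContDiff ℝ ∞ (fun y => (√(1 + qs c y))⁻¹) := by
      have h4 : ∀ y, 0 < 1 + qs c y := fun y => by have := hqs0 y; linarith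
      exact ((contDiff_const.add hqsC).sqrt (fun y => (h4 y).ne')).inv (fun y => (Real.sqrt_pos.2 (h4 y)).ne')
    have h5 : ContDiff ℝ ∞ (fun y : E m => y a - c a) := by fun_prop
    exact (h1.mul h3).mul h5
  · intro y a
    have h1 : |F (qs c y) * (y a - c a)| ≤ 1 := by
      apply abs_le_of_sq_le_sq' _ zero_le_one |> abs_le.2
      have e1 := hr3 _ (hqs0 y)
      have e2 := hle1 y a
      have e3 := hg0 (qs c y)
      have e4 := hg1 (qs c y)
      have e5 : g (qs c y) ^ 2 ≤ 1 := by nlinarith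
      calc (F (qs c y) * (y a - c a)) ^ 2 = g (qs c y) ^ 2 * ((√(1 + qs c y))⁻¹ ^ 2 * (y a - c a) ^ 2) := by
            simp only [hF]; ring
        _ ≤ 1 * ((√(1 + qs c y))⁻¹ ^ 2 * qs c y) := by gcongr
        _ ≤ 1 ^ 2 := by rw [e1]; nlinarith [sq_nonneg (√(1 + qs c y))⁻¹]
    refine h1.trans ?_
    rw [one_le_div hh]
    nlinarith
  · intro y a b
    have hh2 : pd (fun z => (fun y a => F (qs c y) * (y a - c a)) z a) b y = _ := hpd y a b
    rw [hh2]
    have f1 := hr3 _ (hqs0 y)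
    have f2 := hr0 _ (hqs0 y)
    have f3 := hr1 _ (hqs0 y)
    have f4 := hg0 (qs c y)
    have f5 := hg1 (qs c y)
    have f6 := hg'0 (qs c y)
    have f7 := hg'1 (qs c y) (hqs0 y)
    have f8 := hqs0 y
    have hab : |(y a - c a) * (y b - c b)| ≤ qs c y := by
      rw [abs_mul]
      have e1 := hle1 y a
      have e2 := hle1 y b
      rw [← sq_abs] at e1 e2
      nlinarith [sq_nonneg (|y a - c a| - |y b - c b|), abs_nonneg (y a - c a), abs_nonneg (y b - c b)]
    have hFq : |F (qs c y) * (if a = b then 1 else 0)| ≤ 1 := by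
      have : |F (qs c y)| ≤ 1 := by
        simp only [hF]
        rw [abs_of_nonneg (by positivity)]
        nlinarith
      split_ifs
      · rwa [mul_one]
      · simp
    have hF'q : |F' (qs c y)| ≤ g' (qs c y) + (√(1 + qs c y))⁻¹ ^ 2 / 2 := by
      simp only [hF']
      refine (abs_add_le _ _).trans ?_
      apply add_le_add
      · rw [abs_of_nonneg (by positivity)]
        exact mul_le_of_le_one_right f6 f3
      · rw [abs_mul, abs_div, abs_neg, abs_of_nonneg f4, abs_of_nonneg (by positivity), abs_of_nonneg (by norm_num : (0:ℝ) ≤ 2)]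
        have : (√(1 + qs c y))⁻¹ ^ 3 ≤ (√(1 + qs c y))⁻¹ ^ 2 := pow_le_pow_of_le_one f2.le f3 (by norm_num)
        calc g (qs c y) * ((√(1 + qs c y))⁻¹ ^ 3 / 2) ≤ 1 * ((√(1 + qs c y))⁻¹ ^ 2 / 2) := by gcongr
          _ = _ := one_mul _
    calc |F (qs c y) * (if a = b then 1 else 0) + 2 * F' (qs c y) * ((y a - c a) * (y b - c b))|
        ≤ |F (qs c y) * (if a = b then 1 else 0)| + |2 * F' (qs c y) * ((y a - c a) * (y b - c b))| := abs_add_le _ _
      _ ≤ 1 + 2 * (g' (qs c y) + (√(1 + qs c y))⁻¹ ^ 2 / 2) * qs c y := by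
        apply add_le_add hFq
        rw [abs_mul, abs_mul, abs_of_nonneg (by norm_num : (0:ℝ) ≤ 2)]
        gcongr
      _ = 1 + 2 * (g' (qs c y) * qs c y) + (√(1 + qs c y))⁻¹ ^ 2 * qs c y := by ring
      _ ≤ 1 + 2 * (16 * C0 / h) + 1 := by
        rw [f1]
        nlinarith [sq_nonneg (√(1 + qs c y))⁻¹]
      _ ≤ (2 + 32 * C0) / h := by
        rw [add_div]
        have : 2 ≤ 2 / h := by rw [le_div_iff₀ hh]; linarith
        have e : 2 * (16 * C0 / h) = 32 * C0 / h := by ring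
        linarith
  · intro y hy a
    have : g (qs c y) = 0 := by
      apply Real.smoothTransition.zero_of_nonpos
      apply div_nonpos_of_nonpos_of_nonneg (by linarith) hL0.le
    simp only [hF, this, zero_mul]
  · intro y ξ
    refine le_trans ?_ (hform y ξ)
    have f2 := hr0 _ (hqs0 y)
    have f4 := hg0 (qs c y)
    have : 0 ≤ ∑ a, ξ a ^ 2 := Finset.sum_nonneg fun _ _ => sq_nonneg _
    positivity
  · intro y ξ hy
    refine le_trans ?_ (hform y ξ)
    have hg1' : g (qs c y) = 1 := by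
      apply Real.smoothTransition.one_of_one_le
      rw [one_le_div hL0, hL]
      linarith
    rw [hg1', one_mul]
    have f1 := hr2 _ (hqs0 y)
    have f2 := hr0 _ (hqs0 y)
    have f3 := hr1 _ (hqs0 y)
    have h4 : ((1 + qs c y) ^ 2)⁻¹ ≤ (√(1 + qs c y))⁻¹ ^ 3 := by
      calc ((1 + qs c y) ^ 2)⁻¹ = (√(1 + qs c y))⁻¹ ^ 4 := by
            rw [← inv_pow, ← f1]; ring
        _ ≤ _ := pow_le_pow_of_le_one f2.le f3 (by norm_num)
    have : 0 ≤ ∑ a, ξ a ^ 2 := Finset.sum_nonneg fun _ _ => sq_nonneg _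
    gcongr

end H930.HS.XRadF

namespace H930.HS

export XRadF (rad_field)

end H930.HS
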