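import Pool.Agent.Helper930.HS.IndS

set_option autoImplicit false

open MeasureTheory Metric Set Filter Topology
open scoped ENNReal NNReal ContDiff

namespace H930.HS.XT2Phi

open H930.BL




lemma test2_pd_sub {n : ℕ} {f g : E n → ℝ} {x : E n} (hf : DifferentiableAt ℝ f x)
    (hg : DifferentiableAt ℝ g x) (j : Fin n) :
    pd (fun y => f y - g y) j x = pd f j x - pd g j x := by
  unfold pd
  rw [fderiv_fun_sub hf hg]
  rfl

lemma test2_pd_add {n : ℕ} {f g : E n → ℝ} {x : E n} (hf : DifferentiableAt ℝ f x)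
    (hg : DifferentiableAt ℝ g x) (j : Fin n) :
    pd (fun y => f y + g y) j x = pd f j x + pd g j x := by
  unfold pd
  rw [fderiv_fun_add hf hg]
  rfl

lemma test2_pd_sum {n : ℕ} {ι : Type*} (s : Finset ι) {f : ι → E n → ℝ} {x : E n}
    (hf : ∀ i ∈ s, DifferentiableAt ℝ (f i) x) (j : Fin n) :
    pd (fun y => ∑ i ∈ s, f i y) j x = ∑ i ∈ s, pd (f i) j x := by
  unfold pd
  rw [fderiv_fun_sum hf]
  simp

lemma test2_ind {α : Type*} (s : Set α) (f : α → ℝ) (x : α) :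
    s.indicator f x = s.indicator (fun _ => f x) x := by
  by_cases h : x ∈ s <;> simp [h]

/-- the combination of indicators -/
noncomputable def test2_S {n : ℕ} (ch : Bx n → Finset (Bx n)) (Q : Bx n) (w : ℝ) (wc : Bx n → ℝ)
    (x : E n) : ℝ :=
  Q.s.indicator (fun _ => w) x + ∑ κ ∈ ch Q, (κ.s.indicator (fun _ => wc κ - w) x -
    ∑ k ∈ ch κ, k.s.indicator (fun _ => wc κ) x)

lemma test2_eval1 {n : ℕ} {u : E n → E (n + 1)} {P : Bx n → Prop}
    {ch : Bx n → Finset (Bx n)} {rk : Bx n → ℕ} (h : Cells u P ch rk) {Q : Bx n} (hQ : P Q)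
    (w : ℝ) (wc : Bx n → ℝ) {x : E n} (hx : x ∈ Rg ch Q) : test2_S ch Q w wc x = w := by
  unfold test2_S
  rw [Set.indicator_of_mem hx.1, Finset.sum_eq_zero, add_zero]
  intro κ hκ
  have h1 : x ∉ κ.s := hx.2 κ hκ
  rw [Set.indicator_of_notMem h1, Finset.sum_eq_zero, sub_zero]
  intro k hk
  exact Set.indicator_of_notMem (fun h2 => h1 (h.chs κ (h.chP Q hQ κ hκ) k hk h2)) _

lemma test2_eval2 {n : ℕ} {u : E n → E (n + 1)} {P : Bx n → Prop}
    {ch : Bx n → Finset (Bx n)} {rk : Bx n → ℕ} (h : Cells u P ch rk) {Q : Bx n} (hQ : P Q)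
    (w : ℝ) (wc : Bx n → ℝ) {x : E n} {κ : Bx n} (hκ : κ ∈ ch Q) (hx : x ∈ Rg ch κ) :
    test2_S ch Q w wc x = wc κ := by
  unfold test2_S
  have hxκ : x ∈ κ.s := hx.1
  rw [Set.indicator_of_mem (h.chs Q hQ κ hκ hxκ), Finset.sum_eq_single_of_mem κ hκ]
  · rw [Set.indicator_of_mem hxκ, Finset.sum_eq_zero]
    · ring
    · intro k hk
      exact Set.indicator_of_notMem (hx.2 k hk) _
  · intro κ' hκ' hne
    have h1 : x ∉ κ'.s := fun h2 =>
      Set.disjoint_left.mp (h.disj Q hQ κ hκ κ' hκ' (Ne.symm hne)) hxκ h2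
    rw [Set.indicator_of_notMem h1, Finset.sum_eq_zero, sub_zero]
    intro k hk
    exact Set.indicator_of_notMem (fun h2 => h1 (h.chs κ' (h.chP Q hQ κ' hκ') k hk h2)) _

lemma test2_eval3 {n : ℕ} {u : E n → E (n + 1)} {P : Bx n → Prop}
    {ch : Bx n → Finset (Bx n)} {rk : Bx n → ℕ} (h : Cells u P ch rk) {Q : Bx n} (hQ : P Q)
    (w : ℝ) (wc : Bx n → ℝ) {x : E n} (hx : x ∉ Rg ch Q) (hx' : ∀ κ ∈ ch Q, x ∉ Rg ch κ) :
    test2_S ch Q w wc x = 0 := by
  unfold test2_S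
  by_cases hxQ : x ∈ Q.s
  · have h1 : ∃ κ ∈ ch Q, x ∈ κ.s := by
      by_contra hcon
      push Not at hcon
      exact hx ⟨hxQ, hcon⟩
    obtain ⟨κ, hκ, hxκ⟩ := h1
    have h2 : ∃ k ∈ ch κ, x ∈ k.s := by
      by_contra hcon
      push Not at hcon
      exact hx' κ hκ ⟨hxκ, hcon⟩
    obtain ⟨k, hk, hxk⟩ := h2
    have hPκ := h.chP Q hQ κ hκ
    rw [Set.indicator_of_mem hxQ, Finset.sum_eq_single_of_mem κ hκ]
    · rw [Set.indicator_of_mem hxκ, Finset.sum_eq_single_of_mem k hk]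
      · rw [Set.indicator_of_mem hxk]
        ring
      · intro k' hk' hne
        exact Set.indicator_of_notMem (fun h3 =>
          Set.disjoint_left.mp (h.disj κ hPκ k hk k' hk' (Ne.symm hne)) hxk h3) _
    · intro κ' hκ' hne
      have h1 : x ∉ κ'.s := fun h2 =>
        Set.disjoint_left.mp (h.disj Q hQ κ hκ κ' hκ' (Ne.symm hne)) hxκ h2
      rw [Set.indicator_of_notMem h1, Finset.sum_eq_zero, sub_zero]
      intro k hk
      exact Set.indicator_of_notMem (fun h2 => h1 (h.chs κ' (h.chP Q hQ κ' hκ') k hk h2)) _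
  · rw [Set.indicator_of_notMem hxQ, zero_add]
    refine Finset.sum_eq_zero fun κ hκ => ?_
    have h1 : x ∉ κ.s := fun h2 => hxQ (h.chs Q hQ κ hκ h2)
    rw [Set.indicator_of_notMem h1, Finset.sum_eq_zero, sub_zero]
    intro k hk
    exact Set.indicator_of_notMem (fun h2 => h1 (h.chs κ (h.chP Q hQ κ hκ) k hk h2)) _

lemma test2_qs {m : ℕ} (c c' y : E m) : qs c c' ≤ 2 * qs c y + 2 * qs c' y := by
  unfold qs
  rw [Finset.mul_sum, Finset.mul_sum, ← Finset.sum_add_distrib]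
  refine Finset.sum_le_sum fun a _ => ?_
  nlinarith [sq_nonneg ((y a - c a) + (y a - c' a))]

lemma test2_s_subset_cl {n : ℕ} (Q : Bx n) : Q.s ⊆ Q.cl := fun _ hx i => ⟨(hx i).1, (hx i).2.le⟩

lemma test2_cl_compact {n : ℕ} (Q : Bx n) : IsCompact Q.cl := by
  have h1 : Q.cl = Set.Icc Q.a Q.b := by
    ext x
    constructor
    · intro hx
      exact ⟨fun i => (hx i).1, fun i => (hx i).2⟩
    · intro hx i
      exact ⟨hx.1 i, hx.2 i⟩
  rw [h1]
  exact isCompact_Icc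

theorem test2_phi {n : ℕ} (hn : 2 ≤ n) {u : E n → E (n + 1)} {P : Bx n → Prop}
    {ch : Bx n → Finset (Bx n)} {rk : Bx n → ℕ} (h : Cells u P ch rk) {Q : Bx n} (hQ : P Q)
    (W : E (n + 1) → E (n + 1)) (Wc : Bx n → E (n + 1) → E (n + 1)) (hW : ContDiff ℝ ∞ W)
    (hWc : ∀ κ ∈ ch Q, ContDiff ℝ ∞ (Wc κ))
    (h0 : ∀ y, qs (u Q.a) y ≤ 1 / 64 → ∀ a, W y a = 0)
    (h1 : ∀ κ ∈ ch Q, ∀ y, qs (u κ.a) y ≤ 1 / 64 → Wc κ y = W y)
    (h2 : ∀ κ ∈ ch Q, ∀ y, 1 ≤ qs (u κ.a) y → ∀ a, Wc κ y a = 0) :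
    ∃ φ : E n → E (n + 1), ContDiff ℝ ∞ φ ∧ HasCompactSupport φ ∧ tsupport φ ⊆ Q.cl ∧
      (∀ x ∈ Rg ch Q, φ x = W (u x) ∧
        ∀ i j, Dm φ x i j = ∑ b, pd (fun y => W y i) b (u x) * Dm u x b j) ∧
      (∀ κ ∈ ch Q, ∀ x ∈ Rg ch κ, φ x = Wc κ (u x) ∧
        ∀ i j, Dm φ x i j = ∑ b, pd (fun y => Wc κ y i) b (u x) * Dm u x b j) ∧
      (∀ x, x ∉ Rg ch Q → (∀ κ ∈ ch Q, x ∉ Rg ch κ) → φ x = 0 ∧ ∀ i j, Dm φ x i j = 0) := by
  -- smoothness and derivative of the three kinds of terms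
  have hWi : ∀ i, ContDiff ℝ ∞ (fun y => W y i) := fun i => (contDiff_pi.1 hW) i
  have hWci : ∀ κ ∈ ch Q, ∀ i, ContDiff ℝ ∞ (fun y => Wc κ y i) := fun κ hκ i =>
    (contDiff_pi.1 (hWc κ hκ)) i
  have hA := fun i => ind_smooth hn h hQ (fun y => W y i) (hWi i) (fun y hy => h0 y hy i)
  have hB := fun κ (hκ : κ ∈ ch Q) i => ind_smooth hn h (h.chP Q hQ κ hκ)
    (fun y => Wc κ y i - W y i) ((hWci κ hκ i).sub (hWi i))
    (fun y hy => by rw [h1 κ hκ y hy, sub_self])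
  have hC := fun κ (hκ : κ ∈ ch Q) k (hk : k ∈ ch κ) i =>
    ind_smooth hn h (h.chP κ (h.chP Q hQ κ hκ) k hk) (fun y => Wc κ y i) (hWci κ hκ i)
    (fun y hy => by
      refine h2 κ hκ y ?_ i
      have h3 := h.lo κ (h.chP Q hQ κ hκ) k hk
      have h4 := test2_qs (u κ.a) (u k.a) y
      linarith)
  obtain ⟨φ, hφ⟩ : ∃ φ : E n → E (n + 1), ∀ x i, φ x i =
      Q.s.indicator (fun x => W (u x) i) x + ∑ κ ∈ ch Q,
        (κ.s.indicator (fun x => Wc κ (u x) i - W (u x) i) x -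
          ∑ k ∈ ch κ, k.s.indicator (fun x => Wc κ (u x) i) x) := ⟨_, fun _ _ => rfl⟩
  have hφi : ∀ i, (fun x => φ x i) = fun x =>
      Q.s.indicator (fun x => W (u x) i) x + ∑ κ ∈ ch Q,
        (κ.s.indicator (fun x => Wc κ (u x) i - W (u x) i) x -
          ∑ k ∈ ch κ, k.s.indicator (fun x => Wc κ (u x) i) x) := fun i => funext fun x => hφ x i
  have hφS : ∀ x i, φ x i = test2_S ch Q (W (u x) i) (fun κ => Wc κ (u x) i) x := by
    intro x i
    rw [hφ]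
    unfold test2_S
    rfl
  have hsmooth : ∀ i, ContDiff ℝ ∞ (fun x => φ x i) := by
    intro i
    rw [hφi i]
    refine (hA i).1.add (ContDiff.sum fun κ hκ => ?_)
    exact (hB κ hκ i).1.sub (ContDiff.sum fun k hk => (hC κ hκ k hk i).1)
  have hcd : ContDiff ℝ ∞ φ := contDiff_pi.2 hsmooth
  have hdA : ∀ i x, DifferentiableAt ℝ (Q.s.indicator (fun x => W (u x) i)) x := fun i x =>
    ((hA i).1.differentiable (by simp)) x
  have hdB : ∀ κ ∈ ch Q, ∀ i x,
      DifferentiableAt ℝ (κ.s.indicator (fun x => Wc κ (u x) i - W (u x) i)) x := fun κ hκ i x =>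
    ((hB κ hκ i).1.differentiable (by simp)) x
  have hdC : ∀ κ ∈ ch Q, ∀ k ∈ ch κ, ∀ i x,
      DifferentiableAt ℝ (k.s.indicator (fun x => Wc κ (u x) i)) x := fun κ hκ k hk i x =>
    ((hC κ hκ k hk i).1.differentiable (by simp)) x
  have hD : ∀ x i j, Dm φ x i j = test2_S ch Q (∑ b, pd (fun y => W y i) b (u x) * Dm u x b j)
      (fun κ => ∑ b, pd (fun y => Wc κ y i) b (u x) * Dm u x b j) x := by
    intro x i j
    have e1 : Dm φ x i j = pd (fun x => φ x i) j x := rfl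
    rw [e1, hφi i]
    have e2 : ∀ κ ∈ ch Q, DifferentiableAt ℝ (fun x =>
        κ.s.indicator (fun x => Wc κ (u x) i - W (u x) i) x -
          ∑ k ∈ ch κ, k.s.indicator (fun x => Wc κ (u x) i) x) x := fun κ hκ =>
      (hdB κ hκ i x).fun_sub (DifferentiableAt.fun_sum fun k hk => hdC κ hκ k hk i x)
    rw [test2_pd_add (hdA i x) (DifferentiableAt.fun_sum e2)]
    unfold test2_S
    congr 1
    · rw [(hA i).2.2.2 x j, test2_ind Q.s]
    · rw [test2_pd_sum _ e2]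
      refine Finset.sum_congr rfl fun κ hκ => ?_
      rw [test2_pd_sub (hdB κ hκ i x) (DifferentiableAt.fun_sum fun k hk => hdC κ hκ k hk i x)]
      congr 1
      · rw [(hB κ hκ i).2.2.2 x j, test2_ind κ.s]
        congr 1
        funext _
        rw [← Finset.sum_sub_distrib]
        refine Finset.sum_congr rfl fun b _ => ?_
        rw [test2_pd_sub (((hWci κ hκ i).differentiable (by simp)) _)
          (((hWi i).differentiable (by simp)) _)]
        ring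
      · rw [test2_pd_sum _ (fun k hk => hdC κ hκ k hk i x)]
        refine Finset.sum_congr rfl fun k hk => ?_
        rw [(hC κ hκ k hk i).2.2.2 x j, test2_ind k.s]
  have hsupp : Function.support φ ⊆ Q.cl := by
    intro x hx
    by_contra hcon
    have hxs : x ∉ Q.s := fun h3 => hcon (test2_s_subset_cl Q h3)
    apply hx
    funext i
    rw [hφS]
    exact test2_eval3 h hQ _ _ (fun h3 => hxs h3.1)
      (fun κ hκ h3 => hxs (h.chs Q hQ κ hκ h3.1))
  refine ⟨φ, hcd, HasCompactSupport.of_support_subset_isCompact (test2_cl_compact Q) hsupp,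
    closure_minimal hsupp (test2_cl_compact Q).isClosed, ?_, ?_, ?_⟩
  · intro x hx
    refine ⟨?_, fun i j => ?_⟩
    · funext i
      rw [hφS, test2_eval1 h hQ _ _ hx]
    · rw [hD, test2_eval1 h hQ _ _ hx]
  · intro κ hκ x hx
    refine ⟨?_, fun i j => ?_⟩
    · funext i
      rw [hφS, test2_eval2 h hQ _ _ hκ hx]
    · rw [hD, test2_eval2 h hQ _ _ hκ hx]
  · intro x hx hx'
    refine ⟨?_, fun i j => ?_⟩
    · funext i
      rw [hφS, test2_eval3 h hQ _ _ hx hx']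
      rfl
    · rw [hD, test2_eval3 h hQ _ _ hx hx']

end H930.HS.XT2Phi

namespace H930.HS

export XT2Phi (test2_phi)

end H930.HS
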