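import Pool.Agent.Helper930.HS.DForm

set_option autoImplicit false

open MeasureTheory Metric Set Filter Topology
open scoped ENNReal NNReal ContDiff

namespace H930.HS.XT2Rhs

open H930.BL



/-- the integrand on the domain side -/
noncomputable def t2F {n : ℕ} (G : E (n + 1) → ℝ) (u : E n → E (n + 1))
    (V : E (n + 1) → E (n + 1)) (x : E n) : ℝ :=
  G (u x) * ∑ i, Jc (Dm u x) i * V (u x) i

/-- the divergence of `G V` -/
noncomputable def t2D {n : ℕ} (G : E (n + 1) → ℝ) (V : E (n + 1) → E (n + 1)) (y : E (n + 1)) : ℝ :=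
  ∑ i, pd (fun z => G z * V z i) i y

lemma t2_cont_Jc {n : ℕ} {u : E n → E (n + 1)} (hu : ContDiff ℝ ∞ u) (i : Fin (n + 1)) :
    Continuous (fun x => Jc (Dm u x) i) := by
  have h1 : Continuous (fun x => Dm u x) := by
    refine continuous_matrix fun i j => ?_
    exact continuous_pd ((contDiff_pi.1 (hu.of_le (by exact_mod_cast le_top))) i) j
  unfold Jc
  exact continuous_const.mul ((h1.matrix_submatrix _ _).matrix_det)

lemma t2_cont_F {n : ℕ} {G : E (n + 1) → ℝ} {u : E n → E (n + 1)} {V : E (n + 1) → E (n + 1)}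
    (hG : Continuous G) (hu : ContDiff ℝ ∞ u) (hV : Continuous V) : Continuous (t2F G u V) := by
  unfold t2F
  refine (hG.comp hu.continuous).mul (continuous_finsetSum _ fun i _ => ?_)
  exact (t2_cont_Jc hu i).mul ((continuous_apply i).comp (hV.comp hu.continuous))

lemma t2_smooth {n : ℕ} {G : E (n + 1) → ℝ} {V : E (n + 1) → E (n + 1)}
    (hG : ContDiff ℝ ∞ G) (hV : ContDiff ℝ ∞ V) (i : Fin (n + 1)) :
    ContDiff ℝ ∞ (fun z => G z * V z i) := hG.mul ((contDiff_pi.1 hV) i)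

lemma t2_cont_pd {n : ℕ} {G : E (n + 1) → ℝ} {V : E (n + 1) → E (n + 1)}
    (hG : ContDiff ℝ ∞ G) (hV : ContDiff ℝ ∞ V) (i : Fin (n + 1)) :
    Continuous (pd (fun z => G z * V z i) i) :=
  continuous_pd ((t2_smooth hG hV i).of_le (by exact_mod_cast le_top)) i

lemma t2_cont_D {n : ℕ} {G : E (n + 1) → ℝ} {V : E (n + 1) → E (n + 1)}
    (hG : ContDiff ℝ ∞ G) (hV : ContDiff ℝ ∞ V) : Continuous (t2D G V) := by
  unfold t2D
  exact continuous_finsetSum _ fun i _ => t2_cont_pd hG hV i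

lemma t2_meas_s {n : ℕ} (Q : Bx n) : MeasurableSet Q.s := by
  have : Q.s = Set.univ.pi (fun i => Ico (Q.a i) (Q.b i)) := by
    ext x
    simp [Bx.s]
  rw [this]
  exact MeasurableSet.univ_pi fun i => measurableSet_Ico

lemma t2_intOn {n : ℕ} (Q : Bx n) {g : E n → ℝ} (hg : Continuous g) : IntegrableOn g Q.s := by
  refine (hg.integrableOn_Icc (a := Q.a) (b := Q.b)).mono_set ?_
  intro x hx
  exact ⟨fun i => (hx i).1, fun i => (hx i).2.le⟩

lemma t2_decomp {n : ℕ} {u : E n → E (n + 1)} {P : Bx n → Prop} {ch : Bx n → Finset (Bx n)}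
    {rk : Bx n → ℕ} (h : Cells u P ch rk) {Q : Bx n} (hQ : P Q) {g : E n → ℝ}
    (hg : Continuous g) :
    ∫ x in Q.s, g x = (∫ x in Rg ch Q, g x) + ∑ κ ∈ ch Q, ∫ x in κ.s, g x := by
  have h1 : Q.s = Rg ch Q ∪ ⋃ κ ∈ ch Q, κ.s := by
    ext x
    simp only [mem_union, mem_iUnion, exists_prop]
    constructor
    · intro hx
      by_cases hc : ∃ κ ∈ ch Q, x ∈ κ.s
      · right
        obtain ⟨κ, hκ, hxκ⟩ := hc
        exact ⟨κ, hκ, hxκ⟩
      · left
        push Not at hc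
        exact ⟨hx, hc⟩
    · rintro (hx | ⟨κ, hκ, hxκ⟩)
      · exact hx.1
      · exact h.chs Q hQ κ hκ hxκ
  have hmU : MeasurableSet (⋃ κ ∈ ch Q, κ.s) :=
    Finset.measurableSet_biUnion _ fun κ _ => t2_meas_s κ
  have hdis : Disjoint (Rg ch Q) (⋃ κ ∈ ch Q, κ.s) := by
    rw [Set.disjoint_left]
    intro x hx hx2
    simp only [mem_iUnion, exists_prop] at hx2
    obtain ⟨κ, hκ, hxκ⟩ := hx2
    exact hx.2 κ hκ hxκ
  have hI := t2_intOn Q hg
  rw [h1] at hI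
  rw [h1, setIntegral_union hdis hmU (hI.mono_set subset_union_left)
    (hI.mono_set subset_union_right)]
  congr 1
  refine integral_biUnion_finset _ (fun κ _ => t2_meas_s κ) ?_ (fun κ _ => t2_intOn κ hg)
  intro κ hκ κ' hκ' hne
  exact h.disj Q hQ κ hκ κ' hκ' hne

lemma t2_int_mul {m : ℕ} {d f : E m → ℝ} (hd : Integrable d)
    (hb : ∃ R : ℝ, ∀ y, R < ‖y‖ → d y = 0) (hf : Continuous f) :
    Integrable (fun y => d y * f y) := by
  obtain ⟨R, hR⟩ := hb
  obtain ⟨B, hB⟩ := (isCompact_closedBall (0 : E m) R).exists_bound_of_continuousOn hf.continuousOn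
  refine (hd.norm.const_mul B).mono' (hd.1.mul hf.aestronglyMeasurable) ?_
  filter_upwards with y
  rw [norm_mul]
  by_cases hy : R < ‖y‖
  · rw [hR y hy]
    simp
  · push Not at hy
    have := hB y (by rw [mem_closedBall_zero_iff]; exact hy)
    rw [mul_comm]
    exact mul_le_mul_of_nonneg_right this (norm_nonneg _)

lemma t2_form {n : ℕ} (hn : 2 ≤ n) {u : E n → E (n + 1)} {P : Bx n → Prop}
    {ch : Bx n → Finset (Bx n)} {rk : Bx n → ℕ} (h : Cells u P ch rk) {Q : Bx n} (hQ : P Q)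
    {d : E (n + 1) → ℝ} (hd : DegF u ch Q d) {G : E (n + 1) → ℝ} {V : E (n + 1) → E (n + 1)}
    (hG : ContDiff ℝ ∞ G) (hV : ContDiff ℝ ∞ V)
    (h0 : ∀ y, qs (u Q.a) y ≤ 1 / 64 → ∀ a, V y a = 0) :
    ∫ x in Q.s, t2F G u V x = ∫ y, d y * t2D G V y := by
  have h1 : ∀ i, ∫ x in Q.s, (G (u x) * V (u x) i) * Jc (Dm u x) i =
      ∫ y, d y * pd (fun z => G z * V z i) i y := by
    intro i
    exact dform hn h hQ hd (fun z => G z * V z i) (t2_smooth hG hV i)
      (fun y hy => by rw [h0 y hy i, mul_zero]) i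
  have h2 : ∀ x, t2F G u V x = ∑ i, (G (u x) * V (u x) i) * Jc (Dm u x) i := by
    intro x
    unfold t2F
    rw [Finset.mul_sum]
    refine Finset.sum_congr rfl fun i _ => by ring
  have h3 : ∀ y, d y * t2D G V y = ∑ i, d y * pd (fun z => G z * V z i) i y := by
    intro y
    unfold t2D
    rw [Finset.mul_sum]
  simp only [h2, h3]
  rw [integral_finsetSum, integral_finsetSum]
  · exact Finset.sum_congr rfl fun i _ => h1 i
  · intro i _
    exact t2_int_mul hd.int hd.bdd (t2_cont_pd hG hV i)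
  · intro i _
    apply t2_intOn
    exact ((hG.continuous.comp h.smooth.continuous).mul
      ((continuous_apply i).comp (hV.continuous.comp h.smooth.continuous))).mul
      (t2_cont_Jc h.smooth i)

lemma t2_F_sub {n : ℕ} (G : E (n + 1) → ℝ) (u : E n → E (n + 1)) (V W : E (n + 1) → E (n + 1))
    (x : E n) : t2F G u (fun y => V y - W y) x = t2F G u V x - t2F G u W x := by
  unfold t2F
  rw [← mul_sub, ← Finset.sum_sub_distrib]
  congr 1
  refine Finset.sum_congr rfl fun i _ => ?_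
  show Jc (Dm u x) i * (V (u x) i - W (u x) i) = _
  ring

lemma t2_D_sub {n : ℕ} {G : E (n + 1) → ℝ} {V W : E (n + 1) → E (n + 1)}
    (hG : ContDiff ℝ ∞ G) (hV : ContDiff ℝ ∞ V) (hW : ContDiff ℝ ∞ W) (y : E (n + 1)) :
    t2D G (fun y => V y - W y) y = t2D G V y - t2D G W y := by
  unfold t2D
  rw [← Finset.sum_sub_distrib]
  refine Finset.sum_congr rfl fun i _ => ?_
  have h1 : (fun z => G z * (V z - W z) i) = (fun z => (G z * V z i) - (G z * W z i)) := by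
    funext z
    rw [Pi.sub_apply]; ring
  rw [h1]
  unfold pd
  rw [fderiv_fun_sub ((t2_smooth hG hV i).differentiable (by simp) y)
    ((t2_smooth hG hW i).differentiable (by simp) y)]
  rfl

lemma t2_cont_qs {m : ℕ} (c : E m) : Continuous (qs c) := by
  unfold qs
  fun_prop

lemma t2_qs_tri {m : ℕ} (a b y : E m) (h1 : 100 ≤ qs a b) (h2 : qs b y ≤ 1 / 64) :
    1 ≤ qs a y := by
  have h3 : qs a b ≤ 2 * qs a y + 2 * qs b y := by
    unfold qs
    rw [Finset.mul_sum, Finset.mul_sum, ← Finset.sum_add_distrib]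
    refine Finset.sum_le_sum fun i _ => ?_
    nlinarith [sq_nonneg ((y i - a i) + (y i - b i))]
  linarith

lemma t2_D_bound {n : ℕ} {M A : ℝ} {G : E (n + 1) → ℝ} {V : E (n + 1) → E (n + 1)}
    (hG : ContDiff ℝ ∞ G) (hGM : ∀ y, |G y| ≤ M) (hGd : ∀ y a, |pd G a y| ≤ M)
    (hV : FB A V) (y : E (n + 1)) : |t2D G V y| ≤ 2 * (n + 1) * M * A := by
  obtain ⟨hVs, hV1, hV2⟩ := hV
  have hM : 0 ≤ M := (abs_nonneg _).trans (hGM y)
  have hA : 0 ≤ A := (abs_nonneg _).trans (hV1 y 0)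
  unfold t2D
  refine (Finset.abs_sum_le_sum_abs _ _).trans ?_
  have h1 : ∀ i ∈ (Finset.univ : Finset (Fin (n + 1))),
      |pd (fun z => G z * V z i) i y| ≤ 2 * M * A := by
    intro i _
    rw [pd_mul (hG.differentiable (by simp) y)
      (((contDiff_pi.1 hVs) i).differentiable (by simp) y)]
    refine (abs_add_le _ _).trans ?_
    rw [abs_mul, abs_mul]
    have e1 := mul_le_mul (hGM y) (hV2 y i i) (abs_nonneg _) hM
    have e2 := mul_le_mul (hV1 y i) (hGd y i) (abs_nonneg _) hA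
    linarith
  refine (Finset.sum_le_card_nsmul _ _ _ h1).trans ?_
  rw [Finset.card_univ, Fintype.card_fin, nsmul_eq_mul]
  push_cast
  linarith

lemma t2_D_zero {n : ℕ} {G : E (n + 1) → ℝ} {V : E (n + 1) → E (n + 1)}
    (hG : ContDiff ℝ ∞ G) (hV : ContDiff ℝ ∞ V) {c : E (n + 1)} {s : ℝ} (hs : 0 < s)
    (h0 : ∀ y, qs c y ≤ s ^ 2 → ∀ a, V y a = 0) {y : E (n + 1)} (hy : qs c y ≤ s ^ 2) :
    t2D G V y = 0 := by
  have hopen : IsOpen {z | qs c z < s ^ 2} := isOpen_lt (t2_cont_qs c) continuous_const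
  have hin : ∀ z, qs c z < s ^ 2 → t2D G V z = 0 := by
    intro z hz
    unfold t2D
    refine Finset.sum_eq_zero fun i _ => ?_
    have h1 : (fun z => G z * V z i) =ᶠ[𝓝 z] fun _ => 0 := by
      filter_upwards [hopen.mem_nhds hz] with w hw
      rw [h0 w (le_of_lt hw) i, mul_zero]
    unfold pd
    rw [h1.fderiv_eq]
    simp
  rcases lt_or_eq_of_le hy with hlt | heq
  · exact hin y hlt
  · let γ : ℝ → E (n + 1) := fun t a => c a + t * (y a - c a)
    have hγc : Continuous γ := by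
      refine continuous_pi fun a => ?_
      simp only [γ]
      fun_prop
    have hγ1 : γ 1 = y := by
      funext a
      simp [γ]
    have hγq : ∀ t, qs c (γ t) = t ^ 2 * qs c y := by
      intro t
      unfold qs
      rw [Finset.mul_sum]
      refine Finset.sum_congr rfl fun a _ => ?_
      simp only [γ]
      ring
    have hcomp : Continuous (fun t => t2D G V (γ t)) := (t2_cont_D hG hV).comp hγc
    have h1 : Tendsto (fun t => t2D G V (γ t)) (𝓝[<] 1) (𝓝 (t2D G V (γ 1))) :=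
      (hcomp.tendsto 1).mono_left nhdsWithin_le_nhds
    have h2 : Tendsto (fun t => t2D G V (γ t)) (𝓝[<] 1) (𝓝 0) := by
      refine Tendsto.congr' ?_ tendsto_const_nhds
      have h3 : ∀ᶠ t : ℝ in 𝓝[<] 1, t ∈ Ioo (0:ℝ) 1 := Ioo_mem_nhdsLT zero_lt_one
      filter_upwards [h3] with t ht
      symm
      apply hin
      rw [hγq, heq]
      have : t ^ 2 < 1 := by nlinarith [ht.1, ht.2]
      nlinarith [pow_pos hs 2]
    have h4 := tendsto_nhds_unique h1 h2
    rwa [hγ1] at h4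

lemma t2_dl_int {n : ℕ} {u : E n → E (n + 1)} {P : Bx n → Prop} {ch : Bx n → Finset (Bx n)}
    {rk : Bx n → ℕ} {d : Bx n → E (n + 1) → ℝ} (h : Cells u P ch rk)
    (hd : ∀ Q, P Q → DegF u ch Q (d Q)) {Q : Bx n} (hQ : P Q) : Integrable (dl ch d Q) := by
  unfold dl
  exact (hd Q hQ).int.sub (integrable_finsetSum _ fun κ hκ => (hd κ (h.chP Q hQ κ hκ)).int)

lemma t2_dl {n : ℕ} {u : E n → E (n + 1)} {P : Bx n → Prop} {ch : Bx n → Finset (Bx n)}
    {rk : Bx n → ℕ} {d : Bx n → E (n + 1) → ℝ} (h : Cells u P ch rk)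
    (hd : ∀ Q, P Q → DegF u ch Q (d Q)) {Q : Bx n} (hQ : P Q) {f : E (n + 1) → ℝ}
    (hf : Continuous f) :
    ∫ y, dl ch d Q y * f y = (∫ y, d Q y * f y) - ∑ κ ∈ ch Q, ∫ y, d κ y * f y := by
  have hi : ∀ κ ∈ ch Q, Integrable (fun y => d κ y * f y) := fun κ hκ =>
    t2_int_mul (hd κ (h.chP Q hQ κ hκ)).int (hd κ (h.chP Q hQ κ hκ)).bdd hf
  rw [← integral_finsetSum _ hi, ← integral_sub (t2_int_mul (hd Q hQ).int (hd Q hQ).bdd hf)
    (integrable_finsetSum _ hi)]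
  refine integral_congr_ae ?_
  filter_upwards with y
  unfold dl
  rw [sub_mul, Finset.sum_mul]

theorem test2_rhs {n : ℕ} (hn : 2 ≤ n) : ∃ C : ℝ, 0 < C ∧ ∀ {u : E n → E (n + 1)}
    {P : Bx n → Prop} {ch : Bx n → Finset (Bx n)} {rk : Bx n → ℕ} {d : Bx n → E (n + 1) → ℝ},
    Cells u P ch rk → (∀ Q, P Q → DegF u ch Q (d Q)) → ∀ Q, P Q →
    ∀ (A : ℝ) (W : E (n + 1) → E (n + 1)) (Wc : Bx n → E (n + 1) → E (n + 1)), FB A W →
    (∀ κ ∈ ch Q, FB A (Wc κ)) → ∀ s : ℝ, 1 / 8 ≤ s →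
    (∀ y, qs (u Q.a) y ≤ s ^ 2 → ∀ a, W y a = 0) →
    (∀ κ ∈ ch Q, ∀ y, qs (u κ.a) y ≤ 1 / 64 → Wc κ y = W y) →
    (∀ κ ∈ ch Q, ∀ y, 1 ≤ qs (u κ.a) y → ∀ a, Wc κ y a = 0) →
    ∀ (M : ℝ) (G : E (n + 1) → ℝ), ContDiff ℝ ∞ G → (∀ y, |G y| ≤ M) → (∀ y a, |pd G a y| ≤ M) →
    |(∫ x in Rg ch Q, G (u x) * ∑ i, Jc (Dm u x) i * W (u x) i) +
      ∑ κ ∈ ch Q, ∫ x in Rg ch κ, G (u x) * ∑ i, Jc (Dm u x) i * Wc κ (u x) i| ≤
      C * M * A * (Ds u ch d Q s + ∑ κ ∈ ch Q, Dq ch d κ) := by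
  refine ⟨2 * (n + 1), by positivity, ?_⟩
  intro u P ch rk d h hd Q hQ A W Wc hW hWc s hs hW0 hWcW hWc0 M G hG hGM hGd
  have hPκ : ∀ κ ∈ ch Q, P κ := h.chP Q hQ
  have cW : Continuous W := hW.1.continuous
  have cFW : Continuous (t2F G u W) := t2_cont_F hG.continuous h.smooth cW
  have cFWc : ∀ κ ∈ ch Q, Continuous (t2F G u (Wc κ)) := fun κ hκ =>
    t2_cont_F hG.continuous h.smooth (hWc κ hκ).1.continuous
  have cDW : Continuous (t2D G W) := t2_cont_D hG hW.1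
  have cDWc : ∀ κ ∈ ch Q, Continuous (t2D G (Wc κ)) := fun κ hκ => t2_cont_D hG (hWc κ hκ).1
  -- the three identities
  have I1 : ∫ x in Q.s, t2F G u W x = ∫ y, d Q y * t2D G W y := by
    refine t2_form hn h hQ (hd Q hQ) hG hW.1 (fun y hy => hW0 y (hy.trans ?_))
    nlinarith
  have I2 : ∀ κ ∈ ch Q, (∫ x in κ.s, t2F G u (Wc κ) x) - ∫ x in κ.s, t2F G u W x =
      (∫ y, d κ y * t2D G (Wc κ) y) - ∫ y, d κ y * t2D G W y := by
    intro κ hκ
    have hdκ := hd κ (hPκ κ hκ)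
    have h1 := t2_form hn h (hPκ κ hκ) hdκ hG ((hWc κ hκ).1.sub hW.1)
      (fun y hy a => by
        have h2 := hWcW κ hκ y hy
        show (Wc κ y - W y) a = 0
        rw [h2, sub_self]
        rfl)
    have h3 : ∀ x, t2F G u (fun y => Wc κ y - W y) x = t2F G u (Wc κ) x - t2F G u W x :=
      t2_F_sub G u (Wc κ) W
    have h4 : ∀ y, d κ y * t2D G (fun y => Wc κ y - W y) y =
        d κ y * t2D G (Wc κ) y - d κ y * t2D G W y := by
      intro y
      rw [t2_D_sub hG (hWc κ hκ).1 hW.1, mul_sub]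
    have h5 : ∫ x in κ.s, t2F G u (fun y => Wc κ y - W y) x =
        ∫ y, d κ y * t2D G (fun y => Wc κ y - W y) y := h1
    simp only [h3, h4] at h5
    rw [integral_sub (t2_intOn κ (cFWc κ hκ)) (t2_intOn κ cFW),
      integral_sub (t2_int_mul hdκ.int hdκ.bdd (cDWc κ hκ))
        (t2_int_mul hdκ.int hdκ.bdd cDW)] at h5
    exact h5
  have I3 : ∀ κ ∈ ch Q, ∀ k' ∈ ch κ, ∫ x in k'.s, t2F G u (Wc κ) x =
      ∫ y, d k' y * t2D G (Wc κ) y := by
    intro κ hκ k' hk'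
    have hPk' := h.chP κ (hPκ κ hκ) k' hk'
    refine t2_form hn h hPk' (hd k' hPk') hG (hWc κ hκ).1 (fun y hy => hWc0 κ hκ y ?_)
    exact t2_qs_tri _ _ _ (h.lo κ (hPκ κ hκ) k' hk') hy
  -- decompositions
  have D1 := t2_decomp h hQ cFW
  have D2 : ∀ κ ∈ ch Q, ∫ x in Rg ch κ, t2F G u (Wc κ) x =
      (∫ x in κ.s, t2F G u (Wc κ) x) - ∑ k' ∈ ch κ, ∫ x in k'.s, t2F G u (Wc κ) x := by
    intro κ hκ
    have := t2_decomp h (hPκ κ hκ) (cFWc κ hκ)
    linarith
  have key : (∫ x in Rg ch Q, t2F G u W x) + ∑ κ ∈ ch Q, ∫ x in Rg ch κ, t2F G u (Wc κ) x =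
      (∫ y, dl ch d Q y * t2D G W y) + ∑ κ ∈ ch Q, ∫ y, dl ch d κ y * t2D G (Wc κ) y := by
    have e1 : ∑ κ ∈ ch Q, ∫ x in Rg ch κ, t2F G u (Wc κ) x =
        ∑ κ ∈ ch Q, ((∫ x in κ.s, t2F G u W x) - (∫ y, d κ y * t2D G W y) +
          ∫ y, dl ch d κ y * t2D G (Wc κ) y) := by
      refine Finset.sum_congr rfl fun κ hκ => ?_
      rw [D2 κ hκ, t2_dl h hd (hPκ κ hκ) (cDWc κ hκ),
        Finset.sum_congr rfl fun k' hk' => I3 κ hκ k' hk']
      linarith [I2 κ hκ]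
    rw [e1, Finset.sum_add_distrib, Finset.sum_sub_distrib, t2_dl h hd hQ cDW, ← I1, D1]
    ring
  have hs0 : 0 < s := by linarith
  have B1 : |∫ y, dl ch d Q y * t2D G W y| ≤ 2 * (n + 1) * M * A * Ds u ch d Q s := by
    have hm : MeasurableSet {y | s ^ 2 < qs (u Q.a) y} :=
      measurableSet_lt measurable_const (t2_cont_qs _).measurable
    rw [Ds, ← integral_indicator hm, ← integral_const_mul]
    rw [← Real.norm_eq_abs]
    refine norm_integral_le_of_norm_le (((t2_dl_int h hd hQ).abs.indicator hm).const_mul _) ?_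
    filter_upwards with y
    rw [Real.norm_eq_abs, abs_mul]
    by_cases hy : s ^ 2 < qs (u Q.a) y
    · rw [indicator_of_mem (show y ∈ {y | s ^ 2 < qs (u Q.a) y} from hy), mul_comm]
      exact mul_le_mul_of_nonneg_right (t2_D_bound hG hGM hGd hW y) (abs_nonneg _)
    · rw [indicator_of_notMem (show y ∉ {y | s ^ 2 < qs (u Q.a) y} from hy),
        t2_D_zero hG hW.1 hs0 hW0 (not_lt.mp hy), abs_zero, mul_zero, mul_zero]
  have B2 : ∀ κ ∈ ch Q, |∫ y, dl ch d κ y * t2D G (Wc κ) y| ≤ 2 * (n + 1) * M * A * Dq ch d κ := by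
    intro κ hκ
    rw [Dq, ← integral_const_mul, ← Real.norm_eq_abs]
    refine norm_integral_le_of_norm_le ((t2_dl_int h hd (hPκ κ hκ)).abs.const_mul _) ?_
    filter_upwards with y
    rw [Real.norm_eq_abs, abs_mul, mul_comm]
    exact mul_le_mul_of_nonneg_right (t2_D_bound hG hGM hGd (hWc κ hκ) y) (abs_nonneg _)
  have hgoal : |(∫ x in Rg ch Q, t2F G u W x) + ∑ κ ∈ ch Q, ∫ x in Rg ch κ, t2F G u (Wc κ) x| ≤
      2 * (n + 1) * M * A * (Ds u ch d Q s + ∑ κ ∈ ch Q, Dq ch d κ) := by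
    rw [key, mul_add, Finset.mul_sum]
    refine (abs_add_le _ _).trans (add_le_add B1 ?_)
    exact (Finset.abs_sum_le_sum_abs _ _).trans (Finset.sum_le_sum B2)
  exact hgoal

end H930.HS.XT2Rhs

namespace H930.HS

export XT2Rhs (test2_rhs)

end H930.HS
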