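import Pool.Agent.Helper930.HS.T2Phi
import Pool.Agent.Helper930.HS.T2Rhs
import Pool.Agent.Helper930.HS.HApx

set_option autoImplicit false

open MeasureTheory Metric Set Filter Topology
open scoped ENNReal NNReal ContDiff

namespace H930.HS.XTest2

open H930.BL




/-! auxiliary lemmas -/

lemma t2_Rg_meas {n : ℕ} (ch : Bx n → Finset (Bx n)) (Q : Bx n) : MeasurableSet (Rg ch Q) := by
  have hs : ∀ Q : Bx n, MeasurableSet Q.s := by
    intro Q
    have : Q.s = ⋂ i, {x : E n | Q.a i ≤ x i ∧ x i < Q.b i} := by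
      ext x; simp [Bx.s]
    rw [this]
    refine MeasurableSet.iInter fun i => ?_
    exact (measurableSet_le measurable_const (measurable_pi_apply i)).inter
      (measurableSet_lt (measurable_pi_apply i) measurable_const)
  have : Rg ch Q = Q.s ∩ ⋂ κ ∈ ch Q, (κ.s)ᶜ := by
    ext x; simp [Rg]
  rw [this]
  exact (hs Q).inter (Finset.measurableSet_biInter _ fun κ _ => (hs κ).compl)

lemma t2_Rg_sub {n : ℕ} (ch : Bx n → Finset (Bx n)) (Q : Bx n) : Rg ch Q ⊆ Q.s := fun _ hx => hx.1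

lemma t2_s_sub_cl {n : ℕ} (Q : Bx n) : Q.s ⊆ Q.cl := fun _ hx i => ⟨(hx i).1, (hx i).2.le⟩

lemma t2_entry {m n : ℕ} (M : Matrix (Fin m) (Fin n) ℝ) (a : Fin m) (b : Fin n) :
    |M a b| ≤ fn M := by
  unfold fn
  rw [← Real.sqrt_sq_eq_abs]
  apply Real.sqrt_le_sqrt
  calc M a b ^ 2 ≤ ∑ b, M a b ^ 2 :=
        Finset.single_le_sum (f := fun b => M a b ^ 2) (fun _ _ => sq_nonneg _) (Finset.mem_univ b)
    _ ≤ _ := Finset.single_le_sum (f := fun a => ∑ b, M a b ^ 2)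
        (fun _ _ => Finset.sum_nonneg fun _ _ => sq_nonneg _) (Finset.mem_univ a)

lemma t2_fn_nonneg {m n : ℕ} (M : Matrix (Fin m) (Fin n) ℝ) : 0 ≤ fn M := Real.sqrt_nonneg _

lemma t2_cont_Dm {n m : ℕ} {u : E n → E m} (hu : ContDiff ℝ ∞ u) (i : Fin m) (j : Fin n) :
    Continuous fun x => Dm u x i j := by
  unfold Dm
  simp only [Matrix.of_apply]
  exact continuous_pd ((contDiff_pi.1 (hu.of_le (by exact_mod_cast le_top))) i) j

lemma t2_cont_fn {n m : ℕ} {u : E n → E m} (hu : ContDiff ℝ ∞ u) :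
    Continuous fun x => fn (Dm u x) := by
  unfold fn
  refine Real.continuous_sqrt.comp ?_
  exact continuous_finsetSum _ fun a _ => continuous_finsetSum _ fun b _ =>
    (t2_cont_Dm hu a b).pow 2

lemma t2_cont_Jc {n : ℕ} {u : E n → E (n + 1)} (hu : ContDiff ℝ ∞ u) (i : Fin (n + 1)) :
    Continuous fun x => Jc (Dm u x) i := by
  unfold Jc
  refine continuous_const.mul ?_
  refine Continuous.matrix_det ?_
  refine continuous_matrix fun a b => ?_
  exact t2_cont_Dm hu _ _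

/-- splitting of an integral over the node and its children -/
lemma t2_split {n : ℕ} {u : E n → E (n + 1)} {P : Bx n → Prop}
    {ch : Bx n → Finset (Bx n)} {rk : Bx n → ℕ} (h : Cells u P ch rk) {Q : Bx n} (hQ : P Q)
    (F : E n → ℝ) (hF : IntegrableOn F (Rg ch Q ∪ ⋃ κ ∈ ch Q, Rg ch κ)) :
    ∫ x in (Rg ch Q ∪ ⋃ κ ∈ ch Q, Rg ch κ), F x =
      (∫ x in Rg ch Q, F x) + ∑ κ ∈ ch Q, ∫ x in Rg ch κ, F x := by
  have hF1 : IntegrableOn F (Rg ch Q) := hF.mono_set subset_union_left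
  have hF2 : IntegrableOn F (⋃ κ ∈ ch Q, Rg ch κ) := hF.mono_set subset_union_right
  rw [setIntegral_union _ (Finset.measurableSet_biUnion _ fun κ _ => t2_Rg_meas ch κ) hF1 hF2]
  · congr 1
    rw [integral_biUnion_finset]
    · intro κ _; exact t2_Rg_meas ch κ
    · intro κ hκ κ' hκ' hne
      exact (h.disj Q hQ κ hκ κ' hκ' hne).mono (t2_Rg_sub ch κ) (t2_Rg_sub ch κ')
    · intro κ hκ
      exact hF2.mono_set (subset_biUnion_of_mem (u := fun κ => Rg ch κ) hκ)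
  · rw [Set.disjoint_left]
    rintro x hx hx'
    simp only [mem_iUnion] at hx'
    obtain ⟨κ, hκ, hxκ⟩ := hx'
    exact hx.2 κ hκ (t2_Rg_sub ch κ hxκ)

theorem test2 {n : ℕ} (hn : 2 ≤ n) (M : ℝ) : ∃ C : ℝ, 0 < C ∧ ∀ {B : Set (E n)}
    {H : E (n + 1) → ℝ} {u : E n → E (n + 1)} {ν : E n → ℝ} {P : Bx n → Prop}
    {ch : Bx n → Finset (Bx n)} {rk : Bx n → ℕ} {d : Bx n → E (n + 1) → ℝ} {S : Bx n → ℝ},
    Sys M B H u ν P ch rk d S → ∀ Q, P Q →
    ∀ (A : ℝ) (W : E (n + 1) → E (n + 1)) (Wc : Bx n → E (n + 1) → E (n + 1)), FB A W →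
    (∀ κ ∈ ch Q, FB A (Wc κ)) → ∀ s : ℝ, 1 / 8 ≤ s →
    (∀ y, qs (u Q.a) y ≤ s ^ 2 → ∀ a, W y a = 0) →
    (∀ κ ∈ ch Q, ∀ y, qs (u κ.a) y ≤ 1 / 64 → Wc κ y = W y) →
    (∀ κ ∈ ch Q, ∀ y, 1 ≤ qs (u κ.a) y → ∀ a, Wc κ y a = 0) →
    |(∫ x in Rg ch Q, ad u W x) + ∑ κ ∈ ch Q, ∫ x in Rg ch κ, ad u (Wc κ) x| ≤
      C * A * (Ds u ch d Q s + (∑ κ ∈ ch Q, Dq ch d κ) + (∫ x in Rg ch Q, ν x) +
        ∑ κ ∈ ch Q, ∫ x in Rg ch κ, ν x) := by
  obtain ⟨C2, hC2, H2⟩ := test2_rhs (n := n) hn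
  refine ⟨((n : ℝ) + 1) + C2 * |M|, by positivity, ?_⟩
  intro B H u ν P ch rk d S hS Q hQ A W Wc hW hWc s hs h0 h1 h2
  have hu := hS.cells.smooth
  have hM : 0 ≤ M := (abs_nonneg _).trans (hS.Hb 0)
  have hA : 0 ≤ A := (abs_nonneg _).trans (hW.2.1 0 0)
  have hs2 : (1 : ℝ) / 64 ≤ s ^ 2 := by nlinarith
  obtain ⟨φ, hφ, hφc, hφs, hφQ, hφκ, hφ0⟩ := test2_phi hn hS.cells hQ W Wc hW.1
    (fun κ hκ => (hWc κ hκ).1) (fun y hy a => h0 y (hy.trans hs2) a) h1 h2
  set T : Set (E n) := Rg ch Q ∪ ⋃ κ ∈ ch Q, Rg ch κ with hT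
  have hTm : MeasurableSet T := (t2_Rg_meas ch Q).union
    (Finset.measurableSet_biUnion _ fun κ _ => t2_Rg_meas ch κ)
  have hTB : T ⊆ B := by
    refine union_subset ?_ ?_
    · exact (t2_Rg_sub ch Q).trans ((t2_s_sub_cl Q).trans (hS.sub Q hQ))
    · refine iUnion₂_subset fun κ hκ => ?_
      exact (t2_Rg_sub ch κ).trans ((t2_s_sub_cl κ).trans (hS.sub κ (hS.cells.chP Q hQ κ hκ)))
  have hT0 : ∀ x, x ∉ T → φ x = 0 ∧ ∀ i j, Dm φ x i j = 0 := by
    intro x hx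
    rw [hT, mem_union, not_or] at hx
    refine hφ0 x hx.1 fun κ hκ hxκ => hx.2 ?_
    exact mem_biUnion hκ hxκ
  have hTcase : ∀ x, x ∈ T → x ∈ Rg ch Q ∨ ∃ κ ∈ ch Q, x ∈ Rg ch κ := by
    intro x hx
    rcases hx with hx | hx
    · exact Or.inl hx
    · simp only [mem_iUnion] at hx
      obtain ⟨κ, hκ, hx⟩ := hx
      exact Or.inr ⟨κ, hκ, hx⟩
  have ha0 : 0 ≤ ((n : ℝ) + 1) * A := by positivity
  have hAa : A ≤ ((n : ℝ) + 1) * A := by nlinarith [(Nat.cast_nonneg n : (0 : ℝ) ≤ n)]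
  have hb1 : ∀ x i, |φ x i| ≤ ((n : ℝ) + 1) * A := by
    intro x i
    by_cases hx : x ∈ T
    · rcases hTcase x hx with hx | ⟨κ, hκ, hx⟩
      · rw [(hφQ x hx).1]; exact (hW.2.1 _ _).trans hAa
      · rw [(hφκ κ hκ x hx).1]; exact ((hWc κ hκ).2.1 _ _).trans hAa
    · rw [(hT0 x hx).1]; simpa using ha0
  have hkey : ∀ (V : E (n + 1) → E (n + 1)), FB A V → ∀ x (i : Fin (n + 1)) (j : Fin n),
      |∑ b, pd (fun y => V y i) b (u x) * Dm u x b j| ≤ ((n : ℝ) + 1) * A * fn (Dm u x) := by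
    intro V hV x i j
    calc |∑ b, pd (fun y => V y i) b (u x) * Dm u x b j|
        ≤ ∑ b, |pd (fun y => V y i) b (u x) * Dm u x b j| := Finset.abs_sum_le_sum_abs _ _
      _ ≤ ∑ b : Fin (n + 1), A * fn (Dm u x) := by
          refine Finset.sum_le_sum fun b _ => ?_
          rw [abs_mul]
          exact mul_le_mul (hV.2.2 _ _ _) (t2_entry _ _ _) (abs_nonneg _) hA
      _ = ((n : ℝ) + 1) * A * fn (Dm u x) := by
          simp [Finset.sum_const]; ring
  have hb2 : ∀ x i j, |Dm φ x i j| ≤ ((n : ℝ) + 1) * A * fn (Dm u x) := by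
    intro x i j
    by_cases hx : x ∈ T
    · rcases hTcase x hx with hx | ⟨κ, hκ, hx⟩
      · rw [(hφQ x hx).2]; exact hkey W hW x i j
      · rw [(hφκ κ hκ x hx).2]; exact hkey _ (hWc κ hκ) x i j
    · rw [(hT0 x hx).2]
      simpa using mul_nonneg ha0 (t2_fn_nonneg _)
  have hmain := hS.apx φ hφ hφc (hφs.trans (hS.sub Q hQ)) T hTm hTB hT0 _ ha0 hb1 hb2
  -- continuity and compact support
  have hc0 : ∀ x, x ∉ tsupport φ → φ x = 0 ∧ ∀ i j, Dm φ x i j = 0 := by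
    intro x hx
    refine ⟨image_eq_zero_of_notMem_tsupport hx, fun i j => ?_⟩
    unfold Dm
    simp only [Matrix.of_apply]
    refine pd_eq_zero_of_notMem (fun hx' => hx ?_) j
    refine closure_mono ?_ hx'
    intro z hz hz0
    apply hz
    simp only at hz0 ⊢
    rw [hz0]; rfl
  have hF1c : Continuous fun x => fn (Dm u x) ^ (n - 2) * ∑ i, ∑ j, Dm u x i j * Dm φ x i j := by
    refine ((t2_cont_fn hu).pow _).mul ?_
    exact continuous_finsetSum _ fun i _ => continuous_finsetSum _ fun j _ =>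
      (t2_cont_Dm hu i j).mul (t2_cont_Dm hφ i j)
  have hF1i : Integrable fun x => fn (Dm u x) ^ (n - 2) * ∑ i, ∑ j, Dm u x i j * Dm φ x i j := by
    refine hF1c.integrable_of_hasCompactSupport (HasCompactSupport.intro hφc fun x hx => ?_)
    simp [(hc0 x hx).2]
  have hJc : Continuous fun x => ∑ i, Jc (Dm u x) i * φ x i :=
    continuous_finsetSum _ fun i _ => (t2_cont_Jc hu i).mul
      ((continuous_apply i).comp hφ.continuous)
  have hGi : ∀ G : E (n + 1) → ℝ, Continuous G →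
      Integrable fun x => G (u x) * ∑ i, Jc (Dm u x) i * φ x i := by
    intro G hG
    refine ((hG.comp hu.continuous).mul hJc).integrable_of_hasCompactSupport
      (HasCompactSupport.intro hφc fun x hx => ?_)
    simp [(hc0 x hx).1]
  have hHc : Continuous H := by
    have : LipschitzWith (Real.toNNReal M) H := by
      refine LipschitzWith.of_dist_le_mul fun y z => ?_
      rw [Real.dist_eq, dist_eq_norm, Real.coe_toNNReal _ hM]
      exact hS.HL y z
    exact this.continuous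
  -- first integral
  have hI1 : (∫ x, fn (Dm u x) ^ (n - 2) * ∑ i, ∑ j, Dm u x i j * Dm φ x i j) =
      (∫ x in Rg ch Q, ad u W x) + ∑ κ ∈ ch Q, ∫ x in Rg ch κ, ad u (Wc κ) x := by
    rw [← setIntegral_eq_integral_of_forall_compl_eq_zero (s := T)
      (fun x hx => by simp [(hT0 x hx).2]), hT, t2_split hS.cells hQ _ hF1i.integrableOn]
    have halg : ∀ (V : E (n + 1) → E (n + 1)) (x : E n),
        (∀ i j, Dm φ x i j = ∑ b, pd (fun y => V y i) b (u x) * Dm u x b j) →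
        fn (Dm u x) ^ (n - 2) * ∑ i, ∑ j, Dm u x i j * Dm φ x i j = ad u V x := by
      intro V x hV
      unfold ad
      congr 1
      refine Finset.sum_congr rfl fun i _ => ?_
      simp only [hV, Finset.mul_sum]
      rw [Finset.sum_comm]
      refine Finset.sum_congr rfl fun b _ => Finset.sum_congr rfl fun j _ => ?_
      ring
    congr 1
    · exact setIntegral_congr_fun (t2_Rg_meas ch Q) fun x hx => halg W x (hφQ x hx).2
    · refine Finset.sum_congr rfl fun κ hκ => ?_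
      exact setIntegral_congr_fun (t2_Rg_meas ch κ) fun x hx => halg (Wc κ) x (hφκ κ hκ x hx).2
  -- second integral
  have hI2 : ∀ G : E (n + 1) → ℝ, Continuous G →
      (∫ x, G (u x) * ∑ i, Jc (Dm u x) i * φ x i) =
      (∫ x in Rg ch Q, G (u x) * ∑ i, Jc (Dm u x) i * W (u x) i) +
      ∑ κ ∈ ch Q, ∫ x in Rg ch κ, G (u x) * ∑ i, Jc (Dm u x) i * Wc κ (u x) i := by
    intro G hG
    rw [← setIntegral_eq_integral_of_forall_compl_eq_zero (s := T)
      (fun x hx => by simp [(hT0 x hx).1]), hT, t2_split hS.cells hQ _ (hGi G hG).integrableOn]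
    congr 1
    · exact setIntegral_congr_fun (t2_Rg_meas ch Q) fun x hx => by
        simp only [(hφQ x hx).1]
    · refine Finset.sum_congr rfl fun κ hκ => ?_
      exact setIntegral_congr_fun (t2_Rg_meas ch κ) fun x hx => by
        simp only [(hφκ κ hκ x hx).1]
  set K : ℝ := ∫ x, |∑ i, Jc (Dm u x) i * φ x i| with hK
  set X : ℝ := Ds u ch d Q s + ∑ κ ∈ ch Q, Dq ch d κ with hX
  have hRH : |∫ x, H (u x) * ∑ i, Jc (Dm u x) i * φ x i| ≤ C2 * M * A * X := by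
    refine le_of_forall_pos_le_add fun δ hδ => ?_
    have hK0 : 0 ≤ K := integral_nonneg fun x => abs_nonneg _
    obtain ⟨G, hG, hGb, hGd, hGH⟩ := H_approx hS.Hb hS.HL (δ / (K + 1)) (by positivity)
    have hG2 := H2 hS.cells hS.deg Q hQ A W Wc hW hWc s hs h0 h1 h2 M G hG hGb hGd
    rw [← hI2 G hG.continuous] at hG2
    have hdiff : |(∫ x, H (u x) * ∑ i, Jc (Dm u x) i * φ x i) -
        ∫ x, G (u x) * ∑ i, Jc (Dm u x) i * φ x i| ≤ δ := by
      rw [← integral_sub (hGi H hHc) (hGi G hG.continuous), ← Real.norm_eq_abs]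
      have hJi : Integrable fun x => |∑ i, Jc (Dm u x) i * φ x i| := by
        refine hJc.abs.integrable_of_hasCompactSupport (HasCompactSupport.intro hφc fun x hx => ?_)
        simp [(hc0 x hx).1]
      calc ‖∫ x, H (u x) * ∑ i, Jc (Dm u x) i * φ x i - G (u x) * ∑ i, Jc (Dm u x) i * φ x i‖
          ≤ ∫ x, δ / (K + 1) * |∑ i, Jc (Dm u x) i * φ x i| := by
            refine norm_integral_le_of_norm_le (hJi.const_mul _) (Eventually.of_forall fun x => ?_)
            rw [← sub_mul, norm_mul, Real.norm_eq_abs, Real.norm_eq_abs]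
            refine mul_le_mul_of_nonneg_right ?_ (abs_nonneg _)
            rw [abs_sub_comm]
            exact hGH _
        _ = δ / (K + 1) * K := by rw [integral_const_mul]
        _ ≤ δ := by
            rw [div_mul_eq_mul_div, div_le_iff₀ (by positivity)]
            nlinarith
    calc |∫ x, H (u x) * ∑ i, Jc (Dm u x) i * φ x i|
        ≤ |∫ x, G (u x) * ∑ i, Jc (Dm u x) i * φ x i| +
          |(∫ x, H (u x) * ∑ i, Jc (Dm u x) i * φ x i) -
            ∫ x, G (u x) * ∑ i, Jc (Dm u x) i * φ x i| := by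
          have := abs_add_le (∫ x, G (u x) * ∑ i, Jc (Dm u x) i * φ x i)
            ((∫ x, H (u x) * ∑ i, Jc (Dm u x) i * φ x i) -
            ∫ x, G (u x) * ∑ i, Jc (Dm u x) i * φ x i)
          rwa [add_sub_cancel] at this
      _ ≤ C2 * M * A * X + δ := add_le_add hG2 hdiff
  have hν : ∫ x in T, ν x = (∫ x in Rg ch Q, ν x) + ∑ κ ∈ ch Q, ∫ x in Rg ch κ, ν x := by
    rw [hT]
    exact t2_split hS.cells hQ ν (hS.nint.mono_set hTB)
  have hν0 : 0 ≤ ∫ x in T, ν x := integral_nonneg hS.nn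
  have hX0 : 0 ≤ X := by
    have e1 : 0 ≤ Ds u ch d Q s := integral_nonneg fun y => abs_nonneg _
    have e2 : 0 ≤ ∑ κ ∈ ch Q, Dq ch d κ :=
      Finset.sum_nonneg fun κ _ => integral_nonneg fun y => abs_nonneg _
    rw [hX]; positivity
  rw [hI1] at hmain
  rw [abs_of_nonneg hM]
  have e3 : Ds u ch d Q s + (∑ κ ∈ ch Q, Dq ch d κ) + (∫ x in Rg ch Q, ν x) +
      ∑ κ ∈ ch Q, ∫ x in Rg ch κ, ν x = X + ∫ x in T, ν x := by
    rw [hν, hX]; ring
  rw [e3]
  set L : ℝ := (∫ x in Rg ch Q, ad u W x) + ∑ κ ∈ ch Q, ∫ x in Rg ch κ, ad u (Wc κ) x with hL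
  have e4 : |L| ≤ |∫ x, H (u x) * ∑ i, Jc (Dm u x) i * φ x i| +
      ((n : ℝ) + 1) * A * ∫ x in T, ν x := by
    have := abs_add_le (∫ x, H (u x) * ∑ i, Jc (Dm u x) i * φ x i)
      (L - ∫ x, H (u x) * ∑ i, Jc (Dm u x) i * φ x i)
    rw [add_sub_cancel] at this
    linarith
  have e5 : 0 ≤ ((n : ℝ) + 1) * A * X := by positivity
  have e6 : 0 ≤ C2 * M * A * ∫ x in T, ν x := by positivity
  calc |L| ≤ C2 * M * A * X + ((n : ℝ) + 1) * A * ∫ x in T, ν x := by linarith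
    _ ≤ (((n : ℝ) + 1) + C2 * M) * A * (X + ∫ x in T, ν x) := by nlinarith

end H930.HS.XTest2

namespace H930.HS

export XTest2 (test2)

end H930.HS
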